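import Pool.Agent.Lib.MP_d2f638_ag.Stab.StmtsA
import Pool.Agent.Lib.MP_d2f638_ag.RealGerm

/-!
# A4. Anisotropy over the function field of the curve over `K`
-/

namespace MP_d2f638_ag.Stab

open MvPolynomial Filter Topology

/-- Over an ordered field the form is anisotropic for negative `q`. -/
lemma anis_of_neg {K : Type} [Field K] [LinearOrder K] [IsStrictOrderedRing K] {q : K}
    (hq : q < 0) : Anis q := by
  intro v hv
  unfold nf at hv
  have h0 := sq_nonneg (v 0)
  have h1 := sq_nonneg (v 1)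
  have h2 := sq_nonneg (v 2)
  have h3 := sq_nonneg (v 3)
  have h4 : 0 ≤ -q * (v 2 ^ 2 + v 3 ^ 2) := mul_nonneg (neg_nonneg.2 hq.le) (add_nonneg h2 h3)
  have h5 : v 0 ^ 2 + v 1 ^ 2 + (-q * (v 2 ^ 2 + v 3 ^ 2)) = 0 := by linear_combination hv
  have h6 : v 0 ^ 2 = 0 := le_antisymm (by linarith) h0
  have h7 : v 1 ^ 2 = 0 := le_antisymm (by linarith) h1
  have h8 : -q * (v 2 ^ 2 + v 3 ^ 2) = 0 := le_antisymm (by linarith) h4
  have h9 : v 2 ^ 2 + v 3 ^ 2 = 0 := by
    rcases mul_eq_zero.1 h8 with h | h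
    · exact absurd (neg_eq_zero.1 h) hq.ne
    · exact h
  have h10 : v 2 ^ 2 = 0 := le_antisymm (by linarith) h2
  have h11 : v 3 ^ 2 = 0 := le_antisymm (by linarith) h3
  funext j
  fin_cases j
  · exact pow_eq_zero_iff two_ne_zero |>.1 h6
  · exact pow_eq_zero_iff two_ne_zero |>.1 h7
  · exact pow_eq_zero_iff two_ne_zero |>.1 h10
  · exact pow_eq_zero_iff two_ne_zero |>.1 h11

/-- Real square roots near a real point and a negative function. -/
theorem exists_anis_field {τ : Type} [Fintype τ] (L1 L2 L3 : MvPolynomial τ ℝ) (z0 : τ → ℝ)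
    (h1 : 0 < eval z0 L1) (h2 : 0 < eval z0 L2) (h3 : eval z0 L3 < 0) :
    ∃ (L : Type) (_ : Field L) (_ : Algebra ℝ L) (x : τ → L) (ξ1 ξ2 : L),
      AlgebraicIndependent ℝ x ∧ ξ1 ^ 2 = aeval x L1 ∧ ξ2 ^ 2 = aeval x L2 ∧
        Anis (aeval x L3) := by
  let U : Ultrafilter (τ → ℝ) := Ultrafilter.of (genFilter z0)
  have hU : (U : Filter (τ → ℝ)) ≤ genFilter z0 := Ultrafilter.of_le _
  let L := Filter.Germ (U : Filter (τ → ℝ)) ℝ
  let _ : Field L := inferInstanceAs (Field (Filter.Germ (U : Filter (τ → ℝ)) ℝ))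
  let κ : ((τ → ℝ) → ℝ) →+* L := Filter.Germ.coeRingHom (U : Filter (τ → ℝ))
  let _ : Algebra ℝ L := (κ.comp (Pi.constRingHom (τ → ℝ) ℝ)).toAlgebra
  have hmap : ∀ r : ℝ, algebraMap ℝ L r = κ (fun _ => r) := fun r => rfl
  let x : τ → L := fun i => κ (fun z => z i)
  have hae : ∀ p : MvPolynomial τ ℝ, aeval x p = κ (fun z => eval z p) := by
    intro p
    induction p using MvPolynomial.induction_on with
    | C a => simp only [algHom_C, hmap, eval_C]
    | add p q hp hq =>
      rw [map_add, hp, hq, ← map_add]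
      congr 1
      funext z
      simp
    | mul_X p i hp =>
      rw [map_mul, hp, aeval_X]
      show κ _ * κ _ = _
      rw [← map_mul]
      congr 1
      funext z
      simp
  have hκ0 : ∀ f : (τ → ℝ) → ℝ, κ f = 0 ↔ ∀ᶠ z in (U : Filter (τ → ℝ)), f z = 0 := by
    intro f
    exact Filter.Germ.coe_eq
  refine ⟨L, inferInstance, inferInstance, x, κ (fun z => Real.sqrt (eval z L1)),
    κ (fun z => Real.sqrt (eval z L2)), ?_, ?_, ?_, ?_⟩
  · rw [algebraicIndependent_iff_injective_aeval, injective_iff_map_eq_zero]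
    intro p hp
    by_contra hp0
    rw [hae, hκ0] at hp
    have h3 : ∀ᶠ z in (U : Filter (τ → ℝ)), eval z p ≠ 0 := by
      apply hU
      exact ⟨p, hp0, Set.univ, univ_mem, fun z _ hz => hz⟩
    obtain ⟨z, hz1, hz2⟩ := (hp.and h3).exists
    exact hz2 hz1
  · rw [hae, ← map_pow]
    refine Filter.Germ.coe_eq.2 ?_
    have h3 : ∀ᶠ z in (U : Filter (τ → ℝ)), 0 < eval z L1 := by
      apply hU
      refine ⟨1, one_ne_zero, {z | 0 < eval z L1}, ?_, fun z hz _ => hz⟩
      exact (MvPolynomial.continuous_eval L1).continuousAt.eventually (lt_mem_nhds h1)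
    filter_upwards [h3] with z hz
    exact Real.sq_sqrt hz.le
  · rw [hae, ← map_pow]
    refine Filter.Germ.coe_eq.2 ?_
    have h3 : ∀ᶠ z in (U : Filter (τ → ℝ)), 0 < eval z L2 := by
      apply hU
      refine ⟨1, one_ne_zero, {z | 0 < eval z L2}, ?_, fun z hz _ => hz⟩
      exact (MvPolynomial.continuous_eval L2).continuousAt.eventually (lt_mem_nhds h2)
    filter_upwards [h3] with z hz
    exact Real.sq_sqrt hz.le
  · let _ : LinearOrder L := inferInstanceAs (LinearOrder (Filter.Germ (U : Filter (τ → ℝ)) ℝ))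
    have : IsStrictOrderedRing L :=
      inferInstanceAs (IsStrictOrderedRing (Filter.Germ (U : Filter (τ → ℝ)) ℝ))
    refine anis_of_neg ?_
    rw [hae]
    have h4 : ∀ᶠ z in (U : Filter (τ → ℝ)), eval z L3 < 0 := by
      apply hU
      refine ⟨1, one_ne_zero, {z | eval z L3 < 0}, ?_, fun z hz _ => hz⟩
      exact (MvPolynomial.continuous_eval L3).continuousAt.eventually (gt_mem_nhds h3)
    exact Filter.Germ.coe_lt.2 h4

/-- The embedding of `K`. -/
theorem exists_emb {K L : Type} [Field K] [Algebra ℝ K] [Field L] [Algebra ℝ L] (al be : ℝ)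
    (t w z1 z2 : K) (hK : IsK al be t w z1 z2) (v : Fin 3 → L) (hv : AlgebraicIndependent ℝ v)
    (ξ : L) (hξ : ξ ^ 2 = Ff (algebraMap ℝ L al) (algebraMap ℝ L be) (v 0) (v 1) - v 2 ^ 2) :
    ∃ i : K →ₐ[ℝ] L, i t = v 0 ∧ i w = v 1 ∧ i z1 = v 2 := by
  let K0 : IntermediateField ℝ K := IntermediateField.adjoin ℝ (Set.range ![t, w, z1])
  let f : K0 →ₐ[ℝ] L := (IntermediateField.val _).comp
    ((hv.aevalEquivField.toAlgHom).comp hK.ind.aevalEquivField.symm.toAlgHom)
  have hmem : ∀ j : Fin 3, ![t, w, z1] j ∈ K0 := fun j =>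
    IntermediateField.subset_adjoin ℝ _ ⟨j, rfl⟩
  have hf : ∀ j : Fin 3, f ⟨![t, w, z1] j, hmem j⟩ = v j := by
    intro j
    have e1 : (⟨![t, w, z1] j, hmem j⟩ : K0) =
        hK.ind.aevalEquivField (algebraMap (MvPolynomial (Fin 3) ℝ)
          (FractionRing (MvPolynomial (Fin 3) ℝ)) (X j)) := by
      apply Subtype.ext
      rw [AlgebraicIndependent.aevalEquivField_algebraMap_apply_coe, aeval_X]
    show ((hv.aevalEquivField (hK.ind.aevalEquivField.symm _) : _) : L) = v j
    rw [e1, AlgEquiv.symm_apply_apply, AlgebraicIndependent.aevalEquivField_algebraMap_apply_coe,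
      aeval_X]
  let c : K0 := Ff (algebraMap ℝ K0 al) (algebraMap ℝ K0 be) ⟨![t, w, z1] 0, hmem 0⟩
    ⟨![t, w, z1] 1, hmem 1⟩ - ⟨![t, w, z1] 2, hmem 2⟩ ^ 2
  have hc : (c : K) = z2 ^ 2 := by
    have h1 : (c : K) = algebraMap K0 K c := rfl
    rw [h1]
    simp only [c, map_sub, map_pow, map_Ff]
    have e1 : algebraMap K0 K (algebraMap ℝ K0 al) = algebraMap ℝ K al := rfl
    have e2 : algebraMap K0 K (algebraMap ℝ K0 be) = algebraMap ℝ K be := rfl
    rw [e1, e2]
    show Ff (algebraMap ℝ K al) (algebraMap ℝ K be) t w - z1 ^ 2 = z2 ^ 2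
    rw [← hK.eqn]
    ring
  have hfc : f c = ξ ^ 2 := by
    simp only [c, map_sub, map_pow]
    have e0 : f (Ff (algebraMap ℝ K0 al) (algebraMap ℝ K0 be) ⟨![t, w, z1] 0, hmem 0⟩
        ⟨![t, w, z1] 1, hmem 1⟩) = Ff (f (algebraMap ℝ K0 al)) (f (algebraMap ℝ K0 be))
        (f ⟨![t, w, z1] 0, hmem 0⟩) (f ⟨![t, w, z1] 1, hmem 1⟩) :=
      map_Ff (f : K0 →+* L) _ _ _ _
    rw [e0, hf, hf, hf, AlgHom.commutes, AlgHom.commutes, hξ]
  have hint : Polynomial.aeval z2 (Polynomial.X ^ 2 - Polynomial.C c : Polynomial K0) = 0 := by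
    rw [map_sub, map_pow, Polynomial.aeval_X, Polynomial.aeval_C]
    show z2 ^ 2 - (c : K) = 0
    rw [hc, sub_self]
  have hspl : ∀ s ∈ ({z2} : Set K), IsIntegral K0 s ∧
      ((minpoly K0 s).map f.toRingHom).Splits := by
    rintro s rfl
    have hdvd : minpoly K0 s ∣ (Polynomial.X ^ 2 - Polynomial.C c : Polynomial K0) :=
      minpoly.dvd K0 s hint
    refine ⟨⟨_, Polynomial.monic_X_pow_sub_C c two_ne_zero, ?_⟩, ?_⟩
    · exact hint
    · have h1 : (minpoly K0 s).map f.toRingHom ∣
          (Polynomial.X ^ 2 - Polynomial.C c : Polynomial K0).map f.toRingHom :=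
        Polynomial.map_dvd _ hdvd
      have h2 : (Polynomial.X ^ 2 - Polynomial.C c : Polynomial K0).map f.toRingHom =
          (Polynomial.X - Polynomial.C ξ) * (Polynomial.X - Polynomial.C (-ξ)) := by
        rw [Polynomial.map_sub, Polynomial.map_pow, Polynomial.map_X, Polynomial.map_C]
        have : f.toRingHom c = ξ ^ 2 := hfc
        rw [this]
        simp only [map_pow, map_neg]
        ring
      rw [h2] at h1
      refine Polynomial.Splits.of_dvd ?_ ?_ h1
      · exact (Polynomial.Splits.X_sub_C ξ).mul (Polynomial.Splits.X_sub_C (-ξ))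
      · exact mul_ne_zero (Polynomial.X_sub_C_ne_zero _) (Polynomial.X_sub_C_ne_zero _)
  have htop : IntermediateField.adjoin K0 ({z2} : Set K) = ⊤ := by
    have h1 := IntermediateField.adjoin_adjoin_left ℝ (Set.range ![t, w, z1]) ({z2} : Set K)
    have h2 : Set.range ![t, w, z1] ∪ {z2} = ({t, w, z1, z2} : Set K) := by
      ext y
      simp only [Set.mem_union, Set.mem_range, Set.mem_singleton_iff, Set.mem_insert_iff]
      constructor
      · rintro (⟨j, rfl⟩ | h)
        · fin_cases j <;> simp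
        · exact Or.inr (Or.inr (Or.inr h))
      · rintro (h | h | h | h)
        · exact Or.inl ⟨0, h.symm⟩
        · exact Or.inl ⟨1, h.symm⟩
        · exact Or.inl ⟨2, h.symm⟩
        · exact Or.inr h
    rw [h2, hK.gen] at h1
    rw [eq_top_iff]
    intro y _
    have h3 : y ∈ (IntermediateField.adjoin (IntermediateField.adjoin ℝ (Set.range ![t, w, z1]))
        ({z2} : Set K)).restrictScalars ℝ := by
      rw [h1]; trivial
    exact h3
  obtain ⟨φ, hφ⟩ := IntermediateField.exists_algHom_of_adjoin_splits' f hspl htop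
  have hφ' : ∀ j : Fin 3, φ (![t, w, z1] j) = v j := by
    intro j
    have := DFunLike.congr_fun hφ ⟨![t, w, z1] j, hmem j⟩
    rw [hf] at this
    exact this
  exact ⟨φ, hφ' 0, hφ' 1, hφ' 2⟩

/-- Elements which are algebraic over the image of `K` are in the closure. -/
theorem anis_mem_clF_of_root {K L : Type} [Field K] [Algebra ℝ K] [Field L] [Algebra ℝ L] (al be : ℝ)
    (t w z1 z2 : K) (hK : IsK al be t w z1 z2) (v : Fin 3 → L) (i : K →ₐ[ℝ] L) (h0 : i t = v 0)
    (h1 : i w = v 1) (h2 : i z1 = v 2) (p : Polynomial K) (hp : p ≠ 0) (x : L)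
    (hx : p.eval₂ (i : K →+* L) x = 0) : x ∈ clF (algebraMap ℝ L) (Set.range v) := by
  let F0 : Subfield L := Subfield.closure (Set.range (algebraMap ℝ L) ∪ Set.range v)
  let A : IntermediateField F0 L := algebraicClosure F0 L
  have hA : ∀ y : L, y ∈ A ↔ IsAlgebraic F0 y := fun y => mem_algebraicClosure_iff
  have hF0 : ∀ y ∈ F0, y ∈ A := fun y hy => A.algebraMap_mem ⟨y, hy⟩
  have hcst : ∀ r : ℝ, algebraMap ℝ L r ∈ A := fun r =>
    hF0 _ (Subfield.subset_closure (Or.inl ⟨r, rfl⟩))
  have hv : ∀ j, v j ∈ A := fun j => hF0 _ (Subfield.subset_closure (Or.inr ⟨j, rfl⟩))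
  have hz2 : i z2 ∈ A := by
    have h3 : (i z2) ^ 2 ∈ A := by
      have h4 : (i z2) ^ 2 = Ff (algebraMap ℝ L al) (algebraMap ℝ L be) (v 0) (v 1) -
          v 2 ^ 2 := by
        have h5 := congrArg i hK.eqn
        have h6 : i (Ff (algebraMap ℝ K al) (algebraMap ℝ K be) t w) =
            Ff (i (algebraMap ℝ K al)) (i (algebraMap ℝ K be)) (i t) (i w) :=
          map_Ff (i : K →+* L) _ _ _ _
        rw [h6, map_add, map_pow, map_pow, AlgHom.commutes, AlgHom.commutes, h0, h1, h2] at h5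
        rw [← h5]
        ring
      rw [h4]
      unfold Ff Qf Rf
      have c1 := hcst al
      have c2 := hcst be
      have v0 := hv 0
      have v1 := hv 1
      have v2 := hv 2
      exact sub_mem (add_mem (mul_mem (mul_mem (add_mem v0 c1) (add_mem v0 c2)) (pow_mem v1 2))
        (mul_mem (mul_mem (sub_mem v0 c1) (sub_mem v0 c2))
          (sub_mem (sub_mem (pow_mem v0 2) (pow_mem c1 2)) (one_mem _)))) (pow_mem v2 2)
    rw [hA] at h3 ⊢
    exact IsAlgebraic.of_pow two_pos h3
  have himg : ∀ y : K, i y ∈ A := by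
    intro y
    have hy : y ∈ IntermediateField.adjoin ℝ {t, w, z1, z2} := by rw [hK.gen]; trivial
    induction hy using IntermediateField.adjoin_induction with
    | mem y hy =>
      rcases hy with rfl | rfl | rfl | rfl
      · rw [h0]; exact hv 0
      · rw [h1]; exact hv 1
      · rw [h2]; exact hv 2
      · exact hz2
    | algebraMap r => rw [AlgHom.commutes]; exact hcst r
    | add a b _ _ ha hb => rw [map_add]; exact add_mem ha hb
    | inv a _ ha => rw [map_inv₀]; exact inv_mem ha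
    | mul a b _ _ ha hb => rw [map_mul]; exact mul_mem ha hb
  let iA : K →+* A := (i : K →+* L).codRestrict A himg
  have hx' : IsAlgebraic A x := by
    refine ⟨p.map iA, ?_, ?_⟩
    · rw [Ne, Polynomial.map_eq_zero]
      exact hp
    · rw [Polynomial.aeval_def, Polynomial.eval₂_map]
      exact hx
  have hx2 : IsAlgebraic F0 x := IsAlgebraic.restrictScalars F0 hx'
  show x ∈ (algebraicClosure F0 L).toSubfield
  exact (hA x).2 hx2

theorem anis (hF : stCFhom) (hS : stSnoc) : stAnis := by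
  intro K M _ _ _ al be t w z1 z2 iM x y hbe hal hrel hK hCF
  have : CharZero K := charZero_of_injective_algebraMap (algebraMap ℝ K).injective
  have hal1 : 1 < al := by nlinarith
  let z0 : Fin 4 → ℝ := ![0, al + 2, 0, -(al + be) / 2]
  obtain ⟨L, iL, iA, e, ξ1, ξ2, hind, e1, e2, hanis⟩ := exists_anis_field
    (Ff (C al) (C be) (X 0) (X 1) - X 2 ^ 2 : MvPolynomial (Fin 4) ℝ)
    (delta (C al) (X 3)) (Qf (C al) (C be) (X 3)) z0
    (by
      rw [map_sub, map_Ff, map_pow]
      simp only [eval_C, eval_X]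
      show 0 < Ff al be 0 (al + 2) - 0 ^ 2
      unfold Ff Qf Rf
      have : 0 < al * be := by positivity
      nlinarith)
    (by
      rw [map_delta]
      simp only [eval_C, eval_X]
      show 0 < delta al (-(al + be) / 2)
      rw [← Qf_mul_Rf hrel]
      unfold Qf Rf
      have h1 : 0 < al - be := by linarith
      have h2 : (-(al + be) / 2 + al) * (-(al + be) / 2 + be) = -((al - be) ^ 2 / 4) := by ring
      have h3 : 0 < (-(al + be) / 2 - al) * (-(al + be) / 2 - be) :=
        mul_pos_of_neg_of_neg (by linarith) (by linarith)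
      have h4 : (-(al + be) / 2) ^ 2 - al ^ 2 - 1 < 0 := by nlinarith
      rw [h2]
      have h5 : (-(al + be) / 2 - al) * (-(al + be) / 2 - be) *
        ((-(al + be) / 2) ^ 2 - al ^ 2 - 1) < 0 := mul_neg_of_pos_of_neg h3 h4
      have h6 : 0 < (al - be) ^ 2 / 4 := by positivity
      nlinarith)
    (by
      rw [map_Qf]
      simp only [eval_C, eval_X]
      show Qf al be (-(al + be) / 2) < 0
      unfold Qf
      have h1 : 0 < al - be := by linarith
      have h2 : (-(al + be) / 2 + al) * (-(al + be) / 2 + be) = -((al - be) ^ 2 / 4) := by ring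
      rw [h2]
      have : 0 < (al - be) ^ 2 / 4 := by positivity
      linarith)
  let v : Fin 3 → L := fun j => e j.castSucc
  have hv : AlgebraicIndependent ℝ v := hind.comp _ (Fin.castSucc_injective 3)
  have e1' : ξ1 ^ 2 = Ff (algebraMap ℝ L al) (algebraMap ℝ L be) (v 0) (v 1) - v 2 ^ 2 := by
    rw [e1]
    simp only [Ff, Qf, Rf, map_sub, map_add, map_mul, map_pow, map_one, aeval_X, algHom_C]
    rfl
  have e2' : ξ2 ^ 2 = delta (algebraMap ℝ L al) (e 3) := by
    rw [e2]
    simp only [delta, map_sub, map_pow, aeval_X, algHom_C]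
  have e3' : aeval e (Qf (C al) (C be) (X 3) : MvPolynomial (Fin 4) ℝ) =
      Qf (algebraMap ℝ L al) (algebraMap ℝ L be) (e 3) := by
    simp only [Qf, map_add, map_mul, aeval_X, algHom_C]
  obtain ⟨i, i0, i1, i2⟩ := exists_emb al be t w z1 z2 hK v hv ξ1 e1'
  have hAI : AI (algebraMap ℝ L) (Fin.snoc v (e 3) : Fin 4 → L) := by
    have h1 : (Fin.snoc v (e 3) : Fin 4 → L) = e := Fin.snoc_init_self e
    rw [h1]
    intro p hp h0
    rw [algebraicIndependent_iff] at hind
    exact hp (hind p h0)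
  have hnot := ((hS ℝ L (algebraMap ℝ L) 3 v (e 3)).1 hAI).2
  have hTr : Trans (i : K →+* L) (e 3) := by
    intro p hp h0
    exact hnot (anis_mem_clF_of_root al be t w z1 z2 hK v i i0 i1 i2 p hp _ h0)
  obtain ⟨j, hj, hjx, hjy⟩ := hF K M L (algebraMap ℝ K al) iM x y (i : K →+* L) (e 3) ξ2
    (by
      rw [← map_pow]
      intro h
      have := (algebraMap ℝ K).injective (h.trans (map_zero _).symm)
      nlinarith)
    (by
      rw [← map_pow]
      intro h
      have h2 := (algebraMap ℝ K).injective (h.trans (map_one _).symm)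
      nlinarith [sq_nonneg (al ^ 2 - 1)])
    hCF hTr (by
      rw [e2']
      congr 1
      exact (i.commutes al).symm)
  have hjc : ∀ r : ℝ, j (iM (algebraMap ℝ K r)) = algebraMap ℝ L r := by
    intro r
    have h1 : j (iM (algebraMap ℝ K r)) = (j.comp iM) (algebraMap ℝ K r) := rfl
    rw [h1, hj]
    exact i.commutes r
  intro c hc
  have h1 : nf (aeval e (Qf (C al) (C be) (X 3) : MvPolynomial (Fin 4) ℝ))
      (fun k => j (c k)) = 0 := by
    rw [e3', ← hjx, ← hjc, ← hjc, ← map_Qf, ← map_zero j, ← hc]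
    simp [nf]
  have h2 := hanis _ h1
  funext k
  have h3 := congrFun h2 k
  exact j.injective (h3.trans (map_zero j).symm)

end MP_d2f638_ag.Stab
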