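import Pool.Agent.Lib.MP_d2f638_ag.Stab.StmtsA

/-!
# From the norm equation to a point of the elliptic curve (corestriction and Cassels-Pfister)
-/

namespace MP_d2f638_ag.Stab

namespace EP

open Polynomial

variable {κ : Type} [Field κ]

/-- Even and odd parts with respect to `u = x² - c`. -/
lemma decomp (c : κ) (P : κ[X]) :
    ∃ P0 P1 : κ[X], P = P0.comp (X ^ 2 - C c) + X * P1.comp (X ^ 2 - C c) := by
  induction P using Polynomial.induction_on with
  | C a => exact ⟨C a, 0, by simp⟩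
  | add p q hp hq =>
    obtain ⟨p0, p1, hp⟩ := hp
    obtain ⟨q0, q1, hq⟩ := hq
    refine ⟨p0 + q0, p1 + q1, ?_⟩
    simp only [add_comp]
    linear_combination hp + hq
  | monomial n a h =>
    obtain ⟨p0, p1, h⟩ := h
    refine ⟨(X + C c) * p1, p0, ?_⟩
    simp only [mul_comp, add_comp, X_comp, C_comp]
    linear_combination X * h

lemma map_map_s {s : κ →+* κ} (hs : ∀ c, s (s c) = c) (p : κ[X]) : (p.map s).map s = p := by
  rw [Polynomial.map_map]
  have : s.comp s = RingHom.id κ := RingHom.ext hs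
  rw [this, Polynomial.map_id]

lemma aniso (s : κ →+* κ) {η μ : κ[X]} (h : η ^ 2 = (X - 1) * (μ * μ.map s)) :
    η = 0 ∧ μ = 0 := by
  have hX : (X - 1 : κ[X]) ≠ 0 := X_sub_C_ne_zero (R := κ) 1
  by_cases hμ : μ = 0
  · subst hμ
    refine ⟨?_, rfl⟩
    rw [zero_mul, mul_zero] at h
    exact pow_eq_zero_iff (two_ne_zero) |>.1 h
  · exfalso
    have hsμ : μ.map s ≠ 0 := (Polynomial.map_ne_zero_iff s.injective).2 hμ
    have h1 := congrArg natDegree h
    rw [natDegree_pow, natDegree_mul hX (mul_ne_zero hμ hsμ), natDegree_mul hμ hsμ,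
      natDegree_map, show (X - 1 : κ[X]) = X - C 1 by simp, natDegree_X_sub_C] at h1
    omega

lemma CP {s : κ →+* κ} (hs : ∀ c, s (s c) = c) (f : κ[X]) (hf : f.map s = f) :
    ∀ (n : ℕ) (D η μ : κ[X]), D ≠ 0 → D.natDegree ≤ n → D.map s = D → η.map s = η →
      -η ^ 2 + (X - 1) * (μ * μ.map s) = D ^ 2 * f →
      ∃ η0 μ0 : κ[X], η0.map s = η0 ∧ -η0 ^ 2 + (X - 1) * (μ0 * μ0.map s) = f := by
  intro n
  induction n with
  | zero =>
    intro D η μ hD hn hsD hsη h
    have hDc : D = C (D.coeff 0) := eq_C_of_natDegree_le_zero hn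
    set c := D.coeff 0 with hc
    have hc0 : c ≠ 0 := by
      intro h0
      rw [h0, C_0] at hDc
      exact hD hDc
    have hsc : s c = c := by
      have h1 := congrArg (fun p => p.coeff 0) hsD
      simpa [coeff_map] using h1
    have hsc' : s c⁻¹ = c⁻¹ := by rw [map_inv₀, hsc]
    refine ⟨C c⁻¹ * η, C c⁻¹ * μ, ?_, ?_⟩
    · rw [Polynomial.map_mul, map_C, hsc', hsη]
    · rw [Polynomial.map_mul, map_C, hsc']
      have h2 : (C c⁻¹ : κ[X]) * C c = 1 := by
        rw [← C_mul, inv_mul_cancel₀ hc0, C_1]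
      rw [hDc] at h
      linear_combination (C c⁻¹) ^ 2 * h + (C c⁻¹ * C c + 1) * f * h2
  | succ n ih =>
    intro D η μ hD hn hsD hsη h
    by_cases hd : D.natDegree = 0
    · exact ih D η μ hD (by omega) hsD hsη h
    obtain ⟨v1, hv1⟩ : ∃ v, v = η / D := ⟨_, rfl⟩
    obtain ⟨v2, hv2⟩ : ∃ v, v = μ / D := ⟨_, rfl⟩
    obtain ⟨r1, hr1⟩ : ∃ v, v = η % D := ⟨_, rfl⟩
    obtain ⟨r2, hr2⟩ : ∃ v, v = μ % D := ⟨_, rfl⟩
    have e1 : D * v1 + r1 = η := by rw [hv1, hr1]; exact EuclideanDomain.div_add_mod η D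
    have e2 : D * v2 + r2 = μ := by rw [hv2, hr2]; exact EuclideanDomain.div_add_mod μ D
    have sv1 : v1.map s = v1 := by rw [hv1, Polynomial.map_div, hsη, hsD]
    have sr1 : r1.map s = r1 := by rw [hr1, Polynomial.map_mod, hsη, hsD]
    have e2s : D * v2.map s + r2.map s = μ.map s := by
      rw [← e2, Polynomial.map_add, Polynomial.map_mul, hsD]
    have h' : -(D * v1 + r1) ^ 2 + (X - 1) * ((D * v2 + r2) * (D * v2.map s + r2.map s)) =
        D ^ 2 * f := by rw [e1, e2, e2s]; exact h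
    obtain ⟨φ, hφ⟩ : ∃ v, v = -v1 ^ 2 + (X - 1) * (v2 * v2.map s) := ⟨_, rfl⟩
    obtain ⟨B, hB⟩ : ∃ v, v = -2 * (v1 * r1) + (X - 1) * (v2 * r2.map s + r2 * v2.map s) :=
      ⟨_, rfl⟩
    obtain ⟨D', hD'⟩ : ∃ v, v = D * (f - φ) - B := ⟨_, rfl⟩
    have hkey : -r1 ^ 2 + (X - 1) * (r2 * r2.map s) = D * D' := by
      rw [hD', hB, hφ]
      linear_combination h'
    have sφ : φ.map s = φ := by
      rw [hφ]
      simp only [Polynomial.map_add, Polynomial.map_neg, Polynomial.map_pow, Polynomial.map_mul,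
        Polynomial.map_sub, map_X, Polynomial.map_one, map_map_s hs, sv1]
      ring
    have sB : B.map s = B := by
      rw [hB]
      simp only [Polynomial.map_add, Polynomial.map_neg, Polynomial.map_mul,
        Polynomial.map_sub, map_X, Polynomial.map_one, map_map_s hs, sv1, sr1,
        Polynomial.map_ofNat]
      ring
    have sD' : D'.map s = D' := by
      rw [hD']
      simp only [Polynomial.map_mul, Polynomial.map_sub, sφ, sB, hf, hsD]
    by_cases hr : r1 = 0 ∧ r2 = 0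
    · refine ⟨v1, v2, sv1, ?_⟩
      rw [hr.1, hr.2, Polynomial.map_zero] at h'
      have h3 : D ^ 2 * (-v1 ^ 2 + (X - 1) * (v2 * v2.map s)) = D ^ 2 * f := by
        linear_combination h'
      exact mul_left_cancel₀ (pow_ne_zero 2 hD) h3
    have hD'0 : D' ≠ 0 := by
      intro h0
      rw [h0, mul_zero] at hkey
      exact hr (aniso s (by linear_combination -hkey))
    have hX : (X - 1 : κ[X]) = X - C 1 := by simp
    have hlt1 : r1.natDegree < D.natDegree := by
      rw [hr1]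
      exact natDegree_mod_lt η hd
    have hlt2 : r2.natDegree < D.natDegree := by
      rw [hr2]
      exact natDegree_mod_lt μ hd
    have hdeg : D.natDegree + D'.natDegree < 2 * D.natDegree := by
      rw [← natDegree_mul hD hD'0, ← hkey]
      refine lt_of_le_of_lt (natDegree_add_le _ _) (max_lt ?_ ?_)
      · rw [natDegree_neg, natDegree_pow]
        omega
      · refine lt_of_le_of_lt natDegree_mul_le ?_
        have h1 : (r2 * r2.map s).natDegree ≤ r2.natDegree + r2.natDegree := by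
          refine natDegree_mul_le.trans ?_
          rw [natDegree_map]
        rw [hX, natDegree_X_sub_C]
        omega
    refine ih D' (D' * v1 + (φ - f) * r1) (D' * v2 + (φ - f) * r2) hD'0 (by omega) sD' ?_ ?_
    · simp only [Polynomial.map_add, Polynomial.map_mul, Polynomial.map_sub, sφ, sv1, sr1, hf, sD']
    · simp only [Polynomial.map_add, Polynomial.map_mul, Polynomial.map_sub, sφ, hf, sD']
      have hB' : B = D * (f - φ) - D' := by rw [hD']; ring
      rw [hB] at hB'
      linear_combination (-(D' ^ 2)) * hφ + (φ - f) ^ 2 * hkey + D' * (φ - f) * hB'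

lemma extract [CharZero κ] {s : κ →+* κ} {I : κ} (hI : I ^ 2 = -1) (hsI : s I = -I)
    (η μ : κ[X]) (sη : η.map s = η) (h : -η ^ 2 + (X - 1) * (μ * μ.map s) = X ^ 3 - X) :
    ∃ p q : κ, q ^ 2 = p ^ 3 - p ∧ p ≠ 1 ∧ s p = (p + 1) / (p - 1) ∧
      s q = -2 * q / (p - 1) ^ 2 := by
  have hX : (X - 1 : κ[X]) = X - C 1 := by simp
  have hX0 : (X - 1 : κ[X]) ≠ 0 := by rw [hX]; exact X_sub_C_ne_zero 1
  have h1 : η.eval 1 = 0 := by
    have := congrArg (eval 1) h
    simpa using this
  obtain ⟨η1, rfl⟩ := dvd_iff_isRoot.2 h1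
  rw [← hX] at sη h
  have sη1 : η1.map s = η1 := by
    have h2 : (X - 1) * η1.map s = (X - 1) * η1 := by
      rw [← sη]
      simp only [Polynomial.map_mul, Polynomial.map_sub, map_X, Polynomial.map_one]
    exact mul_left_cancel₀ hX0 h2
  have h2 : X * (X + 1) = -((X - 1) * η1 ^ 2) + μ * μ.map s := by
    refine mul_left_cancel₀ hX0 ?_
    linear_combination -h
  have hl : (X * (X + 1) : κ[X]).natDegree = 2 := by
    rw [natDegree_mul X_ne_zero (by rw [← C_1]; exact X_add_C_ne_zero 1), natDegree_X,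
      show (X + 1 : κ[X]) = X + C 1 by simp, natDegree_X_add_C]
  have hμ : μ ≠ 0 := by
    rintro rfl
    by_cases hη : η1 = 0
    · rw [hη] at h2
      simp at h2
      rw [h2] at hl
      simp at hl
    · rw [zero_mul, add_zero] at h2
      rw [h2, natDegree_neg, natDegree_mul hX0 (pow_ne_zero 2 hη), natDegree_pow, hX,
        natDegree_X_sub_C] at hl
      omega
  have hμs : μ.map s ≠ 0 := (Polynomial.map_ne_zero_iff s.injective).2 hμ
  have hdμ : (μ * μ.map s).natDegree = 2 * μ.natDegree := by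
    rw [natDegree_mul hμ hμs, natDegree_map]
    ring
  have hdeg : μ.natDegree = 1 ∧ η1.natDegree = 0 := by
    by_cases hη : η1 = 0
    · subst hη
      have h3 : X * (X + 1) = μ * μ.map s := by rw [h2]; ring
      rw [h3, hdμ] at hl
      exact ⟨by omega, natDegree_zero⟩
    · have hdη : (-((X - 1) * η1 ^ 2)).natDegree = 1 + 2 * η1.natDegree := by
        rw [natDegree_neg, natDegree_mul hX0 (pow_ne_zero 2 hη), natDegree_pow, hX,
          natDegree_X_sub_C]
      rcases lt_trichotomy (1 + 2 * η1.natDegree) (2 * μ.natDegree) with hlt | heq | hgt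
      · rw [h2, natDegree_add_eq_right_of_natDegree_lt (by rw [hdη, hdμ]; exact hlt), hdμ] at hl
        omega
      · omega
      · rw [h2, natDegree_add_eq_left_of_natDegree_lt (by rw [hdη, hdμ]; exact hgt), hdη] at hl
        omega
  have hμe : μ = C (μ.coeff 1) * X + C (μ.coeff 0) :=
    eq_X_add_C_of_natDegree_le_one hdeg.1.le
  have hηe : η1 = C (η1.coeff 0) := eq_C_of_natDegree_le_zero hdeg.2.le
  obtain ⟨m1, hm1⟩ : ∃ m, m = μ.coeff 1 := ⟨_, rfl⟩
  obtain ⟨m0, hm0⟩ : ∃ m, m = μ.coeff 0 := ⟨_, rfl⟩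
  obtain ⟨a, ha⟩ : ∃ m, m = η1.coeff 0 := ⟨_, rfl⟩
  rw [← hm1, ← hm0] at hμe
  rw [← ha] at hηe
  have sa : s a = a := by
    have h3 := congrArg (fun p => p.coeff 0) sη1
    rw [ha]
    simpa [coeff_map] using h3
  rw [hμe, hηe] at h2
  simp only [Polynomial.map_add, Polynomial.map_mul, map_C, map_X] at h2
  have v0 := congrArg (eval 0) h2
  have v1 := congrArg (eval 1) h2
  have v2 := congrArg (eval (-1)) h2
  simp only [eval_mul, eval_add, eval_X, eval_C, eval_neg, eval_sub, eval_pow, eval_one] at v0 v1 v2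
  have e0 : m0 * s m0 = -a ^ 2 := by linear_combination -v0
  have e2 : (m0 + m1) * (s m0 + s m1) = 2 := by linear_combination -v1
  have e1 : m1 * s m1 = 1 := by
    have h4 : (2 : κ) * (m1 * s m1) = 2 * 1 := by linear_combination -v1 - v2 + 2 * v0
    exact mul_left_cancel₀ two_ne_zero h4
  have hm1 : m1 ≠ 0 := by
    rintro rfl
    rw [zero_mul] at e1
    exact zero_ne_one e1
  have hsm1 : s m1 ≠ 0 := by
    intro h0
    rw [h0, mul_zero] at e1
    exact zero_ne_one e1
  have hp2 : (-m0 / m1 - 1) * (-s m0 / s m1 - 1) = 2 := by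
    field_simp
    linear_combination e2 - 2 * e1
  have hpp : (-m0 / m1) * (-s m0 / s m1) = -a ^ 2 := by
    field_simp
    linear_combination e0 + a ^ 2 * e1
  have hsp : s (-m0 / m1) = -s m0 / s m1 := by rw [map_div₀, map_neg]
  obtain ⟨p, hp⟩ : ∃ p, p = -m0 / m1 := ⟨_, rfl⟩
  rw [← hsp, ← hp] at hp2 hpp
  have hp1 : p - 1 ≠ 0 := by
    intro h0
    rw [h0, zero_mul] at hp2
    exact two_ne_zero hp2.symm
  have hsp' : s p = (p + 1) / (p - 1) := by
    rw [eq_div_iff hp1]
    linear_combination hp2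
  refine ⟨p, I * a * (p - 1), ?_, sub_ne_zero.1 hp1, hsp', ?_⟩
  · have h5 : s p * (p - 1) = p + 1 := by linear_combination hp2
    linear_combination a ^ 2 * (p - 1) ^ 2 * hI - (p - 1) ^ 2 * hpp + p * (p - 1) * h5
  · rw [map_mul, map_mul, hsI, sa, map_sub, map_one, eq_div_iff (pow_ne_zero 2 hp1)]
    linear_combination (-I * a * (p - 1)) * hp2

lemma nonsq [CharZero κ] {a : κ} (ha : a ^ 2 ≠ 0) {p q : κ[X]}
    (h : p ^ 2 = delta (C a) X * q ^ 2) : p = 0 ∧ q = 0 := by
  by_cases hq : q = 0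
  · subst hq
    refine ⟨?_, rfl⟩
    rw [zero_pow two_ne_zero, mul_zero] at h
    exact pow_eq_zero_iff two_ne_zero |>.1 h
  exfalso
  have ha0 : a ≠ 0 := fun h0 => ha (by rw [h0, zero_pow two_ne_zero])
  obtain ⟨g, hg⟩ : ∃ g : κ[X], g = (X + C a) * ((X ^ 2 - (C a) ^ 2) ^ 2 - 1) := ⟨_, rfl⟩
  have hδ : delta (C a) X = (X - C a) * g := by
    rw [hg, delta]
    ring
  have hga : g.eval a ≠ 0 := by
    rw [hg]
    simp only [eval_mul, eval_add, eval_X, eval_C, eval_sub, eval_pow, eval_one, sub_self]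
    rw [zero_pow two_ne_zero, zero_sub, mul_neg, mul_one, ← two_mul, neg_ne_zero]
    exact mul_ne_zero two_ne_zero ha0
  have hg0 : g ≠ 0 := by
    rintro rfl
    exact hga eval_zero
  have hXa : (X - C a : κ[X]) ≠ 0 := X_sub_C_ne_zero a
  rw [hδ] at h
  have hR : (X - C a) * g * q ^ 2 ≠ 0 := mul_ne_zero (mul_ne_zero hXa hg0) (pow_ne_zero 2 hq)
  have hp : p ≠ 0 := by
    rintro rfl
    rw [zero_pow two_ne_zero] at h
    exact hR h.symm
  have h1 := congrArg (rootMultiplicity a) h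
  rw [rootMultiplicity_mul hR, rootMultiplicity_mul (mul_ne_zero hXa hg0),
    rootMultiplicity_X_sub_C_self, rootMultiplicity_eq_zero hga, sq, sq,
    rootMultiplicity_mul (mul_ne_zero hp hp), rootMultiplicity_mul (mul_ne_zero hq hq)] at h1
  omega

lemma comp_inj {c : κ} {p q : κ[X]} (h : p.comp (X ^ 2 - C c) = q.comp (X ^ 2 - C c)) :
    p = q := by
  have h1 : (p - q).comp (X ^ 2 - C c) = 0 := by rw [sub_comp, h, sub_self]
  rcases comp_eq_zero_iff.1 h1 with h2 | ⟨_, h2⟩
  · exact sub_eq_zero.1 h2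
  · exfalso
    have h3 := congrArg natDegree h2
    rw [natDegree_C, natDegree_X_pow_sub_C] at h3
    omega

end EP

open EP Polynomial in
theorem ep : stEP := by
  intro κ _ _ s a b I a1 b1 a2 b2 hs sa sb hI hsI hb ha _ hN
  obtain ⟨δ, hδ⟩ : ∃ δ : κ[X], δ = delta (C a) X := ⟨_, rfl⟩
  obtain ⟨Q, hQ⟩ : ∃ Q : κ[X], Q = Qf (C a) (C b) X := ⟨_, rfl⟩
  have id1 := hN.id1
  have id2 := hN.id2
  rw [← hδ, ← hQ] at id1
  rw [← hQ] at id2
  have sδ : δ.map s = δ := by
    rw [hδ, delta]
    simp only [Polynomial.map_sub, Polynomial.map_pow, map_X, map_C, sa]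
  have sQ : Q.map s = Q := by
    rw [hQ, Qf]
    simp only [Polynomial.map_mul, Polynomial.map_add, map_X, map_C, sa, sb]
  have hmap0 : ∀ p : κ[X], p.map s = 0 → p = 0 := fun p hp =>
    (Polynomial.map_eq_zero_iff s.injective).1 hp
  -- the denominator
  obtain ⟨e, he⟩ : ∃ e : κ[X], e = a2 ^ 2 - δ * b2 ^ 2 := ⟨_, rfl⟩
  have he0 : e ≠ 0 := by
    intro h0
    have h1 : a2 ^ 2 = delta (C a) X * b2 ^ 2 := by
      rw [← hδ]
      linear_combination h0 - he
    obtain ⟨rfl, rfl⟩ := nonsq ha h1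
    simp only [zero_mul, add_zero, mul_zero, Polynomial.map_zero] at id1 id2
    have h2 : (a1 ^ 2 - δ * b1 ^ 2) * a1.map s = 0 := by
      linear_combination a1 * id1 - δ * b1 * id2
    have h3 : (a1 ^ 2 - δ * b1 ^ 2) * b1.map s = 0 := by
      linear_combination a1 * id2 - b1 * id1
    by_cases h4 : a1 ^ 2 - δ * b1 ^ 2 = 0
    · have h5 : a1 ^ 2 = delta (C a) X * b1 ^ 2 := by
        rw [← hδ]
        linear_combination h4
      obtain ⟨h6, h7⟩ := nonsq ha h5
      exact hN.ne ⟨h6, h7, rfl, rfl⟩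
    · exact hN.ne ⟨hmap0 _ ((mul_eq_zero.1 h2).resolve_left h4),
        hmap0 _ ((mul_eq_zero.1 h3).resolve_left h4), rfl, rfl⟩
  obtain ⟨A, hA⟩ : ∃ A : κ[X], A = a1 * a2 - b1 * b2 * δ := ⟨_, rfl⟩
  obtain ⟨B, hB⟩ : ∃ B : κ[X], B = b1 * a2 - a1 * b2 := ⟨_, rfl⟩
  have sA : A.map s = a1.map s * a2.map s - b1.map s * b2.map s * δ := by
    rw [hA]
    simp only [Polynomial.map_sub, Polynomial.map_mul, sδ]
  have sB : B.map s = b1.map s * a2.map s - a1.map s * b2.map s := by
    rw [hB]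
    simp only [Polynomial.map_sub, Polynomial.map_mul]
  have se : e.map s = (a2.map s) ^ 2 - δ * (b2.map s) ^ 2 := by
    rw [he]
    simp only [Polynomial.map_sub, Polynomial.map_mul, Polynomial.map_pow, sδ]
  have j1 : A * A.map s + B * B.map s * δ = Q * (e * e.map s) := by
    rw [sA, sB, se, hA, hB, he]
    linear_combination (a2 * a2.map s + b2 * b2.map s * δ) * id1 -
      (a2 * b2.map s + b2 * a2.map s) * δ * id2
  have j2 : A * B.map s + B * A.map s = 0 := by
    rw [sA, sB, hA, hB]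
    linear_combination (a2 * a2.map s + b2 * b2.map s * δ) * id2 -
      (a2 * b2.map s + b2 * a2.map s) * id1
  clear id1 id2 sA sB se hA hB he hN
  -- even and odd parts
  obtain ⟨A0, A1, hA⟩ := decomp (a ^ 2) A
  obtain ⟨B0, B1, hB⟩ := decomp (a ^ 2) B
  obtain ⟨e0, e1, he⟩ := decomp (a ^ 2) e
  obtain ⟨v, hv⟩ : ∃ v : κ[X], v = X ^ 2 - C (a ^ 2) := ⟨_, rfl⟩
  rw [← hv] at hA hB he
  have sv : v.map s = v := by
    rw [hv]
    simp only [Polynomial.map_sub, Polynomial.map_pow, map_X, map_C, map_pow, sa]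
  have scomp : ∀ p : κ[X], (p.comp v).map s = (p.map s).comp v := fun p => by
    rw [map_comp, sv]
  have sA : A.map s = (A0.map s).comp v + X * (A1.map s).comp v := by
    rw [hA, Polynomial.map_add, Polynomial.map_mul, map_X, scomp, scomp]
  have sB : B.map s = (B0.map s).comp v + X * (B1.map s).comp v := by
    rw [hB, Polynomial.map_add, Polynomial.map_mul, map_X, scomp, scomp]
  have se : e.map s = (e0.map s).comp v + X * (e1.map s).comp v := by
    rw [he, Polynomial.map_add, Polynomial.map_mul, map_X, scomp, scomp]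
  have tv : v.comp (-X) = v := by
    rw [hv]
    simp only [sub_comp, pow_comp, X_comp, C_comp, even_two.neg_pow]
  have tcomp : ∀ p : κ[X], (p.comp v).comp (-X) = p.comp v := fun p => by
    rw [comp_assoc, tv]
  have tδ : δ.comp (-X) = δ := by
    rw [hδ, delta]
    simp only [sub_comp, pow_comp, X_comp, C_comp, even_two.neg_pow]
  have tQ : Q.comp (-X) = (-X + C a) * (-X + C b) := by
    rw [hQ, Qf]
    simp only [mul_comp, add_comp, X_comp, C_comp]
  have k1 := congrArg (fun p => p.comp (-X)) j1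
  have k2 := congrArg (fun p => p.comp (-X)) j2
  simp only [add_comp, mul_comp, tδ, tQ, zero_comp] at k1 k2
  have tA : A.comp (-X) = A0.comp v - X * A1.comp v := by
    rw [hA, add_comp, mul_comp, X_comp, tcomp, tcomp]
    ring
  have tB : B.comp (-X) = B0.comp v - X * B1.comp v := by
    rw [hB, add_comp, mul_comp, X_comp, tcomp, tcomp]
    ring
  have te : e.comp (-X) = e0.comp v - X * e1.comp v := by
    rw [he, add_comp, mul_comp, X_comp, tcomp, tcomp]
    ring
  have tsA : (A.map s).comp (-X) = (A0.map s).comp v - X * (A1.map s).comp v := by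
    rw [sA, add_comp, mul_comp, X_comp, tcomp, tcomp]
    ring
  have tsB : (B.map s).comp (-X) = (B0.map s).comp v - X * (B1.map s).comp v := by
    rw [sB, add_comp, mul_comp, X_comp, tcomp, tcomp]
    ring
  have tse : (e.map s).comp (-X) = (e0.map s).comp v - X * (e1.map s).comp v := by
    rw [se, add_comp, mul_comp, X_comp, tcomp, tcomp]
    ring
  have hfv : (X ^ 3 - X : κ[X]).comp v = δ := by
    rw [sub_comp, pow_comp, X_comp, hδ, delta, hv, C_pow]
  obtain ⟨P, hP⟩ : ∃ P : κ[X], P = A0 ^ 2 - (X + C (a ^ 2)) * A1 ^ 2 +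
    (B0 ^ 2 - (X + C (a ^ 2)) * B1 ^ 2) * (X ^ 3 - X) := ⟨_, rfl⟩
  obtain ⟨R, hR⟩ : ∃ R : κ[X], R = 2 * (A0 * B0 - (X + C (a ^ 2)) * (A1 * B1)) := ⟨_, rfl⟩
  obtain ⟨E, hE⟩ : ∃ E : κ[X], E = e0 ^ 2 - (X + C (a ^ 2)) * e1 ^ 2 := ⟨_, rfl⟩
  have sP : P.map s = (A0.map s) ^ 2 - (X + C (a ^ 2)) * (A1.map s) ^ 2 +
    ((B0.map s) ^ 2 - (X + C (a ^ 2)) * (B1.map s) ^ 2) * (X ^ 3 - X) := by
    rw [hP]
    simp only [Polynomial.map_sub, Polynomial.map_mul, Polynomial.map_pow, Polynomial.map_add,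
      map_X, map_C, map_pow, sa]
  have sR : R.map s = 2 * (A0.map s * B0.map s - (X + C (a ^ 2)) * (A1.map s * B1.map s)) := by
    rw [hR]
    simp only [Polynomial.map_sub, Polynomial.map_mul, Polynomial.map_add, Polynomial.map_pow,
      map_X, map_C, map_pow, sa, Polynomial.map_ofNat]
  have sE : E.map s = (e0.map s) ^ 2 - (X + C (a ^ 2)) * (e1.map s) ^ 2 := by
    rw [hE]
    simp only [Polynomial.map_sub, Polynomial.map_mul, Polynomial.map_pow, Polynomial.map_add,
      map_X, map_C, map_pow, sa]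
  have hx2 : v + C (a ^ 2) = X ^ 2 := by rw [hv]; ring
  have cP : P.comp v = A * A.comp (-X) + B * B.comp (-X) * δ := by
    rw [tA, tB, hA, hB, hP]
    simp only [add_comp, sub_comp, mul_comp, pow_comp, X_comp, C_comp, hx2] at hfv ⊢
    rw [hfv]
    ring
  have csP : (P.map s).comp v =
      A.map s * (A.map s).comp (-X) + B.map s * (B.map s).comp (-X) * δ := by
    rw [tsA, tsB, sA, sB, sP]
    simp only [add_comp, sub_comp, mul_comp, pow_comp, X_comp, C_comp, hx2] at hfv ⊢
    rw [hfv]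
    ring
  have cR : R.comp v = A * B.comp (-X) + B * A.comp (-X) := by
    rw [tA, tB, hA, hB, hR]
    simp only [add_comp, sub_comp, mul_comp, X_comp, C_comp, hx2, ofNat_comp]
    ring
  have csR : (R.map s).comp v = A.map s * (B.map s).comp (-X) + B.map s * (A.map s).comp (-X) := by
    rw [tsA, tsB, sA, sB, sR]
    simp only [add_comp, sub_comp, mul_comp, X_comp, C_comp, hx2, ofNat_comp]
    ring
  have cE : E.comp v = e * e.comp (-X) := by
    rw [te, he, hE]
    simp only [add_comp, sub_comp, mul_comp, pow_comp, X_comp, C_comp, hx2]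
    ring
  have csE : (E.map s).comp v = e.map s * (e.map s).comp (-X) := by
    rw [tse, se, sE]
    simp only [add_comp, sub_comp, mul_comp, pow_comp, X_comp, C_comp, hx2]
    ring
  have hE0 : E ≠ 0 := by
    rintro rfl
    rw [zero_comp] at cE
    rcases mul_eq_zero.1 cE.symm with h | h
    · exact he0 h
    · apply he0
      rw [← comp_neg_X_eq_zero_iff]
      exact h
  have hQQ : Q * ((-X + C a) * (-X + C b)) = v * (v + 1) := by
    have hb' : (C b : κ[X]) ^ 2 = C a ^ 2 - 1 := by rw [← C_pow, hb]; simp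
    rw [hQ, Qf, hv, C_pow]
    linear_combination (C a ^ 2 - X ^ 2) * hb'
  have m1 : P * P.map s + R * R.map s * (X ^ 3 - X) = X * (X + 1) * (E * E.map s) := by
    apply comp_inj (c := a ^ 2)
    rw [← hv]
    rw [add_comp, mul_comp, mul_comp, mul_comp, hfv, cP, csP, cR, csR, mul_comp, mul_comp,
      mul_comp, cE, csE, X_comp, add_comp, X_comp, one_comp]
    linear_combination (A.comp (-X) * (A.map s).comp (-X) +
      B.comp (-X) * (B.map s).comp (-X) * δ) * j1 + Q * (e * e.map s) * k1 +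
      (A.comp (-X) * (B.map s).comp (-X) + B.comp (-X) * (A.map s).comp (-X)) * δ * j2 +
      e * e.map s * (e.comp (-X) * (e.map s).comp (-X)) * hQQ
  have m2 : P * R.map s + R * P.map s = 0 := by
    apply comp_inj (c := a ^ 2)
    rw [← hv]
    rw [add_comp, mul_comp, mul_comp, cP, csP, cR, csR, zero_comp]
    linear_combination (A * A.map s + B * B.map s * δ) * k2 +
      (A.comp (-X) * (A.map s).comp (-X) + B.comp (-X) * (B.map s).comp (-X) * δ) * j2
  have hX : (X - 1 : κ[X]) = X - C 1 := by simp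
  have hX0 : (X - 1 : κ[X]) ≠ 0 := by rw [hX]; exact X_sub_C_ne_zero 1
  have hXX : (X * (X + 1) : κ[X]) ≠ 0 :=
    mul_ne_zero X_ne_zero (by rw [← C_1]; exact X_add_C_ne_zero 1)
  have hP0 : P ≠ 0 := by
    intro h0
    rw [h0, zero_mul, zero_add] at m1
    have h1 : (X - 1) * (R * R.map s) = E * E.map s := by
      refine mul_left_cancel₀ hXX ?_
      linear_combination m1
    by_cases hR0 : R = 0
    · rw [hR0, zero_mul, mul_zero] at h1
      rcases mul_eq_zero.1 h1.symm with h | h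
      · exact hE0 h
      · exact hE0 (hmap0 _ h)
    · have hsR0 : R.map s ≠ 0 := fun h => hR0 (hmap0 _ h)
      have hsE0 : E.map s ≠ 0 := fun h => hE0 (hmap0 _ h)
      have h2 := congrArg natDegree h1
      rw [natDegree_mul hX0 (mul_ne_zero hR0 hsR0), natDegree_mul hR0 hsR0,
        natDegree_mul hE0 hsE0, natDegree_map, natDegree_map, hX, natDegree_X_sub_C] at h2
      omega
  have hsP0 : P.map s ≠ 0 := fun h => hP0 (hmap0 _ h)
  have sf : (X ^ 3 - X : κ[X]).map s = X ^ 3 - X := by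
    simp only [Polynomial.map_sub, Polynomial.map_pow, map_X]
  have hCI : (C I : κ[X]) ^ 2 = -1 := by rw [← C_pow, hI]; simp
  obtain ⟨η0, μ0, h3, h4⟩ := CP hs (X ^ 3 - X) sf (P * P.map s).natDegree (P * P.map s)
    (C I * R * (X ^ 3 - X) * P.map s) (X * (X + 1) * E.map s * P)
    (mul_ne_zero hP0 hsP0) le_rfl
    (by rw [Polynomial.map_mul, map_map_s hs]; ring)
    (by
      rw [Polynomial.map_mul, Polynomial.map_mul, Polynomial.map_mul, map_map_s hs, sf, map_C,
        hsI, C_neg]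
      linear_combination (-(C I * (X ^ 3 - X))) * m2)
    (by
      rw [Polynomial.map_mul, Polynomial.map_mul, map_map_s hs, Polynomial.map_mul,
        Polynomial.map_add, map_X, Polynomial.map_one]
      linear_combination (-(R * (X ^ 3 - X) * P.map s) ^ 2) * hCI -
        (X ^ 3 - X) * (P * P.map s) * m1 + R * (X ^ 3 - X) ^ 2 * P.map s * m2)
  exact extract hI hsI η0 μ0 h3 h4

end MP_d2f638_ag.Stab
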