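import Pool.Agent.Lib.MP_d2f638_ag.Stab.Stmts

/-!
# API for `clF`, `Trans`
-/

namespace MP_d2f638_ag.Stab

open Polynomial

section

variable {k L : Type} [Field k] [Field L] {i : k →+* L} {T T' : Set L}

lemma mem_clF_iff {x : L} :
    x ∈ clF i T ↔ IsAlgebraic (Subfield.closure (Set.range i ∪ T)) x := by
  show x ∈ algebraicClosure (Subfield.closure (Set.range i ∪ T)) L ↔ _
  exact mem_algebraicClosure_iff

lemma closure_le_clF : Subfield.closure (Set.range i ∪ T) ≤ clF i T := by
  intro x hx
  rw [mem_clF_iff]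
  exact isAlgebraic_algebraMap (⟨x, hx⟩ : Subfield.closure (Set.range i ∪ T))

lemma base_mem_clF (c : k) : i c ∈ clF i T :=
  closure_le_clF (Subfield.subset_closure (Or.inl ⟨c, rfl⟩))

lemma subset_clF : T ⊆ clF i T := fun _ hx =>
  closure_le_clF (Subfield.subset_closure (Or.inr hx))

lemma mem_clF_of_mem {x : L} (hx : x ∈ T) : x ∈ clF i T := subset_clF hx

/-- An element algebraic over the closure belongs to the closure. -/
lemma mem_clF_of_root {p : L[X]} (hp : p ≠ 0) (hc : ∀ n, p.coeff n ∈ clF i T) {x : L}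
    (hx : p.eval x = 0) : x ∈ clF i T := by
  set A := algebraicClosure (Subfield.closure (Set.range i ∪ T)) L with hA
  have hc' : ∀ n, p.coeff n ∈ A := hc
  have hl : p ∈ Polynomial.lifts (algebraMap A L) := by
    rw [Polynomial.lifts_iff_coeff_lifts]
    intro n
    exact ⟨⟨p.coeff n, hc' n⟩, rfl⟩
  obtain ⟨q, hq⟩ := (Polynomial.mem_lifts p).1 hl
  have hq0 : q ≠ 0 := by
    rintro rfl
    rw [Polynomial.map_zero] at hq
    exact hp hq.symm
  have halg : IsAlgebraic A x := ⟨q, hq0, by
    rw [Polynomial.aeval_def, ← Polynomial.eval_map, hq, hx]⟩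
  have h2 : IsAlgebraic (Subfield.closure (Set.range i ∪ T)) x :=
    IsAlgebraic.restrictScalars (Subfield.closure (Set.range i ∪ T)) halg
  exact mem_clF_iff.2 h2

lemma clF_le (h : ∀ t ∈ T, t ∈ clF i T') : clF i T ≤ clF i T' := by
  intro x hx
  rw [mem_clF_iff] at hx
  obtain ⟨p, hp, hpx⟩ := hx
  refine mem_clF_of_root (p := p.map (algebraMap _ L)) ?_ ?_ ?_
  · rwa [Ne, Polynomial.map_eq_zero]
  · intro n
    rw [Polynomial.coeff_map]
    have h1 : Subfield.closure (Set.range i ∪ T) ≤ clF i T' := by
      rw [Subfield.closure_le]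
      rintro y (⟨c, rfl⟩ | hy)
      · exact base_mem_clF c
      · exact h y hy
    exact h1 (p.coeff n).2
  · rw [Polynomial.eval_map, ← Polynomial.aeval_def, hpx]

lemma clF_mono (h : T ⊆ T') : clF i T ≤ clF i T' := clF_le fun _ ht => subset_clF (h ht)

/-- Elements outside the closure are transcendental over it. -/
lemma trans_of_not_mem_clF {x : L} (hx : x ∉ clF i T) : Trans (clF i T).subtype x := by
  intro p hp h
  apply hx
  refine mem_clF_of_root (p := p.map (clF i T).subtype) ?_ ?_ ?_
  · rwa [Ne, Polynomial.map_eq_zero]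
  · intro n
    rw [Polynomial.coeff_map]
    exact (p.coeff n).2
  · rw [Polynomial.eval_map, h]

/-- Square roots belong to the closure. -/
lemma mem_clF_of_sq {x : L} (hx : x ^ 2 ∈ clF i T) : x ∈ clF i T := by
  refine mem_clF_of_root (p := X ^ 2 - C (x ^ 2)) (X_pow_sub_C_ne_zero two_pos _) ?_ (by simp)
  intro n
  rw [coeff_sub, coeff_X_pow, coeff_C]
  split_ifs
  · exact sub_mem (one_mem _) hx
  · exact sub_mem (one_mem _) (zero_mem _)
  · exact sub_mem (zero_mem _) hx
  · exact sub_mem (zero_mem _) (zero_mem _)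

lemma Trans.comp_of_le {F : Type} [Field F] {j : F →+* L} {x : L} {K' : Subfield L}
    (h : Trans K'.subtype x) (hj : ∀ c, j c ∈ K') : Trans j x := by
  intro p hp h0
  let j' : F →+* K' := j.codRestrict K' hj
  refine h (p.map j') ?_ ?_
  · rwa [Ne, Polynomial.map_eq_zero]
  · rw [Polynomial.eval₂_map]
    exact h0

/-- A homomorphism from `F(X)` given by a transcendental element. -/
lemma exists_ratHom {F : Type} [Field F] (j : F →+* L) {x : L} (h : Trans j x) :
    ∃ J : RatFunc F →+* L, J.comp (RatFunc.C (K := F)) = j ∧ J RatFunc.X = x := by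
  let e : F[X] →+* L := Polynomial.eval₂RingHom j x
  have he : Function.Injective e := by
    rw [injective_iff_map_eq_zero]
    intro p hp
    by_contra hp0
    exact h p hp0 hp
  refine ⟨IsFractionRing.lift (K := RatFunc F) he, ?_, ?_⟩
  · ext c
    rw [RingHom.comp_apply, ← RatFunc.algebraMap_C, IsFractionRing.lift_algebraMap]
    simp [e]
  · rw [← RatFunc.algebraMap_X, IsFractionRing.lift_algebraMap]
    simp [e]

lemma Trans.not_mem {F : Type} [Field F] {j : F →+* L} {x : L} (h : Trans j x) (c : F) :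
    x ≠ j c := by
  intro hx
  refine h (X - C c) (X_sub_C_ne_zero c) ?_
  simp [hx]

lemma AI.trans {n : ℕ} {v : Fin n → L} (h : AI i v) (m : Fin n) : Trans i (v m) := by
  intro p hp h0
  let q : MvPolynomial (Fin n) k := Polynomial.aeval (MvPolynomial.X m) p
  have hq : q ≠ 0 := by
    intro hq
    apply hp
    have hinj : Function.Injective
        (Polynomial.aeval (R := k) (MvPolynomial.X m : MvPolynomial (Fin n) k)) := by
      rw [← transcendental_iff_injective]
      exact MvPolynomial.transcendental_X k m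
    exact hinj (by rw [map_zero]; exact hq)
  refine h q hq ?_
  rw [← h0]
  show MvPolynomial.eval₂Hom i v (Polynomial.aeval (MvPolynomial.X m) p) = _
  rw [Polynomial.aeval_def, Polynomial.hom_eval₂]
  congr 1
  · ext c
    simp
  · simp

end

end MP_d2f638_ag.Stab
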