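import Pool.Agent.Lib.MP_d2f638_ag.Defs

/-!
# Stable rationality
-/

namespace MP_d2f638_ag

/-- The field `K(s₁, …, s_m)` of rational functions in `m` variables over the field `K`. -/
def VarField (K : Type) [Field K] (m : ℕ) : Type := FractionRing (MvPolynomial (Fin m) K)

noncomputable instance instVarField (K : Type) [Field K] (m : ℕ) : Field (VarField K m) :=
  FractionRing.field (MvPolynomial (Fin m) K)

noncomputable instance instVarAlg (K : Type) [Field K] [Algebra ℝ K] (m : ℕ) :
    Algebra ℝ (VarField K m) :=
  inferInstanceAs (Algebra ℝ (FractionRing (MvPolynomial (Fin m) K)))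

/-- `X` is integral and `X × P^m` is rational over `ℝ` for some `m`: the field of rational
functions in `m` variables over the function field of `X` is isomorphic over `ℝ` to the field of
rational functions in `d + m` variables, `d` being the dimension of `X`. -/
def StablyRRational {ι : Type} [Fintype ι] (d : ℕ) (A B : Matrix ι ι ℝ) : Prop :=
  ∃ _ : (idealX A B).IsPrime, ∃ m : ℕ,
    Nonempty (VarField (fnField A B) m ≃ₐ[ℝ] RatField (d + m))

end MP_d2f638_ag
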