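import Pool.Agent.Lib.MP_d2f638_ag.Stab.StmtsA

/-!
# Weighted degrees and irreducibility of `F`
-/

namespace MP_d2f638_ag.Stab

open Polynomial

section WDeg

variable {k : Type} [Field k]

/-- The weights. -/
def w3 : Fin 3 → ℕ := ![1, 1, 2]

/-- Grading substitution `t ↦ tT`, `w ↦ wT`, `z ↦ zT²`. -/
noncomputable def Th : MvPolynomial (Fin 3) k →+* (MvPolynomial (Fin 3) k)[X] :=
  MvPolynomial.eval₂Hom (C.comp MvPolynomial.C) (fun i => C (MvPolynomial.X i) * X ^ (w3 i))

lemma Th_C (c : k) : Th (MvPolynomial.C c) = C (MvPolynomial.C c) := by simp [Th]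

lemma Th_X (i : Fin 3) : Th (MvPolynomial.X i : MvPolynomial (Fin 3) k) =
    C (MvPolynomial.X i) * X ^ (w3 i) := by simp [Th]

lemma Th_monomial (e : Fin 3 →₀ ℕ) (c : k) :
    Th (MvPolynomial.monomial e c) = C (MvPolynomial.monomial e c) * X ^ (Finsupp.weight w3 e) := by
  unfold Th
  rw [MvPolynomial.coe_eval₂Hom, MvPolynomial.eval₂_monomial]
  rw [Finsupp.prod_fintype _ _ (fun i => pow_zero _)]
  simp only [mul_pow, ← pow_mul, RingHom.comp_apply]
  rw [Finset.prod_mul_distrib, Finset.prod_pow_eq_pow_sum, ← mul_assoc]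
  congr 1
  · rw [MvPolynomial.monomial_eq, map_mul, Finsupp.prod_fintype _ _ (fun i => pow_zero _),
      map_prod]
    simp only [map_pow]
  · congr 1
    rw [Finsupp.weight_apply, Finsupp.sum_fintype _ _ (fun i => by simp)]
    exact Finset.sum_congr rfl fun i _ => by rw [smul_eq_mul, mul_comm]

lemma Th_eq (p : MvPolynomial (Fin 3) k) :
    Th p = ∑ e ∈ p.support, C (MvPolynomial.monomial e (p.coeff e)) * X ^ (Finsupp.weight w3 e) := by
  conv_lhs => rw [p.as_sum, map_sum]
  exact Finset.sum_congr rfl fun e _ => Th_monomial _ _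

lemma wdeg_eq' (p : MvPolynomial (Fin 3) k) : wdeg p = p.support.sup (Finsupp.weight w3) := rfl

lemma natDegree_Th (p : MvPolynomial (Fin 3) k) (hp : p ≠ 0) : (Th p).natDegree = wdeg p := by
  apply le_antisymm
  · rw [Th_eq]
    apply Polynomial.natDegree_sum_le_of_forall_le
    intro e he
    refine (Polynomial.natDegree_C_mul_X_pow_le _ _).trans ?_
    rw [wdeg_eq']
    exact Finset.le_sup (f := Finsupp.weight w3) he
  · apply Polynomial.le_natDegree_of_ne_zero
    obtain ⟨e0, he0, he0'⟩ := Finset.exists_mem_eq_sup p.support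
      (MvPolynomial.support_nonempty.2 hp) (Finsupp.weight w3)
    intro h
    have h1 : MvPolynomial.coeff e0 ((Th p).coeff (wdeg p)) = p.coeff e0 := by
      rw [Th_eq, Polynomial.finsetSum_coeff, MvPolynomial.coeff_sum]
      rw [Finset.sum_eq_single e0]
      · rw [Polynomial.coeff_C_mul_X_pow, if_pos]
        · simp
        · rw [wdeg_eq', he0']
      · intro b _ hb
        rw [Polynomial.coeff_C_mul_X_pow]
        split_ifs
        · rw [MvPolynomial.coeff_monomial, if_neg hb]
        · simp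
      · intro h2; exact absurd he0 h2
    rw [h, MvPolynomial.coeff_zero] at h1
    exact (MvPolynomial.mem_support_iff.1 he0) h1.symm

lemma Th_injective : Function.Injective (Th (k := k)) := by
  have h : (Polynomial.evalRingHom (1 : MvPolynomial (Fin 3) k)).comp Th = RingHom.id _ := by
    apply MvPolynomial.ringHom_ext
    · intro c; simp [Th_C]
    · intro i; simp [Th_X]
  intro x y hxy
  have h2 := congrArg (Polynomial.evalRingHom (1 : MvPolynomial (Fin 3) k)) hxy
  have e1 := congrFun (congrArg DFunLike.coe h) x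
  have e2 := congrFun (congrArg DFunLike.coe h) y
  simp only [RingHom.comp_apply, RingHom.id_apply] at e1 e2
  rw [e1, e2] at h2
  exact h2

lemma wdeg_mul (p q : MvPolynomial (Fin 3) k) (hp : p ≠ 0) (hq : q ≠ 0) :
    wdeg (p * q) = wdeg p + wdeg q := by
  rw [← natDegree_Th _ (mul_ne_zero hp hq), ← natDegree_Th _ hp, ← natDegree_Th _ hq, map_mul,
    Polynomial.natDegree_mul]
  · intro h; exact hp (Th_injective (by rw [h, map_zero]))
  · intro h; exact hq (Th_injective (by rw [h, map_zero]))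

lemma wdeg_pow (p : MvPolynomial (Fin 3) k) (hp : p ≠ 0) (n : ℕ) : wdeg (p ^ n) = n * wdeg p := by
  rw [← natDegree_Th _ (pow_ne_zero _ hp), ← natDegree_Th _ hp, map_pow, Polynomial.natDegree_pow]

lemma wdeg_C (c : k) (hc : c ≠ 0) : wdeg (MvPolynomial.C c : MvPolynomial (Fin 3) k) = 0 := by
  rw [← natDegree_Th _ (by simpa using hc), Th_C, Polynomial.natDegree_C]

lemma wdeg_X (i : Fin 3) : wdeg (MvPolynomial.X i : MvPolynomial (Fin 3) k) = w3 i := by
  rw [← natDegree_Th _ (MvPolynomial.X_ne_zero i), Th_X,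
    Polynomial.natDegree_C_mul_X_pow _ _ (MvPolynomial.X_ne_zero i)]

lemma wdeg_FP (a b : k) : wdeg (FP a b) = 4 := by
  have h : Th (FP a b) = Ff (C (MvPolynomial.C a)) (C (MvPolynomial.C b))
      (C (MvPolynomial.X 0) * X) (C (MvPolynomial.X 1) * X) := by
    unfold FP
    rw [map_Ff, Th_C, Th_C, Th_X, Th_X]
    simp [w3]
  have hco : (Th (FP a b)).coeff 4 =
      (MvPolynomial.X 0 : MvPolynomial (Fin 3) k) ^ 2 * MvPolynomial.X 1 ^ 2 +
        MvPolynomial.X 0 ^ 4 := by
    rw [h]
    have e : Ff (C (MvPolynomial.C a)) (C (MvPolynomial.C b))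
        (C (MvPolynomial.X 0) * X) (C (MvPolynomial.X 1) * X) =
      C ((MvPolynomial.X 0 : MvPolynomial (Fin 3) k) ^ 2 * MvPolynomial.X 1 ^ 2 +
        MvPolynomial.X 0 ^ 4) * X ^ 4 +
      C ((MvPolynomial.C (a + b)) * MvPolynomial.X 0 * MvPolynomial.X 1 ^ 2 -
        MvPolynomial.C (a + b) * MvPolynomial.X 0 ^ 3) * X ^ 3 +
      C ((MvPolynomial.C (a * b)) * MvPolynomial.X 1 ^ 2 +
        MvPolynomial.C (a * b - a ^ 2 - 1) * MvPolynomial.X 0 ^ 2) * X ^ 2 +
      C (MvPolynomial.C ((a + b) * (a ^ 2 + 1)) * MvPolynomial.X 0) * X ^ 1 +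
      C (MvPolynomial.C (- (a * b * (a ^ 2 + 1)))) * X ^ 0 := by
      unfold Ff Qf Rf
      simp only [map_add, map_sub, map_mul, map_pow, map_neg, map_one]
      ring
    rw [e]
    simp only [Polynomial.coeff_add, Polynomial.coeff_C_mul_X_pow]
    norm_num
  have hne : (MvPolynomial.X 0 : MvPolynomial (Fin 3) k) ^ 2 * MvPolynomial.X 1 ^ 2 +
        MvPolynomial.X 0 ^ 4 ≠ 0 := by
    intro h0
    have h1 := congrArg (MvPolynomial.eval ![(1 : k), 0, 0]) h0
    simp at h1
  have hF : FP a b ≠ 0 := by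
    intro h0
    rw [h0, map_zero, Polynomial.coeff_zero] at hco
    exact hne hco.symm
  rw [← natDegree_Th _ hF]
  apply le_antisymm
  · rw [h]
    unfold Ff Qf Rf
    compute_degree
  · apply Polynomial.le_natDegree_of_ne_zero
    rw [hco]; exact hne

end WDeg

section Irr

variable {k : Type} [Field k] [CharZero k]

/-- The evaluation `X 0 ↦ a`. -/
private noncomputable def ev0 (a : k) : MvPolynomial (Fin 2) k →+* MvPolynomial (Fin 2) k :=
  MvPolynomial.eval₂Hom MvPolynomial.C ![MvPolynomial.C a, MvPolynomial.X 1]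

theorem irreducible_FP (a b : k) (hb : b ^ 2 = a ^ 2 - 1) (ha : a ^ 2 ≠ 0) (ha4 : a ^ 4 ≠ 1) :
    Irreducible (FP a b) := by
  have ha0 : a ≠ 0 := fun h => ha (by rw [h]; ring)
  have hb0 : b ≠ 0 := by
    intro h
    rw [h] at hb
    apply ha4
    have : a ^ 2 = 1 := by linear_combination -hb
    calc a ^ 4 = (a ^ 2) ^ 2 := by ring
      _ = 1 := by rw [this]; ring
  have hab : a + b ≠ 0 := by
    intro h
    have h1 : b = -a := by linear_combination h
    rw [h1] at hb
    have : (1 : k) = 0 := by linear_combination hb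
    exact one_ne_zero this
  have hab' : a - b ≠ 0 := by
    intro h
    have h1 : b = a := by linear_combination -h
    rw [h1] at hb
    have : (1 : k) = 0 := by linear_combination hb
    exact one_ne_zero this
  set E := (MvPolynomial.renameEquiv k (Equiv.swap (0 : Fin 3) 1)).trans
    (MvPolynomial.finSuccEquiv k 2) with hE
  have hE0 : E (MvPolynomial.X 0) = C (MvPolynomial.X 0) := by
    have : (1 : Fin 3) = (0 : Fin 2).succ := rfl
    simp only [hE, AlgEquiv.trans_apply, MvPolynomial.renameEquiv_apply, MvPolynomial.rename_X,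
      Equiv.swap_apply_left]
    rw [this, MvPolynomial.finSuccEquiv_X_succ]
  have hE1 : E (MvPolynomial.X 1) = X := by
    simp only [hE, AlgEquiv.trans_apply, MvPolynomial.renameEquiv_apply, MvPolynomial.rename_X,
      Equiv.swap_apply_right, MvPolynomial.finSuccEquiv_X_zero]
  have hEC : ∀ c : k, E (MvPolynomial.C c) = C (MvPolynomial.C c) := by
    intro c
    have h := E.commutes c
    exact h
  have hEF : E (FP a b) = C (Qf (MvPolynomial.C a) (MvPolynomial.C b) (MvPolynomial.X 0)) * X ^ 2 +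
      C (Rf (MvPolynomial.C a) (MvPolynomial.C b) (MvPolynomial.X 0)) := by
    unfold FP
    have := map_Ff (E : MvPolynomial (Fin 3) k →+* (MvPolynomial (Fin 2) k)[X])
      (MvPolynomial.C a) (MvPolynomial.C b) (MvPolynomial.X 0) (MvPolynomial.X 1)
    simp only [RingHom.coe_coe] at this
    rw [this, hE0, hE1, hEC, hEC]
    unfold Ff
    rw [map_Qf, map_Rf]
  rw [← MulEquiv.irreducible_iff (E : MvPolynomial (Fin 3) k ≃* (MvPolynomial (Fin 2) k)[X])]
  show Irreducible (E (FP a b))
  rw [hEF]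
  set Qw : MvPolynomial (Fin 2) k := Qf (MvPolynomial.C a) (MvPolynomial.C b) (MvPolynomial.X 0)
    with hQ
  set Rr : MvPolynomial (Fin 2) k := Rf (MvPolynomial.C a) (MvPolynomial.C b) (MvPolynomial.X 0)
    with hR
  have evQ : ev0 a Qw = MvPolynomial.C (2 * a * (a + b)) := by
    rw [hQ, map_Qf]
    simp only [ev0, MvPolynomial.coe_eval₂Hom, MvPolynomial.eval₂_C, MvPolynomial.eval₂_X,
      Matrix.cons_val_zero]
    unfold Qf
    rw [← map_add, ← map_add, ← map_mul]
    congr 1; ring
  have evR : ev0 a Rr = 0 := by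
    rw [hR, map_Rf]
    simp only [ev0, MvPolynomial.coe_eval₂Hom, MvPolynomial.eval₂_C, MvPolynomial.eval₂_X,
      Matrix.cons_val_zero]
    unfold Rf
    ring
  have hQ0 : Qw ≠ 0 := by
    intro h
    rw [h, map_zero] at evQ
    have h2 : (2 * a * (a + b) : k) = 0 := by
      have := evQ.symm
      rwa [MvPolynomial.C_eq_zero] at this
    exact mul_ne_zero (mul_ne_zero two_ne_zero ha0) hab h2
  have hnd : (C Qw * X ^ 2 + C Rr : (MvPolynomial (Fin 2) k)[X]).natDegree = 2 := by
    compute_degree!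
  have hlc : (C Qw * X ^ 2 + C Rr : (MvPolynomial (Fin 2) k)[X]).leadingCoeff = Qw := by
    rw [Polynomial.leadingCoeff, hnd]
    simp
  have hc0 : (C Qw * X ^ 2 + C Rr : (MvPolynomial (Fin 2) k)[X]).coeff 0 = Rr := by simp
  have hc1 : (C Qw * X ^ 2 + C Rr : (MvPolynomial (Fin 2) k)[X]).coeff 1 = 0 := by
    simp [Polynomial.coeff_X_pow]
  have hcop : IsCoprime Qw Rr := by
    have cc : ∀ c : k, c ≠ 0 → IsUnit (MvPolynomial.C c : MvPolynomial (Fin 2) k) := by
      intro c hc
      exact (IsUnit.mk0 c hc).map MvPolynomial.C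
    have lin : ∀ p q r s : MvPolynomial (Fin 2) k, ∀ c : k, c ≠ 0 →
        r * p + s * q = MvPolynomial.C c → IsCoprime p q := by
      intro p q r s c hc h
      refine ⟨MvPolynomial.C c⁻¹ * r, MvPolynomial.C c⁻¹ * s, ?_⟩
      calc MvPolynomial.C c⁻¹ * r * p + MvPolynomial.C c⁻¹ * s * q
          = MvPolynomial.C c⁻¹ * (r * p + s * q) := by ring
        _ = 1 := by rw [h, ← map_mul, inv_mul_cancel₀ hc, map_one]
    rw [hQ, hR]
    unfold Qf Rf
    refine IsCoprime.mul_left (IsCoprime.mul_right (IsCoprime.mul_right ?_ ?_) ?_)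
      (IsCoprime.mul_right (IsCoprime.mul_right ?_ ?_) ?_)
    · refine lin _ _ 1 (-1) (2 * a) (mul_ne_zero two_ne_zero ha0) ?_
      simp only [map_mul, map_ofNat]; ring
    · refine lin _ _ 1 (-1) (a + b) hab ?_
      simp only [map_add]; ring
    · refine lin _ _ (MvPolynomial.X 0 - MvPolynomial.C a) (-1) 1 one_ne_zero ?_
      simp only [map_one]; ring
    · refine lin _ _ 1 (-1) (a + b) hab ?_
      simp only [map_add]; ring
    · refine lin _ _ 1 (-1) (2 * b) (mul_ne_zero two_ne_zero hb0) ?_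
      simp only [map_mul, map_ofNat]; ring
    · refine lin _ _ (MvPolynomial.X 0 - MvPolynomial.C b) (-1) 2 two_ne_zero ?_
      have : (MvPolynomial.C b : MvPolynomial (Fin 2) k) ^ 2 = MvPolynomial.C a ^ 2 - 1 := by
        rw [← map_pow, hb]; simp
      simp only [map_ofNat]
      linear_combination -this
  set P : Ideal (MvPolynomial (Fin 2) k) := RingHom.ker (ev0 a) with hP
  have hPp : P.IsPrime := RingHom.ker_isPrime _
  -- derivative
  have hder : ∀ f ∈ P ^ 2, MvPolynomial.pderiv 0 f ∈ P := by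
    intro f hf
    rw [pow_two] at hf
    refine Submodule.mul_induction_on hf ?_ ?_
    · intro m hm n hn
      rw [Derivation.leibniz]
      exact P.add_mem (P.mul_mem_right _ hm) (P.mul_mem_right _ hn)
    · intro x y hx hy
      rw [map_add]; exact P.add_mem hx hy
  refine Polynomial.irreducible_of_eisenstein_criterion hPp ?_ ?_ ?_ ?_ ?_
  · rw [hlc, hP, RingHom.mem_ker, evQ, MvPolynomial.C_eq_zero]
    exact mul_ne_zero (mul_ne_zero two_ne_zero ha0) hab
  · intro n hn
    rw [Polynomial.degree_eq_natDegree (by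
      intro h; rw [h, Polynomial.natDegree_zero] at hnd; omega), hnd] at hn
    have hn' : n < 2 := by exact_mod_cast hn
    interval_cases n
    · rw [hc0]; exact evR
    · rw [hc1]; exact P.zero_mem
  · rw [← Polynomial.natDegree_pos_iff_degree_pos, hnd]; norm_num
  · rw [hc0]
    intro h
    have h1 := hder _ h
    rw [hP, RingHom.mem_ker] at h1
    have h2 : MvPolynomial.pderiv 0 Rr = (MvPolynomial.X 0 - MvPolynomial.C b) *
        (MvPolynomial.X 0 ^ 2 - MvPolynomial.C a ^ 2 - 1) + (MvPolynomial.X 0 - MvPolynomial.C a) *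
        (MvPolynomial.pderiv 0 ((MvPolynomial.X 0 - MvPolynomial.C b) *
        (MvPolynomial.X 0 ^ 2 - MvPolynomial.C a ^ 2 - 1) : MvPolynomial (Fin 2) k)) := by
      rw [hR]
      unfold Rf
      rw [mul_assoc, Derivation.leibniz]
      simp only [smul_eq_mul, map_sub, MvPolynomial.pderiv_X_self, MvPolynomial.pderiv_C]
      ring
    rw [h2] at h1
    simp only [map_add, map_mul, map_sub, map_pow, map_one] at h1
    simp only [ev0, MvPolynomial.coe_eval₂Hom, MvPolynomial.eval₂_C, MvPolynomial.eval₂_X,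
      Matrix.cons_val_zero, sub_self, zero_mul, add_zero] at h1
    have h3 : (MvPolynomial.C ((a - b) * (-1)) : MvPolynomial (Fin 2) k) = 0 := by
      rw [← h1]
      simp only [map_mul, map_sub, map_neg, map_one]; ring
    rw [MvPolynomial.C_eq_zero] at h3
    exact mul_ne_zero hab' (by norm_num) h3
  · intro r hr
    rw [Polynomial.C_dvd_iff_dvd_coeff] at hr
    have h1 := hr 0
    have h2 := hr 2
    rw [hc0] at h1
    have h3 : (C Qw * X ^ 2 + C Rr : (MvPolynomial (Fin 2) k)[X]).coeff 2 = Qw := by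
      simp
    rw [h3] at h2
    exact hcop.isUnit_of_dvd' h2 h1

end Irr

end MP_d2f638_ag.Stab
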