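import Pool.Agent.Lib.MP_d2f638_ag.Stab.StmtsA
import Pool.Agent.Lib.MP_d2f638_ag.Stab.Cl
import Pool.Agent.Lib.MP_d2f638_ag.Stab.WF
import Pool.Agent.Lib.MP_d2f638_ag.Stab.StabDef

/-!
# Assembly of the first half and the final theorem
-/

namespace MP_d2f638_ag

open MvPolynomial

namespace Stab

/-- Transcendence is preserved by adding variables. -/
lemma trans_vars {K M : Type} [Field K] [Field M] {iM : K →+* M} {x : M} (hx : Trans iM x) (m : ℕ)
    {J : FractionRing (MvPolynomial (Fin m) K) →+* FractionRing (MvPolynomial (Fin m) M)}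
    (hJ : ∀ p : MvPolynomial (Fin m) K, J (algebraMap _ _ p) =
        algebraMap _ _ (MvPolynomial.map iM p)) :
    Trans J (algebraMap M (FractionRing (MvPolynomial (Fin m) M)) x) := by
  intro p hp h0
  -- clear denominators
  obtain ⟨b, hb0, hb⟩ := IsLocalization.integerNormalization_spec
    (nonZeroDivisors (MvPolynomial (Fin m) K)) p
  set q := IsLocalization.integerNormalization (nonZeroDivisors (MvPolynomial (Fin m) K)) p with hq
  have hsmul : b • p = Polynomial.C (algebraMap (MvPolynomial (Fin m) K)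
      (FractionRing (MvPolynomial (Fin m) K)) b) * p := by
    ext n
    rw [Polynomial.coeff_smul, Polynomial.coeff_C_mul, Algebra.smul_def]
  have hq0 : q ≠ 0 := by
    intro h
    rw [h, Polynomial.map_zero, hsmul] at hb
    have hb1 : b ≠ 0 := nonZeroDivisors.ne_zero hb0
    have h2 : algebraMap (MvPolynomial (Fin m) K) (FractionRing (MvPolynomial (Fin m) K)) b ≠ 0 := by
      rw [Ne, FaithfulSMul.algebraMap_eq_zero_iff]
      exact hb1
    rcases mul_eq_zero.1 hb.symm with h4 | h4
    · exact h2 (Polynomial.C_eq_zero.1 h4)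
    · exact hp h4
  -- evaluate
  have h1 : (q.map (algebraMap (MvPolynomial (Fin m) K) (FractionRing (MvPolynomial (Fin m) K)))).eval₂ J
      (algebraMap M (FractionRing (MvPolynomial (Fin m) M)) x) = 0 := by
    rw [hb, hsmul, Polynomial.eval₂_mul, h0, mul_zero]
  rw [Polynomial.eval₂_map] at h1
  have hcomp : J.comp (algebraMap (MvPolynomial (Fin m) K) (FractionRing (MvPolynomial (Fin m) K))) =
      (algebraMap (MvPolynomial (Fin m) M) (FractionRing (MvPolynomial (Fin m) M))).comp
        (MvPolynomial.map iM) := by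
    apply RingHom.ext
    intro p
    exact hJ p
  have hxx : algebraMap M (FractionRing (MvPolynomial (Fin m) M)) x =
      algebraMap (MvPolynomial (Fin m) M) (FractionRing (MvPolynomial (Fin m) M)) (C x) := by
    rw [IsScalarTower.algebraMap_apply M (MvPolynomial (Fin m) M) (FractionRing _),
      MvPolynomial.algebraMap_eq]
  rw [hcomp, hxx, ← Polynomial.hom_eval₂] at h1
  have h2 : Polynomial.eval₂ (MvPolynomial.map iM) (C x) q = 0 := by
    have := (FaithfulSMul.algebraMap_injective (MvPolynomial (Fin m) M)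
      (FractionRing (MvPolynomial (Fin m) M)))
    exact this (by rw [h1, map_zero])
  apply hq0
  ext n e
  -- the polynomial of coefficients
  set s : Polynomial K := ∑ l ∈ Finset.range (q.natDegree + 1), Polynomial.C (coeff e (q.coeff l)) *
    Polynomial.X ^ l with hs
  have h3 : s.eval₂ iM x = 0 := by
    have h4 := congrArg (coeff e) h2
    rw [Polynomial.eval₂_eq_sum_range, coeff_sum, coeff_zero] at h4
    rw [hs, Polynomial.eval₂_finsetSum, ← h4]
    refine Finset.sum_congr rfl fun l _ => ?_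
    rw [Polynomial.eval₂_mul, Polynomial.eval₂_C, Polynomial.eval₂_pow, Polynomial.eval₂_X,
      ← C_pow, mul_comm ((MvPolynomial.map iM) (q.coeff l)), coeff_C_mul, coeff_map, mul_comm]
  have h4 : s = 0 := by
    by_contra h
    exact hx s h h3
  have h5 := congrArg (fun f : Polynomial K => f.coeff n) h4
  simp only [hs, Polynomial.finsetSum_coeff, Polynomial.coeff_C_mul_X_pow,
    Polynomial.coeff_zero] at h5
  rw [Finset.sum_ite_eq] at h5
  split_ifs at h5 with h6
  · rw [h5]
    simp
  · have h7 : q.coeff n = 0 := by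
      apply Polynomial.coeff_eq_zero_of_natDegree_lt
      simp only [Finset.mem_range, not_lt] at h6
      omega
    rw [h7]
    simp

lemma not_dvd_of_parity {π p : MvPolynomial (Fin 3) ℂ} (hπ : Irreducible π) (hp : Irreducible p)
    (h1 : Odd (wdeg π)) (h2 : Even (wdeg p)) : ¬ π ∣ p := by
  intro h
  obtain ⟨u, hu⟩ := (hπ.dvd_irreducible_iff_associated hp).1 h
  have h3 : wdeg (u : MvPolynomial (Fin 3) ℂ) = 0 := by
    have h4 := wdeg_mul (u : MvPolynomial (Fin 3) ℂ) (↑u⁻¹ : MvPolynomial (Fin 3) ℂ) u.ne_zero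
      u⁻¹.ne_zero
    rw [Units.mul_inv] at h4
    have h5 : wdeg (1 : MvPolynomial (Fin 3) ℂ) = 0 := by
      have := wdeg_C (k := ℂ) 1 one_ne_zero
      rwa [MvPolynomial.C_1] at this
    omega
  have h4 := wdeg_mul π (u : MvPolynomial (Fin 3) ℂ) hπ.ne_zero u.ne_zero
  rw [hu, h3, add_zero] at h4
  rw [← h4] at h1
  exact (Nat.not_odd_iff_even.2 h2) h1

/-- The first half of the proof. -/
theorem firstHalf (_hNP : stNP) (_hVal : stVal) (hGLine : stGLine) (hAnis : stAnis)
    (hSpec : stSpec) (hSex : stSex) (hToC : stToC) (hInf : stInf) (hDiv : stDiv) (hRes : stRes)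
    (hEP : stEP) (hDesc : stDesc) (hCFex : stCFex) (hB : stB)
    {al be : ℝ} (hbe : 0 < be) (hba : be < al) (hrel : be ^ 2 = al ^ 2 - 1)
    (htr : Transcendental ℚ al) {K : Type} [Field K] [Algebra ℝ K] {t w z1 z2 : K}
    (hK : IsK al be t w z1 z2) (m N : ℕ)
    (Φ : FractionRing (MvPolynomial (Fin m) K) ≃ₐ[ℝ] RatField N) : False := by
  have hal : 0 < al := hbe.trans hba
  have hal1 : 1 < al ^ 2 := by nlinarith [pow_pos hbe 2]
  have : CharZero K := charZero_of_injective_algebraMap (algebraMap ℝ K).injective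
  have ha2 : (algebraMap ℝ K al) ^ 2 ≠ 0 := by
    rw [← map_pow, Ne, map_eq_zero]
    exact (pow_pos hal 2).ne'
  have ha4 : (algebraMap ℝ K al) ^ 4 ≠ 1 := by
    intro h
    rw [← map_pow, ← map_one (algebraMap ℝ K)] at h
    have := (algebraMap ℝ K).injective h
    nlinarith
  obtain ⟨M, _, _, iM, x, y, hM⟩ := hCFex K (algebraMap ℝ K al) ha2 ha4
  have hq := hAnis K M al be t w z1 z2 iM x y hbe hba hrel hK hM
  set q : M := Qf (iM (algebraMap ℝ K al)) (iM (algebraMap ℝ K be)) x with hqdef
  obtain ⟨hqS, hsp⟩ := hSpec K M iM m q x t hq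
  -- the homomorphism on fraction fields
  have hinj : Function.Injective ((algebraMap (MvPolynomial (Fin m) M)
      (FractionRing (MvPolynomial (Fin m) M))).comp (MvPolynomial.map iM)) := by
    rw [RingHom.coe_comp]
    exact (FaithfulSMul.algebraMap_injective _ _).comp (MvPolynomial.map_injective _ iM.injective)
  let J : FractionRing (MvPolynomial (Fin m) K) →+* FractionRing (MvPolynomial (Fin m) M) :=
    IsFractionRing.lift hinj
  have hJ : ∀ p : MvPolynomial (Fin m) K, J (algebraMap _ _ p) =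
      algebraMap _ _ (MvPolynomial.map iM p) := fun p => IsFractionRing.lift_algebraMap hinj p
  let emb : K →+* FractionRing (MvPolynomial (Fin m) K) := algebraMap K _
  have hJK : ∀ c : K, J (algebraMap K (FractionRing (MvPolynomial (Fin m) K)) c) =
      algebraMap M (FractionRing (MvPolynomial (Fin m) M)) (iM c) := by
    intro c
    rw [IsScalarTower.algebraMap_apply K (MvPolynomial (Fin m) K) (FractionRing _), hJ,
      MvPolynomial.algebraMap_eq, MvPolynomial.map_C,
      IsScalarTower.algebraMap_apply M (MvPolynomial (Fin m) M) (FractionRing _),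
      MvPolynomial.algebraMap_eq]
  let j : RatField N →+* FractionRing (MvPolynomial (Fin m) M) :=
    J.comp (Φ.symm : RatField N →+* FractionRing (MvPolynomial (Fin m) K))
  have hjR : ∀ c : ℝ, j (algebraMap ℝ (RatField N) c) =
      algebraMap M (FractionRing (MvPolynomial (Fin m) M)) (iM (algebraMap ℝ K c)) := by
    intro c
    rw [← hJK]
    show J (Φ.symm (algebraMap ℝ (RatField N) c)) = _
    rw [Φ.symm.commutes, IsScalarTower.algebraMap_apply ℝ K (FractionRing (MvPolynomial (Fin m) K))]
  have hjt : ∀ c : K, j (Φ (algebraMap K (FractionRing (MvPolynomial (Fin m) K)) c)) =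
      algebraMap M (FractionRing (MvPolynomial (Fin m) M)) (iM c) := by
    intro c
    rw [← hJK]
    show J (Φ.symm (Φ _)) = _
    rw [Φ.symm_apply_apply]
  have htrJ := trans_vars hM.trans m hJ
  have htrj : Trans j (algebraMap M (FractionRing (MvPolynomial (Fin m) M)) x) := by
    intro p hp h0
    refine htrJ (p.map (Φ.symm : RatField N →+* FractionRing (MvPolynomial (Fin m) K))) ?_ ?_
    · rw [Ne, Polynomial.map_eq_zero_iff Φ.symm.injective]
      exact hp
    · rw [Polynomial.eval₂_map]
      exact h0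
  have hy : (algebraMap M (FractionRing (MvPolynomial (Fin m) M)) y) ^ 2 =
      delta (j (algebraMap ℝ (RatField N) al))
        (algebraMap M (FractionRing (MvPolynomial (Fin m) M)) x) := by
    rw [hjR, ← map_pow, hM.eqn, map_delta]
  have hqj : Qf (j (algebraMap ℝ (RatField N) al)) (j (algebraMap ℝ (RatField N) be))
      (algebraMap M (FractionRing (MvPolynomial (Fin m) M)) x) =
        algebraMap M (FractionRing (MvPolynomial (Fin m) M)) q := by
    rw [hjR, hjR, hqdef, map_Qf]
  have heq : (Φ (algebraMap K _ z1)) ^ 2 + (Φ (algebraMap K _ z2)) ^ 2 =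
      Ff (algebraMap ℝ (RatField N) al) (algebraMap ℝ (RatField N) be) (Φ (algebraMap K _ t))
        (Φ (algebraMap K _ w)) := by
    have h1 := congrArg (fun u => Φ (algebraMap K (FractionRing (MvPolynomial (Fin m) K)) u)) hK.eqn
    simp only [map_add, map_pow] at h1
    rw [h1]
    have h2 : ∀ c : ℝ, Φ (algebraMap K (FractionRing (MvPolynomial (Fin m) K))
        (algebraMap ℝ K c)) = algebraMap ℝ (RatField N) c := by
      intro c
      rw [← IsScalarTower.algebraMap_apply ℝ K (FractionRing (MvPolynomial (Fin m) K)), Φ.commutes]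
    have h3 := map_Ff (((Φ : FractionRing (MvPolynomial (Fin m) K) →+* RatField N)).comp
      (algebraMap K (FractionRing (MvPolynomial (Fin m) K)))) (algebraMap ℝ K al)
      (algebraMap ℝ K be) t w
    rw [← h2, ← h2]
    exact h3
  obtain ⟨G, hG, v, hv⟩ := hGLine N _ j al be _ _ hbe hba hrel htrj hy (by rw [hqj]; exact hqS)
    _ _ _ _ heq
  rw [hqj, hjt] at hv
  obtain ⟨G', hG', v', hv'⟩ := hsp J hJ (Φ.symm G) v (by
    rw [Ne, map_eq_zero]
    exact hG) hv
  obtain ⟨s, hs⟩ := hSex al be hbe hba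
  obtain ⟨g⟩ := hToC K M al be t w z1 z2 iM x y s hbe hba hrel hK hM hs G' v' hG' hv'
  obtain ⟨n, d, hd, hnd⟩ : ∃ n d : MvPolynomial (Fin 3) ℂ, d ≠ 0 ∧
      g.G * algebraMap _ KC d = algebraMap _ KC n := by
    obtain ⟨n, d, hd, h⟩ := IsFractionRing.div_surjective (A := MvPolynomial (Fin 3) ℂ) g.G
    have hd0 : d ≠ 0 := nonZeroDivisors.ne_zero hd
    refine ⟨n, d, hd0, ?_⟩
    rw [← h, div_mul_cancel₀]
    rw [Ne, FaithfulSMul.algebraMap_eq_zero_iff]
    exact hd0
  have hodd := hInf al be s hbe hba hrel hs g n d hd hnd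
  obtain ⟨π, n', d', e, f, hirr, hπo, hdvd, hn', hd', hnn, hdd, hef⟩ :=
    hDiv al be s hbe hba hrel hs g.G n d g.G0 g.sG hd hnd hodd
  rw [hn', hd'] at hnd
  obtain ⟨κ, _, φ, sW, a1, b1, a2, b2, hφ, hφs, hsW, hN⟩ :=
    hRes al be s hbe hba hrel hs g π n' d' e f hirr hπo hdvd hnd hnn hdd hef
  have hcz : CharZero κ := by
    have : CharZero ℂ := inferInstance
    exact charZero_of_injective_ringHom (φ.comp MvPolynomial.C).injective
  have hrelC : (be : ℂ) ^ 2 = (al : ℂ) ^ 2 - 1 := by
    exact_mod_cast congrArg (fun t : ℝ => (t : ℂ)) hrel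
  have hz : φ (X 2) ≠ 0 := by
    rw [Ne, hφ]
    intro h
    refine not_dvd_of_parity hirr (MvPolynomial.X_prime).irreducible hπo ?_ h
    rw [wdeg_X]
    exact ⟨1, rfl⟩
  have hF : φ (FP (al : ℂ) be) ≠ 0 := by
    rw [Ne, hφ]
    intro h
    refine not_dvd_of_parity hirr (irreducible_FP _ _ hrelC ?_ ?_) hπo ?_ h
    · exact_mod_cast (pow_pos hal 2).ne'
    · intro h5
      have h6 : al ^ 4 = 1 := by exact_mod_cast h5
      nlinarith
    · rw [wdeg_FP]
      exact ⟨2, rfl⟩
  have hss : ∀ c, sW (sW c) = c := by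
    have hFs : sW (φ (FP (al : ℂ) be)) = φ (FP (al : ℂ) be) := by
      unfold FP
      rw [map_Ff, map_Ff, hsW.const, hsW.const, hsW.t, hsW.w, Complex.conj_ofReal,
        Complex.conj_ofReal]
    have h1 : (sW.comp sW).comp φ = φ := by
      apply MvPolynomial.ringHom_ext
      · intro c
        show sW (sW (φ (C c))) = _
        rw [hsW.const, hsW.const, Complex.conj_conj]
      · intro l
        show sW (sW (φ (X l))) = _
        fin_cases l
        · show sW (sW (φ (X 0))) = φ (X 0)
          rw [hsW.t, hsW.t]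
        · show sW (sW (φ (X 1))) = φ (X 1)
          rw [hsW.w, hsW.w]
        · show sW (sW (φ (X 2))) = φ (X 2)
          rw [hsW.z, map_div₀, hFs, hsW.z]
          field_simp
    intro c
    obtain ⟨p, r, hr, h⟩ := hφs c
    have h2 : ∀ u, sW (sW (φ u)) = φ u := fun u => by
      conv_rhs => rw [← h1]
      rfl
    have h3 := congrArg (fun u => sW (sW u)) h
    simp only [map_mul, h2] at h3
    rw [← h] at h3
    exact mul_right_cancel₀ hr h3
  obtain ⟨p, r, h1, h2, h3, h4⟩ := hEP κ sW (φ (C (al : ℂ))) (φ (C (be : ℂ))) (φ (C Complex.I))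
    a1 b1 a2 b2 hss (by rw [hsW.const, Complex.conj_ofReal]) (by rw [hsW.const, Complex.conj_ofReal])
    (by rw [← map_pow, ← map_pow, Complex.I_sq, map_neg, map_neg, map_one, map_one])
    (by rw [hsW.const, Complex.conj_I, map_neg, map_neg])
    (by rw [← map_pow, ← map_pow, hrelC, map_sub, map_sub, map_pow, map_pow, map_one, map_one])
    (by
      rw [← map_pow, ← map_pow]
      intro h
      have h5 := (φ.comp MvPolynomial.C).injective (a₁ := (al : ℂ) ^ 2) (a₂ := 0)
        (by rw [map_zero]; exact h)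
      have h6 : al ^ 2 = 0 := by exact_mod_cast h5
      exact (pow_pos hal 2).ne' h6)
    (by
      rw [← map_pow, ← map_pow]
      intro h
      have h5 := (φ.comp MvPolynomial.C).injective (a₁ := (al : ℂ) ^ 4) (a₂ := 1)
        (by rw [map_one]; exact h)
      have h6 : al ^ 4 = 1 := by exact_mod_cast h5
      nlinarith) hN
  obtain ⟨k, _, _, _, _, i, cj, a, b, A, hA⟩ := hDesc al be π κ φ sW p r hbe hba hrel htr hirr hπo
    hdvd hφ hφs hsW h1 h2 h3 h4
  exact hB k i cj a b al be A hA

end Stab

end MP_d2f638_ag
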