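import Pool.Agent.Lib.MP_d2f638_ag.Stab.StmtsA

/-!
# The function `x - t` is a norm over a rational variety
-/

namespace MP_d2f638_ag.Stab

open Polynomial

namespace GLine

lemma nf_mul {M : Type} [CommRing M] (q : M) (a b : Fin 4 → M) :
    ∃ c : Fin 4 → M, nf q a * nf q b = nf q c := by
  refine ⟨![a 0 * b 0 - a 1 * b 1 + q * (a 2 * b 2 + a 3 * b 3),
    a 0 * b 1 + a 1 * b 0 + q * (a 3 * b 2 - a 2 * b 3),
    b 2 * a 0 - b 3 * a 1 + (a 2 * b 0 + a 3 * b 1),
    b 2 * a 1 + b 3 * a 0 + (a 3 * b 0 - a 2 * b 1)], ?_⟩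
  simp [nf]
  ring

lemma nf_smul {M : Type} [CommRing M] (q c : M) (a : Fin 4 → M) :
    nf q (fun i => c * a i) = c ^ 2 * nf q a := by
  simp [nf]
  ring

/-- An irreducible factor of `x p - r` does not divide the image of a nonzero polynomial. -/
lemma not_dvd {L M : Type} [Field L] [Field M] (j : L →+* M) (x : M) (hx : Trans j x)
    (p r : L[X]) (hc : IsCoprime p r) (θ : M[X]) (hθ : Irreducible θ)
    (hd : θ ∣ C x * p.map j - r.map j) (h : L[X]) (h0 : h ≠ 0) : ¬ θ ∣ h.map j := by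
  intro hh
  have : Fact (Irreducible θ) := ⟨hθ⟩
  let _ : Algebra L (AdjoinRoot θ) := ((AdjoinRoot.of θ).comp j).toAlgebra
  have hmap : ∀ f : L[X], AdjoinRoot.mk θ (f.map j) = aeval (AdjoinRoot.root θ) f := by
    intro f
    rw [← AdjoinRoot.aeval_eq, aeval_def, eval₂_map]
    rfl
  have hroot : IsAlgebraic L (AdjoinRoot.root θ) := by
    refine ⟨h, h0, ?_⟩
    rw [← hmap, AdjoinRoot.mk_eq_zero]
    exact hh
  have hxr : AdjoinRoot.of θ x * aeval (AdjoinRoot.root θ) p = aeval (AdjoinRoot.root θ) r := by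
    have := AdjoinRoot.mk_eq_zero.2 hd
    rw [map_sub, map_mul, hmap, hmap, AdjoinRoot.mk_C] at this
    linear_combination this
  have hp : aeval (AdjoinRoot.root θ) p ≠ 0 := by
    intro hp
    rw [hp, mul_zero] at hxr
    obtain ⟨u, v, huv⟩ := hc
    have := congrArg (aeval (AdjoinRoot.root θ)) huv
    rw [map_add, map_mul, map_mul, hp, ← hxr] at this
    simp at this
  have hmem : ∀ f : L[X], IsAlgebraic L (aeval (AdjoinRoot.root θ) f) := by
    intro f
    have h1 : AdjoinRoot.root θ ∈ algebraicClosure L (AdjoinRoot θ) :=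
      (mem_algebraicClosure_iff).2 hroot
    have h2 : aeval (AdjoinRoot.root θ) f ∈ algebraicClosure L (AdjoinRoot θ) := by
      have h3 := Polynomial.aeval_mem_adjoin_singleton L (p := f) (AdjoinRoot.root θ)
      have h4 : Algebra.adjoin L {AdjoinRoot.root θ} ≤
          (algebraicClosure L (AdjoinRoot θ)).toSubalgebra := by
        rw [Algebra.adjoin_le_iff]
        simpa using h1
      exact h4 h3
    exact (mem_algebraicClosure_iff).1 h2
  have hxa : IsAlgebraic L (AdjoinRoot.of θ x) := by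
    have : AdjoinRoot.of θ x = aeval (AdjoinRoot.root θ) r / aeval (AdjoinRoot.root θ) p := by
      rw [← hxr]; field_simp
    rw [this]
    exact (hmem r).mul (hmem p).inv
  obtain ⟨q, q0, hq⟩ := hxa
  apply hx q q0
  have h5 : AdjoinRoot.of θ (q.eval₂ j x) = 0 := by
    rw [hom_eval₂]
    exact hq
  exact (map_eq_zero _).1 h5

/-- The main step: the polynomial version. -/
lemma core (hnp : stNP) {L M : Type} [Field L] [Field M] (j : L →+* M) (a b : L) (x y : M)
    (hab : b ^ 2 = a ^ 2 - 1)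
    (hx : Trans j x) (hy : y ^ 2 = delta (j a) x) (han : Anis (Qf (j a) (j b) x))
    (d T W Z1 Z2 : L[X])
    (hid : d ^ 2 * (Z1 ^ 2 + Z2 ^ 2) = (T + C a * d) * (T + C b * d) * W ^ 2 +
      (T - C a * d) * (T - C b * d) * (T ^ 2 - (C a ^ 2 + 1) * d ^ 2))
    (hd0 : d.eval 0 ≠ 0) (hd1 : d.eval 1 ≠ 0) :
    ∃ (c0 c1 : L), c0 ≠ 0 ∧ c1 ≠ 0 ∧ ∃ v : Fin 4 → M,
      (j c0 * (x - j (T.eval 0 / d.eval 0))) * (j c1 * (x - j (T.eval 1 / d.eval 1))) =
        nf (Qf (j a) (j b) x) v := by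
  have hdne : d ≠ 0 := by
    rintro rfl; simp at hd0
  have hQ0 : Qf (j a) (j b) x ≠ 0 := by
    intro h
    have h1 := hx ((X + C a) * (X + C b))
      (mul_ne_zero (Polynomial.X_add_C_ne_zero a) (Polynomial.X_add_C_ne_zero b))
    apply h1
    simpa [Qf, eval₂_mul, eval₂_add] using h
  have hδ0 : delta (j a) x ≠ 0 := by
    intro h
    have h1 := hx ((X ^ 2 - C (a ^ 2)) ^ 3 - (X ^ 2 - C (a ^ 2))) (by
      intro h2
      have h3 : (X ^ 2 - C (a ^ 2)) ^ 3 = (X ^ 2 - C (a ^ 2) : L[X]) := sub_eq_zero.1 h2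
      have h4 := congrArg natDegree h3
      rw [natDegree_pow, natDegree_X_pow_sub_C] at h4
      norm_num at h4)
    apply h1
    simpa [delta, eval₂_sub, eval₂_pow] using h
  have hy0 : y ≠ 0 := by
    rintro rfl
    apply hδ0
    rw [← hy]; simp
  obtain ⟨g, p, r, hg⟩ : ∃ g p r : L[X], IsCoprime p r ∧ d = g * p ∧ T = g * r := by
    classical
    obtain ⟨p, hp⟩ := EuclideanDomain.gcd_dvd_left d T
    obtain ⟨r, hr⟩ := EuclideanDomain.gcd_dvd_right d T
    refine ⟨EuclideanDomain.gcd d T, p, r, ?_, hp, hr⟩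
    have hgne : EuclideanDomain.gcd d T ≠ 0 := by
      intro h
      rw [h, zero_mul] at hp
      exact hdne hp
    have hb := EuclideanDomain.gcd_eq_gcd_ab d T
    refine ⟨EuclideanDomain.gcdA d T, EuclideanDomain.gcdB d T, ?_⟩
    apply mul_left_cancel₀ hgne
    calc EuclideanDomain.gcd d T * (EuclideanDomain.gcdA d T * p + EuclideanDomain.gcdB d T * r)
        = (EuclideanDomain.gcd d T * p) * EuclideanDomain.gcdA d T +
          (EuclideanDomain.gcd d T * r) * EuclideanDomain.gcdB d T := by ring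
      _ = d * EuclideanDomain.gcdA d T + T * EuclideanDomain.gcdB d T := by rw [← hp, ← hr]
      _ = EuclideanDomain.gcd d T * 1 := by rw [mul_one, ← hb]
  obtain ⟨hcop, hdg, hTg⟩ := hg
  have hg0 : g.eval 0 ≠ 0 ∧ p.eval 0 ≠ 0 := by
    rw [hdg, eval_mul] at hd0
    exact mul_ne_zero_iff.1 hd0
  have hg1 : g.eval 1 ≠ 0 ∧ p.eval 1 ≠ 0 := by
    rw [hdg, eval_mul] at hd1
    exact mul_ne_zero_iff.1 hd1
  have ht0 : T.eval 0 / d.eval 0 = r.eval 0 / p.eval 0 := by
    rw [hdg, hTg, eval_mul, eval_mul, mul_div_mul_left _ _ hg0.1]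
  have ht1 : T.eval 1 / d.eval 1 = r.eval 1 / p.eval 1 := by
    rw [hdg, hTg, eval_mul, eval_mul, mul_div_mul_left _ _ hg1.1]
  have hxt : ∀ c : L, x - j c ≠ 0 := by
    intro c h
    have h1 := hx (X - C c) (X_sub_C_ne_zero c)
    apply h1
    simpa [eval₂_sub] using h
  have hev0 : (C x * p.map j - r.map j).eval 0 = j (p.eval 0) * (x - j (r.eval 0 / p.eval 0)) := by
    have h1 : (p.map j).eval 0 = j (p.eval 0) := by
      simp
    have h2 : (r.map j).eval 0 = j (r.eval 0) := by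
      simp
    rw [eval_sub, eval_mul, eval_C, h1, h2, map_div₀]
    have h3 : j (p.eval 0) ≠ 0 := by simpa using hg0.2
    field_simp
  have hev1 : (C x * p.map j - r.map j).eval 1 = j (p.eval 1) * (x - j (r.eval 1 / p.eval 1)) := by
    have h1 : (p.map j).eval 1 = j (p.eval 1) := by
      simp
    have h2 : (r.map j).eval 1 = j (r.eval 1) := by
      simp
    rw [eval_sub, eval_mul, eval_C, h1, h2, map_div₀]
    have h3 : j (p.eval 1) ≠ 0 := by simpa using hg1.2
    field_simp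
  have hnp' := hnp M (Qf (j a) (j b) x) han (C x * p.map j - r.map j) 0 1 (by
    rw [hev0]
    exact mul_ne_zero (by simpa using hg0.2) (hxt _)) (by
    rw [hev1]
    exact mul_ne_zero (by simpa using hg1.2) (hxt _)) (by
    intro θ hθ hdvd
    have hnd := not_dvd j x hx p r hcop θ hθ hdvd
    have hxD : θ ∣ C x * d.map j - T.map j := by
      have h1 : C x * d.map j - T.map j = g.map j * (C x * p.map j - r.map j) := by
        rw [hdg, hTg, Polynomial.map_mul, Polynomial.map_mul]; ring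
      rw [h1]
      exact Dvd.dvd.mul_left hdvd _
    refine ⟨![Z1.map j, Z2.map j, W.map j, d.map j * C (y / Qf (j a) (j b) x)], ⟨3, ?_⟩, ?_⟩
    · intro h
      have h1 : θ ∣ d.map j * C (y / Qf (j a) (j b) x) := h
      rcases hθ.prime.dvd_or_dvd h1 with h2 | h2
      · exact hnd d hdne h2
      · have h3 : y / Qf (j a) (j b) x ≠ 0 := div_ne_zero hy0 hQ0
        exact hθ.not_isUnit (isUnit_of_dvd_unit h2 (isUnit_C.2 h3.isUnit))
    · have hkey : θ ∣ (d.map j) ^ 2 * nf (C (Qf (j a) (j b) x))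
          ![Z1.map j, Z2.map j, W.map j, d.map j * C (y / Qf (j a) (j b) x)] := by
        rw [← AdjoinRoot.mk_eq_zero]
        have hT : AdjoinRoot.mk θ (T.map j) = AdjoinRoot.mk θ (C x) * AdjoinRoot.mk θ (d.map j) := by
          have := AdjoinRoot.mk_eq_zero.2 hxD
          rw [map_sub, map_mul] at this
          linear_combination -this
        have hid' := congrArg (fun f : L[X] => AdjoinRoot.mk θ (f.map j)) hid
        simp only [Polynomial.map_mul, Polynomial.map_add, Polynomial.map_sub, Polynomial.map_pow,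
          Polynomial.map_C, Polynomial.map_one, map_mul, map_add, map_sub, map_pow, map_one] at hid'
        rw [hT] at hid'
        have hR : (y / Qf (j a) (j b) x) ^ 2 * Qf (j a) (j b) x = Rf (j a) (j b) x := by
          have h1 := Qf_mul_Rf (a := j a) (b := j b) (x := x) (by
            rw [← map_pow, ← map_pow, hab]; simp)
          rw [div_pow, hy, ← h1]
          field_simp
        have hR' := congrArg (fun f : M => AdjoinRoot.mk θ (C f)) hR
        simp only [Qf, Rf, map_mul, map_add, map_sub, map_pow, map_one] at hR'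
        simp only [nf, Matrix.cons_val_zero, Matrix.cons_val_one, Matrix.cons_val,
          map_mul, map_add, map_sub, map_pow, map_one, Qf]
        linear_combination hid' - (AdjoinRoot.mk θ (d.map j)) ^ 4 * hR'
      rcases hθ.prime.dvd_or_dvd hkey with h2 | h2
      · exact absurd (hθ.prime.dvd_of_dvd_pow h2) (hnd d hdne)
      · exact h2)
  obtain ⟨v, hv⟩ := hnp'
  refine ⟨p.eval 0, p.eval 1, hg0.2, hg1.2, v, ?_⟩
  rw [← hv, hev0, hev1, ht0, ht1]

/-- Common denominators. -/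
lemma denoms {A : Type} [CommRing A] [IsDomain A] (t w z1 z2 : FractionRing A) :
    ∃ d T W Z1 Z2 : A, d ≠ 0 ∧ algebraMap A (FractionRing A) T = t * algebraMap _ _ d ∧
      algebraMap A (FractionRing A) W = w * algebraMap _ _ d ∧
      algebraMap A (FractionRing A) Z1 = z1 * algebraMap _ _ d ∧
      algebraMap A (FractionRing A) Z2 = z2 * algebraMap _ _ d := by
  classical
  obtain ⟨d, hd⟩ := IsLocalization.exist_integer_multiples_of_finset
    (nonZeroDivisors A) (S := FractionRing A) {t, w, z1, z2}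
  obtain ⟨T, hT⟩ := hd t (by simp)
  obtain ⟨W, hW⟩ := hd w (by simp)
  obtain ⟨Z1, hZ1⟩ := hd z1 (by simp)
  obtain ⟨Z2, hZ2⟩ := hd z2 (by simp)
  refine ⟨d, T, W, Z1, Z2, nonZeroDivisors.coe_ne_zero d, ?_, ?_, ?_, ?_⟩
  · rw [hT, Algebra.smul_def, mul_comm]
  · rw [hW, Algebra.smul_def, mul_comm]
  · rw [hZ1, Algebra.smul_def, mul_comm]
  · rw [hZ2, Algebra.smul_def, mul_comm]

/-- Common denominators and a line through a real point. -/
lemma line (N : ℕ) (t w z1 z2 : RatField N) :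
    ∃ (d T W Z1 Z2 : MvPolynomial (Fin N) ℝ) (y0 : Fin N → ℝ)
      (φ : MvPolynomial (Fin N) ℝ →+* (RatField N)[X]),
      MvPolynomial.eval y0 d ≠ 0 ∧
      (∀ c, φ (MvPolynomial.C c) = C (algebraMap ℝ (RatField N) c)) ∧
      (∀ p, (φ p).eval 0 = algebraMap ℝ (RatField N) (MvPolynomial.eval y0 p)) ∧
      ∃ ψ : MvPolynomial (Fin N) ℝ →+* RatField N, Function.Injective ψ ∧
        (∀ p, (φ p).eval 1 = ψ p) ∧ ψ T = t * ψ d ∧ ψ W = w * ψ d ∧ ψ Z1 = z1 * ψ d ∧
        ψ Z2 = z2 * ψ d ∧ ∀ c, ψ (MvPolynomial.C c) = algebraMap ℝ (RatField N) c := by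
  obtain ⟨d, T, W, Z1, Z2, hd0, hT, hW, hZ1, hZ2⟩ :=
    denoms (A := MvPolynomial (Fin N) ℝ) t w z1 z2
  obtain ⟨y0, hy0⟩ : ∃ y0, MvPolynomial.eval y0 d ≠ 0 := by
    by_contra hcon
    push Not at hcon
    exact hd0 (MvPolynomial.funext (by simpa using hcon))
  let ψ : MvPolynomial (Fin N) ℝ →+* RatField N :=
    algebraMap (MvPolynomial (Fin N) ℝ) (FractionRing (MvPolynomial (Fin N) ℝ))
  have hψC : ∀ c, ψ (MvPolynomial.C c) = algebraMap ℝ (RatField N) c := by
    intro c
    exact (IsScalarTower.algebraMap_apply ℝ (MvPolynomial (Fin N) ℝ)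
      (FractionRing (MvPolynomial (Fin N) ℝ)) c).symm
  let φ : MvPolynomial (Fin N) ℝ →+* (RatField N)[X] :=
    MvPolynomial.eval₂Hom ((C : RatField N →+* (RatField N)[X]).comp (algebraMap ℝ (RatField N)))
      (fun i => C (algebraMap ℝ (RatField N) (y0 i)) +
        X * C (ψ (MvPolynomial.X i) - algebraMap ℝ (RatField N) (y0 i)))
  refine ⟨d, T, W, Z1, Z2, y0, φ, hy0, ?_, ?_, ψ, ?_, ?_, ?_, ?_, ?_, ?_, hψC⟩
  · intro c
    simp [φ]
  · intro p
    have : (evalRingHom (0 : RatField N)).comp φ =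
        (algebraMap ℝ (RatField N)).comp (MvPolynomial.eval y0) := by
      apply MvPolynomial.ringHom_ext
      · intro r
        simp [φ]
      · intro i
        simp [φ]
    exact congrArg (fun f => f p) this
  · exact IsFractionRing.injective (MvPolynomial (Fin N) ℝ)
      (FractionRing (MvPolynomial (Fin N) ℝ))
  · intro p
    have : (evalRingHom (1 : RatField N)).comp φ = ψ := by
      apply MvPolynomial.ringHom_ext
      · intro r
        simp [φ, hψC]
      · intro i
        simp [φ]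
    exact congrArg (fun f => f p) this
  · exact hT
  · exact hW
  · exact hZ1
  · exact hZ2

end GLine

/-- A3. -/
theorem gLine (hnp : stNP) (hv : stVal) : stGLine := by
  intro N M _ j al be x y hbe hal hab hx hy han t w z1 z2 hF
  obtain ⟨d, T, W, Z1, Z2, y0, φ, hd, hφC, hφ0, ψ, hψ, hφ1, hT, hW, hZ1, hZ2, hψC⟩ :=
    GLine.line N t w z1 z2
  have hψd : ψ d ≠ 0 := by
    intro h
    have : d = 0 := hψ (by rw [h, map_zero])
    rw [this] at hd
    simp at hd
  have hid : d ^ 2 * (Z1 ^ 2 + Z2 ^ 2) =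
      (T + MvPolynomial.C al * d) * (T + MvPolynomial.C be * d) * W ^ 2 +
      (T - MvPolynomial.C al * d) * (T - MvPolynomial.C be * d) *
        (T ^ 2 - (MvPolynomial.C al ^ 2 + 1) * d ^ 2) := by
    apply hψ
    simp only [map_mul, map_add, map_sub, map_pow, map_one, hψC, hT, hW, hZ1, hZ2]
    simp only [Ff, Qf, Rf] at hF
    linear_combination (ψ d) ^ 4 * hF
  have hidφ : (φ d) ^ 2 * ((φ Z1) ^ 2 + (φ Z2) ^ 2) =
      (φ T + C (algebraMap ℝ (RatField N) al) * φ d) *
        (φ T + C (algebraMap ℝ (RatField N) be) * φ d) * (φ W) ^ 2 +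
      (φ T - C (algebraMap ℝ (RatField N) al) * φ d) *
        (φ T - C (algebraMap ℝ (RatField N) be) * φ d) *
        ((φ T) ^ 2 - (C (algebraMap ℝ (RatField N) al) ^ 2 + 1) * (φ d) ^ 2) := by
    have := congrArg φ hid
    simp only [map_mul, map_add, map_sub, map_pow, map_one, hφC] at this
    exact this
  have hab' : (algebraMap ℝ (RatField N) be) ^ 2 = (algebraMap ℝ (RatField N) al) ^ 2 - 1 := by
    rw [← map_pow, hab, map_sub, map_pow, map_one]
  have hd0 : (φ d).eval 0 ≠ 0 := by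
    rw [hφ0]
    intro h
    exact hd ((map_eq_zero _).1 h)
  have hd1 : (φ d).eval 1 ≠ 0 := by
    rw [hφ1]
    exact hψd
  obtain ⟨c0, c1, hc0, hc1, v, hvv⟩ := GLine.core hnp j _ _ x y hab' hx hy han _ _ _ _ _ hidφ
    hd0 hd1
  have ht1 : (φ T).eval 1 / (φ d).eval 1 = t := by
    rw [hφ1, hφ1, hT]
    field_simp
  have ht0 : (φ T).eval 0 / (φ d).eval 0 =
      algebraMap ℝ (RatField N) (MvPolynomial.eval y0 T / MvPolynomial.eval y0 d) := by
    rw [hφ0, hφ0, map_div₀]
  rw [ht1, ht0] at hvv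
  have hreal := congrArg (MvPolynomial.eval y0) hid
  simp only [map_mul, map_add, map_sub, map_pow, map_one, MvPolynomial.eval_C] at hreal
  obtain ⟨σ, s, f, g, hσ, hs, hfg⟩ := hv al be (MvPolynomial.eval y0 T / MvPolynomial.eval y0 d)
    (MvPolynomial.eval y0 W / MvPolynomial.eval y0 d)
    (MvPolynomial.eval y0 Z1 / MvPolynomial.eval y0 d)
    (MvPolynomial.eval y0 Z2 / MvPolynomial.eval y0 d) hbe hal (by
      simp only [Ff, Qf, Rf]
      field_simp
      linear_combination hreal)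
  set t0 : ℝ := MvPolynomial.eval y0 T / MvPolynomial.eval y0 d with ht0def
  let ι : ℝ →+* M := j.comp (algebraMap ℝ (RatField N))
  have hx0 : x - j (algebraMap ℝ (RatField N) t0) ≠ 0 := by
    intro h
    apply hx (X - C (algebraMap ℝ (RatField N) t0)) (X_sub_C_ne_zero _)
    simpa [eval₂_sub] using h
  -- the value at the real point
  have hval : j (algebraMap ℝ (RatField N) s) * (x - j (algebraMap ℝ (RatField N) t0)) =
      nf (Qf (j (algebraMap ℝ (RatField N) al)) (j (algebraMap ℝ (RatField N) be)) x)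
        ![f.eval₂ ι x, g.eval₂ ι x, ι (Real.sqrt σ), 0] := by
    have h1 := congrArg (eval₂ ι x) hfg
    simp only [Qf, eval₂_add, eval₂_mul, eval₂_sub, eval₂_pow, eval₂_C, eval₂_X] at h1
    have h2 : ι (Real.sqrt σ) ^ 2 = ι σ := by
      rw [← map_pow, Real.sq_sqrt hσ]
    simp only [nf, Matrix.cons_val_zero, Matrix.cons_val_one, Matrix.cons_val, h2, Qf]
    have hι : ∀ c, ι c = j (algebraMap ℝ (RatField N) c) := fun c => rfl
    simp only [hι] at h1 ⊢
    linear_combination h1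
  obtain ⟨v', hv'⟩ := GLine.nf_mul (Qf (j (algebraMap ℝ (RatField N) al))
    (j (algebraMap ℝ (RatField N) be)) x) v ![f.eval₂ ι x, g.eval₂ ι x, ι (Real.sqrt σ), 0]
  have hs0 : algebraMap ℝ (RatField N) s ≠ 0 := by
    rcases hs with h | h <;> rw [h] <;> simp
  refine ⟨algebraMap ℝ (RatField N) s * (c0 * c1), mul_ne_zero hs0 (mul_ne_zero hc0 hc1),
    fun i => (x - j (algebraMap ℝ (RatField N) t0))⁻¹ * v' i, ?_⟩
  rw [GLine.nf_smul, ← hv', ← hvv, ← hval, map_mul, map_mul]
  field_simp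

end MP_d2f638_ag.Stab
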