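import Pool.Agent.Lib.MP_d2f638_ag.Stab.StmtsA

/-!
# B1: the parity at infinity

We evaluate the norm equation at real points of the threefold tending to infinity: at such points
`s` is complex conjugation, the right hand side is nonnegative and the sign of `x - t` is known.
-/

namespace MP_d2f638_ag.Stab

open Polynomial Filter Topology

namespace Inf

/-- The polynomial ring. -/
abbrev R3 : Type := MvPolynomial (Fin 3) ℂ

/-- The embedding in the function field. -/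
noncomputable def io : R3 →+* KC := algebraMap R3 KC

lemma io_inj : Function.Injective io := IsFractionRing.injective R3 KC

lemma io_C (c : ℂ) : io (MvPolynomial.C c) = cK c := by
  unfold io cK
  rw [IsScalarTower.algebraMap_apply ℂ R3 KC]
  rfl

/-- `c` is the value of the rational function `h` at the point `P`. -/
def Vl (P : Fin 3 → ℂ) (h : KC) (c : ℂ) : Prop :=
  ∃ p q : R3, MvPolynomial.eval P q ≠ 0 ∧ h * io q = io p ∧
    c * MvPolynomial.eval P q = MvPolynomial.eval P p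

variable {P : Fin 3 → ℂ} {h h' : KC} {c c' : ℂ}

lemma Vl.poly (p : R3) : Vl P (io p) (MvPolynomial.eval P p) :=
  ⟨p, 1, by simp, by simp, by simp⟩

lemma Vl.const (c : ℂ) : Vl P (cK c) c := by
  have h := Vl.poly (P := P) (MvPolynomial.C c)
  rwa [io_C, MvPolynomial.eval_C] at h

lemma Vl.add (h1 : Vl P h c) (h2 : Vl P h' c') : Vl P (h + h') (c + c') := by
  obtain ⟨p, q, a1, a2, a3⟩ := h1
  obtain ⟨p', q', b1, b2, b3⟩ := h2
  refine ⟨p * q' + p' * q, q * q', ?_, ?_, ?_⟩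
  · rw [map_mul]; exact mul_ne_zero a1 b1
  · rw [map_mul, map_add, map_mul, map_mul, ← a2, ← b2]; ring
  · rw [map_mul, map_add, map_mul, map_mul, ← a3, ← b3]; ring

lemma Vl.mul (h1 : Vl P h c) (h2 : Vl P h' c') : Vl P (h * h') (c * c') := by
  obtain ⟨p, q, a1, a2, a3⟩ := h1
  obtain ⟨p', q', b1, b2, b3⟩ := h2
  refine ⟨p * p', q * q', ?_, ?_, ?_⟩
  · rw [map_mul]; exact mul_ne_zero a1 b1
  · rw [map_mul, map_mul, ← a2, ← b2]; ring
  · rw [map_mul, map_mul, ← a3, ← b3]; ring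

lemma Vl.unique (h1 : Vl P h c) (h2 : Vl P h c') : c = c' := by
  obtain ⟨p, q, a1, a2, a3⟩ := h1
  obtain ⟨p', q', b1, b2, b3⟩ := h2
  have e : p * q' = p' * q := by
    apply io_inj
    rw [map_mul, map_mul, ← a2, ← b2]; ring
  have e2 : MvPolynomial.eval P p * MvPolynomial.eval P q' =
      MvPolynomial.eval P p' * MvPolynomial.eval P q := by
    rw [← map_mul, e, map_mul]
  rw [← a3, ← b3] at e2
  have e3 : (c - c') * (MvPolynomial.eval P q * MvPolynomial.eval P q') = 0 := by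
    linear_combination e2
  rcases mul_eq_zero.mp e3 with h4 | h4
  · exact sub_eq_zero.mp h4
  · exact absurd h4 (mul_ne_zero a1 b1)

lemma Vl.div {u v : KC} {cu cv : ℂ} (hu : Vl P u cu) (hv : Vl P v cv) (hc : cv ≠ 0)
    (he : h * v = u) : Vl P h (cu / cv) := by
  obtain ⟨p, q, a1, a2, a3⟩ := hu
  obtain ⟨p', q', b1, b2, b3⟩ := hv
  refine ⟨p * q', p' * q, ?_, ?_, ?_⟩
  · rw [map_mul, ← b3]; exact mul_ne_zero (mul_ne_zero hc b1) a1
  · rw [map_mul, map_mul, ← a2, ← b2, ← he]; ring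
  · rw [map_mul, map_mul, ← a3, ← b3]
    field_simp

lemma Vl.of_frac {p q : R3} (hq : MvPolynomial.eval P q ≠ 0) (he : h * io q = io p) :
    Vl P h (MvPolynomial.eval P p / MvPolynomial.eval P q) :=
  Vl.div (Vl.poly p) (Vl.poly q) hq he

/-- A real point of the threefold. -/
structure RPt (al be : ℝ) (P : Fin 3 → ℂ) : Prop where
  t : starRingEnd ℂ (P 0) = P 0
  w : starRingEnd ℂ (P 1) = P 1
  z : P 2 * starRingEnd ℂ (P 2) = Ff (al : ℂ) be (P 0) (P 1)
  z0 : P 2 ≠ 0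

lemma Vl.s_poly {al be : ℝ} {s : KC →+* KC} (hs : IsS al be s) (hP : RPt al be P) (p : R3) :
    Vl P (s (io p)) (starRingEnd ℂ (MvPolynomial.eval P p)) := by
  induction p using MvPolynomial.induction_on with
  | C a =>
    rw [io_C, hs.const, MvPolynomial.eval_C]
    exact Vl.const _
  | add p q hp hq =>
    rw [map_add, map_add, map_add, map_add]
    exact hp.add hq
  | mul_X p i hp =>
    rw [map_mul, map_mul, map_mul, map_mul]
    refine hp.mul ?_
    rw [MvPolynomial.eval_X]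
    fin_cases i
    · show Vl P (s tK) (starRingEnd ℂ (P 0))
      rw [hs.t, hP.t]
      have := Vl.poly (P := P) (MvPolynomial.X 0)
      rwa [MvPolynomial.eval_X] at this
    · show Vl P (s wK) (starRingEnd ℂ (P 1))
      rw [hs.w, hP.w]
      have := Vl.poly (P := P) (MvPolynomial.X 1)
      rwa [MvPolynomial.eval_X] at this
    · show Vl P (s zK) (starRingEnd ℂ (P 2))
      rw [hs.z]
      have h1 : starRingEnd ℂ (P 2) = MvPolynomial.eval P (FP (al : ℂ) be) /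
          MvPolynomial.eval P (MvPolynomial.X 2) := by
        rw [MvPolynomial.eval_X, eq_div_iff hP.z0, mul_comm, hP.z]
        unfold FP
        rw [map_Ff]
        simp
      rw [h1]
      refine Vl.of_frac (by rw [MvPolynomial.eval_X]; exact hP.z0) ?_
      have hz : zK ≠ 0 := by
        intro h0
        have h2 : (MvPolynomial.X 2 : R3) = 0 := io_inj (by rw [map_zero]; exact h0)
        exact MvPolynomial.X_ne_zero 2 h2
      have h3 : io (MvPolynomial.X 2) = zK := rfl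
      have h4 : io (FP (al : ℂ) be) = Ff (cK al) (cK be) tK wK := by
        unfold FP
        rw [map_Ff, io_C, io_C]
        rfl
      rw [h3, h4, div_mul_cancel₀ _ hz]

lemma Vl.s {al be : ℝ} {s : KC →+* KC} (hs : IsS al be s) (hP : RPt al be P) (hv : Vl P h c) :
    Vl P (s h) (starRingEnd ℂ c) := by
  obtain ⟨p, q, a1, a2, a3⟩ := hv
  have h1 := Vl.s_poly hs hP p
  have h2 := Vl.s_poly hs hP q
  have h3 : starRingEnd ℂ (MvPolynomial.eval P q) ≠ 0 := by
    intro h4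
    exact a1 ((map_eq_zero _).mp h4)
  have h4 : s h * s (io q) = s (io p) := by rw [← map_mul, a2]
  have h5 := Vl.div h1 h2 h3 h4
  rwa [← a3, map_mul, mul_div_assoc, div_self h3, mul_one] at h5

/-! ## The identity at a real value of `x` -/

lemma eval_map_s {al be : ℝ} {s : KC →+* KC} (hs : IsS al be s) (x : ℝ) (a : KC[X]) :
    (a.map s).eval (cK x) = s (a.eval (cK x)) := by
  have h1 : s (cK (x : ℂ)) = cK x := by rw [hs.const, Complex.conj_ofReal]
  rw [Polynomial.eval_map]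
  conv_lhs => rw [← h1]
  exact Polynomial.eval₂_at_apply s (cK (x : ℂ))

lemma real_identity {al be : ℝ} {s : KC →+* KC} (hab : be ^ 2 = al ^ 2 - 1) (hbe : 0 < be)
    (hba : be < al) (hs : IsS al be s) (g : GData al be s) :
    ∃ (x q : ℝ) (dx α α' : KC), 0 < q ∧ dx ≠ 0 ∧ s dx = dx ∧
      g.G * (cK x - tK) * dx ^ 2 = α * s α + cK q * (α' * s α') := by
  -- choice of `x`
  obtain ⟨x, hx1, hx2, hx3⟩ : ∃ x : ℝ, -al < x ∧ x < -be ∧ g.d.eval (cK x) ≠ 0 := by
    by_contra hcon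
    push Not at hcon
    have h1 : Set.Infinite {y : KC | g.d.IsRoot y} := by
      have h2 : Set.Infinite ((fun x : ℝ => cK (x : ℂ)) '' Set.Ioo (-al) (-be)) := by
        refine (Set.Ioo_infinite (by linarith)).image ?_
        intro a _ b _ hab'
        exact Complex.ofReal_injective ((cK : ℂ →+* KC).injective hab')
      refine h2.mono ?_
      rintro _ ⟨x, hx, rfl⟩
      exact hcon x hx.1 hx.2
    exact g.d0 (Polynomial.eq_zero_of_infinite_isRoot _ h1)
  have hQ : Qf al be x < 0 := by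
    unfold Qf
    exact mul_neg_of_pos_of_neg (by linarith) (by linarith)
  have hR : Rf al be x < 0 := by
    unfold Rf
    have h1 : 0 < (x - al) * (x - be) := mul_pos_of_neg_of_neg (by linarith) (by linarith)
    have h2 : x ^ 2 - al ^ 2 - 1 < 0 := by nlinarith
    exact mul_neg_of_pos_of_neg h1 h2
  have hδ : 0 < delta al x := by
    rw [← Qf_mul_Rf hab]
    exact mul_pos_of_neg_of_neg hQ hR
  set y : ℝ := Real.sqrt (delta al x) with hy
  have hy2 : y ^ 2 = delta al x := Real.sq_sqrt hδ.le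
  have hsy : s (cK (y : ℂ)) = cK y := by rw [hs.const, Complex.conj_ofReal]
  have hsx : s (cK (x : ℂ)) = cK x := by rw [hs.const, Complex.conj_ofReal]
  set A1 := g.a1.eval (cK (x : ℂ)) with hA1
  set B1 := g.b1.eval (cK (x : ℂ)) with hB1
  set A2 := g.a2.eval (cK (x : ℂ)) with hA2
  set B2 := g.b2.eval (cK (x : ℂ)) with hB2
  refine ⟨x, -Qf al be x, g.d.eval (cK x), A1 + cK y * B1, A2 + cK y * B2, by linarith, hx3, ?_, ?_⟩
  · rw [← eval_map_s hs, g.sd]
  · have e1 := congrArg (Polynomial.eval (cK (x : ℂ))) g.id1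
    have e2 := congrArg (Polynomial.eval (cK (x : ℂ))) g.id2
    have hd : (delta (C (cK (al : ℂ))) (X : KC[X])).eval (cK (x : ℂ)) = cK ((y : ℂ) ^ 2) := by
      have h1 := map_delta (Polynomial.evalRingHom (cK (x : ℂ))) (C (cK (al : ℂ))) X
      rw [Polynomial.coe_evalRingHom, Polynomial.eval_C, Polynomial.eval_X] at h1
      rw [h1, ← map_delta]
      congr 1
      have h2 : delta ((al : ℝ) : ℂ) (x : ℂ) = ((delta al x : ℝ) : ℂ) := by
        have := map_delta (Complex.ofRealHom) al x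
        exact this.symm
      rw [h2, ← hy2]
      push_cast
      rfl
    have hq : (Qf (C (cK (al : ℂ))) (C (cK (be : ℂ))) (X : KC[X])).eval (cK (x : ℂ)) =
        cK ((Qf al be x : ℝ) : ℂ) := by
      have h1 := map_Qf (Polynomial.evalRingHom (cK (x : ℂ))) (C (cK (al : ℂ)))
        (C (cK (be : ℂ))) X
      rw [Polynomial.coe_evalRingHom, Polynomial.eval_C, Polynomial.eval_C,
        Polynomial.eval_X] at h1
      rw [h1, ← map_Qf]
      congr 1
      have := map_Qf (Complex.ofRealHom) al be x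
      exact this.symm
    simp only [Polynomial.eval_mul, Polynomial.eval_add, Polynomial.eval_sub, Polynomial.eval_pow,
      Polynomial.eval_C, Polynomial.eval_X, eval_map_s hs, hd, hq] at e1 e2
    rw [← hA1, ← hB1, ← hA2, ← hB2] at e1 e2
    rw [e1]
    rw [map_add, map_add, map_mul, map_mul, hsy]
    have e3 : cK ((y : ℂ) ^ 2) = cK y ^ 2 := map_pow _ _ _
    have e4 : cK ((-Qf al be x : ℝ) : ℂ) = - cK ((Qf al be x : ℝ) : ℂ) := by
      rw [Complex.ofReal_neg, map_neg]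
    rw [e3, e4]
    linear_combination (- cK (y : ℂ)) * e2

/-! ## The sign at real points -/

lemma sign_at {al be : ℝ} {s : KC →+* KC} (hs : IsS al be s) {G dx α α' : KC} {x q : ℝ}
    (hq : 0 < q) (hdx : s dx = dx)
    (hid : G * (cK x - tK) * dx ^ 2 = α * s α + cK q * (α' * s α'))
    {P : Fin 3 → ℂ} (hP : RPt al be P) {gv dv av av' : ℂ} (hG : Vl P G gv) (hd : Vl P dx dv)
    (hd0 : dv ≠ 0) (ha : Vl P α av) (ha' : Vl P α' av') :
    ∃ r : ℝ, 0 ≤ r ∧ gv * (x - P 0) = r := by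
  have ht : Vl P tK (P 0) := by
    have := Vl.poly (P := P) (MvPolynomial.X 0)
    rwa [MvPolynomial.eval_X] at this
  have h1 : Vl P (cK x - tK) (x - P 0) := by
    have h2 : Vl P (cK (x : ℂ) + cK (-1) * tK) (x + (-1) * P 0) :=
      (Vl.const _).add ((Vl.const _).mul ht)
    have e1 : cK (x : ℂ) + cK (-1) * tK = cK x - tK := by
      rw [map_neg, map_one]; ring
    have e2 : (x : ℂ) + (-1) * P 0 = x - P 0 := by ring
    rwa [e1, e2] at h2
  have hL := (hG.mul h1).mul (hd.mul hd)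
  have hR := (ha.mul (ha.s hs hP)).add ((Vl.const (P := P) (q : ℂ)).mul (ha'.mul (ha'.s hs hP)))
  rw [← pow_two, hid] at hL
  have he := hL.unique hR
  have hdr : starRingEnd ℂ dv = dv := by
    have := hd.s hs hP
    rw [hdx] at this
    exact this.unique hd
  obtain ⟨r0, hr0⟩ := Complex.conj_eq_iff_real.mp hdr
  have hr00 : r0 ≠ 0 := by
    rintro rfl
    exact hd0 (by rw [hr0]; simp)
  refine ⟨(Complex.normSq av + q * Complex.normSq av') / r0 ^ 2, ?_, ?_⟩
  · have := Complex.normSq_nonneg av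
    have := Complex.normSq_nonneg av'
    positivity
  · rw [Complex.mul_conj, Complex.mul_conj, hr0] at he
    have h3 : (r0 : ℂ) ≠ 0 := by exact_mod_cast hr00
    push_cast
    rw [eq_div_iff (pow_ne_zero 2 h3)]
    linear_combination he

/-! ## Top weighted parts -/

/-- The weight of a monomial. -/
def wt (e : Fin 3 →₀ ℕ) : ℕ := e 0 + e 1 + 2 * e 2

lemma weight_eq (e : Fin 3 →₀ ℕ) : Finsupp.weight (![1, 1, 2] : Fin 3 → ℕ) e = wt e := by
  rw [Finsupp.weight_apply, Finsupp.sum_fintype _ _ (by intro i; simp), Fin.sum_univ_three]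
  simp [wt, mul_comm]

lemma wt_le {p : R3} {e : Fin 3 →₀ ℕ} (he : e ∈ p.support) : wt e ≤ wdeg p := by
  rw [← weight_eq]
  exact MvPolynomial.le_weightedTotalDegree _ he

lemma exists_wt {p : R3} (hp : p ≠ 0) : ∃ e ∈ p.support, wt e = wdeg p := by
  have h1 : p.support.Nonempty := by
    rw [Finset.nonempty_iff_ne_empty]
    intro h2
    exact hp (MvPolynomial.support_eq_empty.mp h2)
  obtain ⟨e, he, h3⟩ := Finset.exists_mem_eq_sup p.support h1
    (fun e => Finsupp.weight (![1, 1, 2] : Fin 3 → ℕ) e)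
  refine ⟨e, he, ?_⟩
  rw [← weight_eq]
  exact h3.symm

/-- The top weighted part. -/
noncomputable def topP (p : R3) : R3 :=
  ∑ e ∈ p.support.filter (fun e => wt e = wdeg p), MvPolynomial.monomial e (p.coeff e)

lemma topP_ne {p : R3} (hp : p ≠ 0) : topP p ≠ 0 := by
  obtain ⟨e, he, h1⟩ := exists_wt hp
  intro h2
  have h3 : (topP p).coeff e = p.coeff e := by
    unfold topP
    rw [MvPolynomial.coeff_sum]
    simp only [MvPolynomial.coeff_monomial]
    rw [Finset.sum_ite_eq']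
    rw [if_pos (Finset.mem_filter.mpr ⟨he, h1⟩)]
  rw [h2, MvPolynomial.coeff_zero] at h3
  exact (MvPolynomial.mem_support_iff.mp he) h3.symm

lemma eval_mon (t w z : ℂ) (e : Fin 3 →₀ ℕ) (c : ℂ) :
    MvPolynomial.eval ![t, w, z] (MvPolynomial.monomial e c) =
      c * (t ^ e 0 * w ^ e 1 * z ^ e 2) := by
  rw [MvPolynomial.eval_monomial, Finsupp.prod_fintype _ _ (by intro i; simp),
    Fin.prod_univ_three]
  simp

lemma eval_topP (t w z : ℂ) (p : R3) : MvPolynomial.eval ![t, w, z] (topP p) =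
    ∑ e ∈ p.support, if wt e = wdeg p then p.coeff e * (t ^ e 0 * w ^ e 1 * z ^ e 2) else 0 := by
  unfold topP
  rw [map_sum, Finset.sum_filter]
  refine Finset.sum_congr rfl fun e _ => ?_
  split_ifs
  · rw [eval_mon]
  · rfl

lemma eval_sum (t w z : ℂ) (p : R3) : MvPolynomial.eval ![t, w, z] p =
    ∑ e ∈ p.support, p.coeff e * (t ^ e 0 * w ^ e 1 * z ^ e 2) := by
  conv_lhs => rw [p.as_sum]
  rw [map_sum]
  exact Finset.sum_congr rfl fun e _ => eval_mon _ _ _ _ _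

lemma topP_neg (t w z : ℂ) (p : R3) : MvPolynomial.eval ![-t, -w, z] (topP p) =
    (-1) ^ wdeg p * MvPolynomial.eval ![t, w, z] (topP p) := by
  rw [eval_topP, eval_topP, Finset.mul_sum]
  refine Finset.sum_congr rfl fun e _ => ?_
  split_ifs with h
  · rw [← h, neg_pow t, neg_pow w]
    have h1 : ((-1 : ℂ)) ^ wt e = (-1) ^ e 0 * (-1) ^ e 1 := by
      unfold wt
      rw [pow_add, pow_add, pow_mul]
      simp
    rw [h1]
    ring
  · rw [mul_zero]

/-- The limit along a curve to infinity. -/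
lemma tendsto_top (t0 w0 z0 : ℂ) (r : ℝ → ℝ) (hr : Tendsto (fun μ => r μ / μ ^ 2) atTop (𝓝 1))
    (p : R3) : Tendsto (fun μ : ℝ => MvPolynomial.eval ![(μ : ℂ) * t0, (μ : ℂ) * w0, (r μ : ℂ) * z0] p /
      (μ : ℂ) ^ wdeg p) atTop (𝓝 (MvPolynomial.eval ![t0, w0, z0] (topP p))) := by
  rw [eval_topP]
  have h1 : ∀ e ∈ p.support, Tendsto (fun μ : ℝ => p.coeff e * (t0 ^ e 0 * w0 ^ e 1 * z0 ^ e 2) *
      ((((r μ / μ ^ 2) ^ e 2 * (μ ^ wt e / μ ^ wdeg p) : ℝ)) : ℂ)) atTop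
      (𝓝 (if wt e = wdeg p then p.coeff e * (t0 ^ e 0 * w0 ^ e 1 * z0 ^ e 2) else 0)) := by
    intro e he
    have h2 : Tendsto (fun μ : ℝ => μ ^ wt e / μ ^ wdeg p) atTop
        (𝓝 (if wt e = wdeg p then 1 else 0)) := by
      split_ifs with h
      · refine tendsto_const_nhds.congr' ?_
        filter_upwards [eventually_gt_atTop 0] with μ hμ
        rw [h, div_self (pow_ne_zero _ hμ.ne')]
      · have h3 : wt e < wdeg p := lt_of_le_of_ne (wt_le he) h
        exact tendsto_pow_div_pow_atTop_zero h3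
    have h3 := (hr.pow (e 2)).mul h2
    have h4 := (Complex.continuous_ofReal.tendsto _).comp h3
    have h5 := h4.const_mul (p.coeff e * (t0 ^ e 0 * w0 ^ e 1 * z0 ^ e 2))
    have h6 : p.coeff e * (t0 ^ e 0 * w0 ^ e 1 * z0 ^ e 2) *
        ((((1 : ℝ) ^ e 2 * if wt e = wdeg p then 1 else 0) : ℝ) : ℂ) =
        if wt e = wdeg p then p.coeff e * (t0 ^ e 0 * w0 ^ e 1 * z0 ^ e 2) else 0 := by
      split_ifs <;> simp
    rw [← h6]
    exact h5
  refine (tendsto_finsetSum _ h1).congr' ?_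
  filter_upwards [eventually_gt_atTop 0] with μ hμ
  have hμ' : (μ : ℂ) ≠ 0 := by exact_mod_cast hμ.ne'
  rw [eval_sum, Finset.sum_div]
  refine Finset.sum_congr rfl fun e _ => ?_
  push_cast
  rw [mul_pow, mul_pow, mul_pow, div_pow]
  have h2 : (μ : ℂ) ^ wt e = (μ : ℂ) ^ e 0 * (μ : ℂ) ^ e 1 * ((μ : ℂ) ^ 2) ^ e 2 := by
    unfold wt
    rw [pow_add, pow_add, pow_mul]
  rw [h2]
  field_simp

/-! ## Choice of a direction -/

lemma exists_dir (T : R3) (hT : T ≠ 0) : ∃ (t0 w0 : ℝ) (z0 : ℂ), 0 < t0 ∧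
    Complex.normSq z0 = t0 ^ 2 * (w0 ^ 2 + t0 ^ 2) ∧
    MvPolynomial.eval ![(t0 : ℂ), (w0 : ℂ), z0] T ≠ 0 := by
  set σ : Equiv.Perm (Fin 3) := Equiv.swap 0 2 with hσ
  have h1 : MvPolynomial.rename σ T ≠ 0 := by
    intro h
    exact hT ((MvPolynomial.rename_injective σ σ.injective) (by rw [h, map_zero]))
  set Q := MvPolynomial.finSuccEquiv ℂ 2 (MvPolynomial.rename σ T) with hQ
  have h2 : Q ≠ 0 := by
    intro h
    exact h1 ((MvPolynomial.finSuccEquiv ℂ 2).injective (by rw [← hQ, h, map_zero]))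
  obtain ⟨j, hj⟩ : ∃ j, Q.coeff j ≠ 0 := by
    by_contra hcon
    push Not at hcon
    exact h2 (Polynomial.ext fun j => by rw [hcon j, Polynomial.coeff_zero])
  have hinf : (((fun x : ℝ => (x : ℂ)) '' Set.Ioi 0) : Set ℂ).Infinite :=
    (Set.Ioi_infinite 0).image Complex.ofReal_injective.injOn
  obtain ⟨v, hv, hvne⟩ : ∃ v ∈ Set.pi Set.univ
      (fun _ : Fin 2 => (((fun x : ℝ => (x : ℂ)) '' Set.Ioi 0) : Set ℂ)),
      MvPolynomial.eval v (Q.coeff j) ≠ 0 := by
    by_contra hcon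
    push Not at hcon
    refine hj (MvPolynomial.funext_set _ (fun _ => hinf) fun x hx => ?_)
    rw [hcon x hx, map_zero]
  obtain ⟨w0, hw0, hw0'⟩ := hv 0 (Set.mem_univ _)
  obtain ⟨t0, ht0, ht0'⟩ := hv 1 (Set.mem_univ _)
  simp only at hw0' ht0'
  have hw0p : 0 < w0 := hw0
  have ht0p : 0 < t0 := ht0
  have h3 : Q.map (MvPolynomial.eval v) ≠ 0 := by
    intro h
    have h4 := congrArg (fun p => Polynomial.coeff p j) h
    simp only [Polynomial.coeff_map, Polynomial.coeff_zero] at h4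
    exact hvne h4
  set ρ : ℝ := Real.sqrt (t0 ^ 2 * (w0 ^ 2 + t0 ^ 2)) with hρ
  have hρ0 : 0 < ρ := Real.sqrt_pos.mpr (by positivity)
  have hρ2 : ρ ^ 2 = t0 ^ 2 * (w0 ^ 2 + t0 ^ 2) := Real.sq_sqrt (by positivity)
  obtain ⟨z0, hz0, hz1⟩ : ∃ z0 : ℂ, Complex.normSq z0 = ρ ^ 2 ∧
      (Q.map (MvPolynomial.eval v)).eval z0 ≠ 0 := by
    by_contra hcon
    push Not at hcon
    refine h3 (Polynomial.eq_zero_of_infinite_isRoot _ ?_)
    have h4 : (((fun x : ℝ => (⟨x, Real.sqrt (ρ ^ 2 - x ^ 2)⟩ : ℂ)) '' Set.Ioo 0 ρ) :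
        Set ℂ).Infinite := by
      refine (Set.Ioo_infinite hρ0).image ?_
      intro a _ b _ hab
      exact congrArg Complex.re hab
    refine h4.mono ?_
    rintro _ ⟨x, hx, rfl⟩
    refine hcon _ ?_
    rw [Complex.normSq_mk]
    have h5 : 0 ≤ ρ ^ 2 - x ^ 2 := by nlinarith [hx.1, hx.2]
    rw [Real.mul_self_sqrt h5]
    ring
  refine ⟨t0, w0, z0, ht0p, by rw [hz0, hρ2], ?_⟩
  rw [← MvPolynomial.eval_eq_eval_mv_eval', MvPolynomial.eval_rename] at hz1
  have h4 : (Fin.cons z0 v : Fin 3 → ℂ) ∘ σ = ![(t0 : ℂ), (w0 : ℂ), z0] := by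
    funext i
    fin_cases i
    · show (Fin.cons z0 v : Fin 3 → ℂ) (σ 0) = t0
      rw [hσ, Equiv.swap_apply_left, ht0']
      rfl
    · show (Fin.cons z0 v : Fin 3 → ℂ) (σ 1) = w0
      rw [hσ, Equiv.swap_apply_of_ne_of_ne (by decide) (by decide), hw0']
      rfl
    · show (Fin.cons z0 v : Fin 3 → ℂ) (σ 2) = z0
      rw [hσ, Equiv.swap_apply_right]
      rfl
  rwa [h4] at hz1

/-! ## The curve of real points -/

/-- The factor of `z`. -/
noncomputable def rad (al be t0 w0 : ℝ) (z0 : ℂ) (μ : ℝ) : ℝ :=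
  Real.sqrt (Ff al be (μ * t0) (μ * w0) / Complex.normSq z0)

lemma tendsto_F (al be t0 w0 : ℝ) : Tendsto (fun μ : ℝ => Ff al be (μ * t0) (μ * w0) / μ ^ 4) atTop
    (𝓝 (t0 ^ 2 * (w0 ^ 2 + t0 ^ 2))) := by
  set Φ : ℝ → ℝ := fun ε => (t0 + al * ε) * (t0 + be * ε) * w0 ^ 2 +
    (t0 - al * ε) * (t0 - be * ε) * (t0 ^ 2 - (al ^ 2 + 1) * ε ^ 2) with hΦ
  have h1 : Continuous Φ := by fun_prop
  have h2 : Tendsto (fun μ : ℝ => Φ μ⁻¹) atTop (𝓝 (Φ 0)) :=
    (h1.tendsto 0).comp tendsto_inv_atTop_zero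
  have h3 : Φ 0 = t0 ^ 2 * (w0 ^ 2 + t0 ^ 2) := by simp only [hΦ]; ring
  rw [← h3]
  refine h2.congr' ?_
  filter_upwards [eventually_gt_atTop 0] with μ hμ
  simp only [hΦ, Ff, Qf, Rf]
  field_simp
  ring

lemma tendsto_rad (al be t0 w0 : ℝ) (z0 : ℂ) (ht : t0 ≠ 0)
    (hz : Complex.normSq z0 = t0 ^ 2 * (w0 ^ 2 + t0 ^ 2)) :
    Tendsto (fun μ => rad al be t0 w0 z0 μ / μ ^ 2) atTop (𝓝 1) := by
  have hpos : 0 < Complex.normSq z0 := by rw [hz]; positivity
  have h1 := (tendsto_F al be t0 w0).div_const (Complex.normSq z0)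
  rw [← hz, div_self hpos.ne'] at h1
  have h2 := (Real.continuous_sqrt.tendsto 1).comp h1
  rw [Real.sqrt_one] at h2
  refine h2.congr' ?_
  filter_upwards [eventually_gt_atTop 0] with μ hμ
  simp only [Function.comp, rad]
  have h3 : μ ^ 2 = Real.sqrt (μ ^ 4) := by
    rw [show μ ^ 4 = (μ ^ 2) ^ 2 by ring, Real.sqrt_sq (by positivity)]
  rw [h3, ← Real.sqrt_div' _ (by positivity)]
  congr 1
  rw [div_div, div_div, mul_comm (μ ^ 4)]

/-- The point. -/
noncomputable def cpt (al be t0 w0 : ℝ) (z0 : ℂ) (μ : ℝ) : Fin 3 → ℂ :=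
  ![(μ : ℂ) * (t0 : ℂ), (μ : ℂ) * (w0 : ℂ), (rad al be t0 w0 z0 μ : ℂ) * z0]

lemma cpt_real (al be t0 w0 : ℝ) (z0 : ℂ) (ht : t0 ≠ 0)
    (hz : Complex.normSq z0 = t0 ^ 2 * (w0 ^ 2 + t0 ^ 2)) :
    ∀ᶠ μ in atTop, RPt al be (cpt al be t0 w0 z0 μ) := by
  have hpos : 0 < Complex.normSq z0 := by rw [hz]; positivity
  have h1 : ∀ᶠ μ : ℝ in atTop, 0 < Ff al be (μ * t0) (μ * w0) / μ ^ 4 :=
    (tendsto_F al be t0 w0).eventually (lt_mem_nhds (by rw [← hz]; exact hpos))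
  filter_upwards [h1, eventually_gt_atTop 0] with μ h2 hμ
  have h3 : 0 < Ff al be (μ * t0) (μ * w0) := by
    by_contra hcon
    push Not at hcon
    exact absurd h2 (not_lt.mpr (div_nonpos_of_nonpos_of_nonneg hcon (by positivity)))
  have h4 : 0 < rad al be t0 w0 z0 μ := Real.sqrt_pos.mpr (div_pos h3 hpos)
  have h5 : rad al be t0 w0 z0 μ ^ 2 = Ff al be (μ * t0) (μ * w0) / Complex.normSq z0 :=
    Real.sq_sqrt (div_pos h3 hpos).le
  have hz0 : z0 ≠ 0 := by
    rintro rfl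
    simp at hpos
  refine ⟨?_, ?_, ?_, ?_⟩
  · show starRingEnd ℂ ((μ : ℂ) * (t0 : ℂ)) = (μ : ℂ) * (t0 : ℂ)
    rw [map_mul, Complex.conj_ofReal, Complex.conj_ofReal]
  · show starRingEnd ℂ ((μ : ℂ) * (w0 : ℂ)) = (μ : ℂ) * (w0 : ℂ)
    rw [map_mul, Complex.conj_ofReal, Complex.conj_ofReal]
  · show ((rad al be t0 w0 z0 μ : ℂ) * z0) * starRingEnd ℂ ((rad al be t0 w0 z0 μ : ℂ) * z0) =
      Ff (al : ℂ) be ((μ : ℂ) * (t0 : ℂ)) ((μ : ℂ) * (w0 : ℂ))
    rw [Complex.mul_conj, Complex.normSq_mul, Complex.normSq_ofReal, ← pow_two, h5,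
      div_mul_cancel₀ _ hpos.ne']
    have := map_Ff (Complex.ofRealHom) al be (μ * t0) (μ * w0)
    simpa using this
  · show (rad al be t0 w0 z0 μ : ℂ) * z0 ≠ 0
    exact mul_ne_zero (by exact_mod_cast h4.ne') hz0

/-- The sign of the limit. -/
lemma limit_sign {al be : ℝ} {s : KC →+* KC} (hs : IsS al be s) {G dx α α' : KC} {x q : ℝ}
    (hq : 0 < q) (hdx : s dx = dx)
    (hid : G * (cK x - tK) * dx ^ 2 = α * s α + cK q * (α' * s α'))
    {n m pd qd pa qa pa' qa' : R3} (hG : G * io m = io n)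
    (hd : dx * io qd = io pd) (ha : α * io qa = io pa) (ha' : α' * io qa' = io pa')
    {t0 w0 : ℝ} {z0 : ℂ} (ht : t0 ≠ 0) (hz : Complex.normSq z0 = t0 ^ 2 * (w0 ^ 2 + t0 ^ 2))
    (hm : MvPolynomial.eval ![(t0 : ℂ), (w0 : ℂ), z0] (topP m) ≠ 0)
    (hPi : MvPolynomial.eval ![(t0 : ℂ), (w0 : ℂ), z0] (topP (pd * qd * qa * qa')) ≠ 0) :
    ∃ r : ℝ, MvPolynomial.eval ![(t0 : ℂ), (w0 : ℂ), z0] (topP n) /
      MvPolynomial.eval ![(t0 : ℂ), (w0 : ℂ), z0] (topP m) = r ∧ r * t0 ≤ 0 := by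
  have hr := tendsto_rad al be t0 w0 z0 ht hz
  have Tn := tendsto_top t0 w0 z0 _ hr n
  have Tm := tendsto_top t0 w0 z0 _ hr m
  have TPi := tendsto_top t0 w0 z0 _ hr (pd * qd * qa * qa')
  have Tq := Tn.div Tm hm
  have key : ∀ᶠ μ : ℝ in atTop, (MvPolynomial.eval ![(μ : ℂ) * t0, (μ : ℂ) * w0,
      (rad al be t0 w0 z0 μ : ℂ) * z0] n / (μ : ℂ) ^ wdeg n /
      (MvPolynomial.eval ![(μ : ℂ) * t0, (μ : ℂ) * w0, (rad al be t0 w0 z0 μ : ℂ) * z0] m /
        (μ : ℂ) ^ wdeg m)) ∈ {c : ℂ | c.im = 0 ∧ c.re * t0 ≤ 0} := by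
    have hx : ∀ᶠ μ : ℝ in atTop, (x - μ * t0) * t0 < 0 := by
      have h1 : 0 < t0 ^ 2 := by positivity
      filter_upwards [eventually_gt_atTop (x * t0 / t0 ^ 2)] with μ hμ
      rw [div_lt_iff₀ h1] at hμ
      nlinarith
    filter_upwards [cpt_real al be t0 w0 z0 ht hz, Tm.eventually_ne hm, TPi.eventually_ne hPi,
      eventually_gt_atTop 0, hx] with μ hP h2 h3 hμ hxμ
    have hμ' : (μ : ℂ) ≠ 0 := by exact_mod_cast hμ.ne'
    set P := cpt al be t0 w0 z0 μ with hPdef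
    have hPe : (![(μ : ℂ) * t0, (μ : ℂ) * w0, (rad al be t0 w0 z0 μ : ℂ) * z0] : Fin 3 → ℂ) = P :=
      rfl
    rw [hPe] at h2 h3 ⊢
    have h4 : MvPolynomial.eval P m ≠ 0 := by
      intro h; rw [h, zero_div] at h2; exact h2 rfl
    have h5 : MvPolynomial.eval P (pd * qd * qa * qa') ≠ 0 := by
      intro h; rw [h, zero_div] at h3; exact h3 rfl
    rw [map_mul, map_mul, map_mul] at h5
    have h6 : MvPolynomial.eval P qa' ≠ 0 := fun h => h5 (by rw [h]; ring)
    have h7 : MvPolynomial.eval P qa ≠ 0 := fun h => h5 (by rw [h]; ring)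
    have h8 : MvPolynomial.eval P qd ≠ 0 := fun h => h5 (by rw [h]; ring)
    have h9 : MvPolynomial.eval P pd ≠ 0 := fun h => h5 (by rw [h]; ring)
    obtain ⟨r, hr0, hr1⟩ := sign_at hs hq hdx hid hP (Vl.of_frac h4 hG) (Vl.of_frac h8 hd)
      (div_ne_zero h9 h8) (Vl.of_frac h7 ha) (Vl.of_frac h6 ha')
    have hP0 : P 0 = ((μ * t0 : ℝ) : ℂ) := by
      show (μ : ℂ) * (t0 : ℂ) = _
      push_cast; rfl
    rw [hP0, ← Complex.ofReal_sub] at hr1
    have hxne : x - μ * t0 ≠ 0 := by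
      intro h; rw [h, zero_mul] at hxμ; exact lt_irrefl _ hxμ
    have hg : MvPolynomial.eval P n / MvPolynomial.eval P m = ((r / (x - μ * t0) : ℝ) : ℂ) := by
      rw [Complex.ofReal_div, eq_div_iff (by exact_mod_cast hxne)]
      exact hr1
    have hrw : MvPolynomial.eval P n / (μ : ℂ) ^ wdeg n / (MvPolynomial.eval P m /
        (μ : ℂ) ^ wdeg m) = ((r / (x - μ * t0) * (μ ^ wdeg m / μ ^ wdeg n) : ℝ) : ℂ) := by
      rw [Complex.ofReal_mul, ← hg]
      push_cast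
      field_simp
    rw [hrw]
    refine ⟨Complex.ofReal_im _, ?_⟩
    rw [Complex.ofReal_re]
    have h10 : 0 < μ ^ wdeg m / μ ^ wdeg n := by positivity
    have h11 : r / (x - μ * t0) * t0 ≤ 0 := by
      have h12 : r / (x - μ * t0) * t0 = r * ((x - μ * t0) * t0) / (x - μ * t0) ^ 2 := by
        field_simp
      rw [h12]
      exact div_nonpos_of_nonpos_of_nonneg (mul_nonpos_of_nonneg_of_nonpos hr0 hxμ.le) (sq_nonneg _)
    calc r / (x - μ * t0) * (μ ^ wdeg m / μ ^ wdeg n) * t0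
        = (r / (x - μ * t0) * t0) * (μ ^ wdeg m / μ ^ wdeg n) := by ring
      _ ≤ 0 := mul_nonpos_of_nonpos_of_nonneg h11 h10.le
  have hclosed : IsClosed {c : ℂ | c.im = 0 ∧ c.re * t0 ≤ 0} := by
    refine IsClosed.inter (isClosed_eq Complex.continuous_im continuous_const) ?_
    exact isClosed_le (Complex.continuous_re.mul continuous_const) continuous_const
  have hmem := hclosed.mem_of_tendsto Tq key
  refine ⟨_, ?_, hmem.2⟩
  apply Complex.ext
  · simp
  · rw [hmem.1]; simp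

end Inf

open Inf in
theorem inf : stInf := by
  intro al be s hbe hba hab hs g n m hm hG
  by_contra hodd
  rw [Nat.not_odd_iff_even] at hodd
  obtain ⟨x, q, dx, α, α', hq, hdx0, hdx, hid⟩ := real_identity hab hbe hba hs g
  have hfrac : ∀ h : KC, ∃ p q : R3, q ≠ 0 ∧ h * io q = io p := by
    intro h
    obtain ⟨⟨p, q⟩, hpq⟩ := IsLocalization.surj (nonZeroDivisors R3) h
    exact ⟨p, q, nonZeroDivisors.ne_zero q.2, hpq⟩
  have hG' : g.G * io m = io n := hG
  have hn : n ≠ 0 := by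
    rintro rfl
    rw [map_zero] at hG'
    rcases mul_eq_zero.mp hG' with h | h
    · exact g.G0 h
    · exact hm (io_inj (by rw [h, map_zero]))
  obtain ⟨pd, qd, hqd, hd⟩ := hfrac dx
  obtain ⟨pa, qa, hqa, ha⟩ := hfrac α
  obtain ⟨pa', qa', hqa', ha'⟩ := hfrac α'
  have hpd : pd ≠ 0 := by
    rintro rfl
    rw [map_zero] at hd
    rcases mul_eq_zero.mp hd with h | h
    · exact hdx0 h
    · exact hqd (io_inj (by rw [h, map_zero]))
  have hPi : pd * qd * qa * qa' ≠ 0 :=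
    mul_ne_zero (mul_ne_zero (mul_ne_zero hpd hqd) hqa) hqa'
  obtain ⟨t0, w0, z0, ht0, hz, hne⟩ := exists_dir (topP n * topP m * topP (pd * qd * qa * qa'))
    (mul_ne_zero (mul_ne_zero (topP_ne hn) (topP_ne hm)) (topP_ne hPi))
  rw [map_mul, map_mul] at hne
  have h1 : MvPolynomial.eval ![(t0 : ℂ), (w0 : ℂ), z0] (topP n) ≠ 0 :=
    fun h => hne (by rw [h]; ring)
  have h2 : MvPolynomial.eval ![(t0 : ℂ), (w0 : ℂ), z0] (topP m) ≠ 0 :=
    fun h => hne (by rw [h]; ring)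
  have h3 : MvPolynomial.eval ![(t0 : ℂ), (w0 : ℂ), z0] (topP (pd * qd * qa * qa')) ≠ 0 :=
    fun h => hne (by rw [h]; ring)
  have hneg : ∀ p : R3, MvPolynomial.eval ![((-t0 : ℝ) : ℂ), ((-w0 : ℝ) : ℂ), z0] (topP p) =
      (-1) ^ wdeg p * MvPolynomial.eval ![(t0 : ℂ), (w0 : ℂ), z0] (topP p) := by
    intro p
    rw [Complex.ofReal_neg, Complex.ofReal_neg]
    exact topP_neg _ _ _ _
  obtain ⟨r, hr1, hr2⟩ := limit_sign hs hq hdx hid hG' hd ha ha' ht0.ne' hz h2 h3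
  obtain ⟨r', hr1', hr2'⟩ := limit_sign (t0 := -t0) (w0 := -w0) (z0 := z0) hs hq hdx hid hG' hd ha
    ha' (neg_ne_zero.mpr ht0.ne') (by rw [hz]; ring)
    (by rw [hneg]; exact mul_ne_zero (pow_ne_zero _ (by norm_num)) h2)
    (by rw [hneg]; exact mul_ne_zero (pow_ne_zero _ (by norm_num)) h3)
  rw [hneg, hneg] at hr1'
  have h4 : (-1 : ℂ) ^ wdeg n = (-1) ^ wdeg m := by
    rcases Nat.even_or_odd (wdeg m) with h5 | h5
    · have h6 : Even (wdeg n) := by
        rw [Nat.even_add] at hodd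
        exact hodd.mpr h5
      rw [h5.neg_one_pow, h6.neg_one_pow]
    · have h6 : Odd (wdeg n) := by
        rw [Nat.even_add] at hodd
        rw [← Nat.not_even_iff_odd] at h5 ⊢
        exact fun h => h5 (hodd.mp h)
      rw [h5.neg_one_pow, h6.neg_one_pow]
  rw [h4, mul_div_mul_left _ _ (pow_ne_zero _ (by norm_num)), hr1] at hr1'
  have h5 : r = r' := by exact_mod_cast hr1'
  rw [← h5] at hr2'
  have h6 : r * t0 = 0 := by nlinarith
  have h7 : r = 0 := by
    rcases mul_eq_zero.mp h6 with h | h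
    · exact h
    · exact absurd h ht0.ne'
  rw [h7, Complex.ofReal_zero] at hr1
  exact div_ne_zero h1 h2 hr1

end MP_d2f638_ag.Stab
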