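import Pool.Agent.Lib.MP_d2f638_ag.Stab.StmtsA

/-!
# A1. The norm principle for the quaternion norm form
-/

namespace MP_d2f638_ag.Stab

open Polynomial

namespace NPAux

section Basic

variable {A : Type} [CommRing A]

/-- The product of quaternions. -/
def qmul (q : A) (a b : Fin 4 → A) : Fin 4 → A :=
  ![a 0 * b 0 - a 1 * b 1 + q * a 2 * b 2 + q * a 3 * b 3,
    a 0 * b 1 + a 1 * b 0 - q * a 2 * b 3 + q * a 3 * b 2,
    a 0 * b 2 + a 2 * b 0 - a 1 * b 3 + a 3 * b 1,
    a 0 * b 3 + a 3 * b 0 + a 1 * b 2 - a 2 * b 1]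

lemma nf_qmul (q : A) (a b : Fin 4 → A) : nf q (qmul q a b) = nf q a * nf q b := by
  simp only [nf, qmul, Matrix.cons_val_zero, Matrix.cons_val_one, Matrix.cons_val]
  ring

lemma nf_smul (q c : A) (a : Fin 4 → A) : nf q (fun j => c * a j) = c ^ 2 * nf q a := by
  simp only [nf]
  ring

lemma map_nf {B : Type} [CommRing B] (g : A →+* B) (q : A) (v : Fin 4 → A) :
    g (nf q v) = nf (g q) (fun j => g (v j)) := by
  simp [nf]

lemma nf_sub_dvd (q θ : A) (u v : Fin 4 → A) (h : ∀ j, θ ∣ u j - v j) :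
    θ ∣ nf q u - nf q v := by
  have h1 : nf q u - nf q v = (u 0 - v 0) * (u 0 + v 0) + (u 1 - v 1) * (u 1 + v 1) -
      q * ((u 2 - v 2) * (u 2 + v 2) + (u 3 - v 3) * (u 3 + v 3)) := by
    simp only [nf]
    ring
  rw [h1]
  exact dvd_sub (dvd_add ((h 0).mul_right _) ((h 1).mul_right _))
    ((dvd_add ((h 2).mul_right _) ((h 3).mul_right _)).mul_left _)

end Basic

section Field

variable {M : Type} [Field M] {q : M}

/-- The values of the norm form. -/
def IsNf (q a : M) : Prop := ∃ v : Fin 4 → M, a = nf q v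

lemma IsNf.mul {a b : M} (ha : IsNf q a) (hb : IsNf q b) : IsNf q (a * b) := by
  obtain ⟨v, rfl⟩ := ha
  obtain ⟨w, rfl⟩ := hb
  exact ⟨qmul q v w, (nf_qmul q v w).symm⟩

lemma IsNf.sq (c : M) : IsNf q (c ^ 2) := ⟨![c, 0, 0, 0], by simp [nf]⟩

lemma IsNf.of_mul {a b : M} (hb : IsNf q b) (hb0 : b ≠ 0) (h : IsNf q (a * b)) : IsNf q a := by
  have h1 : a = (a * b) * (b * (b⁻¹) ^ 2) := by
    field_simp
  rw [h1]
  exact h.mul (hb.mul (IsNf.sq _))

lemma anis_poly (hq : Anis q) (v : Fin 4 → M[X]) (h : nf (C q) v = 0) : v = 0 := by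
  set d : ℕ := Finset.univ.sup (fun j => (v j).natDegree) with hd
  have h1 : ∀ j, (v j).natDegree ≤ d := fun j =>
    Finset.le_sup (f := fun j => (v j).natDegree) (Finset.mem_univ j)
  have h2 : ∀ j, ((v j) ^ 2).coeff (2 * d) = (v j).coeff d ^ 2 := fun j =>
    coeff_pow_of_natDegree_le (h1 j)
  have h3 : nf q (fun j => (v j).coeff d) = 0 := by
    have h4 : (nf (C q) v).coeff (2 * d) = 0 := by rw [h, coeff_zero]
    simp only [nf, coeff_sub, coeff_add, coeff_C_mul, h2] at h4
    exact h4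
  have h5 := hq _ h3
  have h6 : ∀ j, (v j).coeff d = 0 := fun j => congrFun h5 j
  obtain ⟨j0, _, hj0⟩ := Finset.exists_mem_eq_sup Finset.univ Finset.univ_nonempty
    (fun j => (v j).natDegree)
  have h7 : (v j0).natDegree = d := hj0.symm
  have h8 : v j0 = 0 := by
    have h9 := h6 j0
    rw [← h7] at h9
    exact leadingCoeff_eq_zero.mp h9
  have h10 : d = 0 := by rw [← h7, h8, natDegree_zero]
  funext j
  have h11 : (v j).natDegree = 0 := by
    have := h1 j
    omega
  rw [eq_C_of_natDegree_eq_zero h11]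
  have h12 := h6 j
  rw [h10] at h12
  rw [h12, C_0]
  rfl

lemma natDegree_nf_le (v : Fin 4 → M[X]) (n : ℕ) (h : ∀ j, (v j).natDegree ≤ n) :
    (nf (C q) v).natDegree ≤ 2 * n := by
  unfold nf
  have h1 : ∀ j, ((v j) ^ 2).natDegree ≤ 2 * n := fun j => natDegree_pow_le_of_le 2 (h j)
  refine natDegree_sub_le_of_le (natDegree_add_le_of_degree_le (h1 0) (h1 1)) ?_
    |>.trans (max_self _).le
  exact (natDegree_C_mul_le _ _).trans (natDegree_add_le_of_degree_le (h1 2) (h1 3))

/-- Removing the common factor of the coordinates. -/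
lemma exists_coprime (u : Fin 4 → M[X]) (hu : u ≠ 0) : ∃ (g : M[X]) (v r : Fin 4 → M[X]),
    g ≠ 0 ∧ (∀ j, u j = g * v j) ∧ ∑ j, r j * v j = 1 := by
  set I : Ideal M[X] := Ideal.span (Set.range u) with hI
  set g := Submodule.IsPrincipal.generator I with hg
  have h1 : ∀ j, g ∣ u j := fun j => (Submodule.IsPrincipal.mem_iff_generator_dvd I).mp
    (Ideal.subset_span ⟨j, rfl⟩)
  choose v hv using h1
  have h2 : g ∈ I := Submodule.IsPrincipal.generator_mem I
  obtain ⟨r, hr⟩ := Ideal.mem_span_range_iff_exists_fun.mp h2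
  have hg0 : g ≠ 0 := by
    intro h0
    apply hu
    funext j
    rw [hv j, h0, zero_mul]
    rfl
  refine ⟨g, v, r, hg0, hv, ?_⟩
  apply mul_left_cancel₀ hg0
  rw [mul_one, Finset.mul_sum]
  conv_rhs => rw [← hr]
  refine Finset.sum_congr rfl fun j _ => ?_
  rw [hv j]
  ring

/-- The induction step for an irreducible polynomial. -/
lemma step (hq : Anis q) (θ : M[X]) (hθ : Irreducible θ) (e1 e2 : M)
    (ih : ∀ h : M[X], h.natDegree < θ.natDegree → h.eval e1 ≠ 0 → h.eval e2 ≠ 0 →
      (∀ θ' : M[X], Irreducible θ' → θ' ∣ h →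
        ∃ u : Fin 4 → M[X], (∃ j, ¬ θ' ∣ u j) ∧ θ' ∣ nf (C q) u) →
      IsNf q (h.eval e1 * h.eval e2))
    (u : Fin 4 → M[X]) (hu : ∃ j, ¬ θ ∣ u j) (hd : θ ∣ nf (C q) u) :
    IsNf q (θ.eval e1 * θ.eval e2) := by
  have hθ0 : θ ≠ 0 := hθ.ne_zero
  have hpos : 0 < θ.natDegree := hθ.natDegree_pos
  set u' : Fin 4 → M[X] := fun j => u j % θ with hu'
  have h1 : ∀ j, θ ∣ u' j - u j := by
    intro j
    refine ⟨-(u j / θ), ?_⟩
    have h2 := EuclideanDomain.div_add_mod (u j) θ
    simp only [hu']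
    linear_combination h2
  have h3 : θ ∣ nf (C q) u' := by
    have h4 := nf_sub_dvd (C q) θ u' u h1
    have h5 := dvd_add h4 hd
    rwa [sub_add_cancel] at h5
  have hu'0 : u' ≠ 0 := by
    intro h0
    obtain ⟨j, hj⟩ := hu
    apply hj
    have h4 := h1 j
    rw [h0, Pi.zero_apply, zero_sub] at h4
    exact (dvd_neg.mp h4)
  have hdeg : ∀ j, (u' j).natDegree < θ.natDegree := by
    intro j
    by_cases h0 : u' j = 0
    · rw [h0, natDegree_zero]
      exact hpos
    · exact natDegree_lt_natDegree h0 (EuclideanDomain.mod_lt (u j) hθ0)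
  obtain ⟨g, v, r, hg0, hv, hr⟩ := exists_coprime u' hu'0
  have hvdeg : ∀ j, (v j).natDegree ≤ θ.natDegree - 1 := by
    intro j
    by_cases h0 : v j = 0
    · rw [h0, natDegree_zero]
      exact Nat.zero_le _
    · have h4 := hdeg j
      rw [hv j, natDegree_mul hg0 h0] at h4
      omega
  have hv0 : v ≠ 0 := by
    intro h0
    apply hu'0
    funext j
    rw [hv j, h0]
    simp
  have hgθ : ¬ θ ∣ g := by
    intro hdvd
    obtain ⟨j, hj⟩ := Function.ne_iff.mp hu'0
    rw [Pi.zero_apply] at hj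
    have h4 : θ ∣ u' j := by
      rw [hv j]
      exact hdvd.mul_right _
    have h5 := natDegree_le_of_dvd h4 hj
    have h6 := hdeg j
    omega
  have hnf : nf (C q) u' = g ^ 2 * nf (C q) v := by
    rw [← nf_smul]
    congr 1
    funext j
    exact hv j
  have hθv : θ ∣ nf (C q) v := by
    rw [hnf] at h3
    rcases hθ.prime.dvd_or_dvd h3 with h4 | h4
    · exact absurd (hθ.prime.dvd_of_dvd_pow h4) hgθ
    · exact h4
  have hnv : nf (C q) v ≠ 0 := fun h0 => hv0 (anis_poly hq v h0)
  obtain ⟨h, hh⟩ := hθv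
  have hh0 : h ≠ 0 := by
    intro h0
    rw [h0, mul_zero] at hh
    exact hnv hh
  have hhdeg : h.natDegree < θ.natDegree := by
    have h4 := natDegree_nf_le (q := q) v _ hvdeg
    rw [hh, natDegree_mul hθ0 hh0] at h4
    omega
  have hev : ∀ e : M, θ.eval e * h.eval e = nf q (fun j => (v j).eval e) := by
    intro e
    have h4 := map_nf (evalRingHom e) (C q) v
    rw [hh] at h4
    simpa using h4
  have hne : ∀ e : M, h.eval e ≠ 0 := by
    intro e h0
    have h4 := hev e
    rw [h0, mul_zero] at h4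
    have h5 := hq _ h4.symm
    have h6 := congrArg (Polynomial.eval e) hr
    rw [eval_finsetSum, eval_one] at h6
    have h7 : ∀ j, (v j).eval e = 0 := fun j => congrFun h5 j
    simp only [eval_mul, h7, mul_zero, Finset.sum_const_zero] at h6
    exact zero_ne_one h6
  have hih := ih h hhdeg (hne e1) (hne e2) (by
    intro θ' hθ' hdvd
    refine ⟨v, ?_, hdvd.trans ⟨θ, by rw [hh]; ring⟩⟩
    by_contra hcon
    push Not at hcon
    apply hθ'.not_isUnit
    rw [isUnit_iff_dvd_one, ← hr]
    exact Finset.dvd_sum fun j _ => (hcon j).mul_left _)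
  refine IsNf.of_mul hih (mul_ne_zero (hne e1) (hne e2)) ?_
  have h8 : θ.eval e1 * θ.eval e2 * (h.eval e1 * h.eval e2) =
      (θ.eval e1 * h.eval e1) * (θ.eval e2 * h.eval e2) := by ring
  rw [h8, hev e1, hev e2]
  exact IsNf.mul ⟨_, rfl⟩ ⟨_, rfl⟩

lemma main (hq : Anis q) (e1 e2 : M) : ∀ (n : ℕ) (f : M[X]), f.natDegree ≤ n →
    f.eval e1 ≠ 0 → f.eval e2 ≠ 0 →
    (∀ θ : M[X], Irreducible θ → θ ∣ f →
      ∃ u : Fin 4 → M[X], (∃ j, ¬ θ ∣ u j) ∧ θ ∣ nf (C q) u) →
    IsNf q (f.eval e1 * f.eval e2) := by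
  intro n
  induction n with
  | zero =>
    intro f hf _ _ _
    rw [eq_C_of_natDegree_le_zero hf, eval_C, eval_C, ← pow_two]
    exact IsNf.sq _
  | succ n ih =>
    intro f hf h1 h2 h3
    have hf0 : f ≠ 0 := by
      intro h0
      rw [h0, eval_zero] at h1
      exact h1 rfl
    by_cases hirr : Irreducible f
    · obtain ⟨u, hu, hd⟩ := h3 f hirr dvd_rfl
      exact step hq f hirr e1 e2 (fun h hh => ih h (by omega)) u hu hd
    · by_cases hunit : IsUnit f
      · exact ih f (by rw [natDegree_eq_zero_of_isUnit hunit]; exact Nat.zero_le _) h1 h2 h3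
      · rw [irreducible_iff, not_and_or] at hirr
        rcases hirr with hirr | hirr
        · exact absurd hunit hirr
        · push Not at hirr
          obtain ⟨a, b, hab, ha, hb⟩ := hirr
          have ha0 : a ≠ 0 := by
            rintro rfl
            rw [zero_mul] at hab
            exact hf0 hab
          have hb0 : b ≠ 0 := by
            rintro rfl
            rw [mul_zero] at hab
            exact hf0 hab
          have hda : 0 < a.natDegree := by
            rw [Nat.pos_iff_ne_zero]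
            intro h0
            apply ha
            rw [eq_C_of_natDegree_eq_zero h0]
            rw [eq_C_of_natDegree_eq_zero h0] at ha0
            exact isUnit_C.mpr (isUnit_iff_ne_zero.mpr (fun h => ha0 (by rw [h, C_0])))
          have hdb : 0 < b.natDegree := by
            rw [Nat.pos_iff_ne_zero]
            intro h0
            apply hb
            rw [eq_C_of_natDegree_eq_zero h0]
            rw [eq_C_of_natDegree_eq_zero h0] at hb0
            exact isUnit_C.mpr (isUnit_iff_ne_zero.mpr (fun h => hb0 (by rw [h, C_0])))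
          have hdeg : f.natDegree = a.natDegree + b.natDegree := by
            rw [hab, natDegree_mul ha0 hb0]
          rw [hab, eval_mul] at h1 h2
          have ia := ih a (by omega) (left_ne_zero_of_mul h1) (left_ne_zero_of_mul h2)
            (fun θ hθ hd => h3 θ hθ (hab ▸ hd.mul_right b))
          have ib := ih b (by omega) (right_ne_zero_of_mul h1) (right_ne_zero_of_mul h2)
            (fun θ hθ hd => h3 θ hθ (hab ▸ hd.mul_left a))
          rw [hab, eval_mul, eval_mul]
          have h4 : a.eval e1 * b.eval e1 * (a.eval e2 * b.eval e2) =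
              (a.eval e1 * a.eval e2) * (b.eval e1 * b.eval e2) := by ring
          rw [h4]
          exact ia.mul ib

end Field

end NPAux

/-- A1. The norm principle. -/
theorem NP : stNP := by
  intro M _ q hq f e1 e2 h1 h2 h3
  exact NPAux.main hq e1 e2 f.natDegree f le_rfl h1 h2 h3

end MP_d2f638_ag.Stab
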