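import Pool.Agent.Lib.MP_d2f638_ag.Stab.WF

/-!
# Residue of the norm equation along the surface
-/

namespace MP_d2f638_ag.Stab

open Polynomial

namespace Res

/-- The polynomial ring. -/
abbrev A3 : Type := MvPolynomial (Fin 3) ℂ

/-- The embedding in the function field. -/
noncomputable abbrev io : A3 →+* KC := algebraMap A3 KC

lemma io_inj : Function.Injective io := IsFractionRing.injective A3 KC

/-- `p ↦ p^c(t, w, F/z)`. -/
noncomputable def cjm {M : Type} [Field M] (al be : ℝ) (θ : A3 →+* M) : A3 →+* M :=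
  MvPolynomial.eval₂Hom ((θ.comp MvPolynomial.C).comp (starRingEnd ℂ))
    ![θ (MvPolynomial.X 0), θ (MvPolynomial.X 1), θ (FP (al : ℂ) be) / θ (MvPolynomial.X 2)]

lemma pstar_spec {M : Type} [Field M] (al be : ℝ) (θ : A3 →+* M)
    (hz : θ (MvPolynomial.X 2) ≠ 0) (p : A3) (d : ℕ) (hd : p.degreeOf 2 ≤ d) :
    θ (pstar (starRingEnd ℂ) (al : ℂ) be d p) = cjm al be θ p * θ (MvPolynomial.X 2) ^ d := by
  unfold pstar cjm
  rw [MvPolynomial.coe_eval₂Hom, MvPolynomial.eval₂_eq', map_sum, Finset.sum_mul]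
  refine Finset.sum_congr rfl fun e he => ?_
  have he2 : e 2 ≤ d := (MvPolynomial.degreeOf_le_iff.1 hd) e he
  have hz2 : θ (MvPolynomial.X 2) ^ d = θ (MvPolynomial.X 2) ^ (e 2) *
      θ (MvPolynomial.X 2) ^ (d - e 2) := by rw [← pow_add, Nat.add_sub_cancel' he2]
  rw [Fin.prod_univ_three, hz2]
  simp only [map_mul, map_pow, RingHom.comp_apply, Matrix.cons_val_zero, Matrix.cons_val_one,
    Matrix.cons_val, div_pow]
  have hzz := pow_ne_zero (e 2) hz
  field_simp

section S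

variable {al be : ℝ} {s : KC →+* KC}

lemma zK_ne : zK ≠ 0 := by
  unfold zK
  intro h
  rw [← map_zero (algebraMap A3 KC)] at h
  exact MvPolynomial.X_ne_zero 2 (io_inj h)

lemma io_FP : io (FP (al : ℂ) be) = Ff (cK al) (cK be) tK wK := by
  unfold FP
  rw [map_Ff]
  rfl

lemma FP_ne (a b : ℂ) : FP a b ≠ 0 := by
  intro h
  have := wdeg_FP a b
  rw [h] at this
  unfold wdeg at this
  rw [MvPolynomial.weightedTotalDegree_zero] at this
  simp at this

lemma F_ne : Ff (cK al) (cK be) tK wK ≠ 0 := by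
  rw [← io_FP, ← map_zero io]
  exact fun h => FP_ne _ _ (io_inj h)

lemma s_io (hs : IsS al be s) (p : A3) : s (io p) = cjm al be io p := by
  have h : s.comp io = cjm al be io := by
    apply MvPolynomial.ringHom_ext
    · intro c
      simp only [RingHom.comp_apply, cjm, MvPolynomial.coe_eval₂Hom, MvPolynomial.eval₂_C]
      exact hs.const c
    · intro i
      simp only [RingHom.comp_apply, cjm, MvPolynomial.coe_eval₂Hom, MvPolynomial.eval₂_X]
      fin_cases i
      · exact hs.t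
      · exact hs.w
      · show s zK = io (FP (al : ℂ) be) / zK
        rw [hs.z, io_FP]
  exact congrFun (congrArg DFunLike.coe h) p

lemma s_s (hs : IsS al be s) (x : KC) : s (s x) = x := by
  have h : (s.comp s).comp io = io := by
    apply MvPolynomial.ringHom_ext
    · intro c
      show s (s (cK c)) = cK c
      rw [hs.const, hs.const]; simp
    · intro i
      simp only [RingHom.comp_apply]
      fin_cases i
      · show s (s tK) = tK
        rw [hs.t, hs.t]
      · show s (s wK) = wK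
        rw [hs.w, hs.w]
      · show s (s zK) = zK
        rw [hs.z, map_div₀, map_Ff, hs.const, hs.const, hs.t, hs.w, hs.z]
        have h1 := F_ne (al := al) (be := be)
        have h2 := zK_ne
        simp only [Complex.conj_ofReal]
        field_simp
  obtain ⟨p, q, hq, rfl⟩ := IsFractionRing.div_surjective (A := A3) x
  have e1 := congrFun (congrArg DFunLike.coe h) p
  have e2 := congrFun (congrArg DFunLike.coe h) q
  simp only [RingHom.comp_apply] at e1 e2
  rw [map_div₀, map_div₀, e1, e2]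

end S

/-- the assumptions on the surface -/
structure Hyp (al be : ℝ) (s : KC →+* KC) (π : A3) : Prop where
  be0 : 0 < be
  albe : be < al
  rel : be ^ 2 = al ^ 2 - 1
  hs : IsS al be s
  irr : Irreducible π
  odd : Odd (wdeg π)
  dvd : π ∣ pstar (starRingEnd ℂ) (al : ℂ) be (π.degreeOf 2) π

variable {al be : ℝ} {s : KC →+* KC} {π : A3} (H : Hyp al be s π)

include H

lemma Hyp.prime : Prime π := H.irr.prime

lemma Hyp.ne0 : π ≠ 0 := H.irr.ne_zero

lemma Hyp.not_assoc {p : A3} (hp : Irreducible p) (he : Even (wdeg p)) : ¬ π ∣ p := by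
  intro h
  have h1 : Associated π p := H.irr.associated_of_dvd hp h
  obtain ⟨u, hu⟩ := h1
  obtain ⟨c, hc, hc2⟩ := (MvPolynomial.isUnit_iff_eq_C_of_isReduced).1 u.isUnit
  have hc0 : c ≠ 0 := hc.ne_zero
  have h2 : wdeg p = wdeg π := by
    rw [← hu, hc2, wdeg_mul _ _ H.ne0 (by rw [Ne, MvPolynomial.C_eq_zero]; exact hc0),
      wdeg_C _ hc0, add_zero]
  rw [h2] at he
  exact (Nat.not_even_iff_odd.2 H.odd) he

lemma Hyp.ndz : ¬ π ∣ MvPolynomial.X 2 := by
  apply H.not_assoc (MvPolynomial.X_prime (R := ℂ) (σ := Fin 3) (i := 2)).irreducible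
  rw [wdeg_X]
  decide

lemma Hyp.ndF : ¬ π ∣ FP (al : ℂ) be := by
  apply H.not_assoc
  · have h0 := H.be0
    have h1 := H.albe
    have h2 := H.rel
    have hal : 0 < al := h0.trans h1
    apply irreducible_FP
    · rw [← Complex.ofReal_pow, h2]; push_cast; ring
    · exact pow_ne_zero _ (by exact_mod_cast hal.ne')
    · intro h
      have h3 : al ^ 4 = 1 := by exact_mod_cast h
      have h4 : al ^ 2 = be ^ 2 + 1 := by linarith
      have h5 : 0 < be ^ 2 := by positivity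
      nlinarith
  · rw [wdeg_FP]; decide

lemma Hyp.ndpstar {p : A3} (hp : ¬ π ∣ p) {d : ℕ} (hd : p.degreeOf 2 ≤ d) :
    ¬ π ∣ pstar (starRingEnd ℂ) (al : ℂ) be d p := by
  rintro ⟨h, hh⟩
  obtain ⟨k, hk⟩ := H.dvd
  have e1 := pstar_spec al be io zK_ne p d hd
  rw [← s_io H.hs, hh, map_mul] at e1
  have e2 := pstar_spec al be io zK_ne π _ le_rfl
  rw [← s_io H.hs, hk, map_mul] at e2
  have e3 := pstar_spec al be io zK_ne h _ le_rfl
  rw [← s_io H.hs] at e3
  have e4 := congrArg s e1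
  rw [map_mul, map_mul, s_s H.hs, map_pow] at e4
  have hz : s (io (MvPolynomial.X 2)) = io (FP (al : ℂ) be) / io (MvPolynomial.X 2) := by
    rw [io_FP]; exact H.hs.z
  rw [hz] at e4
  have hz0 : io (MvPolynomial.X 2) ≠ 0 := zK_ne
  set dp := π.degreeOf 2
  set dh := h.degreeOf 2
  have key : io (p * FP (al : ℂ) be ^ d * MvPolynomial.X 2 ^ (dp + dh)) =
      io (π * (k * pstar (starRingEnd ℂ) (al : ℂ) be dh h * MvPolynomial.X 2 ^ d)) := by
    simp only [map_mul, map_pow]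
    rw [e3]
    have e5 : io p * io (FP (al : ℂ) be) ^ d = s (io π) * s (io h) * io (MvPolynomial.X 2) ^ d := by
      rw [e4, div_pow]
      field_simp
    rw [e5, pow_add]
    calc s (io π) * s (io h) * io (MvPolynomial.X 2) ^ d *
          (io (MvPolynomial.X 2) ^ dp * io (MvPolynomial.X 2) ^ dh)
        = (s (io π) * io (MvPolynomial.X 2) ^ dp) *
          (s (io h) * io (MvPolynomial.X 2) ^ dh) * io (MvPolynomial.X 2) ^ d := by ring
      _ = _ := by rw [← e2]; ring
  have h2 := io_inj key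
  have h3 : π ∣ p * FP (al : ℂ) be ^ d * MvPolynomial.X 2 ^ (dp + dh) := ⟨_, h2⟩
  rcases H.prime.dvd_or_dvd h3 with h4 | h4
  · rcases H.prime.dvd_or_dvd h4 with h5 | h5
    · exact hp h5
    · exact H.ndF (H.prime.dvd_of_dvd_pow h5)
  · exact H.ndz (H.prime.dvd_of_dvd_pow h4)


/-- The residue field with its real structure. -/
theorem exists_residue : ∃ (κ : Type) (_ : Field κ) (φ : A3 →+* κ) (sW : κ →+* κ),
    (∀ q, φ q = 0 ↔ π ∣ q) ∧ (∀ r : κ, ∃ p q, φ q ≠ 0 ∧ r * φ q = φ p) ∧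
    ∀ p, sW (φ p) = cjm al be φ p := by
  have hP : (Ideal.span {π}).IsPrime := (Ideal.span_singleton_prime H.ne0).2 H.prime
  have : IsDomain (A3 ⧸ Ideal.span {π}) := Ideal.Quotient.isDomain _
  set κ := FractionRing (A3 ⧸ Ideal.span {π}) with hκ
  set φ : A3 →+* κ := (algebraMap (A3 ⧸ Ideal.span {π}) κ).comp (Ideal.Quotient.mk _) with hφ
  have h1 : ∀ q, φ q = 0 ↔ π ∣ q := by
    intro q
    rw [hφ, RingHom.comp_apply, map_eq_zero_iff _ (IsFractionRing.injective _ _),
      Ideal.Quotient.eq_zero_iff_mem, Ideal.mem_span_singleton]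
  have hz : φ (MvPolynomial.X 2) ≠ 0 := fun h => H.ndz ((h1 _).1 h)
  have h2 : ∀ p, cjm al be φ p = 0 ↔ π ∣ p := by
    intro p
    have e := pstar_spec al be φ hz p _ le_rfl
    constructor
    · intro h
      rw [h, zero_mul, h1] at e
      by_contra hp
      exact H.ndpstar hp le_rfl e
    · rintro ⟨q, rfl⟩
      have e2 := pstar_spec al be φ hz π _ le_rfl
      rw [(h1 _).2 H.dvd] at e2
      have e3 : cjm al be φ π = 0 := by
        rcases mul_eq_zero.1 e2.symm with h | h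
        · exact h
        · exact absurd h (pow_ne_zero _ hz)
      rw [map_mul, e3, zero_mul]
  have h3 : ∀ p ∈ Ideal.span {π}, cjm al be φ p = 0 := fun p hp =>
    (h2 p).2 (Ideal.mem_span_singleton.1 hp)
  set g : (A3 ⧸ Ideal.span {π}) →+* κ := Ideal.Quotient.lift _ (cjm al be φ) h3 with hg
  have hgi : Function.Injective g := by
    rw [injective_iff_map_eq_zero]
    intro x hx
    obtain ⟨p, rfl⟩ := Ideal.Quotient.mk_surjective x
    rw [hg, Ideal.Quotient.lift_mk, h2] at hx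
    exact Ideal.Quotient.eq_zero_iff_mem.2 (Ideal.mem_span_singleton.2 hx)
  refine ⟨κ, inferInstance, φ, IsFractionRing.lift hgi, h1, ?_, ?_⟩
  · intro r
    obtain ⟨x, y, hy, hxy⟩ := IsFractionRing.div_surjective (A := A3 ⧸ Ideal.span {π}) r
    obtain ⟨p, rfl⟩ := Ideal.Quotient.mk_surjective x
    obtain ⟨q, rfl⟩ := Ideal.Quotient.mk_surjective y
    have hq : φ q ≠ 0 := by
      rw [Ne, h1, ← Ideal.mem_span_singleton, ← Ideal.Quotient.eq_zero_iff_mem]
      exact nonZeroDivisors.ne_zero hy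
    refine ⟨p, q, hq, ?_⟩
    rw [← hxy]
    exact div_mul_cancel₀ _ hq
  · intro p
    rw [hφ, RingHom.comp_apply, IsFractionRing.lift_algebraMap, hg, Ideal.Quotient.lift_mk]

/-- The local ring of the surface. -/
def OO : Subring KC where
  carrier := {x | ∃ p q : A3, ¬ π ∣ q ∧ x * io q = io p}
  mul_mem' := by
    rintro x y ⟨p, q, hq, h⟩ ⟨p', q', hq', h'⟩
    refine ⟨p * p', q * q', fun h2 => (H.prime.dvd_or_dvd h2).elim hq hq', ?_⟩
    rw [map_mul, map_mul, ← h, ← h']; ring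
  one_mem' := ⟨1, 1, fun h => H.irr.not_isUnit (isUnit_of_dvd_one h), by simp⟩
  add_mem' := by
    rintro x y ⟨p, q, hq, h⟩ ⟨p', q', hq', h'⟩
    refine ⟨p * q' + p' * q, q * q', fun h2 => (H.prime.dvd_or_dvd h2).elim hq hq', ?_⟩
    simp only [map_mul, map_add]
    rw [← h, ← h']; ring
  zero_mem' := ⟨0, 1, fun h => H.irr.not_isUnit (isUnit_of_dvd_one h), by simp⟩
  neg_mem' := by
    rintro x ⟨p, q, hq, h⟩
    exact ⟨-p, q, hq, by rw [map_neg, ← h]; ring⟩

lemma io_mem (p : A3) : io p ∈ OO H :=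
  ⟨p, 1, fun h => H.irr.not_isUnit (isUnit_of_dvd_one h), by simp⟩

omit H

section Residue

variable (H : Hyp al be s π) {κ : Type} [Field κ] {φ : A3 →+* κ} (hφ : ∀ q, φ q = 0 ↔ π ∣ q)

include hφ in
lemma wd {x : KC} {p q p' q' : A3} (hq : ¬ π ∣ q) (h : x * io q = io p) (hq' : ¬ π ∣ q')
    (h' : x * io q' = io p') : φ p / φ q = φ p' / φ q' := by
  have e : io (p * q') = io (p' * q) := by
    rw [map_mul, map_mul, ← h, ← h']; ring
  have e2 := congrArg φ (io_inj e)
  rw [map_mul, map_mul] at e2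
  rw [div_eq_div_iff (fun h => hq ((hφ _).1 h)) (fun h => hq' ((hφ _).1 h))]
  exact e2

/-- The residue. -/
noncomputable def rsf (φ : A3 →+* κ) (x : OO H) : κ :=
  φ x.2.choose / φ x.2.choose_spec.choose

include hφ in
lemma rsf_eq (x : OO H) {p q : A3} (hq : ¬ π ∣ q) (h : (x : KC) * io q = io p) :
    rsf H φ x = φ p / φ q := by
  have h2 := x.2.choose_spec.choose_spec
  exact wd hφ h2.1 h2.2 hq h

/-- The residue homomorphism. -/
noncomputable def rs : OO H →+* κ where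
  toFun := rsf H φ
  map_one' := by
    have h1 : ¬ π ∣ (1 : A3) := fun h => H.irr.not_isUnit (isUnit_of_dvd_one h)
    rw [rsf_eq H hφ 1 h1 (p := 1) (by simp)]
    simp
  map_zero' := by
    have h1 : ¬ π ∣ (1 : A3) := fun h => H.irr.not_isUnit (isUnit_of_dvd_one h)
    rw [rsf_eq H hφ 0 h1 (p := 0) (by simp)]
    simp
  map_mul' := by
    intro x y
    obtain ⟨p, q, hq, h⟩ := x.2
    obtain ⟨p', q', hq', h'⟩ := y.2
    rw [rsf_eq H hφ x hq h, rsf_eq H hφ y hq' h',
      rsf_eq H hφ (x * y) (p := p * p') (q := q * q')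
        (fun h2 => (H.prime.dvd_or_dvd h2).elim hq hq') (by
          rw [map_mul, map_mul, ← h, ← h']; push_cast; ring)]
    rw [map_mul, map_mul, mul_div_mul_comm]
  map_add' := by
    intro x y
    obtain ⟨p, q, hq, h⟩ := x.2
    obtain ⟨p', q', hq', h'⟩ := y.2
    have h1 : φ q ≠ 0 := fun h => hq ((hφ _).1 h)
    have h2 : φ q' ≠ 0 := fun h => hq' ((hφ _).1 h)
    rw [rsf_eq H hφ x hq h, rsf_eq H hφ y hq' h',
      rsf_eq H hφ (x + y) (p := p * q' + p' * q) (q := q * q')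
        (fun h2 => (H.prime.dvd_or_dvd h2).elim hq hq') (by
          simp only [map_mul, map_add]
          rw [← h, ← h']; push_cast; ring)]
    simp only [map_mul, map_add]
    field_simp

lemma rs_eq (x : OO H) {p q : A3} (hq : ¬ π ∣ q) (h : (x : KC) * io q = io p) :
    rs H hφ x = φ p / φ q := rsf_eq H hφ x hq h

lemma rs_io (p : A3) : rs H hφ ⟨io p, io_mem H p⟩ = φ p := by
  rw [rs_eq H hφ _ (fun h => H.irr.not_isUnit (isUnit_of_dvd_one h)) (q := 1) (p := p)
    (by simp)]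
  simp

include H in
/-- stability of the local ring -/
lemma s_mem {x : KC} {p q : A3} (hq : ¬ π ∣ q) (h : x * io q = io p) :
    ∃ d, p.degreeOf 2 ≤ d ∧ q.degreeOf 2 ≤ d ∧
      ¬ π ∣ pstar (starRingEnd ℂ) (al : ℂ) be d q ∧
      s x * io (pstar (starRingEnd ℂ) (al : ℂ) be d q) =
        io (pstar (starRingEnd ℂ) (al : ℂ) be d p) := by
  refine ⟨max (p.degreeOf 2) (q.degreeOf 2), le_max_left _ _, le_max_right _ _,
    H.ndpstar hq (le_max_right _ _), ?_⟩
  rw [pstar_spec al be io zK_ne p _ (le_max_left _ _),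
    pstar_spec al be io zK_ne q _ (le_max_right _ _), ← s_io H.hs, ← s_io H.hs, ← h, map_mul]
  ring

lemma s_mem' (x : OO H) : s x ∈ OO H := by
  obtain ⟨p, q, hq, h⟩ := x.2
  obtain ⟨d, _, _, h1, h2⟩ := s_mem H hq h
  exact ⟨_, _, h1, h2⟩

/-- The real structure on the local ring. -/
noncomputable def sO : OO H →+* OO H := (s.comp (OO H).subtype).codRestrict (OO H) (s_mem' H)

lemma sO_coe (x : OO H) : (sO H x : KC) = s x := rfl

lemma rs_sO {sW : κ →+* κ} (hW : ∀ p, sW (φ p) = cjm al be φ p) (x : OO H) :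
    rs H hφ (sO H x) = sW (rs H hφ x) := by
  obtain ⟨p, q, hq, h⟩ := x.2
  obtain ⟨d, hp2, hq2, h1, h2⟩ := s_mem H hq h
  rw [rs_eq H hφ (sO H x) h1 h2, rs_eq H hφ x hq h]
  have hz : φ (MvPolynomial.X 2) ≠ 0 := fun h => H.ndz ((hφ _).1 h)
  rw [pstar_spec al be φ hz p d hp2, pstar_spec al be φ hz q d hq2, map_div₀, hW, hW,
    mul_div_mul_right _ _ (pow_ne_zero _ hz)]

/-- elements with nonzero residue are invertible -/
lemma inv_mem {x : OO H} (hx : rs H hφ x ≠ 0) : ((x : KC))⁻¹ ∈ OO H := by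
  obtain ⟨p, q, hq, h⟩ := x.2
  rw [rs_eq H hφ x hq h] at hx
  have hp : ¬ π ∣ p := fun h2 => hx (by rw [(hφ _).2 h2, zero_div])
  refine ⟨q, p, hp, ?_⟩
  have hx0 : (x : KC) ≠ 0 := by
    intro h0
    rw [h0, zero_mul] at h
    have : p = 0 := io_inj (by rw [← h, map_zero])
    exact hp (this ▸ dvd_zero _)
  rw [← h]
  field_simp

/-- unit elements -/
def IsU (x : KC) : Prop := ∃ h : x ∈ OO H, rs H hφ ⟨x, h⟩ ≠ 0

lemma IsU.mul {x y : KC} (hx : IsU H hφ x) (hy : IsU H hφ y) : IsU H hφ (x * y) := by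
  obtain ⟨h1, h2⟩ := hx
  obtain ⟨h3, h4⟩ := hy
  refine ⟨(OO H).mul_mem h1 h3, ?_⟩
  have : (⟨x * y, (OO H).mul_mem h1 h3⟩ : OO H) = ⟨x, h1⟩ * ⟨y, h3⟩ := rfl
  rw [this, map_mul]
  exact mul_ne_zero h2 h4

lemma IsU.ne0 {x : KC} (hx : IsU H hφ x) : x ≠ 0 := by
  rintro rfl
  obtain ⟨h1, h2⟩ := hx
  exact h2 (map_zero (rs H hφ))

lemma IsU.inv {x : KC} (hx : IsU H hφ x) : IsU H hφ x⁻¹ := by
  obtain ⟨h1, h2⟩ := hx
  have h3 := inv_mem H hφ h2
  refine ⟨h3, ?_⟩
  have hx0 : x ≠ 0 := IsU.ne0 H hφ ⟨h1, h2⟩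
  have e : (⟨x, h1⟩ : OO H) * ⟨x⁻¹, h3⟩ = 1 := by
    apply Subtype.ext
    show x * x⁻¹ = 1
    exact mul_inv_cancel₀ hx0
  have e2 := congrArg (rs H hφ) e
  rw [map_mul, map_one] at e2
  intro h0
  rw [h0, mul_zero] at e2
  exact zero_ne_one e2

lemma IsU.one : IsU H hφ 1 := ⟨(OO H).one_mem, by
  have : (⟨1, (OO H).one_mem⟩ : OO H) = 1 := rfl
  rw [this, map_one]; exact one_ne_zero⟩

lemma IsU.pow {x : KC} (hx : IsU H hφ x) (n : ℕ) : IsU H hφ (x ^ n) := by
  induction n with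
  | zero => rw [pow_zero]; exact IsU.one H hφ
  | succ n ih => rw [pow_succ]; exact IsU.mul H hφ ih hx

lemma IsU.zpow {x : KC} (hx : IsU H hφ x) (n : ℤ) : IsU H hφ (x ^ n) := by
  obtain ⟨m, rfl | rfl⟩ := n.eq_nat_or_neg
  · rw [zpow_natCast]; exact IsU.pow H hφ hx m
  · rw [zpow_neg, zpow_natCast]; exact IsU.inv H hφ (IsU.pow H hφ hx m)

lemma isU_io {p : A3} (hp : ¬ π ∣ p) : IsU H hφ (io p) :=
  ⟨io_mem H p, by rw [rs_io]; exact fun h => hp ((hφ _).1 h)⟩

include H in
lemma pi_ne : io π ≠ 0 := fun h => H.ne0 (io_inj (by rw [h, map_zero]))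

/-- every nonzero element is a power of `π` times a unit -/
lemma exists_val (x : KC) (hx : x ≠ 0) : ∃ (n : ℤ) (y : KC), IsU H hφ y ∧ x = io π ^ n * y := by
  obtain ⟨p, q, hq, rfl⟩ := IsFractionRing.div_surjective (A := A3) x
  have hq0 : q ≠ 0 := nonZeroDivisors.ne_zero hq
  have hp0 : p ≠ 0 := by
    rintro rfl
    exact hx (by simp)
  obtain ⟨p', he, hp'⟩ :=
    (FiniteMultiplicity.of_prime_left H.prime hp0).exists_eq_pow_mul_and_not_dvd
  obtain ⟨q', hf, hq'⟩ :=
    (FiniteMultiplicity.of_prime_left H.prime hq0).exists_eq_pow_mul_and_not_dvd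
  set e := multiplicity π p
  set f := multiplicity π q
  refine ⟨(e : ℤ) - f, io p' * (io q')⁻¹,
    IsU.mul H hφ (isU_io H hφ hp') (IsU.inv H hφ (isU_io H hφ hq')), ?_⟩
  have h1 := pi_ne H
  have h2 : io q' ≠ 0 := IsU.ne0 H hφ (isU_io H hφ hq')
  rw [he, hf, map_mul, map_mul, map_pow, map_pow, zpow_sub₀ h1, zpow_natCast, zpow_natCast]
  field_simp

/-- powers of `π` -/
lemma pow_mem {n : ℤ} (hn : 0 ≤ n) {y : KC} (hy : IsU H hφ y) : io π ^ n * y ∈ OO H := by
  obtain ⟨m, rfl⟩ := Int.eq_ofNat_of_zero_le hn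
  rw [zpow_natCast, ← map_pow]
  exact (OO H).mul_mem (io_mem H _) hy.1

lemma pow_res {n : ℤ} (hn : 0 < n) {y : KC} (hy : IsU H hφ y) :
    ∃ h : io π ^ n * y ∈ OO H, rs H hφ ⟨io π ^ n * y, h⟩ = 0 := by
  refine ⟨pow_mem H hφ hn.le hy, ?_⟩
  have e : (⟨io π ^ n * y, pow_mem H hφ hn.le hy⟩ : OO H) =
      ⟨io π, io_mem H _⟩ * ⟨io π ^ (n - 1) * y, pow_mem H hφ (by omega) hy⟩ := by
    apply Subtype.ext
    show io π ^ n * y = io π * (io π ^ (n - 1) * y)
    rw [← mul_assoc, ← zpow_one_add₀ (pi_ne H), add_sub_cancel]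
  rw [e, map_mul, rs_io, (hφ π).2 dvd_rfl, zero_mul]

/-- common scaling of a finite set -/
lemma scale (T : Finset KC) (hT : ∃ x ∈ T, x ≠ 0) : ∃ n : ℤ,
    (∀ x ∈ T, io π ^ n * x ∈ OO H) ∧ ∃ x ∈ T, IsU H hφ (io π ^ n * x) := by
  classical
  choose! v y hy hxy using exists_val H hφ
  obtain ⟨x0, hx0, hmin⟩ := Finset.exists_min_image (T.filter (· ≠ 0)) v (by
    obtain ⟨x, hx, hx0⟩ := hT
    exact ⟨x, Finset.mem_filter.2 ⟨hx, hx0⟩⟩)
  rw [Finset.mem_filter] at hx0
  refine ⟨- v x0, ?_, x0, hx0.1, ?_⟩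
  · intro x hx
    by_cases hx1 : x = 0
    · rw [hx1, mul_zero]; exact (OO H).zero_mem
    · have h1 := hmin x (Finset.mem_filter.2 ⟨hx, hx1⟩)
      rw [hxy x hx1, ← mul_assoc, ← zpow_add₀ (pi_ne H)]
      exact pow_mem H hφ (by omega) (hy x hx1)
  · have e : io π ^ (-v x0) * x0 = y x0 := by
      have e1 : io π ^ (-v x0) * x0 = io π ^ (-v x0) * (io π ^ v x0 * y x0) := by
        rw [← hxy x0 hx0.2]
      rw [e1, ← mul_assoc, ← zpow_add₀ (pi_ne H), neg_add_cancel, zpow_zero, one_mul]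
    rw [e]
    exact hy x0 hx0.2

lemma exists_lift (P : KC[X]) (h : ∀ i, P.coeff i ∈ OO H) :
    ∃ P0 : (OO H)[X], P0.map (OO H).subtype = P := by
  refine ⟨P.toSubring (OO H) ?_, Polynomial.map_toSubring _ _ _⟩
  intro c hc
  obtain ⟨i, _, rfl⟩ := Polynomial.mem_coeffs_iff.1 (Finset.mem_coe.1 hc)
  exact h i

lemma sub_inj : Function.Injective (Polynomial.map (OO H).subtype) :=
  Polynomial.map_injective _ Subtype.val_injective

/-- reduction of a polynomial, primitive after scaling -/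
lemma scale_poly (P : KC[X]) (hP : P ≠ 0) : ∃ (n : ℤ) (P0 : (OO H)[X]),
    P0.map (OO H).subtype = C (io π ^ n) * P ∧ P0.map (rs H hφ) ≠ 0 := by
  classical
  obtain ⟨n, h1, x, hx, hu⟩ := scale H hφ P.coeffs (by
    obtain ⟨i, hi⟩ := Polynomial.support_nonempty.2 hP
    exact ⟨P.coeff i, Polynomial.coeff_mem_coeffs (Polynomial.mem_support_iff.1 hi),
      Polynomial.mem_support_iff.1 hi⟩)
  obtain ⟨P0, hP0⟩ := exists_lift H (C (io π ^ n) * P) (by
    intro i
    rw [Polynomial.coeff_C_mul]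
    by_cases hi : P.coeff i = 0
    · rw [hi, mul_zero]; exact (OO H).zero_mem
    · exact h1 _ (Polynomial.coeff_mem_coeffs hi))
  refine ⟨n, P0, hP0, ?_⟩
  obtain ⟨i, hi, rfl⟩ := Polynomial.mem_coeffs_iff.1 hx
  intro h0
  obtain ⟨hm, hm2⟩ := hu
  have e : P0.coeff i = ⟨io π ^ n * P.coeff i, hm⟩ := by
    apply Subtype.ext
    show (OO H).subtype (P0.coeff i) = _
    rw [← Polynomial.coeff_map, hP0, Polynomial.coeff_C_mul]
  apply hm2
  rw [← e, ← Polynomial.coeff_map, h0, Polynomial.coeff_zero]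

/-- simultaneous scaling of four polynomials -/
lemma scale_poly4 (P : Fin 4 → KC[X]) (hP : ∃ j, P j ≠ 0) : ∃ (n : ℤ) (P0 : Fin 4 → (OO H)[X]),
    (∀ j, (P0 j).map (OO H).subtype = C (io π ^ n) * P j) ∧ ∃ j, (P0 j).map (rs H hφ) ≠ 0 := by
  classical
  obtain ⟨n, h1, x, hx, hu⟩ := scale H hφ (Finset.univ.biUnion fun j => (P j).coeffs) (by
    obtain ⟨j, hj⟩ := hP
    obtain ⟨i, hi⟩ := Polynomial.support_nonempty.2 hj
    exact ⟨(P j).coeff i, Finset.mem_biUnion.2 ⟨j, Finset.mem_univ _,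
      Polynomial.coeff_mem_coeffs (Polynomial.mem_support_iff.1 hi)⟩,
      Polynomial.mem_support_iff.1 hi⟩)
  have h2 : ∀ j, ∃ P0 : (OO H)[X], P0.map (OO H).subtype = C (io π ^ n) * P j := by
    intro j
    apply exists_lift H
    intro i
    rw [Polynomial.coeff_C_mul]
    by_cases hi : (P j).coeff i = 0
    · rw [hi, mul_zero]; exact (OO H).zero_mem
    · exact h1 _ (Finset.mem_biUnion.2 ⟨j, Finset.mem_univ _, Polynomial.coeff_mem_coeffs hi⟩)
  choose P0 hP0 using h2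
  refine ⟨n, P0, hP0, ?_⟩
  obtain ⟨j, _, hj⟩ := Finset.mem_biUnion.1 hx
  refine ⟨j, ?_⟩
  obtain ⟨i, hi, rfl⟩ := Polynomial.mem_coeffs_iff.1 hj
  intro h0
  obtain ⟨hm, hm2⟩ := hu
  have e : (P0 j).coeff i = ⟨io π ^ n * (P j).coeff i, hm⟩ := by
    apply Subtype.ext
    show (OO H).subtype ((P0 j).coeff i) = _
    rw [← Polynomial.coeff_map, hP0, Polynomial.coeff_C_mul]
  apply hm2
  rw [← e, ← Polynomial.coeff_map, h0, Polynomial.coeff_zero]

lemma map_sO_sub (P : (OO H)[X]) :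
    (P.map (sO H)).map (OO H).subtype = (P.map (OO H).subtype).map s := by
  rw [Polynomial.map_map, Polynomial.map_map]
  rfl

lemma map_sO_rs {sW : κ →+* κ} (hW : ∀ p, sW (φ p) = cjm al be φ p) (P : (OO H)[X]) :
    (P.map (sO H)).map (rs H hφ) = (P.map (rs H hφ)).map sW := by
  rw [Polynomial.map_map, Polynomial.map_map]
  congr 1
  ext x
  exact rs_sO H hφ hW x

/-- the cocycle of `π` -/
lemma s_pi : ∃ η : KC, s (io π) = io π * η ∧ IsU H hφ η := by
  obtain ⟨k, hk⟩ := H.dvd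
  have e := pstar_spec al be io zK_ne π _ le_rfl
  rw [← s_io H.hs, hk, map_mul] at e
  set d := π.degreeOf 2
  have hz : io (MvPolynomial.X 2) ^ d ≠ 0 := pow_ne_zero _ zK_ne
  have hzu : IsU H hφ (io (MvPolynomial.X 2) ^ d) := IsU.pow H hφ (isU_io H hφ H.ndz) d
  have e1 : s (io π) = io π * (io k * (io (MvPolynomial.X 2) ^ d)⁻¹) := by
    field_simp
    exact e.symm
  have hm : io k * (io (MvPolynomial.X 2) ^ d)⁻¹ ∈ OO H :=
    (OO H).mul_mem (io_mem H k) (IsU.inv H hφ hzu).1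
  refine ⟨_, e1, hm, ?_⟩
  set η : OO H := ⟨io k * (io (MvPolynomial.X 2) ^ d)⁻¹, hm⟩ with hη
  have e2 : η * sO H η = 1 := by
    apply Subtype.ext
    show (η : KC) * s η = 1
    have h3 := congrArg s e1
    rw [s_s H.hs, map_mul] at h3
    have h4 : s (io π) = io π * (η : KC) := e1
    have h5 : io π = io π * (η : KC) * s (η : KC) := by
      conv_lhs => rw [h3]
      rw [h4]
    have h6 := pi_ne H
    have h7 : io π * ((η : KC) * s (η : KC)) = io π * 1 := by rw [← mul_assoc, ← h5, mul_one]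
    exact mul_left_cancel₀ h6 h7
  have e3 := congrArg (rs H hφ) e2
  rw [map_mul, map_one] at e3
  intro h0
  rw [h0, zero_mul] at e3
  exact zero_ne_one e3

end Residue

end Res

open Res in
theorem res : stRes := by
  intro al be s hbe hal hrel hs g π n' m' e f hirr hodd hdvd hG hn' hm' hef
  have H : Hyp al be s π := ⟨hbe, hal, hrel, hs, hirr, hodd, hdvd⟩
  obtain ⟨κ, hκ, φ, sW, hφ, hgen, hW⟩ := exists_residue H
  have hz : φ (MvPolynomial.X 2) ≠ 0 := fun h => H.ndz ((hφ _).1 h)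
  have hSW : IsSW al be φ sW := by
    refine ⟨?_, ?_, ?_, ?_⟩
    · intro c
      rw [hW]
      simp [cjm]
    · rw [hW]; simp [cjm]
    · rw [hW]; simp [cjm]
    · rw [hW]; simp [cjm]
  -- the polynomials
  set cs : (OO H) := ⟨cK al, io_mem H (MvPolynomial.C (al : ℂ))⟩ with hcs
  set cb : (OO H) := ⟨cK be, io_mem H (MvPolynomial.C (be : ℂ))⟩ with hcb
  set ct : (OO H) := ⟨tK, io_mem H (MvPolynomial.X 0)⟩ with hct
  have rcs : rs H hφ cs = φ (MvPolynomial.C (al : ℂ)) := rs_io H hφ _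
  have rcb : rs H hφ cb = φ (MvPolynomial.C (be : ℂ)) := rs_io H hφ _
  have hne : ∃ j, (![g.a1, g.b1, g.a2, g.b2] : Fin 4 → KC[X]) j ≠ 0 := by
    by_contra hcon
    push Not at hcon
    have h0 : g.a1 = 0 := hcon 0
    have h1 : g.b1 = 0 := hcon 1
    have h2 : g.a2 = 0 := hcon 2
    have h3 : g.b2 = 0 := hcon 3
    have h := g.id1
    rw [h0, h1, h2, h3] at h
    simp only [Polynomial.map_zero, mul_zero, zero_mul, add_zero, sub_zero] at h
    have h4 : (C g.G : KC[X]) ≠ 0 := by rw [Ne, Polynomial.C_eq_zero]; exact g.G0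
    exact mul_ne_zero (mul_ne_zero h4 (Polynomial.X_sub_C_ne_zero _)) (pow_ne_zero 2 g.d0) h
  obtain ⟨n, P0, hP0, j0, hj0⟩ := scale_poly4 H hφ _ hne
  obtain ⟨m, D0, hD0, hD1⟩ := scale_poly H hφ g.d g.d0
  obtain ⟨η, hη, hηu⟩ := s_pi H hφ
  set A1 := P0 0 with hA1
  set B1 := P0 1 with hB1
  set A2 := P0 2 with hA2
  set B2 := P0 3 with hB2
  have mA1 : A1.map (OO H).subtype = C (io π ^ n) * g.a1 := hP0 0
  have mB1 : B1.map (OO H).subtype = C (io π ^ n) * g.b1 := hP0 1
  have mA2 : A2.map (OO H).subtype = C (io π ^ n) * g.a2 := hP0 2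
  have mB2 : B2.map (OO H).subtype = C (io π ^ n) * g.b2 := hP0 3
  have msp : ∀ (P : (OO H)[X]) (p : KC[X]), P.map (OO H).subtype = C (io π ^ n) * p →
      (P.map (sO H)).map (OO H).subtype = C (s (io π ^ n)) * p.map s := by
    intro P p h
    rw [map_sO_sub, h, Polynomial.map_mul, Polynomial.map_C]
  have mA1s := msp _ _ mA1
  have mB1s := msp _ _ mB1
  have mA2s := msp _ _ mA2
  have mB2s := msp _ _ mB2
  have mdel : (delta (C cs) X : (OO H)[X]).map (OO H).subtype = delta (C (cK al)) X := by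
    have := map_delta (Polynomial.mapRingHom (OO H).subtype) (C cs) X
    simp only [Polynomial.coe_mapRingHom, Polynomial.map_C, Polynomial.map_X] at this
    exact this
  have mQ : (Qf (C cs) (C cb) X : (OO H)[X]).map (OO H).subtype = Qf (C (cK al)) (C (cK be)) X := by
    have := map_Qf (Polynomial.mapRingHom (OO H).subtype) (C cs) (C cb) X
    simp only [Polynomial.coe_mapRingHom, Polynomial.map_C, Polynomial.map_X] at this
    exact this
  have rdel : (delta (C cs) X : (OO H)[X]).map (rs H hφ) =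
      delta (C (φ (MvPolynomial.C (al : ℂ)))) X := by
    have := map_delta (Polynomial.mapRingHom (rs H hφ)) (C cs) X
    simp only [Polynomial.coe_mapRingHom, Polynomial.map_C, Polynomial.map_X, rcs] at this
    exact this
  have rQ : (Qf (C cs) (C cb) X : (OO H)[X]).map (rs H hφ) =
      Qf (C (φ (MvPolynomial.C (al : ℂ)))) (C (φ (MvPolynomial.C (be : ℂ)))) X := by
    have := map_Qf (Polynomial.mapRingHom (rs H hφ)) (C cs) (C cb) X
    simp only [Polynomial.coe_mapRingHom, Polynomial.map_C, Polynomial.map_X, rcs, rcb] at this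
    exact this
  -- the right hand side
  set RHS : (OO H)[X] := A1 * A1.map (sO H) + B1 * B1.map (sO H) * delta (C cs) X -
      Qf (C cs) (C cb) X * (A2 * A2.map (sO H) + B2 * B2.map (sO H) * delta (C cs) X) with hRHS
  have mRHS : RHS.map (OO H).subtype =
      C (io π ^ n * s (io π ^ n)) * (C g.G * (X - C tK) * g.d ^ 2) := by
    rw [g.id1, hRHS]
    simp only [Polynomial.map_sub, Polynomial.map_add, Polynomial.map_mul, mdel, mQ, mA1, mB1, mA2,
      mB2, mA1s, mB1s, mA2s, mB2s, map_mul]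
    ring
  -- the power of `π`
  have hpi := pi_ne H
  set U : KC := io n' * (io m')⁻¹ * η ^ n with hU
  have hUu : IsU H hφ U := IsU.mul H hφ (IsU.mul H hφ (isU_io H hφ hn')
    (IsU.inv H hφ (isU_io H hφ hm'))) (IsU.zpow H hφ hηu n)
  set N : ℤ := (e : ℤ) - f + 2 * n - 2 * m with hN
  have hm0 : io m' ≠ 0 := IsU.ne0 H hφ (isU_io H hφ hm')
  have hGe : g.G = io π ^ ((e : ℤ) - f) * (io n' * (io m')⁻¹) := by
    have h1 : g.G * (io π ^ f * io m') = io π ^ e * io n' := by
      rw [← map_pow, ← map_mul, ← map_pow, ← map_mul]; exact hG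
    have h2 : io π ^ f ≠ 0 := pow_ne_zero _ hpi
    rw [zpow_sub₀ hpi, zpow_natCast, zpow_natCast]
    field_simp
    linear_combination h1
  have hmain : C (io π ^ (-N)) * RHS.map (OO H).subtype =
      C U * (X - C tK) * (D0.map (OO H).subtype) ^ 2 := by
    have hsn : s (io π ^ n) = io π ^ n * η ^ n := by
      rw [map_zpow₀ s, hη, mul_zpow]
    rw [mRHS, hD0, hsn, mul_pow, ← Polynomial.C_pow]
    have h3 : io π ^ (-N) * (io π ^ n * (io π ^ n * η ^ n)) * g.G = U * (io π ^ m) ^ 2 := by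
      rw [hGe, hU, ← zpow_natCast (io π ^ m), ← zpow_mul]
      have h4 : io π ^ (-N) * (io π ^ n * io π ^ n) * io π ^ ((e : ℤ) - f) =
          io π ^ (m * ((2 : ℕ) : ℤ)) := by
        rw [← zpow_add₀ hpi, ← zpow_add₀ hpi, ← zpow_add₀ hpi]
        congr 1
        rw [hN]; push_cast; ring
      linear_combination (η ^ n * (io n' * (io m')⁻¹)) * h4
    calc C (io π ^ (-N)) * (C (io π ^ n * (io π ^ n * η ^ n)) * (C g.G * (X - C tK) * g.d ^ 2))
        = C (io π ^ (-N) * (io π ^ n * (io π ^ n * η ^ n)) * g.G) * (X - C tK) * g.d ^ 2 := by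
          simp only [map_mul]; ring
      _ = _ := by rw [h3]; simp only [map_mul]; ring
  have hNodd : Odd N := by
    rw [hN]
    obtain ⟨c, hc⟩ := hef
    refine ⟨(c : ℤ) - f + n - m, ?_⟩
    have : ((e : ℤ) + f) = 2 * c + 1 := by exact_mod_cast hc
    linarith
  have hN0 : N ≠ 0 := by
    rintro h0
    rw [h0] at hNodd
    exact (by decide : ¬ Odd (0 : ℤ)) hNodd
  have hRres : RHS.map (rs H hφ) = 0 := by
    rcases lt_or_gt_of_ne hN0 with hneg | hpos
    · -- contradiction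
      exfalso
      obtain ⟨h1, h2⟩ := pow_res H hφ (n := -N) (by omega) (IsU.one H hφ)
      set pw : OO H := ⟨io π ^ (-N) * 1, h1⟩ with hpw
      set Uo : OO H := ⟨U, hUu.1⟩ with hUo
      have h3 : C pw * RHS = C Uo * (X - C ct) * D0 ^ 2 := by
        apply sub_inj H
        simp only [Polynomial.map_mul, Polynomial.map_C, Polynomial.map_pow, Polynomial.map_sub,
          Polynomial.map_X]
        have e1 : (OO H).subtype pw = io π ^ (-N) := mul_one _
        rw [e1]
        exact hmain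
      have h4 := congrArg (Polynomial.map (rs H hφ)) h3
      simp only [Polynomial.map_mul, Polynomial.map_C, Polynomial.map_pow, Polynomial.map_sub,
          Polynomial.map_X] at h4
      rw [h2, map_zero, zero_mul] at h4
      have h5 : (C (rs H hφ Uo) : κ[X]) ≠ 0 := by
        rw [Ne, Polynomial.C_eq_zero]; exact hUu.2
      exact mul_ne_zero (mul_ne_zero h5 (Polynomial.X_sub_C_ne_zero _)) (pow_ne_zero 2 hD1) h4.symm
    · obtain ⟨h1, h2⟩ := pow_res H hφ hpos hUu
      set pw : OO H := ⟨io π ^ N * U, h1⟩ with hpw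
      have h3 : RHS = C pw * (X - C ct) * D0 ^ 2 := by
        apply sub_inj H
        simp only [Polynomial.map_mul, Polynomial.map_C, Polynomial.map_pow, Polynomial.map_sub,
          Polynomial.map_X]
        have e1 : (OO H).subtype pw = io π ^ N * U := rfl
        have e2 : (OO H).subtype ct = tK := rfl
        rw [e1, e2, map_mul]
        have h4 : C (io π ^ N) * (C (io π ^ (-N)) * RHS.map (OO H).subtype) =
            RHS.map (OO H).subtype := by
          rw [← mul_assoc, ← map_mul, ← zpow_add₀ hpi, add_neg_cancel, zpow_zero, map_one, one_mul]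
        rw [← h4, hmain]; ring
      rw [h3]
      simp only [Polynomial.map_mul, Polynomial.map_C]
      rw [h2, map_zero, zero_mul, zero_mul]
  refine ⟨κ, hκ, φ, sW, A1.map (rs H hφ), B1.map (rs H hφ), A2.map (rs H hφ), B2.map (rs H hφ),
    hφ, hgen, hSW, ?_, ?_, ?_⟩
  · rintro ⟨h1, h2, h3, h4⟩
    fin_cases j0
    · exact hj0 h1
    · exact hj0 h2
    · exact hj0 h3
    · exact hj0 h4
  · have h := hRres
    rw [hRHS] at h
    simp only [Polynomial.map_sub, Polynomial.map_add, Polynomial.map_mul, rdel, rQ,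
      map_sO_rs H hφ hW] at h
    exact sub_eq_zero.1 h
  · have h : A1 * B1.map (sO H) + B1 * A1.map (sO H) =
        Qf (C cs) (C cb) X * (A2 * B2.map (sO H) + B2 * A2.map (sO H)) := by
      apply sub_inj H
      simp only [Polynomial.map_add, Polynomial.map_mul, mQ, mA1, mB1, mA2, mB2, mA1s, mB1s, mA2s,
        mB2s]
      linear_combination (C (io π ^ n) * C (s (io π ^ n))) * g.id2
    have h2 := congrArg (Polynomial.map (rs H hφ)) h
    simp only [Polynomial.map_add, Polynomial.map_mul, rQ, map_sO_rs H hφ hW] at h2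
    exact h2

end MP_d2f638_ag.Stab
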