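import Pool.Agent.Lib.MP_d2f638_ag.Stab.StmtsA

/-!
# A6. The real structure on the complex function field
-/

namespace MP_d2f638_ag.Stab

open Polynomial

namespace SexAux

/-- The values of `pstar`. -/
lemma pstar_eval {k F : Type} [Field k] [Field F] (cj : k →+* k) (g : k →+* F) (a b : k)
    (P : Fin 3 → F) (hz : P 2 ≠ 0) (q : MvPolynomial (Fin 3) k) (d : ℕ)
    (hd : ∀ e ∈ q.support, e 2 ≤ d) :
    MvPolynomial.eval₂ g P (pstar cj a b d q) = P 2 ^ d *
      MvPolynomial.eval₂ (g.comp cj) ![P 0, P 1, Ff (g a) (g b) (P 0) (P 1) / P 2] q := by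
  have hFP : MvPolynomial.eval₂ g P (FP a b) = Ff (g a) (g b) (P 0) (P 1) := by
    unfold FP
    have := map_Ff (MvPolynomial.eval₂Hom g P) (MvPolynomial.C a) (MvPolynomial.C b)
      (MvPolynomial.X 0) (MvPolynomial.X 1)
    simpa using this
  rw [MvPolynomial.eval₂_eq' (g.comp cj), Finset.mul_sum]
  unfold pstar
  rw [← MvPolynomial.coe_eval₂Hom, map_sum]
  refine Finset.sum_congr rfl fun e he => ?_
  simp only [map_mul, map_pow, MvPolynomial.coe_eval₂Hom, MvPolynomial.eval₂_C,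
    MvPolynomial.eval₂_X, hFP, Fin.prod_univ_three, Matrix.cons_val_zero, Matrix.cons_val_one,
    Matrix.cons_val, RingHom.comp_apply]
  have h1 : P 2 ^ d = P 2 ^ (e 2) * P 2 ^ (d - e 2) := by
    rw [← pow_add, Nat.add_sub_cancel' (hd e he)]
  rw [h1, div_pow]
  field_simp

lemma support_le {k : Type} [Field k] (q : MvPolynomial (Fin 3) k) :
    ∀ e ∈ q.support, e 2 ≤ q.degreeOf 2 := fun _ he => MvPolynomial.monomial_le_degreeOf 2 he

/-- The real structure on polynomials. -/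
noncomputable def fS (al be : ℝ) : MvPolynomial (Fin 3) ℂ →+* KC :=
  MvPolynomial.eval₂Hom (cK.comp (starRingEnd ℂ)) ![tK, wK, Ff (cK al) (cK be) tK wK / zK]

lemma cK_eq (c : ℂ) : cK c = algebraMap (MvPolynomial (Fin 3) ℂ) KC (MvPolynomial.C c) := by
  unfold cK
  rw [IsScalarTower.algebraMap_apply ℂ (MvPolynomial (Fin 3) ℂ) KC]
  rfl

lemma eval_K (q : MvPolynomial (Fin 3) ℂ) :
    MvPolynomial.eval₂ cK ![tK, wK, zK] q = algebraMap (MvPolynomial (Fin 3) ℂ) KC q := by
  have h : MvPolynomial.eval₂Hom cK ![tK, wK, zK] =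
      (algebraMap (MvPolynomial (Fin 3) ℂ) KC) := by
    apply MvPolynomial.ringHom_ext
    · intro c
      rw [MvPolynomial.eval₂Hom_C, cK_eq]
    · intro j
      rw [MvPolynomial.eval₂Hom_X']
      fin_cases j <;> rfl
  exact congrArg (fun f : MvPolynomial (Fin 3) ℂ →+* KC => f q) h

lemma zK_ne : zK ≠ 0 := by
  intro h
  have h1 : (MvPolynomial.X 2 : MvPolynomial (Fin 3) ℂ) = 0 := by
    apply IsFractionRing.injective (MvPolynomial (Fin 3) ℂ) KC
    rw [map_zero]
    exact h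
  exact MvPolynomial.X_ne_zero 2 h1

lemma FP_ne {al be : ℝ} (h1 : 0 < be) (h2 : be < al) : FP (al : ℂ) (be : ℂ) ≠ 0 := by
  intro h
  have h3 := congrArg (MvPolynomial.eval₂ (RingHom.id ℂ) ![-(al : ℂ), 0, 0]) h
  unfold FP at h3
  have h4 := map_Ff (MvPolynomial.eval₂Hom (RingHom.id ℂ) ![-(al : ℂ), 0, 0])
    (MvPolynomial.C (al : ℂ)) (MvPolynomial.C (be : ℂ)) (MvPolynomial.X 0) (MvPolynomial.X 1)
  rw [MvPolynomial.coe_eval₂Hom] at h4
  rw [h4] at h3
  simp only [MvPolynomial.eval₂_C, MvPolynomial.eval₂_X, MvPolynomial.eval₂_zero,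
    RingHom.id_apply, Matrix.cons_val_zero, Matrix.cons_val_one] at h3
  unfold Ff Qf Rf at h3
  have h5 : (2 * al * (al + be) : ℂ) = 0 := by linear_combination (-1 : ℂ) * h3
  have h6 : (2 * al * (al + be) : ℝ) = 0 := by exact_mod_cast h5
  have h7 : 0 < al := h1.trans h2
  have : 0 < 2 * al * (al + be) := by positivity
  exact this.ne' h6

lemma fS_injective {al be : ℝ} (h1 : 0 < be) (h2 : be < al) :
    Function.Injective (fS al be) := by
  rw [injective_iff_map_eq_zero]
  intro p hp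
  -- the polynomial with cleared denominators vanishes
  have hz : (![tK, wK, zK] : Fin 3 → KC) 2 ≠ 0 := zK_ne
  have hstar := pstar_eval (starRingEnd ℂ) cK (al : ℂ) (be : ℂ) ![tK, wK, zK] hz p
    (p.degreeOf 2) (support_le p)
  have hp' : MvPolynomial.eval₂ (cK.comp (starRingEnd ℂ))
      ![(![tK, wK, zK] : Fin 3 → KC) 0, (![tK, wK, zK] : Fin 3 → KC) 1,
        Ff (cK al) (cK be) ((![tK, wK, zK] : Fin 3 → KC) 0) ((![tK, wK, zK] : Fin 3 → KC) 1) /
          (![tK, wK, zK] : Fin 3 → KC) 2] p = 0 := hp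
  rw [hp', mul_zero, eval_K] at hstar
  have h0 : pstar (starRingEnd ℂ) (al : ℂ) be (p.degreeOf 2) p = 0 := by
    apply IsFractionRing.injective (MvPolynomial (Fin 3) ℂ) KC
    rw [map_zero]
    exact hstar
  -- evaluation at numbers
  have hnum : ∀ (t w y : ℂ), y ≠ 0 → Ff (al : ℂ) be t w ≠ 0 →
      MvPolynomial.eval₂ (starRingEnd ℂ) ![t, w, y] p = 0 := by
    intro t w y hy hF
    have hz' : (![t, w, Ff (al : ℂ) be t w / y] : Fin 3 → ℂ) 2 ≠ 0 := div_ne_zero hF hy
    have h3 := pstar_eval (starRingEnd ℂ) (RingHom.id ℂ) (al : ℂ) (be : ℂ)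
      ![t, w, Ff (al : ℂ) be t w / y] hz' p (p.degreeOf 2) (support_le p)
    rw [h0, MvPolynomial.eval₂_zero] at h3
    have h4 := (mul_eq_zero.1 h3.symm).resolve_left (pow_ne_zero _ hz')
    have h5 : Ff (al : ℂ) be t w / (Ff (al : ℂ) be t w / y) = y := by
      field_simp
    rw [RingHom.id_comp] at h4
    simp only [RingHom.id_apply, Matrix.cons_val_zero, Matrix.cons_val_one,
      Matrix.cons_val] at h4
    rw [h5] at h4
    exact h4
  have hmap : MvPolynomial.map (starRingEnd ℂ) p * (MvPolynomial.X 2 * FP (al : ℂ) be) = 0 := by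
    apply MvPolynomial.funext
    intro x
    rw [map_zero, map_mul, map_mul, MvPolynomial.eval_X]
    have hFx : MvPolynomial.eval x (FP (al : ℂ) be) = Ff (al : ℂ) be (x 0) (x 1) := by
      unfold FP
      have := map_Ff (MvPolynomial.eval x) (MvPolynomial.C (al : ℂ)) (MvPolynomial.C (be : ℂ))
        (MvPolynomial.X 0) (MvPolynomial.X 1)
      simpa using this
    rw [hFx]
    by_cases hy : x 2 = 0
    · rw [hy]
      ring
    by_cases hF : Ff (al : ℂ) be (x 0) (x 1) = 0
    · rw [hF]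
      ring
    have h3 := hnum (x 0) (x 1) (x 2) hy hF
    have h4 : (![x 0, x 1, x 2] : Fin 3 → ℂ) = x := by
      funext j
      fin_cases j <;> rfl
    rw [h4] at h3
    rw [MvPolynomial.eval_map, h3, zero_mul]
  have hne : (MvPolynomial.X 2 * FP (al : ℂ) be : MvPolynomial (Fin 3) ℂ) ≠ 0 :=
    mul_ne_zero (MvPolynomial.X_ne_zero 2) (FP_ne h1 h2)
  have h5 := (mul_eq_zero.1 hmap).resolve_right hne
  apply MvPolynomial.map_injective (starRingEnd ℂ) (RingHom.injective _)
  rw [h5, map_zero]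

end SexAux

open SexAux

theorem sex : stSex := by
  intro al be h1 h2
  have hinj := fS_injective h1 h2
  refine ⟨IsFractionRing.lift (K := KC) hinj, ?_, ?_, ?_, ?_⟩
  · intro c
    rw [cK_eq, IsFractionRing.lift_algebraMap]
    unfold fS
    rw [MvPolynomial.eval₂Hom_C]
    rfl
  · unfold tK
    rw [IsFractionRing.lift_algebraMap]
    unfold fS
    rw [MvPolynomial.eval₂Hom_X']
    rfl
  · unfold wK
    rw [IsFractionRing.lift_algebraMap]
    unfold fS
    rw [MvPolynomial.eval₂Hom_X']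
    rfl
  · have h3 : IsFractionRing.lift (K := KC) hinj zK = fS al be (MvPolynomial.X 2) := by
      unfold zK
      rw [IsFractionRing.lift_algebraMap]
    rw [h3]
    unfold fS
    rw [MvPolynomial.eval₂Hom_X']
    rfl

end MP_d2f638_ag.Stab
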