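import Pool.Agent.Lib.MP_d2f638_ag.Stab.StmtsA

/-!
# A5. Specialisation of additional variables
-/

namespace MP_d2f638_ag.Stab

open MvPolynomial

lemma map_nf {A B : Type} [CommRing A] [CommRing B] (f : A →+* B) (q : A) (v : Fin 4 → A) :
    f (nf q v) = nf (f q) (fun j => f (v j)) := by
  simp [nf]

lemma nf_smul {A : Type} [CommRing A] (q c : A) (v : Fin 4 → A) :
    nf q (fun j => c * v j) = c ^ 2 * nf q v := by
  unfold nf
  ring

/-- common denominators for four fractions -/
lemma exists_den {m : ℕ} {M : Type} [Field M]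
    (v : Fin 4 → FractionRing (MvPolynomial (Fin m) M)) :
    ∃ (D : MvPolynomial (Fin m) M) (P : Fin 4 → MvPolynomial (Fin m) M), D ≠ 0 ∧
      ∀ j, algebraMap _ (FractionRing (MvPolynomial (Fin m) M)) D * v j =
        algebraMap _ (FractionRing (MvPolynomial (Fin m) M)) (P j) := by
  obtain ⟨b, hb⟩ := IsLocalization.exist_integer_multiples_of_finite
    (nonZeroDivisors (MvPolynomial (Fin m) M)) v
  choose P hP using hb
  refine ⟨b, P, nonZeroDivisors.coe_ne_zero b, fun j => ?_⟩
  rw [hP j, Algebra.smul_def]

theorem spec_anis (M : Type) [Field M] [Infinite M] (m : ℕ) (q : M) (hq : Anis q) :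
    Anis (algebraMap M (FractionRing (MvPolynomial (Fin m) M)) q) := by
  intro v hv
  obtain ⟨D, P, hD, hP⟩ := exists_den v
  have hinj : Function.Injective (algebraMap (MvPolynomial (Fin m) M)
      (FractionRing (MvPolynomial (Fin m) M))) := IsFractionRing.injective _ _
  have hC : algebraMap M (FractionRing (MvPolynomial (Fin m) M)) q =
      algebraMap (MvPolynomial (Fin m) M) (FractionRing (MvPolynomial (Fin m) M)) (C q) := by
    rw [IsScalarTower.algebraMap_apply M (MvPolynomial (Fin m) M)]
    rfl
  have h0 : nf (C q) P = 0 := by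
    apply hinj
    rw [map_nf, map_zero, ← hC]
    have : (fun j => algebraMap _ (FractionRing (MvPolynomial (Fin m) M)) (P j)) =
        fun j => algebraMap _ (FractionRing (MvPolynomial (Fin m) M)) D * v j := by
      funext j; rw [hP]
    rw [this, nf_smul, hv, mul_zero]
  have hP0 : ∀ j, P j = 0 := by
    have : ∀ s : Fin m → M, ∀ j, eval s (P j) = 0 := by
      intro s
      have h1 := congrArg (eval s) h0
      rw [map_nf, map_zero, eval_C] at h1
      have h2 := hq _ h1
      intro j
      exact congrFun h2 j
    intro j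
    apply MvPolynomial.funext
    intro s
    rw [this s j, map_zero]
  funext j
  have h1 := hP j
  rw [hP0 j, map_zero] at h1
  rcases mul_eq_zero.1 h1 with h2 | h2
  · exact absurd (hinj (h2.trans (map_zero _).symm)) hD
  · exact h2

theorem spec : stSpec := by
  intro K M _ _ _ iM m q x t hq
  have : CharZero M := charZero_of_injective_ringHom iM.injective
  refine ⟨spec_anis M m q hq, ?_⟩
  intro J hJ G v hG hv
  set a := algebraMap (MvPolynomial (Fin m) M) (FractionRing (MvPolynomial (Fin m) M)) with ha
  have hinj : Function.Injective a := IsFractionRing.injective _ _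
  have hC : ∀ c : M, algebraMap M (FractionRing (MvPolynomial (Fin m) M)) c = a (C c) := by
    intro c
    rw [IsScalarTower.algebraMap_apply M (MvPolynomial (Fin m) M)]
    rfl
  obtain ⟨D, P, hD, hP⟩ := exists_den v
  obtain ⟨n, d, hd, rfl⟩ := IsFractionRing.div_surjective (A := MvPolynomial (Fin m) K) G
  have hd0 : d ≠ 0 := nonZeroDivisors.ne_zero hd
  have hn0 : n ≠ 0 := by
    rintro rfl
    simp at hG
  have hmap : Function.Injective (MvPolynomial.map iM : MvPolynomial (Fin m) K →+* _) :=
    MvPolynomial.map_injective iM iM.injective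
  have hd1 : MvPolynomial.map iM d ≠ 0 := fun h => hd0 (hmap (h.trans (map_zero _).symm))
  have hn1 : MvPolynomial.map iM n ≠ 0 := fun h => hn0 (hmap (h.trans (map_zero _).symm))
  -- the polynomial identity
  have key : MvPolynomial.map iM n * D ^ 2 * C (x - iM t) =
      MvPolynomial.map iM d * nf (C q) P := by
    apply hinj
    have e1 : a (nf (C q) P) = (a D) ^ 2 * nf (algebraMap M _ q) v := by
      rw [map_nf, ← hC]
      have : (fun j => a (P j)) = fun j => a D * v j := by
        funext j; rw [hP]
      rw [this, nf_smul]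
    have e2 : J (algebraMap _ _ n / algebraMap _ _ d) =
        a (MvPolynomial.map iM n) / a (MvPolynomial.map iM d) := by
      rw [map_div₀, hJ, hJ]
    have e3 : a (MvPolynomial.map iM d) ≠ 0 := fun h => hd1 (hinj (h.trans (map_zero _).symm))
    rw [map_mul, map_mul, map_mul, e1, ← hv, e2, map_pow, ← hC, map_sub]
    field_simp
  -- choose the point
  have hprod : MvPolynomial.map iM n * MvPolynomial.map iM d * D ≠ 0 :=
    mul_ne_zero (mul_ne_zero hn1 hd1) hD
  have hex : ∃ s : Fin m → K, eval (fun j => iM (s j))
      (MvPolynomial.map iM n * MvPolynomial.map iM d * D) ≠ 0 := by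
    by_contra hcon
    push Not at hcon
    apply hprod
    refine MvPolynomial.funext_set (fun _ => Set.range iM)
      (fun _ => Set.infinite_range_of_injective iM.injective) ?_
    intro y hy
    have hy' : ∀ j, ∃ s, iM s = y j := fun j => hy j (Set.mem_univ j)
    choose s hs using hy'
    have h1 := hcon s
    have : (fun j => iM (s j)) = y := funext hs
    rw [this] at h1
    rw [h1, map_zero]
  obtain ⟨s, hs⟩ := hex
  rw [map_mul, map_mul] at hs
  have hev : ∀ p : MvPolynomial (Fin m) K,
      eval (fun j => iM (s j)) (MvPolynomial.map iM p) = iM (eval s p) := by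
    intro p
    rw [MvPolynomial.eval_map]
    exact (MvPolynomial.eval₂_comp iM s p).symm
  rw [hev, hev] at hs
  have hs1 : iM (eval s n) ≠ 0 := fun h => hs (by rw [h]; ring)
  have hs2 : iM (eval s d) ≠ 0 := fun h => hs (by rw [h]; ring)
  have hs3 : eval (fun j => iM (s j)) D ≠ 0 := fun h => hs (by rw [h]; ring)
  have key2 := congrArg (eval (fun j => iM (s j))) key
  rw [map_mul, map_mul, map_mul, map_pow, hev, hev, eval_C, map_nf, eval_C] at key2
  refine ⟨eval s n * eval s d, ?_, fun j => iM (eval s d) / eval (fun j => iM (s j)) D *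
    eval (fun j => iM (s j)) (P j), ?_⟩
  · intro h
    rcases mul_eq_zero.1 h with h | h
    · exact hs1 (by rw [h, map_zero])
    · exact hs2 (by rw [h, map_zero])
  · rw [nf_smul, map_mul]
    rw [div_pow, div_mul_eq_mul_div, eq_div_iff (pow_ne_zero 2 hs3)]
    linear_combination iM (eval s d) * key2

end MP_d2f638_ag.Stab
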