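import Pool.Agent.Lib.MP_d2f638_ag.Stab.Stmts

/-!
# F1, F2: the function field of `y² = δ(x)` and its universal property
-/

namespace MP_d2f638_ag.Stab

open Polynomial

section

variable {k M : Type} [Field k] [Field M]

/-- evaluation as a ring homomorphism -/
lemma eval₂_delta (i : k →+* M) (a : k) (x : M) :
    (delta (C a) (X : k[X])).eval₂ i x = delta (i a) x := by
  have := map_delta (eval₂RingHom i x) (C a) X
  simpa using this

lemma delta_factor (a : k) : delta (C a) (X : k[X]) =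
    (X - C a) * ((X + C a) * ((X ^ 2 - C a ^ 2) ^ 2 - 1)) := by
  unfold delta; ring

lemma mult_delta [CharZero k] {a : k} (ha : a ^ 2 ≠ 0) :
    (delta (C a) (X : k[X])).rootMultiplicity a = 1 := by
  have ha' : a ≠ 0 := by
    rintro rfl
    exact ha (by ring)
  have hg : ((X + C a) * ((X ^ 2 - C a ^ 2) ^ 2 - 1) : k[X]).eval a ≠ 0 := by
    simp only [eval_mul, eval_add, eval_X, eval_C, eval_sub, eval_pow, eval_one]
    intro h
    have : 2 * a = 0 := by linear_combination -h
    simp [ha'] at this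
  have hg0 : ((X + C a) * ((X ^ 2 - C a ^ 2) ^ 2 - 1) : k[X]) ≠ 0 := by
    intro h
    rw [h] at hg
    simp at hg
  have hne : (X - C a) * ((X + C a) * ((X ^ 2 - C a ^ 2) ^ 2 - 1)) ≠ (0 : k[X]) :=
    mul_ne_zero (X_sub_C_ne_zero a) hg0
  rw [delta_factor, rootMultiplicity_mul hne, rootMultiplicity_X_sub_C_self,
    rootMultiplicity_eq_zero hg]

/-- `δ` is not a square. -/
lemma sq_delta [CharZero k] {a : k} (ha : a ^ 2 ≠ 0) {p q : k[X]}
    (h : p ^ 2 = q ^ 2 * delta (C a) X) : p = 0 ∧ q = 0 := by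
  by_cases hq : q = 0
  · refine ⟨?_, hq⟩
    rw [hq] at h
    simpa using h
  · exfalso
    have hδ : delta (C a) (X : k[X]) ≠ 0 := by
      intro h0
      have := mult_delta (k := k) ha
      rw [h0] at this
      simp at this
    have hp : p ≠ 0 := by
      rintro rfl
      have : q ^ 2 * delta (C a) X ≠ 0 := mul_ne_zero (pow_ne_zero _ hq) hδ
      exact this (by rw [← h]; ring)
    have h1 := congrArg (rootMultiplicity a) h
    rw [rootMultiplicity_mul (mul_ne_zero (pow_ne_zero _ hq) hδ), mult_delta ha, pow_two, pow_two,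
      rootMultiplicity_mul (mul_ne_zero hp hp), rootMultiplicity_mul (mul_ne_zero hq hq)] at h1
    omega

/-- `1`, `y` are linearly independent over `k(x)`. -/
lemma lin_ind [CharZero k] {a : k} (ha : a ^ 2 ≠ 0) {i : k →+* M} {x y : M}
    (hx : Trans i x) (hy : y ^ 2 = delta (i a) x) {p q : k[X]}
    (h : p.eval₂ i x + q.eval₂ i x * y = 0) : p = 0 ∧ q = 0 := by
  have h1 : (p ^ 2 - q ^ 2 * delta (C a) X).eval₂ i x = 0 := by
    rw [eval₂_sub, eval₂_mul, eval₂_pow, eval₂_pow, eval₂_delta, ← hy]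
    linear_combination (p.eval₂ i x - q.eval₂ i x * y) * h
  have h2 : p ^ 2 - q ^ 2 * delta (C a) X = 0 := by
    by_contra hne
    exact hx _ hne h1
  exact sq_delta ha (sub_eq_zero.1 h2)

end

/-- The field `k(x, y)` inside a field. -/
noncomputable def cfSub {k L : Type} [Field k] [CharZero k] [Field L] (a : k) (i : k →+* L) (x y : L)
    (hx : Trans i x) (hy : y ^ 2 = delta (i a) x) : Subfield L where
  carrier := {m | ∃ p q r : k[X], r ≠ 0 ∧ m * r.eval₂ i x = p.eval₂ i x + q.eval₂ i x * y}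
  one_mem' := ⟨1, 0, 1, one_ne_zero, by simp⟩
  zero_mem' := ⟨0, 0, 1, one_ne_zero, by simp⟩
  mul_mem' := by
    rintro m m' ⟨p, q, r, hr, h⟩ ⟨p', q', r', hr', h'⟩
    refine ⟨p * p' + q * q' * delta (C a) X, p * q' + p' * q, r * r', mul_ne_zero hr hr', ?_⟩
    simp only [eval₂_add, eval₂_mul, eval₂_delta, ← hy]
    linear_combination (m' * r'.eval₂ i x) * h + (p.eval₂ i x + q.eval₂ i x * y) * h'
  add_mem' := by
    rintro m m' ⟨p, q, r, hr, h⟩ ⟨p', q', r', hr', h'⟩
    refine ⟨p * r' + p' * r, q * r' + q' * r, r * r', mul_ne_zero hr hr', ?_⟩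
    simp only [eval₂_add, eval₂_mul]
    linear_combination (r'.eval₂ i x) * h + (r.eval₂ i x) * h'
  neg_mem' := by
    rintro m ⟨p, q, r, hr, h⟩
    refine ⟨-p, -q, r, hr, ?_⟩
    simp only [eval₂_neg]
    linear_combination -h
  inv_mem' := by
    rintro m ⟨p, q, r, hr, h⟩
    by_cases hm : m = 0
    · subst hm
      exact ⟨0, 0, 1, one_ne_zero, by simp⟩
    have hrx : r.eval₂ i x ≠ 0 := hx r hr
    have hne : p.eval₂ i x + q.eval₂ i x * y ≠ 0 := by
      rw [← h]; exact mul_ne_zero hm hrx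
    by_cases hc : p.eval₂ i x - q.eval₂ i x * y = 0
    · refine ⟨r, 0, p + p, ?_, ?_⟩
      · intro h0
        have h1 : (p + p).eval₂ i x = 0 := by rw [h0]; simp
        rw [eval₂_add] at h1
        apply hne
        linear_combination h1 - hc
      · simp only [eval₂_add, eval₂_zero, zero_mul, add_zero]
        field_simp
        linear_combination hc - h
    · refine ⟨r * p, -(r * q), p ^ 2 - q ^ 2 * delta (C a) X, ?_, ?_⟩
      · intro h0
        have h1 : (p ^ 2 - q ^ 2 * delta (C a) X).eval₂ i x = 0 := by rw [h0]; simp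
        rw [eval₂_sub, eval₂_mul, eval₂_pow, eval₂_pow, eval₂_delta, ← hy] at h1
        apply mul_ne_zero hne hc
        linear_combination h1
      · rw [eval₂_sub, eval₂_mul, eval₂_pow, eval₂_pow, eval₂_delta, ← hy, eval₂_neg, eval₂_mul,
          eval₂_mul]
        field_simp
        linear_combination (-(p.eval₂ i x - q.eval₂ i x * y)) * h

theorem cfex : stCFex := by
  intro k _ _ a ha _
  let K := RatFunc k
  let L := AlgebraicClosure K
  let i : k →+* L := (algebraMap K L).comp (algebraMap k K)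
  let x : L := algebraMap K L RatFunc.X
  have hx : Trans i x := by
    intro p hp h
    have h1 : p.eval₂ i x = algebraMap K L (algebraMap k[X] K p) := by
      rw [show i = (algebraMap K L).comp (algebraMap k K) from rfl,
        ← Polynomial.hom_eval₂]
      congr 1
      have : (Polynomial.aeval (RatFunc.X : K)) p = algebraMap k[X] K p := by
        rw [← RatFunc.algebraMap_X, Polynomial.aeval_algebraMap_apply, aeval_X_left_apply]
      rw [← this]
      rfl
    rw [h1] at h
    have h2 := (map_eq_zero _).1 h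
    exact hp ((map_eq_zero_iff _ (RatFunc.algebraMap_injective k)).1 h2)
  obtain ⟨y, hy⟩ := IsAlgClosed.exists_pow_nat_eq (delta (i a) x) (n := 2) two_pos
  let M : Subfield L := cfSub a i x y hx hy
  have hi : ∀ c, i c ∈ M := by
    intro c
    refine ⟨C c, 0, 1, one_ne_zero, by simp⟩
  have hxM : x ∈ M := ⟨X, 0, 1, one_ne_zero, by simp⟩
  have hyM : y ∈ M := ⟨0, 1, 1, one_ne_zero, by simp⟩
  let iM : k →+* M := i.codRestrict M hi
  have hev : ∀ p : k[X], ((p.eval₂ iM ⟨x, hxM⟩ : M) : L) = p.eval₂ i x := by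
    intro p
    have := Polynomial.hom_eval₂ p iM M.subtype ⟨x, hxM⟩
    exact this
  refine ⟨M, inferInstance, ?_, iM, ⟨x, hxM⟩, ⟨y, hyM⟩, ?_, ?_, ?_⟩
  · exact (RingHom.charZero_iff M.subtype.injective).2 inferInstance
  · apply Subtype.ext
    have := map_delta M.subtype (iM a) ⟨x, hxM⟩
    exact hy.trans this.symm
  · intro p hp h
    apply hx p hp
    rw [← hev, h]
    rfl
  · rintro ⟨m, p, q, r, hr, h⟩
    refine ⟨p, q, r, hr, ?_⟩
    apply Subtype.ext
    show m * ((r.eval₂ iM ⟨x, hxM⟩ : M) : L) =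
      ((p.eval₂ iM ⟨x, hxM⟩ : M) : L) + ((q.eval₂ iM ⟨x, hxM⟩ : M) : L) * y
    rw [hev, hev, hev]
    exact h

theorem cfhom : stCFhom := by
  intro k M L _ _ _ _ a iM x y i x0 y0 ha _ hcf hx0 hy0
  obtain ⟨hy, hx, hgen⟩ := hcf
  choose P Q R hR hrep using hgen
  let j : M → L := fun m => ((P m).eval₂ i x0 + (Q m).eval₂ i x0 * y0) / (R m).eval₂ i x0
  have hj : ∀ (m : M) (p q r : k[X]), r ≠ 0 →
      m * r.eval₂ iM x = p.eval₂ iM x + q.eval₂ iM x * y →
      j m * r.eval₂ i x0 = p.eval₂ i x0 + q.eval₂ i x0 * y0 := by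
    intro m p q r hr h
    have h1 := hrep m
    have h2 : (P m * r - p * R m).eval₂ iM x + (Q m * r - q * R m).eval₂ iM x * y = 0 := by
      simp only [eval₂_sub, eval₂_mul]
      linear_combination (R m).eval₂ iM x * h - r.eval₂ iM x * h1
    obtain ⟨h3, h4⟩ := lin_ind ha hx hy h2
    have hRx : (R m).eval₂ i x0 ≠ 0 := hx0 _ (hR m)
    have h5 : (P m * r).eval₂ i x0 = (p * R m).eval₂ i x0 := by rw [sub_eq_zero.1 h3]
    have h6 : (Q m * r).eval₂ i x0 = (q * R m).eval₂ i x0 := by rw [sub_eq_zero.1 h4]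
    rw [eval₂_mul, eval₂_mul] at h5 h6
    simp only [j]
    rw [div_mul_eq_mul_div, div_eq_iff hRx]
    linear_combination h5 + y0 * h6
  have hcomp : ∀ c, j (iM c) = i c := by
    intro c
    have := hj (iM c) (C c) 0 1 one_ne_zero (by simp)
    simpa using this
  have hadd : ∀ m m', j (m + m') = j m + j m' := by
    intro m m'
    have h1 := hrep m
    have h2 := hrep m'
    have h3 := hj (m + m') (P m * R m' + P m' * R m) (Q m * R m' + Q m' * R m) (R m * R m')
      (mul_ne_zero (hR m) (hR m')) (by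
        simp only [eval₂_add, eval₂_mul]
        linear_combination (R m').eval₂ iM x * h1 + (R m).eval₂ iM x * h2)
    have h4 := hj m (P m) (Q m) (R m) (hR m) h1
    have h5 := hj m' (P m') (Q m') (R m') (hR m') h2
    have hR1 : (R m).eval₂ i x0 ≠ 0 := hx0 _ (hR m)
    have hR2 : (R m').eval₂ i x0 ≠ 0 := hx0 _ (hR m')
    simp only [eval₂_add, eval₂_mul] at h3
    apply mul_right_cancel₀ (mul_ne_zero hR1 hR2)
    linear_combination h3 - (R m').eval₂ i x0 * h4 - (R m).eval₂ i x0 * h5
  have hmul : ∀ m m', j (m * m') = j m * j m' := by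
    intro m m'
    have h1 := hrep m
    have h2 := hrep m'
    have h3 := hj (m * m') (P m * P m' + Q m * Q m' * delta (C a) X) (P m * Q m' + P m' * Q m)
      (R m * R m') (mul_ne_zero (hR m) (hR m')) (by
        simp only [eval₂_add, eval₂_mul, eval₂_delta, ← hy]
        linear_combination (m' * (R m').eval₂ iM x) * h1 +
          ((P m).eval₂ iM x + (Q m).eval₂ iM x * y) * h2)
    have h4 := hj m (P m) (Q m) (R m) (hR m) h1
    have h5 := hj m' (P m') (Q m') (R m') (hR m') h2
    have hR1 : (R m).eval₂ i x0 ≠ 0 := hx0 _ (hR m)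
    have hR2 : (R m').eval₂ i x0 ≠ 0 := hx0 _ (hR m')
    simp only [eval₂_add, eval₂_mul, eval₂_delta, ← hy0] at h3
    apply mul_right_cancel₀ (mul_ne_zero hR1 hR2)
    linear_combination h3 - (j m' * (R m').eval₂ i x0) * h4 -
      ((P m).eval₂ i x0 + (Q m).eval₂ i x0 * y0) * h5
  refine ⟨{ toFun := j, map_one' := ?_, map_mul' := hmul, map_zero' := ?_, map_add' := hadd },
    ?_, ?_, ?_⟩
  · have := hcomp 1
    simpa using this
  · have := hcomp 0
    simpa using this
  · ext c
    exact hcomp c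
  · show j x = x0
    have := hj x X 0 1 one_ne_zero (by simp)
    simpa using this
  · show j y = y0
    have := hj y 0 1 1 one_ne_zero (by simp)
    simpa using this

end MP_d2f638_ag.Stab
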