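import Pool.Agent.Lib.MP_d2f638_ag.Stab.Stmts

/-!
# Modules R1 - R4: transcendence degree facts
-/

namespace MP_d2f638_ag.Stab

open Cardinal AlgebraicIndependent

section

variable {k L : Type} [Field k] [Field L] [Algebra k L]

lemma AI_iff_algebraicIndependent {n : ℕ} (v : Fin n → L) :
    AI (algebraMap k L) v ↔ AlgebraicIndependent k v := by
  rw [algebraicIndependent_iff]
  unfold AI
  constructor
  · intro h p hp
    by_contra hne
    exact h p hne hp
  · intro h p hne hp
    exact hne (h p hp)

lemma mem_clF_iff_isAlgebraic (T : Set L) (x : L) :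
    x ∈ clF (algebraMap k L) T ↔ IsAlgebraic (Algebra.adjoin k T) x := by
  rw [← IntermediateField.isAlgebraic_adjoin_iff]
  exact mem_algebraicClosure_iff (F := Subfield.closure (Set.range (algebraMap k L) ∪ T)) (E := L)

lemma mem_clF_iff_closure (T : Set L) (x : L) :
    x ∈ clF (algebraMap k L) T ↔ x ∈ (matroid k L).closure T := by
  rw [mem_clF_iff_isAlgebraic, matroid_closure_eq]
  exact (Subalgebra.mem_algebraicClosure _ _).symm

omit [Field L] in
lemma encard_range_le {n : ℕ} (u : Fin n → L) : (Set.range u).encard ≤ n := by
  rw [← Set.image_univ]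
  refine (Set.encard_image_le _ _).trans ?_
  rw [Set.encard_univ]
  simp

omit [Field L] in
lemma encard_range_eq {n : ℕ} (v : Fin n → L) (h : Function.Injective v) :
    (Set.range v).encard = n := by
  rw [← Set.image_univ, h.encard_image, Set.encard_univ]
  simp

lemma rank_le_of_forall {m n : ℕ} (v : Fin m → L) (u : Fin n → L)
    (hv : AlgebraicIndependent k v) (h : ∀ j, v j ∈ clF (algebraMap k L) (Set.range u)) :
    (m : ℕ∞) ≤ (matroid k L).eRk (Set.range u) := by
  have h1 : (matroid k L).Indep (Set.range v) := by
    rw [matroid_indep_iff]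
    exact hv.to_subtype_range
  have h2 : Set.range v ⊆ (matroid k L).closure (Set.range u) := by
    rintro _ ⟨j, rfl⟩
    exact (mem_clF_iff_closure _ _).1 (h j)
  calc (m : ℕ∞) = (Set.range v).encard := (encard_range_eq v hv.injective).symm
    _ = (matroid k L).eRk (Set.range v) := h1.eRk_eq_encard.symm
    _ ≤ (matroid k L).eRk ((matroid k L).closure (Set.range u)) := (matroid k L).eRk_mono h2
    _ = (matroid k L).eRk (Set.range u) := (matroid k L).eRk_closure_eq _

end

/-- R1. -/
theorem rank : stRank := by
  intro k L _ _ i n v u hv h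
  let _ : Algebra k L := i.toAlgebra
  have hi : i = algebraMap k L := rfl
  rw [hi] at hv h
  have h1 := rank_le_of_forall v u ((AI_iff_algebraicIndependent v).1 hv) h
  have h2 : ((n + 1 : ℕ) : ℕ∞) ≤ n :=
    h1.trans (((matroid k L).eRk_le_encard _).trans (encard_range_le u))
  have h3 : n + 1 ≤ n := by exact_mod_cast h2
  omega

/-- R2. -/
theorem basis : stBasis := by
  intro k L _ _ i n v u hv h
  let _ : Algebra k L := i.toAlgebra
  have hi : i = algebraMap k L := rfl
  rw [hi] at hv h ⊢
  have h1 := rank_le_of_forall v u ((AI_iff_algebraicIndependent v).1 hv) h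
  have h2 := (matroid k L).eRk_le_encard (Set.range u)
  have h3 := encard_range_le u
  have h4 : (Set.range u).encard = n := le_antisymm h3 (h1.trans h2)
  have h5 : (matroid k L).eRk (Set.range u) = (Set.range u).encard := by
    rw [h4]
    exact le_antisymm (h2.trans h3) h1
  have h6 : (matroid k L).Indep (Set.range u) :=
    (Matroid.indep_iff_eRk_eq_encard_of_finite (Set.finite_range u)).2 h5
  have h7 : Function.Injective u := by
    have : Set.InjOn u Set.univ := by
      apply (Set.finite_univ).injOn_of_encard_image_eq
      rw [Set.image_univ, h4, Set.encard_univ]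
      simp
    exact Set.injOn_univ.1 this
  rw [AI_iff_algebraicIndependent]
  rw [matroid_indep_iff] at h6
  exact AlgebraicIndependent.of_subtype_range h7 h6

/-- R3. -/
theorem snoc : stSnoc := by
  intro k L _ _ i n v x
  let _ : Algebra k L := i.toAlgebra
  have hi : i = algebraMap k L := rfl
  rw [hi, AI_iff_algebraicIndependent, AI_iff_algebraicIndependent, mem_clF_iff_isAlgebraic]
  have h := AlgebraicIndependent.option_iff (R := k) (x := v) (a := x)
  rw [Transcendental] at h
  rw [← h]
  rw [← algebraicIndependent_equiv (finSuccEquivLast (n := n))]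
  have : (fun o : Option (Fin n) => o.elim x v) ∘ (finSuccEquivLast (n := n)) =
      (Fin.snoc v x : Fin (n + 1) → L) := by
    funext j
    refine Fin.lastCases ?_ (fun j => ?_) j
    · simp
    · simp
  rw [this]

/-- R4. -/
theorem count : stCount := by
  intro k L _ _ _ i T hT
  have h1 : (Set.range i ∪ T).Countable := (Set.countable_range i).union hT
  have h2 : Countable (Subfield.closure (Set.range i ∪ T)) := by
    have h3 := Subfield.cardinalMk_closure_le_max (Set.range i ∪ T)
    rw [← Cardinal.mk_le_aleph0_iff]
    refine h3.trans (max_le ?_ le_rfl)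
    exact Cardinal.mk_le_aleph0_iff.2 h1
  have h4 := Algebraic.countable (Subfield.closure (Set.range i ∪ T)) L
  refine h4.mono fun x hx => ?_
  exact (mem_algebraicClosure_iff (F := Subfield.closure (Set.range i ∪ T)) (E := L)).1 hx

end MP_d2f638_ag.Stab
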