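import Pool.Agent.Lib.MP_d2f638_ag.Stab.StmtsA
import Pool.Agent.Lib.MP_d2f638_ag.Stab.CF
import Pool.Agent.Lib.MP_d2f638_ag.Stab.Rank
import Pool.Agent.Lib.MP_d2f638_ag.Stab.Cl

/-!
# A7: transport of the norm equation to the complex function field
-/

namespace MP_d2f638_ag.Stab.A7

open Polynomial

lemma exists_lift {K L N : Type} [Field K] [Field L] [Field N] (f : L →+* N) (Φ : K →+* N)
    (h : ∀ k, ∃ l, f l = Φ k) : ∃ φ : K →+* L, ∀ k, f (φ k) = Φ k := by
  choose g hg using h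
  let φ : K →+* L :=
    { toFun := g
      map_one' := f.injective (by rw [hg, map_one, map_one])
      map_mul' := fun a b => f.injective (by rw [hg, map_mul, map_mul, hg, hg])
      map_zero' := f.injective (by rw [hg, map_zero, map_zero])
      map_add' := fun a b => f.injective (by rw [hg, map_add, map_add, hg, hg]) }
  exact ⟨φ, hg⟩

lemma gen_induction {K : Type} [Field K] [Algebra ℝ K] {T : Set K}
    (hT : IntermediateField.adjoin ℝ T = ⊤) (S : Subfield K) (h1 : ∀ c, algebraMap ℝ K c ∈ S)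
    (h2 : T ⊆ S) (k : K) : k ∈ S := by
  let S' : IntermediateField ℝ K := S.toIntermediateField h1
  have h3 : IntermediateField.adjoin ℝ T ≤ S' := IntermediateField.adjoin_le_iff.2 h2
  rw [hT] at h3
  exact h3 (IntermediateField.mem_top)

lemma exists_hom_adjoin {K L : Type} [Field K] [Field L] [Algebra ℝ K] [Algebra ℝ L] {n : ℕ}
    (v : Fin n → K) (u : Fin n → L) (hv : AlgebraicIndependent ℝ v)
    (hu : AlgebraicIndependent ℝ u) :
    ∃ φ : IntermediateField.adjoin ℝ (Set.range v) →ₐ[ℝ] L,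
      ∀ j, φ ⟨v j, IntermediateField.subset_adjoin ℝ _ ⟨j, rfl⟩⟩ = u j := by
  let g : FractionRing (MvPolynomial (Fin n) ℝ) →ₐ[ℝ] L :=
    IsFractionRing.liftAlgHom (algebraicIndependent_iff_injective_aeval.1 hu)
  refine ⟨g.comp hv.aevalEquivField.symm.toAlgHom, fun j => ?_⟩
  have h1 : hv.aevalEquivField (algebraMap (MvPolynomial (Fin n) ℝ) _ (MvPolynomial.X j)) =
      ⟨v j, IntermediateField.subset_adjoin ℝ _ ⟨j, rfl⟩⟩ := by
    apply Subtype.ext
    rw [hv.aevalEquivField_algebraMap_apply_coe]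
    simp
  rw [← h1]
  show g (hv.aevalEquivField.symm (hv.aevalEquivField _)) = u j
  rw [AlgEquiv.symm_apply_apply]
  simp only [g, IsFractionRing.liftAlgHom_apply, IsFractionRing.lift_algebraMap]
  simp

lemma exists_emb {K L : Type} [Field K] [Field L] [Algebra ℝ K] (al be : ℝ) (t w z1 z2 : K)
    (hK : IsK al be t w z1 z2) (iL : ℝ →+* L) (t' w' z1' z2' : L)
    (hu : AI iL ![t', w', z1'])
    (he : z1' ^ 2 + z2' ^ 2 = Ff (iL al) (iL be) t' w') :
    ∃ φ : K →+* L, (∀ c, φ (algebraMap ℝ K c) = iL c) ∧ φ t = t' ∧ φ w = w' ∧ φ z1 = z1' ∧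
      (φ z2 = z2' ∨ φ z2 = -z2') := by
  obtain ⟨eqn, ind, gen⟩ := hK
  let algL : Algebra ℝ L := iL.toAlgebra
  have hiL : iL = algebraMap ℝ L := rfl
  have hu' : AlgebraicIndependent ℝ ![t', w', z1'] := by
    rw [← AI_iff_algebraicIndependent]
    exact hu
  set K0 := IntermediateField.adjoin ℝ (Set.range ![t, w, z1]) with hK0
  obtain ⟨φ0, hφ0⟩ := exists_hom_adjoin _ _ ind hu'
  let N := AlgebraicClosure L
  let f : L →+* N := algebraMap L N
  let Φ0 : K0 →+* N := f.comp (φ0 : K0 →+* L)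
  let algN : Algebra K0 N := Φ0.toAlgebra
  have ht0 : t ∈ K0 := IntermediateField.subset_adjoin ℝ _ ⟨0, rfl⟩
  have hw0 : w ∈ K0 := IntermediateField.subset_adjoin ℝ _ ⟨1, rfl⟩
  have hz0 : z1 ∈ K0 := IntermediateField.subset_adjoin ℝ _ ⟨2, rfl⟩
  have hc0 : ∀ c : ℝ, algebraMap ℝ K c ∈ K0 := fun c => K0.algebraMap_mem c
  have e1 : φ0 ⟨t, ht0⟩ = t' := hφ0 0
  have e2 : φ0 ⟨w, hw0⟩ = w' := hφ0 1
  have e3 : φ0 ⟨z1, hz0⟩ = z1' := hφ0 2
  have e4 : ∀ c : ℝ, φ0 ⟨algebraMap ℝ K c, hc0 c⟩ = iL c := by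
    intro c
    exact φ0.commutes c
  have halg : Algebra.IsAlgebraic K0 K := by
    refine ⟨fun k => ?_⟩
    have h := gen_induction gen (algebraicClosure K0 K).toSubfield ?_ ?_ k
    · exact mem_algebraicClosure_iff.1 h
    · intro c
      exact (algebraicClosure K0 K).algebraMap_mem (⟨algebraMap ℝ K c, hc0 c⟩ : K0)
    · have hm : ∀ x : K, x ∈ K0 → x ∈ (algebraicClosure K0 K).toSubfield := by
        intro x hx
        exact (algebraicClosure K0 K).algebraMap_mem (⟨x, hx⟩ : K0)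
      intro x hx
      simp only [Set.mem_insert_iff, Set.mem_singleton_iff] at hx
      rcases hx with rfl | rfl | rfl | rfl
      · exact hm _ ht0
      · exact hm _ hw0
      · exact hm _ hz0
      · show x ∈ algebraicClosure K0 K
        rw [mem_algebraicClosure_iff]
        have hz2 : x ^ 2 ∈ K0 := by
          have : x ^ 2 = Ff (algebraMap ℝ K al) (algebraMap ℝ K be) t w - z1 ^ 2 := by
            rw [← eqn]; ring
          rw [this]
          refine sub_mem ?_ (pow_mem hz0 _)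
          unfold Ff Qf Rf
          have := hc0 al
          have := hc0 be
          refine add_mem (mul_mem (mul_mem (add_mem ?_ ?_) (add_mem ?_ ?_)) (pow_mem ?_ _))
            (mul_mem (mul_mem (sub_mem ?_ ?_) (sub_mem ?_ ?_)) (sub_mem (sub_mem (pow_mem ?_ _)
              (pow_mem ?_ _)) (one_mem _))) <;> assumption
        refine ⟨X ^ 2 - C ⟨x ^ 2, hz2⟩, X_pow_sub_C_ne_zero two_pos _, ?_⟩
        simp [Polynomial.aeval_def]
  let Φ : K →ₐ[K0] N := IsAlgClosed.lift
  have hΦ0 : ∀ (x : K) (hx : x ∈ K0), Φ x = f (φ0 ⟨x, hx⟩) := by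
    intro x hx
    exact Φ.commutes ⟨x, hx⟩
  have hz2 : Φ z2 = f z2' ∨ Φ z2 = - f z2' := by
    have h1 : (Φ z2) ^ 2 = (f z2') ^ 2 := by
      have h2 := congrArg Φ eqn
      rw [map_add, map_pow, map_pow] at h2
      have h3 : Φ (Ff (algebraMap ℝ K al) (algebraMap ℝ K be) t w) =
          f (Ff (iL al) (iL be) t' w') := by
        have := map_Ff (Φ : K →+* N) (algebraMap ℝ K al) (algebraMap ℝ K be) t w
        rw [map_Ff f]
        refine this.trans ?_
        have a1 := hΦ0 _ (hc0 al)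
        have a2 := hΦ0 _ (hc0 be)
        have a3 := hΦ0 _ ht0
        have a4 := hΦ0 _ hw0
        rw [e4] at a1 a2
        rw [e1] at a3
        rw [e2] at a4
        show Ff (Φ _) (Φ _) (Φ _) (Φ _) = _
        rw [a1, a2, a3, a4]
      rw [h3, ← he, map_add, map_pow, map_pow, hΦ0 _ hz0, e3] at h2
      linear_combination h2
    exact sq_eq_sq_iff_eq_or_eq_neg.1 h1
  obtain ⟨φ, hφ⟩ := exists_lift f (Φ : K →+* N) (by
    intro k
    refine gen_induction gen (Subfield.comap (Φ : K →+* N) f.fieldRange) ?_ ?_ k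
    · intro c
      exact ⟨_, (hΦ0 _ (hc0 c)).symm⟩
    · intro x hx
      simp only [Set.mem_insert_iff, Set.mem_singleton_iff] at hx
      rcases hx with rfl | rfl | rfl | rfl
      · exact ⟨_, (hΦ0 _ ht0).symm⟩
      · exact ⟨_, (hΦ0 _ hw0).symm⟩
      · exact ⟨_, (hΦ0 _ hz0).symm⟩
      · rcases hz2 with h | h
        · exact ⟨z2', h.symm⟩
        · exact ⟨-z2', by rw [map_neg]; exact h.symm⟩)
  refine ⟨φ, fun c => ?_, ?_, ?_, ?_, ?_⟩
  · apply f.injective
    rw [hφ]
    exact (hΦ0 _ (hc0 c)).trans (by rw [e4])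
  · apply f.injective
    rw [hφ]
    exact (hΦ0 _ ht0).trans (by rw [e1])
  · apply f.injective
    rw [hφ]
    exact (hΦ0 _ hw0).trans (by rw [e2])
  · apply f.injective
    rw [hφ]
    exact (hΦ0 _ hz0).trans (by rw [e3])
  · rcases hz2 with h | h
    · left
      apply f.injective
      rw [hφ]
      exact h
    · right
      apply f.injective
      rw [hφ, map_neg]
      exact h

/-- The inclusion of the reals in `ℂ(t, w, z)`. -/
noncomputable def iL : ℝ →+* KC := cK.comp Complex.ofRealHom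

lemma iL_apply (c : ℝ) : iL c = cK (c : ℂ) := rfl

lemma zK_ne : zK ≠ 0 := by
  unfold zK
  rw [Ne, FaithfulSMul.algebraMap_eq_zero_iff]
  exact MvPolynomial.X_ne_zero 2

lemma AI_twz : AI iL ![tK, wK, zK] := by
  intro p hp h
  have h1 : MvPolynomial.eval₂ iL ![tK, wK, zK] p =
      algebraMap (MvPolynomial (Fin 3) ℂ) KC (MvPolynomial.map Complex.ofRealHom p) := by
    have h2 : (MvPolynomial.eval₂Hom iL ![tK, wK, zK]) =
        (algebraMap (MvPolynomial (Fin 3) ℂ) KC).comp (MvPolynomial.map Complex.ofRealHom) := by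
      apply MvPolynomial.ringHom_ext
      · intro c
        simp only [MvPolynomial.coe_eval₂Hom, MvPolynomial.eval₂_C, RingHom.comp_apply,
          MvPolynomial.map_C, iL, cK]
        rw [IsScalarTower.algebraMap_apply ℂ (MvPolynomial (Fin 3) ℂ) KC,
          MvPolynomial.algebraMap_eq]
      · intro j
        simp only [MvPolynomial.coe_eval₂Hom, MvPolynomial.eval₂_X, RingHom.comp_apply,
          MvPolynomial.map_X]
        fin_cases j <;> rfl
    exact DFunLike.congr_fun h2 p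
  rw [h1, FaithfulSMul.algebraMap_eq_zero_iff] at h
  have h3 := MvPolynomial.map_injective (σ := Fin 3) Complex.ofRealHom
    Complex.ofRealHom.injective
  exact hp (h3 (by rw [h, map_zero]))

section

variable (al be : ℝ)

/-- `F` -/
noncomputable def FK : KC := Ff (cK al) (cK be) tK wK

/-- `z₁` -/
noncomputable def z1K : KC := (zK + FK al be / zK) / 2

/-- `z₂` -/
noncomputable def z2K : KC := (zK - FK al be / zK) / (2 * cK Complex.I)

lemma cI_sq : cK Complex.I ^ 2 = -1 := by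
  rw [← map_pow, Complex.I_sq, map_neg, map_one]

lemma cI_ne : cK Complex.I ≠ 0 := by
  intro h
  have := cI_sq
  rw [h] at this
  simp at this

lemma eqn_K : z1K al be ^ 2 + z2K al be ^ 2 = FK al be := by
  have h1 := zK_ne
  have h2 := cI_ne
  have h3 := cI_sq
  unfold z1K z2K
  set F := FK al be
  set I' := cK Complex.I
  have h4 : ((zK - F / zK) / (2 * I')) ^ 2 = -((zK - F / zK) / 2) ^ 2 := by
    rw [div_pow, mul_pow, h3, div_pow]
    ring
  rw [h4]
  field_simp
  ring

lemma AI_K : AI iL ![tK, wK, z1K al be] := by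
  refine basis ℝ KC iL 3 ![tK, wK, zK] ![tK, wK, z1K al be] AI_twz ?_
  set T := Set.range ![tK, wK, z1K al be]
  have ht : tK ∈ clF iL T := mem_clF_of_mem ⟨0, rfl⟩
  have hw : wK ∈ clF iL T := mem_clF_of_mem ⟨1, rfl⟩
  have hz : z1K al be ∈ clF iL T := mem_clF_of_mem ⟨2, rfl⟩
  have ha : cK (al : ℂ) ∈ clF iL T := base_mem_clF al
  have hb : cK (be : ℂ) ∈ clF iL T := base_mem_clF be
  have hF : FK al be ∈ clF iL T := by
    unfold FK Ff Qf Rf
    refine add_mem (mul_mem (mul_mem (add_mem ?_ ?_) (add_mem ?_ ?_)) (pow_mem ?_ _))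
      (mul_mem (mul_mem (sub_mem ?_ ?_) (sub_mem ?_ ?_)) (sub_mem (sub_mem (pow_mem ?_ _)
        (pow_mem ?_ _)) (one_mem _))) <;> assumption
  have hz2 : zK ∈ clF iL T := by
    have h1 : zK - z1K al be ∈ clF iL T := by
      apply mem_clF_of_sq
      have h2 : (zK - z1K al be) ^ 2 = z1K al be ^ 2 - FK al be := by
        have h1 := zK_ne
        unfold z1K
        field_simp
        ring
      rw [h2]
      exact sub_mem (pow_mem hz _) hF
    have := add_mem h1 hz
    simpa using this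
  intro j
  fin_cases j
  · exact ht
  · exact hw
  · exact hz2

variable {al be} {s : KC →+* KC} (hs : IsS al be s)

include hs

lemma s_const (c : ℝ) : s (cK (c : ℂ)) = cK (c : ℂ) := by
  rw [hs.const, Complex.conj_ofReal]

lemma s_I : s (cK Complex.I) = -cK Complex.I := by
  rw [hs.const, Complex.conj_I, map_neg]

lemma s_F : s (FK al be) = FK al be := by
  unfold FK
  rw [map_Ff, s_const hs, s_const hs, hs.t, hs.w]

lemma F_ne : FK al be ≠ 0 := by
  intro h
  have h1 : s zK = 0 := by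
    rw [hs.z]
    show FK al be / zK = 0
    rw [h, zero_div]
  exact zK_ne ((map_eq_zero s).1 h1)

lemma s_Fz : s (FK al be / zK) = zK := by
  have h1 := zK_ne
  have h2 := F_ne hs
  rw [map_div₀, s_F hs, hs.z]
  show FK al be / (FK al be / zK) = zK
  field_simp

lemma s_z1 : s (z1K al be) = z1K al be := by
  unfold z1K
  rw [map_div₀, map_add, s_Fz hs, hs.z, map_ofNat]
  show (FK al be / zK + zK) / 2 = _
  ring

lemma s_z2 : s (z2K al be) = z2K al be := by
  unfold z2K
  rw [map_div₀, map_sub, s_Fz hs, hs.z, map_mul, map_ofNat, s_I hs]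
  show (FK al be / zK - zK) / (2 * -cK Complex.I) = _
  have h2 := cI_ne
  field_simp
  ring

end

/-- The norm equation over `K` in terms of polynomials. -/
lemma clear {K M : Type} [Field K] [CharZero K] [Field M] {a b t : K}
    {iM : K →+* M} {x y : M} (ha : a ^ 2 ≠ 0) (h : IsCF iM a x y) (G : K) (v : Fin 4 → M)
    (hv : iM G * (x - iM t) = nf (Qf (iM a) (iM b) x) v) :
    ∃ (r : K[X]) (α γ : Fin 4 → K[X]), r ≠ 0 ∧
      C G * (X - C t) * r ^ 2 = α 0 ^ 2 + α 1 ^ 2 + (γ 0 ^ 2 + γ 1 ^ 2) * delta (C a) X -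
        Qf (C a) (C b) X * (α 2 ^ 2 + α 3 ^ 2 + (γ 2 ^ 2 + γ 3 ^ 2) * delta (C a) X) ∧
      α 0 * γ 0 + α 1 * γ 1 = Qf (C a) (C b) X * (α 2 * γ 2 + α 3 * γ 3) := by
  obtain ⟨hy, hx, hgen⟩ := h
  choose P Q R hR hrep using fun j => hgen (v j)
  let r : K[X] := ∏ j, R j
  have hr : r ≠ 0 := Finset.prod_ne_zero_iff.2 fun j _ => hR j
  let α : Fin 4 → K[X] := fun j => P j * ∏ i ∈ Finset.univ.erase j, R i
  let γ : Fin 4 → K[X] := fun j => Q j * ∏ i ∈ Finset.univ.erase j, R i
  have hj : ∀ j, v j * r.eval₂ iM x = (α j).eval₂ iM x + (γ j).eval₂ iM x * y := by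
    intro j
    have h1 : r = R j * ∏ i ∈ Finset.univ.erase j, R i :=
      (Finset.mul_prod_erase _ _ (Finset.mem_univ j)).symm
    rw [h1]
    simp only [α, γ, eval₂_mul]
    linear_combination ((∏ i ∈ Finset.univ.erase j, R i).eval₂ iM x) * hrep j
  have hQ : (Qf (C a) (C b) (X : K[X])).eval₂ iM x = Qf (iM a) (iM b) x := by
    have := map_Qf (eval₂RingHom iM x) (C a) (C b) X
    simpa using this
  have hD := eval₂_delta iM a x
  have key : (C G * (X - C t) * r ^ 2 - (α 0 ^ 2 + α 1 ^ 2 + (γ 0 ^ 2 + γ 1 ^ 2) * delta (C a) X -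
        Qf (C a) (C b) X * (α 2 ^ 2 + α 3 ^ 2 + (γ 2 ^ 2 + γ 3 ^ 2) * delta (C a) X))).eval₂ iM x +
      (2 * (Qf (C a) (C b) X * (α 2 * γ 2 + α 3 * γ 3) - (α 0 * γ 0 + α 1 * γ 1))).eval₂ iM x
        * y = 0 := by
    have h0 := hj 0
    have h1 := hj 1
    have h2 := hj 2
    have h3 := hj 3
    unfold nf at hv
    have e2 : (2 : K[X]).eval₂ iM x = 2 := by
      have := map_ofNat (eval₂RingHom iM x) 2
      simpa using this
    simp only [eval₂_sub, eval₂_add, eval₂_mul, eval₂_pow, eval₂_C, eval₂_X, hQ, hD, ← hy, e2]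
    linear_combination (r.eval₂ iM x) ^ 2 * hv +
      (v 0 * r.eval₂ iM x + ((α 0).eval₂ iM x + (γ 0).eval₂ iM x * y)) * h0 +
      (v 1 * r.eval₂ iM x + ((α 1).eval₂ iM x + (γ 1).eval₂ iM x * y)) * h1 -
      Qf (iM a) (iM b) x *
      ((v 2 * r.eval₂ iM x + ((α 2).eval₂ iM x + (γ 2).eval₂ iM x * y)) * h2 +
      (v 3 * r.eval₂ iM x + ((α 3).eval₂ iM x + (γ 3).eval₂ iM x * y)) * h3)
  obtain ⟨k1, k2⟩ := lin_ind ha hx hy key
  refine ⟨r, α, γ, hr, sub_eq_zero.1 k1, ?_⟩
  have h2 : (2 : K[X]) ≠ 0 := two_ne_zero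
  exact (sub_eq_zero.1 ((mul_eq_zero.1 k2).resolve_left h2)).symm

end MP_d2f638_ag.Stab.A7

namespace MP_d2f638_ag.Stab

open Polynomial A7

theorem toC : stToC := by
  intro K M _ _ _ al be t w z1 z2 iM x y s hbe hal hab hK hCF hs G v hG hv
  have hcz : CharZero K := charZero_of_injective_algebraMap (algebraMap ℝ K).injective
  have ha : (algebraMap ℝ K al) ^ 2 ≠ 0 := by
    apply pow_ne_zero
    rw [Ne, map_eq_zero]
    linarith
  obtain ⟨r, α, γ, hr, k1, k2⟩ := clear ha hCF G v hv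
  obtain ⟨φ, hc, ht, hw, hz1, hz2⟩ := exists_emb al be t w z1 z2 hK iL tK wK (z1K al be)
    (z2K al be) (AI_K al be) (eqn_K al be)
  have hsφ : ∀ k, s (φ k) = φ k := by
    intro k
    refine gen_induction hK.gen (RingHom.eqLocusField (s.comp φ) φ) ?_ ?_ k
    · intro c
      show s (φ _) = φ _
      rw [hc, iL_apply, s_const hs]
    · intro x hx
      show s (φ x) = φ x
      simp only [Set.mem_insert_iff, Set.mem_singleton_iff] at hx
      rcases hx with rfl | rfl | rfl | rfl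
      · rw [ht, hs.t]
      · rw [hw, hs.w]
      · rw [hz1, s_z1 hs]
      · rcases hz2 with h | h
        · rw [h, s_z2 hs]
        · rw [h, map_neg, s_z2 hs]
  have hpoly : ∀ p : K[X], (p.map φ).map s = p.map φ := by
    intro p
    ext n
    rw [coeff_map, coeff_map, hsφ]
  have hI : C (cK Complex.I) ^ 2 = (-1 : KC[X]) := by
    rw [← C_pow, cI_sq, C_neg, C_1]
  have m1 : ∀ p q : K[X], (p.map φ + C (cK Complex.I) * q.map φ).map s =
      p.map φ - C (cK Complex.I) * q.map φ := by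
    intro p q
    rw [Polynomial.map_add, Polynomial.map_mul, hpoly, hpoly, map_C, s_I hs, C_neg]
    ring
  have hQ : (Qf (C (algebraMap ℝ K al)) (C (algebraMap ℝ K be)) (X : K[X])).map φ =
      Qf (C (cK al)) (C (cK be)) X := by
    have := map_Qf (mapRingHom φ) (C (algebraMap ℝ K al)) (C (algebraMap ℝ K be)) X
    simpa [hc, iL_apply] using this
  have hD : (delta (C (algebraMap ℝ K al)) (X : K[X])).map φ =
      delta (C (cK al)) X := by
    have := map_delta (mapRingHom φ) (C (algebraMap ℝ K al)) X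
    simpa [hc, iL_apply] using this
  have k1' := congrArg (Polynomial.map φ) k1
  have k2' := congrArg (Polynomial.map φ) k2
  simp only [Polynomial.map_mul, Polynomial.map_add, Polynomial.map_sub, Polynomial.map_pow,
    map_C, map_X, hQ, hD, ht] at k1' k2'
  exact ⟨{
    G := φ G
    d := r.map φ
    a1 := (α 0).map φ + C (cK Complex.I) * (α 1).map φ
    b1 := (γ 0).map φ + C (cK Complex.I) * (γ 1).map φ
    a2 := (α 2).map φ + C (cK Complex.I) * (α 3).map φ
    b2 := (γ 2).map φ + C (cK Complex.I) * (γ 3).map φ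
    G0 := (map_ne_zero φ).2 hG
    sG := hsφ G
    d0 := (Polynomial.map_ne_zero_iff φ.injective).2 hr
    sd := hpoly r
    id1 := by
      rw [m1, m1, m1, m1, k1']
      linear_combination (-((α 1).map φ) ^ 2 - ((γ 1).map φ) ^ 2 * delta (C (cK al)) X +
        Qf (C (cK al)) (C (cK be)) X * (((α 3).map φ) ^ 2 +
          ((γ 3).map φ) ^ 2 * delta (C (cK al)) X)) * (-hI)
    id2 := by
      rw [m1, m1, m1, m1]
      linear_combination 2 * k2' - 2 * ((α 1).map φ * (γ 1).map φ -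
        Qf (C (cK al)) (C (cK be)) X * ((α 3).map φ * (γ 3).map φ)) * hI }⟩

end MP_d2f638_ag.Stab
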