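import Pool.Agent.Lib.MP_d2f638_ag.Stab.StmtsA

/-!
# A2. The value at a real point
-/

namespace MP_d2f638_ag.Stab

open Polynomial

namespace ValAux

/-- A nonnegative quadratic polynomial with positive leading coefficient is a sum of two
squares. -/
lemma quad_sq {c p q : ℝ} (hc : 0 < c) (h : p ^ 2 ≤ 4 * c * q) :
    ∃ f g : ℝ[X], C c * X ^ 2 + C p * X + C q = f ^ 2 + g ^ 2 := by
  refine ⟨C (Real.sqrt c) * (X + C (p / (2 * c))), C (Real.sqrt (q - p ^ 2 / (4 * c))), ?_⟩
  have h1 : Real.sqrt c ^ 2 = c := Real.sq_sqrt hc.le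
  have h2 : Real.sqrt (q - p ^ 2 / (4 * c)) ^ 2 = q - p ^ 2 / (4 * c) := by
    refine Real.sq_sqrt ?_
    rw [sub_nonneg, div_le_iff₀ (by linarith)]
    linarith
  have h3 : c * (2 * (p / (2 * c))) = p := by
    field_simp
  have h4 : c * (p / (2 * c)) ^ 2 = p ^ 2 / (4 * c) := by
    field_simp
    ring
  rw [mul_pow, ← C_pow, ← C_pow, h1, h2]
  have h5 : (C c : ℝ[X]) * (X + C (p / (2 * c))) ^ 2 =
      C c * X ^ 2 + C (c * (2 * (p / (2 * c)))) * X + C (c * (p / (2 * c)) ^ 2) := by
    simp only [C_mul, C_pow]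
    rw [show (C (2 : ℝ) : ℝ[X]) = 2 from rfl]
    ring
  rw [h5, h3, h4, C_sub]
  ring

end ValAux

open ValAux in
theorem val : stVal := by
  intro al be t w z1 z2 hbe hal h
  have hd : 0 < al - be := by linarith
  -- `t` is not in the open interval `(-al, -be)`
  have ht : t ≤ -al ∨ -be ≤ t := by
    by_contra hcon
    push Not at hcon
    obtain ⟨h1, h2⟩ := hcon
    have hQ : Qf al be t < 0 := by
      unfold Qf
      exact mul_neg_of_pos_of_neg (by linarith) (by linarith)
    have hR : Rf al be t < 0 := by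
      unfold Rf
      refine mul_neg_of_pos_of_neg (mul_pos_of_neg_of_neg (by linarith) (by linarith)) ?_
      nlinarith
    have h3 : Ff al be t w < 0 := by
      unfold Ff
      nlinarith [mul_nonneg (neg_nonneg.mpr hQ.le) (sq_nonneg w)]
    nlinarith [sq_nonneg z1, sq_nonneg z2]
  rcases ht with ht | ht
  · -- `t ≤ -al`
    set σ : ℝ := -(2 * t + al + be) / (al - be) ^ 2 with hσ
    have hσ0 : 0 < σ := by
      rw [hσ]
      exact div_pos (by linarith) (by positivity)
    have hσ1 : σ * (al - be) ^ 2 = -(2 * t + al + be) := by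
      rw [hσ]
      field_simp
    have h5 : 1 ≤ σ * (al - be) := by
      refine le_of_mul_le_mul_right ?_ hd
      nlinarith
    have h6 : 1 ≤ σ * -(2 * t + al + be) := by
      refine h5.trans (mul_le_mul_of_nonneg_left (by linarith) hσ0.le)
    have h7 : (1 + σ * (al + be)) ^ 2 - 4 * σ * (σ * (al * be) - t) =
        1 + 2 * (σ * (2 * t + al + be)) + σ * (σ * (al - be) ^ 2) := by ring
    rw [hσ1] at h7
    clear_value σ
    obtain ⟨f, g, hfg⟩ := quad_sq (c := σ) (p := 1 + σ * (al + be)) (q := σ * (al * be) - t) hσ0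
      (by linarith)
    refine ⟨σ, 1, f, g, hσ0.le, Or.inl rfl, ?_⟩
    rw [← hfg]
    simp only [Qf, C_add, C_sub, C_mul, C_1]
    ring
  · set σ : ℝ := (2 * t + al + be) / (al - be) ^ 2 with hσ
    have hσ0 : 0 < σ := by
      rw [hσ]
      exact div_pos (by linarith) (by positivity)
    have hσ1 : σ * (al - be) ^ 2 = (2 * t + al + be) := by
      rw [hσ]
      field_simp
    have h5 : 1 ≤ σ * (al - be) := by
      refine le_of_mul_le_mul_right ?_ hd
      nlinarith
    have h6 : 1 ≤ σ * (2 * t + al + be) := by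
      refine h5.trans (mul_le_mul_of_nonneg_left (by linarith) hσ0.le)
    have h7 : (σ * (al + be) - 1) ^ 2 - 4 * σ * (σ * (al * be) + t) =
        1 - 2 * (σ * (2 * t + al + be)) + σ * (σ * (al - be) ^ 2) := by ring
    rw [hσ1] at h7
    clear_value σ
    obtain ⟨f, g, hfg⟩ := quad_sq (c := σ) (p := σ * (al + be) - 1) (q := σ * (al * be) + t) hσ0
      (by linarith)
    refine ⟨σ, -1, f, g, hσ0.le, Or.inr rfl, ?_⟩
    rw [← hfg]
    simp only [Qf, C_add, C_sub, C_mul, C_1, C_neg]
    ring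

end MP_d2f638_ag.Stab
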