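import Pool.Agent.Lib.MP_d2f638_ag.Stab.AsmB
import Pool.Agent.Lib.MP_d2f638_ag.Stab.Final
import Pool.Agent.Lib.MP_d2f638_ag.Stab.NP
import Pool.Agent.Lib.MP_d2f638_ag.Stab.Val
import Pool.Agent.Lib.MP_d2f638_ag.Stab.GLine
import Pool.Agent.Lib.MP_d2f638_ag.Stab.Anis
import Pool.Agent.Lib.MP_d2f638_ag.Stab.Spec
import Pool.Agent.Lib.MP_d2f638_ag.Stab.Sex
import Pool.Agent.Lib.MP_d2f638_ag.Stab.ToC
import Pool.Agent.Lib.MP_d2f638_ag.Stab.Inf
import Pool.Agent.Lib.MP_d2f638_ag.Stab.Div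
import Pool.Agent.Lib.MP_d2f638_ag.Stab.Res
import Pool.Agent.Lib.MP_d2f638_ag.Stab.EP

/-!
# Assembly
-/

namespace MP_d2f638_ag.Stab

/-- The function field of the threefold is not stably rational. -/
theorem not_stably (hConf : stConf) (hDesc : stDesc)
    {al be : ℝ} (hbe : 0 < be) (hba : be < al) (hrel : be ^ 2 = al ^ 2 - 1)
    (htr : Transcendental ℚ al) {K : Type} [Field K] [Algebra ℝ K] {t w z1 z2 : K}
    (hK : IsK al be t w z1 z2) (m N : ℕ) :
    IsEmpty (FractionRing (MvPolynomial (Fin m) K) ≃ₐ[ℝ] RatField N) := by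
  constructor
  intro Φ
  exact firstHalf NP val (gLine NP val) (anis cfhom snoc) spec sex toC inf div res ep hDesc cfex
    (b_st hConf) hbe hba hrel htr hK m N Φ

end MP_d2f638_ag.Stab
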