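import Pool.Agent.Lib.MP_d2f638_ag.Stab.Stmts

/-!
# There are no non-constant points over `F(t)`
-/

namespace MP_d2f638_ag.Stab

open Polynomial UniqueFactorizationMonoid

namespace C1

variable {F : Type} [Field F]

/-- Polynomials `N`, `D` with `D` a square and `N (N - D) (N + D)` a square are constant. -/
lemma core [CharZero F] {N q r : F[X]} (hN : N ≠ 0) (hq : q ≠ 0) (hr : r ≠ 0)
    (hco : IsCoprime N (q ^ 2)) (h : r ^ 2 = N ^ 3 - N * (q ^ 2) ^ 2) :
    derivative N = 0 ∧ derivative q = 0 := by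
  classical
  have hD2 : (q ^ 2) ^ 2 ≠ 0 := pow_ne_zero _ (pow_ne_zero _ hq)
  have hfac : N * (N ^ 2 - (q ^ 2) ^ 2) = r ^ 2 := by rw [h]; ring
  have hco2 : IsCoprime N (N ^ 2 - (q ^ 2) ^ 2) := by
    have h1 : IsCoprime N (-(q ^ 2) ^ 2) := (hco.pow_right (n := 2)).neg_right
    have h2 := h1.add_mul_left_right N
    have e : -(q ^ 2) ^ 2 + N * N = N ^ 2 - (q ^ 2) ^ 2 := by ring
    rwa [e] at h2
  obtain ⟨a, ha⟩ := exists_associated_pow_of_mul_eq_pow' hco2 hfac
  obtain ⟨e, he⟩ := exists_associated_pow_of_mul_eq_pow' hco2.symm (by rw [mul_comm]; exact hfac)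
  have hM : N ^ 2 - (q ^ 2) ^ 2 ≠ 0 := by
    intro h0
    rw [h0, mul_zero] at hfac
    exact hr (pow_eq_zero_iff (two_ne_zero) |>.1 hfac.symm)
  have hda : N.natDegree = 2 * a.natDegree := by
    have h1 := natDegree_eq_of_degree_eq (degree_eq_degree_of_associated ha)
    rw [natDegree_pow] at h1
    exact h1.symm
  have hde : (N ^ 2 - (q ^ 2) ^ 2).natDegree = 2 * e.natDegree := by
    have h1 := natDegree_eq_of_degree_eq (degree_eq_degree_of_associated he)
    rw [natDegree_pow] at h1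
    exact h1.symm
  have hco3 : IsCoprime (N ^ 2) (-(q ^ 2) ^ 2) := ((hco.pow_right (n := 2)).neg_right).pow_left
  have hsum : N ^ 2 + -(q ^ 2) ^ 2 + -(N ^ 2 - (q ^ 2) ^ 2) = 0 := by ring
  have hne : N ^ 2 * -(q ^ 2) ^ 2 * -(N ^ 2 - (q ^ 2) ^ 2) ≠ 0 :=
    mul_ne_zero (mul_ne_zero (pow_ne_zero _ hN) (neg_ne_zero.2 hD2)) (neg_ne_zero.2 hM)
  have hNa : N ∣ a ^ 2 := ha.symm.dvd
  have hMe : N ^ 2 - (q ^ 2) ^ 2 ∣ e ^ 2 := he.symm.dvd
  have hrad : radical (N ^ 2 * -(q ^ 2) ^ 2 * -(N ^ 2 - (q ^ 2) ^ 2)) ∣ a * q * e := by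
    refine (exists_dvd_pow_iff_radical_dvd hne).1 ⟨4, ?_⟩
    have h1 : N ^ 2 ∣ a ^ 4 := by
      have := pow_dvd_pow_of_dvd hNa 2
      rwa [← pow_mul] at this
    have h2 : -(q ^ 2) ^ 2 ∣ q ^ 4 := ⟨-1, by ring⟩
    have h3 : -(N ^ 2 - (q ^ 2) ^ 2) ∣ e ^ 4 := by
      rw [neg_dvd]
      exact hMe.trans ⟨e ^ 2, by ring⟩
    have h4 := mul_dvd_mul (mul_dvd_mul h1 h2) h3
    rwa [← mul_pow, ← mul_pow] at h4
  have ha0 : a ≠ 0 := by
    rintro rfl
    apply hN
    have := ha.dvd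
    rw [zero_pow two_ne_zero] at this
    exact zero_dvd_iff.1 this
  have he0 : e ≠ 0 := by
    rintro rfl
    apply hM
    have := he.dvd
    rw [zero_pow two_ne_zero] at this
    exact zero_dvd_iff.1 this
  have hdeg : (radical (N ^ 2 * -(q ^ 2) ^ 2 * -(N ^ 2 - (q ^ 2) ^ 2))).natDegree ≤
      a.natDegree + q.natDegree + e.natDegree := by
    refine (natDegree_le_of_dvd hrad (mul_ne_zero (mul_ne_zero ha0 hq) he0)).trans ?_
    rw [natDegree_mul (mul_ne_zero ha0 hq) he0, natDegree_mul ha0 hq]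
  have hle : 2 * e.natDegree ≤ max (4 * a.natDegree) (4 * q.natDegree) := by
    rw [← hde]
    refine (natDegree_sub_le _ _).trans ?_
    rw [natDegree_pow, natDegree_pow, natDegree_pow, hda]
    refine max_le_max ?_ ?_ <;> apply le_of_eq <;> ring
  rcases Polynomial.abc (pow_ne_zero 2 hN) (neg_ne_zero.2 hD2) (neg_ne_zero.2 hM) hco3 hsum with
    ⟨h1, h2, -⟩ | ⟨h1, h2, -⟩
  · exfalso
    rw [natDegree_pow, hda] at h1
    rw [natDegree_neg, natDegree_pow, natDegree_pow] at h2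
    rcases le_total a.natDegree q.natDegree with h3 | h3
    · rw [max_eq_right (by omega)] at hle
      omega
    · rw [max_eq_left (by omega)] at hle
      omega
  · constructor
    · rw [derivative_pow] at h1
      rcases mul_eq_zero.1 h1 with h3 | h3
      · exfalso
        rcases mul_eq_zero.1 h3 with h4 | h4
        · simp at h4
        · exact pow_ne_zero _ hN h4
      · exact h3
    · rw [derivative_neg, neg_eq_zero, ← pow_mul, derivative_pow] at h2
      rcases mul_eq_zero.1 h2 with h3 | h3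
      · exfalso
        rcases mul_eq_zero.1 h3 with h4 | h4
        · simp at h4
        · exact pow_ne_zero _ hq h4
      · exact h3

lemma exists_C_of_derivative [CharZero F] {p : F[X]} (h : derivative p = 0) : ∃ c, p = C c := by
  have h1 := derivative_eq_zero.1 h
  exact ⟨_, eq_C_of_natDegree_eq_zero h1⟩

/-- The coordinates of a point over `F(t)` are constant. -/
lemma const [CharZero F] (u y : RatFunc F) (h : y ^ 2 = u ^ 3 - u) :
    ∃ u0 y0 : F, u = RatFunc.C u0 ∧ y = RatFunc.C y0 := by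
  classical
  by_cases hy : y = 0
  · subst hy
    have h1 : u * (u - 1) * (u + 1) = 0 := by linear_combination -h
    rcases mul_eq_zero.1 h1 with h2 | h2
    · rcases mul_eq_zero.1 h2 with h3 | h3
      · exact ⟨0, 0, by rw [h3, map_zero], by rw [map_zero]⟩
      · exact ⟨1, 0, by rw [map_one]; linear_combination h3, by rw [map_zero]⟩
    · exact ⟨-1, 0, by rw [map_neg, map_one]; linear_combination h2, by rw [map_zero]⟩
  set N := u.num with hNd
  set D := u.denom with hDd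
  set N' := y.num with hNd'
  set D' := y.denom with hDd'
  have hD : D ≠ 0 := u.denom_ne_zero
  have hD' : D' ≠ 0 := y.denom_ne_zero
  have hDm : D.Monic := u.monic_denom
  have hDm' : D'.Monic := y.monic_denom
  have hinj : Function.Injective (algebraMap F[X] (RatFunc F)) := RatFunc.algebraMap_injective F
  have hu : algebraMap F[X] (RatFunc F) N = u * algebraMap F[X] (RatFunc F) D := by
    have h1 := u.num_div_denom
    have h2 : algebraMap F[X] (RatFunc F) D ≠ 0 := by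
      rw [Ne, map_eq_zero_iff _ hinj]
      exact hD
    rw [eq_comm, ← eq_div_iff h2]
    exact h1.symm
  have hyy : algebraMap F[X] (RatFunc F) N' = y * algebraMap F[X] (RatFunc F) D' := by
    have h1 := y.num_div_denom
    have h2 : algebraMap F[X] (RatFunc F) D' ≠ 0 := by
      rw [Ne, map_eq_zero_iff _ hinj]
      exact hD'
    rw [eq_comm, ← eq_div_iff h2]
    exact h1.symm
  have hcoN : IsCoprime N D := u.isCoprime_num_denom
  have hcoN' : IsCoprime N' D' := y.isCoprime_num_denom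
  have heq : N' ^ 2 * D ^ 3 = D' ^ 2 * (N ^ 3 - N * D ^ 2) := by
    apply hinj
    simp only [map_mul, map_pow, map_sub]
    rw [hu, hyy]
    linear_combination (algebraMap F[X] (RatFunc F) D' ^ 2 * algebraMap F[X] (RatFunc F) D ^ 3) * h
  have hco1 : IsCoprime (N ^ 3 - N * D ^ 2) D := by
    have h1 : IsCoprime (N ^ 3) D := hcoN.pow_left
    have h2 := h1.add_mul_left_left (-(N * D))
    have e : N ^ 3 + D * -(N * D) = N ^ 3 - N * D ^ 2 := by ring
    rwa [e] at h2
  have hd1 : D ^ 3 ∣ D' ^ 2 := by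
    have h1 : D ^ 3 ∣ D' ^ 2 * (N ^ 3 - N * D ^ 2) := ⟨N' ^ 2, by rw [← heq]; ring⟩
    exact (hco1.symm.pow_left (m := 3)).dvd_of_dvd_mul_right h1
  have hd2 : D' ^ 2 ∣ D ^ 3 := by
    have h1 : D' ^ 2 ∣ N' ^ 2 * D ^ 3 := ⟨_, heq⟩
    exact ((hcoN'.symm).pow (m := 2) (n := 2)).dvd_of_dvd_mul_left h1
  have hDD : D ^ 3 = D' ^ 2 :=
    eq_of_monic_of_associated (hDm.pow 3) (hDm'.pow 2) (associated_of_dvd_dvd hd1 hd2)
  have hdv : D ∣ D' := by
    have h1 : D ^ 2 ∣ D' ^ 2 := (pow_dvd_pow D (by norm_num : 2 ≤ 3)).trans hd1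
    exact (UniqueFactorizationMonoid.pow_dvd_pow_iff_dvd two_ne_zero).1 h1
  obtain ⟨q, hq⟩ := hdv
  have hDq : D = q ^ 2 := by
    have h1 : D ^ 2 * D = D ^ 2 * q ^ 2 := by
      calc D ^ 2 * D = D ^ 3 := by ring
        _ = D' ^ 2 := hDD
        _ = D ^ 2 * q ^ 2 := by rw [hq]; ring
    exact mul_left_cancel₀ (pow_ne_zero 2 hD) h1
  have hq0 : q ≠ 0 := by
    rintro rfl
    rw [mul_zero] at hq
    exact hD' hq
  have hN0 : N' ≠ 0 := by
    intro h0
    rw [h0, map_zero] at hyy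
    rcases mul_eq_zero.1 hyy.symm with h1 | h1
    · exact hy h1
    · rw [map_eq_zero_iff _ hinj] at h1
      exact hD' h1
  have heq2 : N' ^ 2 = N ^ 3 - N * (q ^ 2) ^ 2 := by
    have h1 : D ^ 3 * N' ^ 2 = D ^ 3 * (N ^ 3 - N * D ^ 2) := by
      rw [mul_comm, heq, hDD]
    rw [← hDq]
    exact mul_left_cancel₀ (pow_ne_zero 3 hD) h1
  have hNN : N ≠ 0 := by
    intro h0
    rw [h0] at heq2
    apply hN0
    have h1 : N' ^ 2 = 0 := by rw [heq2]; ring
    exact pow_eq_zero_iff two_ne_zero |>.1 h1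
  obtain ⟨hc1, hc2⟩ := core hNN hq0 hN0 (by rw [← hDq]; exact hcoN) heq2
  obtain ⟨n0, hn0⟩ := exists_C_of_derivative hc1
  obtain ⟨q0, hq0'⟩ := exists_C_of_derivative hc2
  have hc3 : derivative N' = 0 := by
    have h1 := congrArg derivative heq2
    rw [hn0, hq0'] at h1
    simp only [derivative_pow, derivative_sub, derivative_mul, derivative_C, mul_zero, zero_mul,
      add_zero, sub_zero] at h1
    rcases mul_eq_zero.1 h1 with h3 | h3
    · exfalso
      rcases mul_eq_zero.1 h3 with h4 | h4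
      · simp at h4
      · exact pow_ne_zero _ hN0 h4
    · exact h3
  obtain ⟨n1, hn1⟩ := exists_C_of_derivative hc3
  have hDc : D = C (q0 ^ 2) := by rw [hDq, hq0', C_pow]
  have hDc' : D' = C (q0 ^ 3) := by rw [hq, hDc, hq0', ← C_mul]; congr 1; ring
  refine ⟨n0 / q0 ^ 2, n1 / q0 ^ 3, ?_, ?_⟩
  · have h1 := u.num_div_denom
    rw [← hNd, ← hDd, hn0, hDc, RatFunc.algebraMap_C, RatFunc.algebraMap_C] at h1
    rw [map_div₀]
    exact h1.symm
  · have h1 := y.num_div_denom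
    rw [← hNd', ← hDd', hn1, hDc', RatFunc.algebraMap_C, RatFunc.algebraMap_C] at h1
    rw [map_div₀]
    exact h1.symm

end C1

theorem c1 : stC1 := by
  intro F _ _ P
  rcases exists_pt P with rfl | ⟨u, y, h, rfl⟩
  · exact ⟨0, (map_zero _).symm⟩
  · obtain ⟨u0, y0, rfl, rfl⟩ := C1.const u y h
    obtain ⟨h1, h2⟩ := exists_of_coord (RatFunc.C (K := F)) h
    exact ⟨pt u0 y0, h2.symm⟩

end MP_d2f638_ag.Stab
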