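import Pool.Agent.Lib.MP_d2f638_ag.Stab.DegD

/-!
# Module D5: the degeneration of a curve with three points into a section and a line
-/

namespace MP_d2f638_ag.Stab

open Polynomial

open DegAux

namespace DegAux

lemma nd_q {L : Type} [Field L] (x y : L) : ((X - C x) * (X - C y)).natDegree ≤ 2 :=
  natDegree_mul_le_of_le (m := 1) (n := 1) (natDegree_X_sub_C x).le (natDegree_X_sub_C y).le

lemma nd_W {L : Type} [Field L] (c c' c'' x y z : L) :
    (C c * ((X - C y) * (X - C z)) + C c' * ((X - C x) * (X - C z)) +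
      C c'' * ((X - C x) * (X - C y))).natDegree ≤ 2 :=
  natDegree_add_le_of_degree_le (natDegree_add_le_of_degree_le
    ((natDegree_C_mul_le _ _).trans (nd_q _ _)) ((natDegree_C_mul_le _ _).trans (nd_q _ _)))
    ((natDegree_C_mul_le _ _).trans (nd_q _ _))

lemma nd_Z {L : Type} [Field L] (c x y z : L) :
    (C c * ((X - C x) * (X - C y) * (X - C z))).natDegree ≤ 3 :=
  (natDegree_C_mul_le _ _).trans
    (natDegree_mul_le_of_le (m := 2) (n := 1) (nd_q x y) (natDegree_X_sub_C z).le)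

lemma fr {F : Type} [Field F] (ws y ρ : F) (h : y - 1 ≠ 0) :
    (ws * y - ρ) / (y - 1) - ρ = (ws - ρ) * y / (y - 1) := by
  field_simp
  ring

end DegAux

/-- D5. The degeneration of a curve with three points into a section and a line. -/
theorem deg (hRoots : stRoots) (hSums : stSums) (hEvRed : stEvRed) (hPlace : stPlace)
    (hMob : stMob) (hMult : stMult) (hSecDeg : stSecDeg) (hSecMult : stSecMult)
    (hLineMult : stLineMult) (hSecGen : stSecGen) (hLineGen : stLineGen)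
    (hBasis : stBasis) : stDeg := by
  intro k _ _ _ i a b A r1 ρ1 r3 ρ3 r5 ρ5 μ S0 hb ha ha4 hF1 hF3 hF5 hAI hS
  classical
  obtain ⟨L, _, _, _, J, P, ε, hεT, hεO, hε0⟩ := hPlace
  -- the parameters
  obtain ⟨ws, hws⟩ : ∃ ws, ws = ρ1 * (r5 - r3) / (r1 - r3) + ρ3 * (r5 - r1) / (r3 - r1) :=
    ⟨_, rfl⟩
  obtain ⟨ν, hν⟩ : ∃ ν, ν = μ * (r5 - r1) * (r5 - r3) := ⟨_, rfl⟩
  obtain ⟨hI1, hI2, hI3⟩ := facts hBasis i a b r1 ρ1 r3 ρ3 r5 ρ5 μ hb ha hF1 hF3 hF5 hAI hws hν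
  rw [← hws, ← hν]
  have h13 : r1 ≠ r3 := AI_sub_ne i hAI (p := 0) (q := 1) (by decide)
  have h15 : r1 ≠ r5 := AI_sub_ne i hAI (p := 0) (q := 2) (by decide)
  have h35 : r3 ≠ r5 := AI_sub_ne i hAI (p := 1) (q := 2) (by decide)
  have hμ : μ ≠ 0 := AI_ne_zero i hAI 3
  have hwne : ws - ρ5 ≠ 0 := AI_ne_zero i hI2 1
  have hwne' : ws ≠ ρ5 := sub_ne_zero.1 hwne
  have hνne : ν ≠ 0 := AI_ne_zero i hI1 2
  have hκne : ν / (ws - ρ5) ≠ 0 := div_ne_zero hνne hwne
  have hε : ε ≠ 0 := by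
    intro h
    have := hεT X X_ne_zero
    rw [eval₂_X] at this
    exact this h
  have hπ : A.π ≠ 0 := A.irr.ne_zero
  obtain ⟨m0, hm0⟩ := hMult k a b A.π hb ha ha4 hπ
  -- the transcendental parameter
  have hτO : J r5 + ε ∈ P.O := P.O.add_mem (P.memJ r5) hεO
  have hτ5 : P.red (J r5 + ε) = r5 := by
    rw [red_add P (P.memJ r5) hεO, red_J, hε0, add_zero]
  have hτT : Trans J (J r5 + ε) := by
    intro p hp
    have h1 : p.comp (X + C r5) ≠ 0 := by
      intro h2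
      have h3 := congrArg (fun q => q.comp (X - C r5)) h2
      simp only [comp_assoc, add_comp, X_comp, C_comp, sub_add_cancel, comp_X, zero_comp] at h3
      exact hp h3
    have h4 := hεT _ h1
    rw [eval₂_comp] at h4
    simpa [add_comm] using h4
  have hS' := hS L J (J r5 + ε) hτT
  set G : Par L := triP (J r1) (J ρ1) (J r3) (J ρ3) (J r5) (J ρ5) (J r5 + ε) (J μ) with hG
  set Gs : Par ℂ := secP r1 ρ1 r3 ρ3 μ with hGs
  obtain ⟨hcW, hcZ, hcD⟩ := chart1 (J := J) P (r1 := r1) (ρ1 := ρ1) (r3 := r3) (ρ3 := ρ3)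
    (r5 := r5) (ρ5 := ρ5) (μ := μ) hτO hτ5 h13 h15 h35
  rw [← hG, ← hGs] at hcW hcZ hcD
  set N := wzdeg A.π with hN
  set f := subsPar (J.comp i) A.π G with hfdef
  set gs := subsPar i A.π Gs with hgsdef
  have hGT : G.T = X := rfl
  have hGsT : Gs.T = X := rfl
  have hGsD : Gs.D = 1 := rfl
  have hf : IR P f ((X - C r5) ^ N * gs) := by
    have h := IR.subsPar i A.π IR.X hcW hcZ hcD
    rw [subsPar_scale] at h
    exact h
  have hSec : SecH i a b r1 ρ1 r3 ρ3 μ := by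
    refine ⟨hF1, hF3, ?_⟩
    have h6 := AI_comp i hAI (m := 3) ![0, 1, 3] (by decide)
    have h7 : (![r1, r3, r5, μ] ∘ ![0, 1, 3] : Fin 3 → ℂ) = ![r1, r3, μ] := by
      funext j
      fin_cases j <;> rfl
    rwa [h7] at h6
  have hgsdeg : gs.natDegree = wdeg A.π := hSecDeg k ℂ i a b A.π r1 ρ1 r3 ρ3 μ hb ha ha4 hπ hSec
  have hgs5 : gs.eval r5 ≠ 0 := by
    have h1 : Gs.D.eval r5 ≠ 0 := by rw [hGsD]; simp
    rw [hgsdef, subsPar_eval i A.π Gs h1]
    refine mul_ne_zero (pow_ne_zero _ h1) ?_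
    have h2 : Gs.at r5 = ![r5, ws, ν] := by
      funext j
      fin_cases j
      · simp [hGs, Par.at, secP]
      · simp [hGs, Par.at, secP, hws]
        ring
      · simp [hGs, Par.at, secP, hν]
    rw [h2]
    exact hI1 _ hπ
  have hgs0 : gs ≠ 0 := by
    intro h
    rw [h] at hgs5
    simp at hgs5
  have hsN : (X - C r5 : ℂ[X]) ^ N ≠ 0 := pow_ne_zero _ (X_sub_C_ne_zero r5)
  have hg0 : (X - C r5) ^ N * gs ≠ 0 := mul_ne_zero hsN hgs0
  have hR1 := hRoots L J P f _ hf.coeff.1 hf.coeff.2 hg0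
  have hcardg : Multiset.card ((X - C r5) ^ N * gs).roots = N + wdeg A.π := by
    rw [IsAlgClosed.card_roots_eq_natDegree, natDegree_mul hsN hgs0, natDegree_pow,
      natDegree_X_sub_C, mul_one, hgsdeg]
  have hfdeg : f.natDegree ≤ N + wdeg A.π := by
    refine nd_tri _ _ ?_ ?_ ?_ ?_
    · rw [hGT]
      exact natDegree_X_le
    · exact nd_W _ _ _ _ _ _
    · exact nd_Z _ _ _ _
    · exact (natDegree_X_sub_C _).le
  have hall : f.roots.filter (fun l => l ∈ P.O) = f.roots := by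
    refine Multiset.eq_of_le_of_card_le (Multiset.filter_le _ _) ?_
    have h1 : Multiset.card (f.roots.filter (fun l => l ∈ P.O)) = N + wdeg A.π := by
      rw [← hcardg, ← hR1, Multiset.card_map]
    rw [h1]
    exact (card_roots' f).trans hfdeg
  have hMO : ∀ x ∈ f.roots, x ∈ P.O := by
    intro x hx
    rw [← hall] at hx
    exact (Multiset.mem_filter.1 hx).2
  rw [hall] at hR1
  have hf0 : f ≠ 0 := by
    intro h
    apply hg0
    ext n
    rw [← hf.coeff.2 n, h, coeff_zero, coeff_zero, red_zero]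
  -- the second chart
  set H : Par L := G2 J r1 ρ1 r3 ρ3 r5 ρ5 μ ε with hH
  set K : Par ℂ := GM r5 ρ5 ws ν with hK
  obtain ⟨dT, dW, dZ, dD⟩ := chart2 (J := J) P (r1 := r1) (ρ1 := ρ1) (r3 := r3) (ρ3 := ρ3)
    (r5 := r5) (ρ5 := ρ5) (μ := μ) hεO hε0 h13 h15 h35 hws hν
  rw [← hH, ← hK] at dT dW dZ dD
  set f3 := subsPar (J.comp i) A.π H with hf3def
  set g2 := subsPar i A.π K with hg2def
  have hf3 : IR P f3 g2 := IR.subsPar i A.π dT dW dZ dD
  have hcomp : f.comp (C ε * X + C (J r5)) = C (ε ^ N) * f3 :=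
    chart2_comp (J := J) (J.comp i) A.π ε
  have hg2c : g2.coeff N ≠ 0 := by
    rw [hg2def, hK, hN, GM_coeff]
    exact hI1 _ hπ
  have hg20 : g2 ≠ 0 := by
    intro h
    rw [h, coeff_zero] at hg2c
    exact hg2c rfl
  have hg2deg : g2.natDegree = N :=
    le_antisymm (GM_nd i A.π r5 ρ5 ws ν) (le_natDegree_of_ne_zero hg2c)
  have hR2 := hRoots L J P f3 g2 hf3.coeff.1 hf3.coeff.2 hg20
  have hf3r : f3.roots = f.roots.map (fun x => ε⁻¹ * (x - J r5)) := by
    have h1 := roots_comp_C_mul_X_add_C f ε (J r5) (IsUnit.mk0 ε hε)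
    rw [hcomp, roots_C_mul _ (pow_ne_zero _ hε)] at h1
    rw [h1]
    simp [Ring.inverse_eq_inv']
  have hx : ∀ x : L, ε * (ε⁻¹ * (x - J r5)) + J r5 = x := by
    intro x
    rw [mul_inv_cancel_left₀ hε]
    ring
  have hη1 : ∀ x : L, ε⁻¹ * (x - J r5) ∈ P.O → x ∈ P.O ∧ P.red x = r5 := by
    intro x h
    have h1 := P.O.mul_mem hεO h
    have h2 := P.O.add_mem h1 (P.memJ r5)
    have h3 := red_add P h1 (P.memJ r5)
    rw [hx] at h2 h3
    rw [red_mul P hεO h, hε0, zero_mul, zero_add, red_J] at h3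
    exact ⟨h2, h3⟩
  have hcount : ∀ c : ℂ, c ≠ r5 → ((X - C r5) ^ N * gs).roots.count c = gs.rootMultiplicity c := by
    intro c hc
    have h1 : rootMultiplicity c ((X - C r5) ^ N) = 0 := by
      refine rootMultiplicity_eq_zero ?_
      rw [IsRoot.def, eval_pow, eval_sub, eval_X, eval_C]
      exact pow_ne_zero _ (sub_ne_zero.2 hc)
    rw [count_roots, rootMultiplicity_mul hg0, h1, zero_add]
  have hcount5 : ((X - C r5) ^ N * gs).roots.count r5 = N := by
    rw [count_roots, rootMultiplicity_mul hg0, rootMultiplicity_X_sub_C_pow,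
      rootMultiplicity_eq_zero hgs5, add_zero]
  have hfilt : f.roots.filter (fun x => ε⁻¹ * (x - J r5) ∈ P.O) =
      f.roots.filter (fun x => r5 = P.red x) := by
    refine Multiset.eq_of_le_of_card_le (Multiset.monotone_filter_right _
      fun x h => (hη1 x h).2.symm) ?_
    have h1 : Multiset.card (f.roots.filter (fun x => r5 = P.red x)) = N := by
      rw [← hcount5, ← hR1, Multiset.count_map]
    have h2 : Multiset.card (f.roots.filter (fun x => ε⁻¹ * (x - J r5) ∈ P.O)) = N := by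
      rw [hf3r, Multiset.filter_map, Multiset.map_map] at hR2
      have h3 := congrArg Multiset.card hR2
      rw [Multiset.card_map, IsAlgClosed.card_roots_eq_natDegree, hg2deg] at h3
      exact h3
    rw [h1, h2]
  have hη2 : ∀ x ∈ f.roots, P.red x = r5 → ε⁻¹ * (x - J r5) ∈ P.O := by
    intro x hxm h
    have h1 : x ∈ f.roots.filter (fun x => r5 = P.red x) := Multiset.mem_filter.2 ⟨hxm, h.symm⟩
    rw [← hfilt] at h1
    exact (Multiset.mem_filter.1 h1).2
  -- multiplicities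
  have hFJ : ∀ r ρ : ℂ, Ff (i a) (i b) r ρ = 0 →
      Ff ((J.comp i) a) ((J.comp i) b) (J r) (J ρ) = 0 := by
    intro r ρ h
    rw [RingHom.comp_apply, RingHom.comp_apply, ← map_Ff, h, map_zero]
  have hDJ : ∀ r : ℂ, G.D.eval (J r) = J r - (J r5 + ε) := by
    intro r
    simp [hG, triP]
  have hDJ0 : ∀ r : ℂ, G.D.eval (J r) ≠ 0 := by
    intro r h
    rw [hDJ] at h
    have h1 : ε = J (r - r5) := by
      rw [map_sub]
      linear_combination -h
    have h2 := hε0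
    rw [h1, red_J] at h2
    apply hε
    rw [h1, h2, map_zero]
  have j13 : J r1 - J r3 ≠ 0 := sub_ne_zero.2 fun h => h13 (J.injective h)
  have j15 : J r1 - J r5 ≠ 0 := sub_ne_zero.2 fun h => h15 (J.injective h)
  have j35 : J r3 - J r5 ≠ 0 := sub_ne_zero.2 fun h => h35 (J.injective h)
  have j31 : J r3 - J r1 ≠ 0 := sub_ne_zero.2 fun h => h13 (J.injective h).symm
  have j51 : J r5 - J r1 ≠ 0 := sub_ne_zero.2 fun h => h15 (J.injective h).symm
  have j53 : J r5 - J r3 ≠ 0 := sub_ne_zero.2 fun h => h35 (J.injective h).symm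
  have hlow : ∀ r ρ : ℂ, Ff (i a) (i b) r ρ = 0 → G.Z.eval (J r) = 0 →
      G.W.eval (J r) = J ρ * G.D.eval (J r) → m0 ≤ f.roots.count (J r) := by
    intro r ρ h1 h2 h3
    rw [count_roots, le_rootMultiplicity_iff hf0]
    refine hm0.lower L (J.comp i) G (J r) (hDJ0 r) h2 ?_
    rw [h3, mul_div_cancel_right₀ _ (hDJ0 r)]
    have h4 : G.T.eval (J r) = J r := by rw [hGT, eval_X]
    rw [h4]
    exact hFJ r ρ h1
  have hl1 : m0 ≤ f.roots.count (J r1) := by
    refine hlow r1 ρ1 hF1 (by simp [hG, triP]) ?_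
    rw [hDJ]
    simp [hG, triP]
    field_simp
  have hl3 : m0 ≤ f.roots.count (J r3) := by
    refine hlow r3 ρ3 hF3 (by simp [hG, triP]) ?_
    rw [hDJ]
    simp [hG, triP]
    field_simp
  have hl5 : m0 ≤ f.roots.count (J r5) := by
    refine hlow r5 ρ5 hF5 (by simp [hG, triP]) ?_
    rw [hDJ]
    simp [hG, triP]
    field_simp
  obtain ⟨hs1, hs3⟩ := hSecMult k ℂ i a b A.π m0 r1 ρ1 r3 ρ3 μ hb ha ha4 hπ hm0 hSec
  have hu1 : ∀ x ∈ f.roots, P.red x = r1 → x = J r1 := by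
    have h := uniq f.roots P.red (J r1) m0 hl1 (by rw [red_J, hR1, hcount r1 h15]; exact hs1)
    rwa [red_J] at h
  have hu3 : ∀ x ∈ f.roots, P.red x = r3 → x = J r3 := by
    have h := uniq f.roots P.red (J r3) m0 hl3 (by rw [red_J, hR1, hcount r3 h35]; exact hs3)
    rwa [red_J] at h
  have hg2m : g2.rootMultiplicity 0 = m0 := by
    refine GM_mult i A.π r5 ρ5 ws ν hwne' m0 ?_ ?_
    · exact hLineMult k ℂ i a b A.π m0 r5 ρ5 _ hb ha ha4 hπ hm0 hF5 hI3
    · exact line_ne_zero i A.π r5 ρ5 ws ν hwne' hg20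
  have hR2' : (f.roots.filter (fun x => ε⁻¹ * (x - J r5) ∈ P.O)).map
      (fun x => P.red (ε⁻¹ * (x - J r5))) = g2.roots := by
    rw [hf3r, Multiset.filter_map, Multiset.map_map] at hR2
    exact hR2
  have hu5 : ∀ x ∈ f.roots, P.red x = r5 → P.red (ε⁻¹ * (x - J r5)) = 0 → x = J r5 := by
    intro x hxm hx5 hx0
    have h5 : P.red (ε⁻¹ * (J r5 - J r5)) = 0 := by
      rw [sub_self, mul_zero, red_zero]
    have h := uniq (f.roots.filter (fun x => ε⁻¹ * (x - J r5) ∈ P.O))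
      (fun x => P.red (ε⁻¹ * (x - J r5))) (J r5) m0 ?_ ?_ x
      (Multiset.mem_filter.2 ⟨hxm, hη2 x hxm hx5⟩) ?_
    · exact h
    · rw [Multiset.count_filter_of_pos]
      · exact hl5
      · rw [sub_self, mul_zero]
        exact P.O.zero_mem
    · rw [h5, hR2', count_roots, hg2m]
    · rw [h5]
      exact hx0
  have hu1' : ∀ x ∈ f.roots, P.red x = r5 → P.red (ε⁻¹ * (x - J r5)) ≠ 1 := by
    intro x hxm hx5 hx1
    have h1 : P.red (ε⁻¹ * (x - J r5)) ∈ g2.roots := by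
      rw [← hR2']
      exact Multiset.mem_map.2 ⟨x, Multiset.mem_filter.2 ⟨hxm, hη2 x hxm hx5⟩, rfl⟩
    rw [hx1, mem_roots hg20, IsRoot.def, hg2def, hK, GM_one] at h1
    exact hI2 _ (topP_ne hπ) h1
  -- the values of `Z` and `D`
  have hGDx : ∀ x : L, G.D.eval x = x - (J r5 + ε) := by
    intro x
    simp [hG, triP]
  have hGZx : ∀ x : L, G.Z.eval x ≠ 0 ↔ x ≠ J r1 ∧ x ≠ J r3 ∧ x ≠ J r5 := by
    intro x
    have hJμ : J μ ≠ 0 := by
      intro h
      exact hμ (J.injective (by rw [h, map_zero]))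
    simp [hG, triP, hJμ, sub_eq_zero, not_or, and_assoc]
  have hsZ : ∀ y : ℂ, Gs.Z.eval y ≠ 0 ↔ y ≠ r1 ∧ y ≠ r3 := by
    intro y
    simp [hGs, secP, hμ, sub_eq_zero, not_or]
  have hclass1 : ∀ x ∈ f.roots, P.red x ≠ r5 →
      ((G.Z.eval x ≠ 0 ∧ G.D.eval x ≠ 0) ↔
        (Gs.Z.eval (P.red x) ≠ 0 ∧ Gs.D.eval (P.red x) ≠ 0)) := by
    intro x hxm hx5
    have h1 : G.D.eval x ≠ 0 := by
      rw [hGDx, sub_ne_zero]
      rintro rfl
      exact hx5 hτ5
    have h2 : Gs.D.eval (P.red x) ≠ 0 := by rw [hGsD]; simp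
    have h3 : x ≠ J r5 := by
      rintro rfl
      exact hx5 (red_J P r5)
    rw [hGZx, hsZ]
    constructor
    · rintro ⟨⟨h4, h5, -⟩, -⟩
      exact ⟨⟨fun h => h4 (hu1 x hxm h), fun h => h5 (hu3 x hxm h)⟩, h2⟩
    · rintro ⟨⟨h4, h5⟩, -⟩
      refine ⟨⟨?_, ?_, h3⟩, h1⟩
      · rintro rfl
        exact h4 (red_J P r1)
      · rintro rfl
        exact h5 (red_J P r3)
  have hKZ : ∀ y : ℂ, K.Z.eval y ≠ 0 ↔ y ≠ 0 := by
    intro y
    simp [hK, GM, hνne]
  have hKD : ∀ y : ℂ, K.D.eval y ≠ 0 ↔ y ≠ 1 := by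
    intro y
    simp [hK, GM, sub_eq_zero]
  have hclass2 : ∀ x ∈ f.roots, P.red x = r5 →
      ((G.Z.eval x ≠ 0 ∧ G.D.eval x ≠ 0) ↔
        (K.Z.eval (P.red (ε⁻¹ * (x - J r5))) ≠ 0 ∧ K.D.eval (P.red (ε⁻¹ * (x - J r5))) ≠ 0)) := by
    intro x hxm hx5
    have h1 := hu1' x hxm hx5
    have h2 : G.D.eval x ≠ 0 := by
      rw [hGDx, sub_ne_zero]
      intro h
      apply h1
      rw [h, add_sub_cancel_left, inv_mul_cancel₀ hε, red_one]
    have h3 : x ≠ J r1 := by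
      rintro rfl
      rw [red_J] at hx5
      exact h15 hx5
    have h4 : x ≠ J r3 := by
      rintro rfl
      rw [red_J] at hx5
      exact h35 hx5
    rw [hGZx, hKZ, hKD]
    constructor
    · rintro ⟨⟨-, -, h5⟩, -⟩
      exact ⟨fun h => h5 (hu5 x hxm hx5 h), h1⟩
    · rintro ⟨h5, -⟩
      refine ⟨⟨h3, h4, ?_⟩, h2⟩
      rintro rfl
      apply h5
      rw [sub_self, mul_zero, red_zero]
  -- the two classes of intersection points
  set R := rts (J.comp i) A.π G with hR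
  have hRmem : ∀ x ∈ R, x ∈ f.roots ∧ G.Z.eval x ≠ 0 ∧ G.D.eval x ≠ 0 := by
    intro x hxR
    exact Multiset.mem_filter.1 hxR
  have hA1 : (R.filter (fun x => P.red x ≠ r5)).map P.red = rts i A.π Gs := by
    have h1 : gs.roots = (f.roots.filter (fun x => P.red x ≠ r5)).map P.red := by
      have h2 : ((X - C r5) ^ N * gs).roots = N • {r5} + gs.roots := by
        rw [roots_mul hg0, roots_pow, roots_X_sub_C]
      have h3 : (((X - C r5) ^ N * gs).roots).filter (fun y => y ≠ r5) = gs.roots := by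
        rw [h2, Multiset.filter_add]
        have h4 : (N • ({r5} : Multiset ℂ)).filter (fun y => y ≠ r5) = 0 := by
          rw [Multiset.filter_eq_nil]
          intro y hy
          have h5 := Multiset.mem_of_mem_nsmul hy
          rw [Multiset.mem_singleton] at h5
          simp [h5]
        have h5 : gs.roots.filter (fun y => y ≠ r5) = gs.roots := by
          rw [Multiset.filter_eq_self]
          intro y hy
          rintro rfl
          exact hgs5 ((mem_roots hgs0).1 hy)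
        rw [h4, h5, zero_add]
      rw [← h3, ← hR1, Multiset.filter_map]
      rfl
    have h6 : rts i A.π Gs = gs.roots.filter (fun l => Gs.Z.eval l ≠ 0 ∧ Gs.D.eval l ≠ 0) := rfl
    have h7 : R = f.roots.filter (fun l => G.Z.eval l ≠ 0 ∧ G.D.eval l ≠ 0) := rfl
    rw [h6, h1, h7, Multiset.filter_map, Multiset.filter_filter, Multiset.filter_filter]
    congr 1
    refine Multiset.filter_congr fun x hxm => ?_
    constructor
    · rintro ⟨h8, h9⟩
      exact ⟨(hclass1 x hxm h8).1 h9, h8⟩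
    · rintro ⟨h8, h9⟩
      exact ⟨h9, (hclass1 x hxm h9).2 h8⟩
  have hA2 : (R.filter (fun x => ¬ P.red x ≠ r5)).map (fun x => P.red (ε⁻¹ * (x - J r5))) =
      rts i A.π K := by
    have h6 : rts i A.π K = g2.roots.filter (fun l => K.Z.eval l ≠ 0 ∧ K.D.eval l ≠ 0) := rfl
    have h7 : R = f.roots.filter (fun l => G.Z.eval l ≠ 0 ∧ G.D.eval l ≠ 0) := rfl
    rw [h6, ← hR2', h7, hfilt, Multiset.filter_map, Multiset.filter_filter,
      Multiset.filter_filter]
    congr 1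
    refine Multiset.filter_congr fun x hxm => ?_
    constructor
    · rintro ⟨h8, h9⟩
      rw [not_ne_iff] at h8
      exact ⟨(hclass2 x hxm h8).1 h9, h8.symm⟩
    · rintro ⟨h8, h9⟩
      exact ⟨not_ne_iff.2 h9.symm, (hclass2 x hxm h9.symm).2 h8⟩
  -- reduction of the points
  have hpt1 : ∀ x ∈ R, P.red x ≠ r5 →
      (∀ j, G.at x j ∈ P.O) ∧ (fun j => P.red (G.at x j)) = Gs.at (P.red x) := by
    intro x hxR hx5
    obtain ⟨hxm, -, -⟩ := hRmem x hxR
    have hxO := hMO x hxm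
    have h1 : ((X - C r5) * Gs.D).eval (P.red x) ≠ 0 := by
      rw [hGsD, mul_one, eval_sub, eval_X, eval_C]
      exact sub_ne_zero.2 hx5
    have h2 := at_red (IR.X (P := P)) hcW hcZ hcD hxO h1
    refine ⟨fun j => (h2 j).1, ?_⟩
    funext j
    rw [show G.at x j = (Par.mk X G.W G.Z G.D).at x j from rfl, (h2 j).2]
    have h3 : P.red x - r5 ≠ 0 := sub_ne_zero.2 hx5
    have h4 : (Par.mk X ((X - C r5) * Gs.W) ((X - C r5) * Gs.Z) ((X - C r5) * Gs.D)).at
        (P.red x) = Gs.at (P.red x) := by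
      unfold Par.at
      simp only [eval_mul, eval_sub, eval_X, eval_C]
      rw [mul_div_mul_left _ _ h3, mul_div_mul_left _ _ h3, hGsT, eval_X]
    rw [h4]
  have hpt2 : ∀ x ∈ R, P.red x = r5 →
      (∀ j, G.at x j ∈ P.O) ∧
        (fun j => P.red (G.at x j)) = K.at (P.red (ε⁻¹ * (x - J r5))) := by
    intro x hxR hx5
    obtain ⟨hxm, -, -⟩ := hRmem x hxR
    have hxO := hη2 x hxm hx5
    have h1 : K.D.eval (P.red (ε⁻¹ * (x - J r5))) ≠ 0 := (hKD _).2 (hu1' x hxm hx5)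
    have h2 := at_red dT dW dZ dD hxO h1
    have h3 : G.at x = H.at (ε⁻¹ * (x - J r5)) := by
      have h4 := chart2_at (J := J) (r1 := r1) (ρ1 := ρ1) (r3 := r3) (ρ3 := ρ3)
        (r5 := r5) (ρ5 := ρ5) (μ := μ) ε hε (ε⁻¹ * (x - J r5))
      rw [hx] at h4
      exact h4
    rw [h3]
    exact ⟨fun j => (h2 j).1, funext fun j => (h2 j).2⟩
  have hgen1 : ∀ x ∈ R, P.red x ≠ r5 → Gen i A.π (Gs.at (P.red x)) := by
    intro x hxR hx5
    refine hSecGen k ℂ i a b A.π r1 ρ1 r3 ρ3 μ hb ha ha4 A.irr hSec (P.red x) ?_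
    rw [← hGs, ← hA1]
    exact Multiset.mem_map.2 ⟨x, Multiset.mem_filter.2 ⟨hxR, hx5⟩, rfl⟩
  have hgen2 : ∀ x ∈ R, P.red x = r5 → Gen i A.π (K.at (P.red (ε⁻¹ * (x - J r5)))) := by
    intro x hxR hx5
    have h1 : P.red (ε⁻¹ * (x - J r5)) ∈ rts i A.π K := by
      rw [← hA2]
      exact Multiset.mem_map.2 ⟨x, Multiset.mem_filter.2 ⟨hxR, not_ne_iff.2 hx5⟩, rfl⟩
    obtain ⟨h2, h3, h4⟩ := Multiset.mem_filter.1 h1
    rw [hKZ] at h3
    rw [hKD] at h4
    have h5 : P.red (ε⁻¹ * (x - J r5)) - 1 ≠ 0 := sub_ne_zero.2 h4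
    rw [hK, GM_at r5 ρ5 ws ν hwne' h4]
    refine hLineGen k ℂ i a b A.π r5 ρ5 _ hb ha ha4 A.irr hF5 hI3 _ ?_
    refine Multiset.mem_filter.2 ⟨?_, ?_, ?_⟩
    · rw [mem_roots (line_ne_zero i A.π r5 ρ5 ws ν hwne' hg20), IsRoot.def]
      have h6 := (mem_roots hg20).1 h2
      rw [IsRoot.def, hg2def, hK, GM_eval i A.π r5 ρ5 ws ν hwne' h4] at h6
      exact (mul_eq_zero.1 h6).resolve_left (pow_ne_zero _ h5)
    · have h7 : (ws * P.red (ε⁻¹ * (x - J r5)) - ρ5) / (P.red (ε⁻¹ * (x - J r5)) - 1) - ρ5 =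
          (ws - ρ5) * P.red (ε⁻¹ * (x - J r5)) / (P.red (ε⁻¹ * (x - J r5)) - 1) := fr _ _ _ h5
      have h8 : (lineP r5 ρ5 (ν / (ws - ρ5))).Z.eval
          ((ws * P.red (ε⁻¹ * (x - J r5)) - ρ5) / (P.red (ε⁻¹ * (x - J r5)) - 1)) =
          (ν / (ws - ρ5)) *
            ((ws - ρ5) * P.red (ε⁻¹ * (x - J r5)) / (P.red (ε⁻¹ * (x - J r5)) - 1)) := by
        rw [← h7]
        simp [lineP]
      rw [h8]
      exact mul_ne_zero hκne (div_ne_zero (mul_ne_zero hwne h3) h5)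
    · simp [lineP]
  have key : ∀ x ∈ R, ∃ u v : L, u ∈ P.O ∧ v ∈ P.O ∧ v ^ 2 = u ^ 3 - u ∧
      evA (J.comp i) A (G.at x) = pt u v ∧
      evA i A (fun j => P.red (G.at x j)) = pt (P.red u) (P.red v) := by
    intro x hxR
    obtain ⟨hxm, hxZ, hxD⟩ := hRmem x hxR
    have h0 : MvPolynomial.eval₂ (J.comp i) (G.at x) A.π = 0 := by
      have h1 := (mem_roots hf0).1 hxm
      rw [IsRoot.def, hfdef, subsPar_eval _ _ _ hxD] at h1
      exact (mul_eq_zero.1 h1).resolve_left (pow_ne_zero _ hxD)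
    have h2 : (∀ j, G.at x j ∈ P.O) ∧ Gen i A.π (fun j => P.red (G.at x j)) := by
      by_cases hx5 : P.red x = r5
      · obtain ⟨h3, h4⟩ := hpt2 x hxR hx5
        rw [h4]
        exact ⟨h3, hgen2 x hxR hx5⟩
      · obtain ⟨h3, h4⟩ := hpt1 x hxR hx5
        rw [h4]
        exact ⟨h3, hgen1 x hxR hx5⟩
    exact (hEvRed k L i J P A (G.at x) h2.1 h0 h2.2).2
  choose! u v hu hv huv hev hev' using key
  have hsum : (R.map (fun l => pt (u l) (v l))).sum = Emap J S0 := by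
    rw [← hS']
    unfold S
    rw [← hR]
    congr 1
    exact Multiset.map_congr rfl fun l hl => (hev l hl).symm
  have hres := hSums L J P R u v (fun l hl => ⟨hu l hl, hv l hl, huv l hl⟩) S0 hsum
  have hres2 : S0 = (R.map (fun l => evA i A (fun j => P.red (G.at l j)))).sum := by
    rw [hres]
    congr 1
    exact Multiset.map_congr rfl fun l hl => (hev' l hl).symm
  have hM := hMob k ℂ i A r5 ρ5 ws ν hI1 hwne'
  rw [← hM, hres2, ← Multiset.filter_add_not (fun x => P.red x ≠ r5) R, Multiset.map_add,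
    Multiset.sum_add]
  congr 1
  · unfold S
    rw [← hA1, Multiset.map_map]
    congr 1
    refine Multiset.map_congr rfl fun l hl => ?_
    obtain ⟨h1, h2⟩ := Multiset.mem_filter.1 hl
    rw [(hpt1 l h1 h2).2]
    rfl
  · unfold S
    have h3 : rts i A.π ⟨C r5, C ws * X - C ρ5, C ν * X, X - 1⟩ = rts i A.π K := rfl
    rw [h3, ← hA2, Multiset.map_map]
    congr 1
    refine Multiset.map_congr rfl fun l hl => ?_
    obtain ⟨h1, h2⟩ := Multiset.mem_filter.1 hl
    rw [(hpt2 l h1 (not_ne_iff.1 h2)).2]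
    rfl

end MP_d2f638_ag.Stab
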