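import Pool.Agent.Lib.MP_d2f638_ag.Stab.Stmts

/-!
# C1. The logarithmic derivative on `y² = x³ - x` is additive
-/

namespace MP_d2f638_ag.Stab

section

variable {M : Type} [Field M] [CharZero M] (D : Derivation ℤ M M)

omit [CharZero M] in
private lemma D_mul (a b : M) : D (a * b) = a * D b + b * D a := by
  rw [D.leibniz, smul_eq_mul, smul_eq_mul]

omit [CharZero M] in
private lemma D_sq (a : M) : D (a ^ 2) = 2 * a * D a := by
  rw [sq, D_mul]; ring

omit [CharZero M] in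
private lemma D_cube (a : M) : D (a ^ 3) = 3 * a ^ 2 * D a := by
  rw [show a ^ 3 = a ^ 2 * a by ring, D_mul, D_sq]; ring

omit [CharZero M] in
private lemma D_eqn {x y : M} (h : y ^ 2 = x ^ 3 - x) : 2 * y * D y = (3 * x ^ 2 - 1) * D x := by
  have h1 := congrArg D h
  rw [D_sq, map_sub, D_cube] at h1
  linear_combination h1

omit [CharZero M] in
private lemma D_one : D (1 : M) = 0 := D.map_one_eq_zero

omit [CharZero M] in
/-- the abscissa of a point of order two -/
private lemma D_tors {x : M} (h : x ^ 3 - x = 0) : D x = 0 := by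
  have h1 : x * ((x - 1) * (x + 1)) = 0 := by linear_combination h
  rcases mul_eq_zero.1 h1 with h2 | h2
  · rw [h2, map_zero]
  · rcases mul_eq_zero.1 h2 with h3 | h3
    · rw [show x = 1 by linear_combination h3, D_one]
    · rw [show x = -1 by linear_combination h3, map_neg, D_one, neg_zero]

private lemma tors_ne {x : M} (h : x ^ 3 - x = 0) : 3 * x ^ 2 - 1 ≠ 0 := by
  intro h1
  have h2 : (2 : M) = 0 := by linear_combination (3 * x ^ 2 - 2) * h1 - (9 * x) * h
  exact two_ne_zero h2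

lemma Dl_zero : Dl D (0 : E M) = 0 := by
  unfold Dl
  rw [dif_neg]
  rintro ⟨⟨x, y⟩, h1, _, h2⟩
  exact pt_ne_zero h1 h2.symm

/-- The value of the logarithmic derivative. -/
lemma Dl_pt {x y : M} (h : y ^ 2 = x ^ 3 - x) : Dl D (pt x y) = D x / y := by
  unfold Dl
  by_cases hy : y = 0
  · rw [dif_neg, hy, div_zero]
    rintro ⟨⟨x', y'⟩, h1, h2, h3⟩
    have h4 := pt_inj h h1 h3
    exact h2 (h4.2 ▸ hy)
  · have hex : ∃ xy : M × M, xy.2 ^ 2 = xy.1 ^ 3 - xy.1 ∧ xy.2 ≠ 0 ∧ pt x y = pt xy.1 xy.2 :=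
      ⟨(x, y), h, hy, rfl⟩
    rw [dif_pos hex]
    obtain ⟨h1, _, h3⟩ := hex.choose_spec
    obtain ⟨h4, h5⟩ := pt_inj h h1 h3
    rw [← h4, ← h5]

/-- The defining relations of the logarithmic derivative. -/
lemma Dl_spec {x y : M} (h : y ^ 2 = x ^ 3 - x) :
    D x = D x / y * y ∧ 2 * D y = (3 * x ^ 2 - 1) * (D x / y) := by
  by_cases hy : y = 0
  · subst hy
    have h1 : x ^ 3 - x = 0 := by rw [← h]; ring
    rw [D_tors D h1, map_zero]
    simp
  · refine ⟨(div_mul_cancel₀ _ hy).symm, ?_⟩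
    have h1 := D_eqn D h
    rw [mul_div_assoc', eq_div_iff hy]
    linear_combination h1

/-- The defining relations characterise the logarithmic derivative. -/
lemma Dl_unique {x y w : M} (h : y ^ 2 = x ^ 3 - x) (h1 : D x = w * y)
    (h2 : 2 * D y = (3 * x ^ 2 - 1) * w) : D x / y = w := by
  by_cases hy : y = 0
  · subst hy
    have h3 : x ^ 3 - x = 0 := by rw [← h]; ring
    rw [map_zero, mul_zero] at h2
    rw [div_zero]
    rcases mul_eq_zero.1 h2.symm with h4 | h4
    · exact absurd h4 (tors_ne h3)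
    · exact h4.symm
  · rw [div_eq_iff hy, h1]

lemma Dl_neg_pt {x y : M} (h : y ^ 2 = x ^ 3 - x) : Dl D (pt x (-y)) = -Dl D (pt x y) := by
  rw [Dl_pt D h, Dl_pt D (by rw [neg_sq, h]), div_neg]

end

theorem dlog : stDlog := by
  intro M _ _ D P Q
  have h2M : (2 : M) ≠ 0 := two_ne_zero
  rcases exists_pt P with rfl | ⟨x1, y1, h1, rfl⟩
  · rw [zero_add, Dl_zero, zero_add]
  rcases exists_pt Q with rfl | ⟨x2, y2, h2, rfl⟩
  · rw [add_zero, Dl_zero, add_zero]
  by_cases hx : x1 = x2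
  · subst hx
    have hy : (y1 - y2) * (y1 + y2) = 0 := by linear_combination h1 - h2
    rcases mul_eq_zero.1 hy with hy | hy
    · have hy : y2 = y1 := by linear_combination -hy
      subst hy
      by_cases hy0 : y2 = 0
      · subst hy0
        have h3 := pt_add_neg h1
        rw [neg_zero] at h3
        rw [h3, Dl_zero, Dl_pt D h1, div_zero, add_zero]
      · obtain ⟨l, hldef⟩ : ∃ l : M, l = (3 * x1 ^ 2 - 1) / (2 * y2) := ⟨_, rfl⟩
        have hl : l * (2 * y2) = 3 * x1 ^ 2 - 1 := by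
          rw [hldef]
          exact div_mul_cancel₀ _ (mul_ne_zero h2M hy0)
        obtain ⟨h3, h4⟩ := pt_add_self h1 hy0 hl (x3 := l ^ 2 - 2 * x1)
          (y3 := -(l * (l ^ 2 - 2 * x1 - x1) + y2)) rfl rfl
        rw [h4, Dl_pt D h1, Dl_pt D h3]
        obtain ⟨e1, e2⟩ := Dl_spec D h1
        obtain ⟨w, hw⟩ : ∃ w : M, w = D x1 / y2 := ⟨_, rfl⟩
        rw [← hw] at e1 e2 ⊢
        have hDl : D l = w * (3 * x1 - l ^ 2) := by
          have h5 := congrArg D hl
          rw [D_mul, map_sub, D_one] at h5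
          have h6 : D (2 * y2) = 2 * D y2 := by
            rw [two_mul, map_add]; ring
          have h7 : D (3 * x1 ^ 2) = 6 * x1 * D x1 := by
            rw [show (3 : M) * x1 ^ 2 = x1 ^ 2 + x1 ^ 2 + x1 ^ 2 by ring, map_add, map_add, D_sq]
            ring
          rw [h6, h7, e2, e1] at h5
          have h8 : (2 * y2) * (D l - w * (3 * x1 - l ^ 2)) = 0 := by
            linear_combination h5 + l * w * hl
          rcases mul_eq_zero.1 h8 with h9 | h9
          · exact absurd h9 (mul_ne_zero h2M hy0)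
          · exact sub_eq_zero.1 h9
        have hD2x : D (2 * x1) = 2 * D x1 := by rw [two_mul, map_add]; ring
        refine Dl_unique D h3 ?_ ?_
        · rw [map_sub, D_sq, hDl, hD2x, e1]
          ring
        · rw [map_neg, map_add, D_mul, map_sub, map_sub, D_sq, hD2x, e1]
          linear_combination (-(4 * l ^ 2 + 2 * (l ^ 2 - 2 * x1 - x1))) * hDl + 3 * w * hl - e2
    · have hy : y2 = -y1 := by linear_combination hy
      subst hy
      rw [pt_add_neg h1, Dl_zero, Dl_neg_pt D h1]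
      ring
  · have hx' : x1 - x2 ≠ 0 := sub_ne_zero.2 hx
    obtain ⟨l, hldef⟩ : ∃ l : M, l = (y1 - y2) / (x1 - x2) := ⟨_, rfl⟩
    have hl : l * (x1 - x2) = y1 - y2 := by
      rw [hldef]
      exact div_mul_cancel₀ _ hx'
    obtain ⟨h3, h4⟩ := pt_add_of_ne h1 h2 hx hl (x3 := l ^ 2 - x1 - x2)
      (y3 := -(l * (l ^ 2 - x1 - x2 - x1) + y1)) rfl rfl
    rw [h4, Dl_pt D h1, Dl_pt D h2, Dl_pt D h3]
    obtain ⟨e1, e2⟩ := Dl_spec D h1
    obtain ⟨e3, e4⟩ := Dl_spec D h2
    obtain ⟨w1, hw1⟩ : ∃ w : M, w = D x1 / y1 := ⟨_, rfl⟩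
    obtain ⟨w2, hw2⟩ : ∃ w : M, w = D x2 / y2 := ⟨_, rfl⟩
    rw [← hw1] at e1 e2 ⊢
    rw [← hw2] at e3 e4 ⊢
    -- `l (y1 + y2) = x1² + x1 x2 + x2² - 1`
    have k1 : l * (y1 + y2) = x1 ^ 2 + x1 * x2 + x2 ^ 2 - 1 := by
      have h5 : (x1 - x2) * (l * (y1 + y2) - (x1 ^ 2 + x1 * x2 + x2 ^ 2 - 1)) = 0 := by
        linear_combination (y1 + y2) * hl + h1 - h2
      rcases mul_eq_zero.1 h5 with h6 | h6
      · exact absurd h6 hx'
      · exact sub_eq_zero.1 h6
    have G1 : 3 * x1 ^ 2 - 1 - 2 * l * y1 = (x1 - x2) * (2 * x1 + x2 - l ^ 2) := by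
      linear_combination (-1 : M) * k1 + l * hl
    have G2 : 3 * x2 ^ 2 - 1 - 2 * l * y2 = (x2 - x1) * (2 * x2 + x1 - l ^ 2) := by
      linear_combination (-1 : M) * k1 - l * hl
    have hDl : 2 * D l = w1 * (x1 - (l ^ 2 - x1 - x2)) + w2 * (x2 - (l ^ 2 - x1 - x2)) := by
      have h5 := congrArg D hl
      rw [D_mul, map_sub, map_sub] at h5
      have h6 : (x1 - x2) * (2 * D l - (w1 * (x1 - (l ^ 2 - x1 - x2)) +
          w2 * (x2 - (l ^ 2 - x1 - x2)))) = 0 := by
        have h7 : 2 * (l * (D x1 - D x2)) + 2 * ((x1 - x2) * D l) =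
            (3 * x1 ^ 2 - 1) * w1 - (3 * x2 ^ 2 - 1) * w2 := by
          linear_combination 2 * h5 + e2 - e4
        rw [e1, e3] at h7
        linear_combination h7 + w1 * G1 - w2 * G2
      rcases mul_eq_zero.1 h6 with h7 | h7
      · exact absurd h7 hx'
      · exact sub_eq_zero.1 h7
    refine Dl_unique D h3 ?_ ?_
    · rw [map_sub, map_sub, D_sq, e1, e3]
      linear_combination l * hDl - w2 * hl
    · rw [map_neg, map_add, D_mul, map_sub, map_sub, map_sub, D_sq, e1, e3]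
      linear_combination (-(2 * l ^ 2 + (l ^ 2 - x1 - x2 - x1))) * hDl - 2 * w1 * G1 - w2 * G2 - e2

end MP_d2f638_ag.Stab
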