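import Pool.Agent.Lib.MP_d2f638_ag.Stab.Stmts

/-!
# The real component of the origin
-/

namespace MP_d2f638_ag.Stab

open Polynomial

lemma E0_pt {x y : ℝ} (h : 1 ≤ x) (h2 : (y : ℂ) ^ 2 = (x : ℂ) ^ 3 - (x : ℂ)) :
    E0 (pt (x : ℂ) (y : ℂ)) :=
  Or.inr ⟨x, y, h, by exact_mod_cast h2, rfl⟩

lemma E0_zero : E0 (0 : E ℂ) := Or.inl rfl

/-- Duplication of a real point. -/
lemma E0_double {u v : ℝ} (h : v ^ 2 = u ^ 3 - u) :
    E0 (pt (u : ℂ) (v : ℂ) + pt (u : ℂ) (v : ℂ)) := by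
  have h1 : (v : ℂ) ^ 2 = (u : ℂ) ^ 3 - (u : ℂ) := by exact_mod_cast h
  by_cases hv : v = 0
  · subst hv
    have h3 := pt_add_neg h1
    simp only [Complex.ofReal_zero, neg_zero] at h3 ⊢
    rw [h3]
    exact E0_zero
  · have hv' : (v : ℂ) ≠ 0 := by exact_mod_cast hv
    set l : ℝ := (3 * u ^ 2 - 1) / (2 * v) with hl
    have hl1 : l * (2 * v) = 3 * u ^ 2 - 1 := by
      rw [hl]
      exact div_mul_cancel₀ _ (mul_ne_zero two_ne_zero hv)
    obtain ⟨h3, h4⟩ := pt_add_self h1 hv' (l := (l : ℂ)) (x3 := ((l ^ 2 - 2 * u : ℝ) : ℂ))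
      (y3 := ((-(l * (l ^ 2 - 2 * u - u) + v) : ℝ) : ℂ)) (by exact_mod_cast hl1)
      (by push_cast; ring) (by push_cast; ring)
    rw [h4]
    refine E0_pt ?_ h3
    have hv2 : 0 < v ^ 2 := by positivity
    have key : 4 * v ^ 2 * (l ^ 2 - 2 * u - 1) = (u ^ 2 - 2 * u - 1) ^ 2 := by
      have e1 : 4 * v ^ 2 * l ^ 2 = (3 * u ^ 2 - 1) ^ 2 := by rw [← hl1]; ring
      have e2 : 4 * v ^ 2 * (l ^ 2 - 2 * u - 1) = 4 * v ^ 2 * l ^ 2 - 4 * v ^ 2 * (2 * u + 1) := by
        ring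
      rw [e2, e1, h]
      ring
    by_contra hcon
    push Not at hcon
    have h5 : 4 * v ^ 2 * (l ^ 2 - 2 * u - 1) < 0 := by
      apply mul_neg_of_pos_of_neg
      · linarith
      · linarith
    rw [key] at h5
    exact absurd h5 (not_lt.2 (sq_nonneg _))

lemma E0_add {P Q : E ℂ} (hP : E0 P) (hQ : E0 Q) : E0 (P + Q) := by
  rcases hP with rfl | ⟨u1, v1, hu1, h1, rfl⟩
  · rw [zero_add]; exact hQ
  rcases hQ with rfl | ⟨u2, v2, hu2, h2, rfl⟩
  · rw [add_zero]; exact Or.inr ⟨u1, v1, hu1, h1, rfl⟩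
  have h1' : (v1 : ℂ) ^ 2 = (u1 : ℂ) ^ 3 - (u1 : ℂ) := by exact_mod_cast h1
  have h2' : (v2 : ℂ) ^ 2 = (u2 : ℂ) ^ 3 - (u2 : ℂ) := by exact_mod_cast h2
  by_cases hx : u1 = u2
  · subst hx
    have hy : (v1 - v2) * (v1 + v2) = 0 := by linear_combination h1 - h2
    rcases mul_eq_zero.1 hy with hy | hy
    · have hy : v2 = v1 := by linear_combination -hy
      subst hy
      exact E0_double h1
    · have hy : v2 = -v1 := by linear_combination hy
      subst hy
      have h3 := pt_add_neg h1'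
      rw [Complex.ofReal_neg, h3]
      exact E0_zero
  have hx' : (u1 : ℂ) ≠ (u2 : ℂ) := by exact_mod_cast hx
  set l : ℝ := (v1 - v2) / (u1 - u2) with hl
  have hl1 : l * (u1 - u2) = v1 - v2 := div_mul_cancel₀ _ (sub_ne_zero.2 hx)
  obtain ⟨h3, h4⟩ := pt_add_of_ne h1' h2' hx' (l := (l : ℂ))
    (x3 := ((l ^ 2 - u1 - u2 : ℝ) : ℂ)) (y3 := ((-(l * (l ^ 2 - u1 - u2 - u1) + v1) : ℝ) : ℂ))
    (by exact_mod_cast hl1) (by push_cast; ring) (by push_cast; ring)
  rw [h4]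
  refine E0_pt ?_ h3
  -- the product formula
  have key : (u1 - 1) * (u2 - 1) * (l ^ 2 - u1 - u2 - 1) = (l * (1 - u1) + v1) ^ 2 := by
    have hne : u1 - u2 ≠ 0 := sub_ne_zero.2 hx
    apply mul_left_cancel₀ hne
    have e : v1 - v2 = l * (u1 - u2) := hl1.symm
    have e2 : v2 = v1 - l * (u1 - u2) := by linear_combination -e
    have h2e : (v1 - l * (u1 - u2)) ^ 2 = u2 ^ 3 - u2 := by rw [← e2]; exact h2
    linear_combination (-(1 - u2)) * h1 + (1 - u1) * h2e
  by_cases hu1' : u1 = 1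
  · subst hu1'
    have hv1 : v1 = 0 := by
      have : v1 ^ 2 = 0 := by rw [h1]; ring
      exact pow_eq_zero_iff (two_ne_zero) |>.1 this
    subst hv1
    have hu2' : 1 < u2 := lt_of_le_of_ne hu2 hx
    have e1 : l ^ 2 * (u2 - 1) ^ 2 = u2 ^ 3 - u2 := by
      have : l * (1 - u2) = 0 - v2 := hl1
      have e3 : l ^ 2 * (u2 - 1) ^ 2 = (l * (1 - u2)) ^ 2 := by ring
      rw [e3, this, ← h2]; ring
    have e2 : l ^ 2 * (u2 - 1) = u2 * (u2 + 1) := by
      apply mul_right_cancel₀ (sub_ne_zero.2 hu2'.ne')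
      linear_combination e1
    by_contra hcon
    push Not at hcon
    have h5 : (l ^ 2 - 1 - u2 - 1) * (u2 - 1) < 0 :=
      mul_neg_of_neg_of_pos (by linarith) (by linarith)
    have h6 : (l ^ 2 - 1 - u2 - 1) * (u2 - 1) = 2 := by linear_combination e2
    linarith
  by_cases hu2' : u2 = 1
  · subst hu2'
    have hv2 : v2 = 0 := by
      have : v2 ^ 2 = 0 := by rw [h2]; ring
      exact pow_eq_zero_iff (two_ne_zero) |>.1 this
    subst hv2
    have hu1'' : 1 < u1 := lt_of_le_of_ne hu1 (Ne.symm hu1')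
    have e1 : l ^ 2 * (u1 - 1) ^ 2 = u1 ^ 3 - u1 := by
      have : l * (u1 - 1) = v1 - 0 := hl1
      have e3 : l ^ 2 * (u1 - 1) ^ 2 = (l * (u1 - 1)) ^ 2 := by ring
      rw [e3, this, ← h1]; ring
    have e2 : l ^ 2 * (u1 - 1) = u1 * (u1 + 1) := by
      apply mul_right_cancel₀ (sub_ne_zero.2 hu1''.ne')
      linear_combination e1
    by_contra hcon
    push Not at hcon
    have h5 : (l ^ 2 - u1 - 1 - 1) * (u1 - 1) < 0 :=
      mul_neg_of_neg_of_pos (by linarith) (by linarith)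
    have h6 : (l ^ 2 - u1 - 1 - 1) * (u1 - 1) = 2 := by linear_combination e2
    linarith
  have hp1 : 0 < u1 - 1 := sub_pos.2 (lt_of_le_of_ne hu1 (Ne.symm hu1'))
  have hp2 : 0 < u2 - 1 := sub_pos.2 (lt_of_le_of_ne hu2 (Ne.symm hu2'))
  by_contra hcon
  push Not at hcon
  have h5 : (u1 - 1) * (u2 - 1) * (l ^ 2 - u1 - u2 - 1) < 0 :=
    mul_neg_of_pos_of_neg (mul_pos hp1 hp2) (by linarith)
  rw [key] at h5
  exact absurd h5 (not_lt.2 (sq_nonneg _))

lemma E0_neg {P : E ℂ} (hP : E0 P) : E0 (-P) := by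
  rcases hP with rfl | ⟨u, v, hu, h, rfl⟩
  · rw [neg_zero]; exact E0_zero
  have h' : (v : ℂ) ^ 2 = (u : ℂ) ^ 3 - (u : ℂ) := by exact_mod_cast h
  rw [neg_pt h', ← Complex.ofReal_neg]
  exact E0_pt hu (by push_cast; rw [neg_sq, h'])

lemma E0_add_conj (P : E ℂ) : E0 (P + conjE P) := by
  rcases exists_pt P with rfl | ⟨x, y, h, rfl⟩
  · rw [map_zero, add_zero]; exact E0_zero
  have hc : conjE (pt x y) = pt ((starRingEnd ℂ) x) ((starRingEnd ℂ) y) := Emap_pt _ h
  rw [hc]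
  have h2 : ((starRingEnd ℂ) y) ^ 2 = ((starRingEnd ℂ) x) ^ 3 - (starRingEnd ℂ) x :=
    eqn_map (starRingEnd ℂ) h
  by_cases hx : (starRingEnd ℂ) x = x
  · rw [hx] at h2 ⊢
    have hy : ((starRingEnd ℂ) y - y) * ((starRingEnd ℂ) y + y) = 0 := by
      linear_combination h2 - h
    rcases mul_eq_zero.1 hy with hy | hy
    · have hy' : (starRingEnd ℂ) y = y := by linear_combination hy
      obtain ⟨u, rfl⟩ := Complex.conj_eq_iff_real.1 hx
      obtain ⟨v, rfl⟩ := Complex.conj_eq_iff_real.1 hy'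
      rw [hy']
      exact E0_double (by exact_mod_cast h)
    · have hy' : (starRingEnd ℂ) y = -y := by linear_combination hy
      rw [hy', pt_add_neg h]
      exact E0_zero
  · have hx' : x ≠ (starRingEnd ℂ) x := fun e => hx e.symm
    obtain ⟨l, hl⟩ : ∃ l : ℂ, l = (y - (starRingEnd ℂ) y) / (x - (starRingEnd ℂ) x) := ⟨_, rfl⟩
    have hl1 : l * (x - (starRingEnd ℂ) x) = y - (starRingEnd ℂ) y :=
      by
      rw [hl]; exact div_mul_cancel₀ _ (sub_ne_zero.2 hx')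
    have hlr : (starRingEnd ℂ) l = l := by
      rw [hl, map_div₀, map_sub, map_sub, Complex.conj_conj, Complex.conj_conj,
        ← neg_sub y, ← neg_sub x, neg_div_neg_eq]
    obtain ⟨l0, hl0⟩ := Complex.conj_eq_iff_real.1 hlr
    have hs : x + (starRingEnd ℂ) x = ((2 * x.re : ℝ) : ℂ) := Complex.add_conj x
    set x3 : ℝ := l0 ^ 2 - 2 * x.re with hx3
    have hx3' : (x3 : ℂ) = l ^ 2 - x - (starRingEnd ℂ) x := by
      rw [hx3, hl0]
      push_cast
      have : x + (starRingEnd ℂ) x = 2 * (x.re : ℂ) := by rw [hs]; push_cast; ring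
      linear_combination this
    set w : ℂ := l * (1 - x) + y with hw
    have hwr : (starRingEnd ℂ) w = w := by
      rw [hw, map_add, map_mul, map_sub, map_one, hlr]
      linear_combination hl1
    obtain ⟨w0, hw0⟩ := Complex.conj_eq_iff_real.1 hwr
    set y3 : ℝ := -(l0 * (x3 - 1) + w0) with hy3
    have hy3' : (y3 : ℂ) = -(l * ((x3 : ℂ) - x) + y) := by
      rw [hy3]
      push_cast
      rw [← hl0, ← hw0, hw]
      ring
    obtain ⟨h3, h4⟩ := pt_add_of_ne h h2 hx' hl1 hx3' hy3'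
    rw [h4]
    refine E0_pt ?_ h3
    have key : Complex.normSq (x - 1) * (x3 - 1) = w0 ^ 2 := by
      have e1 : ((Complex.normSq (x - 1) : ℝ) : ℂ) = ((starRingEnd ℂ) x - 1) * (x - 1) := by
        rw [Complex.normSq_eq_conj_mul_self, map_sub, map_one]
      have e2 : (x - 1) * ((starRingEnd ℂ) x - 1) * ((x3 : ℂ) - 1) = (l * (1 - x) + y) ^ 2 := by
        have hne : x - (starRingEnd ℂ) x ≠ 0 := sub_ne_zero.2 hx'
        apply mul_left_cancel₀ hne
        have e3 : (starRingEnd ℂ) y = y - l * (x - (starRingEnd ℂ) x) := by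
          linear_combination hl1
        have h2e : (y - l * (x - (starRingEnd ℂ) x)) ^ 2 =
            ((starRingEnd ℂ) x) ^ 3 - (starRingEnd ℂ) x := by rw [← e3]; exact h2
        rw [hx3']
        generalize (starRingEnd ℂ) x = xc at *
        linear_combination (-(1 - xc)) * h + (1 - x) * h2e
      have e4 : ((Complex.normSq (x - 1) * (x3 - 1) : ℝ) : ℂ) = ((w0 ^ 2 : ℝ) : ℂ) := by
        push_cast
        rw [e1, ← hw0, hw]
        linear_combination e2
      exact_mod_cast e4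
    have hpos : 0 < Complex.normSq (x - 1) := by
      rw [Complex.normSq_pos]
      intro h0
      apply hx
      have : x = 1 := by linear_combination h0
      rw [this, map_one]
    by_contra hcon
    push Not at hcon
    have h5 : Complex.normSq (x - 1) * (x3 - 1) < 0 :=
      mul_neg_of_pos_of_neg hpos (by linarith)
    rw [key] at h5
    exact absurd h5 (not_lt.2 (sq_nonneg _))

theorem e0 : stE0 := ⟨fun _ _ => E0_add, fun _ => E0_neg, E0_add_conj⟩

end MP_d2f638_ag.Stab
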