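import Pool.Agent.Lib.MP_d2f638_ag.Stab.Stmts

/-!
# D4. Reduction of the value at a generic point
-/

namespace MP_d2f638_ag.Stab

open Polynomial

namespace EvRedAux

variable {L : Type} [Field L] {J : ℂ →+* L} (P : Place L J)

lemma red_of_mem {x : L} (h : x ∈ P.O) : P.red x = P.φ ⟨x, h⟩ := by
  unfold Place.red
  rw [dif_pos h]

lemma red_coe (x : P.O) : P.red (x : L) = P.φ x := red_of_mem P x.2

/-- the constants in the ring of the place -/
def JO : ℂ →+* P.O := J.codRestrict P.O P.memJ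

lemma φ_JO (c : ℂ) : P.φ (JO P c) = c := P.φJ c

lemma coe_eval {k : Type} [Field k] (i : k →+* ℂ) (y : Fin 3 → P.O)
    (q : MvPolynomial (Fin 3) k) :
    ((MvPolynomial.eval₂ ((JO P).comp i) y q : P.O) : L) =
      MvPolynomial.eval₂ (J.comp i) (fun j => (y j : L)) q := by
  have h := MvPolynomial.eval₂_comp_left P.O.subtype ((JO P).comp i) y q
  refine h.trans ?_
  rfl

lemma φ_eval {k : Type} [Field k] (i : k →+* ℂ) (y : Fin 3 → P.O)
    (q : MvPolynomial (Fin 3) k) :
    P.φ (MvPolynomial.eval₂ ((JO P).comp i) y q) =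
      MvPolynomial.eval₂ i (fun j => P.φ (y j)) q := by
  have h := MvPolynomial.eval₂_comp_left P.φ ((JO P).comp i) y q
  refine h.trans ?_
  have e : P.φ.comp ((JO P).comp i) = i := by
    ext c
    exact φ_JO P (i c)
  rw [e]
  rfl

end EvRedAux

open EvRedAux

theorem evRed : stEvRed := by
  intro k L _ _ _ i J P A x hx h0 hgen
  set y : Fin 3 → P.O := fun j => ⟨x j, hx j⟩ with hy
  have hxy : x = fun j => (y j : L) := rfl
  have hred : (fun j => P.red (x j)) = fun j => P.φ (y j) := by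
    funext j
    exact red_of_mem P (hx j)
  rw [hred] at hgen ⊢
  have hev : ∀ q : MvPolynomial (Fin 3) k, MvPolynomial.eval₂ (J.comp i) x q =
      ((MvPolynomial.eval₂ ((JO P).comp i) y q : P.O) : L) := fun q => (coe_eval P i y q).symm
  have hG : Gen (J.comp i) A.π x := by
    intro q
    constructor
    · intro hq
      rw [hev q] at hq
      have h1 : (MvPolynomial.eval₂ ((JO P).comp i) y q : P.O) = 0 := Subtype.ext hq
      have h2 := φ_eval P i y q
      rw [h1, map_zero] at h2
      exact (hgen q).1 h2.symm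
    · rintro ⟨r, rfl⟩
      rw [MvPolynomial.eval₂_mul, h0, zero_mul]
  refine ⟨hG, ?_⟩
  set H : P.O := MvPolynomial.eval₂ ((JO P).comp i) y A.h with hH
  set U : P.O := MvPolynomial.eval₂ ((JO P).comp i) y A.gu with hU
  set V : P.O := MvPolynomial.eval₂ ((JO P).comp i) y A.gy with hV
  have hHne : P.φ H ≠ 0 := by
    intro h
    rw [hH, φ_eval] at h
    exact A.ndvd ((hgen A.h).1 h)
  have hHinv : (H : L)⁻¹ ∈ P.O := P.inv H hHne
  have hHL : (H : L) ≠ 0 := by
    intro h
    have : H = 0 := Subtype.ext h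
    rw [this, map_zero] at hHne
    exact hHne rfl
  set Hi : P.O := ⟨(H : L)⁻¹, hHinv⟩ with hHi
  have hφi : P.φ Hi = (P.φ H)⁻¹ := by
    have h1 : H * Hi = 1 := Subtype.ext (mul_inv_cancel₀ hHL)
    have h2 : P.φ H * P.φ Hi = 1 := by rw [← map_mul, h1, map_one]
    exact eq_inv_of_mul_eq_one_right h2
  have heqn : V ^ 2 * H = U ^ 3 - U * H ^ 2 := by
    obtain ⟨r, hr⟩ := A.eqn
    have h1 := congrArg (MvPolynomial.eval₂ ((JO P).comp i) y) hr
    have h2 : (MvPolynomial.eval₂ ((JO P).comp i) y A.π : P.O) = 0 := by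
      apply Subtype.ext
      rw [← hev, h0]
      rfl
    rw [MvPolynomial.eval₂_mul, h2, zero_mul] at h1
    simp only [MvPolynomial.eval₂_sub, MvPolynomial.eval₂_mul, MvPolynomial.eval₂_pow] at h1
    rw [← hH, ← hU, ← hV] at h1
    linear_combination h1
  have heqL : (V : L) ^ 2 * H = U ^ 3 - U * H ^ 2 := by
    have := congrArg (fun z : P.O => (z : L)) heqn
    simpa using this
  have e1 : ((U * Hi : P.O) : L) = U / H := by
    rw [div_eq_mul_inv]
    rfl
  have e2 : ((V * Hi : P.O) : L) = V / H := by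
    rw [div_eq_mul_inv]
    rfl
  refine ⟨((U * Hi : P.O) : L), ((V * Hi : P.O) : L), (U * Hi).2, (V * Hi).2, ?_, ?_, ?_⟩
  · rw [e1, e2]
    field_simp
    linear_combination heqL
  · unfold evA
    rw [if_pos hG, hev, hev, hev, e1, e2]
  · unfold evA
    rw [if_pos hgen, red_coe, red_coe, map_mul, map_mul, hφi]
    rw [← φ_eval, ← φ_eval, ← φ_eval]
    rfl

end MP_d2f638_ag.Stab
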