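import Pool.Agent.Lib.MP_d2f638_ag.Stab.Stmts

/-!
# N3: Galois descent of the sums
-/

namespace MP_d2f638_ag.Stab

open Polynomial

lemma Par.map_map {L L' L'' : Type} [Field L] [Field L'] [Field L''] (j : L →+* L')
    (j' : L' →+* L'') (G : Par L) : (G.map j).map j' = G.map (j'.comp j) := by
  simp only [Par.map, Polynomial.map_map]

theorem gal (hnat : stNat) : stGal := by
  intro k F _ _ _ i A G
  let L0 := AlgebraicClosure F
  let j0 : F →+* L0 := algebraMap F L0
  have : CharZero L0 := charZero_of_injective_algebraMap (algebraMap F L0).injective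
  let i0 : k →+* L0 := j0.comp i
  let S1 : E L0 := S i0 A (G.map j0)
  -- invariance
  have hinv : ∀ σ : L0 ≃ₐ[F] L0, Emap (σ : L0 →+* L0) S1 = S1 := by
    intro σ
    have h1 := hnat k L0 L0 i0 (σ : L0 →+* L0) A (G.map j0)
    rw [Par.map_map] at h1
    have h2 : (σ : L0 →+* L0).comp j0 = j0 := by
      ext x
      exact σ.commutes x
    have h3 : (σ : L0 →+* L0).comp i0 = i0 := by
      show (σ : L0 →+* L0).comp (j0.comp i) = j0.comp i
      rw [← RingHom.comp_assoc, h2]
    rw [h2, h3] at h1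
    exact h1.symm
  -- descent
  obtain ⟨S0, hS0⟩ : ∃ S0 : E F, Emap j0 S0 = S1 := by
    rcases exists_pt S1 with h | ⟨x, y, hxy, h⟩
    · exact ⟨0, by rw [map_zero, h]⟩
    · have hfix : ∀ σ : L0 ≃ₐ[F] L0, σ x = x ∧ σ y = y := by
        intro σ
        have h1 := hinv σ
        rw [h, Emap_pt _ hxy] at h1
        have h2 := eqn_map (σ : L0 →+* L0) hxy
        exact pt_inj h2 hxy h1
      have hx : x ∈ (⊥ : IntermediateField F L0) :=
        (InfiniteGalois.mem_bot_iff_fixed x).mpr fun σ => (hfix σ).1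
      have hy : y ∈ (⊥ : IntermediateField F L0) :=
        (InfiniteGalois.mem_bot_iff_fixed y).mpr fun σ => (hfix σ).2
      obtain ⟨x0, hx0⟩ := IntermediateField.mem_bot.mp hx
      obtain ⟨y0, hy0⟩ := IntermediateField.mem_bot.mp hy
      have h3 : (j0 y0) ^ 2 = (j0 x0) ^ 3 - j0 x0 := by
        show (algebraMap F L0 y0) ^ 2 = (algebraMap F L0 x0) ^ 3 - algebraMap F L0 x0
        rw [hx0, hy0]
        exact hxy
      obtain ⟨h4, h5⟩ := exists_of_coord j0 h3
      refine ⟨pt x0 y0, ?_⟩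
      rw [h5, h]
      show pt (algebraMap F L0 x0) (algebraMap F L0 y0) = _
      rw [hx0, hy0]
  refine ⟨S0, ?_⟩
  intro L _ _ _ j
  let _ : Algebra F L := j.toAlgebra
  let τ : L0 →ₐ[F] L := IsAlgClosed.lift
  have h1 := hnat k L L0 i0 (τ : L0 →+* L) A (G.map j0)
  rw [Par.map_map] at h1
  have h2 : (τ : L0 →+* L).comp j0 = j := by
    ext x
    exact τ.commutes x
  have h3 : (τ : L0 →+* L).comp i0 = j.comp i := by
    show (τ : L0 →+* L).comp (j0.comp i) = j.comp i
    rw [← RingHom.comp_assoc, h2]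
  rw [h2, h3] at h1
  rw [h1]
  show Emap (τ : L0 →+* L) S1 = Emap j S0
  rw [← hS0, ← Emap_comp, h2]

end MP_d2f638_ag.Stab
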