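import Pool.Agent.Lib.MP_d2f638_ag.Stab.Stmts

/-!
# The points over the function field of the curve `y² = δ(x)`
-/

namespace MP_d2f638_ag.Stab

open Polynomial

namespace LogM

/-! ## Generalities on the function field -/

section CF

variable {k M : Type} [Field k] [Field M] {iM : k →+* M} {a : k} {x y : M}

lemma eval_mem (K : Subfield M) (h1 : ∀ c, iM c ∈ K) (hx : x ∈ K) (p : k[X]) :
    p.eval₂ iM x ∈ K := by
  induction p using Polynomial.induction_on' with
  | add p q hp hq =>
    rw [eval₂_add]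
    exact K.add_mem hp hq
  | monomial n c =>
    rw [eval₂_monomial]
    exact K.mul_mem (h1 c) (K.pow_mem hx n)

/-- A subfield which contains the constants and the coordinates is everything. -/
lemma top (h : IsCF iM a x y) (K : Subfield M) (h1 : ∀ c, iM c ∈ K) (hx : x ∈ K) (hy : y ∈ K)
    (m : M) : m ∈ K := by
  obtain ⟨p, q, r, hr, hm⟩ := h.gen m
  have hr' : r.eval₂ iM x ≠ 0 := h.trans r hr
  have e : m = (p.eval₂ iM x + q.eval₂ iM x * y) / r.eval₂ iM x := by
    rw [eq_div_iff hr', hm]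
  rw [e]
  exact K.div_mem (K.add_mem (eval_mem K h1 hx p) (K.mul_mem (eval_mem K h1 hx q) hy))
    (eval_mem K h1 hx r)

/-- The polynomial `δ`. -/
noncomputable def dP (a : k) : k[X] := delta (C a) X

lemma eval_dP : (dP a).eval₂ iM x = delta (iM a) x := by
  simp [dP, delta, eval₂_sub, eval₂_pow]

lemma isCoprime_C_left {c : k} (hc : c ≠ 0) (p : k[X]) : IsCoprime (C c) p :=
  ⟨C c⁻¹, 0, by rw [zero_mul, add_zero, ← C_mul, inv_mul_cancel₀ hc, C_1]⟩

lemma dP_separable [CharZero k] (h1 : a ^ 2 ≠ 0) (h2 : a ^ 4 ≠ 1) : (dP a).Separable := by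
  set u : k[X] := X ^ 2 - C a ^ 2 with hu
  have hd : dP a = u ^ 3 - u := rfl
  have hder : derivative (dP a) = (2 * X) * (3 * u ^ 2 - 1) := by
    rw [hd, hu, ← C_pow]
    simp only [derivative_sub, derivative_pow, derivative_X, derivative_C]
    push_cast
    simp only [map_ofNat]
    ring
  have hc1 : IsCoprime (u ^ 3 - u) (3 * u ^ 2 - 1) := by
    refine ⟨C (1 / 2) * (-(9 * u)), C (1 / 2) * (3 * u ^ 2 - 2), ?_⟩
    have e : C (1 / 2 : k) * 2 = 1 := by
      rw [← C_ofNat, ← C_mul]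
      norm_num
    linear_combination e
  have hc2 : IsCoprime (u ^ 3 - u) X := by
    have e : u ^ 3 - u = C (-(a ^ 2) ^ 3 + a ^ 2) +
        X * (X * (X ^ 4 - 3 * X ^ 2 * C a ^ 2 + 3 * C a ^ 4 - 1)) := by
      rw [hu]
      simp only [C_add, C_neg, C_pow]
      ring
    rw [e]
    refine IsCoprime.add_mul_left_left ?_ _
    refine isCoprime_C_left ?_ _
    intro h0
    have h3 : a ^ 2 * (1 - a ^ 4) = 0 := by rw [← h0]; ring
    rcases mul_eq_zero.1 h3 with h4 | h4
    · exact h1 h4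
    · exact h2 (by linear_combination -h4)
  have h3 : IsCoprime (u ^ 3 - u) (2 : k[X]) := by
    rw [← C_ofNat]
    exact (isCoprime_C_left two_ne_zero _).symm
  unfold Polynomial.Separable
  rw [hder, hd]
  exact (h3.mul_right hc2).mul_right hc1

lemma y_ne [CharZero k] (h : IsCF iM a x y) (h1 : a ^ 2 ≠ 0) (h2 : a ^ 4 ≠ 1) : y ≠ 0 := by
  intro h0
  have h3 := h.eqn
  rw [h0, ← eval_dP] at h3
  exact h.trans _ (dP_separable h1 h2).ne_zero (by rw [← h3]; ring)

lemma x_ne (h : IsCF iM a x y) : x ≠ 0 := by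
  intro h0
  have := h.trans X X_ne_zero
  rw [eval₂_X] at this
  exact this h0

end CF

/-! ## Derivations -/

section Der

variable {k M : Type} [Field k] [Field M] {iM : k →+* M} {a : k} {x y : M}

lemma der_eval (D : Derivation ℤ M M) (hD : ∀ c, D (iM c) = 0) (p : k[X]) :
    D (p.eval₂ iM x) = p.derivative.eval₂ iM x * D x := by
  induction p using Polynomial.induction_on' with
  | add p q hp hq =>
    rw [eval₂_add, map_add, hp, hq, derivative_add, eval₂_add, add_mul]
  | monomial n c =>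
    rw [eval₂_monomial, derivative_monomial, eval₂_monomial, D.leibniz, hD, D.leibniz_pow]
    simp only [smul_eq_mul, mul_zero, add_zero, nsmul_eq_mul, map_mul, map_natCast]
    ring

lemma der_y [CharZero M] (h : IsCF iM a x y) (D : Derivation ℤ M M) (hD : ∀ c, D (iM c) = 0) :
    2 * y * D y = (derivative (dP a)).eval₂ iM x * D x := by
  have h1 := congrArg D h.eqn
  rw [← eval_dP, der_eval D hD, D.leibniz_pow] at h1
  rw [← h1]
  simp
  ring

/-- The set where two maps agree with a derivation. -/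
lemma der_zero [CharZero M] [CharZero k] (h : IsCF iM a x y) (h1 : a ^ 2 ≠ 0) (h2 : a ^ 4 ≠ 1)
    (D : Derivation ℤ M M) (hD : ∀ c, D (iM c) = 0) (hx : D x = 0) (m : M) : D m = 0 := by
  let K : Subfield M :=
    { carrier := {m | D m = 0}
      mul_mem' := by
        intro p q hp hq
        change _ = _ at hp hq ⊢
        rw [D.leibniz, hp, hq, smul_zero, smul_zero, add_zero]
      one_mem' := D.map_one_eq_zero
      add_mem' := by
        intro p q hp hq
        change _ = _ at hp hq ⊢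
        rw [map_add, hp, hq, add_zero]
      zero_mem' := map_zero D
      neg_mem' := by
        intro p hp
        change _ = _ at hp ⊢
        rw [map_neg, hp, neg_zero]
      inv_mem' := by
        intro p hp
        change _ = _ at hp ⊢
        rw [D.leibniz_inv, hp, smul_zero] }
  refine top h K hD hx ?_ m
  change D y = 0
  have h3 := der_y h D hD
  rw [hx, mul_zero] at h3
  rcases mul_eq_zero.1 h3 with h4 | h4
  · rcases mul_eq_zero.1 h4 with h5 | h5
    · exact absurd h5 two_ne_zero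
    · exact absurd h5 (y_ne h h1 h2)
  · exact h4

/-- A homomorphism and a derivation commute as soon as they do on the generators. -/
lemma comm (h : IsCF iM a x y) (D : Derivation ℤ M M) (σ : M →+* M)
    (h1 : ∀ c, σ (D (iM c)) = D (σ (iM c))) (h2 : σ (D x) = D (σ x)) (h3 : σ (D y) = D (σ y))
    (m : M) : σ (D m) = D (σ m) := by
  let K : Subfield M :=
    { carrier := {m | σ (D m) = D (σ m)}
      mul_mem' := by
        intro p q hp hq
        change _ = _ at hp hq ⊢
        rw [D.leibniz, map_mul, D.leibniz, ← hp, ← hq]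
        simp
      one_mem' := by simp
      add_mem' := by
        intro p q hp hq
        change _ = _ at hp hq ⊢
        rw [map_add, map_add, hp, hq, map_add, map_add]
      zero_mem' := by simp
      neg_mem' := by
        intro p hp
        change _ = _ at hp ⊢
        rw [map_neg, map_neg, hp, map_neg, map_neg]
      inv_mem' := by
        intro p hp
        change _ = _ at hp ⊢
        rw [D.leibniz_inv, map_inv₀, D.leibniz_inv, ← hp]
        simp }
  exact top h K h1 h2 h3 m

end Der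

/-! ## The logarithmic derivative -/

section DlS

variable {M : Type} [Field M] [CharZero M]

lemma Dl_zero (D : Derivation ℤ M M) : Dl D (0 : E M) = 0 := by
  unfold Dl
  rw [dif_neg]
  rintro ⟨xy, h1, -, h2⟩
  exact pt_ne_zero h1 h2.symm

lemma Dl_pt (D : Derivation ℤ M M) {p q : M} (h : q ^ 2 = p ^ 3 - p) : Dl D (pt p q) = D p / q := by
  unfold Dl
  by_cases hq : q = 0
  · rw [dif_neg, hq, div_zero]
    rintro ⟨xy, h1, h2, h3⟩
    exact h2 ((pt_inj h h1 h3).2 ▸ hq)
  · have h0 : ∃ xy : M × M, xy.2 ^ 2 = xy.1 ^ 3 - xy.1 ∧ xy.2 ≠ 0 ∧ pt p q = pt xy.1 xy.2 :=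
      ⟨(p, q), h, hq, rfl⟩
    rw [dif_pos h0]
    obtain ⟨h1, h2, h3⟩ := h0.choose_spec
    obtain ⟨h4, h5⟩ := pt_inj h h1 h3
    rw [← h4, ← h5]

lemma Dl_map (D : Derivation ℤ M M) (σ : M →+* M) (hσ : ∀ m, σ (D m) = D (σ m)) (B : E M) :
    Dl D (Emap σ B) = σ (Dl D B) := by
  rcases exists_pt B with rfl | ⟨p, q, h, rfl⟩
  · rw [map_zero, Dl_zero, map_zero]
  · rw [Emap_pt σ h, Dl_pt D (eqn_map σ h), Dl_pt D h, map_div₀, hσ]

lemma Dl_const {k : Type} [Field k] [CharZero k] (iM : k →+* M) (D : Derivation ℤ M M)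
    (d : k → k) (hd : ∀ c, D (iM c) = iM (d c)) (P : E k) : ∃ c, Dl D (Emap iM P) = iM c := by
  rcases exists_pt P with rfl | ⟨p, q, h, rfl⟩
  · exact ⟨0, by rw [map_zero, Dl_zero, map_zero]⟩
  · refine ⟨d p / q, ?_⟩
    rw [Emap_pt iM h, Dl_pt D (eqn_map iM h), hd, map_div₀]

end DlS

/-! ## The hyperelliptic involution -/

section Inv

variable {k M : Type} [Field k] [CharZero k] [Field M] [CharZero M] {iM : k →+* M} {a : k}
  {x y : M} {σ : M →+* M}

/-- The hyperelliptic involution. -/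
structure IsH (iM : k →+* M) (x y : M) (σ : M →+* M) : Prop where
  c : ∀ c, σ (iM c) = iM c
  x : σ x = x
  y : σ y = -y

omit [CharZero M] in
lemma exists_H (hh : stCFhom) (h : IsCF iM a x y) (h1 : a ^ 2 ≠ 0) (h2 : a ^ 4 ≠ 1) :
    ∃ σ, IsH iM x y σ := by
  obtain ⟨j, e1, e2, e3⟩ := hh k M M a iM x y iM x (-y) h1 h2 h h.trans
    (by rw [neg_sq]; exact h.eqn)
  exact ⟨j, fun c => congrArg (fun f : k →+* M => f c) e1, e2, e3⟩

omit [CharZero k] [CharZero M] in
lemma H_eval (H : IsH iM x y σ) (p : k[X]) : σ (p.eval₂ iM x) = p.eval₂ iM x := by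
  rw [Polynomial.hom_eval₂, H.x]
  congr 1
  ext c
  exact H.c c

omit [CharZero k] [CharZero M] in
lemma H_invol (h : IsCF iM a x y) (H : IsH iM x y σ) (m : M) : σ (σ m) = m := by
  have h1 : m ∈ RingHom.eqLocusField (σ.comp σ) (RingHom.id M) := by
    refine top h _ ?_ ?_ ?_ m
    · intro c
      change σ (σ (iM c)) = iM c
      rw [H.c, H.c]
    · change σ (σ x) = x
      rw [H.x, H.x]
    · change σ (σ y) = y
      rw [H.y, map_neg, H.y, neg_neg]
  exact h1

omit [CharZero k] in
/-- The invariants are the elements of `k(x)`. -/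
lemma inv_exists (h : IsCF iM a x y) (H : IsH iM x y σ) {m : M}
    (hm : σ m = m) : ∃ n d : k[X], IsCoprime n d ∧ d ≠ 0 ∧
      d.eval₂ iM x * m = n.eval₂ iM x := by
  classical
  obtain ⟨p, q, r, hr, e⟩ := h.gen m
  have e' := congrArg σ e
  rw [map_mul, hm, map_add, map_mul, H_eval H, H_eval H, H_eval H, H.y] at e'
  have hq : q.eval₂ iM x * y = 0 := by
    have h3 : 2 * (q.eval₂ iM x * y) = 0 := by linear_combination e' - e
    rcases mul_eq_zero.1 h3 with h4 | h4
    · exact absurd h4 two_ne_zero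
    · exact h4
  rw [hq, add_zero] at e
  set g := EuclideanDomain.gcd p r with hg
  obtain ⟨p', hp'⟩ := EuclideanDomain.gcd_dvd_left p r
  obtain ⟨r', hr'⟩ := EuclideanDomain.gcd_dvd_right p r
  rw [← hg] at hp' hr'
  have hg0 : g ≠ 0 := by
    intro h0
    rw [h0, zero_mul] at hr'
    exact hr hr'
  refine ⟨p', r', ?_, ?_, ?_⟩
  · refine ⟨EuclideanDomain.gcdA p r, EuclideanDomain.gcdB p r, ?_⟩
    have h3 := EuclideanDomain.gcd_eq_gcd_ab p r
    rw [← hg] at h3
    apply mul_left_cancel₀ hg0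
    calc g * (EuclideanDomain.gcdA p r * p' + EuclideanDomain.gcdB p r * r')
        = (g * p') * EuclideanDomain.gcdA p r + (g * r') * EuclideanDomain.gcdB p r := by ring
      _ = g * 1 := by rw [← hp', ← hr', ← h3, mul_one]
  · rintro rfl
    rw [mul_zero] at hr'
    exact hr hr'
  · apply mul_left_cancel₀ (h.trans g hg0)
    rw [← mul_assoc, ← eval₂_mul, ← eval₂_mul, ← hp', ← hr', mul_comm, e]

/-- The invariant points are constant. -/
lemma inv_point (hC : stC1) (h : IsCF iM a x y)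
    (H : IsH iM x y σ) (B : E M) (hB : Emap σ B = B) : ∃ P0 : E k, B = Emap iM P0 := by
  have hφ : nonZeroDivisors k[X] ≤ (nonZeroDivisors M).comap (eval₂RingHom iM x) := by
    intro p hp
    rw [Submonoid.mem_comap, mem_nonZeroDivisors_iff_ne_zero]
    exact h.trans p (mem_nonZeroDivisors_iff_ne_zero.1 hp)
  set j : RatFunc k →+* M := RatFunc.liftRingHom (eval₂RingHom iM x) hφ with hj
  have hj1 : ∀ p q : k[X], j (algebraMap _ _ p / algebraMap _ _ q) =
      p.eval₂ iM x / q.eval₂ iM x := fun p q => RatFunc.liftRingHom_apply_div _ hφ p q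
  have hjC : j.comp RatFunc.C = iM := by
    ext c
    have h3 := hj1 (C c) 1
    rw [map_one, div_one, RatFunc.algebraMap_C, eval₂_C, eval₂_one, div_one] at h3
    exact h3
  have hsurj : ∀ m, σ m = m → ∃ m', j m' = m := by
    intro m hm
    obtain ⟨n, d, -, hd, e⟩ := inv_exists h H hm
    refine ⟨algebraMap _ _ n / algebraMap _ _ d, ?_⟩
    rw [hj1, div_eq_iff (h.trans d hd), ← e, mul_comm]
  rcases exists_pt B with rfl | ⟨p, q, hpq, rfl⟩
  · exact ⟨0, (map_zero _).symm⟩
  · rw [Emap_pt σ hpq] at hB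
    obtain ⟨e1, e2⟩ := pt_inj (eqn_map σ hpq) hpq hB
    obtain ⟨p', rfl⟩ := hsurj p e1
    obtain ⟨q', rfl⟩ := hsurj q e2
    obtain ⟨-, h4⟩ := exists_of_coord j hpq
    obtain ⟨P0, h5⟩ := hC k (pt p' q')
    refine ⟨P0, ?_⟩
    rw [← h4, h5, ← Emap_comp, hjC]

end Inv

/-! ## The point at infinity -/

section Infty

variable {k M : Type} [Field k] [Field M] {iM : k →+* M} {x y : M}

lemma eval_reflect (hx : x ≠ 0) (N : ℕ) (f : k[X]) (hf : f.natDegree ≤ N) :
    (reflect N f).eval₂ iM x⁻¹ * x ^ N = f.eval₂ iM x := by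
  let _ := invertibleOfNonzero hx
  have := eval₂_reflect_mul_pow iM x N f hf
  rwa [invOf_eq_inv] at this

lemma trans_inv (h : Trans iM x) (hx : x ≠ 0) : Trans iM x⁻¹ := by
  intro p hp h0
  have h1 := eval_reflect (iM := iM) hx p.natDegree (reflect p.natDegree p)
    (reverse_natDegree_le p)
  rw [reflect_reflect, h0, zero_mul] at h1
  exact h (reflect p.natDegree p) (by rwa [Ne, reflect_eq_zero_iff]) h1.symm

/-- The polynomial `δ` at infinity. -/
noncomputable def dR (a : k) : k[X] :=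
  (1 - C a ^ 2 * X ^ 2) ^ 3 - X ^ 4 * (1 - C a ^ 2 * X ^ 2)

lemma dR_separable [CharZero k] {a : k} (h1 : a ^ 2 ≠ 0) (h2 : a ^ 4 ≠ 1) :
    (dR a).Separable := by
  set b : k := a ^ 2 with hb
  have hb1 : b + 1 ≠ 0 := by
    intro h0
    apply h2
    have : a ^ 4 = b ^ 2 := by rw [hb]; ring
    rw [this]
    linear_combination (b - 1) * h0
  have hb2 : b - 1 ≠ 0 := by
    intro h0
    apply h2
    have : a ^ 4 = b ^ 2 := by rw [hb]; ring
    rw [this]
    linear_combination (b + 1) * h0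
  set w : k[X] := X ^ 2 with hw
  set v : k[X] := 1 - C b * w with hv
  set T : k[X] := C b * (3 * v ^ 2 - w ^ 2) + 2 * v * w with hT
  have hd : dR a = v * (v - w) * (v + w) := by
    unfold dR
    rw [hv, hw, hb, C_pow]
    ring
  have hder : derivative (dR a) = C (-2) * (X * T) := by
    rw [hd, hT, hv, hw]
    simp only [derivative_sub, derivative_mul, derivative_add, derivative_pow, derivative_X,
      derivative_C, derivative_one]
    push_cast
    simp only [C_neg, map_ofNat]
    ring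
  have hvw : v + C b * w = 1 := by rw [hv]; ring
  have e1 : IsCoprime v w := ⟨1, C b, by linear_combination hvw⟩
  have e2 : IsCoprime (v - w) w := ⟨1, C (b + 1), by rw [C_add, C_1]; linear_combination hvw⟩
  have e3 : IsCoprime (v + w) w := ⟨1, C (b - 1), by rw [C_sub, C_1]; linear_combination hvw⟩
  have f1 : IsCoprime v X := by
    have := e1
    rw [hw] at this
    exact (IsCoprime.pow_right_iff (by norm_num)).1 this
  have f2 : IsCoprime (v - w) X := by
    have h3 : IsCoprime (v - w) (X ^ 2) := e2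
    exact (IsCoprime.pow_right_iff (by norm_num)).1 h3
  have f3 : IsCoprime (v + w) X := by
    have h3 : IsCoprime (v + w) (X ^ 2) := e3
    exact (IsCoprime.pow_right_iff (by norm_num)).1 h3
  have g1 : IsCoprime v T := by
    have e : T = C (-b) * w ^ 2 + v * (3 * C b * v + 2 * w) := by
      rw [hT, C_neg]
      ring
    rw [e]
    exact ((isCoprime_C_left (neg_ne_zero.2 h1) v).symm.mul_right
      (e1.pow_right (n := 2))).add_mul_left_right _
  have g2 : IsCoprime (v - w) T := by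
    have e : T = C (2 * b + 2) * w ^ 2 + (v - w) * (3 * C b * v + (3 * C b + 2) * w) := by
      rw [hT, C_add, C_mul, C_ofNat]
      ring
    rw [e]
    refine ((isCoprime_C_left ?_ (v - w)).symm.mul_right
      (e2.pow_right (n := 2))).add_mul_left_right _
    have e' : 2 * b + 2 = 2 * (b + 1) := by ring
    rw [e']
    exact mul_ne_zero two_ne_zero hb1
  have g3 : IsCoprime (v + w) T := by
    have e : T = C (2 * b - 2) * w ^ 2 + (v + w) * (3 * C b * v - (3 * C b - 2) * w) := by
      rw [hT, C_sub, C_mul, C_ofNat]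
      ring
    rw [e]
    refine ((isCoprime_C_left ?_ (v + w)).symm.mul_right
      (e3.pow_right (n := 2))).add_mul_left_right _
    have e' : 2 * b - 2 = 2 * (b - 1) := by ring
    rw [e']
    exact mul_ne_zero two_ne_zero hb2
  unfold Polynomial.Separable
  rw [hder, hd]
  refine IsCoprime.mul_right (isCoprime_C_left (by norm_num) _).symm ?_
  exact IsCoprime.mul_left (IsCoprime.mul_left (f1.mul_right g1) (f2.mul_right g2))
    (f3.mul_right g3)

lemma eqn_inf {a : k} (h : IsCF iM a x y) :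
    (y * (x⁻¹) ^ 3) ^ 2 = (dR a).eval₂ iM x⁻¹ := by
  have hx := x_ne h
  rw [mul_pow, h.eqn]
  unfold dR delta
  simp only [eval₂_sub, eval₂_mul, eval₂_pow, eval₂_X, eval₂_C, eval₂_one]
  field_simp

lemma gen_inf {a : k} (h : IsCF iM a x y) (m : M) : ∃ p q r : k[X], r ≠ 0 ∧
    m * r.eval₂ iM x⁻¹ = p.eval₂ iM x⁻¹ + q.eval₂ iM x⁻¹ * (y * (x⁻¹) ^ 3) := by
  have hx := x_ne h
  obtain ⟨p, q, r, hr, e⟩ := h.gen m
  set N := p.natDegree + q.natDegree + r.natDegree with hN
  refine ⟨reflect (N + 3) p, reflect N q, reflect (N + 3) r, by rwa [Ne, reflect_eq_zero_iff], ?_⟩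
  have e1 := eval_reflect (iM := iM) hx (N + 3) p (by omega)
  have e2 := eval_reflect (iM := iM) hx N q (by omega)
  have e3 := eval_reflect (iM := iM) hx (N + 3) r (by omega)
  have hxN : x ^ (N + 3) ≠ 0 := pow_ne_zero _ hx
  apply mul_right_cancel₀ hxN
  have e4 : (x⁻¹) ^ 3 * x ^ (N + 3) = x ^ N := by
    rw [pow_add, mul_comm (x ^ N), ← mul_assoc, ← mul_pow, inv_mul_cancel₀ hx, one_pow, one_mul]
  rw [mul_assoc, e3, e, ← e1, ← e2, add_mul]
  congr 1
  linear_combination (-((reflect N q).eval₂ iM x⁻¹ * y)) * e4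

end Infty

section Linear

variable {k M : Type} [Field k] [IsAlgClosed k] [CharZero k] [Field M] [CharZero M]
  {iM : k →+* M} {a : k} {x y : M} {σ : M →+* M}

/-- The function `g = 2 x y D(p) / q` is a polynomial of degree at most one in `x`. -/
lemma linear (hReg : stReg) (h : IsCF iM a x y) (h1 : a ^ 2 ≠ 0) (h2 : a ^ 4 ≠ 1)
    (H : IsH iM x y σ) (D : Derivation ℤ M M) (hD : ∀ c, D (iM c) = 0) (hDx : 2 * x * D x = 1)
    {p q : M} (hpq : q ^ 2 = p ^ 3 - p) (hq : q ≠ 0)
    (hs : σ (2 * x * y * (D p / q)) = 2 * x * y * (D p / q)) :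
    ∃ l0 l1 : k, 2 * x * y * (D p / q) = iM l0 + iM l1 * x := by
  have hx := x_ne h
  obtain ⟨n, d, hco, hd0, e⟩ := inv_exists h H hs
  have hyeq : y ^ 2 = (dP a).eval₂ iM x := by rw [eval_dP, h.eqn]
  have hu : IsUnit d := by
    refine hReg k M iM (dP a) x y (dP_separable h1 h2) hyeq h.trans h.gen ((2 * x * y) • D)
      (fun c => ?_) ?_ p q n d hpq hq hco hd0 ?_
    · rw [Derivation.smul_apply, hD, smul_zero]
    · rw [Derivation.smul_apply, smul_eq_mul]
      linear_combination y * hDx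
    · rw [Derivation.smul_apply, smul_eq_mul, ← e]
      field_simp
  obtain ⟨c, hc, rfl⟩ := Polynomial.isUnit_iff.1 hu
  have hc0 : c ≠ 0 := hc.ne_zero
  rw [eval₂_C] at e
  set N : k[X] := C c⁻¹ * n with hN
  have hg : 2 * x * y * (D p / q) = N.eval₂ iM x := by
    have hc1 : iM c ≠ 0 := (map_ne_zero iM).2 hc0
    rw [hN, eval₂_mul, eval₂_C, ← e, map_inv₀, ← mul_assoc, inv_mul_cancel₀ hc1, one_mul]
  have hdeg : N.natDegree ≤ 1 := by
    by_contra hcon
    push Not at hcon
    obtain ⟨m, hm⟩ : ∃ m, N.natDegree = m + 2 := ⟨N.natDegree - 2, by omega⟩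
    have hN0 : N ≠ 0 := by
      rintro h0
      rw [h0, natDegree_zero] at hm
      omega
    have hco2 : IsCoprime (-reverse N) (X ^ (m + 1)) := by
      refine IsCoprime.pow_right ?_
      refine ((irreducible_X.coprime_iff_not_dvd).2 ?_).symm
      rw [X_dvd_iff, coeff_neg, coeff_zero_reverse, neg_eq_zero]
      exact leadingCoeff_ne_zero.2 hN0
    have hxm := eval_reflect (iM := iM) hx (m + 2) N (by omega)
    have hrev : reflect (m + 2) N = reverse N := by rw [← hm]; rfl
    rw [hrev] at hxm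
    have hu2 : IsUnit (X ^ (m + 1) : k[X]) := by
      refine hReg k M iM (dR a) x⁻¹ (y * (x⁻¹) ^ 3) (dR_separable h1 h2) (eqn_inf h)
        (trans_inv h.trans hx) (gen_inf h) ((-2 * y) • D)
        (fun c => ?_) ?_ p q (-reverse N) (X ^ (m + 1)) hpq hq hco2 (pow_ne_zero _ X_ne_zero) ?_
      · rw [Derivation.smul_apply, hD, smul_zero]
      · rw [Derivation.smul_apply, smul_eq_mul, D.leibniz_inv, smul_eq_mul]
        have e5 : D x = (2 * x)⁻¹ := eq_inv_of_mul_eq_one_right hDx
        rw [e5]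
        field_simp
      · rw [Derivation.smul_apply, smul_eq_mul, eval₂_pow, eval₂_X, eval₂_neg]
        have e6 : -2 * y * D p * x = -(N.eval₂ iM x * q) := by
          rw [← hg]
          field_simp
        have e7 : (x⁻¹) ^ (m + 1) * x ^ (m + 2) = x := by
          rw [pow_succ x (m + 1), ← mul_assoc, ← mul_pow, inv_mul_cancel₀ hx, one_pow, one_mul]
        apply mul_right_cancel₀ (pow_ne_zero (m + 2) hx)
        calc (x⁻¹) ^ (m + 1) * (-2 * y * D p) * x ^ (m + 2)
            = -2 * y * D p * ((x⁻¹) ^ (m + 1) * x ^ (m + 2)) := by ring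
          _ = -(N.eval₂ iM x * q) := by rw [e7, e6]
          _ = -(reverse N).eval₂ iM x⁻¹ * q * x ^ (m + 2) := by
            rw [← hxm]
            ring
    have h3 := natDegree_eq_zero_of_isUnit hu2
    rw [natDegree_X_pow] at h3
    omega
  obtain ⟨l1, l0, hl⟩ := exists_eq_X_add_C_of_natDegree_le_one hdeg
  refine ⟨l0, l1, ?_⟩
  rw [hg, hl, eval₂_add, eval₂_mul, eval₂_C, eval₂_C, eval₂_X]
  ring

end Linear

/-! ## The differential equation -/

section Main

variable {k M : Type} [Field k] [CharZero k] [Field M] [CharZero M]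
  {iM : k →+* M} {a : k} {x y : M} {σ : M →+* M}

/-- Commuting derivations and the logarithmic derivative. -/
lemma Dl_comm (D T : Derivation ℤ M M) (hDT : ∀ m, D (T m) = T (D m)) {p q : M}
    (hpq : q ^ 2 = p ^ 3 - p) (hq : q ≠ 0) : D (T p / q) = T (D p / q) := by
  have key : ∀ S : Derivation ℤ M M, 2 * q * S q = (3 * p ^ 2 - 1) * S p := by
    intro S
    have h1 := congrArg S hpq
    rw [map_sub, S.leibniz_pow, S.leibniz_pow] at h1
    simp only [smul_eq_mul, nsmul_eq_mul, Nat.cast_ofNat, Nat.add_one_sub_one, pow_one] at h1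
    linear_combination h1
  have h1 : T p * D q = D p * T q := by
    have h2 := key D
    have h3 := key T
    have h4 : (2 * q) * (T p * D q) = (2 * q) * (D p * T q) := by
      linear_combination T p * h2 - D p * h3
    exact mul_left_cancel₀ (mul_ne_zero two_ne_zero hq) h4
  rw [D.leibniz_div, T.leibniz_div, hDT]
  simp only [smul_eq_mul]
  rw [h1]

lemma comp_der (h : IsCF iM a x y) (h1 : a ^ 2 ≠ 0) (h2 : a ^ 4 ≠ 1) (D T : Derivation ℤ M M)
    (hD : ∀ c, D (iM c) = 0) (t : k → k) (hT : ∀ c, T (iM c) = iM (t c))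
    (hx : D (T x) = T (D x)) (m : M) : D (T m) = T (D m) := by
  have h3 := der_zero h h1 h2 ⁅D, T⁆ (fun c => by
    rw [Derivation.commutator_apply, hT, hD, hD, map_zero, sub_zero]) (by
    rw [Derivation.commutator_apply, hx, sub_self]) m
  rw [Derivation.commutator_apply] at h3
  exact sub_eq_zero.1 h3

/-- The polynomial form of the differential equation. -/
lemma ode (hODE : stODE) [IsAlgClosed k] (h : IsCF iM a x y) (h1 : a ^ 2 ≠ 0) (h2 : a ^ 4 ≠ 1)
    (D T : Derivation ℤ M M) (hD : ∀ c, D (iM c) = 0) (hDx : 2 * x * D x = 1)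
    (t : k → k) (hT : ∀ c, T (iM c) = iM (t c)) (hTx : 2 * x * T x = 1) (hTy : T y = 0)
    (l0 l1 c : k) (L E' g2 : M) (hL : 2 * x * y * L = iM l0 + iM l1 * x)
    (hE : E' = iM c + g2 * y) (n d : k[X]) (hd : d ≠ 0) (hg2 : d.eval₂ iM x * g2 = n.eval₂ iM x)
    (hcomm : D E' = T L) : l0 = 0 := by
  have hx := x_ne h
  have hy := y_ne h h1 h2
  refine hODE k a h1 h2 n d l0 (t l0) (t l1) hd ?_
  have hinj : Function.Injective (eval₂RingHom iM x) := by
    rw [injective_iff_map_eq_zero]
    intro p hp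
    by_contra hp0
    exact h.trans p hp0 hp
  apply hinj
  simp only [coe_eval₂RingHom]
  simp only [eval₂_mul, eval₂_add, eval₂_sub, eval₂_pow, eval₂_C, eval₂_X]
  have hδ : (delta (C a) X).eval₂ iM x = y ^ 2 := by
    rw [h.eqn]
    exact eval_dP
  have hδ' : (derivative (delta (C a) X)).eval₂ iM x * D x = 2 * y * D y := (der_y h D hD).symm
  rw [hδ]
  set δ' := (derivative (delta (C a) X)).eval₂ iM x with hδ''
  set n0 := n.eval₂ iM x with hn0
  set d0 := d.eval₂ iM x with hd0
  have hn1 : D n0 = (derivative n).eval₂ iM x * D x := der_eval D hD n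
  have hd1 : D d0 = (derivative d).eval₂ iM x * D x := der_eval D hD d
  set n' := (derivative n).eval₂ iM x with hn'
  set d' := (derivative d).eval₂ iM x with hd'
  have hd00 : d0 ≠ 0 := h.trans d hd
  -- the derivative of `E'`
  have e1 : D E' = D g2 * y + g2 * D y := by
    rw [hE, map_add, hD, zero_add, D.leibniz]
    simp only [smul_eq_mul]
    ring
  have e2 : D d0 * g2 + d0 * D g2 = D n0 := by
    rw [← hg2, D.leibniz]
    simp only [smul_eq_mul]
    ring
  rw [hn1, hd1] at e2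
  -- the derivative of `L`
  have e3 : 2 * y * (L * T x + x * T L) = iM (t l0) + iM (t l1) * x + iM l1 * T x := by
    have h3 := congrArg T hL
    rw [map_add, T.leibniz, T.leibniz, T.leibniz, T.leibniz, hT, hT, hTy] at h3
    have h2' : T (2 : M) = 0 := by
      have := T.map_natCast 2
      simpa using this
    rw [h2'] at h3
    simp only [smul_eq_mul, mul_zero, add_zero, zero_add] at h3
    linear_combination h3
  have e4 : T x = D x := by
    apply mul_left_cancel₀ (mul_ne_zero two_ne_zero hx)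
    rw [hTx, hDx]
  rw [e4] at e3
  rw [← hcomm, e1] at e3
  have h2x : (2 : M) * x ≠ 0 := mul_ne_zero two_ne_zero hx
  have e6 : 4 * x ^ 3 * y * (D g2 * y + g2 * D y) =
      2 * iM (t l0) * x ^ 2 - iM l0 + 2 * iM (t l1) * x ^ 3 := by
    linear_combination (2 * x ^ 2) * e3 - hL + (x * iM l1 - 2 * x * y * L) * hDx
  have h2e : (2 : k[X]).eval₂ iM x = 2 := by
    rw [← C_ofNat, eval₂_C, map_ofNat]
  simp only [map_mul, map_ofNat, h2e]
  linear_combination x ^ 2 * (-(2 * y ^ 2 * (n' * d0 - n0 * d') + δ' * n0 * d0) * hDx -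
    4 * x * y ^ 2 * d0 * e2 + 2 * x * n0 * d0 * hδ' +
    (4 * x * y ^ 2 * d' * D x - 4 * x * y * D y * d0) * hg2) + d0 ^ 2 * e6

lemma T_y (h : IsCF iM a x y) (h1 : a ^ 2 ≠ 0) (h2 : a ^ 4 ≠ 1) (T : Derivation ℤ M M)
    (hTa : T (iM a ^ 2) = 1) (hTx : 2 * x * T x = 1) : T y = 0 := by
  have hy := y_ne h h1 h2
  have h3 := congrArg T h.eqn
  have h4 : T (x ^ 2 - iM a ^ 2) = 0 := by
    rw [map_sub, hTa, T.leibniz_pow]
    simp only [smul_eq_mul, nsmul_eq_mul, Nat.cast_ofNat, Nat.add_one_sub_one, pow_one]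
    linear_combination hTx
  rw [delta, map_sub, T.leibniz_pow, T.leibniz_pow, h4] at h3
  simp only [smul_eq_mul, nsmul_eq_mul, Nat.cast_ofNat, Nat.add_one_sub_one, pow_one, mul_zero,
    sub_zero] at h3
  rcases mul_eq_zero.1 h3 with h5 | h5
  · exact absurd h5 two_ne_zero
  · rcases mul_eq_zero.1 h5 with h6 | h6
    · exact absurd h6 hy
    · exact h6

lemma Dl_const_zero (D : Derivation ℤ M M) (hD : ∀ c, D (iM c) = 0) (P : E k) :
    Dl D (Emap iM P) = 0 := by
  rcases exists_pt P with rfl | ⟨p, q, h, rfl⟩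
  · rw [map_zero, Dl_zero]
  · rw [Emap_pt iM h, Dl_pt D (eqn_map iM h), hD, zero_div]

end Main

end LogM

/-- C6. -/
theorem log (hDlog : stDlog) (hReg : stReg) (hODE : stODE) (hDer : stDer) (hExt : stExt)
    (hC1 : stC1) (hhom : stCFhom) : stLog := by
  intro k M _ _ _ _ _ iM a x y h htr D hD hDx B
  have h1 : a ^ 2 ≠ 0 := by
    intro h0
    have h3 : a = 0 := pow_eq_zero_iff two_ne_zero |>.1 h0
    exact htr (h3 ▸ isAlgebraic_zero)
  have h2 : a ^ 4 ≠ 1 := by
    intro h0
    exact (htr.pow (by norm_num : 0 < 4)) (h0 ▸ isAlgebraic_one)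
  have hx := LogM.x_ne h
  have hy := LogM.y_ne h h1 h2
  obtain ⟨σ, H⟩ := LogM.exists_H hhom h h1 h2
  rcases exists_pt B with rfl | ⟨p, q, hpq, rfl⟩
  · exact ⟨0, by rw [LogM.Dl_zero, zero_mul, map_zero]⟩
  by_cases hq : q = 0
  · exact ⟨0, by rw [LogM.Dl_pt D hpq, hq, div_zero, zero_mul, map_zero]⟩
  have hσσ : σ.comp σ = RingHom.id M := by
    ext m
    exact LogM.H_invol h H m
  obtain ⟨P0, hP0⟩ := LogM.inv_point hC1 h H (pt p q + Emap σ (pt p q)) (by
    rw [map_add, ← Emap_comp, hσσ, Emap_id, add_comm])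
  have hDx' : D x = (2 * x)⁻¹ := eq_inv_of_mul_eq_one_right hDx
  -- `D` commutes with the involution
  have hσ2x : σ (2 * x)⁻¹ = (2 * x)⁻¹ := by
    rw [map_inv₀, map_mul, H.x, map_ofNat]
  have hcD : ∀ m, σ (D m) = D (σ m) := by
    refine LogM.comm h D σ (fun c => ?_) ?_ ?_
    · rw [hD, map_zero, H.c, hD]
    · rw [H.x, hDx', hσ2x]
    · rw [H.y, map_neg]
      have h3 := LogM.der_y h D hD
      have h4 := congrArg σ h3
      rw [map_mul, map_mul, map_mul, H.y, map_ofNat, LogM.H_eval H, hDx', hσ2x, ← hDx', ← h3] at h4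
      have h5 : (2 * y) * (σ (D y)) = (2 * y) * (-D y) := by linear_combination -h4
      exact mul_left_cancel₀ (mul_ne_zero two_ne_zero hy) h5
  set L := Dl D (pt p q) with hLd
  have hL : L = D p / q := LogM.Dl_pt D hpq
  have hσL : σ L = -L := by
    have h3 := congrArg (Dl D) hP0
    rw [hDlog, LogM.Dl_map D σ hcD, LogM.Dl_const_zero D hD, ← hLd] at h3
    linear_combination h3
  -- the second derivation
  obtain ⟨t, ht⟩ := hDer k (a ^ 2) (htr.pow two_pos)
  obtain ⟨T, hT1, hT2⟩ := hExt k M iM a x y h h1 h2 t (2 * x)⁻¹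
  have hTx : 2 * x * T x = 1 := by
    rw [hT2, mul_inv_cancel₀ (mul_ne_zero two_ne_zero hx)]
  have hTy : T y = 0 := by
    refine LogM.T_y h h1 h2 T ?_ hTx
    rw [← map_pow, hT1, ht, map_one]
  have hcT : ∀ m, σ (T m) = T (σ m) := by
    refine LogM.comm h T σ (fun c => ?_) ?_ ?_
    · rw [hT1, H.c, H.c, hT1]
    · rw [H.x, hT2, hσ2x]
    · rw [H.y, map_neg, hTy, map_zero, neg_zero]
  have hDT : ∀ m, D (T m) = T (D m) := by
    refine LogM.comp_der h h1 h2 D T hD t hT1 ?_
    rw [hT2, hDx', D.leibniz_inv, T.leibniz_inv, D.leibniz, T.leibniz, hT2, hDx']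
    have e1 : D (2 : M) = 0 := by
      have := D.map_natCast 2
      simpa using this
    have e2 : T (2 : M) = 0 := by
      have := T.map_natCast 2
      simpa using this
    rw [e1, e2]
  set E1 := Dl T (pt p q) with hE1d
  have hE1 : E1 = T p / q := LogM.Dl_pt T hpq
  obtain ⟨c0, hc0⟩ := LogM.Dl_const iM T t hT1 P0
  have hσE : σ E1 = iM c0 - E1 := by
    have h3 := congrArg (Dl T) hP0
    rw [hDlog, LogM.Dl_map T σ hcT, hc0, ← hE1d] at h3
    linear_combination h3
  set c : k := c0 / 2 with hc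
  have hcc : iM c0 = 2 * iM c := by
    rw [hc, map_div₀, map_ofNat]
    field_simp
  obtain ⟨n, d, -, hd, hnd⟩ := LogM.inv_exists h H (m := (E1 - iM c) / y) (by
    rw [map_div₀, map_sub, hσE, H.c, H.y, hcc, div_neg, ← neg_div]
    congr 1
    ring)
  obtain ⟨l0, l1, hl⟩ := LogM.linear hReg h h1 h2 H D hD hDx hpq hq (by
    rw [← hL, map_mul, map_mul, map_mul, map_ofNat, H.x, H.y, hσL]
    ring)
  have hl0 : l0 = 0 := by
    refine LogM.ode hODE h h1 h2 D T hD hDx t hT1 hTx hTy l0 l1 c L E1 ((E1 - iM c) / y) ?_ ?_ n d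
      hd hnd ?_
    · rw [hL]
      exact hl
    · rw [div_mul_cancel₀ _ hy]
      ring
    · rw [hE1, hL]
      exact LogM.Dl_comm D T hDT hpq hq
  refine ⟨l1 / 2, ?_⟩
  rw [hl0, map_zero, zero_add, ← hL] at hl
  have h3 : 2 * x * (L * y) = 2 * x * iM (l1 / 2) := by
    rw [map_div₀, map_ofNat]
    have h4 : (2 : M) * (iM l1 / 2) = iM l1 := mul_div_cancel₀ _ two_ne_zero
    linear_combination hl - x * h4
  exact mul_left_cancel₀ (mul_ne_zero two_ne_zero hx) h3

end MP_d2f638_ag.Stab
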