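import Pool.Agent.Lib.MP_d2f638_ag.Stab.Stmts

/-!
# M7: Moebius reparametrisation of the line
-/

namespace MP_d2f638_ag.Stab

open Polynomial

namespace MobMod

lemma wz_le {k : Type} [Field k] (π : MvPolynomial (Fin 3) k) {e : Fin 3 →₀ ℕ}
    (he : e ∈ π.support) : e 1 + e 2 ≤ wzdeg π := by
  have h := MvPolynomial.le_weightedTotalDegree (![0, 1, 1] : Fin 3 → ℕ) he
  have h2 : Finsupp.weight (![0, 1, 1] : Fin 3 → ℕ) e = e 1 + e 2 := by
    rw [Finsupp.weight_apply, Finsupp.sum_fintype _ _ (fun i => by simp), Fin.sum_univ_three]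
    simp
  rw [h2] at h
  exact h

/-- Roots of the transformed product. -/
lemma roots_prod {L : Type} [Field L] (ρ ws : L) (hw : ws ≠ ρ) (R : Multiset L) [DecidableEq L] :
    (R.map (fun η => (X - C ρ) - C η * (X - C ws))).prod ≠ 0 ∧
    (R.map (fun η => (X - C ρ) - C η * (X - C ws))).prod.roots =
      (R.filter (fun η => η ≠ 1)).map (fun η => (ws * η - ρ) / (η - 1)) := by
  have hw' : ws - ρ ≠ 0 := sub_ne_zero.2 hw
  induction R using Multiset.induction_on with
  | empty => simp
  | cons η R ih =>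
    obtain ⟨h1, h2⟩ := ih
    rw [Multiset.map_cons, Multiset.prod_cons]
    by_cases hη : η = 1
    · have e1 : (X - C ρ) - C η * (X - C ws) = C (ws - ρ) := by
        rw [hη, C_1, C_sub]; ring
      rw [e1]
      refine ⟨mul_ne_zero (C_ne_zero.2 hw') h1, ?_⟩
      rw [roots_C_mul _ hw', h2, Multiset.filter_cons_of_neg (p := fun η : L => η ≠ 1) _
        (not_not.mpr hη)]
    · have hη1 : 1 - η ≠ 0 := sub_ne_zero.2 (Ne.symm hη)
      have hη2 : η - 1 ≠ 0 := sub_ne_zero.2 hη
      have e1 : (X - C ρ) - C η * (X - C ws) = C (1 - η) * (X - C ((ws * η - ρ) / (η - 1))) := by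
        have e2 : (1 - η) * ((ws * η - ρ) / (η - 1)) = ρ - η * ws := by
          field_simp
          ring
        have e3 : C (1 - η) * (X - C ((ws * η - ρ) / (η - 1))) =
            C (1 - η) * X - C ((1 - η) * ((ws * η - ρ) / (η - 1))) := by
          rw [mul_sub, C_mul]
        rw [e3, e2]
        simp only [C_sub, C_mul, C_1]
        ring
      rw [e1, mul_assoc]
      refine ⟨mul_ne_zero (C_ne_zero.2 hη1) (mul_ne_zero (X_sub_C_ne_zero _) h1), ?_⟩
      rw [roots_C_mul _ hη1, roots_mul (mul_ne_zero (X_sub_C_ne_zero _) h1), roots_X_sub_C, h2,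
        Multiset.filter_cons_of_pos (p := fun η : L => η ≠ 1) _ hη, Multiset.map_cons,
        Multiset.singleton_add]

end MobMod

open MobMod

theorem mob : stMob := by
  classical
  intro k L _ _ _ _ _ _ i A x ρ ws ν hAI hw
  have hw' : ws - ρ ≠ 0 := sub_ne_zero.2 hw
  set κ : L := ν / (ws - ρ) with hκ
  have hκν : κ * (ws - ρ) = ν := div_mul_cancel₀ _ hw'
  have hν : ν ≠ 0 := by
    have h := hAI (MvPolynomial.X 2) (MvPolynomial.X_ne_zero 2)
    simpa using h
  have hκ0 : κ ≠ 0 := div_ne_zero hν hw'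
  have hπ := hAI A.π A.irr.ne_zero
  set N := wzdeg A.π with hN
  set G1 : Par L := ⟨C x, C ws * X - C ρ, C ν * X, X - 1⟩ with hG1
  set G2 : Par L := lineP x ρ κ with hG2
  set f1 := subsPar i A.π G1 with hf1
  set f2 := subsPar i A.π G2 with hf2
  -- evaluation of the two polynomials
  have ev1 : ∀ η : L, f1.eval η = ∑ e ∈ A.π.support, i (A.π.coeff e) * x ^ (e 0) *
      (ws * η - ρ) ^ (e 1) * (ν * η) ^ (e 2) * (η - 1) ^ (N - e 1 - e 2) := by
    intro η
    rw [hf1, subsPar, eval_finsetSum]
    refine Finset.sum_congr rfl fun e _ => ?_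
    rw [← hN]
    simp only [hG1, eval_mul, eval_pow, eval_C, eval_sub, eval_X, eval_one]
  have ev2 : ∀ l : L, f2.eval l = ∑ e ∈ A.π.support, i (A.π.coeff e) * x ^ (e 0) *
      l ^ (e 1) * (κ * (l - ρ)) ^ (e 2) := by
    intro l
    rw [hf2, subsPar, eval_finsetSum]
    refine Finset.sum_congr rfl fun e _ => ?_
    simp [hG2, lineP]
  -- the transformation
  have key : ∀ l : L, l ≠ ws →
      f1.eval ((l - ρ) / (l - ws)) * (l - ws) ^ N = (ws - ρ) ^ N * f2.eval l := by
    intro l hl
    have hl' : l - ws ≠ 0 := sub_ne_zero.2 hl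
    rw [ev1, ev2, Finset.sum_mul, Finset.mul_sum]
    refine Finset.sum_congr rfl fun e he => ?_
    have hle := wz_le A.π he
    have hNe : (l - ws) ^ N = (l - ws) ^ (e 1) * (l - ws) ^ (e 2) *
        (l - ws) ^ (N - e 1 - e 2) := by
      rw [← pow_add, ← pow_add]
      congr 1
      omega
    have hNe' : (ws - ρ) ^ N = (ws - ρ) ^ (e 1) * (ws - ρ) ^ (e 2) *
        (ws - ρ) ^ (N - e 1 - e 2) := by
      rw [← pow_add, ← pow_add]
      congr 1
      omega
    rw [hNe, hNe']
    have a1 : (ws * ((l - ρ) / (l - ws)) - ρ) * (l - ws) = l * (ws - ρ) := by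
      field_simp
      ring
    have a2 : ν * ((l - ρ) / (l - ws)) * (l - ws) = κ * (l - ρ) * (ws - ρ) := by
      rw [← hκν]
      field_simp
    have a3 : ((l - ρ) / (l - ws) - 1) * (l - ws) = ws - ρ := by
      field_simp
      ring
    calc i (A.π.coeff e) * x ^ (e 0) * (ws * ((l - ρ) / (l - ws)) - ρ) ^ (e 1) *
          (ν * ((l - ρ) / (l - ws))) ^ (e 2) * ((l - ρ) / (l - ws) - 1) ^ (N - e 1 - e 2) *
          ((l - ws) ^ (e 1) * (l - ws) ^ (e 2) * (l - ws) ^ (N - e 1 - e 2))
        = i (A.π.coeff e) * x ^ (e 0) * ((ws * ((l - ρ) / (l - ws)) - ρ) * (l - ws)) ^ (e 1) *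
          (ν * ((l - ρ) / (l - ws)) * (l - ws)) ^ (e 2) *
          (((l - ρ) / (l - ws) - 1) * (l - ws)) ^ (N - e 1 - e 2) := by
            generalize ws * ((l - ρ) / (l - ws)) - ρ = p1
            generalize ν * ((l - ρ) / (l - ws)) = p2
            generalize (l - ρ) / (l - ws) - 1 = p3
            generalize l - ws = p4
            generalize N - e 1 - e 2 = n3
            rw [mul_pow, mul_pow, mul_pow]; ring
      _ = i (A.π.coeff e) * x ^ (e 0) * (l * (ws - ρ)) ^ (e 1) *
          (κ * (l - ρ) * (ws - ρ)) ^ (e 2) * (ws - ρ) ^ (N - e 1 - e 2) := by rw [a1, a2, a3]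
      _ = _ := by rw [mul_pow, mul_pow]; ring
  -- the value of `f2` at `ws`
  have hf2ws : f2.eval ws ≠ 0 := by
    have h : f2.eval ws = MvPolynomial.eval₂ i ![x, ws, ν] A.π := by
      rw [ev2, MvPolynomial.eval₂_eq']
      refine Finset.sum_congr rfl fun e _ => ?_
      rw [Fin.prod_univ_three, hκν]
      simp
      ring
    rw [h]
    exact hπ
  have hf2ne : f2 ≠ 0 := by
    intro h
    rw [h, eval_zero] at hf2ws
    exact hf2ws rfl
  -- the degree of `f1`
  have hdeg : f1.natDegree ≤ N := by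
    rw [hf1, subsPar]
    refine natDegree_sum_le_of_forall_le _ _ fun e he => ?_
    have hle := wz_le A.π he
    have d0 : (C (i (A.π.coeff e)) * G1.T ^ (e 0)).natDegree ≤ 0 := by
      have : C (i (A.π.coeff e)) * G1.T ^ (e 0) = C (i (A.π.coeff e) * x ^ (e 0)) := by
        simp [hG1]
      rw [this, natDegree_C]
    have d1 : (G1.W ^ (e 1)).natDegree ≤ e 1 * 1 := by
      refine natDegree_pow_le_of_le _ ?_
      simp only [hG1]
      compute_degree
    have d2 : (G1.Z ^ (e 2)).natDegree ≤ e 2 * 1 := by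
      refine natDegree_pow_le_of_le _ ?_
      simp only [hG1]
      compute_degree
    have d3 : (G1.D ^ (wzdeg A.π - e 1 - e 2)).natDegree ≤ (wzdeg A.π - e 1 - e 2) * 1 := by
      refine natDegree_pow_le_of_le _ ?_
      simp only [hG1]
      compute_degree
    have h1 := natDegree_mul_le_of_le (natDegree_mul_le_of_le (natDegree_mul_le_of_le d0 d1) d2) d3
    refine h1.trans ?_
    omega
  have hf1ne : f1 ≠ 0 := by
    intro h
    have h2 : ∀ l, l ≠ ws → f2.eval l = 0 := by
      intro l hl
      have h3 := key l hl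
      rw [h, eval_zero, zero_mul] at h3
      exact (mul_eq_zero.1 h3.symm).resolve_left (pow_ne_zero _ hw')
    apply hf2ne
    refine eq_of_infinite_eval_eq _ _ ?_
    refine Set.Infinite.mono (s := {ws}ᶜ) ?_ ?_
    · intro l hl
      simp only [Set.mem_ofPred_eq, eval_zero]
      exact h2 l hl
    · exact (Set.finite_singleton ws).infinite_compl
  -- factorisation
  have hsp := IsAlgClosed.splits f1
  set R := f1.roots with hR
  have hcardR : R.card ≤ N := (card_roots' f1).trans hdeg
  set c : L := f1.leadingCoeff / (ws - ρ) ^ N with hc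
  have hc0 : c ≠ 0 := div_ne_zero (leadingCoeff_ne_zero.2 hf1ne) (pow_ne_zero _ hw')
  have hid : f2 = C c * ((X - C ws) ^ (N - R.card) *
      (R.map (fun η => (X - C ρ) - C η * (X - C ws))).prod) := by
    refine eq_of_infinite_eval_eq _ _ ?_
    refine Set.Infinite.mono (s := {ws}ᶜ) ?_ (Set.finite_singleton ws).infinite_compl
    intro l hl
    have hl' : l - ws ≠ 0 := sub_ne_zero.2 hl
    have h3 := key l hl
    rw [hsp.eval_eq_prod_roots] at h3
    have h4 : (f1.roots.map (fun a => (l - ρ) / (l - ws) - a)).prod * (l - ws) ^ R.card =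
        (R.map (fun η => (l - ρ) - η * (l - ws))).prod := by
      rw [← hR]
      generalize R = R'
      induction R' using Multiset.induction_on with
      | empty => simp
      | cons η R' ih =>
        rw [Multiset.map_cons, Multiset.prod_cons, Multiset.card_cons, pow_succ, Multiset.map_cons,
          Multiset.prod_cons, ← ih]
        have : ((l - ρ) / (l - ws) - η) * (l - ws) = (l - ρ) - η * (l - ws) := by
          field_simp
        rw [← this]
        ring
    have h5 : (l - ws) ^ N = (l - ws) ^ R.card * (l - ws) ^ (N - R.card) := by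
      rw [← pow_add]
      congr 1
      omega
    show eval l f2 = eval l _
    have h6 : eval l ((R.map (fun η => (X - C ρ) - C η * (X - C ws))).prod) =
        (R.map (fun η => (l - ρ) - η * (l - ws))).prod := by
      rw [eval_multiset_prod, Multiset.map_map]
      congr 1
      refine Multiset.map_congr rfl fun η _ => ?_
      simp
    rw [eval_mul, eval_mul, h6, eval_C, eval_pow, ← h4]
    simp only [eval_sub, eval_X, eval_C]
    rw [hc, div_mul_eq_mul_div, eq_div_iff (pow_ne_zero _ hw'), mul_comm, ← h3, h5]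
    ring
  have hRN : N - R.card = 0 := by
    by_contra hne
    apply hf2ws
    rw [hid]
    simp [hne]
  rw [hRN, pow_zero, one_mul] at hid
  obtain ⟨_, hroots⟩ := roots_prod ρ ws hw R
  have hf2roots : f2.roots = (R.filter (fun η => η ≠ 1)).map (fun η => (ws * η - ρ) / (η - 1)) := by
    rw [hid, roots_C_mul _ hc0, hroots]
  -- the sums
  unfold S rts
  rw [← hf1, ← hf2, ← hR, hf2roots, Multiset.filter_map, Multiset.map_map, Multiset.filter_filter]
  have hfil : ∀ η ∈ R, ((eval η G1.Z ≠ 0 ∧ eval η G1.D ≠ 0) ↔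
      (((fun l => eval l G2.Z ≠ 0 ∧ eval l G2.D ≠ 0) ∘ fun η => (ws * η - ρ) / (η - 1)) η ∧
        η ≠ 1)) := by
    intro η _
    simp only [hG1, hG2, lineP, Function.comp_apply, eval_mul, eval_C, eval_X, eval_sub, eval_one,
      ne_eq, one_ne_zero, not_false_eq_true, and_true, mul_eq_zero, hν, hκ0, false_or]
    constructor
    · rintro ⟨h1, h2⟩
      refine ⟨fun h3 => ?_, fun h3 => h2 (by rw [h3, sub_self])⟩
      have h4 : ((ws * η - ρ) / (η - 1) - ρ) * (η - 1) = η * (ws - ρ) := by
        field_simp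
        ring
      rw [h3, zero_mul] at h4
      rcases mul_eq_zero.1 h4.symm with h5 | h5
      · exact h1 h5
      · exact hw' h5
    · rintro ⟨h1, h2⟩
      have h2' : η - 1 ≠ 0 := sub_ne_zero.2 h2
      refine ⟨fun h3 => h1 ?_, h2'⟩
      rw [h3]
      simp
  congr 1
  rw [Multiset.filter_congr hfil]
  refine Multiset.map_congr ?_ ?_
  · congr
  · intro η hη
    have hη' := (Multiset.mem_filter.1 hη).2
    have h1 : η ≠ 1 := hη'.2
    have h1' : η - 1 ≠ 0 := sub_ne_zero.2 h1
    show evA i A (G1.at η) = evA i A (G2.at ((ws * η - ρ) / (η - 1)))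
    congr 1
    simp only [Par.at, hG1, hG2, lineP, eval_C, eval_sub, eval_mul, eval_X, eval_one, div_one]
    congr 2
    · congr 1
      rw [← hκν]
      field_simp
      ring

end MP_d2f638_ag.Stab
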