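import Pool.Agent.Lib.MP_d2f638_ag.Stab.Ell

/-!
# Basic definitions for the disproof of stable rationality

Constants `a`, `b` with `b² = a² - 1` stand for `√β` and `√(β - 1)`. The threefold is
`z (F / z) = F`, `F = Q(t) w² + R(t)`.
-/

namespace MP_d2f638_ag.Stab

open Polynomial

section Poly

variable {A : Type} [CommRing A]

/-- `Q(t) = (t + a)(t + b)`. -/
def Qf (a b t : A) : A := (t + a) * (t + b)

/-- `R(t) = (t - a)(t - b)(t² - a² - 1)`. -/
def Rf (a b t : A) : A := (t - a) * (t - b) * (t ^ 2 - a ^ 2 - 1)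

/-- `F(t, w) = Q(t) w² + R(t)`. -/
def Ff (a b t w : A) : A := Qf a b t * w ^ 2 + Rf a b t

/-- `δ(x) = u³ - u` with `u = x² - a²`. -/
def delta (a x : A) : A := (x ^ 2 - a ^ 2) ^ 3 - (x ^ 2 - a ^ 2)

lemma Qf_mul_Rf {a b x : A} (h : b ^ 2 = a ^ 2 - 1) : Qf a b x * Rf a b x = delta a x := by
  unfold Qf Rf delta
  have h1 : (x + b) * (x - b) = x ^ 2 - a ^ 2 + 1 := by linear_combination -h
  have h2 : (x + a) * (x - a) = x ^ 2 - a ^ 2 := by ring
  calc (x + a) * (x + b) * ((x - a) * (x - b) * (x ^ 2 - a ^ 2 - 1))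
      = ((x + a) * (x - a)) * ((x + b) * (x - b)) * (x ^ 2 - a ^ 2 - 1) := by ring
    _ = (x ^ 2 - a ^ 2) * (x ^ 2 - a ^ 2 + 1) * (x ^ 2 - a ^ 2 - 1) := by rw [h1, h2]
    _ = _ := by ring

variable {B : Type} [CommRing B] (f : A →+* B)

lemma map_Qf (a b t : A) : f (Qf a b t) = Qf (f a) (f b) (f t) := by simp [Qf]

lemma map_Rf (a b t : A) : f (Rf a b t) = Rf (f a) (f b) (f t) := by simp [Rf]

lemma map_Ff (a b t w : A) : f (Ff a b t w) = Ff (f a) (f b) (f t) (f w) := by
  simp [Ff, map_Qf, map_Rf]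

lemma map_delta (a x : A) : f (delta a x) = delta (f a) (f x) := by simp [delta]

end Poly

/-- A parametrised curve `l ↦ (T(l), W(l) / D(l), Z(l) / D(l))`. -/
structure Par (L : Type) [Field L] where
  T : L[X]
  W : L[X]
  Z : L[X]
  D : L[X]

/-- Change of the field of coefficients. -/
noncomputable def Par.map {L L' : Type} [Field L] [Field L'] (j : L →+* L') (G : Par L) : Par L' :=
  ⟨G.T.map j, G.W.map j, G.Z.map j, G.D.map j⟩

/-- The point of the curve with parameter `l`. -/
noncomputable def Par.at {L : Type} [Field L] (G : Par L) (l : L) : Fin 3 → L :=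
  ![G.T.eval l, G.W.eval l / G.D.eval l, G.Z.eval l / G.D.eval l]

/-- An irreducible surface `π = 0` in `(t, w, z)`-space together with a point
`(gu / h, gy / h)` of the curve `y² = u³ - u` over its function field. -/
structure AD (k : Type) [Field k] where
  π : MvPolynomial (Fin 3) k
  gu : MvPolynomial (Fin 3) k
  gy : MvPolynomial (Fin 3) k
  h : MvPolynomial (Fin 3) k
  irr : Irreducible π
  ndvd : ¬ π ∣ h
  eqn : π ∣ gy ^ 2 * h - (gu ^ 3 - gu * h ^ 2)

variable {k L : Type} [Field k] [Field L]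

/-- `P` is a generic point (over `k`) of the surface `π = 0`. -/
def Gen (i : k →+* L) (π : MvPolynomial (Fin 3) k) (P : Fin 3 → L) : Prop :=
  ∀ q : MvPolynomial (Fin 3) k, MvPolynomial.eval₂ i P q = 0 ↔ π ∣ q

open Classical in
/-- The value of the point of the elliptic curve at a generic point of the surface. -/
noncomputable def evA (i : k →+* L) [CharZero L] (A : AD k) (P : Fin 3 → L) : E L :=
  if Gen i A.π P then
    pt (MvPolynomial.eval₂ i P A.gu / MvPolynomial.eval₂ i P A.h)
      (MvPolynomial.eval₂ i P A.gy / MvPolynomial.eval₂ i P A.h)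
  else 0

/-- The degree of a polynomial in the variables `w`, `z`. -/
noncomputable def wzdeg (π : MvPolynomial (Fin 3) k) : ℕ :=
  MvPolynomial.weightedTotalDegree ![0, 1, 1] π

/-- The polynomial `D^N π(T, W / D, Z / D)`, `N` the degree in `w`, `z`. -/
noncomputable def subsPar (i : k →+* L) (π : MvPolynomial (Fin 3) k) (G : Par L) : L[X] :=
  ∑ e ∈ π.support, C (i (π.coeff e)) * G.T ^ (e 0) * G.W ^ (e 1) * G.Z ^ (e 2) *
    G.D ^ (wzdeg π - e 1 - e 2)

open Classical in
/-- The parameters of the intersection points of the curve and the surface (with multiplicity)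
outside `Z = 0` and `D = 0`. -/
noncomputable def rts (i : k →+* L) (π : MvPolynomial (Fin 3) k) (G : Par L) : Multiset L :=
  (subsPar i π G).roots.filter (fun l => G.Z.eval l ≠ 0 ∧ G.D.eval l ≠ 0)

/-- The sum of the values of the point of the elliptic curve over the intersection points. -/
noncomputable def S (i : k →+* L) [CharZero L] (A : AD k) (G : Par L) : E L :=
  ((rts i A.π G).map (fun l => evA i A (G.at l))).sum

/-- The line `t = x`, `z = κ (w - ρ)`. -/
noncomputable def lineP (x ρ κ : L) : Par L := ⟨C x, X, C κ * (X - C ρ), 1⟩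

/-- The curve `w = w(t)` linear with `w(r) = ρ`, `w(r') = ρ'`, `z = μ (t - r)(t - r')`. -/
noncomputable def secP (r ρ r' ρ' μ : L) : Par L :=
  ⟨X, C (ρ / (r - r')) * (X - C r') + C (ρ' / (r' - r)) * (X - C r),
    C μ * (X - C r) * (X - C r'), 1⟩

/-- The curve `z = μ (t - r)(t - r')(t - r'') / (t - τ)`, `w` of the form
`w0 + w1 t + ν / (t - τ)` with values `ρ, ρ', ρ''` at `r, r', r''`. -/
noncomputable def triP (r ρ r' ρ' r'' ρ'' τ μ : L) : Par L :=
  ⟨X, C (ρ * (r - τ) / ((r - r') * (r - r''))) * ((X - C r') * (X - C r'')) +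
      C (ρ' * (r' - τ) / ((r' - r) * (r' - r''))) * ((X - C r) * (X - C r'')) +
      C (ρ'' * (r'' - τ) / ((r'' - r) * (r'' - r'))) * ((X - C r) * (X - C r')),
    C μ * ((X - C r) * (X - C r') * (X - C r'')), X - C τ⟩

/-- Transcendence over (the image of) a field, in terms of homomorphisms. -/
def Trans (i : k →+* L) (x : L) : Prop := ∀ p : k[X], p ≠ 0 → p.eval₂ i x ≠ 0

end MP_d2f638_ag.Stab
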