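import Pool.Agent.Lib.MP_d2f638_ag.Stab.Base

/-!
# Statements of the modules
-/

namespace MP_d2f638_ag.Stab

open Polynomial

/-! ## Algebraic independence and closure with respect to a homomorphism -/

/-- Algebraic independence over (the image of) `k`. -/
def AI {k L : Type} [Field k] [Field L] (i : k →+* L) {n : ℕ} (v : Fin n → L) : Prop :=
  ∀ p : MvPolynomial (Fin n) k, p ≠ 0 → MvPolynomial.eval₂ i v p ≠ 0

/-- The algebraic closure in `L` of the field generated by `i(k)` and a set. -/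
def clF {k L : Type} [Field k] [Field L] (i : k →+* L) (T : Set L) : Subfield L :=
  (algebraicClosure (Subfield.closure (Set.range i ∪ T)) L).toSubfield

/-- R1. `n + 1` independent elements are not algebraic over `n` elements. -/
def stRank : Prop := ∀ (k L : Type) [Field k] [Field L] (i : k →+* L) (n : ℕ)
    (v : Fin (n + 1) → L) (u : Fin n → L), AI i v → ¬ ∀ j, v j ∈ clF i (Set.range u)

/-- R2. `n` elements over which `n` independent elements are algebraic are independent. -/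
def stBasis : Prop := ∀ (k L : Type) [Field k] [Field L] (i : k →+* L) (n : ℕ)
    (v : Fin n → L) (u : Fin n → L), AI i v → (∀ j, v j ∈ clF i (Set.range u)) → AI i u

/-- R3. Adding an element which is not algebraic. -/
def stSnoc : Prop := ∀ (k L : Type) [Field k] [Field L] (i : k →+* L) (n : ℕ)
    (v : Fin n → L) (x : L), AI i (Fin.snoc v x : Fin (n + 1) → L) ↔
      AI i v ∧ x ∉ clF i (Set.range v)

/-- R4. Over a countable field the closure of a countable set is countable. -/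
def stCount : Prop := ∀ (k L : Type) [Field k] [Countable k] [Field L] (i : k →+* L) (T : Set L),
    T.Countable → (clF i T : Set L).Countable

/-! ## Generic points -/

/-- N1. A zero of `π` whose coordinates are not all algebraic over one element is generic. -/
def stGen : Prop := ∀ (k L : Type) [Field k] [Field L] (i : k →+* L)
    (π : MvPolynomial (Fin 3) k) (P : Fin 3 → L), Irreducible π → MvPolynomial.eval₂ i P π = 0 →
    (¬ ∃ e : L, ∀ j, P j ∈ clF i {e}) → Gen i π P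

/-- N2. Compatibility of the sums with homomorphisms. -/
def stNat : Prop := ∀ (k L L' : Type) [Field k] [Field L] [Field L'] [CharZero L] [CharZero L']
    [IsAlgClosed L'] (i : k →+* L') (j : L' →+* L) (A : AD k) (G : Par L'),
    S (j.comp i) A (G.map j) = Emap j (S i A G)

/-- N3. Galois descent: the sum is defined over the field of definition of the curve. -/
def stGal : Prop := ∀ (k F : Type) [Field k] [Field F] [CharZero F] (i : k →+* F) (A : AD k)
    (G : Par F), ∃ S0 : E F, ∀ (L : Type) [Field L] [CharZero L] [IsAlgClosed L] (j : F →+* L),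
    S (j.comp i) A (G.map j) = Emap j S0

/-- N4. There are no non-constant points over `F(t)`. -/
def stC1 : Prop := ∀ (F : Type) [Field F] [CharZero F] (P : E (RatFunc F)),
    ∃ P0 : E F, P = Emap (RatFunc.C (K := F)) P0

/-! ## Function field of the curve `y² = δ(x)` -/

/-- `M = k(x, y)`, `y² = δ(x)`. -/
structure IsCF {k M : Type} [Field k] [Field M] (iM : k →+* M) (a : k) (x y : M) : Prop where
  eqn : y ^ 2 = delta (iM a) x
  trans : Trans iM x
  gen : ∀ m : M, ∃ p q r : k[X], r ≠ 0 ∧ m * r.eval₂ iM x = p.eval₂ iM x + q.eval₂ iM x * y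

/-- F1. Existence of the function field. -/
def stCFex : Prop := ∀ (k : Type) [Field k] [CharZero k] (a : k), a ^ 2 ≠ 0 → a ^ 4 ≠ 1 →
    ∃ (M : Type) (_ : Field M) (_ : CharZero M) (iM : k →+* M) (x y : M), IsCF iM a x y

/-- F2. Universal property of the function field. -/
def stCFhom : Prop := ∀ (k M L : Type) [Field k] [CharZero k] [Field M] [Field L] (a : k)
    (iM : k →+* M) (x y : M) (i : k →+* L) (x0 y0 : L), a ^ 2 ≠ 0 → a ^ 4 ≠ 1 →
    IsCF iM a x y → Trans i x0 → y0 ^ 2 = delta (i a) x0 →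
    ∃ j : M →+* L, j.comp iM = i ∧ j x = x0 ∧ j y = y0

/-! ## Multiplicities and degrees of the intersections -/

/-- The multiplicity `m0` of a root with `Z = F = 0`, depending only on `π`. -/
structure IsMult {k : Type} [Field k] (a b : k) (π : MvPolynomial (Fin 3) k) (m0 : ℕ) : Prop where
  lower : ∀ (L : Type) [Field L] (i : k →+* L) (G : Par L) (r : L), G.D.eval r ≠ 0 →
    G.Z.eval r = 0 → Ff (i a) (i b) (G.T.eval r) (G.W.eval r / G.D.eval r) = 0 →
    (X - C r) ^ m0 ∣ subsPar i π G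
  exact : ∀ (L : Type) [Field L] (i : k →+* L) (G : Par L) (r : L), G.D = 1 →
    G.Z.eval r = 0 → Ff (i a) (i b) (G.T.eval r) (G.W.eval r) = 0 →
    Trans i (G.T.eval r) →
    (Ff (C (i a)) (C (i b)) G.T G.W).derivative.eval r ≠ 0 →
    (∀ c : L, c ∈ clF i {G.T.eval r} → G.Z.derivative.eval r ≠
      c * (Ff (C (i a)) (C (i b)) G.T G.W).derivative.eval r) →
    (subsPar i π G).rootMultiplicity r = m0

/-- M1. -/
def stMult : Prop := ∀ (k : Type) [Field k] [CharZero k] (a b : k)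
    (π : MvPolynomial (Fin 3) k), b ^ 2 = a ^ 2 - 1 → a ^ 2 ≠ 0 → a ^ 4 ≠ 1 → π ≠ 0 →
    ∃ m0, IsMult a b π m0

/-- The weighted degree (`t`, `w` of weight one, `z` of weight two). -/
noncomputable def wdeg {k : Type} [Field k] (π : MvPolynomial (Fin 3) k) : ℕ :=
  MvPolynomial.weightedTotalDegree ![1, 1, 2] π

/-- The polynomial `F` in three variables. -/
noncomputable def FP {k : Type} [Field k] (a b : k) : MvPolynomial (Fin 3) k :=
  Ff (MvPolynomial.C a) (MvPolynomial.C b) (MvPolynomial.X 0) (MvPolynomial.X 1)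

/-- The data for sections through two independent points. -/
structure SecH {k L : Type} [Field k] [Field L] (i : k →+* L) (a b : k) (r ρ r' ρ' μ : L) :
    Prop where
  eq1 : Ff (i a) (i b) r ρ = 0
  eq2 : Ff (i a) (i b) r' ρ' = 0
  ind : AI i ![r, r', μ]

/-- M2. Degree of the intersection with a section. -/
def stSecDeg : Prop := ∀ (k L : Type) [Field k] [IsAlgClosed k] [CharZero k] [Field L]
    (i : k →+* L) (a b : k) (π : MvPolynomial (Fin 3) k) (r ρ r' ρ' μ : L), b ^ 2 = a ^ 2 - 1 →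
    a ^ 2 ≠ 0 → a ^ 4 ≠ 1 → π ≠ 0 → SecH i a b r ρ r' ρ' μ →
    (subsPar i π (secP r ρ r' ρ' μ)).natDegree = wdeg π

/-- M3. Multiplicities of the intersection with a section at the excluded points. -/
def stSecMult : Prop := ∀ (k L : Type) [Field k] [IsAlgClosed k] [CharZero k] [Field L]
    (i : k →+* L) (a b : k) (π : MvPolynomial (Fin 3) k) (m0 : ℕ) (r ρ r' ρ' μ : L),
    b ^ 2 = a ^ 2 - 1 → a ^ 2 ≠ 0 → a ^ 4 ≠ 1 → π ≠ 0 → IsMult a b π m0 →
    SecH i a b r ρ r' ρ' μ →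
    (subsPar i π (secP r ρ r' ρ' μ)).rootMultiplicity r = m0 ∧
    (subsPar i π (secP r ρ r' ρ' μ)).rootMultiplicity r' = m0

/-- M4. Multiplicity of the intersection with a line at the excluded point. -/
def stLineMult : Prop := ∀ (k L : Type) [Field k] [IsAlgClosed k] [CharZero k] [Field L]
    (i : k →+* L) (a b : k) (π : MvPolynomial (Fin 3) k) (m0 : ℕ) (x ρ κ : L),
    b ^ 2 = a ^ 2 - 1 → a ^ 2 ≠ 0 → a ^ 4 ≠ 1 → π ≠ 0 → IsMult a b π m0 →
    Ff (i a) (i b) x ρ = 0 → AI i ![x, κ] →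
    (subsPar i π (lineP x ρ κ)).rootMultiplicity ρ = m0

/-- M5. The points of intersection with a section are generic. -/
def stSecGen : Prop := ∀ (k L : Type) [Field k] [IsAlgClosed k] [CharZero k] [Field L]
    (i : k →+* L) (a b : k) (π : MvPolynomial (Fin 3) k) (r ρ r' ρ' μ : L), b ^ 2 = a ^ 2 - 1 →
    a ^ 2 ≠ 0 → a ^ 4 ≠ 1 → Irreducible π → SecH i a b r ρ r' ρ' μ →
    ∀ l ∈ rts i π (secP r ρ r' ρ' μ), Gen i π ((secP r ρ r' ρ' μ).at l)

/-- M6. The points of intersection with a line are generic. -/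
def stLineGen : Prop := ∀ (k L : Type) [Field k] [IsAlgClosed k] [CharZero k] [Field L]
    (i : k →+* L) (a b : k) (π : MvPolynomial (Fin 3) k) (x ρ κ : L), b ^ 2 = a ^ 2 - 1 →
    a ^ 2 ≠ 0 → a ^ 4 ≠ 1 → Irreducible π → Ff (i a) (i b) x ρ = 0 → AI i ![x, κ] →
    ∀ l ∈ rts i π (lineP x ρ κ), Gen i π ((lineP x ρ κ).at l)

/-- M7. Reparametrisation of a line. -/
def stMob : Prop := ∀ (k L : Type) [Field k] [IsAlgClosed k] [CharZero k] [Field L] [CharZero L]
    [IsAlgClosed L] (i : k →+* L) (A : AD k) (x ρ ws ν : L), AI i ![x, ws, ν] → ws ≠ ρ →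
    S i A ⟨C x, C ws * X - C ρ, C ν * X, X - 1⟩ = S i A (lineP x ρ (ν / (ws - ρ)))

/-! ## Places and degeneration -/

/-- A place of `L` with values in `ℂ`, trivial on `ℂ`. -/
structure Place (L : Type) [Field L] (J : ℂ →+* L) where
  O : Subring L
  φ : O →+* ℂ
  memJ : ∀ c, J c ∈ O
  φJ : ∀ c, φ ⟨J c, memJ c⟩ = c
  val : ∀ x : L, x ∈ O ∨ x⁻¹ ∈ O
  inv : ∀ x : O, φ x ≠ 0 → (x : L)⁻¹ ∈ O

open Classical in
/-- The reduction map, extended by zero. -/
noncomputable def Place.red {L : Type} [Field L] {J : ℂ →+* L} (P : Place L J) (x : L) : ℂ :=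
  if h : x ∈ P.O then P.φ ⟨x, h⟩ else 0

/-- D1. Existence of a place. -/
def stPlace : Prop := ∃ (L : Type) (_ : Field L) (_ : CharZero L) (_ : IsAlgClosed L)
    (J : ℂ →+* L) (P : Place L J) (ε : L), Trans J ε ∧ ε ∈ P.O ∧ P.red ε = 0

open Classical in
/-- D2. Reduction of the roots of a polynomial. -/
def stRoots : Prop := ∀ (L : Type) [Field L] [IsAlgClosed L] (J : ℂ →+* L) (P : Place L J)
    (f : L[X]) (g : ℂ[X]), (∀ n, f.coeff n ∈ P.O) → (∀ n, P.red (f.coeff n) = g.coeff n) →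
    g ≠ 0 → (f.roots.filter (fun l => l ∈ P.O)).map P.red = g.roots

/-- D3. Reduction of sums of integral points. -/
def stSums : Prop := ∀ (L : Type) [Field L] [CharZero L] (J : ℂ →+* L) (P : Place L J)
    (M : Multiset L) (u v : L → L), (∀ l ∈ M, u l ∈ P.O ∧ v l ∈ P.O ∧ v l ^ 2 = u l ^ 3 - u l) →
    ∀ S0 : E ℂ, (M.map (fun l => pt (u l) (v l))).sum = Emap J S0 →
    S0 = (M.map (fun l => pt (P.red (u l)) (P.red (v l)))).sum

/-- D4. Reduction of the value at a generic point. -/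
def stEvRed : Prop := ∀ (k L : Type) [Field k] [Field L] [CharZero L] (i : k →+* ℂ) (J : ℂ →+* L)
    (P : Place L J) (A : AD k) (x : Fin 3 → L), (∀ j, x j ∈ P.O) →
    MvPolynomial.eval₂ (J.comp i) x A.π = 0 → Gen i A.π (fun j => P.red (x j)) →
    Gen (J.comp i) A.π x ∧ ∃ u v : L, u ∈ P.O ∧ v ∈ P.O ∧ v ^ 2 = u ^ 3 - u ∧
      evA (J.comp i) A x = pt u v ∧ evA i A (fun j => P.red (x j)) = pt (P.red u) (P.red v)

/-- D5. The degeneration of a curve with three points into a section and a line. -/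
def stDeg : Prop := ∀ (k : Type) [Field k] [IsAlgClosed k] [CharZero k] (i : k →+* ℂ) (a b : k)
    (A : AD k) (r1 ρ1 r3 ρ3 r5 ρ5 μ : ℂ) (S0 : E ℂ), b ^ 2 = a ^ 2 - 1 → a ^ 2 ≠ 0 →
    a ^ 4 ≠ 1 → Ff (i a) (i b) r1 ρ1 = 0 → Ff (i a) (i b) r3 ρ3 = 0 →
    Ff (i a) (i b) r5 ρ5 = 0 → AI i ![r1, r3, r5, μ] →
    (∀ (L : Type) [Field L] [CharZero L] [IsAlgClosed L] (J : ℂ →+* L) (τ : L), Trans J τ →
      S (J.comp i) A (triP (J r1) (J ρ1) (J r3) (J ρ3) (J r5) (J ρ5) τ (J μ)) = Emap J S0) →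
    S0 = S i A (secP r1 ρ1 r3 ρ3 μ) + S i A (lineP r5 ρ5
      (μ * (r5 - r1) * (r5 - r3) /
        (ρ1 * (r5 - r3) / (r1 - r3) + ρ3 * (r5 - r1) / (r3 - r1) - ρ5)))

/-! ## The real structure -/

/-- The connected component of the origin in the real locus. -/
def E0 (P : E ℂ) : Prop := P = 0 ∨ ∃ u v : ℝ, 1 ≤ u ∧ v ^ 2 = u ^ 3 - u ∧ P = pt (u : ℂ) (v : ℂ)

/-- Complex conjugation on the points. -/
noncomputable def conjE : E ℂ →+ E ℂ := Emap (starRingEnd ℂ)

/-- E1. -/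
def stE0 : Prop := (∀ P Q : E ℂ, E0 P → E0 Q → E0 (P + Q)) ∧ (∀ P : E ℂ, E0 P → E0 (-P)) ∧
    ∀ P : E ℂ, E0 (P + conjE P)

/-- The polynomial `z^d q^c(t, w, F / z)`, `q^c` the conjugate of `q`. -/
noncomputable def pstar {k : Type} [Field k] (cj : k →+* k) (a b : k) (d : ℕ)
    (q : MvPolynomial (Fin 3) k) : MvPolynomial (Fin 3) k :=
  ∑ e ∈ q.support, MvPolynomial.C (cj (q.coeff e)) * MvPolynomial.X 0 ^ (e 0) *
    MvPolynomial.X 1 ^ (e 1) * FP a b ^ (e 2) * MvPolynomial.X 2 ^ (d - e 2)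

/-- The conjugate point `(t, w, F / z)` of the complex conjugate. -/
noncomputable def sP (al be : ℝ) (P : Fin 3 → ℂ) : Fin 3 → ℂ :=
  ![starRingEnd ℂ (P 0), starRingEnd ℂ (P 1),
    Ff (al : ℂ) (be : ℂ) (starRingEnd ℂ (P 0)) (starRingEnd ℂ (P 1)) / starRingEnd ℂ (P 2)]

/-- The surface and the point of the elliptic curve are compatible with the real structure. -/
structure SHyp {k : Type} [Field k] (i : k →+* ℂ) (cj : k →+* k) (a b : k) (al be : ℝ)
    (A : AD k) : Prop where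
  ia : i a = al
  ib : i b = be
  conj : ∀ c, i (cj c) = starRingEnd ℂ (i c)
  rel : be ^ 2 = al ^ 2 - 1
  pos : 0 < be
  pos' : be < al
  tr : Transcendental ℚ al
  dvd : A.π ∣ pstar cj a b (A.π.degreeOf 2) A.π
  odd : Odd (wdeg A.π)
  gen : ∀ P : Fin 3 → ℂ, Gen i A.π P → P 2 ≠ 0 → Gen i A.π (sP al be P) ∧
    evA i A (sP al be P) = conjE (evA i A P) + pt 1 0

/-- P2. The sum over a real vertical line. -/
def stP2 : Prop := ∀ (k : Type) [Field k] [IsAlgClosed k] [CharZero k] (i : k →+* ℂ)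
    (cj : k →+* k) (a b : k) (al be : ℝ) (A : AD k), SHyp i cj a b al be A →
    ∀ (x y : ℝ) (κ : ℂ), y ^ 2 = delta al x → 0 < Qf al be x → Complex.normSq κ = Qf al be x →
    AI i ![(x : ℂ), κ] →
    E0 (S i A (lineP (x : ℂ) (Complex.I * y / (Qf al be x : ℝ)) κ))

/-- P3. Conjugate sections. -/
def stP3 : Prop := ∀ (k : Type) [Field k] [IsAlgClosed k] [CharZero k] (i : k →+* ℂ)
    (cj : k →+* k) (a b : k) (al be : ℝ) (A : AD k), SHyp i cj a b al be A →
    ∀ (w0 w1 r1 r2 : ℝ) (r3 μ : ℂ), r1 ≠ r2 → r3.im ≠ 0 →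
    Ff al be r1 (w0 + w1 * r1) = 0 → Ff al be r2 (w0 + w1 * r2) = 0 →
    Ff (al : ℂ) be r3 (w0 + w1 * r3) = 0 → AI i ![(w0 : ℂ), (w1 : ℂ), μ] →
    S i A (secP (r2 : ℂ) (w0 + w1 * r2) r3 (w0 + w1 * r3) ((1 + w1 ^ 2) / starRingEnd ℂ μ)) =
      conjE (S i A (secP (r1 : ℂ) (w0 + w1 * r1) r3 (w0 + w1 * r3) μ)) + pt 1 0

/-- P4. Existence of the configuration. -/
def stConf : Prop := ∀ (k : Type) [Field k] [Countable k] (i : k →+* ℂ) (al be : ℝ),
    be ^ 2 = al ^ 2 - 1 → 0 < be → be < al →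
    ∃ (w0 w1 r1 r2 : ℝ) (r3 : ℂ), r3.im ≠ 0 ∧
    r1 < -al ∧ r1 ^ 2 < al ^ 2 + 1 ∧ -be < r2 ∧ r2 < be ∧
    Ff al be r1 (w0 + w1 * r1) = 0 ∧ Ff al be r2 (w0 + w1 * r2) = 0 ∧
    Ff (al : ℂ) be r3 (w0 + w1 * r3) = 0 ∧ AI i ![(w0 : ℂ), (w1 : ℂ)]

/-! ## Classification of the points over the function field -/

open Classical in
/-- The logarithmic derivative `D x / y` of a point. -/
noncomputable def Dl {M : Type} [Field M] [CharZero M] (D : Derivation ℤ M M) (P : E M) : M :=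
  if h : ∃ xy : M × M, xy.2 ^ 2 = xy.1 ^ 3 - xy.1 ∧ xy.2 ≠ 0 ∧ P = pt xy.1 xy.2 then
    D h.choose.1 / h.choose.2 else 0

/-- C1. Additivity. -/
def stDlog : Prop := ∀ (M : Type) [Field M] [CharZero M] (D : Derivation ℤ M M) (P Q : E M),
    Dl D (P + Q) = Dl D P + Dl D Q

/-- C2. Regularity. -/
def stReg : Prop := ∀ (k M : Type) [Field k] [IsAlgClosed k] [CharZero k] [Field M] [CharZero M]
    (iM : k →+* M) (δ : k[X]) (x y : M), δ.Separable → y ^ 2 = δ.eval₂ iM x → Trans iM x →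
    (∀ m : M, ∃ p q r : k[X], r ≠ 0 ∧ m * r.eval₂ iM x = p.eval₂ iM x + q.eval₂ iM x * y) →
    ∀ (D : Derivation ℤ M M), (∀ c, D (iM c) = 0) → D x = y →
    ∀ (p q : M) (n d : k[X]), q ^ 2 = p ^ 3 - p → q ≠ 0 → IsCoprime n d → d ≠ 0 →
    d.eval₂ iM x * D p = n.eval₂ iM x * q → IsUnit d

/-- C3. The differential equation in `k(x)`. -/
def stODE : Prop := ∀ (k : Type) [Field k] [IsAlgClosed k] [CharZero k] (a : k), a ^ 2 ≠ 0 →
    a ^ 4 ≠ 1 → ∀ (n d : k[X]) (l0 m0 m1 : k), d ≠ 0 →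
    (2 * delta (C a) X * (derivative n * d - n * derivative d) +
      derivative (delta (C a) X) * n * d) * X ^ 2 =
        d ^ 2 * (C (2 * m0) * X ^ 2 - C l0 + C (2 * m1) * X ^ 3) → l0 = 0

/-- C4. Existence of derivations. -/
def stDer : Prop := ∀ (k : Type) [Field k] [CharZero k] (β : k), Transcendental ℚ β →
    ∃ D : Derivation ℤ k k, D β = 1

/-- C5. Extension of derivations. -/
def stExt : Prop := ∀ (k M : Type) [Field k] [CharZero k] [Field M] (iM : k →+* M) (a : k)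
    (x y : M), IsCF iM a x y → a ^ 2 ≠ 0 → a ^ 4 ≠ 1 →
    ∀ (D : Derivation ℤ k k) (x' : M), ∃ D' : Derivation ℤ M M,
      (∀ c, D' (iM c) = iM (D c)) ∧ D' x = x'

/-- C6. The points over the function field. -/
def stLog : Prop := ∀ (k M : Type) [Field k] [IsAlgClosed k] [CharZero k] [Field M] [CharZero M]
    (iM : k →+* M) (a : k) (x y : M), IsCF iM a x y → Transcendental ℚ a →
    ∀ (D : Derivation ℤ M M), (∀ c, D (iM c) = 0) → 2 * x * D x = 1 →
    ∀ B : E M, ∃ c : k, Dl D B * y = iM c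

/-- C7. The main consequence. -/
def stStar : Prop := ∀ (k M : Type) [Field k] [IsAlgClosed k] [CharZero k] [Field M] [CharZero M]
    (iM : k →+* M) (a I : k) (x y : M) (hI : I ^ 2 = -1),
    IsCF iM a x y → Transcendental ℚ a → ∀ B : E M, ∃ κ : E k, ∀ (L : Type) [Field L] [CharZero L]
    (i : k →+* L) (x0 x1 y0 : L), Trans i x0 → y0 ^ 2 = delta (i a) x0 →
    x0 ^ 2 + x1 ^ 2 = 2 * (i a) ^ 2 → ∀ j j' : M →+* L, j.comp iM = i → j x = x0 → j y = y0 →
    j'.comp iM = i → j' x = x1 → j' y = i I * y0 →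
    Emap j' B - imul (i I) (by rw [← map_pow, hI, map_neg, map_one]) (Emap j B) = Emap i κ

end MP_d2f638_ag.Stab
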