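import Mathlib
import Pool.Agent.Lib.MP_d2f638_ag.Stab.Base
import Pool.Agent.Lib.MP_d2f638_ag.Stab.Stmts

/-!
# M1: multiplicity of the intersection at a point with `z = F = 0`
-/

namespace MP_d2f638_ag.Stab

open Polynomial

namespace MultAux

/-! ### Expansion at a point -/

section ps

variable {L : Type} [Field L]

/-- Expansion of a polynomial at `r` as a power series. -/
noncomputable def ps (r : L) : L[X] →+* PowerSeries L :=
  (Polynomial.coeToPowerSeries.ringHom (R := L)).comp (Polynomial.compRingHom (X + C r))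

lemma ps_apply (r : L) (f : L[X]) : ps r f = ((f.comp (X + C r) : L[X]) : PowerSeries L) := rfl

lemma coeff_ps (r : L) (f : L[X]) (n : ℕ) :
    PowerSeries.coeff n (ps r f) = (f.comp (X + C r)).coeff n := by
  rw [ps_apply, Polynomial.coeff_coe]

lemma dvd_iff (r : L) (f : L[X]) (m : ℕ) :
    (X - C r) ^ m ∣ f ↔ (PowerSeries.X : PowerSeries L) ^ m ∣ ps r f := by
  rw [Polynomial.X_sub_C_pow_dvd_iff, PowerSeries.X_pow_dvd_iff, Polynomial.X_pow_dvd_iff]
  simp only [coeff_ps]

lemma constCoeff_ps (r : L) (f : L[X]) : PowerSeries.constantCoeff (ps r f) = f.eval r := by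
  rw [← PowerSeries.coeff_zero_eq_constantCoeff_apply, coeff_ps, Polynomial.coeff_zero_eq_eval_zero,
    Polynomial.eval_comp]
  simp

lemma coeff_one_ps (r : L) (f : L[X]) : PowerSeries.coeff 1 (ps r f) = f.derivative.eval r := by
  rw [coeff_ps]
  have := Polynomial.taylor_coeff_one (r := r) (f := f)
  rwa [Polynomial.taylor_apply] at this

lemma ps_C (r c : L) : ps r (C c) = PowerSeries.C c := by
  rw [ps_apply, Polynomial.C_comp]; simp

end ps

variable {k L : Type} [Field k] [Field L]

/-- evaluation along the curve, as power series at `r` -/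
noncomputable def ev (i : k →+* L) (G : Par L) (r : L) : MvPolynomial (Fin 3) k →+* PowerSeries L :=
  MvPolynomial.eval₂Hom ((PowerSeries.C (R := L)).comp i)
    ![ps r G.T, ps r G.W * (ps r G.D)⁻¹, ps r G.Z * (ps r G.D)⁻¹]

lemma ps_subsPar (i : k →+* L) (π : MvPolynomial (Fin 3) k) (G : Par L) (r : L)
    (hD : G.D.eval r ≠ 0) :
    ps r (subsPar i π G) = (ps r G.D) ^ (wzdeg π) * ev i G r π := by
  have hD' : PowerSeries.constantCoeff (ps r G.D) ≠ 0 := by rwa [constCoeff_ps]
  have hinv : ps r G.D * (ps r G.D)⁻¹ = 1 := PowerSeries.mul_inv_cancel _ hD'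
  have h1 : ev i G r π = MvPolynomial.eval₂ ((PowerSeries.C (R := L)).comp i)
    ![ps r G.T, ps r G.W * (ps r G.D)⁻¹, ps r G.Z * (ps r G.D)⁻¹] π := rfl
  rw [h1, MvPolynomial.eval₂_eq', Finset.mul_sum, subsPar, map_sum]
  refine Finset.sum_congr rfl fun e he => ?_
  have hle : e 1 + e 2 ≤ wzdeg π := by
    have h := MvPolynomial.le_weightedTotalDegree ![0, 1, 1] he
    rw [Finsupp.weight_apply, Finsupp.sum_fintype _ _ (by simp)] at h
    simp [Fin.sum_univ_three] at h
    exact h
  rw [Fin.prod_univ_three]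
  simp only [map_mul, map_pow, ps_C, Matrix.cons_val_zero, Matrix.cons_val_one,
    Matrix.cons_val_two, Matrix.head_cons, Matrix.tail_cons, RingHom.comp_apply]
  have hpow : (ps r G.D) ^ (wzdeg π) = (ps r G.D) ^ (e 1) * (ps r G.D) ^ (e 2) *
      (ps r G.D) ^ (wzdeg π - e 1 - e 2) := by
    rw [← pow_add, ← pow_add]; congr 1; omega
  have e1 : (ps r G.D) ^ (e 1) * ((ps r G.D)⁻¹) ^ (e 1) = 1 := by rw [← mul_pow, hinv, one_pow]
  have e2 : (ps r G.D) ^ (e 2) * ((ps r G.D)⁻¹) ^ (e 2) = 1 := by rw [← mul_pow, hinv, one_pow]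
  rw [hpow, mul_pow, mul_pow]
  linear_combination (PowerSeries.C (i (MvPolynomial.coeff e π)) * ps r G.T ^ e 0 * ps r G.W ^ e 1 *
    ps r G.Z ^ e 2 * ps r G.D ^ (wzdeg π - e 1 - e 2)) * (-e1 * ((ps r G.D) ^ (e 2) *
      ((ps r G.D)⁻¹) ^ (e 2)) - e2)

/-! ### The ideal `(z, F)` -/

/-- the ideal `(z, F)` -/
noncomputable def II (a b : k) : Ideal (MvPolynomial (Fin 3) k) :=
  Ideal.span {MvPolynomial.X 2, FP a b}

lemma z_mem (a b : k) : (MvPolynomial.X 2 : MvPolynomial (Fin 3) k) ∈ II a b :=
  Ideal.subset_span (by simp)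

lemma F_mem (a b : k) : FP a b ∈ II a b := Ideal.subset_span (by simp)

lemma eval_FP {A : Type} [CommRing A] (f : k →+* A) (a b : k) (v : Fin 3 → A) :
    MvPolynomial.eval₂ f v (FP a b) = Ff (f a) (f b) (v 0) (v 1) := by
  have := map_Ff (MvPolynomial.eval₂Hom f v) (MvPolynomial.C a) (MvPolynomial.C b)
    (MvPolynomial.X 0) (MvPolynomial.X 1)
  simpa [FP] using this

lemma II_ne_top (a b : k) : II a b ≠ ⊤ := by
  intro h
  have h1 : II a b ≤ RingHom.ker (MvPolynomial.eval₂Hom (RingHom.id k) ![a, 0, 0]) := by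
    rw [II, Ideal.span_le]
    rintro x (rfl | rfl)
    · simp [RingHom.mem_ker]
    · simp only [SetLike.mem_coe, RingHom.mem_ker, MvPolynomial.coe_eval₂Hom]
      rw [eval_FP]
      simp [Ff, Rf]
  have h2 : (1 : MvPolynomial (Fin 3) k) ∈ II a b := by rw [h]; trivial
  have h3 := h1 h2
  rw [RingHom.mem_ker, map_one] at h3
  exact one_ne_zero h3

lemma exists_max (a b : k) (π : MvPolynomial (Fin 3) k) (hπ : π ≠ 0) :
    ∃ m0 : ℕ, π ∈ II a b ^ m0 ∧ π ∉ II a b ^ (m0 + 1) := by
  classical
  have h := Ideal.iInf_pow_eq_bot_of_isDomain (I := II a b) (II_ne_top a b)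
  have h1 : ∃ m, π ∉ II a b ^ m := by
    by_contra hcon
    push Not at hcon
    apply hπ
    have : π ∈ (⨅ i : ℕ, II a b ^ i) := by
      rw [Ideal.mem_iInf]; exact hcon
    rw [h] at this
    exact this
  have h2 := Nat.find_spec h1
  have h3 : Nat.find h1 ≠ 0 := by
    intro h0
    rw [h0, pow_zero, Ideal.one_eq_top] at h2
    exact h2 Submodule.mem_top
  obtain ⟨m, hm⟩ := Nat.exists_eq_succ_of_ne_zero h3
  refine ⟨m, ?_, ?_⟩
  · by_contra h4
    have := Nat.find_min' h1 h4
    omega
  · rw [hm] at h2; exact h2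

lemma form_of_mem (a b : k) (m : ℕ) (q : MvPolynomial (Fin 3) k) (hq : q ∈ II a b ^ m) :
    ∃ c : ℕ → MvPolynomial (Fin 3) k,
      q = ∑ j ∈ Finset.range (m + 1), c j * MvPolynomial.X 2 ^ j * FP a b ^ (m - j) := by
  induction m generalizing q with
  | zero => exact ⟨fun _ => q, by simp⟩
  | succ m ih =>
    rw [pow_succ'] at hq
    refine Submodule.mul_induction_on hq ?_ ?_
    · intro u hu v hv
      obtain ⟨c, rfl⟩ := ih v hv
      obtain ⟨s, t, rfl⟩ := Ideal.mem_span_pair.mp hu
      refine ⟨fun j => (if j = 0 then 0 else s * c (j - 1)) + (if j = m + 1 then 0 else t * c j), ?_⟩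
      simp only [add_mul, Finset.sum_add_distrib]
      congr 1
      · rw [Finset.sum_range_succ' _ (m + 1)]
        simp only [Nat.add_eq_zero_iff, one_ne_zero, and_false, if_false, if_true, zero_mul,
          add_zero, Nat.add_sub_cancel]
        rw [Finset.mul_sum]
        refine Finset.sum_congr rfl fun j hj => ?_
        have : m + 1 - (j + 1) = m - j := by omega
        rw [this, pow_succ]; ring
      · rw [Finset.sum_range_succ _ (m + 1)]
        simp only [if_true, zero_mul, add_zero]
        rw [Finset.mul_sum]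
        refine Finset.sum_congr rfl fun j hj => ?_
        have hj' := Finset.mem_range.mp hj
        have h1 : j ≠ m + 1 := by omega
        have h2 : m + 1 - j = (m - j) + 1 := by omega
        rw [if_neg h1, h2, pow_succ]; ring
    · rintro u v ⟨c, rfl⟩ ⟨c', rfl⟩
      refine ⟨fun j => c j + c' j, ?_⟩
      rw [← Finset.sum_add_distrib]
      refine Finset.sum_congr rfl fun j _ => ?_
      ring

/-- polynomials in `t` -/
noncomputable def io : k[X] →+* MvPolynomial (Fin 3) k :=
  Polynomial.eval₂RingHom MvPolynomial.C (MvPolynomial.X 0)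

lemma io_C (c : k) : io (C c) = MvPolynomial.C c := by simp [io]

lemma io_X : io (X : k[X]) = MvPolynomial.X 0 := by simp [io]

lemma eval_io (i : k →+* L) (v : Fin 3 → L) (p : k[X]) :
    MvPolynomial.eval₂ i v (io p) = p.eval₂ i (v 0) := by
  have h : (MvPolynomial.eval₂Hom i v).comp io = Polynomial.eval₂RingHom i (v 0) := by
    apply Polynomial.ringHom_ext
    · intro c; simp [io_C]
    · simp [io_X]
  exact congrArg (fun f => f p) h

lemma reduce (a b : k) (q : MvPolynomial (Fin 3) k) :
    ∃ (s : ℕ) (A B : k[X]), io (Qf (C a) (C b) X) ^ s * q - (io A + io B * MvPolynomial.X 1) ∈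
      II a b := by
  induction q using MvPolynomial.induction_on with
  | C c => exact ⟨0, C c, 0, by simp [io_C]⟩
  | add p q hp hq =>
    obtain ⟨s, A, B, h⟩ := hp
    obtain ⟨s', A', B', h'⟩ := hq
    refine ⟨s + s', Qf (C a) (C b) X ^ s' * A + Qf (C a) (C b) X ^ s * A',
      Qf (C a) (C b) X ^ s' * B + Qf (C a) (C b) X ^ s * B', ?_⟩
    have h1 := (II a b).mul_mem_left (io (Qf (C a) (C b) X) ^ s') h
    have h2 := (II a b).mul_mem_left (io (Qf (C a) (C b) X) ^ s) h'
    have h3 := (II a b).add_mem h1 h2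
    convert h3 using 1
    simp only [map_add, map_mul, map_pow]
    ring
  | mul_X q j hq =>
    obtain ⟨s, A, B, h⟩ := hq
    have h1 := (II a b).mul_mem_right (MvPolynomial.X j) h
    have hj : j = 0 ∨ j = 1 ∨ j = 2 := by
      fin_cases j
      · exact Or.inl rfl
      · exact Or.inr (Or.inl rfl)
      · exact Or.inr (Or.inr rfl)
    rcases hj with rfl | rfl | rfl
    · refine ⟨s, A * X, B * X, ?_⟩
      convert h1 using 1
      simp only [map_mul, io_X]
      ring
    · refine ⟨s + 1, - B * Rf (C a) (C b) X, Qf (C a) (C b) X * A, ?_⟩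
      have h2 := (II a b).mul_mem_left (io (Qf (C a) (C b) X)) h1
      have h3 := (II a b).mul_mem_left (io B) (F_mem a b)
      have h4 := (II a b).add_mem h2 h3
      convert h4 using 1
      have e1 : FP a b = io (Qf (C a) (C b) X) * MvPolynomial.X 1 ^ 2 + io (Rf (C a) (C b) X) := by
        rw [FP, Ff, map_Qf, map_Rf, io_C, io_C, io_X]
      rw [e1]
      simp only [map_mul, map_neg]
      ring
    · refine ⟨s, 0, 0, ?_⟩
      have : io (Qf (C a) (C b) X) ^ s * (q * MvPolynomial.X 2) -
          (io 0 + io 0 * MvPolynomial.X 1) =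
          (io (Qf (C a) (C b) X) ^ s * q) * MvPolynomial.X 2 := by
        simp; ring
      rw [this]
      exact (II a b).mul_mem_left _ (z_mem a b)

section arith

variable [CharZero k] {a b : k} (hb : b ^ 2 = a ^ 2 - 1) (ha : a ^ 2 ≠ 0) (ha4 : a ^ 4 ≠ 1)

include hb ha ha4

lemma ne_facts : a ≠ 0 ∧ b ≠ 0 ∧ a + b ≠ 0 ∧ a - b ≠ 0 := by
  have h1 : (a + b) * (a - b) = 1 := by linear_combination -hb
  refine ⟨fun h => ha (by rw [h]; ring), fun h => ha4 ?_, fun h => ?_, fun h => ?_⟩
  · rw [h] at hb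
    have : a ^ 2 = 1 := by linear_combination -hb
    linear_combination (a ^ 2 + 1) * this
  · rw [h] at h1; simp at h1
  · rw [h] at h1; simp at h1

lemma Rf_at_a : Rf a b (-a) ≠ 0 := by
  obtain ⟨h1, h2, h3, h4⟩ := ne_facts hb ha ha4
  have : Rf a b (-a) = -(2 * a * (a + b)) := by unfold Rf; ring
  rw [this]
  exact neg_ne_zero.mpr (mul_ne_zero (mul_ne_zero two_ne_zero h1) h3)

lemma Rf_at_b : Rf a b (-b) ≠ 0 := by
  obtain ⟨h1, h2, h3, h4⟩ := ne_facts hb ha ha4
  have : Rf a b (-b) = -(4 * b * (a + b)) := by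
    unfold Rf
    linear_combination (-(-b - a) * (2 * b) ) * hb
  rw [this]
  exact neg_ne_zero.mpr (mul_ne_zero (mul_ne_zero (by norm_num) h2) h3)

lemma coprimeQR : IsCoprime (Qf (C a) (C b) X : k[X]) (Rf (C a) (C b) X) := by
  have h : ∀ c : k, Rf a b (-c) ≠ 0 → IsCoprime (X + C c : k[X]) (Rf (C a) (C b) X) := by
    intro c hc
    have h1 : (X + C c : k[X]) = X - C (-c) := by simp
    rw [h1, (Polynomial.irreducible_X_sub_C (-c)).coprime_iff_not_dvd, Polynomial.dvd_iff_isRoot,
      Polynomial.IsRoot]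
    have h2 := map_Rf (Polynomial.evalRingHom (-c)) (C a) (C b) X
    simp only [Polynomial.coe_evalRingHom, Polynomial.eval_C, Polynomial.eval_X] at h2
    rw [h2]; exact hc
  exact IsCoprime.mul_left (h a (Rf_at_a hb ha ha4)) (h b (Rf_at_b hb ha ha4))

/-- the parity argument -/
lemma parity (A B : k[X]) (h : Qf (C a) (C b) X * A ^ 2 + Rf (C a) (C b) X * B ^ 2 = 0) :
    A = 0 ∧ B = 0 := by
  obtain ⟨h1, h2, h3, h4⟩ := ne_facts hb ha ha4
  have hQ : (Qf (C a) (C b) X : k[X]) ≠ 0 := by
    unfold Qf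
    exact mul_ne_zero (Polynomial.X_add_C_ne_zero a) (Polynomial.X_add_C_ne_zero b)
  have hRa : ¬ (Rf (C a) (C b) X : k[X]).IsRoot (-a) := by
    rw [Polynomial.IsRoot]
    have h2 := map_Rf (Polynomial.evalRingHom (-a)) (C a) (C b) X
    simp only [Polynomial.coe_evalRingHom, Polynomial.eval_C, Polynomial.eval_X] at h2
    rw [h2]; exact Rf_at_a hb ha ha4
  have hR : (Rf (C a) (C b) X : k[X]) ≠ 0 := by
    intro h0; rw [h0] at hRa; simp at hRa
  by_cases hB : B = 0
  · refine ⟨?_, hB⟩
    rw [hB] at h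
    simp only [ne_eq, OfNat.ofNat_ne_zero, not_false_eq_true, zero_pow, mul_zero, add_zero,
      mul_eq_zero, hQ, false_or] at h
    exact pow_eq_zero_iff (two_ne_zero) |>.mp h
  exfalso
  have hA : A ≠ 0 := by
    intro h0
    rw [h0] at h
    simp [hR, hB] at h
  have hm := congrArg (Polynomial.rootMultiplicity (-a))
    (show Qf (C a) (C b) X * A ^ 2 = -(Rf (C a) (C b) X) * B ^ 2 by linear_combination h)
  have e1 : Polynomial.rootMultiplicity (-a) (X + C a : k[X]) = 1 := by
    have := Polynomial.rootMultiplicity_X_sub_C_self (x := -a)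
    simpa using this
  have e2 : Polynomial.rootMultiplicity (-a) (X + C b : k[X]) = 0 := by
    apply Polynomial.rootMultiplicity_eq_zero
    simp only [Polynomial.IsRoot, Polynomial.eval_add, Polynomial.eval_X, Polynomial.eval_C]
    intro h0; apply h4; linear_combination -h0
  have e3 : Polynomial.rootMultiplicity (-a) (-(Rf (C a) (C b) X) : k[X]) = 0 := by
    apply Polynomial.rootMultiplicity_eq_zero
    intro h0; apply hRa
    simpa [Polynomial.IsRoot] using h0
  have hQ' : (Qf (C a) (C b) X : k[X]) * A ^ 2 ≠ 0 := mul_ne_zero hQ (pow_ne_zero 2 hA)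
  have hR' : -(Rf (C a) (C b) X : k[X]) * B ^ 2 ≠ 0 :=
    mul_ne_zero (neg_ne_zero.mpr hR) (pow_ne_zero 2 hB)
  rw [Polynomial.rootMultiplicity_mul hQ', Polynomial.rootMultiplicity_mul hR', e3] at hm
  have hQm : Polynomial.rootMultiplicity (-a) (Qf (C a) (C b) X : k[X]) = 1 := by
    unfold Qf at hQ ⊢
    rw [Polynomial.rootMultiplicity_mul hQ, e1, e2]
  have hpA : Polynomial.rootMultiplicity (-a) (A ^ 2) = 2 * Polynomial.rootMultiplicity (-a) A := by
    rw [pow_two, Polynomial.rootMultiplicity_mul (mul_ne_zero hA hA)]; ring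
  have hpB : Polynomial.rootMultiplicity (-a) (B ^ 2) = 2 * Polynomial.rootMultiplicity (-a) B := by
    rw [pow_two, Polynomial.rootMultiplicity_mul (mul_ne_zero hB hB)]; ring
  rw [hQm, hpA, hpB] at hm
  omega

/-- the kernel of the evaluation at a generic point of the curve `z = F = 0` -/
lemma mem_II {i : k →+* L} {x ρ : L} (hx : Trans i x) (hF : Ff (i a) (i b) x ρ = 0)
    (q : MvPolynomial (Fin 3) k) (hq : MvPolynomial.eval₂ i ![x, ρ, 0] q = 0) : q ∈ II a b := by
  have hker : ∀ u ∈ II a b, MvPolynomial.eval₂ i ![x, ρ, 0] u = 0 := by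
    intro u hu
    obtain ⟨c, d, rfl⟩ := Ideal.mem_span_pair.mp hu
    rw [MvPolynomial.eval₂_add, MvPolynomial.eval₂_mul, MvPolynomial.eval₂_mul, eval_FP,
      MvPolynomial.eval₂_X]
    simp [hF]
  obtain ⟨s, A, B, h⟩ := reduce a b q
  have h1 := hker _ h
  rw [MvPolynomial.eval₂_sub, MvPolynomial.eval₂_add, MvPolynomial.eval₂_mul,
    MvPolynomial.eval₂_mul, hq, eval_io, eval_io, MvPolynomial.eval₂_X] at h1
  simp only [mul_zero, zero_sub, Matrix.cons_val_zero, Matrix.cons_val_one, neg_eq_zero] at h1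
  have eQ : (Qf (C a) (C b) X : k[X]).eval₂ i x = Qf (i a) (i b) x := by
    have := map_Qf (Polynomial.eval₂RingHom i x) (C a) (C b) X
    simpa using this
  have eR : (Rf (C a) (C b) X : k[X]).eval₂ i x = Rf (i a) (i b) x := by
    have := map_Rf (Polynomial.eval₂RingHom i x) (C a) (C b) X
    simpa using this
  have h2 : (Qf (C a) (C b) X * A ^ 2 + Rf (C a) (C b) X * B ^ 2).eval₂ i x = 0 := by
    rw [Polynomial.eval₂_add, Polynomial.eval₂_mul, Polynomial.eval₂_mul, Polynomial.eval₂_pow,
      Polynomial.eval₂_pow, eQ, eR]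
    have h3 : A.eval₂ i x = - (B.eval₂ i x * ρ) := by linear_combination h1
    rw [h3]
    unfold Ff at hF
    linear_combination (B.eval₂ i x) ^ 2 * hF
  have h3 : Qf (C a) (C b) X * A ^ 2 + Rf (C a) (C b) X * B ^ 2 = 0 := by
    by_contra h4
    exact hx _ h4 h2
  obtain ⟨rfl, rfl⟩ := parity hb ha ha4 A B h3
  simp only [map_zero, zero_mul, add_zero, sub_zero] at h
  obtain ⟨u, v, huv⟩ := coprimeQR hb ha ha4
  have hunit : IsUnit (Ideal.Quotient.mk (II a b) (io (Qf (C a) (C b) X))) := by
    refine IsUnit.of_mul_eq_one (Ideal.Quotient.mk (II a b) (io u - io v * MvPolynomial.X 1 ^ 2)) ?_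
    rw [← map_mul, ← map_one (Ideal.Quotient.mk (II a b)), Ideal.Quotient.eq]
    have h5 := (II a b).mul_mem_left (- io v) (F_mem a b)
    convert h5 using 1
    have e1 : FP a b = io (Qf (C a) (C b) X) * MvPolynomial.X 1 ^ 2 + io (Rf (C a) (C b) X) := by
      rw [FP, Ff, map_Qf, map_Rf, io_C, io_C, io_X]
    rw [e1]
    have h6 := congrArg io huv
    rw [map_add, map_mul, map_mul, map_one] at h6
    linear_combination h6
  rw [← Ideal.Quotient.eq_zero_iff_mem, map_mul, map_pow] at h
  rw [← Ideal.Quotient.eq_zero_iff_mem]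
  exact (hunit.pow s).mul_right_eq_zero.mp h

end arith

/-! ### The first coefficients -/

section coeffs

variable (i : k →+* L) (a b : k) (G : Par L) (r : L)

lemma constCoeff_ev (hD : G.D.eval r ≠ 0) (q : MvPolynomial (Fin 3) k) :
    PowerSeries.constantCoeff (ev i G r q) =
      MvPolynomial.eval₂ i ![G.T.eval r, G.W.eval r / G.D.eval r, G.Z.eval r / G.D.eval r] q := by
  have hD' : PowerSeries.constantCoeff (ps r G.D) ≠ 0 := by rwa [constCoeff_ps]
  have h : (PowerSeries.constantCoeff (R := L)).comp (ev i G r) = MvPolynomial.eval₂Hom i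
      ![G.T.eval r, G.W.eval r / G.D.eval r, G.Z.eval r / G.D.eval r] := by
    apply MvPolynomial.ringHom_ext
    · intro c; simp [ev]
    · intro j
      have hj : j = 0 ∨ j = 1 ∨ j = 2 := by
        fin_cases j
        · exact Or.inl rfl
        · exact Or.inr (Or.inl rfl)
        · exact Or.inr (Or.inr rfl)
      rcases hj with rfl | rfl | rfl
      · simp [ev, constCoeff_ps]
      · simp [ev, constCoeff_ps, div_eq_mul_inv]
      · simp [ev, constCoeff_ps, div_eq_mul_inv]
  exact congrArg (fun f => f q) h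

lemma ev_mem (hD : G.D.eval r ≠ 0) (hZ : G.Z.eval r = 0)
    (hF : Ff (i a) (i b) (G.T.eval r) (G.W.eval r / G.D.eval r) = 0) (m : ℕ)
    (q : MvPolynomial (Fin 3) k) (hq : q ∈ II a b ^ m) :
    (PowerSeries.X : PowerSeries L) ^ m ∣ ev i G r q := by
  have hX : ∀ u ∈ II a b, (PowerSeries.X : PowerSeries L) ∣ ev i G r u := by
    intro u hu
    rw [PowerSeries.X_dvd_iff, constCoeff_ev i G r hD]
    obtain ⟨c, d, rfl⟩ := Ideal.mem_span_pair.mp hu
    rw [MvPolynomial.eval₂_add, MvPolynomial.eval₂_mul, MvPolynomial.eval₂_mul, eval_FP,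
      MvPolynomial.eval₂_X]
    simp [hF, hZ]
  have h1 : (II a b).map (ev i G r) ≤ Ideal.span {(PowerSeries.X : PowerSeries L)} := by
    rw [Ideal.map_le_iff_le_comap]
    intro u hu
    rw [Ideal.mem_comap, Ideal.mem_span_singleton]
    exact hX u hu
  have h2 : ev i G r q ∈ (II a b ^ m).map (ev i G r) := Ideal.mem_map_of_mem _ hq
  rw [Ideal.map_pow] at h2
  have h3 := Ideal.pow_right_mono h1 m h2
  rw [Ideal.span_singleton_pow, Ideal.mem_span_singleton] at h3
  exact h3

end coeffs

lemma mem_clF {i : k →+* L} {T : Set L} {y : L} :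
    y ∈ clF i T ↔ IsAlgebraic (Subfield.closure (Set.range i ∪ T)) y := by
  unfold clF
  rw [IntermediateField.mem_toSubfield]
  exact mem_algebraicClosure_iff

/-- a root of a polynomial with coefficients in the closure is in the closure -/
lemma mem_clF_of_root {i : k →+* L} {T : Set L} (P : L[X]) (hP : P ≠ 0)
    (hc : ∀ n, P.coeff n ∈ clF i T) {y : L} (hy : P.eval y = 0) : y ∈ clF i T := by
  rw [mem_clF]
  set F0 := Subfield.closure (Set.range i ∪ T) with hF0
  have hlift : ∃ P' : Polynomial (algebraicClosure F0 L), P'.map (algebraMap _ L) = P := by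
    have : P ∈ Polynomial.lifts (algebraMap (algebraicClosure F0 L) L) := by
      rw [Polynomial.lifts_iff_coeff_lifts]
      intro n
      have h1 := hc n
      rw [mem_clF] at h1
      exact ⟨⟨P.coeff n, mem_algebraicClosure_iff.mpr h1⟩, rfl⟩
    rw [Polynomial.mem_lifts] at this
    exact this
  obtain ⟨P', rfl⟩ := hlift
  have hP' : P' ≠ 0 := by rintro rfl; simp at hP
  have hint : IsAlgebraic (algebraicClosure F0 L) y := ⟨P', hP', by
    rw [Polynomial.aeval_def, ← Polynomial.eval_map]; exact hy⟩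
  exact hint.restrictScalars F0

lemma clF_gen {i : k →+* L} {T : Set L} {y : L} (hy : y ∈ T) : y ∈ clF i T := by
  rw [mem_clF]
  exact isAlgebraic_algebraMap
    (⟨y, Subfield.subset_closure (Or.inr hy)⟩ : Subfield.closure (Set.range i ∪ T))

lemma clF_base {i : k →+* L} {T : Set L} (c : k) : i c ∈ clF i T := by
  rw [mem_clF]
  exact isAlgebraic_algebraMap
    (⟨i c, Subfield.subset_closure (Or.inl ⟨c, rfl⟩)⟩ : Subfield.closure (Set.range i ∪ T))

lemma clF_eval {i : k →+* L} {T : Set L} {n : ℕ} (v : Fin n → L) (hv : ∀ j, v j ∈ clF i T)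
    (q : MvPolynomial (Fin n) k) : MvPolynomial.eval₂ i v q ∈ clF i T := by
  rw [MvPolynomial.eval₂_eq']
  refine Subfield.sum_mem _ fun e _ => ?_
  exact Subfield.mul_mem _ (clF_base _)
    (Subfield.prod_mem _ fun j _ => Subfield.pow_mem _ (hv j) _)

section arith2

variable [CharZero k] {a b : k} (hb : b ^ 2 = a ^ 2 - 1) (ha : a ^ 2 ≠ 0) (ha4 : a ^ 4 ≠ 1)

include hb ha ha4

omit [CharZero k] hb ha ha4 in
/-- `Q(x) ≠ 0` for `x` transcendental -/
lemma Q_ne {i : k →+* L} {x : L} (hx : Trans i x) : Qf (i a) (i b) x ≠ 0 := by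
  have hQ : (Qf (C a) (C b) X : k[X]) ≠ 0 := by
    unfold Qf
    exact mul_ne_zero (Polynomial.X_add_C_ne_zero a) (Polynomial.X_add_C_ne_zero b)
  have := hx _ hQ
  have e := map_Qf (Polynomial.eval₂RingHom i x) (C a) (C b) X
  simp only [Polynomial.coe_eval₂RingHom, Polynomial.eval₂_C, Polynomial.eval₂_X] at e
  rwa [e] at this

/-- `R(x) ≠ 0` for `x` transcendental -/
lemma R_ne {i : k →+* L} {x : L} (hx : Trans i x) : Rf (i a) (i b) x ≠ 0 := by
  have hR : (Rf (C a) (C b) X : k[X]) ≠ 0 := by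
    intro h0
    have h2 := map_Rf (Polynomial.evalRingHom (-a)) (C a) (C b) X
    simp only [Polynomial.coe_evalRingHom, Polynomial.eval_C, Polynomial.eval_X] at h2
    rw [h0] at h2
    exact Rf_at_a hb ha ha4 (by simpa using h2.symm)
  have := hx _ hR
  have e := map_Rf (Polynomial.eval₂RingHom i x) (C a) (C b) X
  simp only [Polynomial.coe_eval₂RingHom, Polynomial.eval₂_C, Polynomial.eval₂_X] at e
  rwa [e] at this

/-- `ρ` is algebraic over `x` -/
lemma rho_mem {i : k →+* L} {x ρ : L} (hx : Trans i x) (hF : Ff (i a) (i b) x ρ = 0)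
    {T : Set L} (hxT : x ∈ clF i T) : ρ ∈ clF i T := by
  have hia : i a ∈ clF i T := clF_base a
  have hib : i b ∈ clF i T := clF_base b
  have hQm : Qf (i a) (i b) x ∈ clF i T :=
    Subfield.mul_mem _ (Subfield.add_mem _ hxT hia) (Subfield.add_mem _ hxT hib)
  have hRm : Rf (i a) (i b) x ∈ clF i T :=
    Subfield.mul_mem _ (Subfield.mul_mem _ (Subfield.sub_mem _ hxT hia)
      (Subfield.sub_mem _ hxT hib)) (Subfield.sub_mem _ (Subfield.sub_mem _
      (Subfield.pow_mem _ hxT 2) (Subfield.pow_mem _ hia 2)) (Subfield.one_mem _))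
  have hQ := Q_ne (a := a) (b := b) hx
  refine mem_clF_of_root (C (Qf (i a) (i b) x) * X ^ 2 + C (Rf (i a) (i b) x)) ?_ ?_ ?_
  · intro h0
    have := congrArg (fun f => Polynomial.coeff f 2) h0
    simp at this
    exact hQ this
  · intro n
    simp only [Polynomial.coeff_add, Polynomial.coeff_C_mul, Polynomial.coeff_X_pow,
      Polynomial.coeff_C]
    refine Subfield.add_mem _ (Subfield.mul_mem _ hQm ?_) ?_
    · split_ifs
      · exact Subfield.one_mem _
      · exact Subfield.zero_mem _
    · split_ifs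
      · exact hRm
      · exact Subfield.zero_mem _
  · simp only [Polynomial.eval_add, Polynomial.eval_mul, Polynomial.eval_C, Polynomial.eval_pow,
      Polynomial.eval_X]
    exact hF

end arith2

end MultAux

open MultAux in
/-- M1. -/
theorem mult : stMult := by
  intro k _ _ a b π hb ha ha4 hπ
  obtain ⟨m0, h1, h2⟩ := exists_max a b π hπ
  refine ⟨m0, ?_, ?_⟩
  · intro L _ i G r hD hZ hF
    rw [dvd_iff, ps_subsPar i π G r hD]
    exact Dvd.dvd.mul_left (ev_mem i a b G r hD hZ hF m0 π h1) _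
  · intro L _ i G r hD hZ hF htr hd hc
    have hD' : G.D.eval r ≠ 0 := by rw [hD]; simp
    have hF' : Ff (i a) (i b) (G.T.eval r) (G.W.eval r / G.D.eval r) = 0 := by
      rw [hD]; simpa using hF
    set x := G.T.eval r with hx
    set ρ := G.W.eval r with hρ
    obtain ⟨c, hcπ⟩ := form_of_mem a b m0 π h1
    -- the two factors
    obtain ⟨z', hz'⟩ : (PowerSeries.X : PowerSeries L) ∣ ev i G r (MvPolynomial.X 2) := by
      have := ev_mem i a b G r hD' hZ hF' 1 (MvPolynomial.X 2) (by rw [pow_one]; exact z_mem a b)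
      rwa [pow_one] at this
    obtain ⟨f', hf'⟩ : (PowerSeries.X : PowerSeries L) ∣ ev i G r (FP a b) := by
      have := ev_mem i a b G r hD' hZ hF' 1 (FP a b) (by rw [pow_one]; exact F_mem a b)
      rwa [pow_one] at this
    have hDinv : (ps r G.D)⁻¹ = 1 := by
      rw [hD, map_one]
      have := PowerSeries.mul_inv_cancel (1 : PowerSeries L) (by simp)
      rwa [one_mul] at this
    have hz1 : PowerSeries.constantCoeff z' = G.Z.derivative.eval r := by
      have e1 : ev i G r (MvPolynomial.X 2) = ps r G.Z := by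
        simp [ev, hDinv]
      rw [← coeff_one_ps, ← e1, hz', mul_comm, PowerSeries.coeff_succ_mul_X 0,
        PowerSeries.coeff_zero_eq_constantCoeff_apply]
    have hf1 : PowerSeries.constantCoeff f' =
        (Ff (C (i a)) (C (i b)) G.T G.W).derivative.eval r := by
      have e1 : ev i G r (FP a b) = ps r (Ff (C (i a)) (C (i b)) G.T G.W) := by
        rw [map_Ff, ps_C, ps_C]
        have := eval_FP ((PowerSeries.C (R := L)).comp i) a b
          ![ps r G.T, ps r G.W * (ps r G.D)⁻¹, ps r G.Z * (ps r G.D)⁻¹]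
        simpa [ev, hDinv] using this
      rw [← coeff_one_ps, ← e1, hf', mul_comm, PowerSeries.coeff_succ_mul_X 0,
        PowerSeries.coeff_zero_eq_constantCoeff_apply]
    set z1 := G.Z.derivative.eval r with hz1d
    set f1 := (Ff (C (i a)) (C (i b)) G.T G.W).derivative.eval r with hf1d
    -- factorisation
    let Θ : PowerSeries L := ∑ j ∈ Finset.range (m0 + 1), ev i G r (c j) * z' ^ j * f' ^ (m0 - j)
    have hfac : ev i G r π = PowerSeries.X ^ m0 * Θ := by
      rw [hcπ, map_sum, Finset.mul_sum]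
      refine Finset.sum_congr rfl fun j hj => ?_
      have hj' := Finset.mem_range.mp hj
      rw [map_mul, map_mul, map_pow, map_pow, hz', hf', mul_pow, mul_pow]
      have : (PowerSeries.X : PowerSeries L) ^ m0 = PowerSeries.X ^ j * PowerSeries.X ^ (m0 - j) := by
        rw [← pow_add]; congr 1; omega
      rw [this]; ring
    have hps : ps r (subsPar i π G) = PowerSeries.X ^ m0 * Θ := by
      rw [ps_subsPar i π G r hD', hfac, hD, map_one, one_pow, one_mul]
    -- the constant coefficient
    let y : ℕ → L := fun j => MvPolynomial.eval₂ i ![x, ρ, 0] (c j)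
    have hΘ : PowerSeries.constantCoeff Θ = ∑ j ∈ Finset.range (m0 + 1), y j * z1 ^ j *
        f1 ^ (m0 - j) := by
      simp only [Θ, map_sum, map_mul, map_pow, hz1, hf1]
      refine Finset.sum_congr rfl fun j _ => ?_
      rw [constCoeff_ev i G r hD', hD, hZ]
      simp [y, hx, hρ]
    have hne : PowerSeries.constantCoeff Θ ≠ 0 := by
      intro h0
      rw [hΘ] at h0
      let P : L[X] := ∑ j ∈ Finset.range (m0 + 1), C (y j) * X ^ j
      have hcoef : ∀ n, P.coeff n = if n ∈ Finset.range (m0 + 1) then y n else 0 := by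
        intro n
        simp only [P, Polynomial.finsetSum_coeff, Polynomial.coeff_C_mul, Polynomial.coeff_X_pow]
        simp
      have hyex : ∃ j ∈ Finset.range (m0 + 1), y j ≠ 0 := by
        by_contra hcon
        push Not at hcon
        apply h2
        rw [hcπ]
        refine Ideal.sum_mem _ fun j hj => ?_
        have hj' := Finset.mem_range.mp hj
        have h3 : c j ∈ II a b := mem_II hb ha ha4 htr hF (c j) (hcon j hj)
        have h4 : MvPolynomial.X 2 ^ j * FP a b ^ (m0 - j) ∈ II a b ^ m0 := by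
          have : (II a b) ^ m0 = (II a b) ^ j * (II a b) ^ (m0 - j) := by
            rw [← pow_add]; congr 1; omega
          rw [this]
          exact Ideal.mul_mem_mul (Ideal.pow_mem_pow (z_mem a b) j)
            (Ideal.pow_mem_pow (F_mem a b) (m0 - j))
        rw [pow_succ', mul_assoc]
        exact Ideal.mul_mem_mul h3 h4
      have hP0 : P ≠ 0 := by
        obtain ⟨j, hj, hyj⟩ := hyex
        intro hP
        have := hcoef j
        rw [hP, if_pos hj] at this
        exact hyj (by simpa using this.symm)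
      have hroot : P.eval (z1 / f1) = 0 := by
        have h5 : P.eval (z1 / f1) * f1 ^ m0 = 0 := by
          rw [← h0]
          simp only [P, Polynomial.eval_finsetSum, Polynomial.eval_mul, Polynomial.eval_C,
            Polynomial.eval_pow, Polynomial.eval_X, Finset.sum_mul]
          refine Finset.sum_congr rfl fun j hj => ?_
          have hj' := Finset.mem_range.mp hj
          have : f1 ^ m0 = f1 ^ j * f1 ^ (m0 - j) := by rw [← pow_add]; congr 1; omega
          rw [this, div_pow]
          field_simp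
        exact (mul_eq_zero.mp h5).resolve_right (pow_ne_zero _ hd)
      have hxm : x ∈ clF i {x} := clF_gen (by simp)
      have hρm : ρ ∈ clF i {x} := rho_mem hb ha ha4 htr hF hxm
      have hmem : z1 / f1 ∈ clF i {x} := by
        refine mem_clF_of_root P hP0 (fun n => ?_) hroot
        rw [hcoef]
        split_ifs
        · refine clF_eval _ (fun j => ?_) _
          have hj : j = 0 ∨ j = 1 ∨ j = 2 := by
            fin_cases j
            · exact Or.inl rfl
            · exact Or.inr (Or.inl rfl)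
            · exact Or.inr (Or.inr rfl)
          rcases hj with rfl | rfl | rfl
          · exact hxm
          · exact hρm
          · exact Subfield.zero_mem _
        · exact Subfield.zero_mem _
      exact hc _ hmem (by rw [div_mul_cancel₀ _ hd])
    -- conclusion
    have hdvd : (X - C r) ^ m0 ∣ subsPar i π G := by
      rw [dvd_iff, hps]; exact dvd_mul_right _ _
    have hndvd : ¬ (X - C r) ^ (m0 + 1) ∣ subsPar i π G := by
      rw [dvd_iff, hps]
      rintro ⟨w, hw⟩
      rw [pow_succ, mul_assoc] at hw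
      have h6 : Θ = PowerSeries.X * w :=
        mul_left_cancel₀ (pow_ne_zero m0 PowerSeries.X_ne_zero) hw
      apply hne
      rw [h6]; simp
    have hne0 : subsPar i π G ≠ 0 := by
      rintro h0
      exact hndvd (by rw [h0]; exact dvd_zero _)
    apply le_antisymm
    · rw [Polynomial.rootMultiplicity_le_iff hne0]
      exact hndvd
    · rw [Polynomial.le_rootMultiplicity_iff hne0]
      exact hdvd

end MP_d2f638_ag.Stab
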