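import Pool.Agent.Lib.MP_d2f638_ag.Stab.Stmts

/-!
# N2: compatibility of the sums with homomorphisms
-/

namespace MP_d2f638_ag.Stab

open Polynomial

section

variable {k L L' : Type} [Field k] [Field L] [Field L']

lemma subsPar_map (i : k →+* L') (j : L' →+* L) (π : MvPolynomial (Fin 3) k) (G : Par L') :
    subsPar (j.comp i) π (G.map j) = (subsPar i π G).map j := by
  unfold subsPar
  rw [Polynomial.map_sum]
  refine Finset.sum_congr rfl (fun e _ => ?_)
  simp only [Par.map, Polynomial.map_mul, Polynomial.map_pow, Polynomial.map_C, RingHom.comp_apply]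

lemma at_map (j : L' →+* L) (G : Par L') (l : L') :
    (G.map j).at (j l) = fun n => j (G.at l n) := by
  funext n
  fin_cases n <;> simp [Par.at, Par.map, Polynomial.eval_map_apply]

lemma eval₂_map (i : k →+* L') (j : L' →+* L) (P : Fin 3 → L') (q : MvPolynomial (Fin 3) k) :
    MvPolynomial.eval₂ (j.comp i) (fun n => j (P n)) q = j (MvPolynomial.eval₂ i P q) :=
  (MvPolynomial.eval₂_comp_left j i P q).symm

lemma gen_map (i : k →+* L') (j : L' →+* L) (π : MvPolynomial (Fin 3) k) (P : Fin 3 → L') :
    Gen (j.comp i) π (fun n => j (P n)) ↔ Gen i π P := by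
  unfold Gen
  refine forall_congr' (fun q => ?_)
  rw [eval₂_map, map_eq_zero]

/-- The equation of the point at a generic point of the surface. -/
lemma evA_eqn {i : k →+* L'} (A : AD k) {P : Fin 3 → L'} (h : Gen i A.π P) :
    (MvPolynomial.eval₂ i P A.gy / MvPolynomial.eval₂ i P A.h) ^ 2 =
      (MvPolynomial.eval₂ i P A.gu / MvPolynomial.eval₂ i P A.h) ^ 3 -
        MvPolynomial.eval₂ i P A.gu / MvPolynomial.eval₂ i P A.h := by
  have h0 : MvPolynomial.eval₂ i P A.h ≠ 0 := fun hc => A.ndvd ((h _).1 hc)
  have h1 := (h _).2 A.eqn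
  simp only [MvPolynomial.eval₂_sub, MvPolynomial.eval₂_mul, MvPolynomial.eval₂_pow] at h1
  field_simp
  linear_combination h1

lemma evA_map [CharZero L] [CharZero L'] (i : k →+* L') (j : L' →+* L) (A : AD k)
    (P : Fin 3 → L') : evA (j.comp i) A (fun n => j (P n)) = Emap j (evA i A P) := by
  unfold evA
  rw [gen_map]
  split_ifs with h
  · rw [Emap_pt j (evA_eqn A h), map_div₀, map_div₀, eval₂_map, eval₂_map, eval₂_map]
  · rw [map_zero]

lemma rts_map [IsAlgClosed L'] (i : k →+* L') (j : L' →+* L) (π : MvPolynomial (Fin 3) k)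
    (G : Par L') : rts (j.comp i) π (G.map j) = (rts i π G).map j := by
  classical
  unfold rts
  rw [subsPar_map, (IsAlgClosed.splits (subsPar i π G)).roots_map_of_injective j.injective,
    Multiset.filter_map]
  congr 1
  refine Multiset.filter_congr (fun l _ => ?_)
  simp [Par.map, Polynomial.eval_map_apply]

end

theorem nat : stNat := by
  intro k L L' _ _ _ _ _ _ i j A G
  unfold S
  rw [rts_map, Multiset.map_map, map_multiset_sum, Multiset.map_map]
  congr 1
  refine Multiset.map_congr rfl (fun l _ => ?_)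
  simp only [Function.comp_apply]
  rw [at_map, evA_map]

end MP_d2f638_ag.Stab
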