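import Pool.Agent.Lib.MP_d2f638_ag.Stab.Stmts

/-!
# C3. A rational solution of the differential equation
-/

namespace MP_d2f638_ag.Stab

open Polynomial

namespace ODEAux

variable {k : Type} [Field k]

lemma delta_eval (a x0 : k) : (delta (C a) X : k[X]).eval x0 = delta a x0 := by
  simp [delta]

lemma delta_derivative_eval (a x0 : k) : (derivative (delta (C a) X : k[X])).eval x0 =
    (3 * (x0 ^ 2 - a ^ 2) ^ 2 - 1) * (2 * x0) := by
  simp only [delta, derivative_sub, derivative_pow, derivative_X, derivative_C]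
  simp only [eval_sub, eval_mul, eval_pow, eval_X, eval_C, eval_one, eval_zero]
  push_cast
  ring

lemma delta_sep [CharZero k] {a x0 : k} (hx0 : x0 ≠ 0) (h1 : delta a x0 = 0)
    (h2 : (3 * (x0 ^ 2 - a ^ 2) ^ 2 - 1) * (2 * x0) = 0) : False := by
  have h3 : 3 * (x0 ^ 2 - a ^ 2) ^ 2 = 1 := by
    rcases mul_eq_zero.mp h2 with h | h
    · linear_combination h
    · exact absurd h (mul_ne_zero two_ne_zero hx0)
  unfold delta at h1
  have h4 : (x0 ^ 2 - a ^ 2) * 2 = 0 := by
    linear_combination (-3) * h1 + (x0 ^ 2 - a ^ 2) * h3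
  have h5 : x0 ^ 2 - a ^ 2 = 0 := by
    rcases mul_eq_zero.mp h4 with h | h
    · exact h
    · exact absurd h two_ne_zero
  rw [h5] at h3
  norm_num at h3

lemma derivative_form (t e : k[X]) (ht : derivative t = 1) (s : ℕ) :
    derivative (t ^ (s + 1) * e) = t ^ s * ((s + 1 : k[X]) * e + t * derivative e) := by
  rw [derivative_mul, derivative_pow, ht]
  simp only [Nat.add_sub_cancel]
  push_cast
  rw [C_add, C_1, pow_succ]
  simp only [map_natCast]
  ring

lemma step1 {δ n e R Y t : k[X]} {s : ℕ} (ht : derivative t = 1) (ht0 : t ≠ 0)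
    (h : (2 * δ * (derivative n * (t ^ (s + 1) * e) - n * derivative (t ^ (s + 1) * e)) +
      derivative δ * n * (t ^ (s + 1) * e)) * Y = (t ^ (s + 1) * e) ^ 2 * R) :
    (2 * δ * (derivative n * (t * e) - n * ((s + 1 : k[X]) * e + t * derivative e)) +
      derivative δ * n * (t * e)) * Y = t ^ (s + 2) * (e ^ 2 * R) := by
  rw [derivative_form t e ht s] at h
  refine mul_left_cancel₀ (pow_ne_zero s ht0) ?_
  linear_combination h

lemma no_root [CharZero k] {a : k} {n d R : k[X]} (hc : IsCoprime n d) (hd : d ≠ 0)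
    (h : (2 * delta (C a) X * (derivative n * d - n * derivative d) +
      derivative (delta (C a) X) * n * d) * X ^ 2 = d ^ 2 * R) {x0 : k} (hx0 : x0 ≠ 0) :
    d.eval x0 ≠ 0 := by
  intro hroot
  obtain ⟨e, he, hne⟩ := exists_eq_pow_rootMultiplicity_mul_and_not_dvd d hd x0
  have hpos : 0 < d.rootMultiplicity x0 := (rootMultiplicity_pos hd).mpr hroot
  obtain ⟨s, hs⟩ : ∃ s, d.rootMultiplicity x0 = s + 1 := ⟨_, (Nat.succ_pred_eq_of_pos hpos).symm⟩
  rw [hs] at he
  have he0 : e.eval x0 ≠ 0 := fun h0 => hne (dvd_iff_isRoot.mpr h0)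
  have hn0 : n.eval x0 ≠ 0 := by
    intro h0
    obtain ⟨u, v, huv⟩ := hc
    have := congrArg (eval x0) huv
    simp [h0, hroot] at this
  set t : k[X] := X - C x0 with ht
  have ht1 : derivative t = 1 := by simp [ht]
  have ht0 : t ≠ 0 := X_sub_C_ne_zero x0
  have htx : t.eval x0 = 0 := by simp [ht]
  rw [he] at h
  have h1 := step1 ht1 ht0 h
  have hs1 : (s : k) + 1 ≠ 0 := by exact_mod_cast Nat.succ_ne_zero s
  have h2 : delta a x0 = 0 := by
    have h3 := congrArg (eval x0) h1
    simp only [eval_mul, eval_add, eval_sub, eval_pow, htx, delta_eval, eval_X, eval_natCast,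
      eval_one, eval_ofNat, zero_mul, mul_zero, add_zero, zero_sub,
      zero_pow (Nat.succ_ne_zero (s + 1))] at h3
    by_contra hcon
    have h4 : 2 * delta a x0 * -(eval x0 n * (((s : k) + 1) * eval x0 e)) * x0 ^ 2 = 0 := h3
    have h5 : 2 * delta a x0 * -(eval x0 n * (((s : k) + 1) * eval x0 e)) * x0 ^ 2 ≠ 0 := by
      refine mul_ne_zero (mul_ne_zero (mul_ne_zero two_ne_zero hcon) (neg_ne_zero.mpr
        (mul_ne_zero hn0 (mul_ne_zero hs1 he0)))) (pow_ne_zero 2 hx0)
    exact h5 h4
  obtain ⟨δ1, hδ1⟩ : t ∣ (delta (C a) X : k[X]) := by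
    rw [ht, dvd_iff_isRoot, IsRoot, delta_eval]
    exact h2
  have hder : derivative (delta (C a) X : k[X]) = δ1 + t * derivative δ1 := by
    rw [hδ1, derivative_mul, ht1, one_mul]
  have h6 : (2 * δ1 * (derivative n * (t * e) - n * ((s + 1 : k[X]) * e + t * derivative e)) +
      (δ1 + t * derivative δ1) * n * e) * X ^ 2 = t ^ (s + 1) * (e ^ 2 * R) := by
    rw [hder, hδ1] at h1
    refine mul_left_cancel₀ ht0 ?_
    linear_combination h1
  have h7 := congrArg (eval x0) h6
  simp only [eval_mul, eval_add, eval_sub, eval_pow, htx, eval_X, eval_natCast,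
      eval_one, eval_ofNat, zero_mul, mul_zero, add_zero, zero_sub,
      zero_pow (Nat.succ_ne_zero s)] at h7
  have h8 : eval x0 δ1 * (eval x0 n * eval x0 e * x0 ^ 2 * (1 + 2 * s)) = 0 := by
    linear_combination -h7
  have h9 : (1 : k) + 2 * s ≠ 0 := by
    have : ((1 + 2 * s : ℕ) : k) ≠ 0 := Nat.cast_ne_zero.mpr (by omega)
    push_cast at this
    exact this
  have h10 : eval x0 δ1 = 0 := by
    rcases mul_eq_zero.mp h8 with h | h
    · exact h
    · exact absurd h (mul_ne_zero (mul_ne_zero (mul_ne_zero hn0 he0) (pow_ne_zero 2 hx0)) h9)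
  refine delta_sep hx0 h2 ?_
  rw [← delta_derivative_eval, hder]
  simp [h10, htx]

/-- Division by the greatest common divisor. -/
lemma exists_coprime (n d : k[X]) (hd : d ≠ 0) : ∃ g n1 d1 : k[X], n = g * n1 ∧ d = g * d1 ∧
    IsCoprime n1 d1 := by
  classical
  obtain ⟨n1, hn⟩ := EuclideanDomain.gcd_dvd_left n d
  obtain ⟨d1, hd'⟩ := EuclideanDomain.gcd_dvd_right n d
  have hab := EuclideanDomain.gcd_eq_gcd_ab n d
  generalize EuclideanDomain.gcd n d = g at hn hd' hab
  generalize EuclideanDomain.gcdA n d = A at hab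
  generalize EuclideanDomain.gcdB n d = B at hab
  have hg : g ≠ 0 := by
    rintro rfl
    exact hd (by rw [hd', zero_mul])
  refine ⟨g, n1, d1, hn, hd', A, B, mul_left_cancel₀ hg ?_⟩
  rw [hn, hd'] at hab
  linear_combination -hab

lemma delta_natDegree (a : k) : (delta (C a) X : k[X]).natDegree ≤ 6 := by
  unfold delta
  compute_degree

lemma delta_coeff (a : k) : (delta (C a) X : k[X]).coeff 6 = 1 := by
  unfold delta
  compute_degree!

/-- The degree argument. -/
lemma no_pole_zero [CharZero k] {a u : k} {n R : k[X]} (hn : n ≠ 0) (hR : R.natDegree ≤ 3)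
    (h : 2 * delta (C a) X * (derivative n * X - n) + derivative (delta (C a) X) * n * X =
      C u * R) : False := by
  set N := n.natDegree with hN
  have h1 : (derivative n * X - n).natDegree ≤ N := by
    refine (natDegree_sub_le _ _).trans (max_le ?_ le_rfl)
    rcases Nat.eq_zero_or_pos n.natDegree with h0 | h0
    · rw [natDegree_eq_zero.mp h0 |>.choose_spec.symm]
      simp
    · refine (natDegree_mul_le).trans ?_
      rw [natDegree_X]
      have := natDegree_derivative_le n
      omega
  have h2 : (derivative n * X - n).coeff N = (N - 1) * n.leadingCoeff := by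
    rw [coeff_sub, hN, coeff_natDegree]
    rcases Nat.eq_zero_or_pos n.natDegree with h0 | h0
    · rw [h0, coeff_mul_X_zero]
      push_cast
      ring
    · obtain ⟨N', hN'⟩ : ∃ N', n.natDegree = N' + 1 := ⟨_, (Nat.succ_pred_eq_of_pos h0).symm⟩
      rw [hN', coeff_mul_X, coeff_derivative, ← hN', coeff_natDegree, hN']
      push_cast
      ring
  have h3 : (2 * delta (C a) X * (derivative n * X - n)).coeff (6 + N) =
      2 * ((N - 1) * n.leadingCoeff) := by
    rw [mul_assoc, ← C_ofNat, coeff_C_mul, coeff_mul_add_eq_of_natDegree_le (delta_natDegree a) h1,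
      delta_coeff, h2]
    simp
  have h4 : (derivative (delta (C a) X : k[X]) * n * X).coeff (6 + N) = 6 * n.leadingCoeff := by
    rw [show 6 + N = (5 + N) + 1 by ring, coeff_mul_X, coeff_mul_add_eq_of_natDegree_le
      ((natDegree_derivative_le _).trans (by have := delta_natDegree a; omega)) le_rfl,
      coeff_derivative, delta_coeff, coeff_natDegree]
    norm_num
  have h5 : (C u * R).coeff (6 + N) = 0 := by
    rw [coeff_C_mul, coeff_eq_zero_of_natDegree_lt (by omega), mul_zero]
  have h6 := congrArg (fun p => p.coeff (6 + N)) h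
  simp only [coeff_add] at h6
  rw [h3, h4, h5] at h6
  have h7 : n.leadingCoeff * (2 * N + 4) = 0 := by linear_combination h6
  have h8 : (2 : k) * N + 4 ≠ 0 := by
    have : ((2 * N + 4 : ℕ) : k) ≠ 0 := Nat.cast_ne_zero.mpr (by omega)
    push_cast at this
    exact this
  rcases mul_eq_zero.mp h7 with h | h
  · exact hn (leadingCoeff_eq_zero.mp h)
  · exact h8 h

end ODEAux

open ODEAux in
theorem ode : stODE := by
  intro k _ _ _ a ha ha4 n d l0 m0 m1 hd h
  obtain ⟨g, n1, d1, hn, hd', hc⟩ := exists_coprime n d hd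
  have hg : g ≠ 0 := by
    rintro rfl
    exact hd (by rw [hd', zero_mul])
  have hd1 : d1 ≠ 0 := by
    rintro rfl
    exact hd (by rw [hd', mul_zero])
  obtain ⟨R, hR⟩ : ∃ R : k[X], R = C (2 * m0) * X ^ 2 - C l0 + C (2 * m1) * X ^ 3 := ⟨_, rfl⟩
  rw [← hR] at h
  have h1 : (2 * delta (C a) X * (derivative n1 * d1 - n1 * derivative d1) +
      derivative (delta (C a) X) * n1 * d1) * X ^ 2 = d1 ^ 2 * R := by
    rw [hn, hd', derivative_mul, derivative_mul] at h
    refine mul_left_cancel₀ (pow_ne_zero 2 hg) ?_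
    linear_combination h
  have hnr := fun (x0 : k) (hx0 : x0 ≠ 0) => no_root hc hd1 h1 hx0
  have hR0 : R.eval 0 = -l0 := by simp [hR]
  have hRd : R.natDegree ≤ 3 := by
    rw [hR]
    compute_degree
  obtain ⟨e, he, hne⟩ := exists_eq_pow_rootMultiplicity_mul_and_not_dvd d1 hd1 0
  rw [C_0, sub_zero] at he hne
  have he0 : e.eval 0 ≠ 0 := by
    intro h0
    exact hne (X_dvd_iff.mpr (by rw [← h0, coeff_zero_eq_eval_zero]))
  have hconst : e.natDegree = 0 := by
    by_contra hcon
    obtain ⟨x0, hx0⟩ := IsAlgClosed.exists_root e (by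
      intro h0
      exact hcon (natDegree_eq_of_degree_eq_some h0))
    have hx1 : x0 ≠ 0 := by
      rintro rfl
      exact he0 hx0
    refine hnr x0 hx1 ?_
    rw [he, eval_mul, hx0.eq_zero, mul_zero]
  obtain ⟨u, hu⟩ := natDegree_eq_zero.mp hconst
  have hu0 : u ≠ 0 := by
    rintro rfl
    rw [← hu] at he0
    simp at he0
  rcases Nat.eq_zero_or_pos (d1.rootMultiplicity 0) with hm | hm
  · rw [hm, pow_zero, one_mul] at he
    have h2 := congrArg (eval 0) h1
    rw [he, ← hu] at h2
    simp only [eval_mul, eval_add, eval_sub, eval_pow, eval_X, eval_C, hR0] at h2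
    have h3 : u ^ 2 * l0 = 0 := by
      have : (0 : k) ^ 2 = 0 := by norm_num
      rw [this, mul_zero] at h2
      linear_combination h2
    rcases mul_eq_zero.mp h3 with h | h
    · exact absurd h (pow_ne_zero 2 hu0)
    · exact h
  · exfalso
    obtain ⟨s, hs⟩ : ∃ s, d1.rootMultiplicity 0 = s + 1 := ⟨_, (Nat.succ_pred_eq_of_pos hm).symm⟩
    rw [hs] at he
    have hn0 : n1.eval 0 ≠ 0 := by
      intro h0
      obtain ⟨p, q, hpq⟩ := hc
      have := congrArg (eval 0) hpq
      simp [h0, he] at this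
    have hX : (X : k[X]) ≠ 0 := X_ne_zero
    rw [he] at h1
    have h2 := step1 derivative_X hX h1
    have h3 : 2 * delta (C a) X * (derivative n1 * (X * e) - n1 * ((s + 1 : k[X]) * e)) +
        derivative (delta (C a) X) * n1 * (X * e) = X ^ s * (e ^ 2 * R) := by
      refine mul_right_cancel₀ (pow_ne_zero 2 hX) ?_
      have hde : derivative e = 0 := by rw [← hu, derivative_C]
      rw [hde] at h2
      linear_combination h2
    have hδ0 : delta a 0 ≠ 0 := by
      have : delta a 0 = a ^ 2 * (1 - a ^ 4) := by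
        unfold delta
        ring
      rw [this]
      exact mul_ne_zero ha (sub_ne_zero.mpr (Ne.symm ha4))
    rcases Nat.eq_zero_or_pos s with hs0 | hs0
    · subst hs0
      refine no_pole_zero (a := a) (u := u) (n := n1) (R := R) ?_ hRd ?_
      · rintro rfl
        simp at hn0
      · have hCu : (C u : k[X]) ≠ 0 := C_ne_zero.mpr hu0
        refine mul_left_cancel₀ hCu ?_
        rw [← hu] at h3
        push_cast at h3
        linear_combination h3
    · have h4 := congrArg (eval 0) h3
      have h5 : (0 : k) ^ s = 0 := zero_pow hs0.ne'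
      simp only [eval_mul, eval_add, eval_sub, eval_pow, eval_X, delta_eval, eval_natCast,
        eval_one, eval_ofNat, h5, zero_mul, mul_zero, add_zero, zero_sub] at h4
      have hs1 : (s : k) + 1 ≠ 0 := by exact_mod_cast Nat.succ_ne_zero s
      refine absurd h4 ?_
      exact mul_ne_zero (mul_ne_zero two_ne_zero hδ0) (neg_ne_zero.mpr
        (mul_ne_zero hn0 (mul_ne_zero hs1 he0)))

end MP_d2f638_ag.Stab
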