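import Pool.Agent.Lib.MP_d2f638_ag.Stab.SecGen

/-!
# Module P2: sums over real vertical lines lie in the component of the origin
-/

namespace MP_d2f638_ag.Stab

open Polynomial

/-! ## Polynomial identities -/

section

variable {k L : Type} [Field k] [Field L]

lemma subsPar_of_D_one (i : k →+* L) (q : MvPolynomial (Fin 3) k) (G : Par L) (hD : G.D = 1) :
    subsPar i q G = ∑ e ∈ q.support, C (i (q.coeff e)) * G.T ^ (e 0) * G.W ^ (e 1) *
      G.Z ^ (e 2) := by
  unfold subsPar
  simp [hD]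

lemma subsPar_eq_eval₂ (i : k →+* L) (q : MvPolynomial (Fin 3) k) (G : Par L) (hD : G.D = 1) :
    subsPar i q G = MvPolynomial.eval₂Hom (C.comp i) ![G.T, G.W, G.Z] q := by
  rw [subsPar_of_D_one i q G hD, MvPolynomial.coe_eval₂Hom, MvPolynomial.eval₂_eq']
  refine Finset.sum_congr rfl fun e _ => ?_
  simp [Fin.prod_univ_three, mul_assoc]

lemma subsPar_dvd (i : k →+* L) {q r : MvPolynomial (Fin 3) k} (h : q ∣ r) (G : Par L)
    (hD : G.D = 1) : subsPar i q G ∣ subsPar i r G := by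
  obtain ⟨c, rfl⟩ := h
  rw [subsPar_eq_eval₂ i q G hD, subsPar_eq_eval₂ i (q * c) G hD, map_mul]
  exact dvd_mul_right _ _

/-- The pullback of the conjugate polynomial to a curve. -/
lemma subsPar_pstar (i : k →+* L) (cj : k →+* k) (σ : L →+* L) (hσ : ∀ c, i (cj c) = σ (i c))
    (a b : k) (q : MvPolynomial (Fin 3) k) (G G' : Par L) (hD : G.D = 1) (hD' : G'.D = 1)
    (hT : G'.T.map σ = G.T) (hW : G'.W.map σ = G.W)
    (hZ : G.Z * G'.Z.map σ = Ff (C (i a)) (C (i b)) G.T G.W) :
    subsPar i (pstar cj a b (q.degreeOf 2) q) G =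
      G.Z ^ (q.degreeOf 2) * (subsPar i q G').map σ := by
  rw [subsPar_eq_eval₂ i _ G hD, subsPar_of_D_one i q G' hD']
  unfold pstar
  rw [map_sum, Polynomial.map_sum, Finset.mul_sum]
  refine Finset.sum_congr rfl fun e he => ?_
  have hle : e 2 ≤ q.degreeOf 2 := MvPolynomial.monomial_le_degreeOf 2 he
  obtain ⟨c, hc⟩ := Nat.exists_eq_add_of_le hle
  have hc' : q.degreeOf 2 - e 2 = c := by omega
  have hF : MvPolynomial.eval₂Hom (C.comp i) ![G.T, G.W, G.Z] (FP a b) =
      G.Z * G'.Z.map σ := by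
    unfold FP
    rw [map_Ff, hZ]
    simp
  rw [hc', hc]
  simp only [map_mul, map_pow, hF]
  simp only [MvPolynomial.coe_eval₂Hom, MvPolynomial.eval₂_C, MvPolynomial.eval₂_X,
    Polynomial.map_mul, Polynomial.map_pow, Polynomial.map_C, hT, hW, RingHom.comp_apply,
    Matrix.cons_val_zero, Matrix.cons_val_one, Matrix.cons_val, hσ]
  ring

end

/-! ## Roots of conjugate polynomials -/

lemma conj_inj : Function.Injective (starRingEnd ℂ) := (starRingEnd ℂ).injective

lemma rootMultiplicity_map_conj (f : ℂ[X]) (l : ℂ) :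
    (f.map (starRingEnd ℂ)).rootMultiplicity l = f.rootMultiplicity (starRingEnd ℂ l) := by
  have h := Polynomial.eq_rootMultiplicity_map (p := f) conj_inj (starRingEnd ℂ l)
  rw [Complex.conj_conj] at h
  exact h.symm

/-- Comparison of the multiplicities. -/
lemma rootMultiplicity_le_of_dvd (f g Z : ℂ[X]) (d : ℕ) (hg : g ≠ 0)
    (h : f ∣ Z ^ d * g.map (starRingEnd ℂ)) (l : ℂ) (hl : Z.eval l ≠ 0) :
    f.rootMultiplicity l ≤ g.rootMultiplicity (starRingEnd ℂ l) := by
  have hZ : Z ≠ 0 := by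
    rintro rfl
    simp at hl
  have hg' : g.map (starRingEnd ℂ) ≠ 0 := (Polynomial.map_ne_zero_iff conj_inj).2 hg
  have hne : Z ^ d * g.map (starRingEnd ℂ) ≠ 0 := mul_ne_zero (pow_ne_zero _ hZ) hg'
  have h1 := Polynomial.rootMultiplicity_le_rootMultiplicity_of_dvd hne h l
  rw [Polynomial.rootMultiplicity_mul hne, rootMultiplicity_map_conj] at h1
  have h2 : (Z ^ d).rootMultiplicity l = 0 := by
    apply Polynomial.rootMultiplicity_eq_zero
    rw [Polynomial.IsRoot.def, Polynomial.eval_pow]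
    exact pow_ne_zero _ hl
  omega

/-! ## Sums in the component of the origin -/

lemma conjE_pt {x y : ℂ} (h : y ^ 2 = x ^ 3 - x) :
    conjE (pt x y) = pt (starRingEnd ℂ x) (starRingEnd ℂ y) := Emap_pt _ h

lemma eqn_one : (0 : ℂ) ^ 2 = 1 ^ 3 - 1 := by ring

lemma E0_one : E0 (pt (1 : ℂ) 0) := Or.inr ⟨1, 0, le_refl _, by ring, by norm_num⟩

lemma p2_E0_zero : E0 (0 : E ℂ) := Or.inl rfl

lemma not_E0_neg_one : ¬ E0 (pt (-1 : ℂ) 0) := by
  have h1 : (0 : ℂ) ^ 2 = (-1) ^ 3 - (-1) := by ring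
  rintro (h | ⟨u, v, hu, huv, h⟩)
  · exact pt_ne_zero h1 h
  · have h2 : (v : ℂ) ^ 2 = (u : ℂ) ^ 3 - u := by exact_mod_cast huv
    have h3 := (pt_inj h1 h2 h).1
    have h4 : (-1 : ℝ) = u := by exact_mod_cast h3
    linarith

/-- There is no point with `p = \bar p + P_3`. -/
lemma ne_conj_add (hE : stE0) (p : E ℂ) : p ≠ conjE p + pt 1 0 := by
  intro h
  have hI : Complex.I ^ 2 = -1 := Complex.I_sq
  have h1 := hE.2.2 (imul Complex.I hI p)
  have h2 : conjE (imul Complex.I hI p) = - imul Complex.I hI (conjE p) := by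
    rcases exists_pt p with rfl | ⟨x, y, hxy, rfl⟩
    · simp only [map_zero, neg_zero]
    · have hxy' := eqn_map (starRingEnd ℂ) hxy
      rw [imul_pt hI hxy, conjE_pt (imul_eqn hI hxy), conjE_pt hxy, imul_pt hI hxy',
        neg_pt (imul_eqn hI hxy')]
      simp
  have h3 : imul Complex.I hI p + conjE (imul Complex.I hI p) = pt (-1) 0 := by
    rw [h2]
    have h4 : imul Complex.I hI p = imul Complex.I hI (conjE p) + pt (-1) 0 := by
      conv_lhs => rw [h]
      rw [map_add, imul_pt hI eqn_one, mul_zero]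
    rw [h4]
    abel
  rw [h3] at h1
  exact not_E0_neg_one h1

/-- A sum over a conjugation invariant multiset without real elements. -/
lemma sum_E0 (hE : stE0) (M : Multiset ℂ) (g : ℂ → E ℂ)
    (hconj : ∀ l, M.count (starRingEnd ℂ l) = M.count l) (hre : ∀ l ∈ M, l.im ≠ 0)
    (hg : ∀ l ∈ M, E0 (g l + g (starRingEnd ℂ l))) : E0 (M.map g).sum := by
  classical
  have hsplit : M = M.filter (fun l => 0 < l.im) + M.filter (fun l => ¬ 0 < l.im) :=
    (Multiset.filter_add_not _ _).symm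
  have hN : M.filter (fun l => ¬ 0 < l.im) =
      (M.filter (fun l => 0 < l.im)).map (starRingEnd ℂ) := by
    ext l
    have h1 := Multiset.count_map_eq_count' (starRingEnd ℂ) (M.filter (fun l => 0 < l.im))
      conj_inj (starRingEnd ℂ l)
    rw [Complex.conj_conj] at h1
    rw [h1, Multiset.count_filter, Multiset.count_filter, hconj]
    have h2 : (starRingEnd ℂ l).im = - l.im := Complex.conj_im l
    rw [h2]
    by_cases hl : l ∈ M
    · have h3 := hre l hl
      by_cases h4 : 0 < l.im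
      · rw [if_neg (by push Not; exact h4), if_neg (by linarith)]
      · have h5 : l.im < 0 := lt_of_le_of_ne (not_lt.1 h4) h3
        rw [if_pos h4, if_pos (by linarith)]
    · rw [Multiset.count_eq_zero_of_notMem hl]
      simp
  rw [hsplit, hN, Multiset.map_add, Multiset.sum_add, Multiset.map_map]
  rw [← Multiset.sum_map_add]
  have hall : ∀ l ∈ M.filter (fun l => 0 < l.im), E0 (g l + (g ∘ starRingEnd ℂ) l) := by
    intro l hl
    exact hg l (Multiset.mem_of_mem_filter hl)
  generalize M.filter (fun l => 0 < l.im) = N at hall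
  induction N using Multiset.induction_on with
  | empty => exact p2_E0_zero
  | cons l N ih =>
    rw [Multiset.map_cons, Multiset.sum_cons]
    exact hE.1 _ _ (hall l (Multiset.mem_cons_self _ _))
      (ih fun l' hl' => hall l' (Multiset.mem_cons_of_mem hl'))

/-! ## The vertical line -/

section

variable {k : Type} [Field k]

lemma SHyp.alg {i : k →+* ℂ} {cj : k →+* k} {a b : k} {al be : ℝ} {A : AD k}
    (h : SHyp i cj a b al be A) : b ^ 2 = a ^ 2 - 1 ∧ a ^ 2 ≠ 0 ∧ a ^ 4 ≠ 1 := by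
  have h1 : (1 : ℝ) < al ^ 2 := by
    have := pow_pos h.pos 2
    have := h.rel
    linarith
  refine ⟨?_, ?_, ?_⟩
  · apply i.injective
    rw [map_pow, map_sub, map_pow, map_one, h.ia, h.ib]
    exact_mod_cast h.rel
  · intro h0
    have h2 := congrArg i h0
    rw [map_pow, h.ia, map_zero] at h2
    have h3 : al ^ 2 = 0 := by exact_mod_cast h2
    linarith
  · intro h0
    have h2 := congrArg i h0
    rw [map_pow, h.ia, map_one] at h2
    have h3 : al ^ 4 = 1 := by exact_mod_cast h2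
    nlinarith

end

/-- P2. -/
theorem p2 (hE : stE0) : stP2 := by
  intro k _ _ _ i cj a b al be A h x y κ hxy hQ hκ hAI
  classical
  obtain ⟨hab, ha2, ha4⟩ := h.alg
  set Q : ℝ := Qf al be x with hQdef
  set ρ : ℂ := Complex.I * y / (Q : ℝ) with hρ
  set G : Par ℂ := lineP (x : ℂ) ρ κ with hG
  have hQ0 : (Q : ℂ) ≠ 0 := by exact_mod_cast hQ.ne'
  have hQC : Qf (al : ℂ) (be : ℂ) (x : ℂ) = (Q : ℂ) := by
    rw [hQdef]
    unfold Qf
    push_cast
    ring
  have hρc : starRingEnd ℂ ρ = -ρ := by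
    rw [hρ]
    simp only [map_div₀, map_mul, Complex.conj_I, Complex.conj_ofReal]
    ring
  have hκc : κ * starRingEnd ℂ κ = (Q : ℂ) := by
    rw [Complex.mul_conj, hκ]
  have hκ0 : κ ≠ 0 := by
    rintro rfl
    rw [zero_mul] at hκc
    exact hQ0 hκc.symm
  -- `F(x, l) = Q (l - ρ) (l + ρ)`
  have hQR : (Q : ℂ) * Rf (al : ℂ) (be : ℂ) (x : ℂ) = (y : ℂ) ^ 2 := by
    have h1 := Qf_mul_Rf (x := (x : ℂ)) (a := (al : ℂ)) (b := (be : ℂ))
      (by exact_mod_cast h.rel)
    rw [hQC] at h1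
    rw [h1]
    have h2 : ((y ^ 2 : ℝ) : ℂ) = ((delta al x : ℝ) : ℂ) := by rw [hxy]
    have h3 : ((delta al x : ℝ) : ℂ) = delta (al : ℂ) (x : ℂ) := by
      unfold delta
      push_cast
      ring
    rw [← h3, ← h2]
    push_cast
    ring
  have hρQ : (Q : ℂ) * ρ ^ 2 = - Rf (al : ℂ) (be : ℂ) (x : ℂ) := by
    have h1 : (Q : ℂ) * ((Q : ℂ) * ρ ^ 2) = (Q : ℂ) * (- Rf (al : ℂ) (be : ℂ) (x : ℂ)) := by
      rw [mul_neg, hQR, hρ]
      have : (Q : ℂ) * ((Q : ℂ) * (Complex.I * y / (Q : ℂ)) ^ 2) = Complex.I ^ 2 * y ^ 2 := by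
        field_simp
      rw [this, Complex.I_sq]
      ring
    exact mul_left_cancel₀ hQ0 h1
  have hFf : ∀ l : ℂ, Ff (al : ℂ) (be : ℂ) (x : ℂ) l = Q * (l - ρ) * (l + ρ) := by
    intro l
    unfold Ff
    rw [hQC]
    linear_combination hρQ
  have hF0 : Ff (i a) (i b) (x : ℂ) ρ = 0 := by
    rw [h.ia, h.ib, hFf]
    ring
  -- genericity of the intersection points
  have hgen : ∀ l ∈ rts i A.π G, Gen i A.π (G.at l) :=
    lineGen k ℂ i a b A.π (x : ℂ) ρ κ hab ha2 ha4 A.irr hF0 hAI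
  have hat : ∀ l : ℂ, G.at l = ![(x : ℂ), l, κ * (l - ρ)] := by
    intro l
    simp [hG, lineP, Par.at]
  have hZ : ∀ l : ℂ, G.Z.eval l = κ * (l - ρ) := by
    intro l
    simp [hG, lineP]
  have hmem : ∀ l : ℂ, l ∈ rts i A.π G → l ≠ ρ := by
    intro l hl
    unfold rts at hl
    rw [Multiset.mem_filter] at hl
    have h1 := hl.2.1
    rw [hZ] at h1
    rintro rfl
    simp at h1
  -- the conjugate of the point
  have hsP : ∀ l : ℂ, l ≠ ρ → sP al be (G.at l) = G.at (starRingEnd ℂ l) := by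
    intro l hl
    rw [hat, hat]
    unfold sP
    have h1 : starRingEnd ℂ l + ρ ≠ 0 := by
      intro h0
      apply hl
      have h2 := congrArg (starRingEnd ℂ) h0
      rw [map_add, Complex.conj_conj, hρc, map_zero] at h2
      linear_combination h2
    have h2 : starRingEnd ℂ κ ≠ 0 := by
      rw [Ne, map_eq_zero]
      exact hκ0
    simp only [Matrix.cons_val_zero, Matrix.cons_val_one, Matrix.cons_val, Complex.conj_ofReal,
      map_mul, map_sub, hρc, hFf]
    congr 1
    congr 1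
    congr 1
    rw [sub_neg_eq_add, div_eq_iff (mul_ne_zero h2 h1), ← hκc]
    ring
  -- `-ρ` is not an intersection point
  have hneg : ∀ l ∈ rts i A.π G, starRingEnd ℂ l ≠ ρ := by
    intro l hl h0
    have h1 := hgen l hl
    have hlρ := hmem l hl
    have hP2 : (G.at l) 2 ≠ 0 := by
      rw [hat]
      simp only [Matrix.cons_val]
      exact mul_ne_zero hκ0 (sub_ne_zero.2 hlρ)
    have h2 := (h.gen (G.at l) h1 hP2).1
    rw [hsP l hlρ, h0] at h2
    have h3 : A.π ∣ MvPolynomial.X 2 := by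
      rw [← h2]
      rw [MvPolynomial.eval₂_X, hat]
      simp
    rw [← h1, MvPolynomial.eval₂_X] at h3
    exact hP2 h3
  by_cases hf0 : subsPar i A.π G = 0
  · have : rts i A.π G = 0 := by
      unfold rts
      rw [hf0]
      simp
    unfold S
    rw [this]
    exact p2_E0_zero
  -- multiplicities
  have hdvd : subsPar i A.π G ∣ G.Z ^ (A.π.degreeOf 2) * (subsPar i A.π G).map (starRingEnd ℂ) := by
    rw [← subsPar_pstar i cj (starRingEnd ℂ) h.conj a b A.π G G rfl rfl]
    · exact subsPar_dvd i h.dvd G rfl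
    · simp [hG, lineP]
    · simp [hG, lineP]
    · simp only [hG, lineP, Polynomial.map_mul, Polynomial.map_sub, Polynomial.map_C,
        Polynomial.map_X, hρc]
      have h1 : Ff (C (i a)) (C (i b)) (C (x : ℂ)) X =
          C (Q : ℂ) * (X - C ρ) * (X + C ρ) := by
        unfold Ff
        have e1 : Qf (C (i a)) (C (i b)) (C (x : ℂ)) = C (Q : ℂ) := by
          rw [← map_Qf C, h.ia, h.ib, hQC]
        have e2 : Rf (C (i a)) (C (i b)) (C (x : ℂ)) = - (C (Q : ℂ) * C ρ ^ 2) := by
          rw [← map_Rf C, h.ia, h.ib, ← C_pow, ← C_mul, hρQ]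
          simp
        rw [e1, e2]
        ring
      rw [h1, ← hκc, C_mul, C_neg]
      ring
  have hle : ∀ l : ℂ, l ≠ ρ → (subsPar i A.π G).rootMultiplicity l ≤
      (subsPar i A.π G).rootMultiplicity (starRingEnd ℂ l) := by
    intro l hl
    refine rootMultiplicity_le_of_dvd _ _ G.Z _ hf0 hdvd l ?_
    rw [hZ]
    exact mul_ne_zero hκ0 (sub_ne_zero.2 hl)
  have hcount : ∀ l : ℂ, (rts i A.π G).count l =
      if l ≠ ρ then (subsPar i A.π G).rootMultiplicity l else 0 := by
    intro l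
    unfold rts
    rw [Multiset.count_filter, Polynomial.count_roots]
    have h1 : (G.Z.eval l ≠ 0 ∧ G.D.eval l ≠ 0) ↔ l ≠ ρ := by
      rw [hZ]
      simp [hG, lineP, hκ0, sub_eq_zero]
    simp only [h1]
  have hcle : ∀ l : ℂ, (rts i A.π G).count l ≤ (rts i A.π G).count (starRingEnd ℂ l) := by
    intro l
    by_cases hl : l ∈ rts i A.π G
    · rw [hcount, hcount, if_pos (hmem l hl), if_pos (hneg l hl)]
      exact hle l (hmem l hl)
    · rw [Multiset.count_eq_zero_of_notMem hl]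
      exact Nat.zero_le _
  have hceq : ∀ l : ℂ, (rts i A.π G).count (starRingEnd ℂ l) = (rts i A.π G).count l := by
    intro l
    refine le_antisymm ?_ (hcle l)
    have := hcle (starRingEnd ℂ l)
    rwa [Complex.conj_conj] at this
  have hconjval : ∀ l ∈ rts i A.π G, evA i A (G.at (starRingEnd ℂ l)) =
      conjE (evA i A (G.at l)) + pt 1 0 := by
    intro l hl
    have h1 := hgen l hl
    have hlρ := hmem l hl
    have hP2 : (G.at l) 2 ≠ 0 := by
      rw [hat]
      simp only [Matrix.cons_val]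
      exact mul_ne_zero hκ0 (sub_ne_zero.2 hlρ)
    have h2 := (h.gen (G.at l) h1 hP2).2
    rw [hsP l hlρ] at h2
    exact h2
  unfold S
  refine sum_E0 hE _ _ hceq ?_ ?_
  · intro l hl him
    have h1 := hconjval l hl
    have h2 : starRingEnd ℂ l = l := Complex.conj_eq_iff_im.2 him
    rw [h2] at h1
    exact ne_conj_add hE _ h1
  · intro l hl
    rw [hconjval l hl, ← add_assoc]
    exact hE.1 _ _ (hE.2.2 _) E0_one

end MP_d2f638_ag.Stab
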