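import Pool.Agent.Lib.MP_d2f638_ag.Stab.Cl
import Pool.Agent.Lib.MP_d2f638_ag.Stab.Nat

/-!
# P3: conjugate sections
-/

namespace MP_d2f638_ag.Stab

open Polynomial

namespace P3

section alg

variable {k : Type} [Field k] {i : k →+* ℂ}

/-- complex conjugation -/
noncomputable abbrev cc : ℂ →+* ℂ := starRingEnd ℂ

lemma rho_mem {T : Set ℂ} {al be : ℝ} (ha : (al : ℂ) ∈ clF i T) (hb : (be : ℂ) ∈ clF i T)
    (hrel : be ^ 2 = al ^ 2 - 1) (hpos : 0 < be) (hpos' : be < al) {r ρ : ℂ} (hr : r ∈ clF i T)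
    (h : Ff (al : ℂ) be r ρ = 0) : ρ ∈ clF i T := by
  have hQ : Qf (al : ℂ) be r ≠ 0 := by
    intro hQ
    have hR : Rf (al : ℂ) be r = 0 := by
      unfold Ff at h
      rw [hQ, zero_mul, zero_add] at h
      exact h
    unfold Qf at hQ
    unfold Rf at hR
    have hal : (0 : ℝ) < al := hpos.trans hpos'
    rcases mul_eq_zero.1 hQ with h1 | h1
    · have h2 : r = ((-al : ℝ) : ℂ) := by push_cast; linear_combination h1
      rw [h2] at hR
      have h3 : (-al - al) * (-al - be) * ((-al) ^ 2 - al ^ 2 - 1) = 0 := by exact_mod_cast hR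
      nlinarith [mul_pos hal (add_pos hal hpos)]
    · have h2 : r = ((-be : ℝ) : ℂ) := by push_cast; linear_combination h1
      rw [h2] at hR
      have h3 : (-be - al) * (-be - be) * ((-be) ^ 2 - al ^ 2 - 1) = 0 := by exact_mod_cast hR
      nlinarith [mul_pos hpos (add_pos hal hpos)]
  apply mem_clF_of_sq
  have h1 : ρ ^ 2 = -Rf (al : ℂ) be r / Qf (al : ℂ) be r := by
    rw [eq_div_iff hQ]
    unfold Ff at h
    linear_combination h
  rw [h1]
  refine div_mem (neg_mem ?_) ?_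
  · unfold Rf
    exact mul_mem (mul_mem (sub_mem hr ha) (sub_mem hr hb))
      (sub_mem (sub_mem (pow_mem hr 2) (pow_mem ha 2)) (one_mem _))
  · unfold Qf
    exact mul_mem (add_mem hr ha) (add_mem hr hb)

lemma ai_sec (hB : stBasis) {al be : ℝ} {a b : k} (ia : i a = al) (ib : i b = be)
    (hrel : be ^ 2 = al ^ 2 - 1) (hpos : 0 < be) (hpos' : be < al) {w0 w1 r r' μ ν : ℂ}
    (hne : r ≠ r') (h : Ff (al : ℂ) be r (w0 + w1 * r) = 0)
    (h' : Ff (al : ℂ) be r' (w0 + w1 * r') = 0) (hAI : AI i ![w0, w1, ν])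
    (hν : ∀ K : Subfield ℂ, w1 ∈ K → μ ∈ K → ν ∈ K) : AI i ![r, r', μ] := by
  refine hB k ℂ i 3 _ _ hAI ?_
  set T := Set.range ![r, r', μ] with hT
  have hr : r ∈ clF i T := mem_clF_of_mem ⟨0, rfl⟩
  have hr' : r' ∈ clF i T := mem_clF_of_mem ⟨1, rfl⟩
  have hμ : μ ∈ clF i T := mem_clF_of_mem ⟨2, rfl⟩
  have ha : (al : ℂ) ∈ clF i T := ia ▸ base_mem_clF a
  have hb : (be : ℂ) ∈ clF i T := ib ▸ base_mem_clF b
  have h1 := rho_mem ha hb hrel hpos hpos' hr h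
  have h2 := rho_mem ha hb hrel hpos hpos' hr' h'
  have hw1 : w1 ∈ clF i T := by
    have : w1 = ((w0 + w1 * r) - (w0 + w1 * r')) / (r - r') := by
      rw [eq_div_iff (sub_ne_zero.2 hne)]; ring
    rw [this]
    exact div_mem (sub_mem h1 h2) (sub_mem hr hr')
  have hw0 : w0 ∈ clF i T := by
    have : w0 = (w0 + w1 * r) - w1 * r := by ring
    rw [this]
    exact sub_mem h1 (mul_mem hw1 hr)
  intro j
  fin_cases j
  · exact hw0
  · exact hw1
  · exact hν _ hw1 hμ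

lemma ai_conj {cj : k →+* k} (hcj : ∀ c, i (cj c) = starRingEnd ℂ (i c)) {w0 w1 : ℝ} {μ : ℂ}
    (h : AI i ![(w0 : ℂ), (w1 : ℂ), μ]) : AI i ![(w0 : ℂ), (w1 : ℂ), starRingEnd ℂ μ] := by
  intro p hp h0
  have hp' : MvPolynomial.map cj p ≠ 0 := by
    intro hc
    apply hp
    exact MvPolynomial.map_injective cj cj.injective (by rw [hc, map_zero])
  refine h _ hp' ?_
  have h1 : starRingEnd ℂ (MvPolynomial.eval₂ i ![(w0 : ℂ), (w1 : ℂ), μ] (MvPolynomial.map cj p)) =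
      MvPolynomial.eval₂ i ![(w0 : ℂ), (w1 : ℂ), starRingEnd ℂ μ] p := by
    rw [MvPolynomial.eval₂_map, MvPolynomial.eval₂_comp_left]
    congr 1
    · ext c
      simp [hcj]
    · funext j
      fin_cases j <;> simp
  rw [h0] at h1
  exact (map_eq_zero _).1 h1

end alg

/-- four distinct roots -/
lemma quartic (al be w0 w1 : ℂ) (r1 r2 r3 r4 : ℂ) (h12 : r1 ≠ r2) (h13 : r1 ≠ r3) (h14 : r1 ≠ r4)
    (h23 : r2 ≠ r3) (h24 : r2 ≠ r4) (h34 : r3 ≠ r4)
    (e1 : Ff al be r1 (w0 + w1 * r1) = 0) (e2 : Ff al be r2 (w0 + w1 * r2) = 0)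
    (e3 : Ff al be r3 (w0 + w1 * r3) = 0) (e4 : Ff al be r4 (w0 + w1 * r4) = 0) :
    Ff (C al) (C be) (X : ℂ[X]) (C w0 + C w1 * X) =
      C (1 + w1 ^ 2) * ((X - C r1) * (X - C r2) * (X - C r3) * (X - C r4)) := by
  rw [← sub_eq_zero]
  have hform : Ff (C al) (C be) (X : ℂ[X]) (C w0 + C w1 * X) -
      C (1 + w1 ^ 2) * ((X - C r1) * (X - C r2) * (X - C r3) * (X - C r4)) =
      C (2 * w0 * w1 + (al + be) * w1 ^ 2 - (al + be) + (1 + w1 ^ 2) * (r1 + r2 + r3 + r4)) * X ^ 3 +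
      C (w0 ^ 2 + 2 * (al + be) * w0 * w1 + al * be * w1 ^ 2 + al * be - al ^ 2 - 1 -
        (1 + w1 ^ 2) * (r1 * r2 + r1 * r3 + r1 * r4 + r2 * r3 + r2 * r4 + r3 * r4)) * X ^ 2 +
      C ((al + be) * w0 ^ 2 + 2 * al * be * w0 * w1 + (al + be) * (al ^ 2 + 1) +
        (1 + w1 ^ 2) * (r1 * r2 * r3 + r1 * r2 * r4 + r1 * r3 * r4 + r2 * r3 * r4)) * X +
      C (al * be * w0 ^ 2 - al * be * (al ^ 2 + 1) - (1 + w1 ^ 2) * (r1 * r2 * r3 * r4)) := by
    unfold Ff Qf Rf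
    simp only [map_add, map_sub, map_mul, map_pow, map_one, map_ofNat]
    ring
  refine Polynomial.eq_zero_of_degree_lt_of_eval_finset_eq_zero ({r1, r2, r3, r4} : Finset ℂ)
    ?_ ?_
  · rw [hform]
    have hc : ({r1, r2, r3, r4} : Finset ℂ).card = 4 := by
      rw [Finset.card_insert_of_notMem, Finset.card_insert_of_notMem,
        Finset.card_insert_of_notMem, Finset.card_singleton]
      · simpa using h34
      · simp [h23, h24]
      · simp [h12, h13, h14]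
    rw [hc]
    exact degree_cubic_lt
  · have hev : ∀ r, (Ff (C al) (C be) (X : ℂ[X]) (C w0 + C w1 * X)).eval r =
        Ff al be r (w0 + w1 * r) := by
      intro r
      have := map_Ff (evalRingHom r) (C al) (C be) X (C w0 + C w1 * X)
      simpa using this
    intro x hx
    simp only [Finset.mem_insert, Finset.mem_singleton] at hx
    rw [eval_sub, hev]
    rcases hx with rfl | rfl | rfl | rfl
    · rw [e1]; simp
    · rw [e2]; simp
    · rw [e3]; simp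
    · rw [e4]; simp

section sect

variable {k : Type} [Field k]

/-- the section -/
noncomputable def sec (w0 w1 : ℂ) (Z : ℂ[X]) : Par ℂ := ⟨X, C w0 + C w1 * X, Z, 1⟩

lemma secP_eq (w0 w1 r r' μ : ℂ) (h : r ≠ r') :
    secP r (w0 + w1 * r) r' (w0 + w1 * r') μ = sec w0 w1 (C μ * (X - C r) * (X - C r')) := by
  unfold secP sec
  congr 1
  apply Polynomial.funext
  intro t
  simp only [eval_add, eval_mul, eval_C, eval_sub, eval_X]
  have h1 : r - r' ≠ 0 := sub_ne_zero.2 h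
  have h2 : r' - r ≠ 0 := sub_ne_zero.2 h.symm
  have h3 : r' - r = -(r - r') := by ring
  rw [h3]
  field_simp
  ring

lemma subs_eq (i : k →+* ℂ) (π : MvPolynomial (Fin 3) k) (w0 w1 : ℂ) (Z : ℂ[X]) :
    subsPar i π (sec w0 w1 Z) =
      MvPolynomial.eval₂ ((C : ℂ →+* ℂ[X]).comp i) ![X, C w0 + C w1 * X, Z] π := by
  rw [MvPolynomial.eval₂_eq']
  unfold subsPar sec
  refine Finset.sum_congr rfl (fun e _ => ?_)
  simp [Fin.prod_univ_three, mul_assoc]

lemma dvd_key (i : k →+* ℂ) (cj : k →+* k) (hcj : ∀ c, i (cj c) = starRingEnd ℂ (i c)) (a b : k)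
    (π : MvPolynomial (Fin 3) k) (hπ : π ∣ pstar cj a b (π.degreeOf 2) π) (w0 w1 : ℝ)
    (Z Z' : ℂ[X]) (hZ : Z * Z'.map (starRingEnd ℂ) =
      Ff (C (i a)) (C (i b)) (X : ℂ[X]) (C (w0 : ℂ) + C (w1 : ℂ) * X)) :
    subsPar i π (sec w0 w1 Z) ∣
      Z ^ (π.degreeOf 2) * (subsPar i π (sec w0 w1 Z')).map (starRingEnd ℂ) := by
  have h1 : subsPar i π (sec w0 w1 Z) ∣ MvPolynomial.eval₂ ((C : ℂ →+* ℂ[X]).comp i)
      ![X, C (w0 : ℂ) + C (w1 : ℂ) * X, Z] (pstar cj a b (π.degreeOf 2) π) := by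
    rw [subs_eq]
    obtain ⟨q, hq⟩ := hπ
    exact ⟨MvPolynomial.eval₂ ((C : ℂ →+* ℂ[X]).comp i) ![X, C (w0 : ℂ) + C (w1 : ℂ) * X, Z] q, by
      conv_lhs => rw [hq]
      rw [MvPolynomial.eval₂_mul]⟩
  refine h1.trans (dvd_of_eq ?_)
  have hFP : MvPolynomial.eval₂ ((C : ℂ →+* ℂ[X]).comp i)
      ![X, C (w0 : ℂ) + C (w1 : ℂ) * X, Z] (FP a b) = Z * Z'.map (starRingEnd ℂ) := by
    rw [hZ]
    have := map_Ff (MvPolynomial.eval₂Hom ((C : ℂ →+* ℂ[X]).comp i)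
      ![X, C (w0 : ℂ) + C (w1 : ℂ) * X, Z]) (MvPolynomial.C a) (MvPolynomial.C b)
      (MvPolynomial.X 0) (MvPolynomial.X 1)
    simpa [FP] using this
  unfold pstar
  rw [MvPolynomial.eval₂_sum]
  unfold subsPar
  rw [Polynomial.map_sum, Finset.mul_sum]
  refine Finset.sum_congr rfl (fun e he => ?_)
  have hle : e 2 ≤ π.degreeOf 2 := MvPolynomial.monomial_le_degreeOf 2 he
  obtain ⟨c, hc⟩ := Nat.exists_eq_add_of_le hle
  simp only [MvPolynomial.eval₂_mul, MvPolynomial.eval₂_pow, hFP, MvPolynomial.eval₂_C,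
    MvPolynomial.eval₂_X, RingHom.comp_apply, hcj, sec, Polynomial.map_mul, Polynomial.map_pow,
    Polynomial.map_C, Polynomial.map_X, Polynomial.map_add, one_pow, mul_one,
    Complex.conj_ofReal, Matrix.cons_val_zero, Matrix.cons_val_one, Matrix.cons_val]
  rw [hc, Nat.add_sub_cancel_left]
  ring

/-- multiplicities and division -/
lemma mult_le {f Z g : ℂ[X]} {d : ℕ} (h : f ∣ Z ^ d * g) (hg : g ≠ 0) {l : ℂ} (hl : Z.eval l ≠ 0) :
    f.rootMultiplicity l ≤ g.rootMultiplicity l := by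
  have hZ : Z ≠ 0 := by
    rintro rfl
    simp at hl
  have hne : Z ^ d * g ≠ 0 := mul_ne_zero (pow_ne_zero _ hZ) hg
  refine (Polynomial.rootMultiplicity_le_rootMultiplicity_of_dvd hne h l).trans ?_
  rw [rootMultiplicity_mul hne, rootMultiplicity_eq_zero (p := Z ^ d) (x := l), zero_add]
  simpa using fun h0 => absurd h0 hl


/-- the multiplicity of the conjugate point -/
lemma conj_mult (f : ℂ[X]) (l : ℂ) :
    (f.map (starRingEnd ℂ)).rootMultiplicity l = f.rootMultiplicity (starRingEnd ℂ l) := by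
  have h := Polynomial.eq_rootMultiplicity_map (p := f) (f := (starRingEnd ℂ))
    (starRingEnd ℂ).injective (starRingEnd ℂ l)
  rw [h]
  simp

lemma conj_eval (f : ℂ[X]) (l : ℂ) :
    (f.map (starRingEnd ℂ)).eval l = starRingEnd ℂ (f.eval (starRingEnd ℂ l)) := by
  have h : (f.map (starRingEnd ℂ)).eval (starRingEnd ℂ (starRingEnd ℂ l)) =
      starRingEnd ℂ (f.eval (starRingEnd ℂ l)) := by
    rw [Polynomial.eval_map, Polynomial.eval₂_at_apply]
  simpa using h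

lemma mem_rts_sec (i : k →+* ℂ) (π : MvPolynomial (Fin 3) k) (w0 w1 : ℂ) (Z : ℂ[X]) (l : ℂ) :
    l ∈ rts i π (sec w0 w1 Z) ↔ l ∈ (subsPar i π (sec w0 w1 Z)).roots ∧ Z.eval l ≠ 0 := by
  classical
  unfold rts
  rw [Multiset.mem_filter]
  simp [sec]

open Classical in
lemma count_rts_sec (i : k →+* ℂ) (π : MvPolynomial (Fin 3) k) (w0 w1 : ℂ) (Z : ℂ[X]) (l : ℂ) :
    (rts i π (sec w0 w1 Z)).count l =
      if Z.eval l ≠ 0 then (subsPar i π (sec w0 w1 Z)).rootMultiplicity l else 0 := by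
  unfold rts
  rw [Multiset.count_filter, Polynomial.count_roots]
  simp [sec]

lemma at_sec (w0 w1 : ℂ) (Z : ℂ[X]) (l : ℂ) : (sec w0 w1 Z).at l = ![l, w0 + w1 * l, Z.eval l] := by
  simp [sec, Par.at]

/-- the value of `F` at an intersection point does not vanish -/
lemma ev_ne (i : k →+* ℂ) (cj : k →+* k) (a b : k) (al be : ℝ) (A : AD k)
    (h : SHyp i cj a b al be A) (w0 w1 : ℝ) (Z Z' : ℂ[X])
    (hZ : Z * Z'.map (starRingEnd ℂ) =
      Ff (C (i a)) (C (i b)) (X : ℂ[X]) (C (w0 : ℂ) + C (w1 : ℂ) * X)) (l : ℂ)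
    (hl : l ∈ rts i A.π (sec w0 w1 Z)) (hG : Gen i A.π ((sec w0 w1 Z).at l)) :
    Z'.eval (starRingEnd ℂ l) ≠ 0 := by
  intro h0
  have hZl : Z.eval l ≠ 0 := ((mem_rts_sec i A.π w0 w1 Z l).1 hl).2
  have h2 : (sec w0 w1 Z).at l 2 ≠ 0 := by
    rw [at_sec]; simpa using hZl
  have hF : Ff (al : ℂ) (be : ℂ) (starRingEnd ℂ l) (starRingEnd ℂ (w0 + w1 * l)) = 0 := by
    have h3 := congrArg (fun p => p.eval l) hZ
    simp only [eval_mul] at h3
    rw [conj_eval, h0, map_zero, mul_zero] at h3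
    have h4 := map_Ff (evalRingHom l) (C (i a)) (C (i b)) X (C (w0 : ℂ) + C (w1 : ℂ) * X)
    simp only [coe_evalRingHom, eval_C, eval_X, eval_add, eval_mul] at h4
    rw [← h3, h.ia, h.ib] at h4
    have h5 := map_Ff (starRingEnd ℂ) (al : ℂ) (be : ℂ) l (w0 + w1 * l)
    rw [← h4, map_zero, Complex.conj_ofReal, Complex.conj_ofReal] at h5
    exact h5.symm
  have hs := (h.gen _ hG h2).1 (MvPolynomial.X 2)
  have hs2 : MvPolynomial.eval₂ i (sP al be ((sec w0 w1 Z).at l)) (MvPolynomial.X 2) = 0 := by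
    rw [MvPolynomial.eval₂_X]
    rw [at_sec]
    simp only [sP, Matrix.cons_val, Matrix.cons_val_zero, Matrix.cons_val_one]
    rw [hF, zero_div]
  have hd := hs.1 hs2
  have h6 := (hG (MvPolynomial.X 2)).2 hd
  rw [MvPolynomial.eval₂_X] at h6
  exact h2 h6

open Classical in
lemma count_le (i : k →+* ℂ) (cj : k →+* k) (a b : k) (al be : ℝ) (A : AD k)
    (h : SHyp i cj a b al be A) (w0 w1 : ℝ) (Z Z' : ℂ[X])
    (hZ : Z * Z'.map (starRingEnd ℂ) =
      Ff (C (i a)) (C (i b)) (X : ℂ[X]) (C (w0 : ℂ) + C (w1 : ℂ) * X))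
    (hne : subsPar i A.π (sec w0 w1 Z') ≠ 0)
    (hG : ∀ l ∈ rts i A.π (sec w0 w1 Z), Gen i A.π ((sec w0 w1 Z).at l)) (l : ℂ) :
    (rts i A.π (sec w0 w1 Z)).count l ≤ (rts i A.π (sec w0 w1 Z')).count (starRingEnd ℂ l) := by
  by_cases hl : l ∈ rts i A.π (sec w0 w1 Z)
  · have h1 := ev_ne i cj a b al be A h w0 w1 Z Z' hZ l hl (hG l hl)
    have h2 := ((mem_rts_sec i A.π w0 w1 Z l).1 hl).2
    rw [count_rts_sec, count_rts_sec, if_pos h2, if_pos h1]
    have h3 := dvd_key i cj h.conj a b A.π h.dvd w0 w1 Z Z' hZ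
    have h4 : (subsPar i A.π (sec w0 w1 Z')).map (starRingEnd ℂ) ≠ 0 := by
      rwa [Ne, Polynomial.map_eq_zero]
    have h5 := mult_le h3 h4 h2
    rwa [conj_mult] at h5
  · rw [Multiset.count_eq_zero.2 hl]
    exact Nat.zero_le _

/-- conjugate sections have conjugate intersections -/
lemma rts_conj (i : k →+* ℂ) (cj : k →+* k) (a b : k) (al be : ℝ) (A : AD k)
    (h : SHyp i cj a b al be A) (w0 w1 : ℝ) (Z Z' : ℂ[X])
    (hZ : Z * Z'.map (starRingEnd ℂ) =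
      Ff (C (i a)) (C (i b)) (X : ℂ[X]) (C (w0 : ℂ) + C (w1 : ℂ) * X))
    (hZ' : Z' * Z.map (starRingEnd ℂ) =
      Ff (C (i a)) (C (i b)) (X : ℂ[X]) (C (w0 : ℂ) + C (w1 : ℂ) * X))
    (hne : subsPar i A.π (sec w0 w1 Z) ≠ 0) (hne' : subsPar i A.π (sec w0 w1 Z') ≠ 0)
    (hG : ∀ l ∈ rts i A.π (sec w0 w1 Z), Gen i A.π ((sec w0 w1 Z).at l))
    (hG' : ∀ l ∈ rts i A.π (sec w0 w1 Z'), Gen i A.π ((sec w0 w1 Z').at l)) :
    rts i A.π (sec w0 w1 Z') = (rts i A.π (sec w0 w1 Z)).map (starRingEnd ℂ) := by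
  classical
  ext x
  obtain ⟨l, rfl⟩ : ∃ l, starRingEnd ℂ l = x := ⟨starRingEnd ℂ x, by simp⟩
  rw [Multiset.count_map_eq_count' _ _ (starRingEnd ℂ).injective]
  apply le_antisymm
  · have := count_le i cj a b al be A h w0 w1 Z' Z hZ' hne hG' (starRingEnd ℂ l)
    simpa using this
  · exact count_le i cj a b al be A h w0 w1 Z Z' hZ hne' hG l

/-- the sums over conjugate sections -/
lemma S_conj (i : k →+* ℂ) (cj : k →+* k) (a b : k) (al be : ℝ) (A : AD k)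
    (h : SHyp i cj a b al be A) (w0 w1 : ℝ) (Z Z' : ℂ[X])
    (hZ : Z * Z'.map (starRingEnd ℂ) =
      Ff (C (i a)) (C (i b)) (X : ℂ[X]) (C (w0 : ℂ) + C (w1 : ℂ) * X))
    (hZ' : Z' * Z.map (starRingEnd ℂ) =
      Ff (C (i a)) (C (i b)) (X : ℂ[X]) (C (w0 : ℂ) + C (w1 : ℂ) * X))
    (hne : subsPar i A.π (sec w0 w1 Z) ≠ 0) (hne' : subsPar i A.π (sec w0 w1 Z') ≠ 0)
    (hG : ∀ l ∈ rts i A.π (sec w0 w1 Z), Gen i A.π ((sec w0 w1 Z).at l))
    (hG' : ∀ l ∈ rts i A.π (sec w0 w1 Z'), Gen i A.π ((sec w0 w1 Z').at l)) :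
    S i A (sec w0 w1 Z') = conjE (S i A (sec w0 w1 Z)) +
      (rts i A.π (sec w0 w1 Z)).card • (pt 1 0 : E ℂ) := by
  unfold S
  rw [rts_conj i cj a b al be A h w0 w1 Z Z' hZ hZ' hne hne' hG hG', Multiset.map_map]
  rw [← Multiset.sum_replicate, ← Multiset.map_const', map_multiset_sum, Multiset.map_map,
    ← Multiset.sum_map_add]
  congr 1
  refine Multiset.map_congr rfl (fun l hl => ?_)
  simp only [Function.comp_apply]
  have hZl : Z.eval l ≠ 0 := ((mem_rts_sec i A.π w0 w1 Z l).1 hl).2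
  have h2 : (sec w0 w1 Z).at l 2 ≠ 0 := by
    rw [at_sec]; simpa using hZl
  have h3 := (h.gen _ (hG l hl) h2).2
  rw [← h3]
  congr 1
  rw [at_sec, at_sec]
  have h4 := congrArg (fun p => p.eval (starRingEnd ℂ l)) hZ'
  simp only [eval_mul] at h4
  rw [conj_eval, Complex.conj_conj] at h4
  have h5 := map_Ff (evalRingHom (starRingEnd ℂ l)) (C (i a)) (C (i b)) X
    (C (w0 : ℂ) + C (w1 : ℂ) * X)
  simp only [coe_evalRingHom, eval_C, eval_X, eval_add, eval_mul] at h5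
  rw [h5, h.ia, h.ib] at h4
  have h6 : starRingEnd ℂ (Z.eval l) ≠ 0 := by
    rwa [Ne, map_eq_zero]
  funext j
  fin_cases j
  · simp [sP]
  · simp [sP]
  · simp only [sP]
    simp only [Matrix.cons_val_zero, Matrix.cons_val_one, Matrix.cons_val, Fin.reduceFinMk,
      map_add, map_mul, Complex.conj_ofReal]
    rw [← h4, mul_div_cancel_right₀ _ h6]


open Classical in
/-- the number of intersection points is odd -/
lemma card_odd (i : k →+* ℂ) (π : MvPolynomial (Fin 3) k) (w0 w1 μ r r' : ℂ) (hμ : μ ≠ 0)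
    (hr : r ≠ r') (m0 : ℕ)
    (hdeg : (subsPar i π (sec w0 w1 (C μ * (X - C r) * (X - C r')))).natDegree = wdeg π)
    (h1 : (subsPar i π (sec w0 w1 (C μ * (X - C r) * (X - C r')))).rootMultiplicity r = m0)
    (h2 : (subsPar i π (sec w0 w1 (C μ * (X - C r) * (X - C r')))).rootMultiplicity r' = m0)
    (hodd : Odd (wdeg π)) : Odd (rts i π (sec w0 w1 (C μ * (X - C r) * (X - C r')))).card := by
  set f := subsPar i π (sec w0 w1 (C μ * (X - C r) * (X - C r'))) with hf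
  have hrts : rts i π (sec w0 w1 (C μ * (X - C r) * (X - C r'))) =
      f.roots.filter (fun l => ¬ (l = r ∨ l = r')) := by
    unfold rts
    refine Multiset.filter_congr (fun l _ => ?_)
    simp only [sec, eval_mul, eval_C, eval_sub, eval_X, eval_one]
    rw [mul_ne_zero_iff, mul_ne_zero_iff, sub_ne_zero, sub_ne_zero, not_or]
    constructor
    · rintro ⟨⟨⟨_, h⟩, h'⟩, _⟩
      exact ⟨h, h'⟩
    · rintro ⟨h, h'⟩
      exact ⟨⟨⟨hμ, h⟩, h'⟩, one_ne_zero⟩
  have hcard : f.roots.card = wdeg π := by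
    rw [← hdeg]
    exact (IsAlgClosed.splits f).natDegree_eq_card_roots.symm
  have hsplit := congrArg Multiset.card (Multiset.filter_add_not (fun l => l = r ∨ l = r') f.roots)
  rw [Multiset.card_add, hcard, ← hrts] at hsplit
  have hcnt : (f.roots.filter (fun l => l = r ∨ l = r')).card = m0 + m0 := by
    have h3 := congrArg Multiset.card
      (Multiset.filter_add_filter (fun l => l = r) (fun l => l = r') f.roots)
    rw [Multiset.card_add, Multiset.card_add] at h3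
    have h4 : (f.roots.filter (fun l => l = r ∧ l = r')).card = 0 := by
      rw [Multiset.card_eq_zero, Multiset.filter_eq_nil]
      rintro l _ ⟨h, h'⟩
      exact hr (h.symm.trans h')
    rw [h4, add_zero, Multiset.filter_eq', Multiset.filter_eq', Multiset.card_replicate,
      Multiset.card_replicate, count_roots, count_roots, h1, h2] at h3
    exact h3.symm
  rw [hcnt] at hsplit
  rw [← hsplit] at hodd
  rcases hodd with ⟨c, hc⟩
  refine ⟨c - m0, ?_⟩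
  omega

lemma odd_smul {n : ℕ} (h : Odd n) : n • (pt 1 0 : E ℂ) = pt 1 0 := by
  obtain ⟨c, rfl⟩ := h
  rw [add_smul, mul_comm, mul_smul, two_smul, pt_one_add_self, smul_zero, zero_add, one_smul]

end sect

end P3

open P3 in
/-- P3. -/
theorem p3 (hSD : stSecDeg) (hSM : stSecMult) (hM : stMult) (hSG : stSecGen) (hB : stBasis) :
    stP3 := by
  intro k _ _ _ i cj a b al be A h w0 w1 r1 r2 r3 μ hr12 hr3 e1 e2 e3 hAI
  -- side conditions
  have hal : 0 < al := h.pos.trans h.pos'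
  have hb2 : b ^ 2 = a ^ 2 - 1 := by
    apply i.injective
    rw [map_pow, map_sub, map_pow, map_one, h.ia, h.ib]
    exact_mod_cast h.rel
  have ha2 : a ^ 2 ≠ 0 := by
    intro h0
    have h1 := congrArg i h0
    rw [map_pow, map_zero, h.ia] at h1
    have h2 : al ^ 2 = 0 := by exact_mod_cast h1
    nlinarith [mul_pos hal hal]
  have ha4 : a ^ 4 ≠ 1 := by
    intro h0
    have h1 := congrArg i h0
    rw [map_pow, map_one, h.ia] at h1
    have h2 : al ^ 4 = 1 := by exact_mod_cast h1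
    have h3 := h.rel
    nlinarith [mul_pos h.pos h.pos, mul_pos hal hal]
  have hπ : A.π ≠ 0 := A.irr.ne_zero
  -- the four roots
  have e1' : Ff (al : ℂ) be r1 (w0 + w1 * r1) = 0 := by
    have := map_Ff Complex.ofRealHom al be r1 (w0 + w1 * r1)
    rw [e1, map_zero] at this
    simpa using this.symm
  have e2' : Ff (al : ℂ) be r2 (w0 + w1 * r2) = 0 := by
    have := map_Ff Complex.ofRealHom al be r2 (w0 + w1 * r2)
    rw [e2, map_zero] at this
    simpa using this.symm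
  have e4 : Ff (al : ℂ) be (starRingEnd ℂ r3) (w0 + w1 * starRingEnd ℂ r3) = 0 := by
    have := map_Ff (starRingEnd ℂ) (al : ℂ) be r3 (w0 + w1 * r3)
    rw [e3, map_zero] at this
    simpa using this.symm
  have hne12 : (r1 : ℂ) ≠ r2 := by exact_mod_cast hr12
  have hne13 : ∀ r : ℝ, (r : ℂ) ≠ r3 := by
    rintro r rfl
    simp at hr3
  have hne14 : ∀ r : ℝ, (r : ℂ) ≠ starRingEnd ℂ r3 := by
    intro r hr
    have := congrArg Complex.im hr
    simp at this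
    exact hr3 this
  have hne34 : r3 ≠ starRingEnd ℂ r3 := by
    intro hr
    have := congrArg Complex.im hr
    simp at this
    apply hr3
    linarith
  have hμ : μ ≠ 0 := by
    have := hAI.trans 2
    intro h0
    refine this X X_ne_zero ?_
    simpa using h0
  have hμc : starRingEnd ℂ μ ≠ 0 := by rwa [Ne, map_eq_zero]
  have hw : (1 + (w1 : ℂ) ^ 2) ≠ 0 := by
    have : (1 + w1 ^ 2 : ℝ) ≠ 0 := by positivity
    exact_mod_cast this
  set μ' : ℂ := (1 + w1 ^ 2) / starRingEnd ℂ μ with hμ'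
  have hμ0 : μ' ≠ 0 := div_ne_zero hw hμc
  have hquart := quartic (al : ℂ) be w0 w1 r1 r2 r3 (starRingEnd ℂ r3) hne12 (hne13 r1) (hne14 r1)
    (hne13 r2) (hne14 r2) hne34 e1' e2' e3 e4
  rw [secP_eq _ _ _ _ _ (hne13 r1), secP_eq _ _ _ _ _ (hne13 r2)]
  set Z : ℂ[X] := C μ * (X - C (r1 : ℂ)) * (X - C r3) with hZdef
  set Z' : ℂ[X] := C μ' * (X - C (r2 : ℂ)) * (X - C r3) with hZ'def
  have hcμ' : starRingEnd ℂ μ' = (1 + w1 ^ 2) / μ := by
    rw [hμ', map_div₀, Complex.conj_conj]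
    simp
  have hZ : Z * Z'.map (starRingEnd ℂ) =
      Ff (C (i a)) (C (i b)) (X : ℂ[X]) (C (w0 : ℂ) + C (w1 : ℂ) * X) := by
    rw [h.ia, h.ib, hquart, hZdef, hZ'def]
    simp only [Polynomial.map_mul, Polynomial.map_C, Polynomial.map_sub, Polynomial.map_X,
      Complex.conj_ofReal]
    have : (C μ * C (starRingEnd ℂ μ') : ℂ[X]) = C (1 + (w1 : ℂ) ^ 2) := by
      rw [← C_mul, hcμ', mul_div_cancel₀ _ hμ]
    linear_combination (X - C (r1 : ℂ)) * (X - C r3) * (X - C (r2 : ℂ)) *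
      (X - C (starRingEnd ℂ r3)) * this
  have hZ' : Z' * Z.map (starRingEnd ℂ) =
      Ff (C (i a)) (C (i b)) (X : ℂ[X]) (C (w0 : ℂ) + C (w1 : ℂ) * X) := by
    rw [h.ia, h.ib, hquart, hZdef, hZ'def]
    simp only [Polynomial.map_mul, Polynomial.map_C, Polynomial.map_sub, Polynomial.map_X,
      Complex.conj_ofReal]
    have : (C μ' * C (starRingEnd ℂ μ) : ℂ[X]) = C (1 + (w1 : ℂ) ^ 2) := by
      rw [← C_mul, hμ', div_mul_cancel₀ _ hμc]
    linear_combination (X - C (r1 : ℂ)) * (X - C r3) * (X - C (r2 : ℂ)) *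
      (X - C (starRingEnd ℂ r3)) * this
  -- independence
  have hS1 : SecH i a b (r1 : ℂ) (w0 + w1 * r1) r3 (w0 + w1 * r3) μ :=
    ⟨by rw [h.ia, h.ib]; exact e1', by rw [h.ia, h.ib]; exact e3,
      ai_sec hB h.ia h.ib h.rel h.pos h.pos' (hne13 r1) e1' e3 hAI (fun K _ hm => hm)⟩
  have hS2 : SecH i a b (r2 : ℂ) (w0 + w1 * r2) r3 (w0 + w1 * r3) μ' :=
    ⟨by rw [h.ia, h.ib]; exact e2', by rw [h.ia, h.ib]; exact e3,
      ai_sec hB h.ia h.ib h.rel h.pos h.pos' (hne13 r2) e2' e3 (ai_conj h.conj hAI)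
        (fun K h1 hm => by
          have : starRingEnd ℂ μ = (1 + (w1 : ℂ) ^ 2) / μ' := by
            rw [hμ', div_div_cancel₀ hw]
          rw [this]
          exact div_mem (add_mem (one_mem _) (pow_mem h1 2)) hm)⟩
  obtain ⟨m0, hm0⟩ := hM k a b A.π hb2 ha2 ha4 hπ
  have hd1 := hSD k ℂ i a b A.π _ _ _ _ _ hb2 ha2 ha4 hπ hS1
  have hd2 := hSD k ℂ i a b A.π _ _ _ _ _ hb2 ha2 ha4 hπ hS2
  have hg1 := hSG k ℂ i a b A.π _ _ _ _ _ hb2 ha2 ha4 A.irr hS1
  have hg2 := hSG k ℂ i a b A.π _ _ _ _ _ hb2 ha2 ha4 A.irr hS2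
  obtain ⟨hm1, hm2⟩ := hSM k ℂ i a b A.π m0 _ _ _ _ _ hb2 ha2 ha4 hπ hm0 hS1
  rw [secP_eq _ _ _ _ _ (hne13 r1), ← hZdef] at hd1 hg1 hm1 hm2
  rw [secP_eq _ _ _ _ _ (hne13 r2), ← hZ'def] at hd2 hg2
  have hwpos : 0 < wdeg A.π := h.odd.pos
  have hne1 : subsPar i A.π (sec w0 w1 Z) ≠ 0 := by
    intro h0
    rw [h0, natDegree_zero] at hd1
    omega
  have hne2 : subsPar i A.π (sec w0 w1 Z') ≠ 0 := by
    intro h0
    rw [h0, natDegree_zero] at hd2
    omega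
  rw [S_conj i cj a b al be A h w0 w1 Z Z' hZ hZ' hne1 hne2 hg1 hg2]
  have hodd : Odd (rts i A.π (sec w0 w1 Z)).card :=
    card_odd i A.π w0 w1 μ r1 r3 hμ (hne13 r1) m0 hd1 hm1 hm2 h.odd
  rw [odd_smul hodd]

end MP_d2f638_ag.Stab
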