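import Pool.Agent.Lib.MP_d2f638_ag.Stab.Stmts

/-!
# C2: regularity of the invariant differential
-/

namespace MP_d2f638_ag.Stab

open Polynomial

namespace Reg

variable {k M : Type} [Field k] [Field M]

/-- A valuation ring of `M` containing `k[x]` and centred at `x = x0`. -/
lemma exists_V (iM : k →+* M) (x : M) (htr : Trans iM x) (x0 : k) :
    ∃ V : ValuationSubring M, (∀ p : k[X], V.valuation (p.eval₂ iM x) ≤ 1) ∧
      V.valuation (x - iM x0) < 1 := by
  set A : Subring M := (eval₂RingHom iM x).range with hA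
  have hmem : x - iM x0 ∈ A := ⟨X - C x0, by simp⟩
  set I : Ideal A := Ideal.span {⟨x - iM x0, hmem⟩} with hI
  have hne : I ≠ ⊤ := by
    intro h
    rw [hI, Ideal.span_singleton_eq_top] at h
    obtain ⟨⟨b, hb⟩, hab⟩ := h.exists_right_inv
    obtain ⟨p, hp⟩ := hb
    have h1 : (x - iM x0) * b = 1 := by
      have := congrArg Subtype.val hab
      simpa using this
    have h2 : ((X - C x0) * p - 1).eval₂ iM x = 0 := by
      simp only [coe_eval₂RingHom] at hp
      simp [eval₂_mul, hp, h1]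
    have h3 : (X - C x0) * p - 1 = 0 := by
      by_contra hcon
      exact htr _ hcon h2
    have h4 := congrArg (eval x0) h3
    simp at h4
  obtain ⟨V, hV1, hV2⟩ := Ideal.image_subset_nonunits_valuationSubring I hne
  refine ⟨V, fun p => ?_, ?_⟩
  · rw [V.valuation_le_one_iff]
    exact hV1 ⟨p, by simp⟩
  · have := hV2 ⟨⟨x - iM x0, hmem⟩, Ideal.subset_span rfl, rfl⟩
    exact this

variable {iM : k →+* M} {x : M} {V : ValuationSubring M}

lemma v_const (hV : ∀ p : k[X], V.valuation (p.eval₂ iM x) ≤ 1) {c : k} (hc : c ≠ 0) :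
    V.valuation (iM c) = 1 := by
  have h1 := hV (C c)
  have h2 := hV (C c⁻¹)
  rw [eval₂_C] at h1 h2
  rw [map_inv₀, map_inv₀] at h2
  have h0 : V.valuation (iM c) ≠ 0 := by
    rw [Ne, map_eq_zero, map_eq_zero]
    exact hc
  refine le_antisymm h1 ?_
  exact (inv_le_one₀ (zero_lt_iff.2 h0)).1 h2

lemma v_lt (hV : ∀ p : k[X], V.valuation (p.eval₂ iM x) ≤ 1) {x0 : k}
    (hx : V.valuation (x - iM x0) < 1) {p : k[X]} (hp : p.eval x0 = 0) :
    V.valuation (p.eval₂ iM x) < 1 := by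
  obtain ⟨q, hq⟩ := dvd_iff_isRoot.2 hp
  rw [hq, eval₂_mul, map_mul]
  have h1 : V.valuation ((X - C x0).eval₂ iM x) < 1 := by simpa using hx
  calc _ ≤ V.valuation ((X - C x0).eval₂ iM x) * 1 := by gcongr; exact hV q
    _ < 1 := by rwa [mul_one]

lemma v_sub_lt (hV : ∀ p : k[X], V.valuation (p.eval₂ iM x) ≤ 1) {x0 : k}
    (hx : V.valuation (x - iM x0) < 1) (p : k[X]) :
    V.valuation (p.eval₂ iM x - iM (p.eval x0)) < 1 := by
  have := v_lt hV hx (p := p - C (p.eval x0)) (by simp)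
  simpa using this

/-- The ring `k[x, y]`. -/
def R0 (iM : k →+* M) (x y a : M) : Prop :=
  ∃ p q : k[X], a = p.eval₂ iM x + q.eval₂ iM x * y

variable {y : M} {δ : k[X]}

lemma R0_poly (p : k[X]) : R0 iM x y (p.eval₂ iM x) := ⟨p, 0, by simp⟩

lemma R0_y : R0 iM x y y := ⟨0, 1, by simp⟩

lemma R0_one : R0 iM x y 1 := ⟨1, 0, by simp⟩

lemma R0_add {a b : M} (ha : R0 iM x y a) (hb : R0 iM x y b) : R0 iM x y (a + b) := by
  obtain ⟨p, q, rfl⟩ := ha
  obtain ⟨p', q', rfl⟩ := hb
  refine ⟨p + p', q + q', ?_⟩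
  rw [eval₂_add, eval₂_add]
  ring

lemma R0_mul (hy : y ^ 2 = δ.eval₂ iM x) {a b : M} (ha : R0 iM x y a) (hb : R0 iM x y b) :
    R0 iM x y (a * b) := by
  obtain ⟨p, q, rfl⟩ := ha
  obtain ⟨p', q', rfl⟩ := hb
  refine ⟨p * p' + q * q' * δ, p * q' + q * p', ?_⟩
  simp only [eval₂_add, eval₂_mul]
  rw [← hy]
  ring

lemma R0_pow (hy : y ^ 2 = δ.eval₂ iM x) {a : M} (ha : R0 iM x y a) (n : ℕ) :
    R0 iM x y (a ^ n) := by
  induction n with
  | zero => rw [pow_zero]; exact R0_one
  | succ n ih => rw [pow_succ]; exact R0_mul hy ih ha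

lemma v_y (hy : y ^ 2 = δ.eval₂ iM x) (hV : ∀ p : k[X], V.valuation (p.eval₂ iM x) ≤ 1) :
    V.valuation y ≤ 1 := by
  have h1 : V.valuation y ^ 2 ≤ 1 := by
    rw [← map_pow, hy]
    exact hV δ
  by_contra hcon
  push Not at hcon
  have : 1 < V.valuation y ^ 2 := one_lt_pow₀ hcon two_ne_zero
  exact absurd h1 (not_le.2 this)

lemma v_R0 (hy : y ^ 2 = δ.eval₂ iM x) (hV : ∀ p : k[X], V.valuation (p.eval₂ iM x) ≤ 1)
    {a : M} (ha : R0 iM x y a) : V.valuation a ≤ 1 := by
  obtain ⟨p, q, rfl⟩ := ha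
  refine (V.valuation.map_add _ _).trans (max_le (hV p) ?_)
  rw [map_mul]
  exact mul_le_one' (hV q) (v_y hy hV)

/-- the value at the point -/
lemma exists_y0 [IsAlgClosed k] (hy : y ^ 2 = δ.eval₂ iM x)
    (hV : ∀ p : k[X], V.valuation (p.eval₂ iM x) ≤ 1) {x0 : k}
    (hx : V.valuation (x - iM x0) < 1) :
    ∃ y0 : k, y0 ^ 2 = δ.eval x0 ∧ V.valuation (y - iM y0) < 1 := by
  obtain ⟨s, hs⟩ := IsAlgClosed.exists_pow_nat_eq (δ.eval x0) (n := 2) two_pos
  have h1 : (y - iM s) * (y - iM (-s)) = δ.eval₂ iM x - iM (δ.eval x0) := by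
    rw [← hs, ← hy, map_neg, map_pow]
    ring
  have h2 : V.valuation (y - iM s) * V.valuation (y - iM (-s)) < 1 := by
    rw [← map_mul, h1]
    exact v_sub_lt hV hx δ
  by_cases h3 : V.valuation (y - iM s) < 1
  · exact ⟨s, hs, h3⟩
  · refine ⟨-s, by rw [neg_sq, hs], ?_⟩
    by_contra h4
    push Not at h3 h4
    exact absurd h2 (not_lt.2 (one_le_mul h3 h4))

lemma v_eq_one (_hy : y ^ 2 = δ.eval₂ iM x) (hV : ∀ p : k[X], V.valuation (p.eval₂ iM x) ≤ 1)
    {x0 y0 : k} (hx : V.valuation (x - iM x0) < 1) (hyv : V.valuation (y - iM y0) < 1)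
    {p q : k[X]} (h : p.eval x0 + q.eval x0 * y0 ≠ 0) :
    V.valuation (p.eval₂ iM x + q.eval₂ iM x * y) = 1 := by
  have h1 : p.eval₂ iM x + q.eval₂ iM x * y = iM (p.eval x0 + q.eval x0 * y0) +
      ((p.eval₂ iM x - iM (p.eval x0)) + ((q.eval₂ iM x - iM (q.eval x0)) * iM y0 +
        q.eval₂ iM x * (y - iM y0))) := by
    rw [map_add, map_mul]
    ring
  have h2 : V.valuation (iM y0) ≤ 1 := by
    have := hV (C y0)
    rwa [eval₂_C] at this
  have h3 : V.valuation ((p.eval₂ iM x - iM (p.eval x0)) + ((q.eval₂ iM x - iM (q.eval x0)) * iM y0 +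
        q.eval₂ iM x * (y - iM y0))) < 1 := by
    refine V.valuation.map_add_lt (v_sub_lt hV hx p) (V.valuation.map_add_lt ?_ ?_)
    · rw [map_mul]
      calc _ ≤ V.valuation (q.eval₂ iM x - iM (q.eval x0)) * 1 := by gcongr
        _ < 1 := by rw [mul_one]; exact v_sub_lt hV hx q
    · rw [map_mul]
      calc _ ≤ 1 * V.valuation (y - iM y0) := by gcongr; exact hV q
        _ < 1 := by rwa [one_mul]
  have h4 := v_const hV h
  rw [h1, V.valuation.map_add_eq_of_lt_left (h4 ▸ h3), h4]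

/-- Units. -/
def U (iM : k →+* M) (x y : M) (V : ValuationSubring M) (u : M) : Prop :=
  R0 iM x y u ∧ V.valuation u = 1

lemma U_mul (hy : y ^ 2 = δ.eval₂ iM x) {a b : M} (ha : U iM x y V a) (hb : U iM x y V b) :
    U iM x y V (a * b) :=
  ⟨R0_mul hy ha.1 hb.1, by rw [map_mul, ha.2, hb.2, one_mul]⟩

lemma U_one : U iM x y V 1 := ⟨R0_one, map_one _⟩

lemma U_pow (hy : y ^ 2 = δ.eval₂ iM x) {a : M} (ha : U iM x y V a) (n : ℕ) :
    U iM x y V (a ^ n) :=
  ⟨R0_pow hy ha.1 n, by rw [map_pow, ha.2, one_pow]⟩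

lemma U_poly (hy : y ^ 2 = δ.eval₂ iM x) (hV : ∀ p : k[X], V.valuation (p.eval₂ iM x) ≤ 1)
    {x0 y0 : k} (hx : V.valuation (x - iM x0) < 1) (hyv : V.valuation (y - iM y0) < 1)
    {p : k[X]} (hp : p.eval x0 ≠ 0) : U iM x y V (p.eval₂ iM x) := by
  refine ⟨R0_poly p, ?_⟩
  have := v_eq_one hy hV hx hyv (p := p) (q := 0) (by simpa using hp)
  simpa using this

/-- Factorisation of a polynomial at `x0`. -/
lemma poly_fac (x0 : k) {p : k[X]} (hp : p ≠ 0) : ∃ (n : ℕ) (p1 : k[X]),
    p = (X - C x0) ^ n * p1 ∧ p1.eval x0 ≠ 0 := by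
  obtain ⟨q, hq, hq'⟩ := p.exists_eq_pow_rootMultiplicity_mul_and_not_dvd hp x0
  exact ⟨_, q, hq, fun h => hq' (dvd_iff_isRoot.2 h)⟩

open Classical in
/-- Every nonzero element of `k[x, y]` is a power of a uniformiser times a unit. -/
lemma fac [CharZero k] (hδ : δ.Separable) (hy : y ^ 2 = δ.eval₂ iM x) (htr : Trans iM x)
    (hV : ∀ p : k[X], V.valuation (p.eval₂ iM x) ≤ 1)
    {x0 y0 : k} (hx : V.valuation (x - iM x0) < 1) (hyv : V.valuation (y - iM y0) < 1)
    (hy0 : y0 ^ 2 = δ.eval x0) :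
    ∃ t : M, t ≠ 0 ∧ R0 iM x y t ∧ V.valuation t < 1 ∧ ∀ a : M, R0 iM x y a → a ≠ 0 →
      ∃ (n : ℕ) (u w : M), U iM x y V u ∧ U iM x y V w ∧ a * w = t ^ n * u := by
  have hδ0 : δ ≠ 0 := hδ.ne_zero
  have hy_ne : y ≠ 0 := by
    intro h
    refine htr δ hδ0 ?_
    rw [← hy, h]
    ring
  by_cases hy00 : y0 = 0
  · -- the ramified case
    subst hy00
    have hroot : δ.eval x0 = 0 := by rw [← hy0]; ring
    obtain ⟨δ1, hδ1⟩ := dvd_iff_isRoot.2 hroot
    have hδ1' : δ1.eval x0 ≠ 0 := by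
      intro h
      obtain ⟨δ2, hδ2⟩ := dvd_iff_isRoot.2 h
      have hsq : (X - C x0) * (X - C x0) ∣ δ := ⟨δ2, by rw [hδ1, hδ2]; ring⟩
      have := hδ.squarefree _ hsq
      exact not_isUnit_X_sub_C x0 this
    have hyx : (x - iM x0) * δ1.eval₂ iM x = y ^ 2 := by
      rw [hy, hδ1]
      simp [eval₂_mul]
    refine ⟨y, hy_ne, R0_y, by simpa using hyv, ?_⟩
    rintro a ⟨p, q, rfl⟩ ha
    have hpq : ¬ (p = 0 ∧ q = 0) := by
      rintro ⟨rfl, rfl⟩
      simp at ha
    set d := EuclideanDomain.gcd p q with hd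
    have hd0 : d ≠ 0 := by
      intro h
      exact hpq (EuclideanDomain.gcd_eq_zero_iff.1 h)
    obtain ⟨p1, hp1⟩ := EuclideanDomain.gcd_dvd_left p q
    obtain ⟨q1, hq1⟩ := EuclideanDomain.gcd_dvd_right p q
    rw [← hd] at hp1 hq1
    have hcop : IsCoprime p1 q1 := by
      obtain ⟨s, t, hst⟩ : ∃ s t, d = p * s + q * t :=
        ⟨_, _, EuclideanDomain.gcd_eq_gcd_ab p q⟩
      refine ⟨s, t, ?_⟩
      apply mul_left_cancel₀ hd0
      calc d * (s * p1 + t * q1) = (d * p1) * s + (d * q1) * t := by ring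
        _ = d * 1 := by rw [← hp1, ← hq1, ← hst, mul_one]
    obtain ⟨n, d1, hd1, hd1'⟩ := poly_fac x0 hd0
    have hUd := U_poly hy hV hx hyv hd1'
    have hUδ := U_poly hy hV hx hyv hδ1'
    have hdx : d.eval₂ iM x = (x - iM x0) ^ n * d1.eval₂ iM x := by
      rw [hd1]
      simp [eval₂_mul, eval₂_pow]
    by_cases hp0 : p1.eval x0 = 0
    · obtain ⟨p2, hp2⟩ := dvd_iff_isRoot.2 hp0
      have hq0 : q1.eval x0 ≠ 0 := by
        intro h
        obtain ⟨s, t, hst⟩ := hcop
        have := congrArg (eval x0) hst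
        simp [hp0, h] at this
      have hUb : U iM x y V ((δ1 * q1).eval₂ iM x + p2.eval₂ iM x * y) := by
        refine ⟨⟨_, _, rfl⟩, v_eq_one hy hV hx hyv ?_⟩
        simpa using ⟨hδ1', hq0⟩
      refine ⟨2 * n + 1, d1.eval₂ iM x * ((δ1 * q1).eval₂ iM x + p2.eval₂ iM x * y),
        (δ1.eval₂ iM x) ^ (n + 1), U_mul hy hUd hUb, U_pow hy hUδ _, ?_⟩
      rw [hp1, hq1, eval₂_mul, eval₂_mul, hdx, hp2, eval₂_mul, eval₂_mul]
      have e1 : ((X - C x0).eval₂ iM x) = x - iM x0 := by simp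
      rw [e1, pow_succ y (2 * n), pow_mul, ← hyx, mul_pow]
      have e2 : (x - iM x0) * p2.eval₂ iM x * δ1.eval₂ iM x = y ^ 2 * p2.eval₂ iM x := by
        rw [← hyx]; ring
      calc ((x - iM x0) ^ n * d1.eval₂ iM x * ((x - iM x0) * p2.eval₂ iM x) +
            (x - iM x0) ^ n * d1.eval₂ iM x * q1.eval₂ iM x * y) * (δ1.eval₂ iM x) ^ (n + 1)
          = (x - iM x0) ^ n * d1.eval₂ iM x * (δ1.eval₂ iM x) ^ n *
            ((x - iM x0) * p2.eval₂ iM x * δ1.eval₂ iM x +
              q1.eval₂ iM x * y * δ1.eval₂ iM x) := by ring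
        _ = _ := by
            rw [e2]
            ring
    · have hUb : U iM x y V (p1.eval₂ iM x + q1.eval₂ iM x * y) := by
        refine ⟨⟨_, _, rfl⟩, v_eq_one hy hV hx hyv ?_⟩
        simpa using hp0
      refine ⟨2 * n, d1.eval₂ iM x * (p1.eval₂ iM x + q1.eval₂ iM x * y),
        (δ1.eval₂ iM x) ^ n, U_mul hy hUd hUb, U_pow hy hUδ _, ?_⟩
      rw [hp1, hq1, eval₂_mul, eval₂_mul, hdx, pow_mul, ← hyx, mul_pow]
      ring
  · -- the unramified case
    refine ⟨x - iM x0, ?_, ⟨X - C x0, 0, by simp⟩, hx, ?_⟩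
    · intro h
      refine htr (X - C x0) (X_sub_C_ne_zero x0) ?_
      simpa using h
    rintro a ⟨p, q, rfl⟩ ha
    have hpq : ¬ (p = 0 ∧ q = 0) := by
      rintro ⟨rfl, rfl⟩
      simp at ha
    set d := EuclideanDomain.gcd p q with hd
    have hd0 : d ≠ 0 := by
      intro h
      exact hpq (EuclideanDomain.gcd_eq_zero_iff.1 h)
    obtain ⟨p1, hp1⟩ := EuclideanDomain.gcd_dvd_left p q
    obtain ⟨q1, hq1⟩ := EuclideanDomain.gcd_dvd_right p q
    rw [← hd] at hp1 hq1
    have hcop : IsCoprime p1 q1 := by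
      obtain ⟨s, t, hst⟩ : ∃ s t, d = p * s + q * t :=
        ⟨_, _, EuclideanDomain.gcd_eq_gcd_ab p q⟩
      refine ⟨s, t, ?_⟩
      apply mul_left_cancel₀ hd0
      calc d * (s * p1 + t * q1) = (d * p1) * s + (d * q1) * t := by ring
        _ = d * 1 := by rw [← hp1, ← hq1, ← hst, mul_one]
    obtain ⟨n, d1, hd1, hd1'⟩ := poly_fac x0 hd0
    have hUd := U_poly hy hV hx hyv hd1'
    have hdx : d.eval₂ iM x = (x - iM x0) ^ n * d1.eval₂ iM x := by
      rw [hd1]
      simp [eval₂_mul, eval₂_pow]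
    have hax : p.eval₂ iM x + q.eval₂ iM x * y =
        d.eval₂ iM x * (p1.eval₂ iM x + q1.eval₂ iM x * y) := by
      conv_lhs => rw [hp1, hq1, eval₂_mul, eval₂_mul]
      ring
    by_cases h1 : p1.eval x0 + q1.eval x0 * y0 = 0
    · have h2 : p1.eval x0 + (-q1).eval x0 * y0 ≠ 0 := by
        intro h2
        rw [eval_neg] at h2
        have h3 : (2 : k) * p1.eval x0 = 0 := by linear_combination h1 + h2
        have h4 : (2 : k) * (q1.eval x0 * y0) = 0 := by linear_combination h1 - h2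
        have h5 : p1.eval x0 = 0 := by simpa using h3
        have h6 : q1.eval x0 = 0 := by simpa [hy00] using h4
        obtain ⟨s, t, hst⟩ := hcop
        have := congrArg (eval x0) hst
        simp [h5, h6] at this
      have hUb : U iM x y V (p1.eval₂ iM x + (-q1).eval₂ iM x * y) :=
        ⟨⟨_, _, rfl⟩, v_eq_one hy hV hx hyv h2⟩
      have hN : (p1.eval₂ iM x + q1.eval₂ iM x * y) * (p1.eval₂ iM x + (-q1).eval₂ iM x * y) =
          (p1 ^ 2 - q1 ^ 2 * δ).eval₂ iM x := by
        simp only [eval₂_neg, eval₂_sub, eval₂_mul, eval₂_pow]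
        rw [← hy]
        ring
      have hN0 : p1 ^ 2 - q1 ^ 2 * δ ≠ 0 := by
        intro h
        rw [h, eval₂_zero, mul_eq_zero] at hN
        rcases hN with h | h
        · rw [hax, h, mul_zero] at ha
          exact ha rfl
        · have := hUb.2
          rw [h, map_zero] at this
          exact zero_ne_one this
      obtain ⟨j, N1, hN1, hN1'⟩ := poly_fac x0 hN0
      have hUN := U_poly hy hV hx hyv hN1'
      refine ⟨n + j, d1.eval₂ iM x * N1.eval₂ iM x, _, U_mul hy hUd hUN, hUb, ?_⟩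
      rw [hax, hdx, mul_assoc, hN, hN1]
      simp only [eval₂_mul, eval₂_pow, eval₂_sub, eval₂_X, eval₂_C]
      ring
    · refine ⟨n, d1.eval₂ iM x * (p1.eval₂ iM x + q1.eval₂ iM x * y), 1,
        U_mul hy hUd ⟨⟨_, _, rfl⟩, v_eq_one hy hV hx hyv h1⟩, U_one, ?_⟩
      rw [hax, hdx]
      ring

/-- The elements of the valuation ring are fractions with denominator a unit. -/
lemma frac [CharZero k] (hδ : δ.Separable) (hy : y ^ 2 = δ.eval₂ iM x) (htr : Trans iM x)
    (hgen : ∀ m : M, ∃ p q r : k[X], r ≠ 0 ∧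
      m * r.eval₂ iM x = p.eval₂ iM x + q.eval₂ iM x * y)
    (hV : ∀ p : k[X], V.valuation (p.eval₂ iM x) ≤ 1)
    {x0 y0 : k} (hx : V.valuation (x - iM x0) < 1) (hyv : V.valuation (y - iM y0) < 1)
    (hy0 : y0 ^ 2 = δ.eval x0) {m : M} (hm : V.valuation m ≤ 1) :
    ∃ a b : M, R0 iM x y a ∧ U iM x y V b ∧ m * b = a := by
  by_cases hm0 : m = 0
  · exact ⟨0, 1, ⟨0, 0, by simp⟩, U_one, by rw [hm0, zero_mul]⟩
  obtain ⟨t, ht0, htR, htv, hfac⟩ := fac hδ hy htr hV hx hyv hy0
  obtain ⟨p, q, r, hr, hmr⟩ := hgen m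
  have hrx : r.eval₂ iM x ≠ 0 := htr r hr
  obtain ⟨n, u, w, hu, hw, h1⟩ := hfac _ ⟨p, q, rfl⟩ (by rw [← hmr]; exact mul_ne_zero hm0 hrx)
  obtain ⟨n', u', w', hu', hw', h2⟩ := hfac _ (R0_poly r) hrx
  have key : m * t ^ n' * (u' * w) = t ^ n * (u * w') := by
    calc m * t ^ n' * (u' * w) = m * (t ^ n' * u') * w := by ring
      _ = m * (r.eval₂ iM x * w') * w := by rw [h2]
      _ = (m * r.eval₂ iM x * w) * w' := by ring
      _ = t ^ n * (u * w') := by rw [hmr, h1]; ring
  rcases le_or_gt n' n with hn | hn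
  · obtain ⟨s, rfl⟩ := Nat.exists_eq_add_of_le hn
    refine ⟨t ^ s * (u * w'), u' * w, R0_mul hy (R0_pow hy htR s) (R0_mul hy hu.1 hw'.1),
      U_mul hy hu' hw, ?_⟩
    apply mul_left_cancel₀ (pow_ne_zero n' ht0)
    calc t ^ n' * (m * (u' * w)) = m * t ^ n' * (u' * w) := by ring
      _ = _ := by rw [key]; ring
  · exfalso
    obtain ⟨s, rfl⟩ := Nat.exists_eq_add_of_lt hn
    have h3 : m * t ^ (s + 1) * (u' * w) = u * w' := by
      apply mul_left_cancel₀ (pow_ne_zero n ht0)
      calc t ^ n * (m * t ^ (s + 1) * (u' * w)) = m * t ^ (n + s + 1) * (u' * w) := by ring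
        _ = _ := key
    have h4 := congrArg V.valuation h3
    simp only [map_mul, map_pow, hu'.2, hw.2, hu.2, hw'.2, mul_one] at h4
    have h5 : V.valuation t ^ (s + 1) < 1 := pow_lt_one₀ zero_le htv (Nat.succ_ne_zero s)
    have h6 : V.valuation m * V.valuation t ^ (s + 1) < 1 := by
      calc _ ≤ 1 * V.valuation t ^ (s + 1) := by gcongr
        _ < 1 := by rwa [one_mul]
    exact absurd h4 h6.ne

lemma D_poly (D : Derivation ℤ M M) (hD : ∀ c, D (iM c) = 0) (hDx : D x = y) (p : k[X]) :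
    D (p.eval₂ iM x) = (derivative p).eval₂ iM x * y := by
  induction p using Polynomial.induction_on' with
  | add p q hp hq =>
    rw [eval₂_add, map_add, hp, hq, derivative_add, eval₂_add]
    ring
  | monomial n c =>
    rw [eval₂_monomial, D.leibniz, hD, D.leibniz_pow, hDx, derivative_monomial, eval₂_monomial]
    simp only [smul_eq_mul, mul_zero, add_zero, nsmul_eq_mul, map_mul, map_natCast]
    ring

/-- The derivation preserves the ring `k[x, y]`. -/
lemma D_R0 [CharZero M] (hy : y ^ 2 = δ.eval₂ iM x) (hy_ne : y ≠ 0) (D : Derivation ℤ M M)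
    (hD : ∀ c, D (iM c) = 0) (hDx : D x = y) {a : M} (ha : R0 iM x y a) :
    R0 iM x y (D a) := by
  obtain ⟨p, q, rfl⟩ := ha
  have hDy : 2 * D y = (derivative δ).eval₂ iM x := by
    have h1 : D (y ^ 2) = (derivative δ).eval₂ iM x * y := by rw [hy, D_poly D hD hDx]
    rw [D.leibniz_pow] at h1
    simp only [Nat.add_one_sub_one, pow_one, smul_eq_mul, nsmul_eq_mul, Nat.cast_ofNat] at h1
    apply mul_right_cancel₀ hy_ne
    rw [← h1]
    ring
  have hDy' : D y = ((derivative δ).eval₂ iM x) * iM (1 / 2) := by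
    have h2 : iM (1 / 2) = 1 / 2 := by rw [map_div₀, map_one, map_ofNat]
    have : (2 : M) ≠ 0 := two_ne_zero
    rw [h2, ← hDy]
    field_simp
  refine ⟨derivative q * δ + q * derivative δ * C (1 / 2), derivative p, ?_⟩
  rw [map_add, D.leibniz, D_poly D hD hDx, D_poly D hD hDx, hDy']
  simp only [smul_eq_mul, eval₂_add, eval₂_mul, eval₂_C]
  rw [← hy]
  ring

end Reg

open Reg in
/-- C2. -/
theorem reg : stReg := by
  intro k M _ _ _ _ _ iM δ x y hδ hy htr hgen D hD hDx p q n d hpq hq hnd hd hg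
  by_contra hdu
  have hdeg : d.degree ≠ 0 := by
    intro h
    exact hdu (isUnit_iff_degree_eq_zero.2 h)
  obtain ⟨x0, hx0⟩ := IsAlgClosed.exists_root d hdeg
  have hn0 : n.eval x0 ≠ 0 := by
    intro h
    obtain ⟨s, t, hst⟩ := hnd
    have := congrArg (eval x0) hst
    simp [h, hx0.eq_zero] at this
  obtain ⟨V, hV, hx⟩ := exists_V iM x htr x0
  obtain ⟨y0, hy0, hyv⟩ := exists_y0 hy hV hx
  have hy_ne : y ≠ 0 := by
    intro h
    refine htr δ hδ.ne_zero ?_
    rw [← hy, h]
    ring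
  have hDV : ∀ m : M, V.valuation m ≤ 1 → V.valuation (D m) ≤ 1 := by
    intro m hm
    obtain ⟨a, b, ha, hb, hab⟩ := frac hδ hy htr hgen hV hx hyv hy0 hm
    have h1 : D m * b = D a - m * D b := by
      rw [← hab, D.leibniz]
      simp only [smul_eq_mul]
      ring
    have h2 : V.valuation (D m) = V.valuation (D m * b) := by rw [map_mul, hb.2, mul_one]
    rw [h2, h1]
    refine (V.valuation.map_sub _ _).trans (max_le ?_ ?_)
    · exact v_R0 hy hV (D_R0 hy hy_ne D hD hDx ha)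
    · rw [map_mul]
      exact mul_le_one' hm (v_R0 hy hV (D_R0 hy hy_ne D hD hDx hb.1))
  have hDq : 2 * q * D q = (3 * p ^ 2 - 1) * D p := by
    have h1 : D (q ^ 2) = D (p ^ 3 - p) := by rw [hpq]
    rw [map_sub, D.leibniz_pow, D.leibniz_pow] at h1
    simp only [Nat.add_one_sub_one, pow_one, smul_eq_mul, nsmul_eq_mul, Nat.cast_ofNat] at h1
    linear_combination h1
  have hnat : ∀ c : k, V.valuation (iM c) ≤ 1 := by
    intro c
    have := hV (C c)
    rwa [eval₂_C] at this
  have hv2 : V.valuation (2 : M) = 1 := by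
    have := v_const hV (c := (2 : k)) two_ne_zero
    rwa [map_ofNat] at this
  have hv3 : V.valuation (3 : M) ≤ 1 := by
    have := hnat 3
    rwa [map_ofNat] at this
  have hv9 : V.valuation (9 : M) ≤ 1 := by
    have := hnat 9
    rwa [map_ofNat] at this
  -- the value of g
  have hgv : V.valuation (D p / q) ≤ 1 := by
    rcases le_or_gt (V.valuation p) 1 with hp | hp
    · have hq1 : V.valuation q ≤ 1 := by
        by_contra hcon
        push Not at hcon
        have h1 : 1 < V.valuation q ^ 2 := one_lt_pow₀ hcon two_ne_zero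
        rw [← map_pow, hpq] at h1
        have h2 : V.valuation (p ^ 3 - p) ≤ 1 := by
          refine (V.valuation.map_sub _ _).trans (max_le ?_ hp)
          rw [map_pow]
          exact pow_le_one' hp 3
        exact absurd h2 (not_le.2 h1)
      have h3 : 2 * (D p / q) = (3 * p ^ 2 - 2) * (2 * D q) - 9 * p * (q * D p) := by
        field_simp
        linear_combination (9 * p * D p) * hpq - (3 * p ^ 2 - 2) * hDq
      have h4 : V.valuation (D p / q) = V.valuation (2 * (D p / q)) := by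
        rw [map_mul, hv2, one_mul]
      rw [h4, h3]
      refine (V.valuation.map_sub _ _).trans (max_le ?_ ?_)
      · rw [map_mul, map_mul, hv2, one_mul]
        refine mul_le_one' ?_ (hDV q hq1)
        refine (V.valuation.map_sub _ _).trans (max_le ?_ hv2.le)
        rw [map_mul, map_pow]
        exact mul_le_one' hv3 (pow_le_one' hp 2)
      · rw [map_mul, map_mul, map_mul]
        exact mul_le_one' (mul_le_one' hv9 hp) (mul_le_one' hq1 (hDV p hp))
    · have hp0 : 0 < V.valuation p := lt_trans zero_lt_one hp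
      have hlt : V.valuation p < V.valuation (p ^ 3) := by
        rw [map_pow]
        calc V.valuation p = V.valuation p ^ 1 := (pow_one _).symm
          _ < V.valuation p ^ 3 := pow_lt_pow_right₀ hp (by norm_num)
      have hq2 : V.valuation q ^ 2 = V.valuation p ^ 3 := by
        rw [← map_pow, hpq, V.valuation.map_sub_eq_of_lt_left hlt, map_pow]
      have hqv : 1 < V.valuation q := by
        by_contra hcon
        push Not at hcon
        have h1 : V.valuation q ^ 2 ≤ 1 := pow_le_one' hcon 2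
        rw [hq2] at h1
        exact absurd h1 (not_le.2 (one_lt_pow₀ hp (by norm_num)))
      have hq0 : 0 < V.valuation q := lt_trans zero_lt_one hqv
      have hη : V.valuation (1 / q) < 1 := by
        rw [one_div, map_inv₀]
        exact inv_lt_one_of_one_lt₀ hqv
      have hξ : V.valuation (p / q) < 1 := by
        rw [map_div₀, div_lt_one₀ hq0]
        by_contra hcon
        push Not at hcon
        have h1 : V.valuation q ^ 2 ≤ V.valuation p ^ 2 := by gcongr
        rw [hq2] at h1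
        exact absurd h1 (not_le.2 (pow_lt_pow_right₀ hp (by norm_num)))
      have hDξ : V.valuation (D (p / q)) ≤ 1 := hDV _ hξ.le
      have hid : (D p / q) * (1 + 2 * (p / q) * (1 / q)) = -2 * D (p / q) := by
        have h1 : D (p / q) * q = D p - (p / q) * D q := by
          have h2 : D (p / q * q) = D p := by rw [div_mul_cancel₀ _ hq]
          rw [D.leibniz] at h2
          simp only [smul_eq_mul] at h2
          linear_combination h2
        have h2 : D (p / q) = (D p - (p / q) * D q) / q := by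
          rw [eq_div_iff hq, h1]
        rw [h2]
        have h3 : D q = (3 * p ^ 2 - 1) * D p / (2 * q) := by
          rw [eq_div_iff (mul_ne_zero two_ne_zero hq)]
          linear_combination hDq
        rw [h3]
        field_simp
        linear_combination (3 * D p) * hpq
      have hone : V.valuation (1 + 2 * (p / q) * (1 / q)) = 1 := by
        have h1 : V.valuation (2 * (p / q) * (1 / q)) < V.valuation (1 : M) := by
          rw [map_mul, map_mul, hv2, one_mul, map_one]
          exact mul_lt_one' hξ hη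
        rw [V.valuation.map_add_eq_of_lt_left h1, map_one]
      have h5 := congrArg V.valuation hid
      rw [map_mul, hone, mul_one, map_mul, Valuation.map_neg, hv2, one_mul] at h5
      rw [h5]
      exact hDξ
  -- conclusion
  have h1 : d.eval₂ iM x * (D p / q) = n.eval₂ iM x := by
    rw [mul_div_assoc', hg, mul_div_cancel_right₀ _ hq]
  have h2 := congrArg V.valuation h1
  rw [map_mul, (U_poly hy hV hx hyv hn0).2] at h2
  have h3 : V.valuation (d.eval₂ iM x) * V.valuation (D p / q) < 1 := by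
    calc _ ≤ V.valuation (d.eval₂ iM x) * 1 := by gcongr
      _ < 1 := by
        rw [mul_one]
        exact v_lt hV hx hx0
  exact absurd h2 h3.ne

end MP_d2f638_ag.Stab
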