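import Pool.Agent.Lib.MP_d2f638_ag.Stab.Stmts

/-!
# D2: reduction of the roots of a polynomial at a place
-/

namespace MP_d2f638_ag.Stab

open Polynomial

section

variable {L : Type} [Field L] {J : ℂ →+* L} (P : Place L J)

lemma Place.red_of_mem {x : L} (h : x ∈ P.O) : P.red x = P.φ ⟨x, h⟩ := by
  unfold Place.red
  rw [dif_pos h]

lemma Place.phi_inv_of_notMem {x : L} (h : x ∉ P.O) (h' : x⁻¹ ∈ P.O) : P.φ ⟨x⁻¹, h'⟩ = 0 := by
  by_contra hne
  have := P.inv ⟨x⁻¹, h'⟩ hne
  rw [inv_inv] at this
  exact h this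

open Classical in
lemma Place.exists_model (s : Multiset L) : ∃ (F : P.O[X]) (c : L), c ≠ 0 ∧
    (s.map (fun l => X - C l)).prod = C c * F.map P.O.subtype ∧
    F.map P.φ = (((s.filter (fun l => l ∈ P.O)).map P.red).map (fun l => X - C l)).prod := by
  induction s using Multiset.induction_on with
  | empty => exact ⟨1, 1, one_ne_zero, by simp, by simp⟩
  | cons a s ih =>
    obtain ⟨F, c, hc, h1, h2⟩ := ih
    by_cases ha : a ∈ P.O
    · refine ⟨(X - C ⟨a, ha⟩) * F, c, hc, ?_, ?_⟩
      · rw [Multiset.map_cons, Multiset.prod_cons, h1, Polynomial.map_mul, Polynomial.map_sub,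
          map_X, map_C]
        simp only [Subring.subtype_apply]
        ring
      · rw [Multiset.filter_cons_of_pos _ ha, Multiset.map_cons, Multiset.map_cons,
          Multiset.prod_cons, Polynomial.map_mul, Polynomial.map_sub, map_X, map_C, h2,
          P.red_of_mem ha]
    · have ha0 : a ≠ 0 := fun h => ha (h ▸ P.O.zero_mem)
      have ha' : a⁻¹ ∈ P.O := (P.val a).resolve_left ha
      refine ⟨(1 - C ⟨a⁻¹, ha'⟩ * X) * F, -a * c, mul_ne_zero (neg_ne_zero.2 ha0) hc, ?_, ?_⟩
      · rw [Multiset.map_cons, Multiset.prod_cons, h1, Polynomial.map_mul, Polynomial.map_sub,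
          Polynomial.map_one, Polynomial.map_mul, map_X, map_C]
        simp only [Subring.subtype_apply]
        have e : (X : L[X]) - C a = C (-a) * (1 - C a⁻¹ * X) := by
          have e1 : (C a : L[X]) * C a⁻¹ = 1 := by rw [← C_mul, mul_inv_cancel₀ ha0, C_1]
          rw [C_neg]
          linear_combination (-(X : L[X])) * e1
        rw [e, C_mul]
        ring
      · rw [Multiset.filter_cons_of_neg _ ha, Polynomial.map_mul, Polynomial.map_sub,
          Polynomial.map_one, Polynomial.map_mul, map_X, map_C, h2,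
          P.phi_inv_of_notMem ha ha', C_0, zero_mul, sub_zero, one_mul]

end

theorem roots : stRoots := by
  intro L _ _ J P f g hf hfg hg
  classical
  have hf0 : f ≠ 0 := by
    rintro rfl
    apply hg
    ext n
    rw [← hfg n, coeff_zero, P.red_of_mem P.O.zero_mem, coeff_zero]
    exact P.φ.map_zero
  have hsplit : f = C f.leadingCoeff * (f.roots.map (fun l => X - C l)).prod :=
    (IsAlgClosed.splits f).eq_prod_roots
  obtain ⟨F, c, hc, h1, h2⟩ := P.exists_model f.roots
  set d : L := f.leadingCoeff * c with hd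
  have hd0 : d ≠ 0 := mul_ne_zero (leadingCoeff_ne_zero.2 hf0) hc
  have hfd : f = C d * F.map P.O.subtype := by
    rw [hd, C_mul, mul_assoc, ← h1]
    exact hsplit
  -- a unit coefficient of `F`
  set T : Multiset ℂ := (f.roots.filter (fun l => l ∈ P.O)).map P.red with hT
  have hmon : (F.map P.φ).Monic := by
    rw [h2]
    exact monic_multiset_prod_of_monic _ _ (fun l _ => monic_X_sub_C l)
  set n := (F.map P.φ).natDegree with hn
  have hu : P.φ (F.coeff n) = 1 := by
    rw [← coeff_map]
    exact hmon.coeff_natDegree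
  have hinv : ((F.coeff n : P.O) : L)⁻¹ ∈ P.O := P.inv _ (by rw [hu]; exact one_ne_zero)
  have hne : ((F.coeff n : P.O) : L) ≠ 0 := by
    intro h
    have h' : F.coeff n = 0 := Subtype.ext h
    rw [h', map_zero] at hu
    exact zero_ne_one hu
  have hdO : d ∈ P.O := by
    have h3 : f.coeff n = d * (F.coeff n : L) := by
      conv_lhs => rw [hfd]
      rw [coeff_C_mul, coeff_map]
      rfl
    have h4 : d = f.coeff n * ((F.coeff n : P.O) : L)⁻¹ := by
      rw [h3, mul_inv_cancel_right₀ hne]
    rw [h4]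
    exact P.O.mul_mem (hf n) hinv
  have hgF : g = C (P.φ ⟨d, hdO⟩) * F.map P.φ := by
    ext m
    rw [← hfg m, P.red_of_mem (hf m), coeff_C_mul, coeff_map, ← map_mul]
    congr 1
    apply Subtype.ext
    show f.coeff m = _
    conv_lhs => rw [hfd]
    rw [coeff_C_mul, coeff_map]
    rfl
  have hd1 : P.φ ⟨d, hdO⟩ ≠ 0 := by
    intro h
    rw [h, C_0, zero_mul] at hgF
    exact hg hgF
  rw [hgF, roots_C_mul _ hd1, h2, roots_multiset_prod_X_sub_C]

end MP_d2f638_ag.Stab
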