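import Mathlib
import Pool.Agent.Lib.MP_d2f638_ag.Stab.Base
import Pool.Agent.Lib.MP_d2f638_ag.Stab.Stmts
import Pool.Agent.Lib.MP_d2f638_ag.Stab.Mult

/-!
# M2, M3, M4: degrees and multiplicities of the intersections with sections and lines
-/

namespace MP_d2f638_ag.Stab

open Polynomial

namespace SecAux

open MultAux

variable {k L : Type} [Field k] [Field L]

lemma fin3 (j : Fin 3) : j = 0 ∨ j = 1 ∨ j = 2 := by
  fin_cases j
  · exact Or.inl rfl
  · exact Or.inr (Or.inl rfl)
  · exact Or.inr (Or.inr rfl)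

lemma AI_comp {i : k →+* L} {n m : ℕ} {v : Fin n → L} (h : AI i v) (f : Fin m → Fin n)
    (hf : Function.Injective f) : AI i (v ∘ f) := by
  intro p hp h0
  refine h (MvPolynomial.rename f p) ?_ ?_
  · intro h1
    exact hp ((MvPolynomial.rename_injective f hf) (by rw [h1, map_zero]))
  · rw [MvPolynomial.eval₂_rename]; exact h0

lemma AI_trans {i : k →+* L} {n : ℕ} {v : Fin n → L} (h : AI i v) (j : Fin n) :
    Trans i (v j) := by
  intro p hp h0
  refine h (Polynomial.eval₂ MvPolynomial.C (MvPolynomial.X j) p) ?_ ?_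
  · intro h1
    have h2 := congrArg (MvPolynomial.eval₂Hom (C : k →+* k[X]) (fun _ => X)) h1
    rw [Polynomial.hom_eval₂, map_zero] at h2
    have h3 : (MvPolynomial.eval₂Hom (C : k →+* k[X]) (fun _ : Fin n => (X : k[X]))).comp
        MvPolynomial.C = C := by
      ext c; simp
    rw [h3] at h2
    simp only [MvPolynomial.coe_eval₂Hom, MvPolynomial.eval₂_X] at h2
    rw [Polynomial.eval₂_C_X] at h2
    exact hp h2
  · have := Polynomial.hom_eval₂ p (MvPolynomial.C) (MvPolynomial.eval₂Hom i v)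
      (MvPolynomial.X j)
    have h3 : (MvPolynomial.eval₂Hom i v).comp MvPolynomial.C = i := by
      ext c; simp
    rw [h3] at this
    simp only [MvPolynomial.coe_eval₂Hom, MvPolynomial.eval₂_X] at this
    rw [this]; exact h0

section facts

variable (hS : stSnoc) {i : k →+* L}

include hS

lemma two_facts {x y : L} (h : AI i ![x, y]) : y ∉ clF i {x} := by
  have e : (![x, y] : Fin 2 → L) = Fin.snoc ![x] y := by
    funext j; fin_cases j <;> rfl
  rw [e] at h
  have := ((hS k L i 1 ![x] y).mp h).2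
  simpa using this

lemma three_facts {x y z : L} (h : AI i ![x, y, z]) : z ∉ clF i {x, y} := by
  have e : (![x, y, z] : Fin 3 → L) = Fin.snoc ![x, y] z := by
    funext j; fin_cases j <;> rfl
  rw [e] at h
  have := ((hS k L i 2 ![x, y] z).mp h).2
  have e2 : Set.range (![x, y] : Fin 2 → L) = {x, y} := by
    simp [Matrix.range_cons, Set.pair_comm]
  rwa [e2] at this

lemma AI_two {x y : L} (hx : x ∉ clF i ∅) (hy : y ∉ clF i {x}) : AI i ![x, y] := by
  have e : (![x, y] : Fin 2 → L) = Fin.snoc ![x] y := by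
    funext j; fin_cases j <;> rfl
  rw [e]
  refine (hS k L i 1 ![x] y).mpr ⟨?_, by simpa using hy⟩
  have e : (![x] : Fin 1 → L) = Fin.snoc ![] x := by
    funext j; fin_cases j; rfl
  rw [e]
  refine (hS k L i 0 ![] x).mpr ⟨?_, by simpa using hx⟩
  intro p hp h0
  obtain ⟨c, rfl⟩ := MvPolynomial.C_surjective (Fin 0) p
  rw [MvPolynomial.eval₂_C] at h0
  apply hp
  rw [(map_eq_zero i).mp h0, map_zero]

end facts

lemma clF_mono {i : k →+* L} {S T : Set L} (h : S ⊆ clF i T) {y : L} (hy : y ∈ clF i S) :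
    y ∈ clF i T := by
  rw [mem_clF] at hy
  obtain ⟨p, hp, hpy⟩ := hy
  have hle : Subfield.closure (Set.range i ∪ S) ≤ clF i T := by
    rw [Subfield.closure_le]
    rintro u (⟨c, rfl⟩ | hu)
    · exact clF_base c
    · exact h hu
  refine mem_clF_of_root (p.map (Subfield.subtype _)) ?_ ?_ ?_
  · rw [Ne, Polynomial.map_eq_zero]; exact hp
  · intro n
    rw [Polynomial.coeff_map]
    exact hle (p.coeff n).2
  · rw [Polynomial.aeval_def, Polynomial.eval₂_eq_eval_map] at hpy
    exact hpy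

/-- slope of the section -/
noncomputable def sl (r ρ r' ρ' : L) : L := (ρ - ρ') / (r - r')

section sec

variable [CharZero k] {i : k →+* L} {a b : k} {r ρ r' ρ' μ : L}
  (hb : b ^ 2 = a ^ 2 - 1) (ha : a ^ 2 ≠ 0) (ha4 : a ^ 4 ≠ 1)
  (hS : stSnoc)

include hb ha ha4 hS

/-- the slope of a section through two independent points is not algebraic over one of them -/
lemma slope_notMem (h : AI i ![r, r']) (e1 : Ff (i a) (i b) r ρ = 0)
    (e2 : Ff (i a) (i b) r' ρ' = 0) : sl r ρ r' ρ' ∉ clF i {r} := by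
  intro hw
  have hr' := two_facts hS h
  have htr : Trans i r := AI_trans h 0
  have hrr : r - r' ≠ 0 := by
    intro h0
    apply hr'
    rw [← sub_eq_zero.mp h0]
    exact clF_gen (by simp)
  have hrm : r ∈ clF i {r} := clF_gen (by simp)
  have hρm : ρ ∈ clF i {r} := rho_mem hb ha ha4 htr e1 hrm
  set w1 := sl r ρ r' ρ' with hw1
  have hρ' : ρ' = (ρ - w1 * r) + w1 * r' := by
    have : w1 * (r - r') = ρ - ρ' := div_mul_cancel₀ _ hrr
    linear_combination this
  set K0 := clF i {r} with hK0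
  let a' : K0 := ⟨i a, clF_base a⟩
  let b' : K0 := ⟨i b, clF_base b⟩
  let A0 : K0 := ⟨ρ - w1 * r, Subfield.sub_mem _ hρm (Subfield.mul_mem _ hw hrm)⟩
  let A1 : K0 := ⟨w1, hw⟩
  let P' : Polynomial K0 := Qf (C a') (C b') X * (C A0 + C A1 * X) ^ 2 + Rf (C a') (C b') X
  have hmap : P'.map K0.subtype = Qf (C (i a)) (C (i b)) X * (C (ρ - w1 * r) + C w1 * X) ^ 2 +
      Rf (C (i a)) (C (i b)) X := by
    have h1 := map_Qf (Polynomial.mapRingHom K0.subtype) (C a') (C b') X
    have h2 := map_Rf (Polynomial.mapRingHom K0.subtype) (C a') (C b') X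
    simp only [Polynomial.coe_mapRingHom, Polynomial.map_C, Polynomial.map_X] at h1 h2
    simp only [P', Polynomial.map_add, Polynomial.map_mul, Polynomial.map_pow, h1, h2,
      Polynomial.map_C, Polynomial.map_X]
    rfl
  apply hr'
  refine mem_clF_of_root (P'.map K0.subtype) ?_ (fun n => ?_) ?_
  · intro h0
    rw [hmap] at h0
    have h3 := congrArg (Polynomial.eval (-(i a))) h0
    have h4 := map_Qf (Polynomial.evalRingHom (-(i a))) (C (i a)) (C (i b)) X
    have h5 := map_Rf (Polynomial.evalRingHom (-(i a))) (C (i a)) (C (i b)) X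
    simp only [Polynomial.coe_evalRingHom, Polynomial.eval_C, Polynomial.eval_X] at h4 h5
    rw [Polynomial.eval_add, Polynomial.eval_mul, h4, h5] at h3
    have h6 : Qf (i a) (i b) (-(i a)) = 0 := by unfold Qf; ring
    rw [h6, zero_mul, zero_add, Polynomial.eval_zero] at h3
    have h7 := map_Rf i a b (-a)
    rw [map_neg, h3] at h7
    exact Rf_at_a hb ha ha4 ((map_eq_zero i).mp h7)
  · rw [Polynomial.coeff_map]; exact (P'.coeff n).2
  · rw [hmap]
    have h4 := map_Qf (Polynomial.evalRingHom r') (C (i a)) (C (i b)) X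
    have h5 := map_Rf (Polynomial.evalRingHom r') (C (i a)) (C (i b)) X
    simp only [Polynomial.coe_evalRingHom, Polynomial.eval_C, Polynomial.eval_X] at h4 h5
    rw [Polynomial.eval_add, Polynomial.eval_mul, h4, h5]
    simp only [Polynomial.eval_pow, Polynomial.eval_add, Polynomial.eval_C, Polynomial.eval_mul,
      Polynomial.eval_X]
    rw [← hρ']
    exact e2

omit [CharZero k] hb ha ha4 in
/-- the consequences of the hypotheses on sections -/
lemma sec_facts (h : SecH i a b r ρ r' ρ' μ) :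
    AI i ![r, r'] ∧ Trans i r ∧ Trans i r' ∧ r - r' ≠ 0 ∧ μ ∉ clF i {r, r'} := by
  obtain ⟨e1, e2, h3⟩ := h
  have h2 : AI i ![r, r'] := by
    have := AI_comp h3 ![0, 1] (by decide)
    have e : (![r, r', μ] : Fin 3 → L) ∘ (![0, 1] : Fin 2 → Fin 3) = ![r, r'] := by
      funext j; fin_cases j <;> rfl
    rwa [e] at this
  refine ⟨h2, AI_trans h2 0, AI_trans h2 1, ?_, three_facts hS h3⟩
  intro h0
  apply two_facts hS h2
  rw [← sub_eq_zero.mp h0]
  exact clF_gen (by simp)

/-- slope and `μ` are independent -/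
lemma sec_ind (h : SecH i a b r ρ r' ρ' μ) : AI i ![sl r ρ r' ρ', μ] := by
  obtain ⟨h2, ht1, ht2, hrr, hμ⟩ := sec_facts hS h
  refine AI_two hS ?_ ?_
  · intro h0
    exact slope_notMem hb ha ha4 hS h2 h.eq1 h.eq2 (clF_mono (by simp) h0)
  · intro h0
    apply hμ
    refine clF_mono ?_ h0
    rintro u rfl
    have hr1 : r ∈ clF i {r, r'} := clF_gen (by simp)
    have hr2 : r' ∈ clF i {r, r'} := clF_gen (by simp)
    exact Subfield.div_mem _ (Subfield.sub_mem _ (rho_mem hb ha ha4 ht1 h.eq1 hr1)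
      (rho_mem hb ha ha4 ht2 h.eq2 hr2)) (Subfield.sub_mem _ hr1 hr2)

end sec

section deg

variable (i : k →+* L) (π : MvPolynomial (Fin 3) k)

/-- weight -/
def wt (e : Fin 3 →₀ ℕ) : ℕ := e 0 + e 1 + 2 * e 2

lemma wt_eq (e : Fin 3 →₀ ℕ) : Finsupp.weight ![1, 1, 2] e = wt e := by
  rw [Finsupp.weight_apply, Finsupp.sum_fintype _ _ (by simp)]
  simp [Fin.sum_univ_three, wt, mul_comm]

lemma wt_le {e : Fin 3 →₀ ℕ} (he : e ∈ π.support) : wt e ≤ wdeg π := by
  rw [← wt_eq]
  exact MvPolynomial.le_weightedTotalDegree ![1, 1, 2] he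

lemma wt_attained (hπ : π ≠ 0) : ∃ e ∈ π.support, wt e = wdeg π := by
  have hne : π.support.Nonempty := MvPolynomial.support_nonempty.mpr hπ
  obtain ⟨e, he, h⟩ := Finset.exists_mem_eq_sup π.support hne (fun s => Finsupp.weight ![1, 1, 2] s)
  refine ⟨e, he, ?_⟩
  rw [← wt_eq]
  exact h.symm

/-- the exponents of `w`, `z` -/
noncomputable def ex2 (e : Fin 3 →₀ ℕ) : Fin 2 →₀ ℕ :=
  Finsupp.equivFunOnFinite.symm ![e 1, e 2]

lemma ex2_0 (e : Fin 3 →₀ ℕ) : ex2 e 0 = e 1 := rfl
lemma ex2_1 (e : Fin 3 →₀ ℕ) : ex2 e 1 = e 2 := rfl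

/-- the leading form -/
noncomputable def topP : MvPolynomial (Fin 2) k :=
  ∑ e ∈ π.support.filter (fun e => wt e = wdeg π), MvPolynomial.monomial (ex2 e) (π.coeff e)

lemma topP_ne (hπ : π ≠ 0) : topP π ≠ 0 := by
  obtain ⟨e0, he0, hw0⟩ := wt_attained π hπ
  intro h0
  have h1 := congrArg (MvPolynomial.coeff (ex2 e0)) h0
  rw [topP, MvPolynomial.coeff_sum, MvPolynomial.coeff_zero] at h1
  rw [Finset.sum_eq_single e0] at h1
  · rw [MvPolynomial.coeff_monomial, if_pos rfl] at h1
    exact (MvPolynomial.mem_support_iff.mp he0) h1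
  · intro e he hne
    rw [MvPolynomial.coeff_monomial, if_neg]
    intro h2
    apply hne
    have hwe := (Finset.mem_filter.mp he).2
    have h3 := congrArg (fun f => f 0) h2
    have h4 := congrArg (fun f => f 1) h2
    simp only [ex2_0, ex2_1] at h3 h4
    unfold wt at hwe hw0
    ext j
    rcases fin3 j with rfl | rfl | rfl
    · omega
    · exact h3
    · exact h4
  · intro h2
    exact absurd (Finset.mem_filter.mpr ⟨he0, hw0⟩) h2

lemma eval_topP (x y : L) : MvPolynomial.eval₂ i ![x, y] (topP π) =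
    ∑ e ∈ π.support.filter (fun e => wt e = wdeg π), i (π.coeff e) * x ^ (e 1) * y ^ (e 2) := by
  rw [topP, MvPolynomial.eval₂_sum]
  refine Finset.sum_congr rfl fun e _ => ?_
  rw [MvPolynomial.eval₂_monomial, Finsupp.prod_fintype _ _ (by simp), Fin.prod_univ_two]
  simp only [Matrix.cons_val_zero, Matrix.cons_val_one, ex2_0, ex2_1]
  ring

lemma coeff_prod3 {P Q R : L[X]} {l m n : ℕ} (hP : P.natDegree ≤ l) (hQ : Q.natDegree ≤ m)
    (hR : R.natDegree ≤ n) (c : L) (u v w : ℕ) :
    (C c * P ^ u * Q ^ v * R ^ w).natDegree ≤ u * l + v * m + w * n ∧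
    (C c * P ^ u * Q ^ v * R ^ w).coeff (u * l + v * m + w * n) =
      c * P.coeff l ^ u * Q.coeff m ^ v * R.coeff n ^ w := by
  have h1 : (P ^ u).natDegree ≤ u * l := Polynomial.natDegree_pow_le_of_le u hP
  have h2 : (Q ^ v).natDegree ≤ v * m := Polynomial.natDegree_pow_le_of_le v hQ
  have h3 : (R ^ w).natDegree ≤ w * n := Polynomial.natDegree_pow_le_of_le w hR
  have h4 : (C c * P ^ u).natDegree ≤ u * l := (Polynomial.natDegree_C_mul_le _ _).trans h1
  have h5 : (C c * P ^ u * Q ^ v).natDegree ≤ u * l + v * m :=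
    Polynomial.natDegree_mul_le_of_le h4 h2
  refine ⟨Polynomial.natDegree_mul_le_of_le h5 h3, ?_⟩
  rw [Polynomial.coeff_mul_add_eq_of_natDegree_le h5 h3,
    Polynomial.coeff_mul_add_eq_of_natDegree_le h4 h2, Polynomial.coeff_C_mul,
    Polynomial.coeff_pow_of_natDegree_le hP, Polynomial.coeff_pow_of_natDegree_le hQ,
    Polynomial.coeff_pow_of_natDegree_le hR]

/-- the degree of the restriction to a general section -/
lemma natDegree_subsPar (hπ : π ≠ 0) {W Z : L[X]} (hW : W.natDegree ≤ 1) (hZ : Z.natDegree ≤ 2)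
    (hAI : AI i ![W.coeff 1, Z.coeff 2]) :
    (subsPar i π ⟨X, W, Z, 1⟩).natDegree = wdeg π := by
  have hX : (X : L[X]).natDegree ≤ 1 := Polynomial.natDegree_X_le
  have hterm : ∀ e ∈ π.support,
      (C (i (π.coeff e)) * X ^ (e 0) * W ^ (e 1) * Z ^ (e 2)).natDegree ≤ wdeg π ∧
      (C (i (π.coeff e)) * X ^ (e 0) * W ^ (e 1) * Z ^ (e 2)).coeff (wdeg π) =
        if wt e = wdeg π then i (π.coeff e) * W.coeff 1 ^ (e 1) * Z.coeff 2 ^ (e 2) else 0 := by
    intro e he
    obtain ⟨h1, h2⟩ := coeff_prod3 hX hW hZ (i (π.coeff e)) (e 0) (e 1) (e 2)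
    have h3 : e 0 * 1 + e 1 * 1 + e 2 * 2 = wt e := by unfold wt; omega
    rw [h3] at h1 h2
    refine ⟨h1.trans (wt_le π he), ?_⟩
    split_ifs with h
    · rw [← h, h2]; simp
    · exact Polynomial.coeff_eq_zero_of_natDegree_lt
        (lt_of_le_of_lt h1 (lt_of_le_of_ne (wt_le π he) h))
  have hsub : subsPar i π ⟨X, W, Z, 1⟩ =
      ∑ e ∈ π.support, C (i (π.coeff e)) * X ^ (e 0) * W ^ (e 1) * Z ^ (e 2) := by
    unfold subsPar
    refine Finset.sum_congr rfl fun e _ => ?_
    simp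
  apply le_antisymm
  · rw [hsub]
    exact Polynomial.natDegree_sum_le_of_forall_le _ _ (fun e he => (hterm e he).1)
  · apply Polynomial.le_natDegree_of_ne_zero
    rw [hsub, Polynomial.finsetSum_coeff, Finset.sum_congr rfl (fun e he => (hterm e he).2),
      ← Finset.sum_filter, ← eval_topP]
    exact hAI _ (topP_ne π hπ)

end deg

section curve

variable (r ρ r' ρ' μ : L)

lemma secW_coeff : (secP r ρ r' ρ' μ).W.coeff 1 = sl r ρ r' ρ' := by
  have h : (secP r ρ r' ρ' μ).W = C (ρ / (r - r')) * (X - C r') + C (ρ' / (r' - r)) * (X - C r) :=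
    rfl
  rw [h]
  simp only [Polynomial.coeff_add, Polynomial.coeff_C_mul, Polynomial.coeff_sub,
    Polynomial.coeff_X_one, Polynomial.coeff_C_succ, sub_zero, mul_one]
  have : r' - r = -(r - r') := by ring
  rw [this, div_neg, sl]
  ring

lemma secW_deg : (secP r ρ r' ρ' μ).W.natDegree ≤ 1 := by
  have h : (secP r ρ r' ρ' μ).W = C (ρ / (r - r')) * (X - C r') + C (ρ' / (r' - r)) * (X - C r) :=
    rfl
  rw [h]
  refine Polynomial.natDegree_add_le_of_degree_le ?_ ?_
  · exact (Polynomial.natDegree_C_mul_le _ _).trans (Polynomial.natDegree_X_sub_C_le _)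
  · exact (Polynomial.natDegree_C_mul_le _ _).trans (Polynomial.natDegree_X_sub_C_le _)

lemma secZ_eq : (secP r ρ r' ρ' μ).Z = C μ * X ^ 2 + C (-(μ * (r + r'))) * X + C (μ * r * r') := by
  have h : (secP r ρ r' ρ' μ).Z = C μ * (X - C r) * (X - C r') := rfl
  rw [h]
  simp only [Polynomial.C_neg, Polynomial.C_mul, Polynomial.C_add]
  ring

lemma secZ_coeff : (secP r ρ r' ρ' μ).Z.coeff 2 = μ := by
  rw [secZ_eq]; simp

lemma secZ_deg : (secP r ρ r' ρ' μ).Z.natDegree ≤ 2 := by
  rw [secZ_eq]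
  exact Polynomial.natDegree_quadratic_le

lemma sec_symm : secP r' ρ' r ρ μ = secP r ρ r' ρ' μ := by
  unfold secP
  congr 1
  · ring
  · ring

/-- the derivative of the restriction of `F` -/
lemma deriv_F (a b : L) (W : L[X]) :
    (Ff (C a) (C b) X W).derivative.eval r =
      ((r + b) + (r + a)) * W.eval r ^ 2 + ((r - b) * (r ^ 2 - a ^ 2 - 1) +
        (r - a) * (r ^ 2 - a ^ 2 - 1) + (r - a) * (r - b) * (2 * r)) +
      2 * Qf a b r * W.eval r * W.derivative.eval r := by
  unfold Ff Qf Rf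
  simp only [Polynomial.derivative_add, Polynomial.derivative_mul, Polynomial.derivative_sub,
    Polynomial.derivative_X, Polynomial.derivative_C, Polynomial.derivative_pow,
    Polynomial.derivative_one, Polynomial.eval_add, Polynomial.eval_mul, Polynomial.eval_sub,
    Polynomial.eval_X, Polynomial.eval_C, Polynomial.eval_pow, Polynomial.eval_one,
    Polynomial.eval_zero]
  push_cast
  ring

end curve

section mult

variable [CharZero k] {i : k →+* L} {a b : k} {r ρ r' ρ' μ : L}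
  (hb : b ^ 2 = a ^ 2 - 1) (ha : a ^ 2 ≠ 0) (ha4 : a ^ 4 ≠ 1)
  (hS : stSnoc)

include hb ha ha4 hS

lemma secMult1 {π : MvPolynomial (Fin 3) k} {m0 : ℕ} (hm : IsMult a b π m0)
    (h : SecH i a b r ρ r' ρ' μ) :
    (subsPar i π (secP r ρ r' ρ' μ)).rootMultiplicity r = m0 := by
  obtain ⟨h2, ht1, ht2, hrr, hμ⟩ := sec_facts hS h
  have h2i : (2 : L) ≠ 0 := by
    have := (map_ne_zero i).mpr (two_ne_zero (α := k))
    rwa [map_ofNat] at this
  set G := secP r ρ r' ρ' μ with hG
  have hT : G.T = X := rfl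
  have hTe : G.T.eval r = r := by rw [hT]; simp
  have hWe : G.W.eval r = ρ := by
    have : G.W = C (ρ / (r - r')) * (X - C r') + C (ρ' / (r' - r)) * (X - C r) := rfl
    rw [this]
    simp [div_mul_cancel₀ _ hrr]
  have hWd : G.W.derivative.eval r = sl r ρ r' ρ' := by
    have : G.W = C (ρ / (r - r')) * (X - C r') + C (ρ' / (r' - r)) * (X - C r) := rfl
    rw [this]
    simp only [Polynomial.derivative_add, Polynomial.derivative_mul, Polynomial.derivative_sub,
      Polynomial.derivative_X, Polynomial.derivative_C, Polynomial.eval_add, Polynomial.eval_mul,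
      Polynomial.eval_sub, Polynomial.eval_X, Polynomial.eval_C, Polynomial.eval_one,
      Polynomial.eval_zero]
    have : r' - r = -(r - r') := by ring
    rw [this, div_neg, sl]
    ring
  have hZe : G.Z.eval r = 0 := by
    have : G.Z = C μ * (X - C r) * (X - C r') := rfl
    rw [this]; simp
  have hZd : G.Z.derivative.eval r = μ * (r - r') := by
    have : G.Z = C μ * (X - C r) * (X - C r') := rfl
    rw [this]
    simp only [Polynomial.derivative_mul, Polynomial.derivative_sub,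
      Polynomial.derivative_X, Polynomial.derivative_C, Polynomial.eval_add, Polynomial.eval_mul,
      Polynomial.eval_sub, Polynomial.eval_X, Polynomial.eval_C, Polynomial.eval_one,
      Polynomial.eval_zero]
    ring
  have hFd : (Ff (C (i a)) (C (i b)) G.T G.W).derivative.eval r =
      ((r + i b) + (r + i a)) * ρ ^ 2 + ((r - i b) * (r ^ 2 - i a ^ 2 - 1) +
        (r - i a) * (r ^ 2 - i a ^ 2 - 1) + (r - i a) * (r - i b) * (2 * r)) +
      2 * Qf (i a) (i b) r * ρ * sl r ρ r' ρ' := by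
    rw [hT, deriv_F, hWe, hWd]
  have hQ := Q_ne (a := a) (b := b) ht1
  have hR := R_ne hb ha ha4 ht1
  have hρ0 : ρ ≠ 0 := by
    intro h0
    have := h.eq1
    rw [h0] at this
    apply hR
    unfold Ff at this
    linear_combination this
  -- memberships
  have key : ∀ T : Set L, r ∈ clF i T →
      (((r + i b) + (r + i a)) * ρ ^ 2 + ((r - i b) * (r ^ 2 - i a ^ 2 - 1) +
        (r - i a) * (r ^ 2 - i a ^ 2 - 1) + (r - i a) * (r - i b) * (2 * r)) ∈ clF i T) ∧
      2 * Qf (i a) (i b) r * ρ ∈ clF i T := by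
    intro T hr
    have hia : i a ∈ clF i T := clF_base a
    have hib : i b ∈ clF i T := clF_base b
    have hρ := rho_mem hb ha ha4 ht1 h.eq1 hr
    have h22 : (2 : L) ∈ clF i T := by
      have := clF_base (i := i) (T := T) 2
      rwa [map_ofNat] at this
    have hq : r ^ 2 - i a ^ 2 - 1 ∈ clF i T := Subfield.sub_mem _
      (Subfield.sub_mem _ (Subfield.pow_mem _ hr 2) (Subfield.pow_mem _ hia 2))
      (Subfield.one_mem _)
    refine ⟨?_, ?_⟩
    · refine Subfield.add_mem _ (Subfield.mul_mem _ (Subfield.add_mem _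
        (Subfield.add_mem _ hr hib) (Subfield.add_mem _ hr hia)) (Subfield.pow_mem _ hρ 2)) ?_
      refine Subfield.add_mem _ (Subfield.add_mem _ ?_ ?_) ?_
      · exact Subfield.mul_mem _ (Subfield.sub_mem _ hr hib) hq
      · exact Subfield.mul_mem _ (Subfield.sub_mem _ hr hia) hq
      · exact Subfield.mul_mem _ (Subfield.mul_mem _ (Subfield.sub_mem _ hr hia)
          (Subfield.sub_mem _ hr hib)) (Subfield.mul_mem _ h22 hr)
    · exact Subfield.mul_mem _ (Subfield.mul_mem _ h22 (Subfield.mul_mem _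
        (Subfield.add_mem _ hr hia) (Subfield.add_mem _ hr hib))) hρ
  have hβ : 2 * Qf (i a) (i b) r * ρ ≠ 0 := mul_ne_zero (mul_ne_zero h2i hQ) hρ0
  have hF0 : Ff (i a) (i b) (G.T.eval r) (G.W.eval r) = 0 := by
    rw [hTe, hWe]; exact h.eq1
  have ht : Trans i (G.T.eval r) := by rw [hTe]; exact ht1
  refine hm.exact L i G r rfl hZe hF0 ht ?_ ?_
  · rw [hFd]
    intro h0
    obtain ⟨k1, k2⟩ := key {r} (clF_gen (by simp))
    apply slope_notMem hb ha ha4 hS h2 h.eq1 h.eq2
    have : sl r ρ r' ρ' = -(((r + i b) + (r + i a)) * ρ ^ 2 + ((r - i b) * (r ^ 2 - i a ^ 2 - 1) +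
        (r - i a) * (r ^ 2 - i a ^ 2 - 1) + (r - i a) * (r - i b) * (2 * r))) /
        (2 * Qf (i a) (i b) r * ρ) := by
      rw [eq_div_iff hβ]
      linear_combination h0
    rw [this]
    exact Subfield.div_mem _ (Subfield.neg_mem _ k1) k2
  · intro c hc h0
    rw [hTe] at hc
    rw [hFd, hZd] at h0
    have hr1 : r ∈ clF i {r, r'} := clF_gen (by simp)
    have hr2 : r' ∈ clF i {r, r'} := clF_gen (by simp)
    obtain ⟨k1, k2⟩ := key {r, r'} hr1
    apply hμ
    have hc' : c ∈ clF i {r, r'} := clF_mono (by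
      rintro u rfl
      exact hr1) hc
    have hsl : sl r ρ r' ρ' ∈ clF i {r, r'} :=
      Subfield.div_mem _ (Subfield.sub_mem _ (rho_mem hb ha ha4 ht1 h.eq1 hr1)
        (rho_mem hb ha ha4 ht2 h.eq2 hr2)) (Subfield.sub_mem _ hr1 hr2)
    rw [← eq_div_iff hrr] at h0
    rw [h0]
    exact Subfield.div_mem _ (Subfield.mul_mem _ hc' (Subfield.add_mem _ k1
      (Subfield.mul_mem _ k2 hsl))) (Subfield.sub_mem _ hr1 hr2)

omit [CharZero k] hb ha ha4 hS in
lemma SecH_symm (h : SecH i a b r ρ r' ρ' μ) : SecH i a b r' ρ' r ρ μ := by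
  refine ⟨h.eq2, h.eq1, ?_⟩
  have := AI_comp h.ind ![1, 0, 2] (by decide)
  have e : (![r, r', μ] : Fin 3 → L) ∘ (![1, 0, 2] : Fin 3 → Fin 3) = ![r', r, μ] := by
    funext j; fin_cases j <;> rfl
  rwa [e] at this

lemma lineMult1 {π : MvPolynomial (Fin 3) k} {m0 : ℕ} (hm : IsMult a b π m0) {x κ : L}
    (h1 : Ff (i a) (i b) x ρ = 0) (h : AI i ![x, κ]) :
    (subsPar i π (lineP x ρ κ)).rootMultiplicity ρ = m0 := by
  have h2i : (2 : L) ≠ 0 := by
    have := (map_ne_zero i).mpr (two_ne_zero (α := k))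
    rwa [map_ofNat] at this
  have hκ := two_facts hS h
  have ht : Trans i x := AI_trans h 0
  have hQ := Q_ne (a := a) (b := b) ht
  have hR := R_ne hb ha ha4 ht
  have hρ0 : ρ ≠ 0 := by
    intro h0
    rw [h0] at h1
    apply hR
    unfold Ff at h1
    linear_combination h1
  set G := lineP x ρ κ with hG
  have hT : G.T = C x := rfl
  have hW : G.W = X := rfl
  have hZ : G.Z = C κ * (X - C ρ) := rfl
  have hTe : G.T.eval ρ = x := by rw [hT]; simp
  have hWe : G.W.eval ρ = ρ := by rw [hW]; simp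
  have hZe : G.Z.eval ρ = 0 := by rw [hZ]; simp
  have hZd : G.Z.derivative.eval ρ = κ := by rw [hZ]; simp
  have hFd : (Ff (C (i a)) (C (i b)) G.T G.W).derivative.eval ρ =
      2 * Qf (i a) (i b) x * ρ := by
    have e1 := map_Qf (C : L →+* L[X]) (i a) (i b) x
    have e2 := map_Rf (C : L →+* L[X]) (i a) (i b) x
    rw [hT, hW, Ff, ← e1, ← e2]
    simp
    ring
  have hβ : 2 * Qf (i a) (i b) x * ρ ≠ 0 := mul_ne_zero (mul_ne_zero h2i hQ) hρ0
  refine hm.exact L i G ρ rfl hZe (by rw [hTe, hWe]; exact h1) (by rw [hTe]; exact ht) ?_ ?_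
  · rw [hFd]; exact hβ
  · intro c hc h0
    rw [hTe] at hc
    rw [hFd, hZd] at h0
    apply hκ
    rw [h0]
    have hx : x ∈ clF i {x} := clF_gen (by simp)
    have h22 : (2 : L) ∈ clF i {x} := by
      have := clF_base (i := i) (T := {x}) 2
      rwa [map_ofNat] at this
    exact Subfield.mul_mem _ hc (Subfield.mul_mem _ (Subfield.mul_mem _ h22 (Subfield.mul_mem _
      (Subfield.add_mem _ hx (clF_base a)) (Subfield.add_mem _ hx (clF_base b))))
      (rho_mem hb ha ha4 ht h1 hx))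

end mult

end SecAux

open SecAux in
/-- M2. -/
theorem secDeg (hS : stSnoc) : stSecDeg := by
  intro k L _ _ _ _ i a b π r ρ r' ρ' μ hb ha ha4 hπ h
  have h1 := natDegree_subsPar i π hπ (secW_deg r ρ r' ρ' μ) (secZ_deg r ρ r' ρ' μ)
    (by rw [secW_coeff, secZ_coeff]; exact sec_ind hb ha ha4 hS h)
  exact h1

open SecAux in
/-- M3. -/
theorem secMult (hS : stSnoc) : stSecMult := by
  intro k L _ _ _ _ i a b π m0 r ρ r' ρ' μ hb ha ha4 _ hm h
  refine ⟨secMult1 hb ha ha4 hS hm h, ?_⟩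
  rw [← sec_symm]
  exact secMult1 hb ha ha4 hS hm (SecH_symm h)

open SecAux in
/-- M4. -/
theorem lineMult (hS : stSnoc) : stLineMult := by
  intro k L _ _ _ _ i a b π m0 x ρ κ hb ha ha4 _ hm h1 h
  exact lineMult1 hb ha ha4 hS hm h1 h

end MP_d2f638_ag.Stab
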