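import Pool.Agent.Lib.MP_d2f638_ag.Stab.GenPt

/-!
# Modules M5, M6: the points of intersection with a section or a line are generic
-/

namespace MP_d2f638_ag.Stab

open Polynomial

section

variable {k L : Type} [Field k] [Field L]

/-- `subsPar` is `D^N π(T, W / D, Z / D)`. -/
lemma eval_subsPar (i : k →+* L) (π : MvPolynomial (Fin 3) k) (G : Par L) (l : L)
    (hD : G.D.eval l ≠ 0) :
    (subsPar i π G).eval l = G.D.eval l ^ wzdeg π * MvPolynomial.eval₂ i (G.at l) π := by
  unfold subsPar
  rw [Polynomial.eval_finsetSum, MvPolynomial.eval₂_eq', Finset.mul_sum]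
  refine Finset.sum_congr rfl fun e he => ?_
  have h1 : e 1 + e 2 ≤ wzdeg π := by
    have h2 := MvPolynomial.le_weightedTotalDegree (![0, 1, 1] : Fin 3 → ℕ) he
    have h3 : (Finsupp.weight (![0, 1, 1] : Fin 3 → ℕ)) e = e 1 + e 2 := by
      rw [Finsupp.weight_apply, Finsupp.sum_fintype _ _ (fun _ => by simp)]
      simp [Fin.sum_univ_three]
    rw [h3] at h2
    exact h2
  obtain ⟨c, hc⟩ := Nat.exists_eq_add_of_le h1
  have h4 : wzdeg π - e 1 - e 2 = c := by omega
  rw [h4, hc]
  simp only [Par.at, Fin.prod_univ_three, Polynomial.eval_mul, Polynomial.eval_pow,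
    Polynomial.eval_C, Matrix.cons_val_zero, Matrix.cons_val_one, Matrix.cons_val]
  rw [div_pow, div_pow, pow_add, pow_add]
  field_simp

lemma eval₂_at_of_mem_rts (i : k →+* L) (π : MvPolynomial (Fin 3) k) (G : Par L) (l : L)
    (hl : l ∈ rts i π G) : MvPolynomial.eval₂ i (G.at l) π = 0 := by
  classical
  unfold rts at hl
  rw [Multiset.mem_filter] at hl
  obtain ⟨h1, _, h2⟩ := hl
  have h3 := Polynomial.isRoot_of_mem_roots h1
  rw [Polynomial.IsRoot.def, eval_subsPar i π G l h2] at h3
  exact (mul_eq_zero.1 h3).resolve_left (pow_ne_zero _ h2)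

lemma range_mem_clF (i : k →+* L) (T : Set L) (c : k) : i c ∈ clF i T := by
  have h : i c ∈ Subfield.closure (Set.range i ∪ T) :=
    Subfield.subset_closure (Or.inl ⟨c, rfl⟩)
  exact (mem_algebraicClosure_iff (F := Subfield.closure (Set.range i ∪ T)) (E := L)).2
    (isAlgebraic_algebraMap (⟨i c, h⟩ : Subfield.closure (Set.range i ∪ T)))

/-- `clF` is algebraically closed in `L`. -/
lemma secGen_mem_clF_of_root (i : k →+* L) (T : Set L) (y : L) (p : (clF i T)[X]) (hp : p ≠ 0)
    (hy : p.eval₂ (clF i T).subtype y = 0) : y ∈ clF i T := by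
  set F0 := Subfield.closure (Set.range i ∪ T)
  have h1 : IsAlgebraic (algebraicClosure F0 L) y := ⟨p, hp, hy⟩
  have h2 : IsAlgebraic F0 y := h1.restrictScalars F0
  exact (mem_algebraicClosure_iff (F := F0) (E := L)).2 h2

lemma mem_clF_of_quadratic (i : k →+* L) (T : Set L) (y q r : L) (hq : q ∈ clF i T)
    (hr : r ∈ clF i T) (hq0 : q ≠ 0) (h : q * y ^ 2 + r = 0) : y ∈ clF i T := by
  refine secGen_mem_clF_of_root i T y (C ⟨q, hq⟩ * X ^ 2 + C ⟨r, hr⟩) ?_ ?_
  · intro h0
    have h1 := congrArg (fun p => p.coeff 2) h0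
    simp only [Polynomial.coeff_add, Polynomial.coeff_C_mul, Polynomial.coeff_X_pow,
      Polynomial.coeff_C, Polynomial.coeff_zero] at h1
    simp only [if_true, mul_one] at h1
    rw [if_neg (by norm_num), add_zero] at h1
    exact hq0 (congrArg Subtype.val h1)
  · simp [Polynomial.eval₂_add, Polynomial.eval₂_mul]
    exact h

lemma Qf_ne_zero (i : k →+* L) (a b : k) (x : L) (hx : x ∉ clF i (∅ : Set L)) :
    Qf (i a) (i b) x ≠ 0 := by
  unfold Qf
  refine mul_ne_zero ?_ ?_
  · intro h
    apply hx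
    have : x = -(i a) := by linear_combination h
    rw [this]
    exact neg_mem (range_mem_clF i _ a)
  · intro h
    apply hx
    have : x = -(i b) := by linear_combination h
    rw [this]
    exact neg_mem (range_mem_clF i _ b)

lemma Qf_mem (i : k →+* L) (T : Set L) (a b : k) {x : L} (hx : x ∈ clF i T) :
    Qf (i a) (i b) x ∈ clF i T := by
  unfold Qf
  exact mul_mem (add_mem hx (range_mem_clF i T a)) (add_mem hx (range_mem_clF i T b))

lemma Rf_mem (i : k →+* L) (T : Set L) (a b : k) {x : L} (hx : x ∈ clF i T) :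
    Rf (i a) (i b) x ∈ clF i T := by
  unfold Rf
  have ha := range_mem_clF i T a
  have hb := range_mem_clF i T b
  exact mul_mem (mul_mem (sub_mem hx ha) (sub_mem hx hb))
    (sub_mem (sub_mem (pow_mem hx 2) (pow_mem ha 2)) (one_mem _))

/-- A point of the conic over `x`. -/
lemma rho_mem (i : k →+* L) (T : Set L) (a b : k) {x ρ : L} (hx : x ∈ clF i T)
    (hx0 : x ∉ clF i (∅ : Set L)) (h : Ff (i a) (i b) x ρ = 0) : ρ ∈ clF i T :=
  mem_clF_of_quadratic i T ρ _ _ (Qf_mem i T a b hx) (Rf_mem i T a b hx)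
    (Qf_ne_zero i a b x hx0) h

/-- The values `r` with `F(r, w0 + w1 r) = 0` are algebraic over `w0`, `w1`. -/
lemma root_mem (i : k →+* L) (T : Set L) (a b : k) (hb : b ^ 2 = a ^ 2 - 1) (ha : a ^ 2 ≠ 0)
    (h2 : (2 : k) ≠ 0) {w0 w1 r : L} (h0 : w0 ∈ clF i T) (h1 : w1 ∈ clF i T)
    (h : Ff (i a) (i b) r (w0 + w1 * r) = 0) : r ∈ clF i T := by
  set a' : clF i T := ⟨i a, range_mem_clF i T a⟩ with ha'
  set b' : clF i T := ⟨i b, range_mem_clF i T b⟩ with hb'
  set w0' : clF i T := ⟨w0, h0⟩ with hw0'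
  set w1' : clF i T := ⟨w1, h1⟩ with hw1'
  refine secGen_mem_clF_of_root i T r (Ff (C a') (C b') X (C w0' + C w1' * X)) ?_ ?_
  · intro hcon
    have h3 := congrArg (fun p => (Polynomial.evalRingHom (-a')) p) hcon
    rw [map_Ff] at h3
    have h4 : (((Ff a' b' (-a') (w0' + w1' * (-a')) : clF i T)) : L) = 0 := by
      have h5 : Ff a' b' (-a') (w0' + w1' * (-a')) = 0 := by simpa using h3
      rw [h5]
      rfl
    have h6 : (((Ff a' b' (-a') (w0' + w1' * (-a')) : clF i T)) : L) =
        i (2 * (a * (a + b))) * (-1) := by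
      have h7 : (((Ff a' b' (-a') (w0' + w1' * (-a')) : clF i T)) : L) =
          Ff (i a) (i b) (-(i a)) (w0 + w1 * (-(i a))) := by
        have := map_Ff (clF i T).subtype a' b' (-a') (w0' + w1' * (-a'))
        simpa using this
      rw [h7]
      have h8 : (i b) ^ 2 = (i a) ^ 2 - 1 := by rw [← map_pow, hb]; simp
      simp only [Ff, Qf, Rf, map_mul, map_add, map_ofNat]
      ring
    rw [h6, mul_eq_zero, map_eq_zero] at h4
    have ha0 : a ≠ 0 := fun h => ha (by rw [h]; ring)
    rcases h4 with h4 | h4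
    · have h9 : a + b = 0 := by
        rcases mul_eq_zero.1 h4 with h | h
        · exact absurd h h2
        · exact (mul_eq_zero.1 h).resolve_left ha0
      have h10 : b = -a := by linear_combination h9
      rw [h10] at hb
      have : (1 : k) = 0 := by linear_combination hb
      exact one_ne_zero this
    · norm_num at h4
  · have h3 := map_Ff (Polynomial.eval₂RingHom (clF i T).subtype r) (C a') (C b') X
      (C w0' + C w1' * X)
    rw [Polynomial.coe_eval₂RingHom] at h3
    rw [h3]
    simpa using h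

end

/-- M6. -/
theorem lineGen : stLineGen := by
  intro k L _ _ _ _ i a b π x ρ κ hb ha ha4 hirr hF hAI l hl
  have hP := eval₂_at_of_mem_rts i π _ l hl
  refine genPt k L i π _ hirr hP ?_
  rintro ⟨e, he⟩
  have hx := he 0
  have hlc := he 1
  have hz := he 2
  simp only [lineP, Par.at, Matrix.cons_val_zero, Matrix.cons_val_one, Matrix.cons_val,
    Polynomial.eval_C, Polynomial.eval_X, Polynomial.eval_one, div_one, Polynomial.eval_mul,
    Polynomial.eval_sub] at hx hlc hz
  have hZ : κ * (l - ρ) ≠ 0 := by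
    classical
    unfold rts at hl
    rw [Multiset.mem_filter] at hl
    have := hl.2.1
    simpa [lineP] using this
  have hx0 := ((AI_two_iff i x κ).1 hAI).1
  have hρ := rho_mem i _ a b hx hx0 hF
  have hlρ : l - ρ ≠ 0 := (mul_ne_zero_iff.1 hZ).2
  have hκ : κ ∈ clF i ({e} : Set L) := by
    have : κ = κ * (l - ρ) * (l - ρ)⁻¹ := by field_simp
    rw [this]
    exact mul_mem hz (inv_mem (sub_mem hlc hρ))
  refine rank k L i 1 ![x, κ] ![e] hAI ?_
  have hr : Set.range ![e] = {e} := by simp
  rw [hr]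
  intro j
  fin_cases j
  · exact hx
  · exact hκ

/-- M5. -/
theorem secGen : stSecGen := by
  intro k L _ _ _ _ i a b π r ρ r' ρ' μ hb ha ha4 hirr hS l hl
  have hP := eval₂_at_of_mem_rts i π _ l hl
  refine genPt k L i π _ hirr hP ?_
  rintro ⟨e, he⟩
  have hlc := he 0
  have hw := he 1
  have hz := he 2
  obtain ⟨hF1, hF2, hAI⟩ := hS
  have hrr' : r - r' ≠ 0 := by
    intro h
    have h1 : r' = r := by linear_combination -h
    have h2 := (snoc k L i 2 ![r, r'] μ).1 (by
      have : (Fin.snoc ![r, r'] μ : Fin 3 → L) = ![r, r', μ] := by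
        funext j
        fin_cases j
        · rfl
        · rfl
        · rfl
      rw [this]
      exact hAI)
    have h3 := ((AI_two_iff i r r').1 h2.1).2
    rw [h1] at h3
    exact h3 (genPt_subset_clF i _ rfl)
  have hrr'' : r' - r ≠ 0 := by
    intro h
    exact hrr' (by linear_combination -h)
  set w1 : L := (ρ - ρ') / (r - r') with hw1
  simp only [secP, Par.at, Matrix.cons_val_zero, Matrix.cons_val_one, Matrix.cons_val,
    Polynomial.eval_C, Polynomial.eval_X, Polynomial.eval_one, div_one, Polynomial.eval_mul,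
    Polynomial.eval_sub, Polynomial.eval_add] at hlc hw hz
  have hZ : μ * (l - r) * (l - r') ≠ 0 := by
    classical
    unfold rts at hl
    rw [Multiset.mem_filter] at hl
    have := hl.2.1
    simpa [secP] using this
  set w : L := ρ / (r - r') * (l - r') + ρ' / (r' - r) * (l - r) with hwdef
  set T : Set L := {e, w1} with hT
  have hsub : ({e} : Set L) ⊆ T := by
    intro t ht
    left
    exact ht
  have hl' := genPt_clF_mono i hsub hlc
  have hw' := genPt_clF_mono i hsub hw
  have hz' := genPt_clF_mono i hsub hz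
  have hw1' : w1 ∈ clF i T := genPt_subset_clF i T (by right; rfl)
  have hw0' : w - w1 * l ∈ clF i T := sub_mem hw' (mul_mem hw1' hl')
  have e1 : (w - w1 * l) + w1 * r = ρ := by
    rw [hwdef, hw1]
    have : r' - r = -(r - r') := by ring
    rw [this]
    field_simp
    ring
  have e2 : (w - w1 * l) + w1 * r' = ρ' := by
    rw [hwdef, hw1]
    have : r' - r = -(r - r') := by ring
    rw [this]
    field_simp
    ring
  have h2 : (2 : k) ≠ 0 := two_ne_zero
  have hr : r ∈ clF i T := root_mem i T a b hb ha h2 hw0' hw1' (by rw [e1]; exact hF1)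
  have hr' : r' ∈ clF i T := root_mem i T a b hb ha h2 hw0' hw1' (by rw [e2]; exact hF2)
  have hlr : l - r ≠ 0 := (mul_ne_zero_iff.1 (mul_ne_zero_iff.1 hZ).1).2
  have hlr' : l - r' ≠ 0 := (mul_ne_zero_iff.1 hZ).2
  have hμ : μ ∈ clF i T := by
    have : μ = μ * (l - r) * (l - r') * (l - r)⁻¹ * (l - r')⁻¹ := by field_simp
    rw [this]
    exact mul_mem (mul_mem hz' (inv_mem (sub_mem hl' hr))) (inv_mem (sub_mem hl' hr'))
  refine rank k L i 2 ![r, r', μ] ![e, w1] hAI ?_
  have hrg : Set.range ![e, w1] = T := by simp [hT, Set.pair_comm]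
  rw [hrg]
  intro j
  fin_cases j
  · exact hr
  · exact hr'
  · exact hμ

end MP_d2f638_ag.Stab
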