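import Pool.Agent.Lib.MP_d2f638_ag.Stab.Cl
import Pool.Agent.Lib.MP_d2f638_ag.Stab.Rank

/-!
# C7: `B(c') - [i] B(c)` is constant
-/

namespace MP_d2f638_ag.Stab

open Polynomial

namespace StarAux

/-! ### Logarithmic derivatives -/

section Dl

variable {M M' : Type} [Field M] [CharZero M] [Field M'] [CharZero M']

lemma Dl_pt (D : Derivation ℤ M M) {u v : M} (h : v ^ 2 = u ^ 3 - u) (hv : v ≠ 0) :
    Dl D (pt u v) = D u / v := by
  have hex : ∃ xy : M × M, xy.2 ^ 2 = xy.1 ^ 3 - xy.1 ∧ xy.2 ≠ 0 ∧ pt u v = pt xy.1 xy.2 :=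
    ⟨(u, v), h, hv, rfl⟩
  unfold Dl
  rw [dif_pos hex]
  obtain ⟨h1, -, h2⟩ := hex.choose_spec
  obtain ⟨h3, h4⟩ := pt_inj h h1 h2
  rw [← h3, ← h4]

lemma Dl_of_zero (D : Derivation ℤ M M) : Dl D (0 : E M) = 0 := by
  unfold Dl
  rw [dif_neg]
  rintro ⟨xy, h1, -, h2⟩
  exact pt_ne_zero h1 h2.symm

lemma Dl_pt_zero (D : Derivation ℤ M M) {u : M} (h : (0 : M) ^ 2 = u ^ 3 - u) :
    Dl D (pt u 0) = 0 := by
  unfold Dl
  rw [dif_neg]
  rintro ⟨xy, h1, h3, h2⟩
  exact h3 (pt_inj h h1 h2).2.symm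

/-- naturality -/
lemma Dl_map (D : Derivation ℤ M M) (D' : Derivation ℤ M' M') (f : M →+* M') (s : M')
    (hf : ∀ m, D' (f m) = s * f (D m)) (P : E M) : Dl D' (Emap f P) = s * f (Dl D P) := by
  rcases exists_pt P with rfl | ⟨u, v, h, rfl⟩
  · rw [map_zero, Dl_of_zero, Dl_of_zero, map_zero, mul_zero]
  · rw [Emap_pt f h]
    by_cases hv : v = 0
    · subst hv
      have h' := eqn_map f h
      rw [map_zero] at h' ⊢
      rw [Dl_pt_zero D h, Dl_pt_zero D' h', map_zero, mul_zero]
    · rw [Dl_pt D h hv, Dl_pt D' (eqn_map f h) ((map_ne_zero f).2 hv), hf, map_div₀, mul_div_assoc]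

/-- multiplication by `I` -/
lemma Dl_imul (D : Derivation ℤ M M) {I : M} (hI : I ^ 2 = -1) (P : E M) :
    Dl D (imul I hI P) = I * Dl D P := by
  rcases exists_pt P with rfl | ⟨u, v, h, rfl⟩
  · rw [map_zero, Dl_of_zero, mul_zero]
  · rw [imul_pt hI h]
    have hI0 : I ≠ 0 := by
      rintro rfl
      norm_num at hI
    by_cases hv : v = 0
    · subst hv
      have h' := imul_eqn hI h
      rw [mul_zero] at h' ⊢
      rw [Dl_pt_zero D h, Dl_pt_zero D h', mul_zero]
    · rw [Dl_pt D h hv, Dl_pt D (imul_eqn hI h) (mul_ne_zero hI0 hv), map_neg]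
      field_simp
      linear_combination (-D u) * hI

lemma Dl_sub (h : stDlog) (D : Derivation ℤ M M) (P Q : E M) : Dl D (P - Q) = Dl D P - Dl D Q := by
  have h1 := h M D (P - Q) Q
  rw [sub_add_cancel] at h1
  rw [h1]
  ring

end Dl

/-! ### Kernels of derivations -/

section Ker

variable {k L : Type} [Field k] [Field L]

/-- the field of constants -/
def cst (D : Derivation ℤ L L) : Subfield L where
  carrier := {z | D z = 0}
  mul_mem' := by
    intro a b ha hb
    show D (a * b) = 0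
    rw [D.leibniz, ha.out, hb.out, smul_zero, smul_zero, add_zero]
  one_mem' := D.map_one_eq_zero
  add_mem' := by
    intro a b ha hb
    show D (a + b) = 0
    rw [map_add, ha.out, hb.out, add_zero]
  zero_mem' := map_zero D
  neg_mem' := by
    intro a ha
    show D (-a) = 0
    rw [map_neg, ha.out, neg_zero]
  inv_mem' := by
    intro a ha
    show D a⁻¹ = 0
    rw [D.leibniz_inv, ha.out, smul_zero]

lemma mem_cst {D : Derivation ℤ L L} {z : L} : z ∈ cst D ↔ D z = 0 := Iff.rfl

/-- a derivation vanishes on elements which are algebraic over constants -/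
lemma D_eq_zero_of_alg [CharZero L] (D : Derivation ℤ L L) (K0 : Subfield L) (hK : K0 ≤ cst D)
    {x : L} (hx : IsAlgebraic K0 x) : D x = 0 := by
  let D0 : Derivation K0 L L :=
    { toFun := D
      map_add' := D.map_add
      map_smul' := by
        intro c z
        have hc : D (c : L) = 0 := hK c.2
        show D ((c : L) * z) = (c : L) * D z
        rw [D.leibniz, hc, smul_zero, add_zero, smul_eq_mul]
      map_one_eq_zero' := D.map_one_eq_zero
      leibniz' := D.leibniz }
  have h1 : D0 (aeval x (minpoly K0 x)) = aeval x (derivative (minpoly K0 x)) • D0 x :=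
    D0.map_aeval _ _
  rw [minpoly.aeval, map_zero] at h1
  have h2 : aeval x (derivative (minpoly K0 x)) ≠ 0 :=
    (minpoly.irreducible hx.isIntegral).separable.aeval_derivative_ne_zero (minpoly.aeval _ _)
  have h3 := (smul_eq_zero.1 h1.symm).resolve_left h2
  exact h3

/-- elements outside an algebraically closed field are transcendental -/
lemma trans_of_not_range [IsAlgClosed k] (i : k →+* L) {m : L} (hcon : ∀ c, i c ≠ m) :
    Trans i m := by
  intro p hp h0
  have hs := IsAlgClosed.splits p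
  have h1 : p.map i = _ := (hs.map i).eq_prod_roots
  rw [eval₂_eq_eval_map, h1, hs.roots_map, eval_mul, eval_C, eval_multiset_prod] at h0
  rcases mul_eq_zero.1 h0 with h2 | h2
  · rw [leadingCoeff_map, map_eq_zero, leadingCoeff_eq_zero] at h2
    exact hp h2
  · rw [Multiset.prod_eq_zero_iff, Multiset.mem_map] at h2
    obtain ⟨q, hq, hq0⟩ := h2
    rw [Multiset.mem_map] at hq
    obtain ⟨r, hr, rfl⟩ := hq
    rw [Multiset.mem_map] at hr
    obtain ⟨c, -, rfl⟩ := hr
    rw [eval_sub, eval_X, eval_C, sub_eq_zero] at hq0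
    exact hcon c hq0.symm

/-- the constants of a derivation of a field of transcendence degree one -/
lemma const_of_D_zero [IsAlgClosed k] [CharZero L] (i : k →+* L) (x : L)
    (hall : ∀ m : L, m ∈ clF i {x}) (D : Derivation ℤ L L) (hD : ∀ c, D (i c) = 0)
    (hDx : D x ≠ 0) (m : L) (hm : D m = 0) : ∃ c, i c = m := by
  by_contra hcon
  push Not at hcon
  -- `m` is transcendental
  have htr := trans_of_not_range i hcon
  have hAI1 : AI i (![m] : Fin 1 → L) := by
    let _ : Algebra k L := i.toAlgebra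
    have hi : i = algebraMap k L := rfl
    rw [hi, AI_iff_algebraicIndependent, algebraicIndependent_unique_type_iff]
    rintro ⟨p, hp, h0⟩
    exact htr p hp h0
  -- exchange
  have hx : x ∈ clF i (Set.range (![m] : Fin 1 → L)) := by
    by_contra hx
    have h1 := (snoc k L i 1 ![m] x).2 ⟨hAI1, hx⟩
    refine rank k L i 1 _ ![x] h1 ?_
    intro j
    have : Set.range (![x] : Fin 1 → L) = {x} := by simp
    rw [this]
    exact hall _
  rw [mem_clF_iff] at hx
  apply hDx
  refine D_eq_zero_of_alg D _ ?_ hx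
  rw [Subfield.closure_le]
  rintro z (⟨c, rfl⟩ | ⟨j, rfl⟩)
  · exact hD c
  · fin_cases j
    exact hm

end Ker

/-! ### Squares in the function field -/

section Sq

variable {k : Type} [Field k]

/-- a parity argument -/
lemma parity {A B g : k[X]} {c : k} (h : A ^ 2 = B ^ 2 * ((X - C c) * g)) (hg : g.eval c ≠ 0) :
    B = 0 := by
  by_contra hB
  have hg0 : g ≠ 0 := by
    rintro rfl
    simp at hg
  have hX : (X - C c : k[X]) ≠ 0 := X_sub_C_ne_zero c
  have hA : A ≠ 0 := by
    rintro rfl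
    rw [zero_pow two_ne_zero] at h
    exact mul_ne_zero (pow_ne_zero 2 hB) (mul_ne_zero hX hg0) h.symm
  have h1 := congrArg (rootMultiplicity c) h
  rw [rootMultiplicity_mul (mul_ne_zero (pow_ne_zero 2 hB) (mul_ne_zero hX hg0)),
    rootMultiplicity_mul (mul_ne_zero hX hg0), rootMultiplicity_X_sub_C_self,
    rootMultiplicity_eq_zero hg, pow_two, pow_two, rootMultiplicity_mul (mul_ne_zero hA hA),
    rootMultiplicity_mul (mul_ne_zero hB hB)] at h1
  omega

variable {M : Type} [Field M] {iM : k →+* M} {a : k} {x y : M}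

lemma eval₂_delta (p : k[X]) : (delta (C a) p).eval₂ iM x = delta (iM a) (p.eval₂ iM x) := by
  have h := map_delta (eval₂RingHom iM x) (C a) p
  simpa using h

lemma delta_poly : delta (C a) X = (X - C a) * ((X + C a) * ((X ^ 2 - C (a ^ 2)) ^ 2 - 1)) := by
  simp only [delta, C_pow]
  ring

/-- `1` and `y` are linearly independent over `k(x)` -/
lemma indep (h : IsCF iM a x y) (h2 : (2 : k) ≠ 0) (ha : a ≠ 0) {A B : k[X]}
    (h0 : A.eval₂ iM x + B.eval₂ iM x * y = 0) : A = 0 ∧ B = 0 := by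
  have h1 : A ^ 2 - B ^ 2 * delta (C a) X = 0 := by
    by_contra hne
    apply h.trans _ hne
    rw [eval₂_sub, eval₂_mul, eval₂_pow, eval₂_pow, eval₂_delta, eval₂_X, ← h.eqn]
    linear_combination (A.eval₂ iM x - B.eval₂ iM x * y) * h0
  have hB : B = 0 := by
    refine parity (A := A) (c := a) (g := (X + C a) * ((X ^ 2 - C (a ^ 2)) ^ 2 - 1)) ?_ ?_
    · rw [← delta_poly]
      exact sub_eq_zero.1 h1
    · have e : ((X + C a) * ((X ^ 2 - C (a ^ 2)) ^ 2 - 1) : k[X]).eval a = -(2 * a) := by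
        simp only [eval_mul, eval_add, eval_X, eval_C, eval_sub, eval_pow, eval_one]
        ring
      rw [e]
      exact neg_ne_zero.2 (mul_ne_zero h2 ha)
  refine ⟨?_, hB⟩
  rw [hB] at h1
  simpa using h1

/-- `2 a² - x²` is not a square -/
lemma not_sq [IsAlgClosed k] (h : IsCF iM a x y) (h2 : (2 : k) ≠ 0) (ha : a ≠ 0) (ha4 : a ^ 4 ≠ 1)
    (m : M) : m ^ 2 ≠ 2 * (iM a) ^ 2 - x ^ 2 := by
  intro hm
  obtain ⟨p, q, r, hr, hmr⟩ := h.gen m
  obtain ⟨c, hc⟩ : ∃ c : k, c ^ 2 = 2 * a ^ 2 := IsAlgClosed.exists_pow_nat_eq _ two_pos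
  have hc0 : c ≠ 0 := by
    rintro rfl
    rw [zero_pow two_ne_zero] at hc
    exact mul_ne_zero h2 (pow_ne_zero 2 ha) hc.symm
  have e1 : (p ^ 2 + q ^ 2 * delta (C a) X - r ^ 2 * (C (2 * a ^ 2) - X ^ 2)).eval₂ iM x +
      (2 * p * q).eval₂ iM x * y = 0 := by
    simp only [eval₂_sub, eval₂_add, eval₂_mul, eval₂_pow, eval₂_delta, eval₂_X, eval₂_C, map_mul,
      map_pow, map_ofNat, ← h.eqn]
    have e2 : (2 : k[X]).eval₂ iM x = 2 := by
      rw [eval₂_ofNat]
    rw [e2]
    linear_combination (r.eval₂ iM x) ^ 2 * hm -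
      (m * r.eval₂ iM x + p.eval₂ iM x + q.eval₂ iM x * y) * hmr
  obtain ⟨e3, e4⟩ := indep h h2 ha e1
  have e5 : C (2 * a ^ 2) - X ^ 2 = (X - C c) * (-(X + C c)) := by
    rw [← hc, C_pow]
    ring
  have hcc : -(c + c) ≠ 0 := by
    rw [← two_mul]
    exact neg_ne_zero.2 (mul_ne_zero h2 hc0)
  have h2' : (2 : k[X]) ≠ 0 := by
    intro e
    apply h2
    have := congrArg (eval 0) e
    simpa using this
  rcases mul_eq_zero.1 e4 with e6 | e6
  · have hp : p = 0 := (mul_eq_zero.1 e6).resolve_left h2'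
    apply hr
    refine parity (A := q * delta (C a) X) (c := c) (g := -(X + C c) * delta (C a) X) ?_ ?_
    · rw [hp] at e3
      have e7 : q ^ 2 * delta (C a) X = r ^ 2 * ((X - C c) * (-(X + C c))) := by
        rw [← e5]
        linear_combination e3
      linear_combination (delta (C a) X) * e7
    · have e8 : (delta (C a) X : k[X]).eval c = delta a c := by simp [delta]
      rw [eval_mul, e8, eval_neg, eval_add, eval_X, eval_C]
      refine mul_ne_zero hcc ?_
      unfold delta
      rw [hc]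
      have e9 : (2 * a ^ 2 - a ^ 2) ^ 3 - (2 * a ^ 2 - a ^ 2) = a ^ 2 * (a ^ 4 - 1) := by ring
      rw [e9]
      exact mul_ne_zero (pow_ne_zero 2 ha) (sub_ne_zero.2 ha4)
  · apply hr
    refine parity (A := p) (c := c) (g := -(X + C c)) ?_ ?_
    · rw [e6] at e3
      rw [← e5]
      linear_combination e3
    · simpa using hcc

end Sq

/-! ### Subfields -/

section Sub

variable {F L : Type} [Field F] [Field L]

lemma eval₂_mem (K' : Subfield L) {j : F →+* L} (hj : ∀ c, j c ∈ K') {x : L} (hx : x ∈ K')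
    (p : F[X]) : p.eval₂ j x ∈ K' := by
  rw [eval₂_eq_sum_range]
  exact sum_mem fun n _ => mul_mem (hj _) (pow_mem hx n)

/-- the function field is generated by `x` and `y` -/
lemma mem_of_gen {k : Type} [Field k] {iM : k →+* F} {a : k} {x y : F} (h : IsCF iM a x y)
    (K' : Subfield F) (hk : ∀ c, iM c ∈ K') (hx : x ∈ K') (hy : y ∈ K') (m : F) : m ∈ K' := by
  obtain ⟨p, q, r, hr, hm⟩ := h.gen m
  have hr0 : r.eval₂ iM x ≠ 0 := h.trans r hr
  rw [eq_div_of_mul_eq hr0 hm]
  exact div_mem (add_mem (eval₂_mem K' hk hx p) (mul_mem (eval₂_mem K' hk hx q) hy))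
    (eval₂_mem K' hk hx r)

/-- where two derivations agree up to a factor -/
def eqDer (D : Derivation ℤ F F) (D' : Derivation ℤ L L) (f : F →+* L) (s : L) : Subfield F where
  carrier := {m | D' (f m) = s * f (D m)}
  mul_mem' := by
    intro a b ha hb
    show D' (f (a * b)) = s * f (D (a * b))
    rw [map_mul, D'.leibniz, D.leibniz, ha.out, hb.out]
    simp only [smul_eq_mul, map_add, map_mul]
    ring
  one_mem' := by
    show D' (f 1) = s * f (D 1)
    rw [map_one, D'.map_one_eq_zero, D.map_one_eq_zero, map_zero, mul_zero]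
  add_mem' := by
    intro a b ha hb
    show D' (f (a + b)) = s * f (D (a + b))
    rw [map_add, map_add, map_add, map_add, ha.out, hb.out, mul_add]
  zero_mem' := by
    show D' (f 0) = s * f (D 0)
    simp only [map_zero, mul_zero]
  neg_mem' := by
    intro a ha
    show D' (f (-a)) = s * f (D (-a))
    rw [map_neg, map_neg, map_neg, map_neg, ha.out, mul_neg]
  inv_mem' := by
    intro a ha
    show D' (f a⁻¹) = s * f (D a⁻¹)
    rw [map_inv₀, D'.leibniz_inv, D.leibniz_inv, ha.out]
    simp only [smul_eq_mul, map_mul, map_neg, map_pow, map_inv₀]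
    ring

/-- two homomorphisms from the function field -/
lemma hom_ext {k : Type} [Field k] {iM : k →+* F} {a : k} {x y : F} (h : IsCF iM a x y)
    {f g : F →+* L} (hk : ∀ c, f (iM c) = g (iM c)) (hx : f x = g x) (hy : f y = g y) : f = g := by
  ext m
  exact mem_of_gen h (RingHom.eqLocusField f g) hk hx hy m

end Sub

/-- a quadratic extension with a derivation -/
lemma exists_quad {M : Type} [Field M] [CharZero M] (D : Derivation ℤ M M) (d : M)
    (hd : ∀ m, m ^ 2 ≠ d) : ∃ (N : Type) (_ : Field N) (_ : CharZero N) (o : M →+* N) (X' : N)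
      (D' : Derivation ℤ N N), X' ^ 2 = o d ∧ (∀ m, D' (o m) = o (D m)) ∧
      (∀ K' : Subfield N, (∀ m, o m ∈ K') → X' ∈ K' → ∀ n, n ∈ K') ∧
      ∀ (L : Type) [Field L] (j : M →+* L) (x1 : L), x1 ^ 2 = j d →
        ∃ J : N →+* L, J.comp o = j ∧ J X' = x1 := by
  let P : M[X] := X ^ 2 - C d
  have hPirr : Fact (Irreducible P) := ⟨X_pow_sub_C_irreducible_of_prime Nat.prime_two hd⟩
  have hPmon : Fact P.Monic := ⟨monic_X_pow_sub_C _ two_ne_zero⟩
  let _ : Differential M := ⟨D⟩
  refine ⟨AdjoinRoot P, inferInstance,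
    charZero_of_injective_algebraMap (algebraMap M (AdjoinRoot P)).injective,
    algebraMap M (AdjoinRoot P), AdjoinRoot.root P, Differential.deriv (R := AdjoinRoot P),
    ?_, ?_, ?_, ?_⟩
  · have h1 := AdjoinRoot.eval₂_root P
    simp only [P, eval₂_sub, eval₂_pow, eval₂_X, eval₂_C] at h1
    exact sub_eq_zero.1 h1
  · exact fun m => DifferentialAlgebra.deriv_algebraMap m
  · intro K' h1 h3 n
    obtain ⟨q, rfl⟩ := AdjoinRoot.mk_surjective n
    rw [← AdjoinRoot.aeval_eq, aeval_def]
    exact eval₂_mem K' h1 h3 q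
  · intro L _ j x1 hx1
    have h1 : P.eval₂ j x1 = 0 := by
      simp only [P, eval₂_sub, eval₂_pow, eval₂_X, eval₂_C]
      exact sub_eq_zero.2 hx1
    refine ⟨AdjoinRoot.lift j x1 h1, ?_, AdjoinRoot.lift_root h1⟩
    ext m
    exact AdjoinRoot.lift_of h1

end StarAux

open StarAux

/-- C7. -/
theorem star (hlog : stLog) (hdlog : stDlog) (hhom : stCFhom) (hext : stExt) : stStar := by
  intro k M _ _ _ _ _ iM a I x y hI hM hatr B
  have h2 : (2 : k) ≠ 0 := two_ne_zero
  have ha : a ≠ 0 := by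
    rintro rfl
    exact hatr isAlgebraic_zero
  have ha2 : a ^ 2 ≠ 0 := pow_ne_zero 2 ha
  have ha4 : a ^ 4 ≠ 1 := by
    intro h
    apply hatr
    exact IsAlgebraic.of_pow (n := 4) (by norm_num) (by rw [h]; exact isAlgebraic_one)
  have hx0 : x ≠ 0 := by
    have := hM.trans.not_mem 0
    rwa [map_zero] at this
  have hy0 : y ≠ 0 := by
    intro hy
    have h1 := hM.eqn
    rw [hy] at h1
    refine hM.trans (delta (C a) X) ?_ ?_
    · intro e
      have e2 := congrArg (fun p : k[X] => p.eval (0 : k)) e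
      simp only [delta, eval_sub, eval_pow, eval_X, eval_C, eval_zero] at e2
      have e3 : a ^ 2 * (1 - a ^ 4) = 0 := by linear_combination e2
      rcases mul_eq_zero.1 e3 with e4 | e4
      · exact ha2 e4
      · exact ha4 (by linear_combination -e4)
    · rw [eval₂_delta, eval₂_X, ← h1, zero_pow two_ne_zero]
  -- the derivation
  obtain ⟨D, hDc, hDx⟩ := hext k M iM a x y hM ha2 ha4 0 (2 * x)⁻¹
  have hDc' : ∀ c, D (iM c) = 0 := by
    intro c
    rw [hDc]
    simp
  have hDx' : 2 * x * D x = 1 := by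
    rw [hDx]
    exact mul_inv_cancel₀ (mul_ne_zero two_ne_zero hx0)
  obtain ⟨c, hc⟩ := hlog k M iM a x y hM hatr D hDc' hDx' B
  -- the quadratic extension
  obtain ⟨N, _, _, o, X', D', hXx', hD'o, hNgen, hNlift⟩ :=
    exists_quad D (2 * (iM a) ^ 2 - x ^ 2) (fun m => not_sq hM h2 ha ha4 m)
  let iN : k →+* N := o.comp iM
  have hXx : X' ^ 2 = 2 * (iN a) ^ 2 - (o x) ^ 2 := by
    rw [hXx', map_sub, map_mul, map_pow, map_pow, map_ofNat]
    rfl
  have hIN : (iN I) ^ 2 = -1 := by rw [← map_pow, hI, map_neg, map_one]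
  have hIN0 : iN I ≠ 0 := by
    intro h
    rw [h] at hIN
    norm_num at hIN
  -- the extension of the derivation
  have hD'c : ∀ c, D' (iN c) = 0 := by
    intro c
    show D' (o (iM c)) = 0
    rw [hD'o, hDc', map_zero]
  have hDox : 2 * o x * o (D x) = 1 := by
    rw [← map_ofNat o 2, ← map_mul, ← map_mul, hDx', map_one]
  have hDX : 2 * X' * D' X' = -1 := by
    have h1 := congrArg D' hXx
    have e1 : D' (2 * (iN a) ^ 2) = 0 := by
      have : (2 * (iN a) ^ 2 : N) = iN (2 * a ^ 2) := by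
        rw [map_mul, map_pow, map_ofNat]
      rw [this, hD'c]
    rw [map_sub, e1, D'.leibniz_pow, D'.leibniz_pow, hD'o] at h1
    simp only [Nat.add_one_sub_one, pow_one, smul_eq_mul, nsmul_eq_mul, Nat.cast_ofNat] at h1
    linear_combination h1 - hDox
  have hX0 : X' ≠ 0 := by
    intro h
    rw [h, mul_zero, zero_mul] at hDX
    norm_num at hDX
  have hoy0 : o y ≠ 0 := (map_ne_zero o).2 hy0
  -- the second embedding
  have htrX : Trans iN X' := by
    apply trans_of_not_range
    intro c hc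
    have h1 : D' X' = 0 := by rw [← hc, hD'c]
    rw [h1, mul_zero] at hDX
    norm_num at hDX
  have hoy : (o y) ^ 2 = delta (iN a) (o x) := by
    rw [← map_pow, hM.eqn, map_delta]
    rfl
  have heq : (iN I * o y) ^ 2 = delta (iN a) X' := by
    rw [mul_pow, hIN, hoy]
    unfold delta
    rw [hXx]
    ring
  obtain ⟨j', hj1, hj2, hj3⟩ := hhom k M N a iM x y iN X' (iN I * o y) ha2 ha4 hM htrX heq
  have hj1' : ∀ c, j' (iM c) = iN c := fun c => RingHom.congr_fun hj1 c
  -- the derivation of `y`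
  have hDu : 3 * (x ^ 2 - (iM a) ^ 2) ^ 2 - 1 = 2 * y * D y := by
    have h1 := congrArg D hM.eqn
    unfold delta at h1
    simp only [map_sub, D.leibniz_pow, ← map_pow iM, hDc', Nat.add_one_sub_one,
      pow_one, smul_eq_mul, nsmul_eq_mul, Nat.cast_ofNat, sub_zero] at h1
    rw [map_pow] at h1
    linear_combination (-1 : M) * h1 - (3 * (x ^ 2 - (iM a) ^ 2) ^ 2 - 1) * hDx'
  have hDj : ∀ m, D' (j' m) = (-1) * j' (D m) := by
    refine mem_of_gen hM (eqDer D D' j' (-1)) ?_ ?_ ?_
    · intro c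
      show D' (j' (iM c)) = (-1) * j' (D (iM c))
      rw [hj1', hD'c, hDc', map_zero, mul_zero]
    · show D' (j' x) = (-1) * j' (D x)
      have h1 : 2 * X' * j' (D x) = 1 := by
        rw [← hj2, ← map_ofNat j' 2, ← map_mul, ← map_mul, hDx', map_one]
      rw [hj2]
      apply mul_left_cancel₀ (mul_ne_zero (two_ne_zero (α := N)) hX0)
      linear_combination hDX + h1
    · show D' (j' y) = (-1) * j' (D y)
      rw [hj3, D'.leibniz, hD'c, smul_zero, add_zero, smul_eq_mul, hD'o]
      have h1 := congrArg j' hDu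
      have h3 := congrArg o hDu
      simp only [map_sub, map_mul, map_pow, map_ofNat, map_one, hj1', hj2, hj3] at h1
      simp only [map_sub, map_mul, map_pow, map_ofNat, map_one] at h3
      have h4 : o (iM a) = iN a := rfl
      rw [h4] at h3
      rw [hXx] at h1
      have h5 : (2 : N) * (iN I * o y) ≠ 0 := mul_ne_zero two_ne_zero (mul_ne_zero hIN0 hoy0)
      apply mul_left_cancel₀ h5
      linear_combination (2 * o y * o (D y)) * hIN - h1 + h3
  -- the difference
  let Pt : E N := Emap j' B - imul (iN I) hIN (Emap o B)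
  have hDl : Dl D' Pt = 0 := by
    have hDl0 : Dl D B = iM c / y := by rw [eq_div_iff hy0, hc]
    have e1 := Dl_map D D' j' (-1) hDj B
    have e2 := Dl_map D D' o 1 (fun m => by rw [hD'o, one_mul]) B
    show Dl D' (Emap j' B - imul (iN I) hIN (Emap o B)) = 0
    rw [Dl_sub hdlog, Dl_imul, e1, e2, hDl0, map_div₀, map_div₀, hj1', hj3]
    have h4 : o (iM c) = iN c := rfl
    rw [h4]
    field_simp
    linear_combination (-(iN c)) * hIN
  -- the constant
  have hgen : ∀ n : N, n ∈ clF iN {o x} := by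
    refine hNgen (clF iN {o x}) ?_ ?_
    · refine mem_of_gen hM ((clF iN {o x}).comap o) ?_ ?_ ?_
      · intro c
        exact base_mem_clF c
      · exact mem_clF_of_mem rfl
      · show o y ∈ clF iN {o x}
        apply mem_clF_of_sq
        rw [hoy]
        have hox : o x ∈ clF iN {o x} := mem_clF_of_mem rfl
        have ha : iN a ∈ clF iN {o x} := base_mem_clF a
        have hu := sub_mem (pow_mem hox 2) (pow_mem ha 2)
        exact sub_mem (pow_mem hu 3) hu
    · apply mem_clF_of_sq
      rw [hXx]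
      have hox : o x ∈ clF iN {o x} := mem_clF_of_mem rfl
      have ha : iN (2 * a ^ 2) ∈ clF iN {o x} := base_mem_clF _
      rw [map_mul, map_pow, map_ofNat] at ha
      exact sub_mem ha (pow_mem hox 2)
  have hDox0 : D' (o x) ≠ 0 := by
    rw [hD'o]
    intro h
    rw [h, mul_zero] at hDox
    exact zero_ne_one hDox
  have hconst : ∀ n : N, D' n = 0 → ∃ c, iN c = n := fun n hn =>
    const_of_D_zero iN (o x) hgen D' hD'c hDox0 n hn
  obtain ⟨κ, hκ⟩ : ∃ κ : E k, Emap iN κ = Pt := by
    rcases exists_pt Pt with h0 | ⟨u, v, huv, hPt⟩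
    · exact ⟨0, by rw [h0, map_zero]⟩
    · have hDuv : 2 * v * D' v = (3 * u ^ 2 - 1) * D' u := by
        have h1 := congrArg D' huv
        simp only [map_sub, D'.leibniz_pow, Nat.add_one_sub_one, pow_one, smul_eq_mul,
          nsmul_eq_mul, Nat.cast_ofNat] at h1
        linear_combination h1
      have hu : D' u = 0 := by
        by_cases hv : v = 0
        · rw [hv, mul_zero, zero_mul] at hDuv
          rcases mul_eq_zero.1 hDuv.symm with h1 | h1
          · exfalso
            rw [hv] at huv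
            have h3 : (2 : N) * u = 0 := by linear_combination 3 * huv + u * h1
            have h4 : u = 0 := (mul_eq_zero.1 h3).resolve_left two_ne_zero
            rw [h4] at h1
            norm_num at h1
          · exact h1
        · rw [hPt, Dl_pt D' huv hv, div_eq_zero_iff] at hDl
          exact hDl.resolve_right hv
      have hv : D' v = 0 := by
        by_cases hv : v = 0
        · rw [hv, map_zero]
        · rw [hu, mul_zero] at hDuv
          exact (mul_eq_zero.1 hDuv).resolve_left (mul_ne_zero two_ne_zero hv)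
      obtain ⟨u0, hu0⟩ := hconst u hu
      obtain ⟨v0, hv0⟩ := hconst v hv
      rw [← hu0, ← hv0] at huv hPt
      exact ⟨pt u0 v0, by rw [hPt]; exact (exists_of_coord iN huv).2⟩
  refine ⟨κ, ?_⟩
  intro L _ _ i x0 x1 y0 hx0t hy0e hx01 j j2 hj hjx hjy hjc2 hj2x hj2y
  have hj' : ∀ c, j (iM c) = i c := fun c => RingHom.congr_fun hj c
  have hj2' : ∀ c, j2 (iM c) = i c := fun c => RingHom.congr_fun hjc2 c
  obtain ⟨J, hJo, hJX⟩ := hNlift L j x1 (by
    rw [map_sub, map_mul, map_pow, map_pow, map_ofNat, hj', hjx]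
    linear_combination hx01)
  have hJo' : ∀ m, J (o m) = j m := fun m => RingHom.congr_fun hJo m
  have hJi : J.comp iN = i := by
    rw [← hj, ← hJo]
    rfl
  have hJi' : ∀ c, J (iN c) = i c := fun c => RingHom.congr_fun hJi c
  have hJj : J.comp j' = j2 := by
    refine hom_ext hM ?_ ?_ ?_
    · intro c
      rw [RingHom.comp_apply, hj1', hJi', hj2']
    · rw [RingHom.comp_apply, hj2, hJX, hj2x]
    · rw [RingHom.comp_apply, hj3, map_mul, hJi', hJo', hjy, hj2y]
  have e1 : Emap J Pt = Emap i κ := by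
    rw [← hκ, ← Emap_comp, hJi]
  rw [← e1]
  show _ = Emap J (Emap j' B - imul (iN I) hIN (Emap o B))
  rw [map_sub, ← Emap_comp, hJj, Emap_imul, ← Emap_comp, hJo]
  congr 1
  have hcongr : ∀ (I1 I2 : L) (h1 : I1 ^ 2 = -1) (h2 : I2 ^ 2 = -1), I1 = I2 → ∀ Q : E L,
      imul I1 h1 Q = imul I2 h2 Q := by
    rintro I1 I2 h1 h2 rfl Q
    rfl
  exact hcongr _ _ _ _ (hJi' I).symm _

end MP_d2f638_ag.Stab
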