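import Pool.Agent.Lib.MP_d2f638_ag.Stab.Stmts

/-!
# D3. Reduction of sums of integral points
-/

namespace MP_d2f638_ag.Stab

open Polynomial

namespace Sums

section

variable {L : Type} [Field L] {J : ℂ →+* L} (P : Place L J)

lemma red_of_mem {x : L} (h : x ∈ P.O) : P.red x = P.φ ⟨x, h⟩ := by
  unfold Place.red
  rw [dif_pos h]

lemma red_add {x y : L} (hx : x ∈ P.O) (hy : y ∈ P.O) : P.red (x + y) = P.red x + P.red y := by
  rw [red_of_mem P hx, red_of_mem P hy, red_of_mem P (P.O.add_mem hx hy), ← map_add]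
  rfl

lemma red_neg {x : L} (hx : x ∈ P.O) : P.red (-x) = -P.red x := by
  rw [red_of_mem P hx, red_of_mem P (P.O.neg_mem hx), ← map_neg]
  rfl

lemma red_sub {x y : L} (hx : x ∈ P.O) (hy : y ∈ P.O) : P.red (x - y) = P.red x - P.red y := by
  rw [sub_eq_add_neg, red_add P hx (P.O.neg_mem hy), red_neg P hy, sub_eq_add_neg]

lemma red_mul {x y : L} (hx : x ∈ P.O) (hy : y ∈ P.O) : P.red (x * y) = P.red x * P.red y := by
  rw [red_of_mem P hx, red_of_mem P hy, red_of_mem P (P.O.mul_mem hx hy), ← map_mul]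
  rfl

lemma red_pow {x : L} (hx : x ∈ P.O) (n : ℕ) : P.red (x ^ n) = P.red x ^ n := by
  rw [red_of_mem P hx, red_of_mem P (P.O.pow_mem hx n), ← map_pow]
  rfl

lemma red_J (c : ℂ) : P.red (J c) = c := by
  rw [red_of_mem P (P.memJ c), P.φJ]

variable [CharZero L]

/-- Integral points and their reductions. -/
def IsRed (p : E L) (q : E ℂ) : Prop :=
  ∃ u v : L, u ∈ P.O ∧ v ∈ P.O ∧ v ^ 2 = u ^ 3 - u ∧ p = pt u v ∧ q = pt (P.red u) (P.red v)

omit [CharZero L] in
lemma red_eqn {u v : L} (hu : u ∈ P.O) (hv : v ∈ P.O) (h : v ^ 2 = u ^ 3 - u) :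
    (P.red v) ^ 2 = (P.red u) ^ 3 - P.red u := by
  rw [← red_pow P hv, ← red_pow P hu, ← red_sub P (P.O.pow_mem hu 3) hu, h]

lemma isRed_add {p q : E L} {p' q' : E ℂ} (hp : IsRed P p p') (hq : IsRed P q q')
    (h1 : p' ≠ q') (h2 : p' ≠ -q') : IsRed P (p + q) (p' + q') := by
  obtain ⟨u1, v1, hu1, hv1, e1, rfl, rfl⟩ := hp
  obtain ⟨u2, v2, hu2, hv2, e2, rfl, rfl⟩ := hq
  have e1' := red_eqn P hu1 hv1 e1
  have e2' := red_eqn P hu2 hv2 e2
  have hne : P.red u1 ≠ P.red u2 := by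
    intro h
    have h3 : (P.red v1 - P.red v2) * (P.red v1 + P.red v2) = 0 := by
      have : (P.red v1) ^ 2 = (P.red v2) ^ 2 := by rw [e1', e2', h]
      linear_combination this
    rcases mul_eq_zero.1 h3 with h4 | h4
    · exact h1 (by rw [h, sub_eq_zero.1 h4])
    · exact h2 (by rw [neg_pt e2', h, eq_neg_of_add_eq_zero_left h4])
  have hd : u1 - u2 ∈ P.O := P.O.sub_mem hu1 hu2
  have hrd : P.red (u1 - u2) ≠ 0 := by
    rw [red_sub P hu1 hu2]
    exact sub_ne_zero.2 hne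
  have hinv : (u1 - u2)⁻¹ ∈ P.O := by
    have := P.inv ⟨u1 - u2, hd⟩ (by rw [← red_of_mem P hd]; exact hrd)
    exact this
  have hd0 : u1 - u2 ≠ 0 := by
    intro h
    apply hrd
    rw [h, ← map_zero J, red_J]
  set l : L := (v1 - v2) * (u1 - u2)⁻¹ with hl
  have hlO : l ∈ P.O := P.O.mul_mem (P.O.sub_mem hv1 hv2) hinv
  have hle : l * (u1 - u2) = v1 - v2 := by
    rw [hl, inv_mul_cancel_right₀ hd0]
  have hrl : P.red l * (P.red u1 - P.red u2) = P.red v1 - P.red v2 := by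
    rw [← red_sub P hu1 hu2, ← red_mul P hlO hd, hle, red_sub P hv1 hv2]
  set x3 : L := l ^ 2 - u1 - u2 with hx3
  set y3 : L := -(l * (x3 - u1) + v1) with hy3
  have hx3O : x3 ∈ P.O := P.O.sub_mem (P.O.sub_mem (P.O.pow_mem hlO 2) hu1) hu2
  have hlx : l * (x3 - u1) ∈ P.O := P.O.mul_mem hlO (P.O.sub_mem hx3O hu1)
  have hy3O : y3 ∈ P.O := P.O.neg_mem (P.O.add_mem hlx hv1)
  have hx3r : P.red x3 = P.red l ^ 2 - P.red u1 - P.red u2 := by
    rw [hx3, red_sub P (P.O.sub_mem (P.O.pow_mem hlO 2) hu1) hu2,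
      red_sub P (P.O.pow_mem hlO 2) hu1, red_pow P hlO]
  have hy3r : P.red y3 = -(P.red l * (P.red x3 - P.red u1) + P.red v1) := by
    rw [hy3, red_neg P (P.O.add_mem hlx hv1), red_add P hlx hv1,
      red_mul P hlO (P.O.sub_mem hx3O hu1), red_sub P hx3O hu1]
  have hne' : u1 ≠ u2 := fun h => hd0 (sub_eq_zero.2 h)
  obtain ⟨e3, a3⟩ := pt_add_of_ne e1 e2 hne' hle hx3 hy3
  obtain ⟨e3', a3'⟩ := pt_add_of_ne e1' e2' hne hrl hx3r hy3r
  exact ⟨x3, y3, hx3O, hy3O, e3, a3, a3'⟩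

lemma isRed_J {T : E ℂ} (hT : T ≠ 0) : IsRed P (Emap J T) T := by
  rcases exists_pt T with h | ⟨x, y, h, rfl⟩
  · exact absurd h hT
  · refine ⟨J x, J y, P.memJ x, P.memJ y, eqn_map J h, Emap_pt J h, ?_⟩
    rw [red_J, red_J]

lemma isRed_unique {T q : E ℂ} (h : IsRed P (Emap J T) q) : T = q := by
  obtain ⟨u, v, hu, hv, e, h1, rfl⟩ := h
  rcases exists_pt T with h | ⟨x, y, h, rfl⟩
  · rw [h, map_zero] at h1
    exact absurd h1.symm (pt_ne_zero e)
  · rw [Emap_pt J h] at h1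
    obtain ⟨h2, h3⟩ := pt_inj (eqn_map J h) e h1
    rw [← h2, ← h3, red_J, red_J]

/-- Outside of a finite set of translations all partial sums are integral. -/
lemma exists_bad (M : Multiset L) (u v : L → L)
    (h : ∀ l ∈ M, u l ∈ P.O ∧ v l ∈ P.O ∧ v l ^ 2 = u l ^ 3 - u l) :
    ∃ B : Set (E ℂ), B.Finite ∧ ∀ T : E ℂ, T ∉ B → ∀ p : E L, IsRed P p T →
      IsRed P (p + (M.map (fun l => pt (u l) (v l))).sum)
        (T + (M.map (fun l => pt (P.red (u l)) (P.red (v l)))).sum) := by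
  induction M using Multiset.induction_on with
  | empty =>
    refine ⟨∅, Set.finite_empty, fun T _ p hp => ?_⟩
    simpa using hp
  | cons a M ih =>
    obtain ⟨B, hB, ih⟩ := ih (fun l hl => h l (Multiset.mem_cons_of_mem hl))
    obtain ⟨ha1, ha2, ha3⟩ := h a (Multiset.mem_cons_self a M)
    set q : E ℂ := pt (P.red (u a)) (P.red (v a)) with hq
    refine ⟨{q, -q} ∪ (fun T => T + q) ⁻¹' B, ?_, ?_⟩
    · refine Set.Finite.union (Set.toFinite _) (hB.preimage ?_)
      exact (add_left_injective q).injOn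
    · intro T hT p hp
      have h1 : T ≠ q := fun e => hT (Or.inl (by simp [e]))
      have h2 : T ≠ -q := fun e => hT (Or.inl (by simp [e]))
      have h3 : T + q ∉ B := fun e => hT (Or.inr e)
      have hr : IsRed P (pt (u a) (v a)) q := ⟨u a, v a, ha1, ha2, ha3, rfl, hq⟩
      have := ih (T + q) h3 _ (isRed_add P hp hr h1 h2)
      rw [Multiset.map_cons, Multiset.sum_cons, Multiset.map_cons, Multiset.sum_cons,
        ← add_assoc, ← add_assoc]
      exact this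

end

lemma infinite_E : Infinite (E ℂ) := by
  have hex : ∀ n : ℕ, ∃ y : ℂ, y ^ 2 = (n : ℂ) ^ 3 - n := fun n =>
    IsAlgClosed.exists_pow_nat_eq _ (by norm_num)
  choose y hy using hex
  refine Infinite.of_injective (fun n : ℕ => pt (n : ℂ) (y n)) ?_
  intro n m hnm
  have := (pt_inj (hy n) (hy m) hnm).1
  exact_mod_cast this

end Sums

open Sums in
/-- D3. -/
theorem sums : stSums := by
  intro L _ _ J P M u v h S0 hS
  obtain ⟨B, hB, hT⟩ := exists_bad P M u v h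
  have := infinite_E
  obtain ⟨T, hTB⟩ := (hB.union (Set.finite_singleton (0 : E ℂ))).exists_notMem
  have h1 : T ∉ B := fun e => hTB (Or.inl e)
  have h0 : T ≠ 0 := fun e => hTB (Or.inr e)
  have h2 := hT T h1 (Emap J T) (isRed_J P h0)
  rw [hS, ← map_add] at h2
  exact add_left_cancel (isRed_unique P h2)

end MP_d2f638_ag.Stab
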