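import Pool.Agent.Lib.MP_d2f638_ag.Stab.TheoremB
import Pool.Agent.Lib.MP_d2f638_ag.Stab.Rank
import Pool.Agent.Lib.MP_d2f638_ag.Stab.Nat
import Pool.Agent.Lib.MP_d2f638_ag.Stab.Gal
import Pool.Agent.Lib.MP_d2f638_ag.Stab.C1
import Pool.Agent.Lib.MP_d2f638_ag.Stab.CF
import Pool.Agent.Lib.MP_d2f638_ag.Stab.Mult
import Pool.Agent.Lib.MP_d2f638_ag.Stab.SecDeg
import Pool.Agent.Lib.MP_d2f638_ag.Stab.SecGen
import Pool.Agent.Lib.MP_d2f638_ag.Stab.Mob
import Pool.Agent.Lib.MP_d2f638_ag.Stab.Place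
import Pool.Agent.Lib.MP_d2f638_ag.Stab.Roots
import Pool.Agent.Lib.MP_d2f638_ag.Stab.Sums
import Pool.Agent.Lib.MP_d2f638_ag.Stab.EvRed
import Pool.Agent.Lib.MP_d2f638_ag.Stab.Deg
import Pool.Agent.Lib.MP_d2f638_ag.Stab.E0
import Pool.Agent.Lib.MP_d2f638_ag.Stab.P2
import Pool.Agent.Lib.MP_d2f638_ag.Stab.P3
import Pool.Agent.Lib.MP_d2f638_ag.Stab.Dlog
import Pool.Agent.Lib.MP_d2f638_ag.Stab.Reg
import Pool.Agent.Lib.MP_d2f638_ag.Stab.ODE
import Pool.Agent.Lib.MP_d2f638_ag.Stab.Der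
import Pool.Agent.Lib.MP_d2f638_ag.Stab.Log
import Pool.Agent.Lib.MP_d2f638_ag.Stab.Star

/-!
# Assembly of the modules of the second half
-/

namespace MP_d2f638_ag.Stab

theorem gal_st : stGal := gal nat

theorem log_st : stLog := log dlog reg ode der ext c1 cfhom

theorem star_st : stStar := star log_st dlog cfhom ext

theorem p2_st : stP2 := p2 e0

theorem p3_st : stP3 := p3 (secDeg snoc) (secMult snoc) mult secGen basis

theorem deg_st : stDeg := deg roots sums evRed place mob mult (secDeg snoc) (secMult snoc)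
  (lineMult snoc) secGen lineGen basis

theorem b_st (hConf : stConf) : stB :=
  theoremB snoc basis count gal_st c1 cfex cfhom deg_st e0 p2_st p3_st hConf star_st

end MP_d2f638_ag.Stab
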