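import Pool.Agent.Lib.MP_d2f638_ag.Stab.Stmts

/-!
# P4. Existence of the configuration
-/

namespace MP_d2f638_ag.Stab

open Polynomial

namespace ConfAux

/-- Algebraic independence of two numbers, from countable closures. -/
theorem ai_pair (hs : stSnoc) {k : Type} [Field k] (i : k →+* ℂ) (x y : ℂ)
    (hx : x ∉ clF i (Set.range (![] : Fin 0 → ℂ))) (hy : y ∉ clF i (Set.range ![x])) :
    AI i ![x, y] := by
  have h0 : AI i (![] : Fin 0 → ℂ) := by
    intro p hp h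
    obtain ⟨c, rfl⟩ : ∃ c, p = MvPolynomial.C c := ⟨_, MvPolynomial.eq_C_of_isEmpty p⟩
    rw [MvPolynomial.eval₂_C, map_eq_zero] at h
    exact hp (by rw [h, MvPolynomial.C_0])
  have e1 : (Fin.snoc (![] : Fin 0 → ℂ) x : Fin 1 → ℂ) = ![x] := by
    funext j
    fin_cases j
    rfl
  have e2 : (Fin.snoc (![x] : Fin 1 → ℂ) y : Fin 2 → ℂ) = ![x, y] := by
    funext j
    fin_cases j <;> rfl
  have h1 : AI i ![x] := by
    rw [← e1]
    exact (hs k ℂ i 0 ![] x).2 ⟨h0, hx⟩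
  rw [← e2]
  exact (hs k ℂ i 1 ![x] y).2 ⟨h1, hy⟩

/-- Avoiding a countable set in an interval. -/
theorem exists_avoid (Z : Set ℂ) (hZ : Z.Countable) {x y : ℝ} (hxy : x < y) :
    ∃ r : ℝ, x < r ∧ r < y ∧ (r : ℂ) ∉ Z := by
  have h1 : ((fun r : ℝ => (r : ℂ)) ⁻¹' Z).Countable :=
    hZ.preimage Complex.ofReal_injective
  have h2 : Dense ((fun r : ℝ => (r : ℂ)) ⁻¹' Z)ᶜ := h1.dense_compl ℝ
  obtain ⟨r, hr, hr1, hr2⟩ := h2.exists_between hxy
  exact ⟨r, hr1, hr2, hr⟩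

/-- The quartic polynomial. -/
theorem quartic (al be w0 w1 x : ℝ) : Ff al be x (w0 + w1 * x) =
    (1 + w1 ^ 2) * x ^ 4 + (2 * w0 * w1 + (al + be) * w1 ^ 2 - (al + be)) * x ^ 3 +
    (w0 ^ 2 + 2 * (al + be) * w0 * w1 + al * be * w1 ^ 2 + al * be - al ^ 2 - 1) * x ^ 2 +
    ((al + be) * w0 ^ 2 + 2 * (al * be) * w0 * w1 + (al + be) * (al ^ 2 + 1)) * x +
    (al * be * w0 ^ 2 - al * be * (al ^ 2 + 1)) := by
  unfold Ff Qf Rf
  ring

theorem final_ineq {c3 c4 c2 A : ℝ} (h1 : c3 ^ 2 < A) (h2 : A < c2) (h3 : 0 < A) (h4 : 1 ≤ c4) :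
    3 * c3 ^ 2 < 8 * c4 * c2 := by
  have h5 : 0 < c2 := h3.trans h2
  have h6 : c2 ≤ c4 * c2 := by
    have := mul_le_mul_of_nonneg_right h4 h5.le
    linarith
  linarith

/-- The other two roots of a quartic polynomial with two real roots. -/
theorem other_roots {c4 c3 c2 c1 c0 r1 r2 : ℝ} (h4 : 0 < c4)
    (hr : r1 ≠ r2) (h1 : c4 * r1 ^ 4 + c3 * r1 ^ 3 + c2 * r1 ^ 2 + c1 * r1 + c0 = 0)
    (h2 : c4 * r2 ^ 4 + c3 * r2 ^ 3 + c2 * r2 ^ 2 + c1 * r2 + c0 = 0)
    (hd : 3 * c3 ^ 2 < 8 * c4 * c2) :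
    ∃ r3 : ℂ, r3.im ≠ 0 ∧
      (c4 : ℂ) * r3 ^ 4 + c3 * r3 ^ 3 + c2 * r3 ^ 2 + c1 * r3 + c0 = 0 := by
  obtain ⟨p, hp⟩ : ∃ p : ℝ, p = c3 / c4 + (r1 + r2) := ⟨_, rfl⟩
  obtain ⟨q, hq⟩ : ∃ q : ℝ, q = c2 / c4 + p * (r1 + r2) - r1 * r2 := ⟨_, rfl⟩
  have e3 : c3 = c4 * (p - (r1 + r2)) := by rw [hp]; field_simp; ring
  have e2 : c2 = c4 * (q - p * (r1 + r2) + r1 * r2) := by rw [hq]; field_simp; ring
  -- the remainder
  obtain ⟨α, hα⟩ : ∃ α : ℝ, α = c1 - c4 * (p * (r1 * r2) - q * (r1 + r2)) := ⟨_, rfl⟩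
  obtain ⟨β, hβ⟩ : ∃ β : ℝ, β = c0 - c4 * q * (r1 * r2) := ⟨_, rfl⟩
  have e1 : c1 = α + c4 * (p * (r1 * r2) - q * (r1 + r2)) := by rw [hα]; ring
  have e0 : c0 = β + c4 * q * (r1 * r2) := by rw [hβ]; ring
  have f1 : α * r1 + β = 0 := by
    rw [e3, e2, e1, e0] at h1
    linear_combination h1
  have f2 : α * r2 + β = 0 := by
    rw [e3, e2, e1, e0] at h2
    linear_combination h2
  have hα0 : α = 0 := by
    have : α * (r1 - r2) = 0 := by linear_combination f1 - f2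
    rcases mul_eq_zero.1 this with h | h
    · exact h
    · exact absurd (sub_eq_zero.1 h) hr
  have hβ0 : β = 0 := by rw [hα0] at f1; linarith
  -- the discriminant
  have hdisc : 0 < 4 * q - p ^ 2 := by
    by_contra hcon
    push Not at hcon
    rw [e3, e2] at hd
    have h5 : 3 * (p - (r1 + r2)) ^ 2 < 8 * (q - p * (r1 + r2) + r1 * r2) := by
      have h6 : c4 ^ 2 * (3 * (p - (r1 + r2)) ^ 2) <
          c4 ^ 2 * (8 * (q - p * (r1 + r2) + r1 * r2)) := by nlinarith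
      exact lt_of_mul_lt_mul_left h6 (sq_nonneg _)
    nlinarith [sq_nonneg (p + (r1 + r2)), sq_nonneg (r1 - r2)]
  refine ⟨⟨-p / 2, Real.sqrt (4 * q - p ^ 2) / 2⟩, ?_, ?_⟩
  · have := Real.sqrt_pos.2 hdisc
    simp only [ne_eq, div_eq_zero_iff, OfNat.ofNat_ne_zero, or_false]
    exact this.ne'
  · set r3 : ℂ := ⟨-p / 2, Real.sqrt (4 * q - p ^ 2) / 2⟩ with hr3
    have hr3' : r3 = ((-p / 2 : ℝ) : ℂ) + ((Real.sqrt (4 * q - p ^ 2) / 2 : ℝ) : ℂ) * Complex.I := by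
      apply Complex.ext <;> simp [hr3]
    have hq3 : r3 ^ 2 + p * r3 + q = 0 := by
      have hs : ((Real.sqrt (4 * q - p ^ 2) : ℝ) : ℂ) ^ 2 = 4 * q - p ^ 2 := by
        rw [← Complex.ofReal_pow, Real.sq_sqrt hdisc.le]
        push_cast
        ring
      rw [hr3']
      push_cast
      linear_combination (1 / 4 : ℂ) * Complex.I ^ 2 * hs + ((4 * q - p ^ 2) / 4 : ℂ) *
        Complex.I_sq
    have e3' : (c3 : ℂ) = c4 * (p - (r1 + r2)) := by rw [e3]; push_cast; ring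
    have e2' : (c2 : ℂ) = c4 * (q - p * (r1 + r2) + r1 * r2) := by rw [e2]; push_cast; ring
    have e1' : (c1 : ℂ) = c4 * (p * (r1 * r2) - q * (r1 + r2)) := by
      rw [e1, hα0]; push_cast; ring
    have e0' : (c0 : ℂ) = c4 * q * (r1 * r2) := by rw [e0, hβ0]; push_cast; ring
    rw [e3', e2', e1', e0']
    linear_combination c4 * (r3 - r1) * (r3 - r2) * hq3

end ConfAux

open ConfAux in
theorem conf (hc : stCount) (hs : stSnoc) : stConf := by
  intro k _ _ i al be hrel hbe hal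
  -- bounds
  obtain ⟨w0, hw0, -, hw0Z⟩ := exists_avoid _ (hc k ℂ i (Set.range (![] : Fin 0 → ℂ))
    (Set.countable_range _)) (show (2 * al + be + 3 : ℝ) < 2 * al + be + 4 by linarith)
  have hw0p : 0 < w0 := by linarith
  obtain ⟨w1, hw1, hw1', hw1Z⟩ := exists_avoid _ (hc k ℂ i (Set.range ![(w0 : ℂ)])
    (Set.countable_range _)) (show (0 : ℝ) < 1 / w0 by positivity)
  have hai : AI i ![(w0 : ℂ), (w1 : ℂ)] := ai_pair hs i _ _ hw0Z hw1Z
  have hprod : w0 * w1 < 1 := by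
    rw [lt_div_iff₀ hw0p] at hw1'
    linarith
  have hprod0 : 0 < w0 * w1 := mul_pos hw0p hw1
  have hw1one : w1 < 1 := by
    by_contra hcon
    push Not at hcon
    nlinarith
  set P : ℝ → ℝ := fun x => Ff al be x (w0 + w1 * x) with hP
  have hcont : Continuous P := by
    rw [hP]
    unfold Ff Qf Rf
    fun_prop
  set s : ℝ := Real.sqrt (al ^ 2 + 1) with hsdef
  have hs2 : s ^ 2 = al ^ 2 + 1 := Real.sq_sqrt (by positivity)
  have hspos : 0 < s := Real.sqrt_pos.2 (by positivity)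
  have hals : al < s := by nlinarith
  have hsal : s < al + 1 := by nlinarith
  have hal0 : 0 < al := by linarith
  -- signs
  have g1 : 0 < P (-s) := by
    have hR : Rf al be (-s) = 0 := by
      unfold Rf
      have : (-s) ^ 2 - al ^ 2 - 1 = 0 := by rw [neg_sq, hs2]; ring
      rw [this, mul_zero]
    have hQ : 0 < Qf al be (-s) := by
      unfold Qf
      nlinarith
    have hW : w0 + w1 * (-s) ≠ 0 := by
      have : w1 * s < w0 := by nlinarith
      intro h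
      nlinarith
    change 0 < Ff al be (-s) (w0 + w1 * (-s))
    unfold Ff
    rw [hR, add_zero]
    positivity
  have g2 : P (-al) < 0 := by
    change Ff al be (-al) (w0 + w1 * (-al)) < 0
    unfold Ff Qf Rf
    have : (-al + al) * (-al + be) * (w0 + w1 * -al) ^ 2 +
        (-al - al) * (-al - be) * ((-al) ^ 2 - al ^ 2 - 1) = -(2 * al * (al + be)) := by ring
    rw [this]
    have : 0 < 2 * al * (al + be) := by positivity
    linarith
  have g3 : P (-be) < 0 := by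
    change Ff al be (-be) (w0 + w1 * (-be)) < 0
    unfold Ff Qf Rf
    have : (-be + al) * (-be + be) * (w0 + w1 * -be) ^ 2 +
        (-be - al) * (-be - be) * ((-be) ^ 2 - al ^ 2 - 1) =
          2 * be * (al + be) * (be ^ 2 - al ^ 2 - 1) := by ring
    rw [this, hrel]
    have : 0 < 2 * be * (al + be) := by positivity
    nlinarith
  have g4 : 0 < P be := by
    change 0 < Ff al be be (w0 + w1 * be)
    unfold Ff Qf Rf
    have : (be + al) * (be + be) * (w0 + w1 * be) ^ 2 +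
        (be - al) * (be - be) * (be ^ 2 - al ^ 2 - 1) =
          2 * be * (al + be) * (w0 + w1 * be) ^ 2 := by ring
    rw [this]
    positivity
  -- the real roots
  obtain ⟨r1, hr1, hr1P⟩ := intermediate_value_Ioo' (show -s ≤ -al by linarith)
    hcont.continuousOn ⟨g2, g1⟩
  obtain ⟨r2, hr2, hr2P⟩ := intermediate_value_Ioo (show -be ≤ be by linarith)
    hcont.continuousOn ⟨g3, g4⟩
  rw [Set.mem_Ioo] at hr1 hr2
  have hne : r1 ≠ r2 := by
    have : r1 < r2 := by linarith [hr1.2, hr2.1]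
    exact this.ne
  have k1 := hr1P
  have k2 := hr2P
  rw [hP] at k1 k2
  simp only at k1 k2
  have q1 := k1
  have q2 := k2
  rw [quartic] at q1 q2
  obtain ⟨r3, him, hr3⟩ := other_roots (by positivity) hne q1 q2 (by
    have h1 : (2 * w0 * w1 + (al + be) * w1 ^ 2 - (al + be)) ^ 2 < (2 + (al + be)) ^ 2 := by
      have m1 : 0 < (al + be) * w1 ^ 2 := by positivity
      have m2 : 2 * w0 * w1 = 2 * (w0 * w1) := by ring
      have m3 : w1 ^ 2 < 1 := by
        rw [sq_lt_one_iff₀ hw1.le]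
        exact hw1one
      have m4 : (al + be) * w1 ^ 2 < (al + be) * 1 :=
        mul_lt_mul_of_pos_left m3 (by linarith)
      apply sq_lt_sq'
      · rw [m2]; linarith
      · rw [m2]; linarith
    have h2 : (2 + (al + be)) ^ 2 <
        w0 ^ 2 + 2 * (al + be) * w0 * w1 + al * be * w1 ^ 2 + al * be - al ^ 2 - 1 := by
      have h3 : (2 * al + be + 3) ^ 2 < w0 ^ 2 := by
        apply sq_lt_sq'
        · linarith
        · exact hw0
      have h4 : 0 < al * be * w1 ^ 2 := by positivity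
      have h5 : 0 < al * be := by positivity
      have h6 : 0 < 2 * (al + be) * w0 * w1 := by positivity
      have h8 : (2 * al + be + 3) ^ 2 = (2 + (al + be)) ^ 2 +
          (2 * (2 + (al + be)) * (al + 1) + (al + 1) ^ 2) := by ring
      have h9 : al ^ 2 + 1 ≤ 2 * (2 + (al + be)) * (al + 1) + (al + 1) ^ 2 := by
        have h10 : 0 < 2 * (2 + (al + be)) * (al + 1) := by positivity
        have h11 : (al + 1) ^ 2 = al ^ 2 + 1 + 2 * al := by ring
        linarith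
      linarith
    have h3 : (0 : ℝ) < (2 + (al + be)) ^ 2 := by positivity
    have h7 : (1 : ℝ) ≤ 1 + w1 ^ 2 := by linarith [sq_nonneg w1]
    exact final_ineq h1 h2 h3 h7)
  refine ⟨w0, w1, r1, r2, r3, him, hr1.2, ?_, hr2.1, hr2.2, k1, k2, ?_, hai⟩
  · nlinarith [hr1.1, hr1.2]
  · have : Ff (al : ℂ) (be : ℂ) r3 (w0 + w1 * r3) =
        ((1 + w1 ^ 2 : ℝ) : ℂ) * r3 ^ 4 +
        ((2 * w0 * w1 + (al + be) * w1 ^ 2 - (al + be) : ℝ) : ℂ) * r3 ^ 3 +
        ((w0 ^ 2 + 2 * (al + be) * w0 * w1 + al * be * w1 ^ 2 + al * be - al ^ 2 - 1 : ℝ) : ℂ) *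
          r3 ^ 2 +
        (((al + be) * w0 ^ 2 + 2 * (al * be) * w0 * w1 + (al + be) * (al ^ 2 + 1) : ℝ) : ℂ) * r3 +
        ((al * be * w0 ^ 2 - al * be * (al ^ 2 + 1) : ℝ) : ℂ) := by
      unfold Ff Qf Rf
      push_cast
      ring
    rw [this]
    exact hr3

end MP_d2f638_ag.Stab
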