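import Pool.Agent.Lib.MP_d2f638_ag.Stab.Stmts

/-!
# Module D5, auxiliary lemmas, first part: weights, places, algebraic independence
-/

namespace MP_d2f638_ag.Stab

open Polynomial

namespace DegAux

/-! ## Weights -/

section weights

variable {k : Type} [Field k]

lemma wz_le {π : MvPolynomial (Fin 3) k} {e : Fin 3 →₀ ℕ} (he : e ∈ π.support) :
    e 1 + e 2 ≤ wzdeg π := by
  have h := MvPolynomial.le_weightedTotalDegree (w := ![0, 1, 1]) he
  simpa [wzdeg, Finsupp.weight_apply, Finsupp.sum_fintype, Fin.sum_univ_three] using h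

lemma w_le {π : MvPolynomial (Fin 3) k} {e : Fin 3 →₀ ℕ} (he : e ∈ π.support) :
    e 0 + e 1 + 2 * e 2 ≤ wdeg π := by
  have h := MvPolynomial.le_weightedTotalDegree (w := ![1, 1, 2]) he
  have h2 : e 0 + e 1 + e 2 * 2 ≤ wdeg π := by
    simpa [wdeg, Finsupp.weight_apply, Finsupp.sum_fintype, Fin.sum_univ_three] using h
  omega

lemma wz_attained {π : MvPolynomial (Fin 3) k} (h : π ≠ 0) :
    ∃ e ∈ π.support, e 1 + e 2 = wzdeg π := by
  have hne : π.support.Nonempty := MvPolynomial.support_nonempty.2 h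
  obtain ⟨e, he, h1⟩ := Finset.exists_mem_eq_sup π.support hne
    (fun s => Finsupp.weight ![0, 1, 1] s)
  refine ⟨e, he, ?_⟩
  have h2 : wzdeg π = Finsupp.weight ![0, 1, 1] e := h1
  rw [h2]
  simp [Finsupp.weight_apply, Finsupp.sum_fintype, Fin.sum_univ_three]

end weights

/-! ## The polynomial of a parametrised curve -/

section subs

variable {k L : Type} [Field k] [Field L] (i : k →+* L) (π : MvPolynomial (Fin 3) k)

lemma subsPar_comp (G : Par L) (q : L[X]) :
    (subsPar i π G).comp q = subsPar i π ⟨G.T.comp q, G.W.comp q, G.Z.comp q, G.D.comp q⟩ := by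
  unfold subsPar
  rw [Polynomial.sum_comp]
  refine Finset.sum_congr rfl fun e _ => ?_
  simp only [mul_comp, pow_comp, C_comp]

lemma subsPar_scale (T W Z D s : L[X]) :
    subsPar i π ⟨T, s * W, s * Z, s * D⟩ = s ^ wzdeg π * subsPar i π ⟨T, W, Z, D⟩ := by
  unfold subsPar
  rw [Finset.mul_sum]
  refine Finset.sum_congr rfl fun e he => ?_
  have h := wz_le he
  have h2 : s ^ wzdeg π = s ^ (e 1) * s ^ (e 2) * s ^ (wzdeg π - e 1 - e 2) := by
    rw [← pow_add, ← pow_add]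
    congr 1
    omega
  simp only
  rw [h2]
  ring

lemma subsPar_eval (G : Par L) {l : L} (hD : G.D.eval l ≠ 0) :
    (subsPar i π G).eval l = (G.D.eval l) ^ wzdeg π * MvPolynomial.eval₂ i (G.at l) π := by
  unfold subsPar
  rw [MvPolynomial.eval₂_eq', Finset.mul_sum, Polynomial.eval_finsetSum]
  refine Finset.sum_congr rfl fun e he => ?_
  have h := wz_le he
  have h2 : (G.D.eval l) ^ wzdeg π = (G.D.eval l) ^ (e 1) * (G.D.eval l) ^ (e 2) *
      (G.D.eval l) ^ (wzdeg π - e 1 - e 2) := by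
    rw [← pow_add, ← pow_add]
    congr 1
    omega
  simp only [eval_mul, eval_pow, eval_C, Fin.prod_univ_three, Par.at, Matrix.cons_val_zero,
    Matrix.cons_val_one, Matrix.cons_val, h2, div_pow]
  field_simp

end subs

/-! ## Places -/

section place

variable {L : Type} [Field L] {J : ℂ →+* L} (P : Place L J)

lemma red_eq (x : P.O) : P.red (x : L) = P.φ x := by
  unfold Place.red
  rw [dif_pos x.2]

lemma red_of {x : L} (h : x ∈ P.O) : P.red x = P.φ ⟨x, h⟩ := red_eq P ⟨x, h⟩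

lemma red_J (c : ℂ) : P.red (J c) = c := by
  rw [red_of P (P.memJ c), P.φJ]

lemma red_add {x y : L} (hx : x ∈ P.O) (hy : y ∈ P.O) : P.red (x + y) = P.red x + P.red y := by
  rw [red_of P hx, red_of P hy, red_of P (P.O.add_mem hx hy), ← map_add]
  rfl

lemma red_mul {x y : L} (hx : x ∈ P.O) (hy : y ∈ P.O) : P.red (x * y) = P.red x * P.red y := by
  rw [red_of P hx, red_of P hy, red_of P (P.O.mul_mem hx hy), ← map_mul]
  rfl

lemma red_sub {x y : L} (hx : x ∈ P.O) (hy : y ∈ P.O) : P.red (x - y) = P.red x - P.red y := by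
  rw [red_of P hx, red_of P hy, red_of P (P.O.sub_mem hx hy), ← map_sub]
  rfl

lemma red_zero : P.red 0 = 0 := by
  rw [red_of P P.O.zero_mem]
  exact map_zero P.φ

lemma red_one : P.red 1 = 1 := by
  rw [red_of P P.O.one_mem]
  exact map_one P.φ

lemma inv_mem {x : L} (hx : x ∈ P.O) (h : P.red x ≠ 0) :
    x⁻¹ ∈ P.O ∧ P.red x⁻¹ = (P.red x)⁻¹ := by
  have h1 : x⁻¹ ∈ P.O := by
    rw [red_of P hx] at h
    exact P.inv ⟨x, hx⟩ h
  refine ⟨h1, ?_⟩
  have hx0 : x ≠ 0 := by
    rintro rfl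
    exact h (red_zero P)
  have h2 := red_mul P hx h1
  rw [mul_inv_cancel₀ hx0, red_one] at h2
  exact eq_inv_of_mul_eq_one_right h2.symm

lemma div_mem {x y : L} (hx : x ∈ P.O) (hy : y ∈ P.O) (h : P.red y ≠ 0) :
    x / y ∈ P.O ∧ P.red (x / y) = P.red x / P.red y := by
  obtain ⟨h1, h2⟩ := inv_mem P hy h
  rw [div_eq_mul_inv, div_eq_mul_inv]
  exact ⟨P.O.mul_mem hx h1, by rw [red_mul P hx h1, h2]⟩

/-- `f` has integral coefficients and reduction `g`. -/
def IR (f : L[X]) (g : ℂ[X]) : Prop :=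
  ∃ F : P.O[X], F.map P.O.subtype = f ∧ F.map P.φ = g

variable {P}

lemma IR.add {f f' : L[X]} {g g' : ℂ[X]} (h : IR P f g) (h' : IR P f' g') :
    IR P (f + f') (g + g') := by
  obtain ⟨F, rfl, rfl⟩ := h
  obtain ⟨F', rfl, rfl⟩ := h'
  exact ⟨F + F', by rw [Polynomial.map_add], by rw [Polynomial.map_add]⟩

lemma IR.sub {f f' : L[X]} {g g' : ℂ[X]} (h : IR P f g) (h' : IR P f' g') :
    IR P (f - f') (g - g') := by
  obtain ⟨F, rfl, rfl⟩ := h
  obtain ⟨F', rfl, rfl⟩ := h'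
  exact ⟨F - F', by rw [Polynomial.map_sub], by rw [Polynomial.map_sub]⟩

lemma IR.mul {f f' : L[X]} {g g' : ℂ[X]} (h : IR P f g) (h' : IR P f' g') :
    IR P (f * f') (g * g') := by
  obtain ⟨F, rfl, rfl⟩ := h
  obtain ⟨F', rfl, rfl⟩ := h'
  exact ⟨F * F', by rw [Polynomial.map_mul], by rw [Polynomial.map_mul]⟩

lemma IR.pow {f : L[X]} {g : ℂ[X]} (h : IR P f g) (n : ℕ) : IR P (f ^ n) (g ^ n) := by
  obtain ⟨F, rfl, rfl⟩ := h
  exact ⟨F ^ n, by rw [Polynomial.map_pow], by rw [Polynomial.map_pow]⟩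

lemma IR.X : IR P (X : L[X]) (X : ℂ[X]) := ⟨Polynomial.X, by simp, by simp⟩

lemma IR.one : IR P (1 : L[X]) (1 : ℂ[X]) := ⟨1, by simp, by simp⟩

lemma IR.zero : IR P (0 : L[X]) (0 : ℂ[X]) := ⟨0, by simp, by simp⟩

lemma IR.C {x : L} {c : ℂ} (hx : x ∈ P.O) (hc : P.red x = c) : IR P (C x) (C c) := by
  refine ⟨Polynomial.C ⟨x, hx⟩, by simp, ?_⟩
  rw [Polynomial.map_C, ← red_of P hx, hc]

lemma IR.CJ (c : ℂ) : IR P (Polynomial.C (J c)) (Polynomial.C c) := IR.C (P.memJ c) (red_J P c)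

lemma IR.sum {ι : Type} (s : Finset ι) {f : ι → L[X]} {g : ι → ℂ[X]}
    (h : ∀ e ∈ s, IR P (f e) (g e)) : IR P (∑ e ∈ s, f e) (∑ e ∈ s, g e) := by
  classical
  induction s using Finset.induction_on with
  | empty => simpa using IR.zero
  | insert a t ha ih =>
    rw [Finset.sum_insert ha, Finset.sum_insert ha]
    exact (h a (Finset.mem_insert_self _ _)).add
      (ih fun e he => h e (Finset.mem_insert_of_mem he))

lemma IR.coeff {f : L[X]} {g : ℂ[X]} (h : IR P f g) :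
    (∀ n, f.coeff n ∈ P.O) ∧ ∀ n, P.red (f.coeff n) = g.coeff n := by
  obtain ⟨F, rfl, rfl⟩ := h
  refine ⟨fun n => ?_, fun n => ?_⟩
  · rw [Polynomial.coeff_map]
    exact (F.coeff n).2
  · rw [Polynomial.coeff_map, Polynomial.coeff_map]
    exact red_eq P (F.coeff n)

lemma IR.eval {f : L[X]} {g : ℂ[X]} (h : IR P f g) {l : L} (hl : l ∈ P.O) :
    f.eval l ∈ P.O ∧ P.red (f.eval l) = g.eval (P.red l) := by
  obtain ⟨F, rfl, rfl⟩ := h
  have h1 : (F.map P.O.subtype).eval l = ((F.eval ⟨l, hl⟩ : P.O) : L) := by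
    have := Polynomial.eval_map_apply (f := P.O.subtype) (p := F) (⟨l, hl⟩ : P.O)
    exact this
  have h2 : (F.map P.φ).eval (P.red l) = P.φ (F.eval ⟨l, hl⟩) := by
    rw [red_of P hl]
    exact Polynomial.eval_map_apply (f := P.φ) (p := F) (⟨l, hl⟩ : P.O)
  rw [h1, h2]
  exact ⟨(F.eval ⟨l, hl⟩).2, red_eq P _⟩

lemma IR.subsPar {k : Type} [Field k] (i : k →+* ℂ) (π : MvPolynomial (Fin 3) k)
    {T W Z D : L[X]} {T' W' Z' D' : ℂ[X]} (hT : IR P T T') (hW : IR P W W') (hZ : IR P Z Z')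
    (hD : IR P D D') :
    IR P (subsPar (J.comp i) π ⟨T, W, Z, D⟩) (subsPar i π ⟨T', W', Z', D'⟩) := by
  unfold Stab.subsPar
  refine IR.sum _ fun e _ => ?_
  exact ((((IR.CJ (i (π.coeff e))).mul (hT.pow _)).mul (hW.pow _)).mul (hZ.pow _)).mul (hD.pow _)

end place

/-! ## Algebraic independence and closure -/

section alg

variable {k L : Type} [Field k] [Field L] (i : k →+* L)

lemma AI_comp {m n : ℕ} {v : Fin n → L} (h : AI i v) (f : Fin m → Fin n)
    (hf : Function.Injective f) : AI i (v ∘ f) := by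
  intro p hp
  have h1 : MvPolynomial.rename f p ≠ 0 := fun h0 =>
    hp (MvPolynomial.rename_injective f hf (by rw [h0, map_zero]))
  have h2 := h _ h1
  rwa [MvPolynomial.eval₂_rename] at h2

lemma clF_base (T : Set L) (c : k) : i c ∈ clF i T := by
  have h : i c ∈ Subfield.closure (Set.range i ∪ T) :=
    Subfield.subset_closure (Or.inl ⟨c, rfl⟩)
  exact (algebraicClosure (Subfield.closure (Set.range i ∪ T)) L).algebraMap_mem ⟨_, h⟩

lemma clF_mem {T : Set L} {x : L} (hx : x ∈ T) : x ∈ clF i T := by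
  have h : x ∈ Subfield.closure (Set.range i ∪ T) := Subfield.subset_closure (Or.inr hx)
  exact (algebraicClosure (Subfield.closure (Set.range i ∪ T)) L).algebraMap_mem ⟨_, h⟩

lemma clF_root {T : Set L} {p : L[X]} (hp : p ≠ 0) (hc : ∀ n, p.coeff n ∈ clF i T) {x : L}
    (hx : p.eval x = 0) : x ∈ clF i T := by
  set K := Subfield.closure (Set.range i ∪ T) with hK
  have h1 : IsAlgebraic (algebraicClosure K L) x := by
    have hl : p ∈ Polynomial.lifts (algebraMap (algebraicClosure K L) L) := by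
      rw [Polynomial.lifts_iff_coeff_lifts]
      intro n
      exact ⟨⟨p.coeff n, hc n⟩, rfl⟩
    obtain ⟨q, hq⟩ := hl
    refine ⟨q, ?_, ?_⟩
    · rintro rfl
      apply hp
      rw [← hq]
      simp
    · rw [Polynomial.aeval_def, ← Polynomial.eval_map]
      have : q.map (algebraMap (algebraicClosure K L) L) = p := hq
      rw [this, hx]
  have h2 : IsAlgebraic K x := h1.restrictScalars K
  exact (mem_algebraicClosure_iff.2 h2)

end alg

end DegAux

end MP_d2f638_ag.Stab
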