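import Pool.Agent.Lib.MP_d2f638_ag.Stab.DegA

/-!
# Module D5, auxiliary lemmas, second part: multisets, degrees, reparametrisation
-/

namespace MP_d2f638_ag.Stab

open Polynomial

namespace DegAux

/-! ## Multisets -/

lemma uniq {α β : Type} [DecidableEq α] [DecidableEq β] (M : Multiset α) (φ : α → β) (c : α)
    (m : ℕ) (h1 : m ≤ M.count c) (h2 : (M.map φ).count (φ c) = m) :
    ∀ x ∈ M, φ x = φ c → x = c := by
  intro x hx hxc
  have h3 : Multiset.replicate m c ≤ M.filter (fun y => φ c = φ y) := by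
    rw [← Multiset.le_count_iff_replicate_le,
      Multiset.count_filter_of_pos (p := fun y => φ c = φ y) (a := c) rfl]
    exact h1
  have h4 : Multiset.card (M.filter (fun y => φ c = φ y)) = m := by
    rw [← h2, Multiset.count_map]
  have h5 := Multiset.eq_of_le_of_card_le h3 (by rw [h4, Multiset.card_replicate])
  have h6 : x ∈ M.filter (fun y => φ c = φ y) := Multiset.mem_filter.2 ⟨hx, hxc.symm⟩
  rw [← h5] at h6
  exact Multiset.eq_of_mem_replicate h6

/-! ## Degrees -/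

section deg

variable {k L : Type} [Field k] [Field L]

lemma nd_term {c : L} {T W Z D : L[X]} {dT dW dZ dD : ℕ} (hT : T.natDegree ≤ dT)
    (hW : W.natDegree ≤ dW) (hZ : Z.natDegree ≤ dZ) (hD : D.natDegree ≤ dD) (e0 e1 e2 n : ℕ) :
    (C c * T ^ e0 * W ^ e1 * Z ^ e2 * D ^ n).natDegree ≤
      e0 * dT + e1 * dW + e2 * dZ + n * dD := by
  have h0 : (C c * T ^ e0).natDegree ≤ e0 * dT := by
    have := natDegree_mul_le_of_le (natDegree_C c).le (natDegree_pow_le_of_le e0 hT)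
    simpa using this
  exact natDegree_mul_le_of_le (natDegree_mul_le_of_le (natDegree_mul_le_of_le h0
    (natDegree_pow_le_of_le e1 hW)) (natDegree_pow_le_of_le e2 hZ)) (natDegree_pow_le_of_le n hD)

lemma nd_line (i : k →+* L) (π : MvPolynomial (Fin 3) k) (x ρ κ : L) :
    (subsPar i π (lineP x ρ κ)).natDegree ≤ wzdeg π := by
  unfold subsPar
  refine natDegree_sum_le_of_forall_le _ _ fun e he => ?_
  have h := wz_le he
  have h1 : (C x : L[X]).natDegree ≤ 0 := (natDegree_C x).le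
  have h2 : (C κ * (X - C ρ)).natDegree ≤ 1 := by
    refine (natDegree_C_mul_le _ _).trans ?_
    rw [natDegree_X_sub_C]
  have h3 : (1 : L[X]).natDegree ≤ 0 := natDegree_one.le
  have h4 := nd_term (c := i (π.coeff e)) h1 natDegree_X_le h2 h3 (e 0) (e 1) (e 2)
    (wzdeg π - e 1 - e 2)
  refine h4.trans ?_
  omega

lemma nd_tri (i : k →+* L) (π : MvPolynomial (Fin 3) k) {G : Par L} (hT : G.T.natDegree ≤ 1)
    (hW : G.W.natDegree ≤ 2) (hZ : G.Z.natDegree ≤ 3) (hD : G.D.natDegree ≤ 1) :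
    (subsPar i π G).natDegree ≤ wzdeg π + wdeg π := by
  unfold subsPar
  refine natDegree_sum_le_of_forall_le _ _ fun e he => ?_
  have h := wz_le he
  have h' := w_le he
  refine (nd_term (c := i (π.coeff e)) hT hW hZ hD (e 0) (e 1) (e 2)
    (wzdeg π - e 1 - e 2)).trans ?_
  omega

lemma coeff_term {c t : L} {W Z D : L[X]} (hW : W.natDegree ≤ 1) (hZ : Z.natDegree ≤ 1)
    (hD : D.natDegree ≤ 1) (e0 e1 e2 n : ℕ) :
    (C c * (C t) ^ e0 * W ^ e1 * Z ^ e2 * D ^ n).coeff (e1 + e2 + n) =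
      c * t ^ e0 * W.coeff 1 ^ e1 * Z.coeff 1 ^ e2 * D.coeff 1 ^ n := by
  have hW' : (W ^ e1).natDegree ≤ e1 := by simpa using natDegree_pow_le_of_le e1 hW
  have hZ' : (Z ^ e2).natDegree ≤ e2 := by simpa using natDegree_pow_le_of_le e2 hZ
  have hD' : (D ^ n).natDegree ≤ n := by simpa using natDegree_pow_le_of_le n hD
  have h0 : (C c * (C t) ^ e0 : L[X]) = C (c * t ^ e0) := by rw [← C_pow, ← C_mul]
  have h1 : (C (c * t ^ e0) * W ^ e1).natDegree ≤ e1 := (natDegree_C_mul_le _ _).trans hW'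
  have h2 : (C (c * t ^ e0) * W ^ e1 * Z ^ e2).natDegree ≤ e1 + e2 :=
    natDegree_mul_le_of_le h1 hZ'
  have hW2 : (W ^ e1).coeff e1 = W.coeff 1 ^ e1 := by
    have := coeff_pow_of_natDegree_le (m := e1) hW
    simpa using this
  have hZ2 : (Z ^ e2).coeff e2 = Z.coeff 1 ^ e2 := by
    have := coeff_pow_of_natDegree_le (m := e2) hZ
    simpa using this
  have hD2 : (D ^ n).coeff n = D.coeff 1 ^ n := by
    have := coeff_pow_of_natDegree_le (m := n) hD
    simpa using this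
  rw [h0, coeff_mul_add_eq_of_natDegree_le h2 hD', coeff_mul_add_eq_of_natDegree_le h1 hZ',
    coeff_C_mul,
    hW2, hZ2, hD2]

/-- The curve appearing in the second chart. -/
noncomputable def GM (x ρ ws ν : L) : Par L := ⟨C x, C ws * X - C ρ, C ν * X, X - 1⟩

lemma GM_W (ρ ws : L) : (C ws * X - C ρ : L[X]).natDegree ≤ 1 := by
  compute_degree

lemma GM_Z (ν : L) : (C ν * X : L[X]).natDegree ≤ 1 := by
  compute_degree

lemma GM_D : (X - 1 : L[X]).natDegree ≤ 1 := by
  compute_degree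

lemma GM_nd (i : k →+* L) (π : MvPolynomial (Fin 3) k) (x ρ ws ν : L) :
    (subsPar i π (GM x ρ ws ν)).natDegree ≤ wzdeg π := by
  unfold subsPar
  refine natDegree_sum_le_of_forall_le _ _ fun e he => ?_
  have h := wz_le he
  have h1 : (C x : L[X]).natDegree ≤ 0 := (natDegree_C x).le
  refine (nd_term (c := i (π.coeff e)) h1 (GM_W ρ ws) (GM_Z ν) GM_D (e 0) (e 1) (e 2)
    (wzdeg π - e 1 - e 2)).trans ?_
  omega

lemma GM_coeff (i : k →+* L) (π : MvPolynomial (Fin 3) k) (x ρ ws ν : L) :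
    (subsPar i π (GM x ρ ws ν)).coeff (wzdeg π) = MvPolynomial.eval₂ i ![x, ws, ν] π := by
  unfold subsPar
  rw [MvPolynomial.eval₂_eq', finsetSum_coeff]
  refine Finset.sum_congr rfl fun e he => ?_
  have h := wz_le he
  have h1 : e 1 + e 2 + (wzdeg π - e 1 - e 2) = wzdeg π := by omega
  have h2 := coeff_term (c := i (π.coeff e)) (t := x) (GM_W ρ ws) (GM_Z ν)
    (GM_D (L := L)) (e 0) (e 1) (e 2) (wzdeg π - e 1 - e 2)
  rw [h1] at h2
  refine h2.trans ?_
  have h3 : (C ws * X - C ρ : L[X]).coeff 1 = ws := by simp [coeff_C]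
  have h4 : (C ν * X : L[X]).coeff 1 = ν := by simp
  have h5 : (X - 1 : L[X]).coeff 1 = 1 := by simp [coeff_one]
  rw [h3, h4, h5, Fin.prod_univ_three]
  simp
  ring

/-- The part of maximal degree in `w`, `z`. -/
noncomputable def topP (π : MvPolynomial (Fin 3) k) : MvPolynomial (Fin 3) k :=
  ∑ e ∈ π.support.filter (fun e => e 1 + e 2 = wzdeg π), MvPolynomial.monomial e (π.coeff e)

lemma topP_ne {π : MvPolynomial (Fin 3) k} (h : π ≠ 0) : topP π ≠ 0 := by
  obtain ⟨e, he, h1⟩ := wz_attained h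
  intro h2
  have h3 : (topP π).coeff e = π.coeff e := by
    unfold topP
    rw [MvPolynomial.coeff_sum, Finset.sum_eq_single e]
    · simp
    · intro b _ hb
      rw [MvPolynomial.coeff_monomial, if_neg hb]
    · intro h4
      exact absurd (Finset.mem_filter.2 ⟨he, h1⟩) h4
  rw [h2] at h3
  exact (MvPolynomial.mem_support_iff.1 he) (by simpa using h3.symm)

lemma GM_one (i : k →+* L) (π : MvPolynomial (Fin 3) k) (x ρ ws ν : L) :
    (subsPar i π (GM x ρ ws ν)).eval 1 = MvPolynomial.eval₂ i ![x, ws - ρ, ν] (topP π) := by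
  unfold subsPar topP
  rw [MvPolynomial.eval₂_sum, eval_finsetSum, Finset.sum_filter]
  refine Finset.sum_congr rfl fun e he => ?_
  have h := wz_le he
  split_ifs with h1
  · have h2 : wzdeg π - e 1 - e 2 = 0 := by omega
    rw [h2, MvPolynomial.eval₂_monomial, Finsupp.prod_fintype _ _ (by simp),
      Fin.prod_univ_three]
    simp [GM]
    ring
  · have h2 : wzdeg π - e 1 - e 2 ≠ 0 := by omega
    simp [GM, h2]

end deg

/-! ## Reparametrisation -/

section mob

variable {L : Type} [Field L]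

/-- Homogeneous substitution. -/
noncomputable def Hm (A B : L[X]) (d : ℕ) (p : L[X]) : L[X] :=
  ∑ j ∈ Finset.range (d + 1), C (p.coeff j) * A ^ j * B ^ (d - j)

lemma Hm_eval (A B : L[X]) (d : ℕ) (p : L[X]) (hd : p.natDegree ≤ d) (l : L)
    (hB : B.eval l ≠ 0) :
    (Hm A B d p).eval l = (B.eval l) ^ d * p.eval (A.eval l / B.eval l) := by
  rw [Polynomial.eval_eq_sum_range' (Nat.lt_succ_of_le hd)]
  unfold Hm
  rw [eval_finsetSum, Finset.mul_sum]
  refine Finset.sum_congr rfl fun j hj => ?_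
  have hj' : j ≤ d := Nat.lt_succ_iff.1 (Finset.mem_range.1 hj)
  have h2 : (B.eval l) ^ d = (B.eval l) ^ j * (B.eval l) ^ (d - j) := by
    rw [← pow_add]
    congr 1
    omega
  simp only [eval_mul, eval_pow, eval_C]
  rw [h2, div_pow]
  field_simp

lemma ext_off [Infinite L] {p q : L[X]} (c : L) (h : ∀ l, l ≠ c → p.eval l = q.eval l) :
    p = q := by
  have h1 : (X - C c) * p = (X - C c) * q := by
    refine Polynomial.funext fun l => ?_
    rw [eval_mul, eval_mul]
    by_cases hl : l = c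
    · simp [hl]
    · rw [h l hl]
  exact mul_left_cancel₀ (X_sub_C_ne_zero c) h1

variable {k : Type} [Field k]

lemma GM_at (x ρ ws ν : L) (hne : ws ≠ ρ) {l : L} (hl : l ≠ 1) :
    (GM x ρ ws ν).at l = (lineP x ρ (ν / (ws - ρ))).at ((ws * l - ρ) / (l - 1)) := by
  have h1 : ws - ρ ≠ 0 := sub_ne_zero.2 hne
  have h2 : l - 1 ≠ 0 := sub_ne_zero.2 hl
  funext j
  fin_cases j
  · simp [GM, lineP, Par.at]
  · simp [GM, lineP, Par.at]
  · simp [GM, lineP, Par.at]
    field_simp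
    ring

lemma GM_eval (i : k →+* L) (π : MvPolynomial (Fin 3) k) (x ρ ws ν : L) (hne : ws ≠ ρ) {l : L}
    (hl : l ≠ 1) : (subsPar i π (GM x ρ ws ν)).eval l =
      (l - 1) ^ wzdeg π *
        (subsPar i π (lineP x ρ (ν / (ws - ρ)))).eval ((ws * l - ρ) / (l - 1)) := by
  have h2 : l - 1 ≠ 0 := sub_ne_zero.2 hl
  have hD : (GM x ρ ws ν).D.eval l ≠ 0 := by simpa [GM] using h2
  have h9 : (GM x ρ ws ν).D.eval l = l - 1 := by simp [GM]
  rw [subsPar_eval i π _ hD, GM_at x ρ ws ν hne hl, h9]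
  have h7 : (lineP x ρ (ν / (ws - ρ))).D.eval ((ws * l - ρ) / (l - 1)) = 1 := by
    simp [lineP]
  have h5 : ((lineP x ρ (ν / (ws - ρ))).D.eval ((ws * l - ρ) / (l - 1))) ≠ 0 := by
    rw [h7]
    exact one_ne_zero
  rw [subsPar_eval i π (lineP x ρ (ν / (ws - ρ))) h5, h7, one_pow, one_mul]

lemma line_ne_zero [Infinite L] (i : k →+* L) (π : MvPolynomial (Fin 3) k) (x ρ ws ν : L)
    (hne : ws ≠ ρ) (h : subsPar i π (GM x ρ ws ν) ≠ 0) :
    subsPar i π (lineP x ρ (ν / (ws - ρ))) ≠ 0 := by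
  intro h0
  apply h
  refine ext_off 1 fun l hl => ?_
  rw [GM_eval i π x ρ ws ν hne hl, h0]
  simp

lemma GM_mult [Infinite L] (i : k →+* L) (π : MvPolynomial (Fin 3) k) (x ρ ws ν : L)
    (hne : ws ≠ ρ) (m0 : ℕ)
    (h : (subsPar i π (lineP x ρ (ν / (ws - ρ)))).rootMultiplicity ρ = m0)
    (h0 : subsPar i π (lineP x ρ (ν / (ws - ρ))) ≠ 0) :
    (subsPar i π (GM x ρ ws ν)).rootMultiplicity 0 = m0 := by
  classical
  have h1 : ws - ρ ≠ 0 := sub_ne_zero.2 hne
  set p := subsPar i π (lineP x ρ (ν / (ws - ρ))) with hp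
  have hpd : p.natDegree ≤ wzdeg π := nd_line i π x ρ _
  obtain ⟨p', hp', hnd⟩ := Polynomial.exists_eq_pow_rootMultiplicity_mul_and_not_dvd p h0 ρ
  rw [h] at hp'
  have hp'0 : p' ≠ 0 := by
    rintro rfl
    exact hnd (dvd_zero _)
  have hdeg : p'.natDegree + m0 ≤ wzdeg π := by
    have h3 : p.natDegree = m0 + p'.natDegree := by
      rw [hp', natDegree_mul (pow_ne_zero _ (X_sub_C_ne_zero ρ)) hp'0, natDegree_pow,
        natDegree_X_sub_C, mul_one]
    omega
  have hev : p'.eval ρ ≠ 0 := fun h4 => hnd (dvd_iff_isRoot.2 h4)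
  have hid : subsPar i π (GM x ρ ws ν) = (C (ws - ρ) * X) ^ m0 *
      Hm (C ws * X - C ρ) (X - 1) (wzdeg π - m0) p' := by
    refine ext_off 1 fun l hl => ?_
    have h2 : l - 1 ≠ 0 := sub_ne_zero.2 hl
    have hD : (GM x ρ ws ν).D.eval l ≠ 0 := by simpa [GM] using h2
    have hB : (X - 1 : L[X]).eval l ≠ 0 := by simpa using h2
    rw [subsPar_eval i π _ hD, GM_at x ρ ws ν hne hl, eval_mul,
      Hm_eval _ _ _ _ (by omega) _ hB]
    have h5 : ((lineP x ρ (ν / (ws - ρ))).D.eval ((ws * l - ρ) / (l - 1))) ≠ 0 := by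
      simp [lineP]
    have h6 := subsPar_eval i π (lineP x ρ (ν / (ws - ρ))) h5
    have h7 : (lineP x ρ (ν / (ws - ρ))).D.eval ((ws * l - ρ) / (l - 1)) = 1 := by
      simp [lineP]
    rw [h7, one_pow, one_mul, ← hp] at h6
    rw [← h6, hp', eval_mul, eval_pow, eval_pow]
    have h8 : (X - C ρ).eval ((ws * l - ρ) / (l - 1)) = (ws - ρ) * l / (l - 1) := by
      simp
      field_simp
      ring
    have h9 : (GM x ρ ws ν).D.eval l = l - 1 := by simp [GM]
    have h10 : (l - 1) ^ wzdeg π = (l - 1) ^ m0 * (l - 1) ^ (wzdeg π - m0) := by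
      rw [← pow_add]
      congr 1
      omega
    rw [h8, h9, h10]
    simp only [eval_mul, eval_sub, eval_C, eval_X, eval_one, div_pow]
    field_simp
  have hH : (Hm (C ws * X - C ρ) (X - 1) (wzdeg π - m0) p').eval 0 ≠ 0 := by
    rw [Hm_eval _ _ _ _ (by omega) _ (by simp)]
    simp only [eval_mul, eval_sub, eval_C, eval_X, eval_one, mul_zero, zero_sub]
    rw [neg_div_neg_eq, div_one]
    exact mul_ne_zero (pow_ne_zero _ (by simp)) hev
  have hH0 : Hm (C ws * X - C ρ) (X - 1) (wzdeg π - m0) p' ≠ 0 := by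
    intro h3
    rw [h3] at hH
    simp at hH
  have h11 : (C (ws - ρ) * X : L[X]) ^ m0 ≠ 0 :=
    pow_ne_zero _ (mul_ne_zero (C_ne_zero.2 h1) X_ne_zero)
  rw [hid, rootMultiplicity_mul (mul_ne_zero h11 hH0), mul_pow,
    rootMultiplicity_mul (by rwa [← mul_pow]), ← C_pow, rootMultiplicity_C,
    rootMultiplicity_eq_zero hH]
  have h12 : (X : L[X]) ^ m0 = (X - C 0) ^ m0 := by simp
  rw [h12, rootMultiplicity_X_sub_C_pow]
  simp

end mob

end DegAux

end MP_d2f638_ag.Stab
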