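import Pool.Agent.Lib.MP_d2f638_ag.Stab.DegB

/-!
# Module D5, auxiliary lemmas, third part: independence of the parameters
-/

namespace MP_d2f638_ag.Stab

open Polynomial

namespace DegAux

section indep

variable {k L : Type} [Field k] [Field L] (i : k →+* L)

lemma AI_sub_ne {n : ℕ} {v : Fin n → L} (h : AI i v) {p q : Fin n} (hpq : p ≠ q) :
    v p ≠ v q := by
  intro h1
  have h2 : (MvPolynomial.X p - MvPolynomial.X q : MvPolynomial (Fin n) k) ≠ 0 := by
    rw [sub_ne_zero]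
    intro h3
    exact hpq (MvPolynomial.X_injective h3)
  have h4 := h _ h2
  simp [h1] at h4

lemma AI_ne_zero {n : ℕ} {v : Fin n → L} (h : AI i v) (p : Fin n) : v p ≠ 0 := by
  have h4 := h _ (MvPolynomial.X_ne_zero (R := k) p)
  simpa using h4

/-- The coefficients of a polynomial lie in a subfield. -/
def CoefIn (K : Subfield L) (p : L[X]) : Prop := ∀ n, p.coeff n ∈ K

lemma CoefIn.C {K : Subfield L} {c : L} (h : c ∈ K) : CoefIn K (C c) := by
  intro n
  rw [coeff_C]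
  split_ifs
  · exact h
  · exact K.zero_mem

lemma CoefIn.X {K : Subfield L} : CoefIn K (X : L[X]) := by
  intro n
  rw [coeff_X]
  split_ifs
  · exact K.one_mem
  · exact K.zero_mem

lemma CoefIn.add {K : Subfield L} {p q : L[X]} (hp : CoefIn K p) (hq : CoefIn K q) :
    CoefIn K (p + q) := by
  intro n
  rw [coeff_add]
  exact K.add_mem (hp n) (hq n)

lemma CoefIn.sub {K : Subfield L} {p q : L[X]} (hp : CoefIn K p) (hq : CoefIn K q) :
    CoefIn K (p - q) := by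
  intro n
  rw [coeff_sub]
  exact K.sub_mem (hp n) (hq n)

lemma CoefIn.mul {K : Subfield L} {p q : L[X]} (hp : CoefIn K p) (hq : CoefIn K q) :
    CoefIn K (p * q) := by
  intro n
  rw [coeff_mul]
  exact K.sum_mem fun x _ => K.mul_mem (hp _) (hq _)

lemma CoefIn.one {K : Subfield L} : CoefIn K (1 : L[X]) := by
  intro n
  rw [coeff_one]
  split_ifs
  · exact K.one_mem
  · exact K.zero_mem

lemma CoefIn.pow {K : Subfield L} {p : L[X]} (hp : CoefIn K p) (n : ℕ) : CoefIn K (p ^ n) := by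
  induction n with
  | zero =>
    rw [pow_zero]
    exact CoefIn.one
  | succ n ih =>
    rw [pow_succ]
    exact ih.mul hp

/-- The value of `w` lies in the closure. -/
lemma w_mem {a b : k} {r ρ : L} (T : Set L) (hr : r ∈ clF i T) (hQ : Qf (i a) (i b) r ≠ 0)
    (h : Ff (i a) (i b) r ρ = 0) : ρ ∈ clF i T := by
  have hc : ∀ c : k, i c ∈ clF i T := clF_base i T
  refine clF_root i (p := C (Qf (i a) (i b) r) * X ^ 2 + C (Rf (i a) (i b) r)) ?_ ?_ ?_
  · intro h0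
    have h1 : (C (Qf (i a) (i b) r) * X ^ 2 + C (Rf (i a) (i b) r)).coeff 2 = 0 := by
      rw [h0, coeff_zero]
    rw [coeff_add, coeff_C_mul, coeff_X_pow, coeff_C] at h1
    simp at h1
    exact hQ h1
  · have hQ' : Qf (i a) (i b) r ∈ clF i T := by
      unfold Qf
      exact (clF i T).mul_mem ((clF i T).add_mem hr (hc a)) ((clF i T).add_mem hr (hc b))
    have hR' : Rf (i a) (i b) r ∈ clF i T := by
      unfold Rf
      exact (clF i T).mul_mem ((clF i T).mul_mem ((clF i T).sub_mem hr (hc a))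
        ((clF i T).sub_mem hr (hc b))) ((clF i T).sub_mem ((clF i T).sub_mem
          ((clF i T).pow_mem hr 2) ((clF i T).pow_mem (hc a) 2)) (clF i T).one_mem)
    exact ((CoefIn.C hQ').mul (CoefIn.X.pow 2)).add (CoefIn.C hR')
  · rw [← h]
    simp [Ff]

variable {i} in
lemma Qf_ne {a b : k} {n : ℕ} {v : Fin n → L} (h : AI i v) (p : Fin n) :
    Qf (i a) (i b) (v p) ≠ 0 := by
  have h1 : ∀ c : k, v p + i c ≠ 0 := by
    intro c
    have h2 : (MvPolynomial.X p + MvPolynomial.C c : MvPolynomial (Fin n) k) ≠ 0 := by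
      intro h3
      have h4 := congrArg (MvPolynomial.eval (fun _ => 1 - c)) h3
      simp at h4
    have h5 := h _ h2
    simpa using h5
  unfold Qf
  exact mul_ne_zero (h1 a) (h1 b)

lemma third_mem [CharZero k] {a b : k} {r1 ρ1 r3 ρ3 r5 ws : L} (T : Set L)
    (hb : b ^ 2 = a ^ 2 - 1) (ha : a ^ 2 ≠ 0) (h13 : r1 ≠ r3) (h15 : r1 ≠ r5)
    (hws : ws = ρ1 * (r5 - r3) / (r1 - r3) + ρ3 * (r5 - r1) / (r3 - r1))
    (hr1 : r1 ∈ clF i T) (hρ1 : ρ1 ∈ clF i T) (hr5 : r5 ∈ clF i T) (hw : ws ∈ clF i T)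
    (h : Ff (i a) (i b) r3 ρ3 = 0) : r3 ∈ clF i T := by
  have hc : ∀ c : k, i c ∈ clF i T := clF_base i T
  have hs : r5 - r1 ≠ 0 := sub_ne_zero.2 (Ne.symm h15)
  have h13' : r1 - r3 ≠ 0 := sub_ne_zero.2 h13
  have h31' : r3 - r1 ≠ 0 := sub_ne_zero.2 (Ne.symm h13)
  set σ : L := (ws - ρ1) / (r5 - r1) with hσ
  have hσm : σ ∈ clF i T := (clF i T).div_mem ((clF i T).sub_mem hw hρ1)
    ((clF i T).sub_mem hr5 hr1)
  set w : L[X] := C ρ1 + C σ * (X - C r1) with hwdef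
  set p : L[X] := (X + C (i a)) * (X + C (i b)) * w ^ 2 +
    (X - C (i a)) * (X - C (i b)) * (X ^ 2 - C (i a) ^ 2 - 1) with hpdef
  have hwm : CoefIn (clF i T) w :=
    (CoefIn.C hρ1).add ((CoefIn.C hσm).mul (CoefIn.X.sub (CoefIn.C hr1)))
  have hCa := CoefIn.C (hc a)
  have hCb := CoefIn.C (hc b)
  refine clF_root i (p := p) ?_ ?_ ?_
  · intro h0
    have h1 : p.eval (-(i a)) = 0 := by rw [h0, eval_zero]
    rw [hpdef] at h1
    simp only [eval_add, eval_mul, eval_sub, eval_pow, eval_X, eval_C, eval_one] at h1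
    have h2 : (2 : L) * i a * (i a + i b) = 0 := by
      have h3 : (-(i a)) ^ 2 - (i a) ^ 2 - 1 = -1 := by ring
      rw [h3] at h1
      linear_combination -h1
    have h4 : i (2 * a * (a + b)) = 0 := by
      rw [map_mul, map_mul, map_add, map_ofNat]
      exact h2
    have h5 : 2 * a * (a + b) = 0 := i.injective (by rw [h4, map_zero])
    have ha0 : a ≠ 0 := by
      rintro rfl
      simp at ha
    rcases mul_eq_zero.1 h5 with h6 | h6
    · rcases mul_eq_zero.1 h6 with h7 | h7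
      · exact two_ne_zero h7
      · exact ha0 h7
    · have h8 : b = -a := by linear_combination h6
      rw [h8] at hb
      have : (1 : k) = 0 := by linear_combination hb
      exact one_ne_zero this
  · exact (((CoefIn.X.add hCa).mul (CoefIn.X.add hCb)).mul (hwm.pow 2)).add
      (((CoefIn.X.sub hCa).mul (CoefIn.X.sub hCb)).mul
        (((CoefIn.X.pow 2).sub (hCa.pow 2)).sub CoefIn.one))
  · have hwe : w.eval r3 = ρ3 := by
      rw [hwdef]
      simp only [eval_add, eval_mul, eval_sub, eval_X, eval_C]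
      rw [hσ, hws]
      field_simp
      ring
    rw [hpdef]
    simp only [eval_add, eval_mul, eval_sub, eval_pow, eval_X, eval_C, eval_one, hwe]
    rw [← h]
    simp only [Ff, Qf, Rf]

end indep

/-- All the facts about the independence. -/
lemma facts (hBasis : stBasis) {k : Type} [Field k] [CharZero k] (i : k →+* ℂ) (a b : k)
    (r1 ρ1 r3 ρ3 r5 ρ5 μ : ℂ) (hb : b ^ 2 = a ^ 2 - 1) (ha : a ^ 2 ≠ 0)
    (h1 : Ff (i a) (i b) r1 ρ1 = 0) (h3 : Ff (i a) (i b) r3 ρ3 = 0)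
    (h5 : Ff (i a) (i b) r5 ρ5 = 0) (hAI : AI i ![r1, r3, r5, μ]) {ws ν : ℂ}
    (hws : ws = ρ1 * (r5 - r3) / (r1 - r3) + ρ3 * (r5 - r1) / (r3 - r1))
    (hν : ν = μ * (r5 - r1) * (r5 - r3)) :
    AI i ![r5, ws, ν] ∧ AI i ![r5, ws - ρ5, ν] ∧ AI i ![r5, ν / (ws - ρ5)] := by
  have h13 : r1 ≠ r3 := AI_sub_ne i hAI (p := 0) (q := 1) (by decide)
  have h15 : r1 ≠ r5 := AI_sub_ne i hAI (p := 0) (q := 2) (by decide)
  have h35 : r3 ≠ r5 := AI_sub_ne i hAI (p := 1) (q := 2) (by decide)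
  have hQ1 : Qf (i a) (i b) r1 ≠ 0 := Qf_ne hAI 0
  have hQ5 : Qf (i a) (i b) r5 ≠ 0 := Qf_ne hAI 2
  have hs51 : r5 - r1 ≠ 0 := sub_ne_zero.2 (Ne.symm h15)
  have hs53 : r5 - r3 ≠ 0 := sub_ne_zero.2 (Ne.symm h35)
  have hA : AI i ![r5, ws, ν, r1] := by
    refine hBasis k ℂ i 4 ![r1, r3, r5, μ] ![r5, ws, ν, r1] hAI ?_
    set T : Set ℂ := Set.range ![r5, ws, ν, r1] with hT
    have m5 : r5 ∈ clF i T := clF_mem i ⟨0, rfl⟩
    have mw : ws ∈ clF i T := clF_mem i ⟨1, rfl⟩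
    have mν : ν ∈ clF i T := clF_mem i ⟨2, rfl⟩
    have m1 : r1 ∈ clF i T := clF_mem i ⟨3, rfl⟩
    have mρ1 : ρ1 ∈ clF i T := w_mem i T m1 hQ1 h1
    have m3 : r3 ∈ clF i T := third_mem i T hb ha h13 h15 hws m1 mρ1 m5 mw h3
    have mμ : μ ∈ clF i T := by
      have h6 : μ = ν / ((r5 - r1) * (r5 - r3)) := by
        rw [hν]
        field_simp
      rw [h6]
      exact (clF i T).div_mem mν ((clF i T).mul_mem ((clF i T).sub_mem m5 m1)
        ((clF i T).sub_mem m5 m3))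
    intro j
    fin_cases j
    · exact m1
    · exact m3
    · exact m5
    · exact mμ
  have hB : AI i ![r5, ws, ν] := by
    have h6 := AI_comp i hA (m := 3) ![0, 1, 2] (by decide)
    have h7 : (![r5, ws, ν, r1] ∘ ![0, 1, 2] : Fin 3 → ℂ) = ![r5, ws, ν] := by
      funext j
      fin_cases j <;> rfl
    rwa [h7] at h6
  have hC : AI i ![r5, ws - ρ5, ν] := by
    refine hBasis k ℂ i 3 ![r5, ws, ν] ![r5, ws - ρ5, ν] hB ?_
    set T : Set ℂ := Set.range ![r5, ws - ρ5, ν] with hT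
    have m5 : r5 ∈ clF i T := clF_mem i ⟨0, rfl⟩
    have mw : ws - ρ5 ∈ clF i T := clF_mem i ⟨1, rfl⟩
    have mν : ν ∈ clF i T := clF_mem i ⟨2, rfl⟩
    have mρ5 : ρ5 ∈ clF i T := w_mem i T m5 hQ5 h5
    intro j
    fin_cases j
    · exact m5
    · have h6 : ws = (ws - ρ5) + ρ5 := by ring
      change ws ∈ clF i T
      rw [h6]
      exact (clF i T).add_mem mw mρ5
    · exact mν
  have hwne : ws - ρ5 ≠ 0 := AI_ne_zero i hC 1
  have hD : AI i ![r5, ν / (ws - ρ5), ws] := by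
    refine hBasis k ℂ i 3 ![r5, ws, ν] ![r5, ν / (ws - ρ5), ws] hB ?_
    set T : Set ℂ := Set.range ![r5, ν / (ws - ρ5), ws] with hT
    have m5 : r5 ∈ clF i T := clF_mem i ⟨0, rfl⟩
    have mκ : ν / (ws - ρ5) ∈ clF i T := clF_mem i ⟨1, rfl⟩
    have mw : ws ∈ clF i T := clF_mem i ⟨2, rfl⟩
    have mρ5 : ρ5 ∈ clF i T := w_mem i T m5 hQ5 h5
    intro j
    fin_cases j
    · exact m5
    · exact mw
    · have h6 : ν = ν / (ws - ρ5) * (ws - ρ5) := by
        rw [div_mul_cancel₀ _ hwne]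
      change ν ∈ clF i T
      rw [h6]
      exact (clF i T).mul_mem mκ ((clF i T).sub_mem mw mρ5)
  refine ⟨hB, hC, ?_⟩
  have h6 := AI_comp i hD (m := 2) ![0, 1] (by decide)
  have h7 : (![r5, ν / (ws - ρ5), ws] ∘ ![0, 1] : Fin 2 → ℂ) = ![r5, ν / (ws - ρ5)] := by
    funext j
    fin_cases j <;> rfl
  rwa [h7] at h6

end DegAux

end MP_d2f638_ag.Stab
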