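import Pool.Agent.Lib.MP_d2f638_ag.Stab.DegC

/-!
# Module D5, auxiliary lemmas, fourth part: the two charts
-/

namespace MP_d2f638_ag.Stab

open Polynomial

namespace DegAux

section charts

variable {L : Type} [Field L] {J : ℂ →+* L} (P : Place L J)

lemma red_c {r r' r'' ρ : ℂ} {τ : L} (hτ : τ ∈ P.O) (h1 : r ≠ r') (h2 : r ≠ r'') :
    J ρ * (J r - τ) / ((J r - J r') * (J r - J r'')) ∈ P.O ∧
      P.red (J ρ * (J r - τ) / ((J r - J r') * (J r - J r''))) =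
        ρ * (r - P.red τ) / ((r - r') * (r - r'')) := by
  have h3 : (J r - J r') * (J r - J r'') = J ((r - r') * (r - r'')) := by
    rw [map_mul, map_sub, map_sub]
  have h4 : J r - τ ∈ P.O := P.O.sub_mem (P.memJ r) hτ
  have h5 : J ρ * (J r - τ) ∈ P.O := P.O.mul_mem (P.memJ ρ) h4
  have h6 : P.red (J ((r - r') * (r - r''))) ≠ 0 := by
    rw [red_J]
    exact mul_ne_zero (sub_ne_zero.2 h1) (sub_ne_zero.2 h2)
  obtain ⟨h7, h8⟩ := div_mem P h5 (P.memJ ((r - r') * (r - r''))) h6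
  rw [h3]
  refine ⟨h7, ?_⟩
  rw [h8, red_mul P (P.memJ ρ) h4, red_sub P (P.memJ r) hτ, red_J, red_J, red_J]

variable {r1 ρ1 r3 ρ3 r5 ρ5 μ : ℂ}

lemma chart1 {τ : L} (hτ : τ ∈ P.O) (hτ5 : P.red τ = r5) (h13 : r1 ≠ r3) (h15 : r1 ≠ r5)
    (h35 : r3 ≠ r5) :
    IR P (triP (J r1) (J ρ1) (J r3) (J ρ3) (J r5) (J ρ5) τ (J μ)).W
      ((X - C r5) * (secP r1 ρ1 r3 ρ3 μ).W) ∧
    IR P (triP (J r1) (J ρ1) (J r3) (J ρ3) (J r5) (J ρ5) τ (J μ)).Z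
      ((X - C r5) * (secP r1 ρ1 r3 ρ3 μ).Z) ∧
    IR P (triP (J r1) (J ρ1) (J r3) (J ρ3) (J r5) (J ρ5) τ (J μ)).D
      ((X - C r5) * (secP r1 ρ1 r3 ρ3 μ).D) := by
  have s13 : r1 - r3 ≠ 0 := sub_ne_zero.2 h13
  have s31 : r3 - r1 ≠ 0 := sub_ne_zero.2 h13.symm
  have s15 : r1 - r5 ≠ 0 := sub_ne_zero.2 h15
  have s35 : r3 - r5 ≠ 0 := sub_ne_zero.2 h35
  have hX : ∀ c : ℂ, IR P (X - C (J c)) (X - C c) := fun c => IR.X.sub (IR.CJ c)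
  refine ⟨?_, ?_, ?_⟩
  · obtain ⟨c1, d1⟩ := red_c P (ρ := ρ1) hτ h13 h15
    obtain ⟨c3, d3⟩ := red_c P (ρ := ρ3) hτ h13.symm h35
    obtain ⟨c5, d5⟩ := red_c P (ρ := ρ5) hτ h15.symm h35.symm
    have h := (((IR.C c1 d1).mul ((hX r3).mul (hX r5))).add
      ((IR.C c3 d3).mul ((hX r1).mul (hX r5)))).add ((IR.C c5 d5).mul ((hX r1).mul (hX r3)))
    have e1 : ρ1 * (r1 - P.red τ) / ((r1 - r3) * (r1 - r5)) = ρ1 / (r1 - r3) := by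
      rw [hτ5]
      field_simp
    have e3 : ρ3 * (r3 - P.red τ) / ((r3 - r1) * (r3 - r5)) = ρ3 / (r3 - r1) := by
      rw [hτ5]
      field_simp
    have e5 : ρ5 * (r5 - P.red τ) / ((r5 - r1) * (r5 - r3)) = 0 := by
      rw [hτ5]
      simp
    rw [e1, e3, e5] at h
    have h2 : (C (ρ1 / (r1 - r3)) * ((X - C r3) * (X - C r5)) +
        C (ρ3 / (r3 - r1)) * ((X - C r1) * (X - C r5)) +
        C 0 * ((X - C r1) * (X - C r3)) : ℂ[X]) = (X - C r5) * (secP r1 ρ1 r3 ρ3 μ).W := by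
      simp only [secP, C_0]
      ring
    rw [← h2]
    exact h
  · have h := (IR.CJ (P := P) μ).mul (((hX r1).mul (hX r3)).mul (hX r5))
    have h2 : (C μ * ((X - C r1) * (X - C r3) * (X - C r5)) : ℂ[X]) =
        (X - C r5) * (secP r1 ρ1 r3 ρ3 μ).Z := by
      simp only [secP]
      ring
    rw [← h2]
    exact h
  · have h : IR P (X - C τ) (X - C r5) := IR.X.sub (IR.C hτ hτ5)
    have h2 : (X - C r5 : ℂ[X]) = (X - C r5) * (secP r1 ρ1 r3 ρ3 μ).D := by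
      simp only [secP]
      ring
    rw [← h2]
    exact h

/-- The curve in the second chart. -/
noncomputable def G2 (J : ℂ →+* L) (r1 ρ1 r3 ρ3 r5 ρ5 μ : ℂ) (ε : L) : Par L :=
  ⟨C ε * X + C (J r5),
    C (J ρ1 * (J r1 - (J r5 + ε)) / ((J r1 - J r3) * (J r1 - J r5))) *
        ((C ε * X + C (J r5) - C (J r3)) * X) +
      C (J ρ3 * (J r3 - (J r5 + ε)) / ((J r3 - J r1) * (J r3 - J r5))) *
        ((C ε * X + C (J r5) - C (J r1)) * X) -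
      C (J ρ5 / ((J r5 - J r1) * (J r5 - J r3))) *
        ((C ε * X + C (J r5) - C (J r1)) * (C ε * X + C (J r5) - C (J r3))),
    C (J μ) * ((C ε * X + C (J r5) - C (J r1)) * (C ε * X + C (J r5) - C (J r3)) * X),
    X - 1⟩

lemma chart2_W (ε : L) : (triP (J r1) (J ρ1) (J r3) (J ρ3) (J r5) (J ρ5) (J r5 + ε) (J μ)).W.comp
    (C ε * X + C (J r5)) = C ε * (G2 J r1 ρ1 r3 ρ3 r5 ρ5 μ ε).W := by
  have h1 : J ρ5 * (J r5 - (J r5 + ε)) / ((J r5 - J r1) * (J r5 - J r3)) =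
      -(ε * (J ρ5 / ((J r5 - J r1) * (J r5 - J r3)))) := by ring
  simp only [triP, G2, h1, add_comp, mul_comp, sub_comp, neg_comp, X_comp, C_comp, C_neg, C_mul]
  ring

lemma chart2_Z (ε : L) : (triP (J r1) (J ρ1) (J r3) (J ρ3) (J r5) (J ρ5) (J r5 + ε) (J μ)).Z.comp
    (C ε * X + C (J r5)) = C ε * (G2 J r1 ρ1 r3 ρ3 r5 ρ5 μ ε).Z := by
  simp only [triP, G2, mul_comp, sub_comp, X_comp, C_comp]
  ring

lemma chart2_D (ε : L) : (triP (J r1) (J ρ1) (J r3) (J ρ3) (J r5) (J ρ5) (J r5 + ε) (J μ)).D.comp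
    (C ε * X + C (J r5)) = C ε * (G2 J r1 ρ1 r3 ρ3 r5 ρ5 μ ε).D := by
  simp only [triP, G2, sub_comp, add_comp, X_comp, C_comp, C_add]
  ring

lemma chart2_comp {k : Type} [Field k] (i : k →+* L) (π : MvPolynomial (Fin 3) k) (ε : L) :
    (subsPar i π (triP (J r1) (J ρ1) (J r3) (J ρ3) (J r5) (J ρ5) (J r5 + ε) (J μ))).comp
      (C ε * X + C (J r5)) = C (ε ^ wzdeg π) * subsPar i π (G2 J r1 ρ1 r3 ρ3 r5 ρ5 μ ε) := by
  rw [subsPar_comp, chart2_W, chart2_Z, chart2_D, C_pow]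
  have h1 : (triP (J r1) (J ρ1) (J r3) (J ρ3) (J r5) (J ρ5) (J r5 + ε) (J μ)).T.comp
      (C ε * X + C (J r5)) = (G2 J r1 ρ1 r3 ρ3 r5 ρ5 μ ε).T := by
    simp only [triP, G2, X_comp]
  rw [h1, subsPar_scale]

lemma chart2_at (ε : L) (hε : ε ≠ 0) (l : L) :
    (triP (J r1) (J ρ1) (J r3) (J ρ3) (J r5) (J ρ5) (J r5 + ε) (J μ)).at (ε * l + J r5) =
      (G2 J r1 ρ1 r3 ρ3 r5 ρ5 μ ε).at l := by
  have hq : (C ε * X + C (J r5)).eval l = ε * l + J r5 := by simp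
  have hW := congrArg (Polynomial.eval l)
    (chart2_W (J := J) (r1 := r1) (ρ1 := ρ1) (r3 := r3) (ρ3 := ρ3) (r5 := r5) (ρ5 := ρ5)
      (μ := μ) ε)
  have hZ := congrArg (Polynomial.eval l)
    (chart2_Z (J := J) (r1 := r1) (ρ1 := ρ1) (r3 := r3) (ρ3 := ρ3) (r5 := r5) (ρ5 := ρ5)
      (μ := μ) ε)
  have hD := congrArg (Polynomial.eval l)
    (chart2_D (J := J) (r1 := r1) (ρ1 := ρ1) (r3 := r3) (ρ3 := ρ3) (r5 := r5) (ρ5 := ρ5)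
      (μ := μ) ε)
  rw [eval_comp, hq, eval_mul, eval_C] at hW hZ hD
  unfold Par.at
  rw [hW, hZ, hD, mul_div_mul_left _ _ hε, mul_div_mul_left _ _ hε]
  have hT : (triP (J r1) (J ρ1) (J r3) (J ρ3) (J r5) (J ρ5) (J r5 + ε) (J μ)).T.eval
      (ε * l + J r5) = (G2 J r1 ρ1 r3 ρ3 r5 ρ5 μ ε).T.eval l := by
    simp [triP, G2]
  rw [hT]

lemma chart2 {ε : L} (hε : ε ∈ P.O) (hε0 : P.red ε = 0) (h13 : r1 ≠ r3) (h15 : r1 ≠ r5)
    (h35 : r3 ≠ r5) {ws ν : ℂ}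
    (hws : ws = ρ1 * (r5 - r3) / (r1 - r3) + ρ3 * (r5 - r1) / (r3 - r1))
    (hν : ν = μ * (r5 - r1) * (r5 - r3)) :
    IR P (G2 J r1 ρ1 r3 ρ3 r5 ρ5 μ ε).T (GM r5 ρ5 ws ν).T ∧
    IR P (G2 J r1 ρ1 r3 ρ3 r5 ρ5 μ ε).W (GM r5 ρ5 ws ν).W ∧
    IR P (G2 J r1 ρ1 r3 ρ3 r5 ρ5 μ ε).Z (GM r5 ρ5 ws ν).Z ∧
    IR P (G2 J r1 ρ1 r3 ρ3 r5 ρ5 μ ε).D (GM r5 ρ5 ws ν).D := by
  have s13 : r1 - r3 ≠ 0 := sub_ne_zero.2 h13
  have s31 : r3 - r1 ≠ 0 := sub_ne_zero.2 h13.symm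
  have s15 : r1 - r5 ≠ 0 := sub_ne_zero.2 h15
  have s35 : r3 - r5 ≠ 0 := sub_ne_zero.2 h35
  have s51 : r5 - r1 ≠ 0 := sub_ne_zero.2 h15.symm
  have s53 : r5 - r3 ≠ 0 := sub_ne_zero.2 h35.symm
  have hτ : J r5 + ε ∈ P.O := P.O.add_mem (P.memJ r5) hε
  have hτ5 : P.red (J r5 + ε) = r5 := by
    rw [red_add P (P.memJ r5) hε, red_J, hε0, add_zero]
  have hq : IR P (C ε * X + C (J r5)) (C 0 * X + C r5) :=
    ((IR.C hε hε0).mul IR.X).add (IR.CJ r5)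
  have hq' : ∀ c : ℂ, IR P (C ε * X + C (J r5) - C (J c)) (C 0 * X + C r5 - C c) :=
    fun c => hq.sub (IR.CJ c)
  refine ⟨?_, ?_, ?_, ?_⟩
  · have h2 : (C 0 * X + C r5 : ℂ[X]) = (GM r5 ρ5 ws ν).T := by simp [GM]
    rw [← h2]
    exact hq
  · obtain ⟨c1, d1⟩ := red_c P (ρ := ρ1) hτ h13 h15
    obtain ⟨c3, d3⟩ := red_c P (ρ := ρ3) hτ h13.symm h35
    have e3 : (J r5 - J r1) * (J r5 - J r3) = J ((r5 - r1) * (r5 - r3)) := by
      rw [map_mul, map_sub, map_sub]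
    have e4 : J ρ5 / ((J r5 - J r1) * (J r5 - J r3)) = J (ρ5 / ((r5 - r1) * (r5 - r3))) := by
      rw [e3, ← map_div₀]
    have c5 : J ρ5 / ((J r5 - J r1) * (J r5 - J r3)) ∈ P.O := by
      rw [e4]
      exact P.memJ _
    have d5 : P.red (J ρ5 / ((J r5 - J r1) * (J r5 - J r3))) = ρ5 / ((r5 - r1) * (r5 - r3)) := by
      rw [e4, red_J]
    have h := (((IR.C c1 d1).mul ((hq' r3).mul IR.X)).add
      ((IR.C c3 d3).mul ((hq' r1).mul IR.X))).sub ((IR.C c5 d5).mul ((hq' r1).mul (hq' r3)))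
    have e1 : ρ1 * (r1 - P.red (J r5 + ε)) / ((r1 - r3) * (r1 - r5)) = ρ1 / (r1 - r3) := by
      rw [hτ5]
      field_simp
    have e3 : ρ3 * (r3 - P.red (J r5 + ε)) / ((r3 - r1) * (r3 - r5)) = ρ3 / (r3 - r1) := by
      rw [hτ5]
      field_simp
    rw [e1, e3] at h
    have h2 : (C (ρ1 / (r1 - r3)) * ((C 0 * X + C r5 - C r3) * X) +
        C (ρ3 / (r3 - r1)) * ((C 0 * X + C r5 - C r1) * X) -
        C (ρ5 / ((r5 - r1) * (r5 - r3))) *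
          ((C 0 * X + C r5 - C r1) * (C 0 * X + C r5 - C r3)) : ℂ[X]) =
        (GM r5 ρ5 ws ν).W := by
      simp only [GM, C_0, zero_mul, zero_add]
      rw [← C_sub, ← C_sub]
      have e6 : C (ρ5 / ((r5 - r1) * (r5 - r3))) * (C (r5 - r1) * C (r5 - r3)) = C ρ5 := by
        rw [← C_mul, ← C_mul, div_mul_cancel₀ _ (mul_ne_zero s51 s53)]
      have e7 : C (ρ1 / (r1 - r3)) * (C (r5 - r3) * X) +
          C (ρ3 / (r3 - r1)) * (C (r5 - r1) * X) = C ws * X := by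
        rw [← mul_assoc, ← mul_assoc, ← C_mul, ← C_mul, ← add_mul, ← C_add, hws]
        congr 2
        ring
      rw [e6, e7]
    rw [← h2]
    exact h
  · have h := (IR.CJ (P := P) μ).mul (((hq' r1).mul (hq' r3)).mul IR.X)
    have h2 : (C μ * ((C 0 * X + C r5 - C r1) * (C 0 * X + C r5 - C r3) * X) : ℂ[X]) =
        (GM r5 ρ5 ws ν).Z := by
      simp only [GM, C_0, zero_mul, zero_add, hν, C_mul, C_sub]
      ring
    rw [← h2]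
    exact h
  · exact IR.X.sub IR.one

variable {P} in
lemma at_red {T W Z D : L[X]} {T' W' Z' D' : ℂ[X]} (hT : IR P T T') (hW : IR P W W')
    (hZ : IR P Z Z') (hD : IR P D D') {l : L} (hl : l ∈ P.O) (hne : D'.eval (P.red l) ≠ 0) :
    ∀ j, (Par.mk T W Z D).at l j ∈ P.O ∧
      P.red ((Par.mk T W Z D).at l j) = (Par.mk T' W' Z' D').at (P.red l) j := by
  obtain ⟨t1, t2⟩ := hT.eval hl
  obtain ⟨w1, w2⟩ := hW.eval hl
  obtain ⟨z1, z2⟩ := hZ.eval hl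
  obtain ⟨d1, d2⟩ := hD.eval hl
  have hd : P.red (D.eval l) ≠ 0 := by rwa [d2]
  obtain ⟨a1, a2⟩ := div_mem P w1 d1 hd
  obtain ⟨b1, b2⟩ := div_mem P z1 d1 hd
  intro j
  fin_cases j
  · exact ⟨t1, t2⟩
  · refine ⟨a1, ?_⟩
    change P.red (W.eval l / D.eval l) = _
    rw [a2, w2, d2]
    rfl
  · refine ⟨b1, ?_⟩
    change P.red (Z.eval l / D.eval l) = _
    rw [b2, z2, d2]
    rfl

end charts

end DegAux

end MP_d2f638_ag.Stab
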