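import Pool.Agent.Lib.MP_d2f638_ag.Stab.Stmts

/-!
# C4, C5: existence and extension of derivations in characteristic 0

A derivation of `k` extended by a prescribed value at a transcendental element `x` is the same as a
ring homomorphism from `k(X)` to the dual numbers of `M`; it extends to `M` because `M` is formally
smooth over `k(X)` (characteristic zero).
-/

namespace MP_d2f638_ag.Stab

open Polynomial

/-- field extensions in characteristic zero are formally smooth -/
theorem formallySmooth_of_charZero (K L : Type) [Field K] [Field L] [Algebra K L] [CharZero K] :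
    Algebra.FormallySmooth K L := by
  obtain ⟨s, hs⟩ := exists_isTranscendenceBasis K L
  have halg := hs.isAlgebraic_field
  exact Algebra.FormallySmooth.of_algebraicIndependent_of_isSeparable hs.1

/-- a homomorphism to the dual numbers over the identity gives a derivation -/
noncomputable def derOfHom {M : Type} [Field M] (s : M →+* TrivSqZeroExt M M)
    (hs : ∀ m, (s m).fst = m) : Derivation ℤ M M :=
  Derivation.mk' (AddMonoidHom.toIntLinearMap
    { toFun := fun m => (s m).snd
      map_zero' := by simp
      map_add' := fun a b => by simp }) fun a b => by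
    simp [hs, mul_comm]

theorem derOfHom_apply {M : Type} [Field M] (s : M →+* TrivSqZeroExt M M)
    (hs : ∀ m, (s m).fst = m) (m : M) : derOfHom s hs m = (s m).snd := rfl

/-- the homomorphism to the dual numbers given by a derivation -/
noncomputable def homOfDer {k M : Type} [Field k] [Field M] (iM : k →+* M)
    (D : Derivation ℤ k k) : k →+* TrivSqZeroExt M M where
  toFun c := TrivSqZeroExt.inl (iM c) + TrivSqZeroExt.inr (iM (D c))
  map_one' := by
    ext <;> simp
  map_zero' := by
    ext <;> simp
  map_add' a b := by
    ext <;> simp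
  map_mul' a b := by
    ext
    · simp
    · simp [mul_comm]

theorem extend_main (k M : Type) [Field k] [CharZero k] [Field M] (iM : k →+* M) (x : M)
    (hx : Trans iM x) (D : Derivation ℤ k k) (x' : M) :
    ∃ D' : Derivation ℤ M M, (∀ c, D' (iM c) = iM (D c)) ∧ D' x = x' := by
  classical
  -- the homomorphism on polynomials
  set g0 : k[X] →+* TrivSqZeroExt M M :=
    Polynomial.eval₂RingHom (homOfDer iM D) (TrivSqZeroExt.inl x + TrivSqZeroExt.inr x') with hg0
  set f0 : k[X] →+* M := Polynomial.eval₂RingHom iM x with hf0
  have hfst : ∀ p, (g0 p).fst = f0 p := by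
    intro p
    have h : ((TrivSqZeroExt.fstHom M M M).toRingHom.comp g0) = f0 := by
      apply Polynomial.ringHom_ext
      · intro c
        simp [hg0, hf0, homOfDer]
      · simp [hg0, hf0]
    exact congrArg (fun h => h p) h
  have hunit0 : ∀ p : nonZeroDivisors k[X], IsUnit (f0 p) := by
    intro p
    exact isUnit_iff_ne_zero.2 (hx p (nonZeroDivisors.ne_zero p.2))
  have hunit : ∀ p : nonZeroDivisors k[X], IsUnit (g0 p) := by
    intro p
    rw [TrivSqZeroExt.isUnit_iff_isUnit_fst, hfst]
    exact hunit0 p
  set f : FractionRing k[X] →+* M := IsLocalization.lift (M := nonZeroDivisors k[X]) hunit0 with hf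
  set g : FractionRing k[X] →+* TrivSqZeroExt M M :=
    IsLocalization.lift (M := nonZeroDivisors k[X]) hunit with hg
  have hfg : ∀ z, (g z).fst = f z := by
    intro z
    have h : ((TrivSqZeroExt.fstHom M M M).toRingHom.comp g) = f := by
      apply IsLocalization.ringHom_ext (nonZeroDivisors k[X])
      refine RingHom.ext fun p => ?_
      simp [hg, hf, hfst]
    exact congrArg (fun h => h z) h
  let aM : Algebra (FractionRing k[X]) M := f.toAlgebra
  let aT : Algebra (FractionRing k[X]) (TrivSqZeroExt M M) := g.toAlgebra
  have hsm : Algebra.FormallySmooth (FractionRing k[X]) M :=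
    formallySmooth_of_charZero (FractionRing k[X]) M
  let q : TrivSqZeroExt M M →ₐ[FractionRing k[X]] M :=
    { (TrivSqZeroExt.fstHom M M M).toRingHom with
      commutes' := fun z => hfg z }
  have hq : ∀ z, q z = z.fst := fun z => rfl
  have hqs : Function.Surjective q := fun m => ⟨TrivSqZeroExt.inl m, rfl⟩
  have hnil : IsNilpotent (RingHom.ker (q : TrivSqZeroExt M M →+* M)) := by
    have h : RingHom.ker (q : TrivSqZeroExt M M →+* M) = TrivSqZeroExt.kerIdeal M M := rfl
    rw [h]
    exact ⟨2, TrivSqZeroExt.kerIdeal_sq M M⟩
  let s : M →ₐ[FractionRing k[X]] TrivSqZeroExt M M :=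
    Algebra.FormallySmooth.liftOfSurjective (AlgHom.id (FractionRing k[X]) M) q hqs hnil
  have hs : ∀ m, (s m).fst = m := by
    intro m
    exact Algebra.FormallySmooth.liftOfSurjective_apply (AlgHom.id (FractionRing k[X]) M) q hqs
      hnil m
  have hsf : ∀ z, s (f z) = g z := fun z => s.commutes z
  have hsp : ∀ p : k[X], s (f0 p) = g0 p := by
    intro p
    have h1 : f (algebraMap k[X] (FractionRing k[X]) p) = f0 p := by
      simp [hf]
    have h2 : g (algebraMap k[X] (FractionRing k[X]) p) = g0 p := by
      simp [hg]
    rw [← h1, ← h2]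
    exact hsf _
  refine ⟨derOfHom s.toRingHom hs, fun c => ?_, ?_⟩
  · have h := hsp (C c)
    have h1 : f0 (C c) = iM c := by simp [hf0]
    have h2 : g0 (C c) = homOfDer iM D c := by simp [hg0]
    rw [h1, h2] at h
    change (s (iM c)).snd = iM (D c)
    rw [h]
    simp [homOfDer]
  · have h := hsp X
    have h1 : f0 X = x := by simp [hf0]
    have h2 : g0 X = TrivSqZeroExt.inl x + TrivSqZeroExt.inr x' := by simp [hg0]
    rw [h1, h2] at h
    change (s x).snd = x'
    rw [h]
    simp

theorem der : stDer := by
  intro k _ _ β hβ
  have hx : Trans (algebraMap ℚ k) β := by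
    intro p hp h
    exact hβ ⟨p, hp, h⟩
  obtain ⟨D, _, hD⟩ := extend_main ℚ k (algebraMap ℚ k) β hx 0 1
  exact ⟨D, hD⟩

theorem ext : stExt := by
  intro k M _ _ _ iM a x y h _ _ D x'
  exact extend_main k M iM x h.trans D x'

end MP_d2f638_ag.Stab
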