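import Pool.Agent.Lib.MP_d2f638_ag.Stab.StmtsA

/-!
# B5. Descent to a countable algebraically closed field
-/

namespace MP_d2f638_ag.Stab

open Polynomial

namespace DescAux

/-! ### The field -/

/-- A countable algebraically closed subfield of `ℂ`, stable under conjugation, which contains a
given countable set. -/
theorem exists_field (T : Set ℂ) (hT : T.Countable) :
    ∃ (k : Type) (_ : Field k) (_ : IsAlgClosed k) (_ : CharZero k) (_ : Countable k)
      (i : k →+* ℂ) (cj : k →+* k), (∀ c, i (cj c) = starRingEnd ℂ (i c)) ∧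
      ∀ x ∈ T, ∃ c, i c = x := by
  set T' : Set ℂ := T ∪ (starRingEnd ℂ) '' T with hT'
  have hT'c : T'.Countable := hT.union (hT.image _)
  set F0 : Subfield ℂ := Subfield.closure T' with hF0
  have hF0c : Countable F0 := by
    rw [← Cardinal.mk_le_aleph0_iff]
    have h1 := Subfield.cardinalMk_closure_le_max T'
    refine h1.trans ?_
    rw [max_le_iff]
    exact ⟨Cardinal.le_aleph0_iff_set_countable.2 hT'c, le_refl _⟩
  have hconj : ∀ x ∈ F0, starRingEnd ℂ x ∈ F0 := by
    intro x hx
    have h1 : F0 ≤ F0.comap (starRingEnd ℂ) := by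
      rw [hF0, Subfield.closure_le]
      intro y hy
      rw [SetLike.mem_coe, Subfield.mem_comap]
      apply Subfield.subset_closure
      rcases hy with hy | ⟨z, hz, rfl⟩
      · exact Or.inr ⟨y, hy, rfl⟩
      · left
        rw [Complex.conj_conj]
        exact hz
    exact h1 hx
  let c0 : F0 →+* F0 := (starRingEnd ℂ).restrict F0 F0 hconj
  let k : IntermediateField F0 ℂ := algebraicClosure F0 ℂ
  have hk : IsAlgClosed k :=
    (IsAlgClosed.algebraicClosure_eq_bot_iff (F := k) (E := ℂ)).1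
      (algebraicClosure.algebraicClosure_eq_bot F0 ℂ)
  have hkc : Countable k := by
    have h1 : Set.Countable {x : ℂ | IsAlgebraic F0 x} := Algebraic.countable F0 ℂ
    have h2 : (k : Set ℂ) = {x : ℂ | IsAlgebraic F0 x} := by
      ext x
      exact mem_algebraicClosure_iff
    have h3 : (k : Set ℂ).Countable := by rw [h2]; exact h1
    exact h3.to_subtype
  have hkconj : ∀ x ∈ k, starRingEnd ℂ x ∈ k := by
    intro x hx
    obtain ⟨p, hp0, hp⟩ := mem_algebraicClosure_iff.1 hx
    refine mem_algebraicClosure_iff.2 ⟨p.map c0, ?_, ?_⟩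
    · exact (Polynomial.map_ne_zero_iff c0.injective).2 hp0
    · rw [Polynomial.aeval_def, Polynomial.eval₂_map]
      have h1 : (algebraMap F0 ℂ).comp c0 = (starRingEnd ℂ).comp (algebraMap F0 ℂ) := rfl
      rw [h1, ← Polynomial.hom_eval₂, ← Polynomial.aeval_def, hp, map_zero]
  refine ⟨k, inferInstance, hk, inferInstance, hkc, algebraMap k ℂ,
    (starRingEnd ℂ).restrict k k hkconj, fun c => rfl, fun x hx => ?_⟩
  have h1 : x ∈ F0 := Subfield.subset_closure (Or.inl hx)
  exact ⟨⟨x, (algebraicClosure F0 ℂ).algebraMap_mem ⟨x, h1⟩⟩, rfl⟩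

/-! ### Descent of polynomials -/

variable {k : Type} [Field k]

theorem exists_retr (i : k →+* ℂ) : ∃ l : ℂ →+ k, (∀ c x, l (i c * x) = c * l x) ∧
    ∀ c, l (i c) = c := by
  let : Algebra k ℂ := i.toAlgebra
  obtain ⟨g, hg⟩ := LinearMap.exists_leftInverse_of_injective (Algebra.linearMap k ℂ)
    (LinearMap.ker_eq_bot.2 i.injective)
  refine ⟨g.toAddMonoidHom, fun c x => ?_, fun c => ?_⟩
  · have h1 := g.map_smul c x
    rw [Algebra.smul_def] at h1
    exact h1
  · exact LinearMap.congr_fun hg c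

theorem dvd_descent (i : k →+* ℂ) (p q : MvPolynomial (Fin 3) k)
    (h : MvPolynomial.map i p ∣ MvPolynomial.map i q) : p ∣ q := by
  classical
  obtain ⟨l, h1, h2⟩ := exists_retr i
  obtain ⟨g, hg⟩ := h
  refine ⟨∑ e ∈ g.support, MvPolynomial.monomial e (l (g.coeff e)), ?_⟩
  have h3 : ∀ e, (∑ e ∈ g.support, MvPolynomial.monomial e (l (g.coeff e)) :
      MvPolynomial (Fin 3) k).coeff e = l (g.coeff e) := by
    intro e
    rw [MvPolynomial.coeff_sum]
    simp only [MvPolynomial.coeff_monomial]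
    rw [Finset.sum_ite_eq']
    split_ifs with h
    · rfl
    · rw [MvPolynomial.notMem_support_iff.1 h, map_zero]
  ext e
  have h4 : l ((MvPolynomial.map i q).coeff e) = q.coeff e := by
    rw [MvPolynomial.coeff_map, h2]
  rw [← h4, hg, MvPolynomial.coeff_mul, MvPolynomial.coeff_mul, map_sum]
  refine Finset.sum_congr rfl fun x _ => ?_
  rw [h3, MvPolynomial.coeff_map, h1]

theorem exists_lift (i : k →+* ℂ) (p : MvPolynomial (Fin 3) ℂ)
    (h : ∀ e ∈ p.support, ∃ c, i c = p.coeff e) : ∃ q, MvPolynomial.map i q = p := by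
  classical
  choose! c hc using h
  refine ⟨∑ e ∈ p.support, MvPolynomial.monomial e (c e), ?_⟩
  rw [map_sum]
  conv_rhs => rw [p.as_sum]
  refine Finset.sum_congr rfl fun e he => ?_
  rw [MvPolynomial.map_monomial, hc e he]

theorem isUnit_descent (i : k →+* ℂ) (p : MvPolynomial (Fin 3) k)
    (h : IsUnit (MvPolynomial.map i p)) : IsUnit p := by
  rw [MvPolynomial.isUnit_iff] at h ⊢
  obtain ⟨h1, h2⟩ := h
  refine ⟨?_, fun j hj => ?_⟩
  · rw [MvPolynomial.coeff_map, isUnit_iff_ne_zero, Ne, map_eq_zero] at h1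
    exact isUnit_iff_ne_zero.2 h1
  · have h3 := h2 j hj
    rw [MvPolynomial.coeff_map, isNilpotent_iff_eq_zero, map_eq_zero] at h3
    rw [isNilpotent_iff_eq_zero]
    exact h3

theorem irreducible_descent (i : k →+* ℂ) (p : MvPolynomial (Fin 3) k)
    (h : Irreducible (MvPolynomial.map i p)) : Irreducible p := by
  refine ⟨fun h1 => h.not_isUnit (h1.map _), fun a b hab => ?_⟩
  have h1 : MvPolynomial.map i p = MvPolynomial.map i a * MvPolynomial.map i b := by
    rw [hab, map_mul]
  rcases h.isUnit_or_isUnit h1 with h2 | h2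
  · exact Or.inl (isUnit_descent i a h2)
  · exact Or.inr (isUnit_descent i b h2)

/-! ### The star operation -/

theorem eval₂_pstar {R : Type} [Field R] (g : k →+* R) (cj : k →+* k) (a b : k) (D : ℕ)
    (q : MvPolynomial (Fin 3) k) (hD : ∀ e ∈ q.support, e 2 ≤ D) (v : Fin 3 → R)
    (hv : v 2 ≠ 0) :
    MvPolynomial.eval₂ g v (pstar cj a b D q) = v 2 ^ D *
      MvPolynomial.eval₂ (g.comp cj) ![v 0, v 1, Ff (g a) (g b) (v 0) (v 1) / v 2] q := by
  unfold pstar
  rw [MvPolynomial.eval₂_sum, MvPolynomial.eval₂_eq', Finset.mul_sum]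
  refine Finset.sum_congr rfl fun e he => ?_
  have h1 : MvPolynomial.eval₂ g v (FP a b) = Ff (g a) (g b) (v 0) (v 1) := by
    unfold FP
    have := map_Ff (MvPolynomial.eval₂Hom g v) (MvPolynomial.C a) (MvPolynomial.C b)
      (MvPolynomial.X 0) (MvPolynomial.X 1)
    simp only [MvPolynomial.coe_eval₂Hom, MvPolynomial.eval₂_C, MvPolynomial.eval₂_X] at this
    exact this
  simp only [MvPolynomial.eval₂_mul, MvPolynomial.eval₂_pow, MvPolynomial.eval₂_C,
    MvPolynomial.eval₂_X, h1]
  rw [Fin.prod_univ_three]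
  simp only [Matrix.cons_val, RingHom.comp_apply]
  have h2 : v 2 ^ D = v 2 ^ (e 2) * v 2 ^ (D - e 2) := by
    rw [← pow_add]
    congr 1
    have := hD e he
    omega
  rw [h2, div_pow]
  have h3 : v 2 ^ (e 2) ≠ 0 := pow_ne_zero _ hv
  field_simp

end DescAux

open DescAux in
theorem desc : stDesc := by
  intro al be π κ _ φ sW p q hbe hal hrel htr hirr hodd hdvd hker hfrac hsW hpq hp1 hsp hsq
  -- common denominators
  obtain ⟨n1, d1, hd1, hn1⟩ := hfrac p
  obtain ⟨n2, d2, hd2, hn2⟩ := hfrac q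
  set gu : MvPolynomial (Fin 3) ℂ := n1 * d2 with hgu
  set gy : MvPolynomial (Fin 3) ℂ := n2 * d1 with hgy
  set h : MvPolynomial (Fin 3) ℂ := d1 * d2 with hh
  have hh0 : φ h ≠ 0 := by rw [hh, map_mul]; exact mul_ne_zero hd1 hd2
  have hpg : p * φ h = φ gu := by rw [hh, hgu, map_mul, map_mul, ← mul_assoc, hn1]
  have hqg : q * φ h = φ gy := by
    rw [hh, hgy, map_mul, map_mul, mul_comm (φ d1), ← mul_assoc, hn2]
  -- the field
  set T : Set ℂ := ((π.coeffs : Set ℂ) ∪ (gu.coeffs : Set ℂ)) ∪
    ((gy.coeffs : Set ℂ) ∪ (h.coeffs : Set ℂ)) ∪ {(al : ℂ), (be : ℂ)} with hT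
  have hTc : T.Countable := by
    apply Set.Finite.countable
    refine (((Finset.finite_toSet _).union (Finset.finite_toSet _)).union
      ((Finset.finite_toSet _).union (Finset.finite_toSet _))).union (Set.toFinite _)
  obtain ⟨k, ik, iac, icz, ict, i, cj, hcj, hTi⟩ := exists_field T hTc
  have lift : ∀ f : MvPolynomial (Fin 3) ℂ, (f.coeffs : Set ℂ) ⊆ T →
      ∃ g, MvPolynomial.map i g = f := by
    intro f hf
    refine exists_lift i f fun e he => hTi _ (hf ?_)
    exact MvPolynomial.coeff_mem_coeffs e (MvPolynomial.mem_support_iff.1 he)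
  obtain ⟨π', hπ'⟩ := lift π (by rw [hT]; intro x hx; exact Or.inl (Or.inl (Or.inl hx)))
  obtain ⟨gu', hgu'⟩ := lift gu (by rw [hT]; intro x hx; exact Or.inl (Or.inl (Or.inr hx)))
  obtain ⟨gy', hgy'⟩ := lift gy (by rw [hT]; intro x hx; exact Or.inl (Or.inr (Or.inl hx)))
  obtain ⟨h', hh'⟩ := lift h (by rw [hT]; intro x hx; exact Or.inl (Or.inr (Or.inr hx)))
  obtain ⟨a, ha⟩ := hTi (al : ℂ) (by rw [hT]; right; simp)
  obtain ⟨b, hb⟩ := hTi (be : ℂ) (by rw [hT]; right; simp)
  -- divisibility
  have key : ∀ f : MvPolynomial (Fin 3) k, φ (MvPolynomial.map i f) = 0 ↔ π' ∣ f := by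
    intro f
    rw [hker]
    constructor
    · intro h1
      rw [← hπ'] at h1
      exact dvd_descent i _ _ h1
    · rintro ⟨g, rfl⟩
      rw [map_mul, hπ']
      exact dvd_mul_right _ _
  have hirr' : Irreducible π' := irreducible_descent i π' (by rw [hπ']; exact hirr)
  have hndvd : ¬ π' ∣ h' := by
    rw [← key, hh']
    exact hh0
  have heqn : π' ∣ gy' ^ 2 * h' - (gu' ^ 3 - gu' * h' ^ 2) := by
    rw [← key]
    simp only [map_sub, map_mul, map_pow, hgy', hgu', hh', ← hpg, ← hqg]
    linear_combination (φ h) ^ 3 * hpq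
  let A : AD k := ⟨π', gu', gy', h', hirr', hndvd, heqn⟩
  -- the ring homomorphism to `κ`
  set g : k →+* κ := (φ.comp MvPolynomial.C).comp i with hg
  set v : Fin 3 → κ := fun j => φ (MvPolynomial.X j) with hv
  have hgv : ∀ f : MvPolynomial (Fin 3) k, φ (MvPolynomial.map i f) = MvPolynomial.eval₂ g v f := by
    intro f
    have h1 : (φ.comp (MvPolynomial.map i)) = MvPolynomial.eval₂Hom g v := by
      refine MvPolynomial.ringHom_ext (fun r => ?_) fun j => ?_
      · simp [hg]
      · simp [hv]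
    exact congrArg (fun ψ : MvPolynomial (Fin 3) k →+* κ => ψ f) h1
  have hFP : φ (FP (al : ℂ) be) = Ff (g a) (g b) (v 0) (v 1) := by
    unfold FP
    rw [map_Ff φ]
    simp only [hg, RingHom.comp_apply, ha, hb, hv]
  have hstar : v 2 ≠ 0 → ∀ (D : ℕ) (f : MvPolynomial (Fin 3) k), (∀ e ∈ f.support, e 2 ≤ D) →
      φ (MvPolynomial.map i (pstar cj a b D f)) = v 2 ^ D * sW (φ (MvPolynomial.map i f)) := by
    intro hv2 D f hD
    rw [hgv, hgv, eval₂_pstar g cj a b D f hD v hv2, MvPolynomial.hom_eval₂]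
    congr 1
    have h1 : sW.comp g = g.comp cj := by
      ext c
      simp only [hg, RingHom.comp_apply]
      rw [hsW.const, hcj]
    have h2 : (fun j => sW (v j)) = ![v 0, v 1, Ff (g a) (g b) (v 0) (v 1) / v 2] := by
      funext j
      fin_cases j
      · exact hsW.t
      · exact hsW.w
      · change sW (φ (MvPolynomial.X 2)) = _
        rw [hsW.z, hFP]
        rfl
    rw [h1, h2]
  have hPstar : ∀ P : Fin 3 → ℂ, P 2 ≠ 0 → ∀ (D : ℕ) (f : MvPolynomial (Fin 3) k),
      (∀ e ∈ f.support, e 2 ≤ D) →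
      MvPolynomial.eval₂ i P (pstar cj a b D f) =
        P 2 ^ D * starRingEnd ℂ (MvPolynomial.eval₂ i (sP al be P) f) := by
    intro P hP D f hD
    rw [eval₂_pstar i cj a b D f hD P hP, MvPolynomial.hom_eval₂]
    congr 1
    have h1 : i.comp cj = (starRingEnd ℂ).comp i := by
      ext c
      exact hcj c
    have h2 : (fun j => starRingEnd ℂ (sP al be P j)) =
        ![P 0, P 1, Ff (i a) (i b) (P 0) (P 1) / P 2] := by
      funext j
      fin_cases j
      · exact Complex.conj_conj _
      · exact Complex.conj_conj _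
      · change starRingEnd ℂ (Ff (al : ℂ) (be : ℂ) (starRingEnd ℂ (P 0)) (starRingEnd ℂ (P 1)) /
          starRingEnd ℂ (P 2)) = Ff (i a) (i b) (P 0) (P 1) / P 2
        rw [map_div₀, map_Ff (starRingEnd ℂ), Complex.conj_conj, Complex.conj_conj,
          Complex.conj_conj, Complex.conj_ofReal, Complex.conj_ofReal, ha, hb]
    rw [h1, h2]
  have hsupp : ∀ f : MvPolynomial (Fin 3) k, (MvPolynomial.map i f).support = f.support :=
    fun f => MvPolynomial.support_map_of_injective f i.injective
  refine ⟨k, ik, iac, icz, ict, i, cj, a, b, A, ?_⟩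
  refine ⟨ha, hb, hcj, hrel, hbe, hal, htr, ?_, ?_, ?_⟩
  · -- divisibility
    change π' ∣ pstar cj a b (π'.degreeOf 2) π'
    apply dvd_descent i
    rw [hπ']
    have h1 : MvPolynomial.map i (pstar cj a b (π'.degreeOf 2) π') =
        pstar (starRingEnd ℂ) (al : ℂ) be (π.degreeOf 2) π := by
      unfold pstar
      rw [map_sum, ← hπ', hsupp, MvPolynomial.degreeOf_eq_sup, MvPolynomial.degreeOf_eq_sup, hsupp]
      refine Finset.sum_congr rfl fun e _ => ?_
      simp only [map_mul, map_pow, MvPolynomial.map_C, MvPolynomial.map_X, MvPolynomial.coeff_map,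
        hcj]
      unfold FP
      rw [map_Ff (MvPolynomial.map i)]
      simp only [MvPolynomial.map_C, MvPolynomial.map_X, ha, hb]
    rw [h1]
    exact hdvd
  · -- the degree
    change Odd (wdeg π')
    have h1 : wdeg π' = wdeg π := by
      unfold wdeg MvPolynomial.weightedTotalDegree
      rw [← hπ', hsupp]
    rw [h1]
    exact hodd
  · -- the points
    intro P hP hP2
    change Gen i π' P at hP
    have hv2 : v 2 ≠ 0 := by
      intro h1
      have h2 : π' ∣ MvPolynomial.X 2 := by
        rw [← key, MvPolynomial.map_X]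
        exact h1
      rw [← hP, MvPolynomial.eval₂_X] at h2
      exact hP2 h2
    have hdeg : ∀ f : MvPolynomial (Fin 3) k, ∀ e ∈ f.support, e 2 ≤ f.degreeOf 2 := by
      intro f e he
      rw [MvPolynomial.degreeOf_eq_sup]
      exact Finset.le_sup (f := fun m : Fin 3 →₀ ℕ => m 2) he
    have hgen : Gen i π' (sP al be P) := by
      intro f
      rw [← key, ← map_eq_zero sW, ← mul_eq_zero_iff_left (pow_ne_zero (f.degreeOf 2) hv2),
        ← hstar hv2 _ f (hdeg f), key, ← hP, hPstar P hP2 _ f (hdeg f),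
        mul_eq_zero_iff_left (pow_ne_zero _ hP2), map_eq_zero]
    refine ⟨hgen, ?_⟩
    have hA1 : evA i A P = pt (MvPolynomial.eval₂ i P gu' / MvPolynomial.eval₂ i P h')
        (MvPolynomial.eval₂ i P gy' / MvPolynomial.eval₂ i P h') := by
      unfold evA
      exact if_pos hP
    have hA2 : evA i A (sP al be P) =
        pt (MvPolynomial.eval₂ i (sP al be P) gu' / MvPolynomial.eval₂ i (sP al be P) h')
        (MvPolynomial.eval₂ i (sP al be P) gy' / MvPolynomial.eval₂ i (sP al be P) h') := by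
      unfold evA
      exact if_pos hgen
    rw [hA1, hA2]
    have z1 : MvPolynomial.eval₂ i P h' ≠ 0 := fun h1 => hndvd ((hP _).1 h1)
    have z2 : MvPolynomial.eval₂ i (sP al be P) h' ≠ 0 := fun h1 => hndvd ((hgen _).1 h1)
    -- the equation at `P`
    have e1 : (MvPolynomial.eval₂ i P gy') ^ 2 * MvPolynomial.eval₂ i P h' =
        MvPolynomial.eval₂ i P gu' ^ 3 -
          MvPolynomial.eval₂ i P gu' * MvPolynomial.eval₂ i P h' ^ 2 := by
      have h1 := (hP _).2 heqn
      simp only [MvPolynomial.eval₂_sub, MvPolynomial.eval₂_mul, MvPolynomial.eval₂_pow] at h1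
      exact sub_eq_zero.1 h1
    have hu1 : MvPolynomial.eval₂ i P gu' - MvPolynomial.eval₂ i P h' ≠ 0 := by
      intro h1
      have h2 : π' ∣ gu' - h' := by
        rw [← hP, MvPolynomial.eval₂_sub]
        exact h1
      rw [← key, map_sub, map_sub, hgu', hh', ← hpg] at h2
      apply hp1
      have h3 : (p - 1) * φ h = 0 := by rw [sub_mul, one_mul]; exact h2
      rcases mul_eq_zero.1 h3 with h4 | h4
      · exact sub_eq_zero.1 h4
      · exact absurd h4 hh0
    -- the relations
    set D := gu'.degreeOf 2 + gy'.degreeOf 2 + h'.degreeOf 2 with hD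
    have dgu : ∀ e ∈ gu'.support, e 2 ≤ D := fun e he => by have := hdeg _ e he; omega
    have dgy : ∀ e ∈ gy'.support, e 2 ≤ D := fun e he => by have := hdeg _ e he; omega
    have dh : ∀ e ∈ h'.support, e 2 ≤ D := fun e he => by have := hdeg _ e he; omega
    have hp1' : p - 1 ≠ 0 := sub_ne_zero.2 hp1
    have r1 : π' ∣ pstar cj a b D gu' * (gu' - h') - pstar cj a b D h' * (gu' + h') := by
      rw [← key]
      simp only [map_sub, map_mul, map_add]
      rw [hstar hv2 D _ dgu, hstar hv2 D _ dh, hgu', hh', ← hpg, map_mul, hsp]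
      field_simp
      ring
    have r2 : π' ∣ pstar cj a b D gy' * (gu' - h') ^ 2 +
        2 * (gy' * h') * pstar cj a b D h' := by
      rw [← key]
      simp only [map_sub, map_mul, map_add, map_pow]
      rw [hstar hv2 D _ dgy, hstar hv2 D _ dh, hgu', hh', hgy', ← hpg, ← hqg, map_mul, hsq]
      simp only [map_ofNat]
      field_simp
      ring
    have s1 := (hP _).2 r1
    have s2 := (hP _).2 r2
    have two_eq : MvPolynomial.eval₂ i P (2 : MvPolynomial (Fin 3) k) = 2 := by
      have := map_ofNat (MvPolynomial.eval₂Hom i P) 2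
      exact this
    simp only [MvPolynomial.eval₂_sub, MvPolynomial.eval₂_mul, MvPolynomial.eval₂_add,
      MvPolynomial.eval₂_pow, two_eq] at s1 s2
    rw [hPstar P hP2 D _ dgu, hPstar P hP2 D _ dh] at s1
    rw [hPstar P hP2 D _ dgy, hPstar P hP2 D _ dh] at s2
    have hz : P 2 ^ D ≠ 0 := pow_ne_zero _ hP2
    generalize MvPolynomial.eval₂ i (sP al be P) gu' = U at *
    generalize MvPolynomial.eval₂ i (sP al be P) gy' = Y at *
    generalize MvPolynomial.eval₂ i (sP al be P) h' = H at *
    generalize MvPolynomial.eval₂ i P gu' = u at *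
    generalize MvPolynomial.eval₂ i P gy' = y at *
    generalize MvPolynomial.eval₂ i P h' = t at *
    have s1' : starRingEnd ℂ U * (u - t) = starRingEnd ℂ H * (u + t) := by
      have h1 : P 2 ^ D * (starRingEnd ℂ U * (u - t) - starRingEnd ℂ H * (u + t)) = 0 := by
        linear_combination s1
      rcases mul_eq_zero.1 h1 with h2 | h2
      · exact absurd h2 hz
      · exact sub_eq_zero.1 h2
    have s2' : starRingEnd ℂ Y * (u - t) ^ 2 = -2 * (y * t) * starRingEnd ℂ H := by
      have h1 : P 2 ^ D * (starRingEnd ℂ Y * (u - t) ^ 2 + 2 * (y * t) * starRingEnd ℂ H) = 0 := by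
        linear_combination s2
      rcases mul_eq_zero.1 h1 with h2 | h2
      · exact absurd h2 hz
      · linear_combination h2
    -- conjugate
    have c1 : U * (starRingEnd ℂ u - starRingEnd ℂ t) =
        H * (starRingEnd ℂ u + starRingEnd ℂ t) := by
      have := congrArg (starRingEnd ℂ) s1'
      simpa only [map_mul, map_sub, map_add, Complex.conj_conj] using this
    have c2 : Y * (starRingEnd ℂ u - starRingEnd ℂ t) ^ 2 =
        -2 * (starRingEnd ℂ y * starRingEnd ℂ t) * H := by
      have := congrArg (starRingEnd ℂ) s2'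
      simpa only [map_mul, map_sub, map_pow, map_neg, map_ofNat, Complex.conj_conj] using this
    have ct : starRingEnd ℂ t ≠ 0 := by rwa [Ne, map_eq_zero]
    have cu : starRingEnd ℂ u - starRingEnd ℂ t ≠ 0 := by
      rw [← map_sub, Ne, map_eq_zero]
      exact hu1
    have e2 : (y / t) ^ 2 = (u / t) ^ 3 - u / t := by
      field_simp
      linear_combination e1
    have e3 : (starRingEnd ℂ y / starRingEnd ℂ t) ^ 2 =
        (starRingEnd ℂ u / starRingEnd ℂ t) ^ 3 - starRingEnd ℂ u / starRingEnd ℂ t := by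
      have := eqn_map (starRingEnd ℂ) e2
      simpa only [map_div₀] using this
    have hne : starRingEnd ℂ u / starRingEnd ℂ t ≠ 1 := by
      intro h1
      rw [div_eq_one_iff_eq ct] at h1
      exact cu (sub_eq_zero.2 h1)
    obtain ⟨-, f2⟩ := pt_add_P3 e3 hne
    unfold conjE
    rw [Emap_pt (starRingEnd ℂ) e2, map_div₀, map_div₀, f2]
    congr 1
    · have hne' : starRingEnd ℂ u / starRingEnd ℂ t - 1 ≠ 0 := sub_ne_zero.2 hne
      rw [div_eq_div_iff z2 hne']
      field_simp
      linear_combination c1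
    · have hne' : starRingEnd ℂ u / starRingEnd ℂ t - 1 ≠ 0 := sub_ne_zero.2 hne
      rw [div_eq_div_iff z2 (pow_ne_zero 2 hne')]
      field_simp
      linear_combination c2

end MP_d2f638_ag.Stab
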