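import Pool.Agent.Lib.MP_d2f638_ag.Stab.WF

/-!
# B2. A stable irreducible factor of odd degree and odd multiplicity
-/

namespace MP_d2f638_ag.Stab

namespace DivAux

/-- The polynomial ring. -/
abbrev R3 : Type := MvPolynomial (Fin 3) ℂ

/-- The star operation. -/
noncomputable def st (al be : ℝ) (q : R3) : R3 :=
  pstar (starRingEnd ℂ) (al : ℂ) be (q.degreeOf 2) q

lemma tK_ne : tK ≠ 0 := by
  unfold tK
  rw [Ne, FaithfulSMul.algebraMap_eq_zero_iff]
  exact MvPolynomial.X_ne_zero _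

lemma zK_ne : zK ≠ 0 := by
  unfold zK
  rw [Ne, FaithfulSMul.algebraMap_eq_zero_iff]
  exact MvPolynomial.X_ne_zero _

lemma inj_aM : Function.Injective (algebraMap R3 KC) := FaithfulSMul.algebraMap_injective _ _

/-- The function `F` in the field. -/
lemma map_FP_KC (a b : ℂ) : algebraMap R3 KC (FP a b) = Ff (cK a) (cK b) tK wK := by
  unfold FP
  rw [map_Ff]
  rfl

variable {al be : ℝ} {s : KC →+* KC}

lemma s_F (hs : IsS al be s) : s (Ff (cK al) (cK be) tK wK) = Ff (cK al) (cK be) tK wK := by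
  rw [map_Ff, hs.const, hs.const, hs.t, hs.w, Complex.conj_ofReal, Complex.conj_ofReal]

lemma monomial_KC (e : Fin 3 →₀ ℕ) (c : ℂ) : algebraMap R3 KC (MvPolynomial.monomial e c) =
    cK c * tK ^ (e 0) * wK ^ (e 1) * zK ^ (e 2) := by
  rw [MvPolynomial.monomial_eq, Finsupp.prod_fintype _ _ (fun i => pow_zero _),
    Fin.prod_univ_three, map_mul, map_mul, map_mul, map_pow, map_pow, map_pow]
  have : algebraMap R3 KC (MvPolynomial.C c) = cK c := by
    unfold cK
    rw [IsScalarTower.algebraMap_apply ℂ R3 KC, MvPolynomial.algebraMap_eq]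
  rw [this]
  unfold tK wK zK
  ring

lemma emb_pstar (hs : IsS al be s) (d : ℕ) (q : R3) (hd : q.degreeOf 2 ≤ d) :
    algebraMap R3 KC (pstar (starRingEnd ℂ) (al : ℂ) be d q) =
      zK ^ d * s (algebraMap R3 KC q) := by
  conv_rhs => rw [q.as_sum, map_sum, map_sum, Finset.mul_sum]
  unfold pstar
  rw [map_sum]
  refine Finset.sum_congr rfl fun e he => ?_
  have h2 : e 2 ≤ d := (MvPolynomial.monomial_le_degreeOf 2 he).trans hd
  rw [monomial_KC, map_mul, map_mul, map_mul, map_mul, map_pow, map_pow, map_pow, map_pow,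
    map_FP_KC, map_mul, map_mul, map_mul, map_pow, map_pow, map_pow, hs.const, hs.t, hs.w, hs.z]
  have h3 : algebraMap R3 KC (MvPolynomial.C (starRingEnd ℂ (MvPolynomial.coeff e q))) =
      cK (starRingEnd ℂ (MvPolynomial.coeff e q)) := by
    unfold cK
    rw [IsScalarTower.algebraMap_apply ℂ R3 KC, MvPolynomial.algebraMap_eq]
  rw [h3]
  change _ * tK ^ _ * wK ^ _ * _ * zK ^ _ = _
  have hz := zK_ne
  obtain ⟨c, hc⟩ : ∃ c, d = c + e 2 := ⟨d - e 2, by omega⟩
  have h4 : d - e 2 = c := by omega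
  rw [h4, hc, pow_add, div_pow]
  field_simp

lemma emb_st (hs : IsS al be s) (q : R3) :
    algebraMap R3 KC (st al be q) = zK ^ (q.degreeOf 2) * s (algebraMap R3 KC q) :=
  emb_pstar hs _ q le_rfl

lemma st_mul (hs : IsS al be s) {p q : R3} (hp : p ≠ 0) (hq : q ≠ 0) :
    st al be (p * q) = st al be p * st al be q := by
  apply inj_aM
  rw [map_mul, emb_st hs, emb_st hs, emb_st hs, MvPolynomial.degreeOf_mul_eq hp hq, map_mul,
    map_mul, pow_add]
  ring

lemma st_one (hs : IsS al be s) : st al be 1 = 1 := by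
  apply inj_aM
  rw [emb_st hs, MvPolynomial.degreeOf_one, map_one, map_one, pow_zero, mul_one]

lemma st_ne (hs : IsS al be s) {p : R3} (hp : p ≠ 0) : st al be p ≠ 0 := by
  intro h
  have h1 := emb_st hs p
  rw [h, map_zero] at h1
  have h2 : s (algebraMap R3 KC p) ≠ 0 := by
    rw [Ne, map_eq_zero, FaithfulSMul.algebraMap_eq_zero_iff]
    exact hp
  exact mul_ne_zero (pow_ne_zero _ zK_ne) h2 h1.symm

lemma FP_ne (hbe : 0 < be) (hal : be < al) (hab : be ^ 2 = al ^ 2 - 1) :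
    Prime (FP (al : ℂ) be) := by
  refine (irreducible_FP (al : ℂ) be ?_ ?_ ?_).prime
  · exact_mod_cast hab
  · exact_mod_cast (pow_pos (hbe.trans hal) 2).ne'
  · have h1 : al ^ 4 ≠ 1 := by
      have h2 : 1 < al ^ 2 := by nlinarith [sq_nonneg be, pow_pos hbe 2]
      nlinarith
    exact_mod_cast h1

lemma FK_ne (hF : Prime (FP (al : ℂ) be)) : Ff (cK al) (cK be) tK wK ≠ 0 := by
  rw [← map_FP_KC, Ne, FaithfulSMul.algebraMap_eq_zero_iff]
  exact hF.ne_zero

lemma s_s (hs : IsS al be s) (hF : Prime (FP (al : ℂ) be)) (q : R3) :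
    s (s (algebraMap R3 KC q)) = algebraMap R3 KC q := by
  have h : (s.comp s).comp (algebraMap R3 KC) = algebraMap R3 KC := by
    apply MvPolynomial.ringHom_ext
    · intro c
      have h3 : algebraMap R3 KC (MvPolynomial.C c) = cK c := by
        unfold cK
        rw [IsScalarTower.algebraMap_apply ℂ R3 KC, MvPolynomial.algebraMap_eq]
      simp only [RingHom.comp_apply]
      rw [h3, hs.const, hs.const, Complex.conj_conj]
    · intro i
      simp only [RingHom.comp_apply]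
      fin_cases i
      · change s (s tK) = tK
        rw [hs.t, hs.t]
      · change s (s wK) = wK
        rw [hs.w, hs.w]
      · change s (s zK) = zK
        rw [hs.z, map_div₀, s_F hs, hs.z, div_div_cancel₀ (FK_ne hF)]
  exact congrFun (congrArg DFunLike.coe h) q

lemma st_st (hs : IsS al be s) (hF : Prime (FP (al : ℂ) be)) (q : R3) :
    MvPolynomial.X 2 ^ (q.degreeOf 2) * st al be (st al be q) =
      MvPolynomial.X 2 ^ ((st al be q).degreeOf 2) * FP (al : ℂ) be ^ (q.degreeOf 2) * q := by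
  apply inj_aM
  rw [map_mul, map_mul, map_mul, map_pow, map_pow, map_pow, emb_st hs (st al be q),
    emb_st hs q, map_mul, s_s hs hF, map_pow, hs.z, map_FP_KC]
  change zK ^ _ * (zK ^ _ * _) = zK ^ _ * _ * _
  have hz := zK_ne
  rw [div_pow]
  field_simp

lemma wdeg_sum_le (N : ℕ) {ι : Type} (u : Finset ι) (f : ι → R3)
    (h : ∀ i ∈ u, f i ≠ 0 → wdeg (f i) ≤ N) (h0 : ∑ i ∈ u, f i ≠ 0) :
    wdeg (∑ i ∈ u, f i) ≤ N := by
  rw [← natDegree_Th _ h0, map_sum]
  refine Polynomial.natDegree_sum_le_of_forall_le _ _ fun i hi => ?_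
  by_cases hf : f i = 0
  · rw [hf, map_zero, Polynomial.natDegree_zero]
    exact Nat.zero_le _
  · rw [natDegree_Th _ hf]
    exact h i hi hf

lemma weight_eq (e : Fin 3 →₀ ℕ) : Finsupp.weight w3 e = e 0 + e 1 + 2 * e 2 := by
  rw [Finsupp.weight_apply, Finsupp.sum_fintype _ _ (fun i => by simp), Fin.sum_univ_three]
  simp [w3]
  ring

lemma wdeg_st_le (hs : IsS al be s) (hF : Prime (FP (al : ℂ) be)) {q : R3} (hq : q ≠ 0) :
    wdeg (st al be q) ≤ wdeg q + 2 * q.degreeOf 2 := by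
  have h0 := st_ne hs hq
  unfold st pstar at h0 ⊢
  refine wdeg_sum_le _ _ _ (fun e he _ => ?_) h0
  have h2 : e 2 ≤ q.degreeOf 2 := MvPolynomial.monomial_le_degreeOf 2 he
  have h3 : e 0 + e 1 + 2 * e 2 ≤ wdeg q := by
    rw [← weight_eq, wdeg_eq']
    exact Finset.le_sup (f := Finsupp.weight w3) he
  have hc : starRingEnd ℂ (MvPolynomial.coeff e q) ≠ 0 := by
    rw [Ne, map_eq_zero]
    exact MvPolynomial.mem_support_iff.mp he
  have hC : (MvPolynomial.C (starRingEnd ℂ (MvPolynomial.coeff e q)) : R3) ≠ 0 := by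
    rwa [Ne, MvPolynomial.C_eq_zero]
  have hX : ∀ i : Fin 3, (MvPolynomial.X i : R3) ≠ 0 := fun i => MvPolynomial.X_ne_zero i
  have hF0 := hF.ne_zero
  rw [wdeg_mul _ _ (mul_ne_zero (mul_ne_zero (mul_ne_zero hC (pow_ne_zero _ (hX 0)))
    (pow_ne_zero _ (hX 1))) (pow_ne_zero _ hF0)) (pow_ne_zero _ (hX 2)),
    wdeg_mul _ _ (mul_ne_zero (mul_ne_zero hC (pow_ne_zero _ (hX 0)))
    (pow_ne_zero _ (hX 1))) (pow_ne_zero _ hF0),
    wdeg_mul _ _ (mul_ne_zero hC (pow_ne_zero _ (hX 0))) (pow_ne_zero _ (hX 1)),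
    wdeg_mul _ _ hC (pow_ne_zero _ (hX 0)), wdeg_C _ hc, wdeg_pow _ (hX 0), wdeg_pow _ (hX 1),
    wdeg_pow _ hF0, wdeg_pow _ (hX 2), wdeg_X, wdeg_X, wdeg_X, wdeg_FP]
  have e0 : w3 0 = 1 := rfl
  have e1 : w3 1 = 1 := rfl
  have e2 : w3 2 = 2 := rfl
  rw [e0, e1, e2]
  omega

lemma wdeg_st (hs : IsS al be s) (hF : Prime (FP (al : ℂ) be)) {q : R3} (hq : q ≠ 0) :
    wdeg (st al be q) = wdeg q + 2 * q.degreeOf 2 := by
  refine le_antisymm (wdeg_st_le hs hF hq) ?_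
  have h1 := st_ne hs hq
  have h2 := wdeg_st_le hs hF h1
  have h3 := congrArg wdeg (st_st hs hF q)
  have hX : (MvPolynomial.X 2 : R3) ≠ 0 := MvPolynomial.X_ne_zero 2
  have hF0 := hF.ne_zero
  rw [wdeg_mul _ _ (pow_ne_zero _ hX) (st_ne hs h1), wdeg_mul _ _ (mul_ne_zero (pow_ne_zero _ hX)
    (pow_ne_zero _ hF0)) hq, wdeg_mul _ _ (pow_ne_zero _ hX) (pow_ne_zero _ hF0),
    wdeg_pow _ hX, wdeg_pow _ hX, wdeg_pow _ hF0, wdeg_FP, wdeg_X] at h3
  have e2 : w3 2 = 2 := rfl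
  rw [e2] at h3
  omega

lemma wdeg_unit {u : R3} (hu : IsUnit u) : wdeg u = 0 := by
  obtain ⟨v, hv⟩ := hu.exists_right_inv
  have hu0 : u ≠ 0 := hu.ne_zero
  have hv0 : v ≠ 0 := by
    rintro rfl
    rw [mul_zero] at hv
    exact zero_ne_one hv
  have h1 := wdeg_mul u v hu0 hv0
  have h2 : wdeg (1 : R3) = 0 := by
    rw [← MvPolynomial.C_1]
    exact wdeg_C 1 one_ne_zero
  rw [hv, h2] at h1
  omega

lemma wdeg_assoc {p q : R3} (h : Associated p q) (hp : p ≠ 0) : wdeg p = wdeg q := by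
  obtain ⟨u, rfl⟩ := h
  rw [wdeg_mul _ _ hp u.ne_zero, wdeg_unit u.isUnit, add_zero]

/-- Divisors of `z ^ a F ^ b` have even degree. -/
lemma even_of_dvd (hF : Prime (FP (al : ℂ) be)) {x : R3} {a b : ℕ}
    (h : x ∣ MvPolynomial.X 2 ^ a * FP (al : ℂ) be ^ b) : Even (wdeg x) := by
  obtain ⟨x1, x2, h1, h2, rfl⟩ := exists_dvd_and_dvd_of_dvd_mul h
  have hX : Prime (MvPolynomial.X 2 : R3) := MvPolynomial.X_prime
  obtain ⟨i, -, hi⟩ := (dvd_prime_pow hX a).mp h1
  obtain ⟨j, -, hj⟩ := (dvd_prime_pow hF b).mp h2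
  have h10 : x1 ≠ 0 := by
    rintro rfl
    exact (pow_ne_zero a hX.ne_zero) (zero_dvd_iff.mp h1)
  have h20 : x2 ≠ 0 := by
    rintro rfl
    exact (pow_ne_zero b hF.ne_zero) (zero_dvd_iff.mp h2)
  rw [wdeg_mul _ _ h10 h20, wdeg_assoc hi h10, wdeg_assoc hj h20, wdeg_pow _ hX.ne_zero,
    wdeg_pow _ hF.ne_zero, wdeg_FP, wdeg_X]
  have e2 : w3 2 = 2 := rfl
  rw [e2]
  exact ⟨i + 2 * j, by ring⟩

lemma not_dvd_zF (hF : Prime (FP (al : ℂ) be)) {p : R3} (ho : Odd (wdeg p)) (a b : ℕ) :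
    ¬ p ∣ MvPolynomial.X 2 ^ a * FP (al : ℂ) be ^ b := fun h =>
  (Nat.not_even_iff_odd.mpr ho) (even_of_dvd hF h)

lemma st_pow (hs : IsS al be s) {p : R3} (hp : p ≠ 0) (n : ℕ) :
    st al be (p ^ n) = st al be p ^ n := by
  induction n with
  | zero => rw [pow_zero, pow_zero, st_one hs]
  | succ n ih => rw [pow_succ, pow_succ, st_mul hs (pow_ne_zero n hp) hp, ih]

/-- A prime whose star has a prime divisor of odd degree does not divide `z ^ a F ^ b`. -/
lemma not_dvd_of_st (hs : IsS al be s) (hF : Prime (FP (al : ℂ) be)) {p q : R3} (hp : Prime p)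
    (hpo : Odd (wdeg p)) (h : p ∣ st al be q) (a b : ℕ) :
    ¬ q ∣ MvPolynomial.X 2 ^ a * FP (al : ℂ) be ^ b := by
  rintro ⟨y, hy⟩
  have hX : (MvPolynomial.X 2 : R3) ≠ 0 := MvPolynomial.X_ne_zero 2
  have h0 : (MvPolynomial.X 2 : R3) ^ a * FP (al : ℂ) be ^ b ≠ 0 :=
    mul_ne_zero (pow_ne_zero a hX) (pow_ne_zero b hF.ne_zero)
  have hq0 : q ≠ 0 := by
    rintro rfl
    rw [zero_mul] at hy
    exact h0 hy
  have hy0 : y ≠ 0 := by
    rintro rfl
    rw [mul_zero] at hy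
    exact h0 hy
  have h1 : p ∣ st al be (MvPolynomial.X 2) ^ a * st al be (FP (al : ℂ) be) ^ b := by
    rw [← st_pow hs hX, ← st_pow hs hF.ne_zero, ← st_mul hs (pow_ne_zero a hX)
      (pow_ne_zero b hF.ne_zero), hy, st_mul hs hq0 hy0]
    exact h.mul_right _
  have hz : MvPolynomial.X 2 * st al be (MvPolynomial.X 2) =
      MvPolynomial.X 2 ^ ((MvPolynomial.X 2 : R3).degreeOf 2) * FP (al : ℂ) be ^ 1 := by
    apply inj_aM
    rw [map_mul, map_mul, map_pow, map_pow, emb_st hs, map_FP_KC, pow_one]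
    change zK * (zK ^ _ * s zK) = zK ^ _ * _
    have := zK_ne
    rw [hs.z]
    field_simp
  have hFs : st al be (FP (al : ℂ) be) =
      MvPolynomial.X 2 ^ ((FP (al : ℂ) be).degreeOf 2) * FP (al : ℂ) be ^ 1 := by
    apply inj_aM
    rw [map_mul, map_pow, map_pow, emb_st hs, map_FP_KC, s_F hs, pow_one]
    rfl
  rcases hp.dvd_or_dvd h1 with h2 | h2
  · have h3 := hp.dvd_of_dvd_pow h2
    exact not_dvd_zF hF hpo _ _ ((h3.mul_left (MvPolynomial.X 2)).trans (dvd_of_eq hz))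
  · have h3 := hp.dvd_of_dvd_pow h2
    exact not_dvd_zF hF hpo _ _ (h3.trans (dvd_of_eq hFs))

/-- A prime of odd degree dividing the star of another. -/
lemma key (hs : IsS al be s) (hF : Prime (FP (al : ℂ) be)) {p q : R3} (hp : Prime p)
    (hq : Prime q) (hpo : Odd (wdeg p)) (h : p ∣ st al be q) :
    Odd (wdeg q) ∧ q ∣ st al be p ∧
      ∀ x : R3, Prime x → Odd (wdeg x) → x ∣ st al be q → Associated x p := by
  have hqn := not_dvd_of_st hs hF hp hpo h
  obtain ⟨r, hr⟩ := h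
  have hsq := st_ne hs hq.ne_zero
  have hr0 : r ≠ 0 := by
    rintro rfl
    rw [mul_zero] at hr
    exact hsq hr
  have h1 := st_st hs hF q
  rw [hr, st_mul hs hp.ne_zero hr0] at h1
  obtain ⟨d', hd'⟩ : ∃ d', d' = (p * r).degreeOf 2 := ⟨_, rfl⟩
  obtain ⟨d, hd⟩ : ∃ d, d = q.degreeOf 2 := ⟨_, rfl⟩
  rw [← hd', ← hd] at h1
  -- `z ^ d p* r* = z ^ d' F ^ d q`
  have h2 : q ∣ MvPolynomial.X 2 ^ d * (st al be p * st al be r) := ⟨_, h1.trans (mul_comm _ _)⟩
  have h3 : q ∣ st al be p * st al be r := by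
    rcases hq.dvd_or_dvd h2 with h | h
    · exact absurd (h.mul_right (FP (al : ℂ) be ^ 0)) (hqn d 0)
    · exact h
  have hpst : Odd (wdeg (st al be p)) := by
    rw [wdeg_st hs hF hp.ne_zero]
    exact hpo.add_even (even_two_mul _)
  have h4 : q ∣ st al be p := by
    rcases hq.dvd_or_dvd h3 with h | ⟨y, hy⟩
    · exact h
    · exfalso
      rw [hy] at h1
      have h5 : st al be p * (MvPolynomial.X 2 ^ d * y) =
          MvPolynomial.X 2 ^ d' * FP (al : ℂ) be ^ d := by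
        refine mul_right_cancel₀ hq.ne_zero ?_
        rw [← h1]
        ring
      exact not_dvd_zF hF hpst d' d ⟨_, h5.symm⟩
  have h4' := h4
  obtain ⟨y', hy'⟩ := h4
  have h5 : st al be r * (MvPolynomial.X 2 ^ d * y') =
      MvPolynomial.X 2 ^ d' * FP (al : ℂ) be ^ d := by
    refine mul_right_cancel₀ hq.ne_zero ?_
    rw [← h1, hy']
    ring
  refine ⟨?_, h4', fun x hx hxo hxd => ?_⟩
  · have hy0 : y' ≠ 0 := by
      rintro rfl
      rw [mul_zero] at hy'
      exact st_ne hs hp.ne_zero hy'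
    have h6 : Even (wdeg y') := even_of_dvd hF (a := d') (b := d)
      ⟨st al be r * MvPolynomial.X 2 ^ d, by rw [← h5]; ring⟩
    rw [hy', wdeg_mul _ _ hq.ne_zero hy0] at hpst
    exact (Nat.odd_add.mp hpst).mpr h6
  · rw [hr] at hxd
    rcases hx.dvd_or_dvd hxd with h | ⟨y, hy⟩
    · exact hx.associated_of_dvd hp h
    · exfalso
      have hy0 : y ≠ 0 := by
        rintro rfl
        rw [mul_zero] at hy
        exact hr0 hy
      rw [hy, st_mul hs hx.ne_zero hy0] at h5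
      have hxst : Odd (wdeg (st al be x)) := by
        rw [wdeg_st hs hF hx.ne_zero]
        exact hxo.add_even (even_two_mul _)
      exact not_dvd_zF hF hxst d' d
        ⟨st al be y * (MvPolynomial.X 2 ^ d * y'), by rw [← h5]; ring⟩

lemma exists_odd_prime {H : R3} (h0 : H ≠ 0) (ho : Odd (wdeg H)) :
    ∃ p, Prime p ∧ p ∣ H ∧ Odd (wdeg p) := by
  revert h0 ho
  refine UniqueFactorizationMonoid.induction_on_prime (P := fun H : R3 =>
    H ≠ 0 → Odd (wdeg H) → ∃ p, Prime p ∧ p ∣ H ∧ Odd (wdeg p)) H (fun h => absurd rfl h) ?_ ?_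
  · intro x hx _ ho
    rw [wdeg_unit hx] at ho
    exact absurd ho (by decide)
  · intro a p ha hp ih _ ho
    by_cases hpo : Odd (wdeg p)
    · exact ⟨p, hp, dvd_mul_right _ _, hpo⟩
    · rw [wdeg_mul _ _ hp.ne_zero ha] at ho
      have h1 : Odd (wdeg a) := by
        rw [Nat.not_odd_iff_even] at hpo
        rw [add_comm] at ho
        exact (Nat.odd_add.mp ho).mpr hpo
      obtain ⟨q, hq, hqa, hqo⟩ := ih ha h1
      exact ⟨q, hq, hqa.mul_left _, hqo⟩

lemma dvd_st (hs : IsS al be s) {p : R3} (hp : Prime p) {a : R3} (ha : a ≠ 0)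
    (h : p ∣ st al be a) : ∃ q, Prime q ∧ q ∣ a ∧ p ∣ st al be q := by
  revert ha h
  refine UniqueFactorizationMonoid.induction_on_prime (P := fun a : R3 =>
    a ≠ 0 → p ∣ st al be a → ∃ q, Prime q ∧ q ∣ a ∧ p ∣ st al be q) a (fun h => absurd rfl h) ?_ ?_
  · intro x hx hx0 h
    exfalso
    obtain ⟨v, hv⟩ := hx.exists_right_inv
    have hv0 : v ≠ 0 := by
      rintro rfl
      rw [mul_zero] at hv
      exact zero_ne_one hv
    have h1 := st_mul hs hx0 hv0
    rw [hv, st_one hs] at h1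
    exact hp.not_isUnit (isUnit_of_dvd_one (h.trans ⟨_, h1⟩))
  · intro a q ha hq ih _ h
    rw [st_mul hs hq.ne_zero ha] at h
    rcases hp.dvd_or_dvd h with h | h
    · exact ⟨q, hq, dvd_mul_right _ _, h⟩
    · obtain ⟨q', hq', h1, h2⟩ := ih ha h
      exact ⟨q', hq', h1.mul_left _, h2⟩

lemma core (hs : IsS al be s) (hF : Prime (FP (al : ℂ) be)) (N : ℕ) : ∀ H : R3, H ≠ 0 →
    Squarefree H → Odd (wdeg H) → wdeg H ≤ N →
    (∀ p, Prime p → Odd (wdeg p) → p ∣ H → p ∣ st al be H) →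
    ∃ π, Prime π ∧ π ∣ H ∧ Odd (wdeg π) ∧ π ∣ st al be π := by
  induction N with
  | zero =>
    intro H _ _ ho hN _
    rw [Nat.le_zero.mp hN] at ho
    exact absurd ho (by decide)
  | succ N ih =>
    intro H h0 hsf ho hN hQ
    obtain ⟨p, hp, hpH, hpo⟩ := exists_odd_prime h0 ho
    by_cases hpp : p ∣ st al be p
    · exact ⟨p, hp, hpH, hpo, hpp⟩
    have h1 := hQ p hp hpo hpH
    obtain ⟨H2, rfl⟩ := hpH
    have h20 : H2 ≠ 0 := right_ne_zero_of_mul h0
    rw [st_mul hs hp.ne_zero h20] at h1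
    have h2 : p ∣ st al be H2 := (hp.dvd_or_dvd h1).resolve_left hpp
    obtain ⟨q, hq, ⟨H3, rfl⟩, hpq⟩ := dvd_st hs hp h20 h2
    have h30 : H3 ≠ 0 := right_ne_zero_of_mul h20
    obtain ⟨hqo, hqp, huq⟩ := key hs hF hp hq hpo hpq
    obtain ⟨-, -, hup⟩ := key hs hF hq hp hqo hqp
    have hwd : wdeg (p * (q * H3)) = wdeg p + (wdeg q + wdeg H3) := by
      rw [wdeg_mul _ _ hp.ne_zero h20, wdeg_mul _ _ hq.ne_zero h30]
    rw [hwd] at ho hN
    have ho3 : Odd (wdeg H3) := by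
      obtain ⟨i, hi⟩ := hpo
      obtain ⟨j, hj⟩ := hqo
      obtain ⟨l, hl⟩ := ho
      exact ⟨l - i - j - 1, by omega⟩
    have hpos : 0 < wdeg p := hpo.pos
    have hsf3 : Squarefree H3 := hsf.squarefree_of_dvd ⟨p * q, by ring⟩
    obtain ⟨π, h5, h6, h7, h8⟩ := ih H3 h30 hsf3 ho3 (by omega) (by
      intro x hx hxo hxd
      have hx1 := hQ x hx hxo ((hxd.mul_left q).mul_left p)
      rw [st_mul hs hp.ne_zero h20, st_mul hs hq.ne_zero h30] at hx1
      have hsq : ∀ y : R3, Prime y → y * y ∣ p * (q * H3) → False := fun y hy hyd =>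
        hy.not_isUnit (hsf y hyd)
      rcases hx.dvd_or_dvd hx1 with h | h
      · exfalso
        have h9 := hup x hx hxo h
        refine hsq q hq ?_
        obtain ⟨c, hc⟩ := h9.symm.dvd.trans hxd
        exact ⟨p * c, by rw [hc]; ring⟩
      · rcases hx.dvd_or_dvd h with h | h
        · exfalso
          have h9 := huq x hx hxo h
          refine hsq p hp ?_
          obtain ⟨c, hc⟩ := h9.symm.dvd.trans hxd
          exact ⟨q * c, by rw [hc]; ring⟩
        · exact h)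
    exact ⟨π, h5, (h6.mul_left q).mul_left p, h7, h8⟩

/-- Squarefree part. -/
lemma sqfree_part (a : R3) (ha : a ≠ 0) : ∃ h y : R3, a = h * y ^ 2 ∧ Squarefree h := by
  revert ha
  refine UniqueFactorizationMonoid.induction_on_prime (P := fun a : R3 =>
    a ≠ 0 → ∃ h y : R3, a = h * y ^ 2 ∧ Squarefree h) a (fun h => absurd rfl h) ?_ ?_
  · intro x hx _
    exact ⟨x, 1, by ring, hx.squarefree⟩
  · intro a p ha hp ih _
    obtain ⟨h, y, rfl, hh⟩ := ih ha
    by_cases hph : p ∣ h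
    · obtain ⟨h', rfl⟩ := hph
      exact ⟨h', p * y, by ring, hh.squarefree_of_dvd (dvd_mul_left _ _)⟩
    · refine ⟨p * h, y, by ring, squarefree_mul_iff.mpr ⟨?_, hp.squarefree, hh⟩⟩
      exact (Irreducible.isRelPrime_iff_not_dvd hp.irreducible).mpr hph

/-- Comparison of exponents. -/
lemma exp_eq {p u v : R3} {a b : ℕ} (hp : Prime p) (hu : ¬ p ∣ u) (hv : ¬ p ∣ v)
    (h : p ^ a * u = p ^ b * v) : a = b := by
  rcases lt_trichotomy a b with hab | hab | hab
  · exfalso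
    obtain ⟨c, rfl⟩ := Nat.exists_eq_add_of_lt hab
    refine hu ⟨p ^ c * v, ?_⟩
    refine mul_left_cancel₀ (pow_ne_zero a hp.ne_zero) ?_
    rw [h]
    ring
  · exact hab
  · exfalso
    obtain ⟨c, rfl⟩ := Nat.exists_eq_add_of_lt hab
    refine hv ⟨p ^ c * u, ?_⟩
    refine mul_left_cancel₀ (pow_ne_zero b hp.ne_zero) ?_
    rw [← h]
    ring

lemma exists_pow {p : R3} (hp : Prime p) {x : R3} (hx : x ≠ 0) :
    ∃ (e : ℕ) (x' : R3), x = p ^ e * x' ∧ ¬ p ∣ x' := by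
  obtain ⟨e, x', h1, h2⟩ := WfDvdMonoid.max_power_factor hx hp.irreducible
  exact ⟨e, x', h2, h1⟩

/-- Parity of exponents. -/
lemma parity {p x y b c : R3} (hp : Prime p) (hx : ¬ p ∣ x) (hy : ¬ p ∣ y) (hb : b ≠ 0)
    (hc : c ≠ 0) (h : x * b ^ 2 = p * y * c ^ 2) : False := by
  obtain ⟨i, b', rfl, hb'⟩ := exists_pow hp hb
  obtain ⟨j, c', rfl, hc'⟩ := exists_pow hp hc
  have h1 : p ^ (2 * i) * (x * b' ^ 2) = p ^ (2 * j + 1) * (y * c' ^ 2) := by
    linear_combination h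
  have h2 := exp_eq hp (fun h => (hp.dvd_or_dvd h).elim hx (fun h => hb' (hp.dvd_of_dvd_pow h)))
    (fun h => (hp.dvd_or_dvd h).elim hy (fun h => hc' (hp.dvd_of_dvd_pow h))) h1
  omega

end DivAux

open DivAux in
theorem div : stDiv := by
  intro al be s hbe hal hab hs G n m hG sG hm hGm ho
  have hF := FP_ne hbe hal hab
  have hn : n ≠ 0 := by
    rintro rfl
    rw [map_zero] at hGm
    have : algebraMap R3 KC m ≠ 0 := by
      rwa [Ne, FaithfulSMul.algebraMap_eq_zero_iff]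
    exact mul_ne_zero hG this hGm
  obtain ⟨H, Y, hHY, hsf⟩ := sqfree_part (n * m) (mul_ne_zero hn hm)
  have hnm := mul_ne_zero hn hm
  have hH : H ≠ 0 := by
    rintro rfl
    rw [zero_mul] at hHY
    exact hnm hHY
  have hY : Y ≠ 0 := by
    rintro rfl
    rw [zero_pow two_ne_zero, mul_zero] at hHY
    exact hnm hHY
  have hX : (MvPolynomial.X 2 : R3) ≠ 0 := MvPolynomial.X_ne_zero 2
  have hoH : Odd (wdeg H) := by
    have h1 : wdeg n + wdeg m = wdeg H + 2 * wdeg Y := by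
      rw [← wdeg_mul _ _ hn hm, hHY, wdeg_mul _ _ hH (pow_ne_zero 2 hY), wdeg_pow _ hY]
    rw [h1] at ho
    exact (Nat.odd_add.mp ho).mpr (even_two_mul _)
  -- the relation between `n*`, `m*`
  have hrel : st al be n * m * MvPolynomial.X 2 ^ (m.degreeOf 2) =
      n * st al be m * MvPolynomial.X 2 ^ (n.degreeOf 2) := by
    apply inj_aM
    rw [map_mul, map_mul, map_mul, map_mul, map_pow, map_pow, emb_st hs, emb_st hs]
    change zK ^ _ * s (algebraMap R3 KC n) * algebraMap R3 KC m * zK ^ _ =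
      algebraMap R3 KC n * (zK ^ _ * s (algebraMap R3 KC m)) * zK ^ _
    rw [← hGm, map_mul, sG]
    ring
  have hrel2 : st al be H * MvPolynomial.X 2 ^ (m.degreeOf 2) * (st al be Y * m) ^ 2 =
      H * MvPolynomial.X 2 ^ (n.degreeOf 2) * (Y * st al be m) ^ 2 := by
    have h1 : st al be n * st al be m = st al be H * st al be Y ^ 2 := by
      rw [← st_mul hs hn hm, hHY, st_mul hs hH (pow_ne_zero 2 hY), st_pow hs hY]
    linear_combination (-(m ^ 2 * MvPolynomial.X 2 ^ (m.degreeOf 2))) * h1 +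
      (m * st al be m) * hrel + (MvPolynomial.X 2 ^ (n.degreeOf 2) * st al be m ^ 2) * hHY
  obtain ⟨π, hπ, ⟨H', hH'⟩, hπo, hπs⟩ := core hs hF (wdeg H) H hH hsf hoH le_rfl (by
    intro p hp hpo hpH
    by_contra hcon
    obtain ⟨H', rfl⟩ := hpH
    have hpX : ∀ j, ¬ p ∣ (MvPolynomial.X 2 : R3) ^ j := fun j h =>
      not_dvd_zF hF hpo j 0 (h.mul_right _)
    refine parity hp (x := st al be (p * H') * MvPolynomial.X 2 ^ (m.degreeOf 2))
      (y := H' * MvPolynomial.X 2 ^ (n.degreeOf 2)) (b := st al be Y * m) (c := Y * st al be m)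
      ?_ ?_ (mul_ne_zero (st_ne hs hY) hm) (mul_ne_zero hY (st_ne hs hm)) ?_
    · exact fun h => (hp.dvd_or_dvd h).elim hcon (hpX _)
    · refine fun h => (hp.dvd_or_dvd h).elim (fun h => ?_) (hpX _)
      obtain ⟨c, rfl⟩ := h
      exact hp.not_isUnit (hsf p ⟨c, by ring⟩)
    · rw [hrel2]
      ring)
  obtain ⟨e, n', hne, hn'⟩ := exists_pow hπ hn
  obtain ⟨f, m', hmf, hm'⟩ := exists_pow hπ hm
  obtain ⟨y, Y', hYy, hY'⟩ := exists_pow hπ hY
  refine ⟨π, n', m', e, f, hπ.irreducible, hπo, hπs, hne, hmf, hn', hm', ?_⟩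
  have h1 : π ^ (e + f) * (n' * m') = π ^ (2 * y + 1) * (H' * Y' ^ 2) := by
    have h2 : π ^ (e + f) * (n' * m') = n * m := by
      rw [hne, hmf, pow_add]
      ring
    rw [h2, hHY, hH', hYy]
    ring
  have hH'' : ¬ π ∣ H' := by
    rintro ⟨c, rfl⟩
    exact hπ.not_isUnit (hsf π ⟨c, by rw [hH']; ring⟩)
  have h2 := exp_eq hπ (fun h => (hπ.dvd_or_dvd h).elim hn' hm')
    (fun h => (hπ.dvd_or_dvd h).elim hH'' (fun h => hY' (hπ.dvd_of_dvd_pow h))) h1
  rw [h2]
  exact ⟨y, rfl⟩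

end MP_d2f638_ag.Stab
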