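import Mathlib

/-!
# The elliptic curve `y² = x³ - x`: points, addition, maps
-/

namespace MP_d2f638_ag.Stab

open WeierstrassCurve

/-- The curve `y² = x³ - x` over the integers. -/
def EZ : WeierstrassCurve ℤ := ⟨0, 0, 0, -1, 0⟩

/-- The group of points of `y² = x³ - x` over the field `F`. -/
def E (F : Type) [Field F] : Type := (EZ.baseChange F).toAffine.Point

noncomputable instance instAddCommGroupE (F : Type) [Field F] : AddCommGroup (E F) := by
  classical exact inferInstanceAs (AddCommGroup (EZ.baseChange F).toAffine.Point)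

section

variable {F : Type} [Field F] [CharZero F]

omit [CharZero F] in
lemma EZ_map : EZ.baseChange F = ⟨0, 0, 0, -1, 0⟩ := by
  ext <;> simp [EZ, WeierstrassCurve.baseChange, WeierstrassCurve.map]

omit [CharZero F] in
lemma equation_iff (x y : F) : (EZ.baseChange F).toAffine.Equation x y ↔ y ^ 2 = x ^ 3 - x := by
  rw [EZ_map, WeierstrassCurve.Affine.equation_iff]
  constructor <;> intro h <;> linear_combination h

lemma nonsingular_iff (x y : F) :
    (EZ.baseChange F).toAffine.Nonsingular x y ↔ y ^ 2 = x ^ 3 - x := by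
  rw [WeierstrassCurve.Affine.nonsingular_iff, equation_iff, EZ_map]
  simp only [zero_mul, sub_zero, mul_zero, add_zero]
  constructor
  · exact fun h => h.1
  · intro h
    refine ⟨h, ?_⟩
    by_contra hcon
    push Not at hcon
    obtain ⟨h1, h2⟩ := hcon
    have hy : y = 0 := by
      have : (2 : F) * y = 0 := by linear_combination h2
      simpa using this
    subst hy
    have h3 : x ^ 3 - x = 0 := by rw [← h]; ring
    have h4 : (2 : F) = 0 := by
      have h5 : 3 * x ^ 2 - 1 = 0 := by linear_combination -h1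
      linear_combination (3 * x ^ 2 - 2) * h5 - (9 * x) * h3
    exact two_ne_zero h4

/-- The point with coordinates `x`, `y` (zero if the equation does not hold). -/
noncomputable def pt (x y : F) : E F := by
  classical exact if h : y ^ 2 = x ^ 3 - x then
    WeierstrassCurve.Affine.Point.some x y ((nonsingular_iff x y).2 h) else 0

lemma pt_def {x y : F} (h : y ^ 2 = x ^ 3 - x) :
    pt x y = WeierstrassCurve.Affine.Point.some x y ((nonsingular_iff x y).2 h) := by
  unfold pt
  rw [dif_pos h]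

lemma pt_ne_zero {x y : F} (h : y ^ 2 = x ^ 3 - x) : pt x y ≠ 0 := by
  rw [pt_def h]
  exact WeierstrassCurve.Affine.Point.some_ne_zero _

lemma pt_inj {x y x' y' : F} (h : y ^ 2 = x ^ 3 - x) (h' : y' ^ 2 = x' ^ 3 - x')
    (he : pt x y = pt x' y') : x = x' ∧ y = y' := by
  rw [pt_def h, pt_def h'] at he
  exact WeierstrassCurve.Affine.Point.some.inj he

lemma exists_pt (P : E F) : P = 0 ∨ ∃ x y, y ^ 2 = x ^ 3 - x ∧ P = pt x y := by
  rcases P with (_ | ⟨x, y, h⟩)
  · exact Or.inl rfl
  · right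
    have h' := (nonsingular_iff x y).1 h
    exact ⟨x, y, h', (pt_def h').symm⟩

lemma neg_pt {x y : F} (h : y ^ 2 = x ^ 3 - x) : -pt x y = pt x (-y) := by
  have h' : (-y) ^ 2 = x ^ 3 - x := by rw [neg_sq, h]
  rw [pt_def h, pt_def h']
  have := WeierstrassCurve.Affine.Point.neg_some ((nonsingular_iff x y).2 h)
  refine this.trans ?_
  congr 1
  rw [EZ_map]
  simp [WeierstrassCurve.Affine.negY]

lemma pt_add_neg {x y : F} (h : y ^ 2 = x ^ 3 - x) : pt x y + pt x (-y) = 0 := by
  rw [← neg_pt h, add_neg_cancel]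

/-- Addition of points with different abscissa. -/
lemma pt_add_of_ne {x1 y1 x2 y2 : F} (h1 : y1 ^ 2 = x1 ^ 3 - x1) (h2 : y2 ^ 2 = x2 ^ 3 - x2)
    (hx : x1 ≠ x2) {l x3 y3 : F} (hl : l * (x1 - x2) = y1 - y2) (h3 : x3 = l ^ 2 - x1 - x2)
    (h4 : y3 = -(l * (x3 - x1) + y1)) :
    y3 ^ 2 = x3 ^ 3 - x3 ∧ pt x1 y1 + pt x2 y2 = pt x3 y3 := by
  classical
  have hl' : l = (y1 - y2) / (x1 - x2) := by
    rw [eq_div_iff (sub_ne_zero.2 hx), hl]
  have hsl : (EZ.baseChange F).toAffine.slope x1 x2 y1 y2 = l := by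
    rw [WeierstrassCurve.Affine.slope_of_X_ne hx, hl']
  have hX : (EZ.baseChange F).toAffine.addX x1 x2 l = x3 := by
    rw [EZ_map, h3]
    simp [WeierstrassCurve.Affine.addX]
  have hY : (EZ.baseChange F).toAffine.addY x1 x2 y1 l = y3 := by
    rw [h4, ← hX, EZ_map]
    simp [WeierstrassCurve.Affine.addY, WeierstrassCurve.Affine.negAddY,
      WeierstrassCurve.Affine.negY, WeierstrassCurve.Affine.addX]
  have hadd := WeierstrassCurve.Affine.Point.add_of_X_ne
    (h₁ := (nonsingular_iff x1 y1).2 h1) (h₂ := (nonsingular_iff x2 y2).2 h2) hx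
  have hns := WeierstrassCurve.Affine.nonsingular_add ((nonsingular_iff x1 y1).2 h1)
    ((nonsingular_iff x2 y2).2 h2) (fun h => hx h.1)
  rw [hsl, hX, hY] at hns
  have h5 := (nonsingular_iff x3 y3).1 hns
  refine ⟨h5, ?_⟩
  rw [pt_def h1, pt_def h2, pt_def h5]
  refine Eq.trans (Eq.trans ?_ hadd) ?_
  · unfold instAddCommGroupE
    rfl
  · congr 1
    · rw [hsl, hX]
    · rw [hsl, hY]

/-- Duplication. -/
lemma pt_add_self {x1 y1 : F} (h1 : y1 ^ 2 = x1 ^ 3 - x1) (hy : y1 ≠ 0) {l x3 y3 : F}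
    (hl : l * (2 * y1) = 3 * x1 ^ 2 - 1) (h3 : x3 = l ^ 2 - 2 * x1)
    (h4 : y3 = -(l * (x3 - x1) + y1)) :
    y3 ^ 2 = x3 ^ 3 - x3 ∧ pt x1 y1 + pt x1 y1 = pt x3 y3 := by
  classical
  have hne : y1 ≠ (EZ.baseChange F).toAffine.negY x1 y1 := by
    rw [EZ_map]
    simp only [WeierstrassCurve.Affine.negY, zero_mul, sub_zero]
    intro h
    have h5 : (2 : F) * y1 = 0 := by linear_combination h
    simp [hy] at h5
  have hsl : (EZ.baseChange F).toAffine.slope x1 x1 y1 y1 = l := by
    rw [WeierstrassCurve.Affine.slope_of_Y_ne rfl hne]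
    have h6 : y1 - (EZ.baseChange F).toAffine.negY x1 y1 = 2 * y1 := by
      rw [EZ_map]
      simp only [WeierstrassCurve.Affine.negY, zero_mul, sub_zero]
      ring
    rw [h6, EZ_map, div_eq_iff (mul_ne_zero two_ne_zero hy), hl]
    ring
  have hX : (EZ.baseChange F).toAffine.addX x1 x1 l = x3 := by
    rw [EZ_map, h3]
    simp [WeierstrassCurve.Affine.addX]
    ring
  have hY : (EZ.baseChange F).toAffine.addY x1 x1 y1 l = y3 := by
    rw [h4, ← hX, EZ_map]
    simp [WeierstrassCurve.Affine.addY, WeierstrassCurve.Affine.negAddY,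
      WeierstrassCurve.Affine.negY, WeierstrassCurve.Affine.addX]
  have hadd := WeierstrassCurve.Affine.Point.add_self_of_Y_ne
    (h₁ := (nonsingular_iff x1 y1).2 h1) hne
  have hns := WeierstrassCurve.Affine.nonsingular_add ((nonsingular_iff x1 y1).2 h1)
    ((nonsingular_iff x1 y1).2 h1) (fun h => hne h.2)
  rw [hsl, hX, hY] at hns
  have h5 := (nonsingular_iff x3 y3).1 hns
  refine ⟨h5, ?_⟩
  rw [pt_def h1, pt_def h5]
  refine Eq.trans (Eq.trans ?_ hadd) ?_
  · unfold instAddCommGroupE
    rfl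
  · congr 1
    · rw [hsl, hX]
    · rw [hsl, hY]

/-- The three points of order two and the origin sum up to zero; translation by `(1, 0)`. -/
lemma pt_add_P3 {x y : F} (h : y ^ 2 = x ^ 3 - x) (hx : x ≠ 1) :
    ((-2 * y / (x - 1) ^ 2) ^ 2 = ((x + 1) / (x - 1)) ^ 3 - (x + 1) / (x - 1)) ∧
      pt x y + pt 1 0 = pt ((x + 1) / (x - 1)) (-2 * y / (x - 1) ^ 2) := by
  have hx1 : x - 1 ≠ 0 := sub_ne_zero.2 hx
  refine pt_add_of_ne h (by ring) hx (l := y / (x - 1)) ?_ ?_ ?_
  · rw [div_mul_cancel₀ _ hx1, sub_zero]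
  · rw [div_pow, h]
    field_simp
    ring
  · field_simp
    ring

lemma pt_one_add_self : pt (1 : F) 0 + pt 1 0 = 0 := by
  have h : (0 : F) ^ 2 = 1 ^ 3 - 1 := by ring
  have := pt_add_neg h
  rwa [neg_zero] at this

end

section

variable {F K L : Type} [Field F] [Field K] [Field L]

/-- The homomorphism on points induced by a homomorphism of fields. -/
noncomputable def Emap (f : F →+* K) : E F →+ E K := by
  classical
  exact WeierstrassCurve.Affine.Point.map (W' := EZ) (S := ℤ) f.toIntAlgHom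

lemma Emap_injective (f : F →+* K) : Function.Injective (Emap f) := by
  classical
  exact WeierstrassCurve.Affine.Point.map_injective (W' := EZ) (S := ℤ) f.toIntAlgHom

lemma Emap_pt [CharZero F] [CharZero K] (f : F →+* K) {x y : F} (h : y ^ 2 = x ^ 3 - x) :
    Emap f (pt x y) = pt (f x) (f y) := by
  have h' : (f y) ^ 2 = (f x) ^ 3 - f x := by rw [← map_pow, h, map_sub, map_pow]
  rw [pt_def h, pt_def h']
  rfl

lemma Emap_comp (f : F →+* K) (g : K →+* L) (P : E F) : Emap (g.comp f) P = Emap g (Emap f P) := by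
  rcases P with (_ | ⟨x, y, h⟩)
  · exact ((Emap (g.comp f)).map_zero).trans ((congrArg (Emap g) (Emap f).map_zero).trans
      (Emap g).map_zero).symm
  · rfl

lemma Emap_id (P : E F) : Emap (RingHom.id F) P = P := by
  rcases P with (_ | ⟨x, y, h⟩)
  · exact (Emap (RingHom.id F)).map_zero
  · rfl

/-- The homomorphism equation for points in terms of coordinates. -/
lemma eqn_map (f : F →+* K) {x y : F} (h : y ^ 2 = x ^ 3 - x) : (f y) ^ 2 = (f x) ^ 3 - f x := by
  rw [← map_pow, h, map_sub, map_pow]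

/-- A point whose image has coordinates in the image comes from the small field. -/
lemma exists_of_coord [CharZero F] [CharZero K] (f : F →+* K) {x y : F}
    (h : (f y) ^ 2 = (f x) ^ 3 - f x) : y ^ 2 = x ^ 3 - x ∧ Emap f (pt x y) = pt (f x) (f y) := by
  have h' : y ^ 2 = x ^ 3 - x := by
    apply f.injective
    rw [map_sub, map_pow, map_pow, h]
  exact ⟨h', Emap_pt f h'⟩

end

section Mul

variable {F K : Type} [Field F] [CharZero F] [Field K] [CharZero K]

/-- The map `(x, y) ↦ (-x, I y)` on coordinates, for a square root `I` of `-1`. -/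
noncomputable def imulFun (I : F) (P : E F) : E F :=
  match P with
  | WeierstrassCurve.Affine.Point.zero => 0
  | WeierstrassCurve.Affine.Point.some x y _ => pt (-x) (I * y)

lemma imulFun_zero (I : F) : imulFun I (0 : E F) = 0 := rfl

lemma imulFun_pt (I : F) {x y : F} (h : y ^ 2 = x ^ 3 - x) :
    imulFun I (pt x y) = pt (-x) (I * y) := by
  rw [pt_def h]
  rfl

omit [CharZero F] in
lemma imul_eqn {I : F} (hI : I ^ 2 = -1) {x y : F} (h : y ^ 2 = x ^ 3 - x) :
    (I * y) ^ 2 = (-x) ^ 3 - (-x) := by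
  rw [mul_pow, hI, h]
  ring

/-- Multiplication by `I` on the curve. -/
noncomputable def imul (I : F) (hI : I ^ 2 = -1) : E F →+ E F where
  toFun := imulFun I
  map_zero' := rfl
  map_add' P Q := by
    rcases exists_pt P with rfl | ⟨x1, y1, h1, rfl⟩
    · rw [zero_add, imulFun_zero, zero_add]
    rcases exists_pt Q with rfl | ⟨x2, y2, h2, rfl⟩
    · rw [add_zero, imulFun_zero, add_zero]
    rw [imulFun_pt I h1, imulFun_pt I h2]
    have hI0 : I ≠ 0 := by
      rintro rfl
      norm_num at hI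
    by_cases hx : x1 = x2
    · subst hx
      have hy : (y1 - y2) * (y1 + y2) = 0 := by linear_combination h1 - h2
      rcases mul_eq_zero.1 hy with hy | hy
      · have hy : y2 = y1 := by linear_combination -hy
        subst hy
        by_cases hy0 : y2 = 0
        · subst hy0
          have h3 := pt_add_neg h1
          rw [neg_zero] at h3
          have h4 := pt_add_neg (imul_eqn hI h1)
          rw [mul_zero, neg_zero] at h4
          rw [h3, mul_zero, h4]
          rfl
        · obtain ⟨h3, h4⟩ := pt_add_self h1 hy0 (l := (3 * x1 ^ 2 - 1) / (2 * y2))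
            (div_mul_cancel₀ _ (mul_ne_zero two_ne_zero hy0)) rfl rfl
          rw [h4, imulFun_pt I h3]
          obtain ⟨h5, h6⟩ := pt_add_self (imul_eqn hI h1) (mul_ne_zero hI0 hy0)
            (l := -I * ((3 * x1 ^ 2 - 1) / (2 * y2)))
            (x3 := -(((3 * x1 ^ 2 - 1) / (2 * y2)) ^ 2 - 2 * x1))
            (y3 := I * -((3 * x1 ^ 2 - 1) / (2 * y2) *
              (((3 * x1 ^ 2 - 1) / (2 * y2)) ^ 2 - 2 * x1 - x1) + y2))
            (by
              field_simp
              linear_combination (-(3 * x1 ^ 2 - 1)) * hI)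
            (by linear_combination (-((3 * x1 ^ 2 - 1) / (2 * y2)) ^ 2) * hI) (by ring)
          rw [h6]
      · have hy : y2 = -y1 := by linear_combination hy
        subst hy
        rw [pt_add_neg h1, mul_neg, pt_add_neg (imul_eqn hI h1)]
        rfl
    · obtain ⟨h3, h4⟩ := pt_add_of_ne h1 h2 hx (l := (y1 - y2) / (x1 - x2))
        (div_mul_cancel₀ _ (sub_ne_zero.2 hx)) rfl rfl
      rw [h4, imulFun_pt I h3]
      have hx' : -x1 ≠ -x2 := fun h => hx (neg_injective h)
      obtain ⟨h5, h6⟩ := pt_add_of_ne (imul_eqn hI h1) (imul_eqn hI h2) hx'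
        (l := -I * ((y1 - y2) / (x1 - x2)))
        (x3 := -(((y1 - y2) / (x1 - x2)) ^ 2 - x1 - x2))
        (y3 := I * -((y1 - y2) / (x1 - x2) * (((y1 - y2) / (x1 - x2)) ^ 2 - x1 - x2 - x1) + y1))
        (by
          have := sub_ne_zero.2 hx
          field_simp
          ring)
        (by linear_combination (-((y1 - y2) / (x1 - x2)) ^ 2) * hI) (by ring)
      rw [h6]

lemma imul_pt {I : F} (hI : I ^ 2 = -1) {x y : F} (h : y ^ 2 = x ^ 3 - x) :
    imul I hI (pt x y) = pt (-x) (I * y) := imulFun_pt I h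

lemma imul_imul {I : F} (hI : I ^ 2 = -1) (P : E F) : imul I hI (imul I hI P) = -P := by
  rcases exists_pt P with rfl | ⟨x1, y1, h1, rfl⟩
  · rw [map_zero, map_zero, neg_zero]
  · rw [imul_pt hI h1, imul_pt hI (imul_eqn hI h1), neg_pt h1, neg_neg]
    congr 1
    linear_combination y1 * hI

lemma Emap_imul (f : F →+* K) {I : F} (hI : I ^ 2 = -1) (P : E F) :
    Emap f (imul I hI P) = imul (f I) (by rw [← map_pow, hI, map_neg, map_one]) (Emap f P) := by
  rcases exists_pt P with rfl | ⟨x1, y1, h1, rfl⟩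
  · simp only [map_zero]
  · rw [imul_pt hI h1, Emap_pt f (imul_eqn hI h1), Emap_pt f h1, imul_pt _ (eqn_map f h1),
      map_neg, map_mul]

end Mul

end MP_d2f638_ag.Stab
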