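import Pool.Agent.Lib.MP_d2f638_ag.Stab.Rank

/-!
# Module N1: a zero of `π` whose coordinates have transcendence degree two is generic
-/

namespace MP_d2f638_ag.Stab

open Polynomial

section

variable {k L : Type} [Field k] [Field L]

/-- The core case: the last two coordinates are independent. -/
lemma gen_core (i : k →+* L) (π q : MvPolynomial (Fin 3) k) (P : Fin 3 → L)
    (hirr : Irreducible π) (hπ : MvPolynomial.eval₂ i P π = 0)
    (hq : MvPolynomial.eval₂ i P q = 0) (hAI : AI i (fun j : Fin 2 => P j.succ)) : π ∣ q := by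
  classical
  set φ : MvPolynomial (Fin 2) k →+* L := MvPolynomial.eval₂Hom i (fun j : Fin 2 => P j.succ)
    with hφ
  have hφinj : Function.Injective φ := by
    rw [injective_iff_map_eq_zero]
    intro a ha
    by_contra hne
    exact hAI a hne ha
  set Ψ := MvPolynomial.finSuccEquiv k 2 with hΨ
  have hev : ∀ r : MvPolynomial (Fin 3) k,
      MvPolynomial.eval₂ i P r = (Ψ r).eval₂ φ (P 0) := by
    intro r
    have h : (MvPolynomial.eval₂Hom i P) =
        (Polynomial.eval₂RingHom φ (P 0)).comp (Ψ : MvPolynomial (Fin 3) k →+*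
          Polynomial (MvPolynomial (Fin 2) k)) := by
      apply MvPolynomial.ringHom_ext
      · intro c
        simp [hΨ, hφ, MvPolynomial.finSuccEquiv_apply]
      · intro j
        refine Fin.cases ?_ (fun j => ?_) j
        · simp [hΨ, hφ, MvPolynomial.finSuccEquiv_apply]
        · simp [hΨ, hφ, MvPolynomial.finSuccEquiv_apply]
    have h2 := congrArg (fun f => f r) h
    simpa using h2
  set K := FractionRing (MvPolynomial (Fin 2) k)
  set j : K →+* L := IsFractionRing.lift hφinj with hj
  have hjc : ∀ a, j (algebraMap (MvPolynomial (Fin 2) k) K a) = φ a := fun a =>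
    IsFractionRing.lift_algebraMap hφinj a
  have hev2 : ∀ r : MvPolynomial (Fin 3) k,
      ((Ψ r).map (algebraMap _ K)).eval₂ j (P 0) = MvPolynomial.eval₂ i P r := by
    intro r
    rw [hev, Polynomial.eval₂_map]
    congr 1
    ext a <;> simp [hjc]
  have hp : Irreducible (Ψ π) := hirr.map Ψ
  have hdeg : (Ψ π).natDegree ≠ 0 := by
    intro h0
    obtain ⟨c, hc⟩ := Polynomial.natDegree_eq_zero.1 h0
    have h1 := hev π
    rw [hπ, ← hc, Polynomial.eval₂_C] at h1
    have h2 : c = 0 := (injective_iff_map_eq_zero φ).1 hφinj c h1.symm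
    rw [← hc, h2] at hp
    simp at hp
  have hprim : (Ψ π).IsPrimitive := hp.isPrimitive hdeg
  have hpK : Irreducible ((Ψ π).map (algebraMap _ K)) :=
    hprim.irreducible_iff_irreducible_map_fraction_map.1 hp
  have hdvd : (Ψ π).map (algebraMap _ K) ∣ (Ψ q).map (algebraMap _ K) := by
    by_contra hnd
    obtain ⟨a, b, hab⟩ := (hpK.coprime_iff_not_dvd.2 hnd)
    have h1 := congrArg (Polynomial.eval₂ j (P 0)) hab
    rw [Polynomial.eval₂_add, Polynomial.eval₂_mul, Polynomial.eval₂_mul, hev2, hev2, hπ, hq,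
      Polynomial.eval₂_one] at h1
    simp at h1
  have hd := hprim.dvd_of_fraction_map_dvd_fraction_map hdvd
  exact (map_dvd_iff Ψ).1 hd

lemma genPt_clF_mono (i : k →+* L) {T T' : Set L} (h : T ⊆ T') : clF i T ≤ clF i T' := by
  let _ : Algebra k L := i.toAlgebra
  have hi : i = algebraMap k L := rfl
  rw [hi]
  intro x hx
  rw [mem_clF_iff_closure] at hx ⊢
  exact (AlgebraicIndependent.matroid k L).closure_subset_closure h hx

lemma genPt_subset_clF (i : k →+* L) (T : Set L) {x : L} (h : x ∈ T) : x ∈ clF i T := by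
  let _ : Algebra k L := i.toAlgebra
  have hi : i = algebraMap k L := rfl
  rw [hi, mem_clF_iff_isAlgebraic]
  exact isAlgebraic_algebraMap (⟨x, Algebra.subset_adjoin h⟩ : Algebra.adjoin k T)

lemma AI_empty (i : k →+* L) (v : Fin 0 → L) : AI i v := by
  intro p hp h
  obtain ⟨c, rfl⟩ := MvPolynomial.C_surjective (R := k) (Fin 0) p
  rw [MvPolynomial.eval₂_C, map_eq_zero] at h
  exact hp (by rw [h, MvPolynomial.C_0])

lemma AI_one_iff (i : k →+* L) (x : L) : AI i ![x] ↔ x ∉ clF i (∅ : Set L) := by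
  have h := snoc k L i 0 ![] x
  have h1 : (Fin.snoc ![] x : Fin 1 → L) = ![x] := by
    funext j
    fin_cases j
    rfl
  rw [h1] at h
  rw [h]
  simp [AI_empty]

lemma AI_two_iff (i : k →+* L) (x y : L) :
    AI i ![x, y] ↔ x ∉ clF i (∅ : Set L) ∧ y ∉ clF i ({x} : Set L) := by
  have h := snoc k L i 1 ![x] y
  have h1 : (Fin.snoc ![x] y : Fin 2 → L) = ![x, y] := by
    funext j
    fin_cases j
    · rfl
    · rfl
  rw [h1] at h
  rw [h, AI_one_iff]
  simp

/-- If the coordinates are not all algebraic over one element, two of them are independent. -/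
lemma exists_pair (i : k →+* L) (P : Fin 3 → L) (h : ¬ ∃ e : L, ∀ j, P j ∈ clF i {e}) :
    ∃ a b : Fin 3, a ≠ b ∧ AI i ![P a, P b] := by
  push Not at h
  obtain ⟨a, ha⟩ : ∃ a, P a ∉ clF i (∅ : Set L) := by
    by_contra hcon
    push Not at hcon
    obtain ⟨j, hj⟩ := h 0
    exact hj (genPt_clF_mono i (Set.empty_subset _) (hcon j))
  obtain ⟨b, hb⟩ := h (P a)
  refine ⟨a, b, ?_, (AI_two_iff i _ _).2 ⟨ha, hb⟩⟩
  rintro rfl
  exact hb (genPt_subset_clF i _ (Set.mem_singleton _))

end

/-- N1. -/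
theorem genPt : stGen := by
  intro k L _ _ i π P hirr hπ hP q
  constructor
  · intro hq
    obtain ⟨a, b, hab, hAI⟩ := exists_pair i P hP
    have hσ : ∀ a b : Fin 3, a ≠ b → ∃ σ : Equiv.Perm (Fin 3), σ 1 = a ∧ σ 2 = b := by decide
    obtain ⟨σ, hσ1, hσ2⟩ := hσ a b hab
    have hev : ∀ r : MvPolynomial (Fin 3) k,
        MvPolynomial.eval₂ i (P ∘ σ) (MvPolynomial.renameEquiv k σ.symm r) =
          MvPolynomial.eval₂ i P r := by
      intro r
      rw [MvPolynomial.renameEquiv_apply, MvPolynomial.eval₂_rename]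
      congr 1
      funext j
      simp
    have h1 : MvPolynomial.renameEquiv k σ.symm π ∣ MvPolynomial.renameEquiv k σ.symm q := by
      refine gen_core i _ _ (P ∘ σ) (hirr.map _) ?_ ?_ ?_
      · rw [hev, hπ]
      · rw [hev, hq]
      · have : (fun j : Fin 2 => (P ∘ σ) j.succ) = ![P a, P b] := by
          funext j
          fin_cases j
          · simp [← hσ1]
          · simp [← hσ2]
        rw [this]
        exact hAI
    exact (map_dvd_iff _).1 h1
  · rintro ⟨r, rfl⟩
    rw [MvPolynomial.eval₂_mul, hπ, zero_mul]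

end MP_d2f638_ag.Stab
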