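import Pool.Agent.Lib.MP_d2f638_ag.Stab.Stmts
import Pool.Agent.Lib.MP_d2f638_ag.Defs

/-!
# Statements of the modules, first part (from stable rationality to the surface)
-/

namespace MP_d2f638_ag.Stab

open Polynomial

/-! ## Norm principle and R-equivalence -/

/-- The quaternion norm form `⟨1, 1, -q, -q⟩`. -/
def nf {M : Type} [CommRing M] (q : M) (v : Fin 4 → M) : M :=
  v 0 ^ 2 + v 1 ^ 2 - q * (v 2 ^ 2 + v 3 ^ 2)

/-- Anisotropy. -/
def Anis {M : Type} [Field M] (q : M) : Prop := ∀ v : Fin 4 → M, nf q v = 0 → v = 0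

/-- A1. Norm principle. -/
def stNP : Prop := ∀ (M : Type) [Field M] (q : M), Anis q → ∀ (f : M[X]) (e1 e2 : M),
    f.eval e1 ≠ 0 → f.eval e2 ≠ 0 →
    (∀ θ : M[X], Irreducible θ → θ ∣ f → ∃ u : Fin 4 → M[X], (∃ j, ¬ θ ∣ u j) ∧ θ ∣ nf (C q) u) →
    ∃ v : Fin 4 → M, f.eval e1 * f.eval e2 = nf q v

/-- A2. The value at a real point. -/
def stVal : Prop := ∀ (al be t w z1 z2 : ℝ), 0 < be → be < al → z1 ^ 2 + z2 ^ 2 = Ff al be t w →
    ∃ (σ : ℝ) (s : ℝ) (f g : ℝ[X]), 0 ≤ σ ∧ (s = 1 ∨ s = -1) ∧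
      C s * (X - C t) + C σ * Qf (C al) (C be) X = f ^ 2 + g ^ 2

/-- A3. Rational connectedness of the rational variety: the function `x - t` is a norm. -/
def stGLine : Prop := ∀ (N : ℕ) (M : Type) [Field M] (j : RatField N →+* M) (al be : ℝ) (x y : M),
    0 < be → be < al → be ^ 2 = al ^ 2 - 1 →
    Trans j x → y ^ 2 = delta (j (algebraMap ℝ (RatField N) al)) x →
    Anis (Qf (j (algebraMap ℝ (RatField N) al)) (j (algebraMap ℝ (RatField N) be)) x) →
    ∀ t w z1 z2 : RatField N, z1 ^ 2 + z2 ^ 2 =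
      Ff (algebraMap ℝ (RatField N) al) (algebraMap ℝ (RatField N) be) t w →
    ∃ G : RatField N, G ≠ 0 ∧ ∃ v : Fin 4 → M, j G * (x - j t) =
      nf (Qf (j (algebraMap ℝ (RatField N) al)) (j (algebraMap ℝ (RatField N) be)) x) v

/-- The function field of the threefold. -/
structure IsK {K : Type} [Field K] [Algebra ℝ K] (al be : ℝ) (t w z1 z2 : K) : Prop where
  eqn : z1 ^ 2 + z2 ^ 2 = Ff (algebraMap ℝ K al) (algebraMap ℝ K be) t w
  ind : AlgebraicIndependent ℝ ![t, w, z1]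
  gen : IntermediateField.adjoin ℝ {t, w, z1, z2} = ⊤

/-- A4. Anisotropy over the function field of the curve over `K`. -/
def stAnis : Prop := ∀ (K M : Type) [Field K] [Algebra ℝ K] [Field M] (al be : ℝ)
    (t w z1 z2 : K) (iM : K →+* M) (x y : M), 0 < be → be < al → be ^ 2 = al ^ 2 - 1 →
    IsK al be t w z1 z2 → IsCF iM (algebraMap ℝ K al) x y →
    Anis (Qf (iM (algebraMap ℝ K al)) (iM (algebraMap ℝ K be)) x)

/-- A5. Specialisation of additional variables. -/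
def stSpec : Prop := ∀ (K M : Type) [Field K] [CharZero K] [Field M] (iM : K →+* M) (m : ℕ)
    (q x : M) (t : K), Anis q →
    (Anis (algebraMap M (FractionRing (MvPolynomial (Fin m) M)) q)) ∧
    ∀ (J : FractionRing (MvPolynomial (Fin m) K) →+* FractionRing (MvPolynomial (Fin m) M)),
      (∀ p : MvPolynomial (Fin m) K, J (algebraMap _ _ p) =
        algebraMap _ _ (MvPolynomial.map iM p)) →
    ∀ (G : FractionRing (MvPolynomial (Fin m) K))
      (v : Fin 4 → FractionRing (MvPolynomial (Fin m) M)), G ≠ 0 →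
      J G * (algebraMap M _ x - algebraMap M _ (iM t)) = nf (algebraMap M _ q) v →
      ∃ G' : K, G' ≠ 0 ∧ ∃ v' : Fin 4 → M, iM G' * (x - iM t) = nf q v'

/-! ## The complex function field and its real structure -/

/-- The field `ℂ(t, w, z)`. -/
abbrev KC : Type := FractionRing (MvPolynomial (Fin 3) ℂ)

/-- The coordinates. -/
noncomputable def tK : KC := algebraMap (MvPolynomial (Fin 3) ℂ) KC (MvPolynomial.X 0)

/-- The coordinates. -/
noncomputable def wK : KC := algebraMap (MvPolynomial (Fin 3) ℂ) KC (MvPolynomial.X 1)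

/-- The coordinates. -/
noncomputable def zK : KC := algebraMap (MvPolynomial (Fin 3) ℂ) KC (MvPolynomial.X 2)

/-- Constants. -/
noncomputable def cK : ℂ →+* KC := algebraMap ℂ KC

/-- The real structure on `ℂ(t, w, z)`. -/
structure IsS (al be : ℝ) (s : KC →+* KC) : Prop where
  const : ∀ c : ℂ, s (cK c) = cK (starRingEnd ℂ c)
  t : s tK = tK
  w : s wK = wK
  z : s zK = Ff (cK al) (cK be) tK wK / zK

/-- A6. Existence of the real structure. -/
def stSex : Prop := ∀ (al be : ℝ), 0 < be → be < al → ∃ s : KC →+* KC, IsS al be s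

/-- The norm equation with cleared denominators. -/
structure GData (al be : ℝ) (s : KC →+* KC) where
  G : KC
  d : KC[X]
  a1 : KC[X]
  b1 : KC[X]
  a2 : KC[X]
  b2 : KC[X]
  G0 : G ≠ 0
  sG : s G = G
  d0 : d ≠ 0
  sd : d.map s = d
  id1 : C G * (X - C tK) * d ^ 2 =
    a1 * a1.map s + b1 * b1.map s * delta (C (cK al)) X -
      Qf (C (cK al)) (C (cK be)) X * (a2 * a2.map s + b2 * b2.map s * delta (C (cK al)) X)
  id2 : a1 * b1.map s + b1 * a1.map s =
    Qf (C (cK al)) (C (cK be)) X * (a2 * b2.map s + b2 * a2.map s)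

/-- A7. Transport to the complex function field. -/
def stToC : Prop := ∀ (K M : Type) [Field K] [Algebra ℝ K] [Field M] (al be : ℝ)
    (t w z1 z2 : K) (iM : K →+* M) (x y : M) (s : KC →+* KC), 0 < be → be < al →
    be ^ 2 = al ^ 2 - 1 → IsK al be t w z1 z2 → IsCF iM (algebraMap ℝ K al) x y → IsS al be s →
    ∀ (G : K) (v : Fin 4 → M), G ≠ 0 → iM G * (x - iM t) =
      nf (Qf (iM (algebraMap ℝ K al)) (iM (algebraMap ℝ K be)) x) v →
    Nonempty (GData al be s)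

/-! ## From the norm equation to the surface -/

/-- B1. The parity at infinity. -/
def stInf : Prop := ∀ (al be : ℝ) (s : KC →+* KC), 0 < be → be < al → be ^ 2 = al ^ 2 - 1 →
    IsS al be s → ∀ (g : GData al be s) (n m : MvPolynomial (Fin 3) ℂ), m ≠ 0 →
    g.G * algebraMap _ KC m = algebraMap _ KC n → Odd (wdeg n + wdeg m)

/-- B2. A surface of odd degree, of odd multiplicity and stable under the real structure. -/
def stDiv : Prop := ∀ (al be : ℝ) (s : KC →+* KC), 0 < be → be < al → be ^ 2 = al ^ 2 - 1 →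
    IsS al be s → ∀ (G : KC) (n m : MvPolynomial (Fin 3) ℂ), G ≠ 0 → s G = G → m ≠ 0 →
    G * algebraMap _ KC m = algebraMap _ KC n → Odd (wdeg n + wdeg m) →
    ∃ (π n' m' : MvPolynomial (Fin 3) ℂ) (e f : ℕ), Irreducible π ∧ Odd (wdeg π) ∧
      π ∣ pstar (starRingEnd ℂ) (al : ℂ) be (π.degreeOf 2) π ∧ n = π ^ e * n' ∧ m = π ^ f * m' ∧
      ¬ π ∣ n' ∧ ¬ π ∣ m' ∧ Odd (e + f)

/-- The real structure on the function field of the surface. -/
structure IsSW (al be : ℝ) {κ : Type} [Field κ] (φ : MvPolynomial (Fin 3) ℂ →+* κ)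
    (s : κ →+* κ) : Prop where
  const : ∀ c : ℂ, s (φ (MvPolynomial.C c)) = φ (MvPolynomial.C (starRingEnd ℂ c))
  t : s (φ (MvPolynomial.X 0)) = φ (MvPolynomial.X 0)
  w : s (φ (MvPolynomial.X 1)) = φ (MvPolynomial.X 1)
  z : s (φ (MvPolynomial.X 2)) = φ (FP (al : ℂ) be) / φ (MvPolynomial.X 2)

/-- The norm equation over a field `κ` with an involution `s`. -/
structure NormEq {κ : Type} [Field κ] (a b : κ) (s : κ →+* κ) (a1 b1 a2 b2 : κ[X]) : Prop where
  ne : ¬ (a1 = 0 ∧ b1 = 0 ∧ a2 = 0 ∧ b2 = 0)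
  id1 : a1 * a1.map s + b1 * b1.map s * delta (C a) X =
      Qf (C a) (C b) X * (a2 * a2.map s + b2 * b2.map s * delta (C a) X)
  id2 : a1 * b1.map s + b1 * a1.map s = Qf (C a) (C b) X * (a2 * b2.map s + b2 * a2.map s)

/-- B3. Residue along the surface. -/
def stRes : Prop := ∀ (al be : ℝ) (s : KC →+* KC), 0 < be → be < al → be ^ 2 = al ^ 2 - 1 →
    IsS al be s → ∀ (g : GData al be s) (π n' m' : MvPolynomial (Fin 3) ℂ) (e f : ℕ),
    Irreducible π → Odd (wdeg π) →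
    π ∣ pstar (starRingEnd ℂ) (al : ℂ) be (π.degreeOf 2) π →
    g.G * algebraMap _ KC (π ^ f * m') = algebraMap _ KC (π ^ e * n') →
    ¬ π ∣ n' → ¬ π ∣ m' → Odd (e + f) →
    ∃ (κ : Type) (_ : Field κ) (φ : MvPolynomial (Fin 3) ℂ →+* κ) (sW : κ →+* κ)
      (a1 b1 a2 b2 : κ[X]), (∀ q, φ q = 0 ↔ π ∣ q) ∧
      (∀ r : κ, ∃ p q, φ q ≠ 0 ∧ r * φ q = φ p) ∧ IsSW al be φ sW ∧
      NormEq (φ (MvPolynomial.C (al : ℂ))) (φ (MvPolynomial.C (be : ℂ))) sW a1 b1 a2 b2

/-- B4. From the norm equation to the point of the elliptic curve. -/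
def stEP : Prop := ∀ (κ : Type) [Field κ] [CharZero κ] (s : κ →+* κ) (a b I : κ)
    (a1 b1 a2 b2 : κ[X]), (∀ c, s (s c) = c) → s a = a → s b = b → I ^ 2 = -1 → s I = -I →
    b ^ 2 = a ^ 2 - 1 → a ^ 2 ≠ 0 → a ^ 4 ≠ 1 → NormEq a b s a1 b1 a2 b2 →
    ∃ p q : κ, q ^ 2 = p ^ 3 - p ∧ p ≠ 1 ∧ s p = (p + 1) / (p - 1) ∧
      s q = -2 * q / (p - 1) ^ 2

/-- B5. Descent to a countable field. -/
def stDesc : Prop := ∀ (al be : ℝ) (π : MvPolynomial (Fin 3) ℂ) (κ : Type) [Field κ]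
    (φ : MvPolynomial (Fin 3) ℂ →+* κ) (sW : κ →+* κ) (p q : κ), 0 < be → be < al →
    be ^ 2 = al ^ 2 - 1 → Transcendental ℚ al → Irreducible π → Odd (wdeg π) →
    π ∣ pstar (starRingEnd ℂ) (al : ℂ) be (π.degreeOf 2) π → (∀ q, φ q = 0 ↔ π ∣ q) →
    (∀ r : κ, ∃ p q, φ q ≠ 0 ∧ r * φ q = φ p) → IsSW al be φ sW →
    q ^ 2 = p ^ 3 - p → p ≠ 1 → sW p = (p + 1) / (p - 1) → sW q = -2 * q / (p - 1) ^ 2 →
    ∃ (k : Type) (_ : Field k) (_ : IsAlgClosed k) (_ : CharZero k) (_ : Countable k)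
      (i : k →+* ℂ) (cj : k →+* k) (a b : k) (A : AD k), SHyp i cj a b al be A

/-- The second half of the proof. -/
def stB : Prop := ∀ (k : Type) [Field k] [IsAlgClosed k] [CharZero k] [Countable k]
    (i : k →+* ℂ) (cj : k →+* k) (a b : k) (al be : ℝ) (A : AD k), ¬ SHyp i cj a b al be A

/-! ## The threefold -/

/-- G1. The threefold as an intersection of two quadrics. -/
def stX : Prop := ∀ (al be : ℝ), 0 < be → be < al → be ^ 2 = al ^ 2 - 1 →
    ∃ A B : Matrix (Fin 6) (Fin 6) ℝ, A.IsSymm ∧ B.IsSymm ∧ SmoothCI A B ∧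
      ConnectedSpace (RealPoints A B) ∧ ∃ (_ : (idealX A B).IsPrime),
      ∃ t w z1 z2 : fnField A B, IsK al be t w z1 z2

end MP_d2f638_ag.Stab
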