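import Pool.Agent.Lib.MP_d2f638_ag.Stab.XChart
import Pool.Agent.Lib.MP_d2f638_ag.Stab.StmtsA

/-!
# The threefold as an intersection of two quadrics
-/

namespace MP_d2f638_ag.Stab

open MvPolynomial Matrix

/-- The absolute values of the coefficients. -/
noncomputable def cabs (al be s : ℝ) : Fin 6 → ℝ :=
  ![al - be, (al - be) * (s ^ 2 - be ^ 2), (al - be) * (s ^ 2 - al ^ 2),
    2 * s * (s - al) * (s - be), 2 * s * (s + al) * (s + be), al - be]

lemma cabs_pos {al be s : ℝ} (hbe : 0 < be) (hal : be < al) (hs : al < s) (j : Fin 6) :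
    0 < cabs al be s j := by
  have h1 : 0 < al - be := by linarith
  have h2 : 0 < s - al := by linarith
  have h3 : 0 < s - be := by linarith
  have h4 : 0 < s + al := by linarith
  have h5 : 0 < s + be := by linarith
  have h6 : 0 < s := by linarith
  have h7 : s ^ 2 - be ^ 2 = (s - be) * (s + be) := by ring
  have h8 : s ^ 2 - al ^ 2 = (s - al) * (s + al) := by ring
  fin_cases j
  · exact h1
  · show 0 < (al - be) * (s ^ 2 - be ^ 2)
    rw [h7]
    positivity
  · show 0 < (al - be) * (s ^ 2 - al ^ 2)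
    rw [h8]
    positivity
  · show 0 < 2 * s * (s - al) * (s - be)
    positivity
  · show 0 < 2 * s * (s + al) * (s + be)
    positivity
  · exact h1

/-- The scaling factors. -/
noncomputable def kap (al be s : ℝ) (j : Fin 6) : ℝ := 1 / √(cabs al be s j)

lemma kap_sq {al be s : ℝ} (hbe : 0 < be) (hal : be < al) (hs : al < s) (j : Fin 6) :
    kap al be s j ^ 2 * cabs al be s j = 1 := by
  have h := cabs_pos hbe hal hs j
  rw [kap, div_pow, Real.sq_sqrt h.le, one_pow]
  field_simp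

lemma kap_ne {al be s : ℝ} (hbe : 0 < be) (hal : be < al) (hs : al < s) (j : Fin 6) :
    kap al be s j ≠ 0 := by
  intro h
  have h1 := kap_sq hbe hal hs j
  rw [h] at h1
  norm_num at h1

section

variable {L : Type} [Field L] [Algebra ℝ L]

/-- The scaled coordinates. -/
noncomputable def YL (al be s : ℝ) (y : Fin 6 → L) (j : Fin 6) : L :=
  algebraMap ℝ L (kap al be s j) * y j

lemma rel_of_genPt {al be s : ℝ} {y : Fin 6 → L} (h : GenPt AX (BX al be s) y) :
    (-y 0 ^ 2 - y 1 ^ 2 + y 2 ^ 2 - y 3 ^ 2 + y 4 ^ 2 + y 5 ^ 2 = 0) ∧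
    (algebraMap ℝ L be * y 0 ^ 2 - algebraMap ℝ L be * y 1 ^ 2 + algebraMap ℝ L al * y 2 ^ 2 -
      algebraMap ℝ L s * y 3 ^ 2 - algebraMap ℝ L s * y 4 ^ 2 -
      algebraMap ℝ L al * y 5 ^ 2 = 0) := by
  have h1 : aeval y (quad AX) = 0 := (h _).2 (Ideal.subset_span (Or.inl rfl))
  have h2 : aeval y (quad (BX al be s)) = 0 := (h _).2 (Ideal.subset_span (Or.inr rfl))
  have h3 : ∀ w : Fin 6 → ℝ, aeval y (quad (Matrix.diagonal w)) =
      ∑ i, algebraMap ℝ L (w i) * y i ^ 2 := by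
    intro w
    simp only [quad, map_sum, map_mul, aeval_X, algHom_C]
    refine Finset.sum_congr rfl fun i _ => ?_
    rw [Finset.sum_eq_single i]
    · rw [Matrix.diagonal_apply_eq]
      ring
    · intro j _ hj
      rw [Matrix.diagonal_apply_ne _ hj.symm]
      simp
    · intro hi
      exact absurd (Finset.mem_univ i) hi
  rw [AX, h3] at h1
  rw [BX, h3] at h2
  simp only [Fin.sum_univ_six, epX, xsX] at h1 h2
  simp at h1 h2
  constructor
  · linear_combination h1
  · linear_combination h2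

lemma chart_of_genPt {al be s : ℝ} (hbe : 0 < be) (hal : be < al) (hs : al < s)
    (hs2 : s ^ 2 = al ^ 2 + 1) {y : Fin 6 → L} (h : GenPt AX (BX al be s) y) :
    ChartData (algebraMap ℝ L al) (algebraMap ℝ L be) (algebraMap ℝ L s) (YL al be s y) := by
  obtain ⟨h1, h2⟩ := rel_of_genPt h
  have hk : ∀ j, algebraMap ℝ L (kap al be s j) ^ 2 * algebraMap ℝ L (cabs al be s j) = 1 := by
    intro j
    rw [← map_pow, ← map_mul, kap_sq hbe hal hs, map_one]
  have k0 := hk 0
  have k1 := hk 1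
  have k2 := hk 2
  have k3 := hk 3
  have k4 := hk 4
  have k5 := hk 5
  have c0 : cabs al be s 0 = al - be := rfl
  have c1 : cabs al be s 1 = (al - be) * (s ^ 2 - be ^ 2) := rfl
  have c2 : cabs al be s 2 = (al - be) * (s ^ 2 - al ^ 2) := rfl
  have c3 : cabs al be s 3 = 2 * s * (s - al) * (s - be) := rfl
  have c4 : cabs al be s 4 = 2 * s * (s + al) * (s + be) := rfl
  have c5 : cabs al be s 5 = al - be := rfl
  rw [c0] at k0
  rw [c1] at k1
  rw [c2] at k2
  rw [c3] at k3
  rw [c4] at k4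
  rw [c5] at k5
  simp only [map_sub, map_mul, map_pow, map_add, map_ofNat] at k0 k1 k2 k3 k4 k5
  have hs2' : algebraMap ℝ L s ^ 2 = algebraMap ℝ L al ^ 2 + 1 := by
    rw [← map_pow, hs2, map_add, map_pow, map_one]
  refine ⟨hs2', ?_, ?_, ?_⟩
  · simp only [YL]
    linear_combination h1 - y 0 ^ 2 * k0 - y 1 ^ 2 * k1 + y 2 ^ 2 * k2 - y 3 ^ 2 * k3 +
      y 4 ^ 2 * k4 + y 5 ^ 2 * k5
  · simp only [YL]
    linear_combination h2 + algebraMap ℝ L be * y 0 ^ 2 * k0 -
      algebraMap ℝ L be * y 1 ^ 2 * k1 + algebraMap ℝ L al * y 2 ^ 2 * k2 -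
      algebraMap ℝ L s * y 3 ^ 2 * k3 - algebraMap ℝ L s * y 4 ^ 2 * k4 -
      algebraMap ℝ L al * y 5 ^ 2 * k5
  · intro h0
    have h3 := GenPt.lin h (l := ![0, kap al be s 1, kap al be s 2, kap al be s 3, kap al be s 4, 0])
      (by
        simp only [Fin.sum_univ_six]
        simp only [YL] at h0
        simp
        linear_combination h0)
    have h4 := congrFun h3 1
    exact kap_ne hbe hal hs 1 h4

lemma mem_of_mul_eq (E : IntermediateField ℝ L) {c : ℝ} {x m : L} (hc : c ≠ 0) (hm : m ∈ E)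
    (h : algebraMap ℝ L c * x = m) : x ∈ E := by
  have h1 : x = algebraMap ℝ L c⁻¹ * m := by
    rw [← h, ← mul_assoc, ← map_mul, inv_mul_cancel₀ hc, map_one, one_mul]
  rw [h1]
  exact E.mul_mem (E.algebraMap_mem _) hm

/-- The coordinates are rational functions of the four coordinates of the chart. -/
lemma mem_of_chart {al be s : ℝ} (hbe : 0 < be) (hal : be < al) (hs : al < s)
    {y : Fin 6 → L}
    (h : ChartData (algebraMap ℝ L al) (algebraMap ℝ L be) (algebraMap ℝ L s) (YL al be s y))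
    (E : IntermediateField ℝ L)
    (hT : tY (algebraMap ℝ L al) (algebraMap ℝ L be) (algebraMap ℝ L s) (YL al be s y) ∈ E)
    (hW : wY (YL al be s y) ∈ E)
    (hZ1 : z1Y (algebraMap ℝ L al) (algebraMap ℝ L be) (algebraMap ℝ L s) (YL al be s y) ∈ E)
    (hZ2 : z2Y (algebraMap ℝ L al) (algebraMap ℝ L be) (algebraMap ℝ L s) (YL al be s y) ∈ E)
    (j : Fin 6) : y j / ps0 (YL al be s y) ∈ E := by
  set A := algebraMap ℝ L al with hA
  set B := algebraMap ℝ L be with hB
  set S := algebraMap ℝ L s with hS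
  set Y := YL al be s y with hY
  set T := tY A B S Y with hTdef
  set W := wY Y with hWdef
  have hv : ps0 Y ≠ 0 := h.v0
  have mA : A ∈ E := E.algebraMap_mem _
  have mB : B ∈ E := E.algebraMap_mem _
  have mS : S ∈ E := E.algebraMap_mem _
  have hG : gY A B Y ∈ E := by
    have e : gY A B Y = z1Y A B S Y - T * W := by
      rw [z1Y]
      ring
    rw [e]
    exact E.sub_mem hZ1 (E.mul_mem hT hW)
  have hD : dY A B S Y ∈ E := by
    have e : dY A B S Y = z2Y A B S Y - T ^ 2 := by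
      rw [z2Y]
      ring
    rw [e]
    exact E.sub_mem hZ2 (pow_mem hT 2)
  set P3 := ps3 A B S Y / ps0 Y with hP3
  have two : (2 : L) ∈ E := by
    have := E.algebraMap_mem 2
    rwa [map_ofNat] at this
  have mP3 : P3 ∈ E := by
    refine mem_of_mul_eq E (c := 2) two_ne_zero (m := 2 * P3) ?_ (by rw [map_ofNat])
    rw [hP3, h.ps3_eq]
    exact E.sub_mem (E.add_mem (E.sub_mem (E.sub_mem (E.add_mem (E.sub_mem (E.add_mem
      (E.mul_mem (E.mul_mem two hW) hG) (E.mul_mem (E.mul_mem two hT) hD))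
      (E.mul_mem (E.add_mem mA mB) (pow_mem hW 2)))
      (E.mul_mem (E.add_mem mA mB) (pow_mem hT 2)))
      (E.mul_mem (E.sub_mem (E.mul_mem mA mB) (pow_mem mS 2)) hT))
      (E.mul_mem (E.add_mem mA mB) (pow_mem mS 2)))
      (E.mul_mem (E.mul_mem two (E.neg_mem (E.add_mem mA mB))) hD))
      (E.mul_mem (E.sub_mem (E.mul_mem mA mB) (pow_mem mS 2)) hT)
  -- the coordinates
  have hkey : ∀ j, ∃ m ∈ E, algebraMap ℝ L (cabs al be s j) * (Y j / ps0 Y) = m := by
    intro j
    have v' : Y 1 + Y 2 + Y 3 + Y 4 ≠ 0 := hv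
    fin_cases j
    · refine ⟨A * W - gY A B Y, E.sub_mem (E.mul_mem mA hW) hG, ?_⟩
      show algebraMap ℝ L (al - be) * (Y 0 / ps0 Y) = _
      rw [map_sub, ← hA, ← hB, hWdef, wY, gY]
      field_simp
      ring
    · refine ⟨P3 + A * dY A B S Y - S ^ 2 * T + A * S ^ 2, ?_, ?_⟩
      · exact E.add_mem (E.sub_mem (E.add_mem mP3 (E.mul_mem mA hD))
          (E.mul_mem (pow_mem mS 2) hT)) (E.mul_mem mA (pow_mem mS 2))
      · show algebraMap ℝ L ((al - be) * (s ^ 2 - be ^ 2)) * (Y 1 / ps0 Y) = _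
        rw [map_mul, map_sub, map_sub, map_pow, map_pow, ← hA, ← hB, ← hS, hP3, hTdef, tY, dY]
        field_simp
        unfold ps1 ps2 ps3 ps0
        ring
    · refine ⟨-(P3 + B * dY A B S Y - S ^ 2 * T + B * S ^ 2), ?_, ?_⟩
      · exact E.neg_mem (E.add_mem (E.sub_mem (E.add_mem mP3 (E.mul_mem mB hD))
          (E.mul_mem (pow_mem mS 2) hT)) (E.mul_mem mB (pow_mem mS 2)))
      · show algebraMap ℝ L ((al - be) * (s ^ 2 - al ^ 2)) * (Y 2 / ps0 Y) = _
        rw [map_mul, map_sub, map_sub, map_pow, map_pow, ← hA, ← hB, ← hS, hP3, hTdef, tY, dY]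
        field_simp
        unfold ps1 ps2 ps3 ps0
        ring
    · refine ⟨P3 - (S - A - B) * dY A B S Y + (A * B - S * (A + B)) * T + A * B * S, ?_, ?_⟩
      · exact E.add_mem (E.add_mem (E.sub_mem mP3 (E.mul_mem (E.sub_mem (E.sub_mem mS mA) mB) hD))
          (E.mul_mem (E.sub_mem (E.mul_mem mA mB) (E.mul_mem mS (E.add_mem mA mB))) hT))
          (E.mul_mem (E.mul_mem mA mB) mS)
      · show algebraMap ℝ L (2 * s * (s - al) * (s - be)) * (Y 3 / ps0 Y) = _
        rw [map_mul, map_mul, map_mul, map_sub, map_sub, map_ofNat, ← hA, ← hB, ← hS, hP3, hTdef,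
          tY, dY]
        field_simp
        unfold ps1 ps2 ps3 ps0
        ring
    · refine ⟨-(P3 + (S + A + B) * dY A B S Y + (A * B + S * (A + B)) * T - A * B * S), ?_, ?_⟩
      · exact E.neg_mem (E.sub_mem (E.add_mem (E.add_mem mP3
          (E.mul_mem (E.add_mem (E.add_mem mS mA) mB) hD))
          (E.mul_mem (E.add_mem (E.mul_mem mA mB) (E.mul_mem mS (E.add_mem mA mB))) hT))
          (E.mul_mem (E.mul_mem mA mB) mS))
      · show algebraMap ℝ L (2 * s * (s + al) * (s + be)) * (Y 4 / ps0 Y) = _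
        rw [map_mul, map_mul, map_mul, map_add, map_add, map_ofNat, ← hA, ← hB, ← hS, hP3, hTdef,
          tY, dY]
        field_simp
        unfold ps1 ps2 ps3 ps0
        ring
    · refine ⟨gY A B Y - B * W, E.sub_mem hG (E.mul_mem mB hW), ?_⟩
      show algebraMap ℝ L (al - be) * (Y 5 / ps0 Y) = _
      rw [map_sub, ← hA, ← hB, hWdef, wY, gY]
      field_simp
      ring
  obtain ⟨m, hm, hj⟩ := hkey j
  refine mem_of_mul_eq E (c := cabs al be s j * kap al be s j)
    (mul_ne_zero (cabs_pos hbe hal hs j).ne' (kap_ne hbe hal hs j)) hm ?_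
  rw [← hj, map_mul]
  show _ = algebraMap ℝ L (cabs al be s j) * (algebraMap ℝ L (kap al be s j) * y j / ps0 Y)
  ring

end

lemma epX_ne (i : Fin 6) : epX i ≠ 0 := by
  fin_cases i <;> simp [epX]

lemma xsX_inj {al be s : ℝ} (hbe : 0 < be) (hal : be < al) (hs : al < s) :
    Function.Injective (xsX al be s) := by
  intro i j h
  fin_cases i <;> fin_cases j <;> simp [xsX] at h ⊢ <;> linarith

open scoped IntermediateField.algebraAdjoinAdjoin in
/-- Three elements over which a field of transcendence degree three is algebraic. -/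
lemma algInd_three {K : Type} [Field K] [Algebra ℝ K] {t w z1 z2 : K} {P : K}
    (hP : P ∈ IntermediateField.adjoin ℝ (Set.range ![t, w, z1]))
    (hz2 : z2 ^ 2 = P) (htop : IntermediateField.adjoin ℝ {t, w, z1, z2} = ⊤)
    (hd : (3 : Cardinal) ≤ Algebra.trdeg ℝ K) : AlgebraicIndependent ℝ ![t, w, z1] := by
  set S3 := Set.range ![t, w, z1] with hS3
  have ht : t ∈ S3 := ⟨0, rfl⟩
  have hw : w ∈ S3 := ⟨1, rfl⟩
  have hz1 : z1 ∈ S3 := ⟨2, rfl⟩
  set E3 := IntermediateField.adjoin ℝ S3 with hE3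
  have halg2 : IsAlgebraic E3 z2 := by
    refine ⟨Polynomial.X ^ 2 - Polynomial.C ⟨P, hP⟩,
      (Polynomial.monic_X_pow_sub_C _ two_ne_zero).ne_zero, ?_⟩
    simp only [map_sub, map_pow, Polynomial.aeval_X, Polynomial.aeval_C]
    rw [hz2]
    exact sub_self _
  have h1 : IntermediateField.adjoin E3 ({z2} : Set K) = ⊤ := by
    rw [eq_top_iff]
    intro z _
    have h2 : IntermediateField.adjoin ℝ {t, w, z1, z2} ≤
        (IntermediateField.adjoin E3 ({z2} : Set K)).restrictScalars ℝ := by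
      rw [IntermediateField.adjoin_le_iff]
      have h3 : ∀ x ∈ S3, x ∈ IntermediateField.adjoin E3 ({z2} : Set K) := fun x hx =>
        IntermediateField.algebraMap_mem (IntermediateField.adjoin E3 ({z2} : Set K))
          (⟨x, IntermediateField.subset_adjoin ℝ S3 hx⟩ : E3)
      have h4 : z2 ∈ IntermediateField.adjoin E3 ({z2} : Set K) :=
        IntermediateField.subset_adjoin _ _ (Set.mem_singleton z2)
      rintro x (rfl | rfl | rfl | rfl)
      · exact h3 _ ht
      · exact h3 _ hw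
      · exact h3 _ hz1
      · exact h4
    have h4 : z ∈ IntermediateField.adjoin ℝ {t, w, z1, z2} := by rw [htop]; trivial
    exact h2 h4
  have h5 : Algebra.IsAlgebraic E3 K := by
    have h6 : Algebra.IsAlgebraic E3 (IntermediateField.adjoin E3 ({z2} : Set K)) :=
      IntermediateField.isAlgebraic_adjoin (by
        rintro x rfl
        exact halg2.isIntegral)
    constructor
    intro a
    have ha : a ∈ IntermediateField.adjoin E3 ({z2} : Set K) := by
      rw [h1]
      trivial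
    exact IntermediateField.isAlgebraic_iff.1 (h6.isAlgebraic ⟨a, ha⟩)
  have h7 : Algebra.IsAlgebraic (Algebra.adjoin ℝ S3) K :=
    Algebra.IsAlgebraic.trans (Algebra.adjoin ℝ S3) E3 K
  have := Algebra.IsAlgebraic.isTranscendenceBasis_of_le_trdeg_of_finite ℝ ![t, w, z1]
    (by rw [Cardinal.mk_fintype, Fintype.card_fin]; exact_mod_cast hd)
  exact this.1

/-- The chart in the field of ratios of a generic point. -/
theorem isK_of_genPt {al be s : ℝ} (hbe : 0 < be) (hal : be < al) (hs : al < s)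
    (hs2 : s ^ 2 = al ^ 2 + 1) {Φ : Type} [Field Φ] [Algebra ℝ Φ] {y : Fin 6 → Φ}
    (hy : GenPt AX (BX al be s) y)
    (hind : AlgebraicIndependent ℝ (fun k : Fin 4 => y (eIdx (Sum.inl k)))) :
    ∃ t w z1 z2 : RF y, IsK al be t w z1 z2 := by
  have hC := chart_of_genPt hbe hal hs hs2 hy
  set A := algebraMap ℝ Φ al with hA
  set B := algebraMap ℝ Φ be with hB
  set S := algebraMap ℝ Φ s with hS
  set Y := YL al be s y with hY
  have hv : ps0 Y ≠ 0 := hC.v0
  have hy0 : y 0 ≠ 0 := by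
    intro h0
    have h1 := GenPt.lin hy (l := ![1, 0, 0, 0, 0, 0]) (by
      simp only [Fin.sum_univ_six]
      simp [h0])
    have h2 := congrFun h1 0
    exact one_ne_zero h2
  set K : IntermediateField ℝ Φ := RF y with hK
  have hr : ∀ j, y j / y 0 ∈ K := fun j => IntermediateField.subset_adjoin _ _ ⟨j, 0, rfl⟩
  have hYr : ∀ j, Y j / y 0 ∈ K := by
    intro j
    have e : Y j / y 0 = algebraMap ℝ Φ (kap al be s j) * (y j / y 0) := by
      rw [← mul_div_assoc]
      rfl
    rw [e]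
    exact K.mul_mem (K.algebraMap_mem _) (hr j)
  have mA : A ∈ K := K.algebraMap_mem _
  have mB : B ∈ K := K.algebraMap_mem _
  have mS : S ∈ K := K.algebraMap_mem _
  have h0 : ps0 Y / y 0 ∈ K := by
    have e : ps0 Y / y 0 = Y 1 / y 0 + Y 2 / y 0 + Y 3 / y 0 + Y 4 / y 0 := by
      unfold ps0
      ring
    rw [e]
    exact K.add_mem (K.add_mem (K.add_mem (hYr 1) (hYr 2)) (hYr 3)) (hYr 4)
  have h1 : ps1 A B S Y / y 0 ∈ K := by
    have e : ps1 A B S Y / y 0 = B * (Y 1 / y 0) + A * (Y 2 / y 0) + S * (Y 3 / y 0) -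
        S * (Y 4 / y 0) := by
      unfold ps1
      ring
    rw [e]
    exact K.sub_mem (K.add_mem (K.add_mem (K.mul_mem mB (hYr 1)) (K.mul_mem mA (hYr 2)))
      (K.mul_mem mS (hYr 3))) (K.mul_mem mS (hYr 4))
  have h2 : ps2 A B S Y / y 0 ∈ K := by
    have e : ps2 A B S Y / y 0 = B ^ 2 * (Y 1 / y 0) + A ^ 2 * (Y 2 / y 0) + S ^ 2 * (Y 3 / y 0) +
        S ^ 2 * (Y 4 / y 0) := by
      unfold ps2
      ring
    rw [e]
    exact K.add_mem (K.add_mem (K.add_mem (K.mul_mem (pow_mem mB 2) (hYr 1))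
      (K.mul_mem (pow_mem mA 2) (hYr 2))) (K.mul_mem (pow_mem mS 2) (hYr 3)))
      (K.mul_mem (pow_mem mS 2) (hYr 4))
  have hT : tY A B S Y ∈ K := by
    have e : tY A B S Y = (ps1 A B S Y / y 0) / (ps0 Y / y 0) := by
      rw [tY, div_div_div_cancel_right₀ hy0]
    rw [e]
    exact K.div_mem h1 h0
  have hW : wY Y ∈ K := by
    have e : wY Y = (Y 0 / y 0 + Y 5 / y 0) / (ps0 Y / y 0) := by
      rw [wY, ← add_div, div_div_div_cancel_right₀ hy0]
    rw [e]
    exact K.div_mem (K.add_mem (hYr 0) (hYr 5)) h0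
  have hG : gY A B Y ∈ K := by
    have e : gY A B Y = (B * (Y 0 / y 0) + A * (Y 5 / y 0)) / (ps0 Y / y 0) := by
      rw [gY, ← mul_div_assoc, ← mul_div_assoc, ← add_div, div_div_div_cancel_right₀ hy0]
    rw [e]
    exact K.div_mem (K.add_mem (K.mul_mem mB (hYr 0)) (K.mul_mem mA (hYr 5))) h0
  have hD : dY A B S Y ∈ K := by
    have e : dY A B S Y = -((ps2 A B S Y / y 0) / (ps0 Y / y 0)) := by
      rw [dY, div_div_div_cancel_right₀ hy0, neg_div]
    rw [e]
    exact K.neg_mem (K.div_mem h2 h0)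
  have hZ1 : z1Y A B S Y ∈ K := K.add_mem (K.mul_mem hT hW) hG
  have hZ2 : z2Y A B S Y ∈ K := K.add_mem (pow_mem hT 2) hD
  let t : K := ⟨tY A B S Y, hT⟩
  let w : K := ⟨wY Y, hW⟩
  let z1 : K := ⟨z1Y A B S Y, hZ1⟩
  let z2 : K := ⟨z2Y A B S Y, hZ2⟩
  have heqn : z1 ^ 2 + z2 ^ 2 = Ff (algebraMap ℝ K al) (algebraMap ℝ K be) t w := by
    apply (algebraMap K Φ).injective
    rw [map_Ff, map_add, map_pow, map_pow]
    exact hC.eqn
  -- generation
  have hgen : IntermediateField.adjoin ℝ {t, w, z1, z2} = ⊤ := by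
    set E := (IntermediateField.adjoin ℝ {t, w, z1, z2}).map K.val with hE
    have hmem : ∀ x ∈ ({t, w, z1, z2} : Set K), (x : Φ) ∈ E := by
      intro x hx
      exact ⟨x, IntermediateField.subset_adjoin ℝ _ hx, rfl⟩
    have hTE : tY A B S Y ∈ E := hmem t (by simp)
    have hWE : wY Y ∈ E := hmem w (by simp)
    have hZ1E : z1Y A B S Y ∈ E := hmem z1 (by simp)
    have hZ2E : z2Y A B S Y ∈ E := hmem z2 (by simp)
    have hall := mem_of_chart hbe hal hs hC E hTE hWE hZ1E hZ2E
    have hKE : K ≤ E := by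
      rw [hK, IntermediateField.adjoin_le_iff]
      rintro x ⟨i, j, rfl⟩
      have e : y i / y j = (y i / ps0 Y) / (y j / ps0 Y) := by
        rw [div_div_div_cancel_right₀ hv]
      show y i / y j ∈ E
      rw [e]
      exact E.div_mem (hall i) (hall j)
    rw [eq_top_iff]
    intro x _
    obtain ⟨u, hu, hux⟩ := hKE x.2
    have : u = x := Subtype.ext hux
    rwa [← this]
  refine ⟨t, w, z1, z2, heqn, ?_, hgen⟩
  have hd : (3 : Cardinal) ≤ Algebra.trdeg ℝ K := by
    have h3 := trdeg_RF (i0 := 0) hy0 hind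
      (fun k => IntermediateField.subset_adjoin _ _ ⟨_, rfl⟩) (d := 3) rfl
    exact_mod_cast h3
  refine algInd_three (P := Ff (algebraMap ℝ K al) (algebraMap ℝ K be) t w - z1 ^ 2) ?_ ?_ hgen hd
  · have k0 : t ∈ IntermediateField.adjoin ℝ (Set.range ![t, w, z1]) :=
      IntermediateField.subset_adjoin _ _ ⟨0, rfl⟩
    have k1 : w ∈ IntermediateField.adjoin ℝ (Set.range ![t, w, z1]) :=
      IntermediateField.subset_adjoin _ _ ⟨1, rfl⟩
    have k2 : z1 ∈ IntermediateField.adjoin ℝ (Set.range ![t, w, z1]) :=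
      IntermediateField.subset_adjoin _ _ ⟨2, rfl⟩
    set E3 := IntermediateField.adjoin ℝ (Set.range ![t, w, z1]) with hE3
    have ka : algebraMap ℝ K al ∈ E3 := E3.algebraMap_mem _
    have kb : algebraMap ℝ K be ∈ E3 := E3.algebraMap_mem _
    unfold Ff Qf Rf
    exact E3.sub_mem (E3.add_mem (E3.mul_mem (E3.mul_mem (E3.add_mem k0 ka) (E3.add_mem k0 kb))
      (pow_mem k1 2)) (E3.mul_mem (E3.mul_mem (E3.sub_mem k0 ka) (E3.sub_mem k0 kb))
      (E3.sub_mem (E3.sub_mem (pow_mem k0 2) (pow_mem ka 2)) E3.one_mem))) (pow_mem k2 2)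
  · linear_combination heqn

/-- G1. The threefold as an intersection of two quadrics. -/
theorem xGeom : stX := by
  intro al be hbe hal _
  have hal0 : 0 < al := hbe.trans hal
  set s := √(al ^ 2 + 1) with hsdef
  have hs2 : s ^ 2 = al ^ 2 + 1 := Real.sq_sqrt (by positivity)
  have hs : al < s := by
    rw [hsdef]
    exact Real.lt_sqrt_of_sq_lt (by linarith)
  obtain ⟨Ω', iF, iA, ξ, hgen, hind⟩ := exists_genPt hbe hal hs
  have hprime : (idealX AX (BX al be s)).IsPrime := hgen.isPrime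
  refine ⟨AX, BX al be s, Matrix.isSymm_diagonal _, Matrix.isSymm_diagonal _,
    smooth_diag epX_ne (xsX_inj hbe hal hs), connX hbe hal hs, hprime, ?_⟩
  have hy : GenPt AX (BX al be s) (coord AX (BX al be s)) := genPt_coord _ _
  have hindy := algInd_of_genPt hgen hy _ hind
  exact isK_of_genPt hbe hal hs hs2 hy hindy

end MP_d2f638_ag.Stab
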