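import Pool.Agent.Lib.MP_d2f638_ag.Stab.AsmA
import Pool.Agent.Lib.MP_d2f638_ag.Stab.Conf
import Pool.Agent.Lib.MP_d2f638_ag.Stab.Desc
import Pool.Agent.Lib.MP_d2f638_ag.Stab.XGeom

/-!
# A smooth intersection of two real quadrics which is not stably rational
-/

namespace MP_d2f638_ag.Stab

lemma exists_tr : ∃ al : ℝ, 1 < al ∧ Transcendental ℚ al := by
  by_contra hcon
  push Not at hcon
  have h1 : Set.Ioi (1 : ℝ) ⊆ {x : ℝ | IsAlgebraic ℚ x} := by
    intro x hx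
    have := hcon x hx
    rwa [Transcendental, not_not] at this
  have h2 := (Algebraic.countable ℚ ℝ).mono h1
  have h3 := Cardinal.mk_Ioi_real 1
  have h4 := Cardinal.mk_le_aleph0_iff.2 (Set.countable_coe_iff.2 h2)
  rw [h3] at h4
  exact absurd h4 (not_le.2 Cardinal.aleph0_lt_continuum)

theorem main_of (hConf : stConf) (hDesc : stDesc) (hX : stX) :
    ∃ A B : Matrix (Fin 6) (Fin 6) ℝ, A.IsSymm ∧ B.IsSymm ∧ SmoothCI A B ∧
      ConnectedSpace (RealPoints A B) ∧ (idealX A B).IsPrime ∧ ¬ StablyRRational 3 A B := by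
  obtain ⟨al, h1, htr⟩ := exists_tr
  have h0 : 0 < al ^ 2 - 1 := by nlinarith
  have hbe : 0 < Real.sqrt (al ^ 2 - 1) := Real.sqrt_pos.2 h0
  have hrel : (Real.sqrt (al ^ 2 - 1)) ^ 2 = al ^ 2 - 1 := Real.sq_sqrt h0.le
  have hba : Real.sqrt (al ^ 2 - 1) < al := by
    have : 0 < al := by linarith
    nlinarith
  obtain ⟨A, B, hA, hB, hsm, hconn, hp, t, w, z1, z2, hK⟩ := hX al _ hbe hba hrel
  refine ⟨A, B, hA, hB, hsm, hconn, hp, ?_⟩
  rintro ⟨hp', m, ⟨Φ⟩⟩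
  exact (not_stably hConf hDesc hbe hba hrel htr hK m (3 + m)).false Φ

end MP_d2f638_ag.Stab
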