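import Pool.Agent.Lib.MP_d2f638_ag.Stab.Stmts

/-!
# D1: existence of a place
-/

namespace MP_d2f638_ag.Stab

open Polynomial

section

variable (L : Type) [Field L] [Algebra ℂ[X] L] [FaithfulSMul ℂ[X] L]
  [Algebra.IsAlgebraic ℂ[X] L]

/-- The valuation ring. -/
lemma exists_valsub : ∃ B : ValuationSubring L, (∀ p : ℂ[X], algebraMap ℂ[X] L p ∈ B) ∧
    algebraMap ℂ[X] L X ∈ B.nonunits := by
  set A : Subring L := (algebraMap ℂ[X] L).range with hA
  set I : Ideal A := Ideal.span {⟨algebraMap ℂ[X] L X, ⟨X, rfl⟩⟩} with hI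
  have hItop : I ≠ ⊤ := by
    intro h
    rw [Ideal.eq_top_iff_one, hI, Ideal.mem_span_singleton] at h
    obtain ⟨⟨_, p, rfl⟩, hp⟩ := h
    have h1 : (1 : L) = algebraMap ℂ[X] L X * algebraMap ℂ[X] L p := congrArg Subtype.val hp
    rw [← map_mul, ← map_one (algebraMap ℂ[X] L)] at h1
    have h2 := FaithfulSMul.algebraMap_injective ℂ[X] L h1
    have h3 := congrArg (eval 0) h2
    simp at h3
  obtain ⟨B, h1, h2⟩ := Ideal.image_subset_nonunits_valuationSubring I hItop
  refine ⟨B, fun p => h1 ⟨p, rfl⟩, h2 ⟨_, Ideal.subset_span rfl, rfl⟩⟩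

end

lemma place_aux (L : Type) [Field L] [IsAlgClosed L] [CharZero L] [Algebra ℂ[X] L]
    [FaithfulSMul ℂ[X] L] [Algebra.IsAlgebraic ℂ[X] L] :
    ∃ (J : ℂ →+* L) (P : Place L J) (ε : L), Trans J ε ∧ ε ∈ P.O ∧ P.red ε = 0 := by
  obtain ⟨B, hB, hX⟩ := exists_valsub L
  set ε : L := algebraMap ℂ[X] L X with hε
  set J : ℂ →+* L := (algebraMap ℂ[X] L).comp C with hJ
  set κ := IsLocalRing.ResidueField B with hκ
  -- polynomials in the valuation ring
  set θ : ℂ[X] →+* B := (algebraMap ℂ[X] L).codRestrict B.toSubring hB with hθ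
  set ρ : B →+* κ := IsLocalRing.residue B with hρ
  have hε0 : ρ (θ X) = 0 := by
    rw [hρ, IsLocalRing.residue_eq_zero_iff, IsLocalRing.mem_maximalIdeal, mem_nonunits_iff]
    intro hu
    have := B.mem_nonunits_iff_exists_mem_maximalIdeal.1 hX
    obtain ⟨ha, hm⟩ := this
    rw [IsLocalRing.mem_maximalIdeal, mem_nonunits_iff] at hm
    exact hm hu
  let algκ : Algebra ℂ κ := ((ρ.comp θ).comp C).toAlgebra
  have halg : algebraMap ℂ κ = (ρ.comp θ).comp C := rfl
  have hred : ρ.comp θ = (algebraMap ℂ κ).comp (evalRingHom 0) := by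
    apply Polynomial.ringHom_ext
    · intro c
      simp [halg]
    · simp [hε0]
  have hint : Algebra.IsIntegral ℂ κ := by
    constructor
    intro y
    obtain ⟨x, rfl⟩ := IsLocalRing.residue_surjective y
    obtain ⟨p, hp0, hp⟩ := Algebra.IsAlgebraic.isAlgebraic (R := ℂ[X]) (x : L)
    have hCX : Irreducible (C (X : ℂ[X])) :=
      (Polynomial.prime_C_iff.2 Polynomial.prime_X).irreducible
    obtain ⟨n, q, hq, hpq⟩ := WfDvdMonoid.max_power_factor hp0 hCX
    have hq1 : aeval (x : L) q = 0 := by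
      rw [hpq, map_mul, map_pow, aeval_C] at hp
      rcases mul_eq_zero.1 hp with h | h
      · exfalso
        by_cases hn : n = 0
        · rw [hn, pow_zero] at h
          exact one_ne_zero h
        · have h2 : algebraMap ℂ[X] L X = 0 := pow_eq_zero_iff hn |>.1 h
          rw [← map_zero (algebraMap ℂ[X] L)] at h2
          exact X_ne_zero (FaithfulSMul.algebraMap_injective ℂ[X] L h2)
      · exact h
    have hq2 : q.map (evalRingHom (0 : ℂ)) ≠ 0 := by
      intro h
      apply hq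
      rw [C_dvd_iff_dvd_coeff]
      intro i
      rw [X_dvd_iff, coeff_zero_eq_eval_zero]
      have := congrArg (fun r => coeff r i) h
      simpa using this
    have hq3 : eval₂ θ x q = 0 := by
      apply Subtype.ext
      have h1 : B.subtype (eval₂ θ x q) = eval₂ (B.subtype.comp θ) (x : L) q :=
        Polynomial.hom_eval₂ _ _ _ _
      have h2 : B.subtype.comp θ = algebraMap ℂ[X] L := rfl
      rw [h2] at h1
      exact h1.trans hq1
    rw [← isAlgebraic_iff_isIntegral]
    refine ⟨q.map (evalRingHom (0 : ℂ)), hq2, ?_⟩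
    rw [aeval_def, eval₂_map, ← hred, ← Polynomial.hom_eval₂, hq3, map_zero]
  have hbij : Function.Bijective (algebraMap ℂ κ) := IsAlgClosed.algebraMap_bijective_of_isIntegral
  set e : ℂ ≃+* κ := RingEquiv.ofBijective (algebraMap ℂ κ) hbij with he
  set φ : B →+* ℂ := (e.symm : κ →+* ℂ).comp ρ with hφ
  have hφ0 : ∀ x : B, φ x ≠ 0 → IsUnit x := by
    intro x hx
    by_contra hu
    apply hx
    have : ρ x = 0 := by
      rw [hρ, IsLocalRing.residue_eq_zero_iff, IsLocalRing.mem_maximalIdeal, mem_nonunits_iff]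
      exact hu
    rw [hφ]
    simp [this]
  refine ⟨J, ⟨B.toSubring, φ, fun c => hB (C c), ?_, fun x => B.mem_or_inv_mem x, ?_⟩, ε, ?_, hB X, ?_⟩
  · intro c
    have h1 : ρ (θ (C c)) = e c := by
      rw [he, RingEquiv.ofBijective_apply, halg]
      rfl
    show e.symm (ρ (θ (C c))) = c
    rw [h1, RingEquiv.symm_apply_apply]
  · intro x hx
    have hu := hφ0 x hx
    obtain ⟨u, hu⟩ := hu
    have h1 : ((u⁻¹ : Bˣ) : B).1 = (x : L)⁻¹ := by
      have h2 : ((u⁻¹ : Bˣ) : B) * (u : B) = 1 := u.inv_mul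
      rw [hu] at h2
      have h3 : ((u⁻¹ : Bˣ) : B).1 * (x : L) = 1 := congrArg Subtype.val h2
      exact eq_inv_of_mul_eq_one_left h3
    rw [← h1]
    exact ((u⁻¹ : Bˣ) : B).2
  · intro p hp h
    apply hp
    apply FaithfulSMul.algebraMap_injective ℂ[X] L
    rw [map_zero, ← h, hJ, ← Polynomial.hom_eval₂, eval₂_C_X]
  · unfold Place.red
    split_ifs with h
    · show e.symm (ρ (θ X)) = 0
      rw [hε0, map_zero]
    · rfl

theorem place : stPlace := by
  have : FaithfulSMul ℂ[X] (AlgebraicClosure (RatFunc ℂ)) := by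
    rw [faithfulSMul_iff_algebraMap_injective,
      IsScalarTower.algebraMap_eq ℂ[X] (RatFunc ℂ) (AlgebraicClosure (RatFunc ℂ))]
    exact (algebraMap (RatFunc ℂ) (AlgebraicClosure (RatFunc ℂ))).injective.comp
      (IsFractionRing.injective ℂ[X] (RatFunc ℂ))
  have : Algebra.IsAlgebraic ℂ[X] (AlgebraicClosure (RatFunc ℂ)) :=
    (IsFractionRing.comap_isAlgebraic_iff (A := ℂ[X]) (K := RatFunc ℂ)
      (C := AlgebraicClosure (RatFunc ℂ))).2 inferInstance
  have : CharZero (AlgebraicClosure (RatFunc ℂ)) := by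
    have hinj : Function.Injective ((algebraMap ℂ[X] (AlgebraicClosure (RatFunc ℂ))).comp
        (C : ℂ →+* ℂ[X])) :=
      (FaithfulSMul.algebraMap_injective ℂ[X] (AlgebraicClosure (RatFunc ℂ))).comp C_injective
    exact charZero_of_injective_ringHom hinj
  exact ⟨AlgebraicClosure (RatFunc ℂ), inferInstance, inferInstance, inferInstance, place_aux _⟩

end MP_d2f638_ag.Stab
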