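import Pool.Agent.Lib.MP_d2f638_ag.Stab.Univ

/-!
# The relation between sums over sections and the universal point
-/

namespace MP_d2f638_ag.Stab

open Polynomial

section

variable {k L : Type} [Field k] [Field L] {i : k →+* L}

lemma AI.snoc_iff (hSnoc : stSnoc) {n : ℕ} {v : Fin n → L} {x : L} {u : Fin (n + 1) → L}
    (hu : u = Fin.snoc v x) : AI i u ↔ AI i v ∧ x ∉ clF i (Set.range v) := by
  subst hu
  exact hSnoc k L i n v x

omit [Field L] in
lemma range_one (x : L) : Set.range ![x] = {x} := by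
  ext y
  simp

omit [Field L] in
lemma range_two (x y : L) : Set.range ![x, y] = {x, y} := by
  ext z
  simp only [Set.mem_range, Set.mem_insert_iff, Set.mem_singleton_iff]
  constructor
  · rintro ⟨j, rfl⟩
    fin_cases j <;> simp
  · rintro (rfl | rfl)
    · exact ⟨0, rfl⟩
    · exact ⟨1, rfl⟩

omit [Field L] in
lemma range_three (x y z : L) : Set.range ![x, y, z] = {x, y, z} := by
  ext u
  simp only [Set.mem_range, Set.mem_insert_iff, Set.mem_singleton_iff]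
  constructor
  · rintro ⟨j, rfl⟩
    fin_cases j <;> simp
  · rintro (rfl | rfl | rfl)
    · exact ⟨0, rfl⟩
    · exact ⟨1, rfl⟩
    · exact ⟨2, rfl⟩

omit [Field L] in
lemma snoc_one (x y : L) : (![x, y] : Fin 2 → L) = Fin.snoc (α := fun _ => L) ![x] y := by
  funext j
  fin_cases j <;> rfl

omit [Field L] in
lemma snoc_two (x y z : L) : (![x, y, z] : Fin 3 → L) = Fin.snoc (α := fun _ => L) ![x, y] z := by
  funext j
  fin_cases j <;> rfl

omit [Field L] in
lemma snoc_three (x y z u : L) :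
    (![x, y, z, u] : Fin 4 → L) = Fin.snoc (α := fun _ => L) ![x, y, z] u := by
  funext j
  fin_cases j <;> rfl

lemma AI.two (hSnoc : stSnoc) {x y : L} : AI i ![x, y] ↔ AI i ![x] ∧ y ∉ clF i {x} := by
  rw [AI.snoc_iff hSnoc (snoc_one x y), range_one]

lemma AI.three (hSnoc : stSnoc) {x y z : L} :
    AI i ![x, y, z] ↔ AI i ![x, y] ∧ z ∉ clF i {x, y} := by
  rw [AI.snoc_iff hSnoc (snoc_two x y z), range_two]

lemma AI.four (hSnoc : stSnoc) {x y z u : L} :
    AI i ![x, y, z, u] ↔ AI i ![x, y, z] ∧ u ∉ clF i {x, y, z} := by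
  rw [AI.snoc_iff hSnoc (snoc_three x y z u), range_three]

/-- `ρ` belongs to the closure of `r` when `F(r, ρ) = 0`. -/
lemma rel_rho_mem {a b : k} {r ρ : L} {T : Set L} (hr : r ∈ clF i T)
    (hQ : Qf (i a) (i b) r ≠ 0) (h : Ff (i a) (i b) r ρ = 0) : ρ ∈ clF i T := by
  have ha : i a ∈ clF i T := base_mem_clF a
  have hb : i b ∈ clF i T := base_mem_clF b
  have hQm : Qf (i a) (i b) r ∈ clF i T := by
    unfold Qf
    exact mul_mem (add_mem hr ha) (add_mem hr hb)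
  have hRm : Rf (i a) (i b) r ∈ clF i T := by
    unfold Rf
    exact mul_mem (mul_mem (sub_mem hr ha) (sub_mem hr hb))
      (sub_mem (sub_mem (pow_mem hr 2) (pow_mem ha 2)) (one_mem _))
  apply mem_clF_of_sq
  have h1 : ρ ^ 2 = -(Rf (i a) (i b) r) / Qf (i a) (i b) r := by
    rw [eq_div_iff hQ]
    unfold Ff at h
    linear_combination h
  rw [h1]
  exact div_mem (neg_mem hRm) hQm

lemma Q_ne {a b : k} {r : L} (h : Trans i r) : Qf (i a) (i b) r ≠ 0 := by
  unfold Qf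
  refine mul_ne_zero ?_ ?_
  · intro h0
    exact h.not_mem (-a) (by rw [map_neg]; linear_combination h0)
  · intro h0
    exact h.not_mem (-b) (by rw [map_neg]; linear_combination h0)

/-- No rational point of a line `w = A0 + A1 t` lies over a transcendental parameter. -/
lemma line_root {a b : k} (hab : b ^ 2 = a ^ 2 - 1) (ha2 : a ^ 2 ≠ 0)
    [CharZero k] {T : Set L} {A0 A1 r : L} (h0 : A0 ∈ clF i T) (h1 : A1 ∈ clF i T)
    (h : Ff (i a) (i b) r (A0 + A1 * r) = 0) : r ∈ clF i T := by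
  have ha : i a ∈ clF i T := base_mem_clF a
  have hb : i b ∈ clF i T := base_mem_clF b
  have hC : ∀ c ∈ clF i T, ∀ n, (C c : L[X]).coeff n ∈ clF i T := by
    intro c hc n
    rw [coeff_C]
    split_ifs
    · exact hc
    · exact zero_mem _
  let P : Polynomial (clF i T) := Ff (C ⟨i a, ha⟩) (C ⟨i b, hb⟩) X (C ⟨A0, h0⟩ + C ⟨A1, h1⟩ * X)
  have hP : P.map (clF i T).subtype = Ff (C (i a)) (C (i b)) X (C A0 + C A1 * X) := by
    show (Polynomial.mapRingHom (clF i T).subtype) P = _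
    simp only [P, map_Ff]
    simp
  refine mem_clF_of_root (p := P.map (clF i T).subtype) ?_ ?_ ?_
  · intro hP0
    rw [hP] at hP0
    have h2 := congrArg (Polynomial.eval (-(i a))) hP0
    have h3 : Ff (i a) (i b) (-(i a)) (A0 + A1 * -(i a)) = 0 := by
      have : Polynomial.eval (-(i a)) (Ff (C (i a)) (C (i b)) X (C A0 + C A1 * X)) =
          Ff (i a) (i b) (-(i a)) (A0 + A1 * -(i a)) := by
        show (Polynomial.evalRingHom (-(i a))) _ = _
        rw [map_Ff]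
        simp
      rw [← this, h2]
      simp
    unfold Ff Qf Rf at h3
    have h4 : (i a) * (i a + i b) = 0 ∨ False := by
      left
      have h5 : 2 * ((i a) * (i a + i b)) = 0 := by linear_combination -h3
      have h6 : (2 : L) ≠ 0 := by
        have := i.injective.ne (two_ne_zero (α := k))
        rwa [map_ofNat, map_zero] at this
      exact (mul_eq_zero.1 h5).resolve_left h6
    rcases h4 with h4 | h4
    · rcases mul_eq_zero.1 h4 with h5 | h5
      · have : a = 0 := by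
          apply i.injective
          rw [h5, map_zero]
        exact ha2 (by rw [this]; ring)
      · have h6 : a + b = 0 := by
          apply i.injective
          rw [map_add, h5, map_zero]
        have h7 : b = -a := by linear_combination h6
        rw [h7] at hab
        have : (1 : k) = 0 := by linear_combination hab
        exact one_ne_zero this
    · exact h4
  · intro n
    rw [coeff_map]
    exact (P.coeff n).2
  · rw [hP]
    show (Polynomial.evalRingHom r) _ = _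
    rw [map_Ff]
    simpa using h

lemma CF_mem {M : Type} [Field M] {iM : k →+* M} {a : k} {x y : M} (hM : IsCF iM a x y)
    {j : M →+* L} (hj : j.comp iM = i) (m : M) : j m ∈ clF i {j x} := by
  obtain ⟨p, q, r, hr, h⟩ := hM.gen m
  have hjx : j x ∈ clF i {j x} := mem_clF_of_mem rfl
  have hev : ∀ p : k[X], j (p.eval₂ iM x) ∈ clF i {j x} := by
    intro p
    rw [Polynomial.hom_eval₂, hj, Polynomial.eval₂_eq_sum_range]
    exact sum_mem fun n _ => mul_mem (base_mem_clF _) (pow_mem hjx n)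
  have hy : j y ∈ clF i {j x} := by
    apply mem_clF_of_sq
    rw [← map_pow, hM.eqn, map_delta, ← RingHom.comp_apply, hj]
    unfold delta
    have h1 : (j x) ^ 2 - (i a) ^ 2 ∈ clF i {j x} :=
      sub_mem (pow_mem hjx 2) (pow_mem (base_mem_clF a) 2)
    exact sub_mem (pow_mem h1 3) h1
  have hr0 : j (r.eval₂ iM x) ≠ 0 := by
    rw [Ne, map_eq_zero]
    exact hM.trans r hr
  have h1 : j m = (j (p.eval₂ iM x) + j (q.eval₂ iM x) * j y) / j (r.eval₂ iM x) := by
    rw [eq_div_iff hr0, ← map_mul, h, map_add, map_mul]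
  rw [h1]
  exact div_mem (add_mem (hev p) (mul_mem (hev q) hy)) (hev r)

/-- Data for three independent points and a parameter. -/
structure TriH (i : k →+* L) (a b : k) (r ρ r' ρ' r'' ρ'' μ : L) : Prop where
  eq1 : Ff (i a) (i b) r ρ = 0
  eq2 : Ff (i a) (i b) r' ρ' = 0
  eq3 : Ff (i a) (i b) r'' ρ'' = 0
  ind : AI i ![r, r', r'', μ]

lemma TriH.cyc (hBasis : stBasis) {a b : k} {r ρ r' ρ' r'' ρ'' μ : L}
    (h : TriH i a b r ρ r' ρ' r'' ρ'' μ) : TriH i a b r' ρ' r'' ρ'' r ρ μ := by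
  refine ⟨h.eq2, h.eq3, h.eq1, hBasis k L i 4 _ _ h.ind ?_⟩
  intro j
  fin_cases j
  · exact mem_clF_of_mem ⟨2, rfl⟩
  · exact mem_clF_of_mem ⟨0, rfl⟩
  · exact mem_clF_of_mem ⟨1, rfl⟩
  · exact mem_clF_of_mem ⟨3, rfl⟩

lemma TriH.facts (hSnoc : stSnoc) {a b : k} {r ρ r' ρ' r'' ρ'' μ : L}
    (h : TriH i a b r ρ r' ρ' r'' ρ'' μ) :
    Trans i r ∧ Trans i r' ∧ Trans i r'' ∧ r' ∉ clF i {r} ∧ r'' ∉ clF i {r, r'} ∧
      μ ∉ clF i {r, r', r''} := by
  obtain ⟨h3, h4⟩ := (AI.four hSnoc).1 h.ind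
  obtain ⟨h2, h5⟩ := (AI.three hSnoc).1 h3
  obtain ⟨-, h6⟩ := (AI.two hSnoc).1 h2
  exact ⟨h.ind.trans 0, h.ind.trans 1, h.ind.trans 2, h6, h5, h4⟩

lemma kap_not_mem (hSnoc : stSnoc) [CharZero k] {a b : k} (hab : b ^ 2 = a ^ 2 - 1)
    (ha2 : a ^ 2 ≠ 0) {r ρ r' ρ' r'' ρ'' μ : L} (h : TriH i a b r ρ r' ρ' r'' ρ'' μ) :
    μ * (r'' - r) * (r'' - r') /
      (ρ * (r'' - r') / (r - r') + ρ' * (r'' - r) / (r' - r) - ρ'') ∉ clF i {r''} := by
  obtain ⟨t1, t2, t3, h1, h2, h3⟩ := h.facts hSnoc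
  set T : Set L := {r, r', r''} with hT
  have mr : r ∈ clF i T := mem_clF_of_mem (by simp [hT])
  have mr' : r' ∈ clF i T := mem_clF_of_mem (by simp [hT])
  have mr'' : r'' ∈ clF i T := mem_clF_of_mem (by simp [hT])
  have mρ : ρ ∈ clF i T := rel_rho_mem mr (Q_ne t1) h.eq1
  have mρ' : ρ' ∈ clF i T := rel_rho_mem mr' (Q_ne t2) h.eq2
  have mρ'' : ρ'' ∈ clF i T := rel_rho_mem mr'' (Q_ne t3) h.eq3
  have n1 : r ≠ r' := by
    rintro rfl
    exact h1 (mem_clF_of_mem rfl)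
  have n2 : r'' ≠ r := by
    rintro rfl
    exact h2 (mem_clF_of_mem (by simp))
  have n3 : r'' ≠ r' := by
    rintro rfl
    exact h2 (mem_clF_of_mem (by simp))
  have d1 : r - r' ≠ 0 := sub_ne_zero.2 n1
  have d1' : r' - r ≠ 0 := sub_ne_zero.2 n1.symm
  have d2 : r'' - r ≠ 0 := sub_ne_zero.2 n2
  have d3 : r'' - r' ≠ 0 := sub_ne_zero.2 n3
  set ws := ρ * (r'' - r') / (r - r') + ρ' * (r'' - r) / (r' - r) with hws
  have hw : ws ≠ ρ'' := by
    intro hw
    apply h2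
    have hU : ∀ z ∈ ({r, r'} : Set L), z ∈ clF i ({r, r'} : Set L) := fun z hz => mem_clF_of_mem hz
    have ur : r ∈ clF i ({r, r'} : Set L) := mem_clF_of_mem (by simp)
    have ur' : r' ∈ clF i ({r, r'} : Set L) := mem_clF_of_mem (by simp)
    have uρ : ρ ∈ clF i ({r, r'} : Set L) := rel_rho_mem ur (Q_ne t1) h.eq1
    have uρ' : ρ' ∈ clF i ({r, r'} : Set L) := rel_rho_mem ur' (Q_ne t2) h.eq2
    refine line_root (a := a) (b := b) hab ha2 (A0 := (ρ' * r - ρ * r') / (r - r'))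
      (A1 := (ρ - ρ') / (r - r')) ?_ ?_ ?_
    · exact div_mem (sub_mem (mul_mem uρ' ur) (mul_mem uρ ur')) (sub_mem ur ur')
    · exact div_mem (sub_mem uρ uρ') (sub_mem ur ur')
    · have h4 : (ρ' * r - ρ * r') / (r - r') + (ρ - ρ') / (r - r') * r'' = ρ'' := by
        rw [← hw, hws]
        have : r' - r = -(r - r') := by ring
        rw [this]
        field_simp
        ring
      rw [h4]
      exact h.eq3
  have d4 : ws - ρ'' ≠ 0 := sub_ne_zero.2 hw
  intro hk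
  apply h3
  have hk' : μ * (r'' - r) * (r'' - r') / (ws - ρ'') ∈ clF i T :=
    clF_mono (by simp [hT]) hk
  have h5 : μ = μ * (r'' - r) * (r'' - r') / (ws - ρ'') * (ws - ρ'') / ((r'' - r) * (r'' - r')) := by
    field_simp
  rw [h5]
  have mws : ws ∈ clF i T := by
    rw [hws]
    exact add_mem (div_mem (mul_mem mρ (sub_mem mr'' mr')) (sub_mem mr mr'))
      (div_mem (mul_mem mρ' (sub_mem mr'' mr)) (sub_mem mr' mr))
  exact div_mem (mul_mem hk' (sub_mem mws mρ'')) (mul_mem (sub_mem mr'' mr) (sub_mem mr'' mr'))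

end

/-- The relation between sections and the universal point. -/
theorem relAB (hSnoc : stSnoc) (hBasis : stBasis) (hGal : stGal) (hC1 : stC1) (hDeg : stDeg)
    {k : Type} [Field k] [IsAlgClosed k] [CharZero k] {i : k →+* ℂ} {a b : k}
    (hab : b ^ 2 = a ^ 2 - 1) (ha2 : a ^ 2 ≠ 0) (ha4 : a ^ 4 ≠ 1) (A : AD k)
    {M : Type} [Field M] [CharZero M] {iM : k →+* M} {x y ρ : M} (hM : IsCF iM a x y)
    {B : E M} (hB : ∀ (L : Type) [Field L] [CharZero L] [IsAlgClosed L] (j : M →+* L) (κ : L),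
      Trans j κ → S (j.comp iM) A (lineP (j x) (j ρ) κ) = Emap j B)
    {r1 ρ1 r2 ρ2 r3 ρ3 r5 ρ5 μ : ℂ} (h1 : TriH i a b r1 ρ1 r3 ρ3 r5 ρ5 μ)
    (h2 : TriH i a b r2 ρ2 r3 ρ3 r5 ρ5 μ) {j1 j2 j5 : M →+* ℂ}
    (hj1 : j1.comp iM = i) (hj2 : j2.comp iM = i) (hj5 : j5.comp iM = i)
    (hx1 : j1 x = r1) (hx2 : j2 x = r2) (hx5 : j5 x = r5)
    (hr1 : j1 ρ = ρ1) (hr2 : j2 ρ = ρ2) (hr5 : j5 ρ = ρ5) :
    S i A (secP r1 ρ1 r3 ρ3 μ) - S i A (secP r2 ρ2 r3 ρ3 μ) = Emap j1 B - Emap j2 B := by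
  -- the values on lines
  have key : ∀ {r ρ' : ℂ} {j : M →+* ℂ} (_ : j.comp iM = i) (_ : j x = r) (_ : j ρ = ρ') {κ : ℂ},
      κ ∉ clF i {r} → S i A (lineP r ρ' κ) = Emap j B := by
    intro r ρ' j hj hx hr κ hκ
    have h3 := hB ℂ j κ ((trans_of_not_mem_clF (T := {r}) hκ).comp_of_le (fun c => by
      have := CF_mem (i := i) hM hj c
      rwa [hx] at this))
    rwa [hj, hx, hr] at h3
  have main : ∀ {r ρ' : ℂ} {j : M →+* ℂ} (_ : j.comp iM = i) (_ : j x = r) (_ : j ρ = ρ'),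
      TriH i a b r ρ' r3 ρ3 r5 ρ5 μ →
      S i A (secP r ρ' r3 ρ3 μ) = S i A (secP r3 ρ3 r5 ρ5 μ) + Emap j B - Emap j5 B := by
    intro r ρ' j hj hx hr h
    obtain ⟨S0, hS0⟩ := univTri hGal hC1 i A r ρ' r3 ρ3 r5 ρ5 μ
    have e1 := hDeg k i a b A r ρ' r3 ρ3 r5 ρ5 μ S0 hab ha2 ha4 h.eq1 h.eq2 h.eq3 h.ind hS0
    have h' := h.cyc hBasis
    have e2 := hDeg k i a b A r3 ρ3 r5 ρ5 r ρ' μ S0 hab ha2 ha4 h'.eq1 h'.eq2 h'.eq3 h'.ind (by
      intro L _ _ _ J τ hτ
      rw [triP_cyc]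
      exact hS0 L J τ hτ)
    rw [key hj5 hx5 hr5 (kap_not_mem hSnoc hab ha2 h)] at e1
    rw [key hj hx hr (kap_not_mem hSnoc hab ha2 h')] at e2
    rw [e1] at e2
    rw [← e2, add_sub_cancel_right]
  rw [main hj1 hx1 hr1 h1, main hj2 hx2 hr2 h2]
  abel

end MP_d2f638_ag.Stab
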