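import Pool.Agent.Lib.MP_d2f638_ag.Stab.Rel
import Pool.Agent.Lib.MP_d2f638_ag.Stab.StmtsA

/-!
# The second half of the proof
-/

namespace MP_d2f638_ag.Stab

open Polynomial

section

variable {k : Type} [Field k] {i : k →+* ℂ}

lemma conj_mem_clF {cj : k →+* k} (hcj : ∀ c, i (cj c) = starRingEnd ℂ (i c)) {T : Set ℂ}
    (hT : ∀ t ∈ T, starRingEnd ℂ t ∈ clF i T) {z : ℂ} (hz : z ∈ clF i T) :
    starRingEnd ℂ z ∈ clF i T := by
  have hle : Subfield.closure (Set.range i ∪ T) ≤ (clF i T).comap (starRingEnd ℂ) := by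
    rw [Subfield.closure_le]
    rintro y (⟨c, rfl⟩ | hy)
    · show starRingEnd ℂ (i c) ∈ clF i T
      rw [← hcj]
      exact base_mem_clF _
    · exact hT y hy
  rw [mem_clF_iff] at hz
  obtain ⟨p, hp, hpz⟩ := hz
  let q : ℂ[X] := (p.map (algebraMap _ ℂ)).map (starRingEnd ℂ)
  refine mem_clF_of_root (p := q) ?_ ?_ ?_
  · simp only [q]
    rw [Ne, Polynomial.map_eq_zero, Polynomial.map_eq_zero]
    exact hp
  · intro n
    simp only [q, coeff_map]
    exact hle (p.coeff n).2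
  · simp only [q]
    rw [Polynomial.eval_map, Polynomial.eval₂_at_apply, Polynomial.eval_map,
      ← Polynomial.aeval_def, hpz, map_zero]

/-- Linear sections: the roots determine the line. -/
lemma ai_pair (hBasis : stBasis) {a b : k} {w0 w1 r r' : ℂ} (h : AI i ![w0, w1])
    (hne : r ≠ r') (hQ : Qf (i a) (i b) r ≠ 0) (hQ' : Qf (i a) (i b) r' ≠ 0)
    (h1 : Ff (i a) (i b) r (w0 + w1 * r) = 0) (h2 : Ff (i a) (i b) r' (w0 + w1 * r') = 0) :
    AI i ![r, r'] := by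
  have m1 : r ∈ clF i (Set.range ![r, r']) := mem_clF_of_mem ⟨0, rfl⟩
  have m2 : r' ∈ clF i (Set.range ![r, r']) := mem_clF_of_mem ⟨1, rfl⟩
  have m3 := rel_rho_mem m1 hQ h1
  have m4 := rel_rho_mem m2 hQ' h2
  have hd : r - r' ≠ 0 := sub_ne_zero.2 hne
  have m5 : w1 ∈ clF i (Set.range ![r, r']) := by
    have : w1 = ((w0 + w1 * r) - (w0 + w1 * r')) / (r - r') := by
      rw [eq_div_iff hd]
      ring
    rw [this]
    exact div_mem (sub_mem m3 m4) (sub_mem m1 m2)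
  refine hBasis k ℂ i 2 _ _ h ?_
  intro j
  fin_cases j
  · show w0 ∈ _
    have : w0 = (w0 + w1 * r) - w1 * r := by ring
    rw [this]
    exact sub_mem m3 (mul_mem m5 m1)
  · exact m5

lemma exists_not_mem (hCount : stCount) [Countable k] (T : Set ℂ) (hT : T.Countable)
    (U : Set ℂ) (hU : ¬ U.Countable) : ∃ z ∈ U, z ∉ clF i T := by
  by_contra hcon
  push Not at hcon
  exact hU ((hCount k ℂ i T hT).mono hcon)

lemma circle_uncountable {c : ℝ} (hc : 0 < c) : ¬ {z : ℂ | Complex.normSq z = c}.Countable := by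
  intro h
  have h1 := h.image Complex.re
  have h2 : Set.Ioo (0 : ℝ) (Real.sqrt c) ⊆ Complex.re '' {z : ℂ | Complex.normSq z = c} := by
    intro t ht
    refine ⟨⟨t, Real.sqrt (c - t ^ 2)⟩, ?_, rfl⟩
    have h3 : t ^ 2 ≤ c := by
      have h4 : t ^ 2 ≤ (Real.sqrt c) ^ 2 := pow_le_pow_left₀ ht.1.le ht.2.le 2
      rwa [Real.sq_sqrt hc.le] at h4
    show Complex.normSq _ = c
    rw [Complex.normSq_mk, Real.mul_self_sqrt (by linarith)]
    ring
  exact absurd (h1.mono h2) (by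
    rw [Set.countable_coe_iff.symm]
    intro h5
    have h6 := Cardinal.mk_Ioo_real (Real.sqrt_pos.2 hc)
    have h7 := Cardinal.mk_le_aleph0_iff.2 h5
    rw [h6] at h7
    exact absurd h7 (not_le.2 Cardinal.aleph0_lt_continuum))

lemma univ_uncountable : ¬ (Set.univ : Set ℂ).Countable := fun h =>
  circle_uncountable one_pos (h.mono (Set.subset_univ _))

lemma imul_neg_I {F : Type} [Field F] [CharZero F] {I : F} (hI : I ^ 2 = -1)
    (hI' : (-I) ^ 2 = -1) (P : E F) : imul (-I) hI' P = -imul I hI P := by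
  rcases exists_pt P with rfl | ⟨x, y, h, rfl⟩
  · simp
  · rw [imul_pt hI' h, imul_pt hI h, neg_pt (imul_eqn hI h), neg_mul]

lemma conjE_imul (hI : Complex.I ^ 2 = -1) (P : E ℂ) :
    conjE (imul Complex.I hI P) = -imul Complex.I hI (conjE P) := by
  unfold conjE
  rw [Emap_imul, ← imul_neg_I hI (by rw [neg_sq, hI])]
  congr 2
  exact Complex.conj_I

lemma E0_one_zero : ¬ E0 (pt (-1 : ℂ) 0) := by
  have h0 : (0 : ℂ) ^ 2 = (-1) ^ 3 - (-1) := by norm_num
  rintro (h | ⟨u, v, h1, h2, h3⟩)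
  · exact pt_ne_zero h0 h
  · have h4 : ((v : ℂ)) ^ 2 = (u : ℂ) ^ 3 - u := by exact_mod_cast congrArg (fun t : ℝ => (t : ℂ)) h2
    have h5 := (pt_inj h0 h4 h3).1
    have h6 : u = -1 := by exact_mod_cast h5.symm
    linarith

lemma E0.neg (hE0 : stE0) {P : E ℂ} (h : E0 P) : E0 (-P) := hE0.2.1 P h

lemma E0.sub (hE0 : stE0) {P Q : E ℂ} (h : E0 P) (h' : E0 Q) : E0 (P - Q) := by
  rw [sub_eq_add_neg]
  exact hE0.1 _ _ h (hE0.2.1 _ h')

lemma E0_diff (hE0 : stE0) (hI : Complex.I ^ 2 = -1) (P : E ℂ) :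
    E0 (imul Complex.I hI (P - conjE P)) := by
  have h := hE0.2.2 (imul Complex.I hI P)
  rw [conjE_imul] at h
  rwa [map_sub, sub_eq_add_neg]

end

/-- The second half of the proof. -/
theorem theoremB (hSnoc : stSnoc) (hBasis : stBasis) (hCount : stCount) (hGal : stGal)
    (hC1 : stC1) (hCFex : stCFex) (hCFhom : stCFhom) (hDeg : stDeg) (hE0 : stE0) (hP2 : stP2)
    (hP3 : stP3) (hConf : stConf) (hStar : stStar) : stB := by
  intro k _ _ _ _ i cj a b al be A hS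
  have hI : Complex.I ^ 2 = -1 := Complex.I_sq
  -- constants
  have hal : 0 < al := hS.pos.trans hS.pos'
  have hab : b ^ 2 = a ^ 2 - 1 := by
    apply i.injective
    rw [map_pow, map_sub, map_pow, map_one, hS.ia, hS.ib]
    exact_mod_cast congrArg (fun t : ℝ => (t : ℂ)) hS.rel
  have ha2 : a ^ 2 ≠ 0 := by
    intro h
    have h1 : (i a) ^ 2 = 0 := by rw [← map_pow, h, map_zero]
    rw [hS.ia] at h1
    have h2 : al ^ 2 = 0 := by exact_mod_cast h1
    exact (pow_pos hal 2).ne' h2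
  have hal1 : 1 < al ^ 2 := by nlinarith [hS.rel, pow_pos hS.pos 2]
  have ha4 : a ^ 4 ≠ 1 := by
    intro h
    have h1 : (i a) ^ 4 = 1 := by rw [← map_pow, h, map_one]
    rw [hS.ia] at h1
    have h2 : al ^ 4 = 1 := by exact_mod_cast h1
    nlinarith
  have htr : Transcendental ℚ a := by
    intro h
    apply hS.tr
    have h1 : IsAlgebraic ℚ (i a) := by
      obtain ⟨p, hp, hpa⟩ := h
      refine ⟨p, hp, ?_⟩
      have h2 := congrArg i hpa
      rw [map_zero, Polynomial.aeval_def, Polynomial.hom_eval₂] at h2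
      rw [Polynomial.aeval_def, ← h2]
      congr 1
      exact Subsingleton.elim _ _
    rw [hS.ia] at h1
    exact (isAlgebraic_algebraMap_iff (A := ℂ) (algebraMap ℝ ℂ).injective).1 h1
  obtain ⟨I0, hI0⟩ : ∃ I0 : k, i I0 = Complex.I := by
    obtain ⟨I1, hI1⟩ := IsAlgClosed.exists_pow_nat_eq (-1 : k) (n := 2) two_pos
    have h1 : (i I1 - Complex.I) * (i I1 + Complex.I) = 0 := by
      have h2 : (i I1) ^ 2 = -1 := by rw [← map_pow, hI1, map_neg, map_one]
      linear_combination h2 - hI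
    rcases mul_eq_zero.1 h1 with h2 | h2
    · exact ⟨I1, by linear_combination h2⟩
    · exact ⟨-I1, by rw [map_neg]; linear_combination -h2⟩
  have hI0' : I0 ^ 2 = -1 := by
    apply i.injective
    rw [map_pow, hI0, hI, map_neg, map_one]
  -- the function field
  obtain ⟨M, _, _, iM, x, y, hM⟩ := hCFex k a ha2 ha4
  set ρM : M := iM I0 * y / Qf (iM a) (iM b) x with hρM
  have hQM : Qf (iM a) (iM b) x ≠ 0 := Q_ne hM.trans
  obtain ⟨B, hB⟩ := univB hGal hC1 iM A x ρM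
  obtain ⟨κ0, hκ0⟩ := hStar k M iM a I0 x y hI0' hM htr B
  -- the configuration
  obtain ⟨w0, w1, r1, r2, r3, hr3, c1, c2, c3, c4, e1, e2, e3, hAI⟩ :=
    hConf k i al be hS.rel hS.pos hS.pos'
  have e1' : Ff (i a) (i b) (r1 : ℂ) (w0 + w1 * r1) = 0 := by
    rw [hS.ia, hS.ib]
    have := congrArg (fun t : ℝ => (t : ℂ)) e1
    simpa [Ff, Qf, Rf] using this
  have e2' : Ff (i a) (i b) (r2 : ℂ) (w0 + w1 * r2) = 0 := by
    rw [hS.ia, hS.ib]
    have := congrArg (fun t : ℝ => (t : ℂ)) e2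
    simpa [Ff, Qf, Rf] using this
  have e3' : Ff (i a) (i b) r3 (w0 + w1 * r3) = 0 := by
    rw [hS.ia, hS.ib]
    exact e3
  have q1 : Qf (i a) (i b) (r1 : ℂ) ≠ 0 := by
    rw [hS.ia, hS.ib]
    unfold Qf
    refine mul_ne_zero ?_ ?_
    · exact_mod_cast (show r1 + al ≠ 0 by linarith [hS.pos'])
    · have := hS.pos'
      exact_mod_cast (show r1 + be ≠ 0 by linarith)
  have q2 : Qf (i a) (i b) (r2 : ℂ) ≠ 0 := by
    rw [hS.ia, hS.ib]
    unfold Qf
    have := hS.pos'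
    refine mul_ne_zero ?_ ?_
    · exact_mod_cast (show r2 + al ≠ 0 by linarith)
    · exact_mod_cast (show r2 + be ≠ 0 by linarith)
  have q3 : Qf (i a) (i b) r3 ≠ 0 := by
    rw [hS.ia, hS.ib]
    unfold Qf
    refine mul_ne_zero ?_ ?_
    · intro h
      apply hr3
      have := congrArg Complex.im h
      simpa using this
    · intro h
      apply hr3
      have := congrArg Complex.im h
      simpa using this
  have n13 : (r1 : ℂ) ≠ r3 := by
    intro h
    apply hr3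
    rw [← h]
    simp
  have n23 : (r2 : ℂ) ≠ r3 := by
    intro h
    apply hr3
    rw [← h]
    simp
  have hAI13 := ai_pair hBasis hAI n13 q1 q3 e1' e3'
  have hAI23 := ai_pair hBasis hAI n23 q2 q3 e2' e3'
  set T : Set ℂ := {(w0 : ℂ), (w1 : ℂ)} with hT
  have mw0 : (w0 : ℂ) ∈ clF i T := mem_clF_of_mem (by simp [hT])
  have mw1 : (w1 : ℂ) ∈ clF i T := mem_clF_of_mem (by simp [hT])
  have mr1 : (r1 : ℂ) ∈ clF i T := line_root hab ha2 mw0 mw1 e1'
  have mr2 : (r2 : ℂ) ∈ clF i T := line_root hab ha2 mw0 mw1 e2'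
  have mr3 : r3 ∈ clF i T := line_root hab ha2 mw0 mw1 e3'
  have mρ1 : (w0 : ℂ) + w1 * r1 ∈ clF i T := add_mem mw0 (mul_mem mw1 mr1)
  have mρ2 : (w0 : ℂ) + w1 * r2 ∈ clF i T := add_mem mw0 (mul_mem mw1 mr2)
  have mρ3 : (w0 : ℂ) + w1 * r3 ∈ clF i T := add_mem mw0 (mul_mem mw1 mr3)
  -- the auxiliary parameters
  obtain ⟨μ, -, hμ⟩ := exists_not_mem (i := i) hCount T (by simp [hT]) _ univ_uncountable
  obtain ⟨r5, -, hr5⟩ := exists_not_mem (i := i) hCount T (by simp [hT]) _ univ_uncountable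
  obtain ⟨μ0, -, hμ0⟩ := exists_not_mem (i := i) hCount (insert r5 T) (by simp [hT]) _
    univ_uncountable
  have hμ0' : μ0 ∉ clF i T := fun h => hμ0 (clF_mono (Set.subset_insert _ _) h)
  have htr5 : Trans i r5 :=
    (trans_of_not_mem_clF hr5).comp_of_le (fun c => base_mem_clF c)
  obtain ⟨y5, hy5⟩ := IsAlgClosed.exists_pow_nat_eq (delta (i a) r5) (n := 2) two_pos
  obtain ⟨j5, hj5, hj5x, hj5y⟩ := hCFhom k M ℂ a iM x y i r5 y5 ha2 ha4 hM htr5 hy5
  have hFM : Ff (iM a) (iM b) x ρM = 0 := by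
    have h1 : ρM * Qf (iM a) (iM b) x = iM I0 * y := div_mul_cancel₀ _ hQM
    have h2 : Qf (iM a) (iM b) x * Rf (iM a) (iM b) x = delta (iM a) x := by
      apply Qf_mul_Rf
      rw [← map_pow, hab, map_sub, map_pow, map_one]
    have h3 : (iM I0) ^ 2 = -1 := by rw [← map_pow, hI0', map_neg, map_one]
    have h4 : Qf (iM a) (iM b) x * Ff (iM a) (iM b) x ρM = 0 := by
      unfold Ff
      have h5 : (ρM * Qf (iM a) (iM b) x) ^ 2 = (iM I0 * y) ^ 2 := by rw [h1]
      have h6 := hM.eqn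
      linear_combination h5 + y ^ 2 * h3 + h2 - h6
    exact (mul_eq_zero.1 h4).resolve_left hQM
  have hFj : ∀ j : M →+* ℂ, j.comp iM = i → Ff (i a) (i b) (j x) (j ρM) = 0 := by
    intro j hj
    have h1 := congrArg j hFM
    rw [map_Ff, map_zero] at h1
    rw [← hj]
    exact h1
  have hρj : ∀ j : M →+* ℂ, j.comp iM = i →
      j ρM = Complex.I * j y / Qf (i a) (i b) (j x) := by
    intro j hj
    rw [hρM, map_div₀, map_mul, map_Qf]
    have h2 : ∀ c, j (iM c) = i c := fun c => by rw [← hj]; rfl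
    rw [h2, h2, h2, hI0]
  -- the points c1, c2
  have point : ∀ (r : ℝ), AI i ![(r : ℂ)] → Qf (i a) (i b) (r : ℂ) ≠ 0 →
      Ff (i a) (i b) (r : ℂ) (w0 + w1 * r) = 0 → 0 < 2 * al ^ 2 - r ^ 2 →
      ∃ j j' : M →+* ℂ, j.comp iM = i ∧ j x = r ∧ j ρM = w0 + w1 * r ∧
        Emap j' B - imul Complex.I hI (Emap j B) = Emap i κ0 ∧ E0 (Emap j' B) := by
    intro r hAIr hQ hF hpos
    have htr : Trans i (r : ℂ) := hAIr.trans 0
    set yr : ℝ := Qf al be r * (w0 + w1 * r) with hyr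
    have hyrc : (yr : ℂ) = Qf (i a) (i b) (r : ℂ) * (w0 + w1 * r) := by
      rw [hyr, hS.ia, hS.ib]
      simp [Qf]
    have hy0 : (-Complex.I * yr) ^ 2 = delta (i a) (r : ℂ) := by
      rw [← Qf_mul_Rf (b := i b) (by rw [← map_pow, hab, map_sub, map_pow, map_one]), hyrc]
      unfold Ff at hF
      linear_combination (Qf (i a) (i b) (r : ℂ) * (w0 + w1 * r)) ^ 2 * hI -
        Qf (i a) (i b) (r : ℂ) * hF
    obtain ⟨j, hj, hjx, hjy⟩ := hCFhom k M ℂ a iM x y i r (-Complex.I * yr) ha2 ha4 hM htr hy0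
    set x1 : ℝ := Real.sqrt (2 * al ^ 2 - r ^ 2) with hx1
    have hx1pos : 0 < x1 := Real.sqrt_pos.2 hpos
    have hx1sq : x1 ^ 2 = 2 * al ^ 2 - r ^ 2 := Real.sq_sqrt hpos.le
    have hy1 : ((yr : ℂ)) ^ 2 = delta (i a) (x1 : ℂ) := by
      have h1 : (x1 : ℂ) ^ 2 = 2 * (i a) ^ 2 - (r : ℂ) ^ 2 := by
        rw [hS.ia]
        exact_mod_cast congrArg (fun t : ℝ => (t : ℂ)) hx1sq
      have h2 : delta (i a) (x1 : ℂ) = -delta (i a) (r : ℂ) := by
        unfold delta
        rw [h1]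
        ring
      rw [h2, ← hy0]
      linear_combination ((yr : ℂ)) ^ 2 * hI
    have htr1 : AI i ![(x1 : ℂ)] := by
      refine hBasis k ℂ i 1 _ _ hAIr ?_
      intro j
      fin_cases j
      show (r : ℂ) ∈ _
      apply mem_clF_of_sq
      have h2 : (r : ℂ) ^ 2 = 2 * (i a) ^ 2 - (x1 : ℂ) ^ 2 := by
        rw [hS.ia]
        have := congrArg (fun t : ℝ => (t : ℂ)) hx1sq
        push_cast at this
        linear_combination this
      rw [h2]
      have h3 : (x1 : ℂ) ∈ clF i (Set.range ![(x1 : ℂ)]) := mem_clF_of_mem ⟨0, rfl⟩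
      exact sub_mem (mul_mem (by
        have := base_mem_clF (i := i) (T := Set.range ![(x1 : ℂ)]) (2 : k)
        rwa [map_ofNat] at this) (pow_mem (base_mem_clF a) 2)) (pow_mem h3 2)
    obtain ⟨j', hj', hj'x, hj'y⟩ := hCFhom k M ℂ a iM x y i x1 yr ha2 ha4 hM (htr1.trans 0) hy1
    refine ⟨j, j', hj, hjx, ?_, ?_, ?_⟩
    · rw [hρj j hj, hjx, hjy, div_eq_iff hQ, hyrc]
      linear_combination (-(Qf (i a) (i b) (r : ℂ) * (w0 + w1 * r))) * hI
    · have h1 := hκ0 ℂ i r x1 (-Complex.I * yr) htr hy0 (by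
        rw [hS.ia]
        have := congrArg (fun t : ℝ => (t : ℂ)) hx1sq
        push_cast at this
        linear_combination this) j j' hj hjx hjy hj' hj'x (by
          rw [hj'y, hI0]
          linear_combination ((yr : ℂ)) * hI)
      have h2 : ∀ (J : ℂ) (hJ : J ^ 2 = -1), J = Complex.I →
          ∀ P : E ℂ, imul J hJ P = imul Complex.I hI P := by
        rintro J hJ rfl P
        rfl
      rw [h2 _ _ hI0] at h1
      exact h1
    · have hQ1 : 0 < Qf al be x1 := by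
        unfold Qf
        have := hS.pos
        positivity
      obtain ⟨κ, hκ1, hκ2⟩ := exists_not_mem (i := i) hCount {(x1 : ℂ)} (by simp) _
        (circle_uncountable hQ1)
      have h1 := hB ℂ j' κ ((trans_of_not_mem_clF (T := {(x1 : ℂ)}) hκ2).comp_of_le (fun c => by
        have := CF_mem (i := i) hM hj' c
        rwa [hj'x] at this))
      rw [← h1, hj', hj'x, hρj j' hj', hj'x, hj'y]
      have h3 := hP2 k i cj a b al be A hS x1 yr κ (by
        have := hy1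
        rw [hS.ia] at this
        have h4 : ((yr ^ 2 : ℝ) : ℂ) = ((delta al x1 : ℝ) : ℂ) := by
          push_cast
          rw [this]
          simp [delta]
        exact_mod_cast h4) hQ1 hκ1 ((AI.two hSnoc).2 ⟨htr1, hκ2⟩)
      have h5 : Qf (i a) (i b) (x1 : ℂ) = ((Qf al be x1 : ℝ) : ℂ) := by
        rw [hS.ia, hS.ib]
        simp [Qf]
      rw [h5]
      exact h3
  have hp1 : 0 < 2 * al ^ 2 - r1 ^ 2 := by nlinarith
  have hp2 : 0 < 2 * al ^ 2 - r2 ^ 2 := by
    have h1 : r2 ^ 2 < be ^ 2 := by nlinarith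
    nlinarith [hS.rel]
  obtain ⟨j1, j1', hj1, hx1, hρ1, hs1, hE1⟩ := point r1 ((AI.two hSnoc).1 hAI13).1 q1 e1' hp1
  obtain ⟨j2, j2', hj2, hx2, hρ2, hs2, hE2⟩ := point r2 ((AI.two hSnoc).1 hAI23).1 q2 e2' hp2
  -- the relation
  have tri : ∀ r : ℂ, r ∈ clF i T → AI i ![r, r3] → AI i ![r, r3, r5, μ0] := by
    intro r hr h
    refine (AI.four hSnoc).2 ⟨(AI.three hSnoc).2 ⟨h, ?_⟩, ?_⟩
    · intro h1
      apply hr5
      refine clF_le ?_ h1
      rintro t (rfl | rfl)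
      · exact hr
      · exact mr3
    · intro h1
      apply hμ0
      refine clF_le ?_ h1
      rintro t (rfl | rfl | rfl)
      · exact clF_mono (Set.subset_insert _ _) hr
      · exact clF_mono (Set.subset_insert _ _) mr3
      · exact mem_clF_of_mem (Set.mem_insert _ _)
  have hF5 := hFj j5 hj5
  rw [hj5x] at hF5
  have hrel := relAB hSnoc hBasis hGal hC1 hDeg hab ha2 ha4 A hM hB
    (⟨e1', e3', hF5, tri _ mr1 hAI13⟩ : TriH i a b (r1 : ℂ) (w0 + w1 * r1) r3 (w0 + w1 * r3) r5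
      (j5 ρM) μ0)
    (⟨e2', e3', hF5, tri _ mr2 hAI23⟩ : TriH i a b (r2 : ℂ) (w0 + w1 * r2) r3 (w0 + w1 * r3) r5
      (j5 ρM) μ0) hj1 hj2 hj5 hx1 hx2 hj5x hρ1 hρ2 rfl
  -- independence of the parameter
  have hT' : ∀ t ∈ T, starRingEnd ℂ t ∈ clF i T := by
    rintro t (rfl | rfl)
    · rw [Complex.conj_ofReal]
      exact mw0
    · rw [Complex.conj_ofReal]
      exact mw1
  have hμ' : (1 + (w1 : ℂ) ^ 2) / starRingEnd ℂ μ ∉ clF i T := by
    intro h
    apply hμ
    have h1 : (1 + (w1 : ℂ) ^ 2) ≠ 0 := by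
      have : (0 : ℝ) < 1 + w1 ^ 2 := by positivity
      exact_mod_cast this.ne'
    have h2 : starRingEnd ℂ μ ≠ 0 := by
      intro h3
      apply hμ
      have : μ = 0 := by simpa using h3
      rw [this]
      exact zero_mem _
    have h3 : starRingEnd ℂ μ = (1 + (w1 : ℂ) ^ 2) / ((1 + (w1 : ℂ) ^ 2) / starRingEnd ℂ μ) := by
      field_simp
    have h4 : starRingEnd ℂ μ ∈ clF i T := by
      rw [h3]
      exact div_mem (add_mem (one_mem _) (pow_mem mw1 2)) h
    have h5 := conj_mem_clF hS.conj hT' h4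
    rwa [Complex.conj_conj] at h5
  have u1 := univSec hGal hC1 i A (T := T) mr1 mρ1 mr3 mρ3 hμ hμ0'
  have u2 := univSec hGal hC1 i A (T := T) mr2 mρ2 mr3 mρ3 hμ' hμ0'
  have hAIμ : AI i ![(w0 : ℂ), (w1 : ℂ), μ] := (AI.three hSnoc).2 ⟨hAI, hμ⟩
  have hr12 : r1 ≠ r2 := by
    intro h
    have := hS.pos'
    linarith
  have hp3 := hP3 k i cj a b al be A hS w0 w1 r1 r2 r3 μ hr12 hr3 e1 e2 e3 hAIμ
  rw [← u1, ← u2, hp3] at hrel
  set q := S i A (secP (r1 : ℂ) (w0 + w1 * r1) r3 (w0 + w1 * r3) μ) with hq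
  have k1 : E0 (imul Complex.I hI (q - conjE q)) := E0_diff hE0 hI q
  have k2 : imul Complex.I hI (Emap j1 B - Emap j2 B) = Emap j1' B - Emap j2' B := by
    rw [map_sub]
    have h1 : imul Complex.I hI (Emap j1 B) = Emap j1' B - Emap i κ0 := by
      rw [← hs1]
      abel
    have h2 : imul Complex.I hI (Emap j2 B) = Emap j2' B - Emap i κ0 := by
      rw [← hs2]
      abel
    rw [h1, h2]
    abel
  have k3 : E0 (imul Complex.I hI (Emap j1 B - Emap j2 B)) := by
    rw [k2]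
    exact hE1.sub hE0 hE2
  have k4 : pt (1 : ℂ) 0 = (q - conjE q) - (Emap j1 B - Emap j2 B) := by
    rw [← hrel]
    abel
  have k5 : E0 (imul Complex.I hI (pt (1 : ℂ) 0)) := by
    rw [k4, map_sub]
    exact k1.sub hE0 k3
  rw [imul_pt hI (by norm_num), mul_zero] at k5
  exact E0_one_zero k5

end MP_d2f638_ag.Stab
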