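import Pool.Agent.Lib.MP_d2f638_ag.Stab.Cl

/-!
# Universal sums
-/

namespace MP_d2f638_ag.Stab

open Polynomial

section

variable {k L : Type} [Field k] [Field L]

lemma lineP_map {L' : Type} [Field L'] (J : L →+* L') (x ρ κ : L) :
    (lineP x ρ κ).map J = lineP (J x) (J ρ) (J κ) := by
  unfold lineP Par.map
  simp

lemma secP_map {L' : Type} [Field L'] (J : L →+* L') (r ρ r' ρ' μ : L) :
    (secP r ρ r' ρ' μ).map J = secP (J r) (J ρ) (J r') (J ρ') (J μ) := by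
  unfold secP Par.map
  simp

lemma triP_map {L' : Type} [Field L'] (J : L →+* L') (r ρ r' ρ' r'' ρ'' τ μ : L) :
    (triP r ρ r' ρ' r'' ρ'' τ μ).map J =
      triP (J r) (J ρ) (J r') (J ρ') (J r'') (J ρ'') (J τ) (J μ) := by
  unfold triP Par.map
  simp

lemma triP_cyc (r ρ r' ρ' r'' ρ'' τ μ : L) :
    triP r' ρ' r'' ρ'' r ρ τ μ = triP r ρ r' ρ' r'' ρ'' τ μ := by
  unfold triP
  congr 1
  · rw [mul_comm (r' - r'') (r' - r), mul_comm (r'' - r') (r'' - r)]
    ring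
  · ring

/-- The universal point of the curve: sums over lines. -/
lemma univB (hGal : stGal) (hC1 : stC1) {M : Type} [Field M] [CharZero M] (iM : k →+* M)
    (A : AD k) (x ρ : M) :
    ∃ B : E M, ∀ (L : Type) [Field L] [CharZero L] [IsAlgClosed L] (j : M →+* L) (κ : L),
      Trans j κ → S (j.comp iM) A (lineP (j x) (j ρ) κ) = Emap j B := by
  have : CharZero (RatFunc M) := charZero_of_injective_algebraMap (algebraMap M _).injective
  obtain ⟨S0, hS0⟩ := hGal k (RatFunc M) ((RatFunc.C (K := M)).comp iM) A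
    (lineP (RatFunc.C x) (RatFunc.C ρ) RatFunc.X)
  obtain ⟨B, hB⟩ := hC1 M S0
  refine ⟨B, ?_⟩
  intro L _ _ _ j κ hκ
  obtain ⟨J, hJ, hJX⟩ := exists_ratHom j hκ
  have h1 := hS0 L J
  rw [lineP_map, hJX, hB, ← Emap_comp, ← RingHom.comp_assoc, hJ] at h1
  have h2 : ∀ c, J (RatFunc.C c) = j c := fun c => by rw [← hJ]; rfl
  rw [h2, h2] at h1
  exact h1

/-- Sums over sections do not depend on the parameter `μ`. -/
lemma univSec (hGal : stGal) (hC1 : stC1) [CharZero L] [IsAlgClosed L] (i : k →+* L) (A : AD k)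
    {T : Set L} {r ρ r' ρ' : L} (hr : r ∈ clF i T) (hρ : ρ ∈ clF i T) (hr' : r' ∈ clF i T)
    (hρ' : ρ' ∈ clF i T) {μ μ' : L} (hμ : μ ∉ clF i T) (hμ' : μ' ∉ clF i T) :
    S i A (secP r ρ r' ρ' μ) = S i A (secP r ρ r' ρ' μ') := by
  set F := clF i T with hF
  let iF : k →+* F := i.codRestrict F (fun c => base_mem_clF c)
  have hiF : F.subtype.comp iF = i := by
    ext c
    rfl
  have : CharZero F := (F.subtype.charZero_iff F.subtype.injective).2 inferInstance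
  have : CharZero (RatFunc F) := charZero_of_injective_algebraMap (algebraMap F _).injective
  obtain ⟨S0, hS0⟩ := hGal k (RatFunc F) ((RatFunc.C (K := F)).comp iF) A
    (secP (RatFunc.C ⟨r, hr⟩) (RatFunc.C ⟨ρ, hρ⟩) (RatFunc.C ⟨r', hr'⟩) (RatFunc.C ⟨ρ', hρ'⟩)
      RatFunc.X)
  obtain ⟨B, hB⟩ := hC1 F S0
  have key : ∀ ν : L, ν ∉ F → S i A (secP r ρ r' ρ' ν) = Emap F.subtype B := by
    intro ν hν
    obtain ⟨J, hJ, hJX⟩ := exists_ratHom F.subtype (trans_of_not_mem_clF hν)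
    have h1 := hS0 L J
    rw [secP_map, hJX, hB, ← Emap_comp, ← RingHom.comp_assoc, hJ, hiF] at h1
    have h2 : ∀ c, J (RatFunc.C c) = F.subtype c := fun c => by rw [← hJ]; rfl
    rw [h2, h2, h2, h2] at h1
    exact h1
  rw [key μ hμ, key μ' hμ']

/-- The constant value of the sums over curves with three points. -/
lemma univTri (hGal : stGal) (hC1 : stC1) (i : k →+* ℂ) (A : AD k)
    (r1 ρ1 r3 ρ3 r5 ρ5 μ : ℂ) :
    ∃ S0 : E ℂ, ∀ (L : Type) [Field L] [CharZero L] [IsAlgClosed L] (J : ℂ →+* L) (τ : L),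
      Trans J τ →
      S (J.comp i) A (triP (J r1) (J ρ1) (J r3) (J ρ3) (J r5) (J ρ5) τ (J μ)) = Emap J S0 := by
  have : CharZero (RatFunc ℂ) := charZero_of_injective_algebraMap (algebraMap ℂ _).injective
  obtain ⟨S0, hS0⟩ := hGal k (RatFunc ℂ) ((RatFunc.C (K := ℂ)).comp i) A
    (triP (RatFunc.C r1) (RatFunc.C ρ1) (RatFunc.C r3) (RatFunc.C ρ3) (RatFunc.C r5)
      (RatFunc.C ρ5) RatFunc.X (RatFunc.C μ))
  obtain ⟨B, hB⟩ := hC1 ℂ S0
  refine ⟨B, ?_⟩
  intro L _ _ _ j τ hτ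
  obtain ⟨J, hJ, hJX⟩ := exists_ratHom j hτ
  have h1 := hS0 L J
  rw [triP_map, hJX, hB, ← Emap_comp, ← RingHom.comp_assoc, hJ] at h1
  have h2 : ∀ c, J (RatFunc.C c) = j c := fun c => by rw [← hJ]; rfl
  simp only [h2] at h1
  exact h1

end

end MP_d2f638_ag.Stab
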