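import Pool.Agent.Lib.MP_d2f638_ag.Stab.XConn
import Pool.Agent.Lib.MP_d2f638_ag.Stab.Base

/-!
# The chart of the threefold
-/

namespace MP_d2f638_ag.Stab

section

variable {K : Type} [Field K]

/-- The data of the chart: six elements with two quadratic relations. -/
structure ChartData (al be s : K) (Y : Fin 6 → K) : Prop where
  hs : s ^ 2 = al ^ 2 + 1
  rel1 : -(al - be) * Y 0 ^ 2 - (al - be) * (s ^ 2 - be ^ 2) * Y 1 ^ 2 +
    (al - be) * (s ^ 2 - al ^ 2) * Y 2 ^ 2 - 2 * s * (s - al) * (s - be) * Y 3 ^ 2 +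
    2 * s * (s + al) * (s + be) * Y 4 ^ 2 + (al - be) * Y 5 ^ 2 = 0
  rel2 : be * (al - be) * Y 0 ^ 2 - be * ((al - be) * (s ^ 2 - be ^ 2)) * Y 1 ^ 2 +
    al * ((al - be) * (s ^ 2 - al ^ 2)) * Y 2 ^ 2 - s * (2 * s * (s - al) * (s - be)) * Y 3 ^ 2 -
    s * (2 * s * (s + al) * (s + be)) * Y 4 ^ 2 - al * (al - be) * Y 5 ^ 2 = 0
  v0 : Y 1 + Y 2 + Y 3 + Y 4 ≠ 0

/-- Power sums. -/
def ps0 (Y : Fin 6 → K) : K := Y 1 + Y 2 + Y 3 + Y 4

/-- Power sums. -/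
def ps1 (al be s : K) (Y : Fin 6 → K) : K := be * Y 1 + al * Y 2 + s * Y 3 - s * Y 4

/-- Power sums. -/
def ps2 (al be s : K) (Y : Fin 6 → K) : K := be ^ 2 * Y 1 + al ^ 2 * Y 2 + s ^ 2 * Y 3 + s ^ 2 * Y 4

/-- Power sums. -/
def ps3 (al be s : K) (Y : Fin 6 → K) : K :=
  be ^ 3 * Y 1 + al ^ 3 * Y 2 + s ^ 3 * Y 3 - s ^ 3 * Y 4

/-- The coordinate `t`. -/
def tY (al be s : K) (Y : Fin 6 → K) : K := ps1 al be s Y / ps0 Y

/-- The coordinate `w`. -/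
def wY (Y : Fin 6 → K) : K := (Y 0 + Y 5) / ps0 Y

/-- Auxiliary. -/
def gY (al be : K) (Y : Fin 6 → K) : K := (be * Y 0 + al * Y 5) / ps0 Y

/-- Auxiliary. -/
def dY (al be s : K) (Y : Fin 6 → K) : K := -ps2 al be s Y / ps0 Y

/-- The coordinate `z1`. -/
def z1Y (al be s : K) (Y : Fin 6 → K) : K := tY al be s Y * wY Y + gY al be Y

/-- The coordinate `z2`. -/
def z2Y (al be s : K) (Y : Fin 6 → K) : K := tY al be s Y ^ 2 + dY al be s Y

lemma ChartData.eqn {al be s : K} {Y : Fin 6 → K} (h : ChartData al be s Y) :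
    z1Y al be s Y ^ 2 + z2Y al be s Y ^ 2 = Ff al be (tY al be s Y) (wY Y) := by
  have hv : ps0 Y ≠ 0 := h.v0
  have e1 : z1Y al be s Y = (ps1 al be s Y * (Y 0 + Y 5) + (be * Y 0 + al * Y 5) * ps0 Y) /
      ps0 Y ^ 2 := by
    rw [z1Y, tY, wY, gY]
    field_simp
  have e2 : z2Y al be s Y = (ps1 al be s Y ^ 2 - ps2 al be s Y * ps0 Y) / ps0 Y ^ 2 := by
    rw [z2Y, tY, dY]
    field_simp
    ring
  have e3 : Ff al be (tY al be s Y) (wY Y) =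
      ((ps1 al be s Y + al * ps0 Y) * (ps1 al be s Y + be * ps0 Y) * (Y 0 + Y 5) ^ 2 +
        (ps1 al be s Y - al * ps0 Y) * (ps1 al be s Y - be * ps0 Y) *
        (ps1 al be s Y ^ 2 - s ^ 2 * ps0 Y ^ 2)) / ps0 Y ^ 4 := by
    rw [h.hs, Ff, Qf, Rf, tY, wY]
    field_simp
    ring
  rw [e1, e2, e3, div_pow, div_pow, ← add_div, eq_div_iff (pow_ne_zero 4 hv), ← pow_mul,
    div_mul_cancel₀ _ (pow_ne_zero _ hv)]
  have h1 := h.rel1
  have h2 := h.rel2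
  unfold ps1 ps2 ps0
  linear_combination ((Y 1 + Y 2 + Y 3 + Y 4) * (be * Y 1 + al * Y 2 + s * Y 3 - s * Y 4)) * h1 -
    ((Y 1 + Y 2 + Y 3 + Y 4) ^ 2) * h2

/-- The third power sum in terms of the coordinates. -/
lemma ChartData.ps3_eq {al be s : K} {Y : Fin 6 → K} (h : ChartData al be s Y) :
    2 * (ps3 al be s Y / ps0 Y) = 2 * wY Y * gY al be Y + 2 * tY al be s Y * dY al be s Y -
      (al + be) * wY Y ^ 2 + (al + be) * tY al be s Y ^ 2 - (al * be - s ^ 2) * tY al be s Y -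
      (al + be) * s ^ 2 + 2 * (-(al + be)) * dY al be s Y - (al * be - s ^ 2) * tY al be s Y := by
  have hv : ps0 Y ≠ 0 := h.v0
  have h1 := h.rel1
  rw [wY, gY, tY, dY]
  field_simp
  unfold ps1 ps2 ps3 ps0
  linear_combination (-1 : K) * h1

end

end MP_d2f638_ag.Stab
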