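import Pool.Agent.Lib.MP_d2f638_ag.Stab.XGen

/-!
# Connectedness of the real points
-/

namespace MP_d2f638_ag.Stab

open Matrix

lemma coneX_iff (al be s : ℝ) (y : Fin 6 → ℝ) :
    (y ⬝ᵥ (AX *ᵥ y) = 0 ∧ y ⬝ᵥ (BX al be s *ᵥ y) = 0) ↔
      (-y 0 ^ 2 - y 1 ^ 2 + y 2 ^ 2 - y 3 ^ 2 + y 4 ^ 2 + y 5 ^ 2 = 0 ∧
      be * y 0 ^ 2 - be * y 1 ^ 2 + al * y 2 ^ 2 - s * y 3 ^ 2 - s * y 4 ^ 2 - al * y 5 ^ 2 = 0) := by
  rw [AX, BX, diag_dot, diag_dot]
  simp only [Fin.sum_univ_six, epX, xsX]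
  simp
  constructor
  · rintro ⟨h1, h2⟩
    exact ⟨by linarith, by linarith⟩
  · rintro ⟨h1, h2⟩
    exact ⟨by linarith, by linarith⟩

/-- The square of the time coordinate. -/
noncomputable def tsqX (al be s : ℝ) (u : EuclideanSpace ℝ (Fin 3)) (v : EuclideanSpace ℝ (Fin 2)) :
    ℝ :=
  (v 0 / √(al + be)) ^ 2 + (v 1 / √(al - be)) ^ 2 + (u 0 / √(s - al)) ^ 2 -
      (u 1 / √(al + s)) ^ 2 - (u 2 / √(2 * al)) ^ 2

/-- The point with given normalised coordinates. -/
noncomputable def ptX (al be s : ℝ) (u : EuclideanSpace ℝ (Fin 3)) (v : EuclideanSpace ℝ (Fin 2)) :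
    Fin 6 → ℝ :=
  ![v 0 / √(al + be), v 1 / √(al - be), √(tsqX al be s u v),
    u 0 / √(s - al), u 1 / √(al + s), u 2 / √(2 * al)]

lemma norm3 {u : EuclideanSpace ℝ (Fin 3)} : ‖u‖ = 1 ↔ u 0 ^ 2 + u 1 ^ 2 + u 2 ^ 2 = 1 := by
  have h := EuclideanSpace.real_norm_sq_eq u
  rw [Fin.sum_univ_three] at h
  rw [← h]
  constructor
  · intro h1
    rw [h1, one_pow]
  · intro h1
    exact (pow_eq_one_iff_of_nonneg (norm_nonneg u) two_ne_zero).1 h1

lemma norm2 {u : EuclideanSpace ℝ (Fin 2)} : ‖u‖ = 1 ↔ u 0 ^ 2 + u 1 ^ 2 = 1 := by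
  have h := EuclideanSpace.real_norm_sq_eq u
  rw [Fin.sum_univ_two] at h
  rw [← h]
  constructor
  · intro h1
    rw [h1, one_pow]
  · intro h1
    exact (pow_eq_one_iff_of_nonneg (norm_nonneg u) two_ne_zero).1 h1

theorem connX {al be s : ℝ} (hbe : 0 < be) (hal : be < al) (hs : al < s) :
    ConnectedSpace (RealPoints AX (BX al be s)) := by
  have p1 : 0 < al + be := by linarith
  have p2 : 0 < al - be := by linarith
  have p3 : 0 < s - al := by linarith
  have p4 : 0 < al + s := by linarith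
  have p5 : 0 < 2 * al := by linarith
  have q1 := Real.sqrt_pos.2 p1
  have q2 := Real.sqrt_pos.2 p2
  have q3 := Real.sqrt_pos.2 p3
  have q4 := Real.sqrt_pos.2 p4
  have q5 := Real.sqrt_pos.2 p5
  have r1 := Real.sq_sqrt p1.le
  have r2 := Real.sq_sqrt p2.le
  have r3 := Real.sq_sqrt p3.le
  have r4 := Real.sq_sqrt p4.le
  have r5 := Real.sq_sqrt p5.le
  -- the radicand
  have hrad : ∀ (u : EuclideanSpace ℝ (Fin 3)) (v : EuclideanSpace ℝ (Fin 2)), ‖u‖ = 1 → ‖v‖ = 1 →
      0 < tsqX al be s u v := by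
    intro u v hu hv
    have h1 := norm3.1 hu
    have h2 := norm2.1 hv
    have e : tsqX al be s u v = v 0 ^ 2 * (1 / (al + be)) + v 1 ^ 2 * (1 / (al - be)) +
        u 0 ^ 2 * (1 / (s - al)) - u 1 ^ 2 * (1 / (al + s)) - u 2 ^ 2 * (1 / (2 * al)) := by
      rw [tsqX]
      simp only [div_pow, r1, r2, r3, r4, r5]
      ring
    rw [e]
    have a1 : 1 / (al + be) ≤ 1 / (al - be) := one_div_le_one_div_of_le p2 (by linarith)
    have a2 : 0 < 1 / (s - al) := by positivity
    have a3 : 1 / (al + s) ≤ 1 / (2 * al) := one_div_le_one_div_of_le p5 (by linarith)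
    have a4 : 1 / (2 * al) < 1 / (al + be) := one_div_lt_one_div_of_lt p1 (by linarith)
    have a5 : 0 < 1 / (2 * al) := by positivity
    have b1 := mul_le_mul_of_nonneg_left a1 (sq_nonneg (v 1))
    have b2 := mul_nonneg (sq_nonneg (u 0)) a2.le
    have b3 := mul_le_mul_of_nonneg_left a3 (sq_nonneg (u 1))
    have b4 := mul_nonneg (sq_nonneg (u 0)) a5.le
    have c1 : (v 0 ^ 2 + v 1 ^ 2) * (1 / (al + be)) = 1 / (al + be) := by rw [h2, one_mul]
    have c2 : (u 0 ^ 2 + u 1 ^ 2 + u 2 ^ 2) * (1 / (2 * al)) = 1 / (2 * al) := by rw [h1, one_mul]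
    nlinarith
  -- the spheres
  have hr3 : (1 : Cardinal) < Module.rank ℝ (EuclideanSpace ℝ (Fin 3)) := by
    rw [← Module.finrank_eq_rank, finrank_euclideanSpace_fin]
    norm_num
  have hr2 : (1 : Cardinal) < Module.rank ℝ (EuclideanSpace ℝ (Fin 2)) := by
    rw [← Module.finrank_eq_rank, finrank_euclideanSpace_fin]
    norm_num
  have c3 : ConnectedSpace (Metric.sphere (0 : EuclideanSpace ℝ (Fin 3)) 1) :=
    Subtype.connectedSpace (isConnected_sphere hr3 0 zero_le_one)
  have c2 : ConnectedSpace (Metric.sphere (0 : EuclideanSpace ℝ (Fin 2)) 1) :=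
    Subtype.connectedSpace (isConnected_sphere hr2 0 zero_le_one)
  have hn3 : ∀ u : Metric.sphere (0 : EuclideanSpace ℝ (Fin 3)) 1, ‖u.1‖ = 1 := fun u => by
    have := u.2
    rwa [mem_sphere_zero_iff_norm] at this
  have hn2 : ∀ u : Metric.sphere (0 : EuclideanSpace ℝ (Fin 2)) 1, ‖u.1‖ = 1 := fun u => by
    have := u.2
    rwa [mem_sphere_zero_iff_norm] at this
  have hmem : ∀ (u : EuclideanSpace ℝ (Fin 3)) (v : EuclideanSpace ℝ (Fin 2)), ‖u‖ = 1 → ‖v‖ = 1 →
      ptX al be s u v ≠ 0 ∧ ptX al be s u v ⬝ᵥ (AX *ᵥ ptX al be s u v) = 0 ∧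
        ptX al be s u v ⬝ᵥ (BX al be s *ᵥ ptX al be s u v) = 0 := by
    intro u v hu hv
    have h0 := hrad u v hu hv
    refine ⟨?_, ?_⟩
    · intro h
      have h1 := congrFun h 2
      have h2 : ptX al be s u v 2 = √(tsqX al be s u v) := rfl
      rw [h2] at h1
      exact (Real.sqrt_pos.2 h0).ne' h1
    · rw [coneX_iff]
      have e0 : ptX al be s u v 0 = v 0 / √(al + be) := rfl
      have e1 : ptX al be s u v 1 = v 1 / √(al - be) := rfl
      have e2 : ptX al be s u v 2 = √(tsqX al be s u v) := rfl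
      have e3 : ptX al be s u v 3 = u 0 / √(s - al) := rfl
      have e4 : ptX al be s u v 4 = u 1 / √(al + s) := rfl
      have e5 : ptX al be s u v 5 = u 2 / √(2 * al) := rfl
      rw [e0, e1, e2, e3, e4, e5, Real.sq_sqrt h0.le, tsqX]
      refine ⟨by ring, ?_⟩
      have k1 := norm3.1 hu
      have k2 := norm2.1 hv
      have f0 : (al + be) * (v 0 / √(al + be)) ^ 2 = v 0 ^ 2 := by
        rw [div_pow, r1]; field_simp
      have f1 : (al - be) * (v 1 / √(al - be)) ^ 2 = v 1 ^ 2 := by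
        rw [div_pow, r2]; field_simp
      have f3 : (s - al) * (u 0 / √(s - al)) ^ 2 = u 0 ^ 2 := by
        rw [div_pow, r3]; field_simp
      have f4 : (al + s) * (u 1 / √(al + s)) ^ 2 = u 1 ^ 2 := by
        rw [div_pow, r4]; field_simp
      have f5 : (2 * al) * (u 2 / √(2 * al)) ^ 2 = u 2 ^ 2 := by
        rw [div_pow, r5, mul_div_cancel₀ _ p5.ne']
      linear_combination f0 + f1 - f3 - f4 - f5 - k1 + k2
  let Ψ : Metric.sphere (0 : EuclideanSpace ℝ (Fin 3)) 1 ×
      Metric.sphere (0 : EuclideanSpace ℝ (Fin 2)) 1 → RealCone AX (BX al be s) :=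
    fun w => ⟨ptX al be s w.1.1 w.2.1, hmem _ _ (hn3 w.1) (hn2 w.2)⟩
  have hΨ : Continuous Ψ := by
    refine Continuous.subtype_mk ?_ _
    refine continuous_pi fun i => ?_
    have g3 : ∀ i : Fin 3, Continuous fun w : Metric.sphere (0 : EuclideanSpace ℝ (Fin 3)) 1 ×
        Metric.sphere (0 : EuclideanSpace ℝ (Fin 2)) 1 => w.1.1 i := by
      intro i
      exact (EuclideanSpace.proj i).continuous.comp (continuous_subtype_val.comp continuous_fst)
    have g2 : ∀ i : Fin 2, Continuous fun w : Metric.sphere (0 : EuclideanSpace ℝ (Fin 3)) 1 ×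
        Metric.sphere (0 : EuclideanSpace ℝ (Fin 2)) 1 => w.2.1 i := by
      intro i
      exact (EuclideanSpace.proj i).continuous.comp (continuous_subtype_val.comp continuous_snd)
    fin_cases i
    · exact (g2 0).div_const _
    · exact (g2 1).div_const _
    · refine Real.continuous_sqrt.comp ?_
      exact ((((((g2 0).div_const _).pow 2).add (((g2 1).div_const _).pow 2)).add
        (((g3 0).div_const _).pow 2)).sub (((g3 1).div_const _).pow 2)).sub
        (((g3 2).div_const _).pow 2)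
    · exact (g3 0).div_const _
    · exact (g3 1).div_const _
    · exact (g3 2).div_const _
  have hsurj : Function.Surjective (fun w => (Quotient.mk (coneSetoid AX (BX al be s)) (Ψ w))) := by
    intro z
    obtain ⟨y, rfl⟩ := Quotient.exists_rep z
    obtain ⟨hA, hB⟩ := (coneX_iff al be s y.1).1 y.2.2
    set Y := y.1 with hY
    have hN : (s - al) * Y 3 ^ 2 + (al + s) * Y 4 ^ 2 + 2 * al * Y 5 ^ 2 =
        (al + be) * Y 0 ^ 2 + (al - be) * Y 1 ^ 2 := by
      linear_combination al * hA - hB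
    set N := (al + be) * Y 0 ^ 2 + (al - be) * Y 1 ^ 2 with hNdef
    have hN0 : 0 ≤ N := by positivity
    have hNpos : 0 < N := by
      rcases hN0.lt_or_eq with h | h
      · exact h
      · exfalso
        have k0 : (al + be) * Y 0 ^ 2 = 0 := by
          have h1 : 0 ≤ (al + be) * Y 0 ^ 2 := by positivity
          have h2 : 0 ≤ (al - be) * Y 1 ^ 2 := by positivity
          linarith
        have k1 : (al - be) * Y 1 ^ 2 = 0 := by linarith
        have k3 : (s - al) * Y 3 ^ 2 = 0 := by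
          have h1 : 0 ≤ (s - al) * Y 3 ^ 2 := by positivity
          have h2 : 0 ≤ (al + s) * Y 4 ^ 2 := by positivity
          have h3 : 0 ≤ 2 * al * Y 5 ^ 2 := by positivity
          linarith
        have k4 : (al + s) * Y 4 ^ 2 = 0 := by
          have h2 : 0 ≤ (al + s) * Y 4 ^ 2 := by positivity
          have h3 : 0 ≤ 2 * al * Y 5 ^ 2 := by positivity
          linarith
        have k5 : 2 * al * Y 5 ^ 2 = 0 := by linarith
        have m0 : Y 0 ^ 2 = 0 := (mul_eq_zero.1 k0).resolve_left p1.ne'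
        have m1 : Y 1 ^ 2 = 0 := (mul_eq_zero.1 k1).resolve_left p2.ne'
        have m3 : Y 3 ^ 2 = 0 := (mul_eq_zero.1 k3).resolve_left p3.ne'
        have m4 : Y 4 ^ 2 = 0 := (mul_eq_zero.1 k4).resolve_left p4.ne'
        have m5 : Y 5 ^ 2 = 0 := (mul_eq_zero.1 k5).resolve_left p5.ne'
        have m2 : Y 2 ^ 2 = 0 := by linarith
        apply y.2.1
        funext i
        have hz : ∀ t : ℝ, t ^ 2 = 0 → t = 0 := fun t ht => pow_eq_zero_iff (two_ne_zero) |>.1 ht
        fin_cases i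
        · exact hz _ m0
        · exact hz _ m1
        · exact hz _ m2
        · exact hz _ m3
        · exact hz _ m4
        · exact hz _ m5
    have hr : 0 < √N := Real.sqrt_pos.2 hNpos
    have hr2 : √N ^ 2 = N := Real.sq_sqrt hN0
    obtain ⟨σ, hσ, hσy⟩ : ∃ σ : ℝ, σ ^ 2 = 1 ∧ 0 ≤ σ * Y 2 := by
      rcases le_total 0 (Y 2) with h | h
      · exact ⟨1, by ring, by linarith⟩
      · exact ⟨-1, by ring, by linarith⟩
    set c := σ / √N with hc
    have hc2 : c ^ 2 * N = 1 := by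
      rw [hc, div_pow, hσ, hr2]
      field_simp
    have hc0 : c ≠ 0 := by
      intro h0
      rw [h0] at hc2
      norm_num at hc2
    have hcy : 0 ≤ c * Y 2 := by
      have : c * Y 2 = (σ * Y 2) / √N := by rw [hc]; ring
      rw [this]
      exact div_nonneg hσy hr.le
    let u : EuclideanSpace ℝ (Fin 3) :=
      !₂[√(s - al) * (c * Y 3), √(al + s) * (c * Y 4), √(2 * al) * (c * Y 5)]
    let v : EuclideanSpace ℝ (Fin 2) := !₂[√(al + be) * (c * Y 0), √(al - be) * (c * Y 1)]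
    have u0 : u 0 = √(s - al) * (c * Y 3) := rfl
    have u1 : u 1 = √(al + s) * (c * Y 4) := rfl
    have u2 : u 2 = √(2 * al) * (c * Y 5) := rfl
    have v0 : v 0 = √(al + be) * (c * Y 0) := rfl
    have v1 : v 1 = √(al - be) * (c * Y 1) := rfl
    have hu : ‖u‖ = 1 := by
      rw [norm3, u0, u1, u2]
      linear_combination (c * Y 3) ^ 2 * r3 + (c * Y 4) ^ 2 * r4 + (c * Y 5) ^ 2 * r5 +
        c ^ 2 * hN + hc2
    have hv : ‖v‖ = 1 := by
      rw [norm2, v0, v1]
      linear_combination (c * Y 0) ^ 2 * r1 + (c * Y 1) ^ 2 * r2 - c ^ 2 * hNdef + hc2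
    have w0 : v 0 / √(al + be) = c * Y 0 := by rw [v0]; field_simp
    have w1 : v 1 / √(al - be) = c * Y 1 := by rw [v1]; field_simp
    have w3 : u 0 / √(s - al) = c * Y 3 := by rw [u0]; field_simp
    have w4 : u 1 / √(al + s) = c * Y 4 := by rw [u1]; field_simp
    have w5 : u 2 / √(2 * al) = c * Y 5 := by rw [u2]; field_simp
    have w2 : √(tsqX al be s u v) = c * Y 2 := by
      have e : tsqX al be s u v = (c * Y 2) ^ 2 := by
        rw [tsqX, w0, w1, w3, w4, w5]
        linear_combination (-c ^ 2) * hA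
      rw [e, Real.sqrt_sq hcy]
    refine ⟨(⟨u, by rw [mem_sphere_zero_iff_norm]; exact hu⟩,
      ⟨v, by rw [mem_sphere_zero_iff_norm]; exact hv⟩), ?_⟩
    symm
    apply Quotient.sound
    refine ⟨c, hc0, ?_⟩
    show ptX al be s u v = c • Y
    funext i
    fin_cases i
    · exact w0
    · exact w1
    · exact w2
    · exact w3
    · exact w4
    · exact w5
  have hcont : Continuous (fun w => (Quotient.mk (coneSetoid AX (BX al be s)) (Ψ w))) :=
    continuous_quotient_mk'.comp hΨ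
  exact hsurj.connectedSpace hcont

end MP_d2f638_ag.Stab
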