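import Pool.Agent.Lib.MP_d2f638_ag.Generic
import Pool.Agent.Lib.MP_d2f638_ag.Conn
import Pool.Agent.Lib.MP_d2f638_ag.TrdegRF
import Pool.Agent.Lib.MP_d2f638_ag.Trdeg

/-!
# Diagonal pencils: smoothness, generic points
-/

namespace MP_d2f638_ag.Stab

open MvPolynomial Matrix

/-- A pencil of diagonal forms with distinct roots is smooth. -/
lemma smooth_diag {ι : Type} [Fintype ι] [DecidableEq ι] {e x : ι → ℝ} (he : ∀ i, e i ≠ 0)
    (hx : Function.Injective x) :
    SmoothCI (Matrix.diagonal e) (Matrix.diagonal (fun i => e i * x i)) := by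
  intro z hz h1 h2
  have hcx : ∀ w : ι → ℝ, cx (Matrix.diagonal w) = Matrix.diagonal (fun i => (w i : ℂ)) := by
    intro w
    rw [cx, Matrix.diagonal_map (by simp)]
    rfl
  have hA : ∀ i, (cx (Matrix.diagonal e) *ᵥ z) i = (e i : ℂ) * z i := by
    intro i
    rw [hcx, Matrix.mulVec_diagonal]
  have hB : ∀ i, (cx (Matrix.diagonal (fun i => e i * x i)) *ᵥ z) i =
      (e i : ℂ) * (x i : ℂ) * z i := by
    intro i
    rw [hcx, Matrix.mulVec_diagonal]
    push_cast
    ring
  rw [LinearIndependent.pair_iff]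
  intro s t hst
  obtain ⟨i0, hi0⟩ := Function.ne_iff.1 hz
  have hi0' : z i0 ≠ 0 := hi0
  have hk : ∀ i, z i ≠ 0 → s + t * (x i : ℂ) = 0 := by
    intro i hi
    have h3 := congrFun hst i
    rw [Pi.add_apply, Pi.smul_apply, Pi.smul_apply, hA, hB, smul_eq_mul, smul_eq_mul,
      Pi.zero_apply] at h3
    have h4 : ((e i : ℂ) * z i) * (s + t * (x i : ℂ)) = 0 := by linear_combination h3
    have h5 : (e i : ℂ) ≠ 0 := by exact_mod_cast he i
    exact (mul_eq_zero.1 h4).resolve_left (mul_ne_zero h5 hi)
  by_cases ht : t = 0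
  · refine ⟨?_, ht⟩
    have h3 := hk i0 hi0'
    rw [ht] at h3
    linear_combination h3
  · exfalso
    have hsupp : ∀ i, i ≠ i0 → z i = 0 := by
      intro i hi
      by_contra hzi
      have h3 := hk i0 hi0'
      have h4 := hk i hzi
      have h5 : t * ((x i : ℂ) - (x i0 : ℂ)) = 0 := by linear_combination h4 - h3
      have h6 := (mul_eq_zero.1 h5).resolve_left ht
      have h7 : x i = x i0 := by exact_mod_cast sub_eq_zero.1 h6
      exact hi (hx h7)
    have h3 : z ⬝ᵥ (cx (Matrix.diagonal e) *ᵥ z) = (e i0 : ℂ) * z i0 ^ 2 := by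
      rw [dotProduct, Finset.sum_eq_single i0]
      · rw [hA]
        ring
      · intro i _ hi
        rw [hsupp i hi, zero_mul]
      · intro h
        exact absurd (Finset.mem_univ i0) h
    rw [h3] at h1
    have h5 : (e i0 : ℂ) ≠ 0 := by exact_mod_cast he i0
    exact mul_ne_zero h5 (pow_ne_zero 2 hi0') h1

/-- Renaming the variables. -/
lemma GenPt_reindex {ι ι' : Type} [Fintype ι] [Fintype ι'] {A B : Matrix ι ι ℝ} {L : Type}
    [Field L] [Algebra ℝ L] {x : ι → L} (e : ι ≃ ι') (h : GenPt A B x) :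
    GenPt (A.submatrix e.symm e.symm) (B.submatrix e.symm e.symm) (x ∘ e.symm) := by
  have hq : ∀ {α β : Type} [Fintype α] [Fintype β] (f : α ≃ β) (M : Matrix α α ℝ),
      rename f (quad M) = quad (M.submatrix f.symm f.symm) := by
    intro α β _ _ f M
    simp only [quad, map_sum, map_mul, rename_C, rename_X, Matrix.submatrix_apply]
    rw [← Equiv.sum_comp f]
    refine Finset.sum_congr rfl fun i _ => ?_
    rw [← Equiv.sum_comp f]
    simp only [Equiv.symm_apply_apply]
  have hmem : ∀ {α β : Type} [Fintype α] [Fintype β] (f : α ≃ β) (M N : Matrix α α ℝ)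
      (p : MvPolynomial α ℝ), p ∈ idealX M N →
      rename f p ∈ idealX (M.submatrix f.symm f.symm) (N.submatrix f.symm f.symm) := by
    intro α β _ _ f M N p hp
    have h1 : idealX M N ≤ (idealX (M.submatrix f.symm f.symm)
        (N.submatrix f.symm f.symm)).comap (rename f).toRingHom := by
      rw [idealX, Ideal.span_le]
      rintro q (rfl | rfl)
      · exact Ideal.subset_span (Or.inl (hq f M))
      · exact Ideal.subset_span (Or.inr (hq f N))
    exact h1 hp
  intro p
  have h1 : aeval (x ∘ e.symm) p = aeval x (rename e.symm p) := by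
    rw [aeval_rename]
  rw [h1, h]
  constructor
  · intro hp
    have h2 := hmem e _ _ _ hp
    rwa [rename_rename, Equiv.self_comp_symm, rename_id_apply] at h2
  · intro hp
    have h2 := hmem e.symm _ _ _ hp
    simpa [Matrix.submatrix_submatrix] using h2

/-- The coordinates in the fraction field are a generic point. -/
lemma genPt_coord {ι : Type} [Fintype ι] (A B : Matrix ι ι ℝ) [hp : (idealX A B).IsPrime] :
    GenPt A B (coord A B) := by
  intro p
  have h1 : aeval (coord A B) p =
      algebraMap (MvPolynomial ι ℝ ⧸ idealX A B)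
        (FractionRing (MvPolynomial ι ℝ ⧸ idealX A B)) (Ideal.Quotient.mk (idealX A B) p) := by
    induction p using MvPolynomial.induction_on with
    | C a =>
      rw [MvPolynomial.aeval_C]
      rfl
    | add p q hp hq =>
      rw [map_add, hp, hq, map_add]
      exact (map_add (algebraMap (MvPolynomial ι ℝ ⧸ idealX A B)
        (FractionRing (MvPolynomial ι ℝ ⧸ idealX A B))) _ _).symm
    | mul_X p i hp =>
      rw [map_mul, hp, map_mul, aeval_X]
      exact (map_mul (algebraMap (MvPolynomial ι ℝ ⧸ idealX A B)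
        (FractionRing (MvPolynomial ι ℝ ⧸ idealX A B))) _ _).symm
  rw [h1]
  constructor
  · intro h
    have h2 : Function.Injective (algebraMap (MvPolynomial ι ℝ ⧸ idealX A B)
        (FractionRing (MvPolynomial ι ℝ ⧸ idealX A B))) :=
      IsFractionRing.injective _ _
    have h3 := h2 (h.trans (map_zero (algebraMap (MvPolynomial ι ℝ ⧸ idealX A B)
        (FractionRing (MvPolynomial ι ℝ ⧸ idealX A B)))).symm)
    exact Ideal.Quotient.eq_zero_iff_mem.1 h3
  · intro h
    rw [Ideal.Quotient.eq_zero_iff_mem.2 h]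
    exact map_zero (algebraMap (MvPolynomial ι ℝ ⧸ idealX A B)
        (FractionRing (MvPolynomial ι ℝ ⧸ idealX A B)))

/-- Algebraic independence of coordinates is a property of the ideal. -/
lemma algInd_of_genPt {ι κ : Type} [Fintype ι] {A B : Matrix ι ι ℝ} {L L' : Type} [Field L]
    [Algebra ℝ L] [Field L'] [Algebra ℝ L'] {x : ι → L} {x' : ι → L'} (h : GenPt A B x)
    (h' : GenPt A B x') (f : κ → ι) (hf : AlgebraicIndependent ℝ (fun k => x (f k))) :
    AlgebraicIndependent ℝ (fun k => x' (f k)) := by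
  rw [algebraicIndependent_iff] at hf ⊢
  intro p hp
  apply hf p
  have h1 : aeval x' (rename f p) = 0 := by
    rw [aeval_rename]
    exact hp
  have h2 := (h _).2 ((h' _).1 h1)
  rw [aeval_rename] at h2
  exact h2

end MP_d2f638_ag.Stab
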