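import Pool.Agent.Lib.MP_d2f638_ag.Stab.XDiag

/-!
# The diagonal pencil with the roots `±s`, `±al`, `±be`: a generic point
-/

namespace MP_d2f638_ag.Stab

open MvPolynomial Matrix

/-- Numbering of the variables. -/
def eIdx : Fin 4 ⊕ Bool ≃ Fin 6 where
  toFun := Sum.elim (fun i => Fin.castLE (by norm_num) i) (fun b => if b then 5 else 4)
  invFun := ![Sum.inl 0, Sum.inl 1, Sum.inl 2, Sum.inl 3, Sum.inr false, Sum.inr true]
  left_inv := by decide
  right_inv := by decide

/-- The signs. -/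
def epX : Fin 6 → ℝ := ![-1, -1, 1, -1, 1, 1]

/-- The roots. -/
def xsX (al be s : ℝ) : Fin 6 → ℝ := ![-be, be, al, s, -s, -al]

/-- The first form. -/
noncomputable def AX : Matrix (Fin 6) (Fin 6) ℝ := Matrix.diagonal epX

/-- The second form. -/
noncomputable def BX (al be s : ℝ) : Matrix (Fin 6) (Fin 6) ℝ :=
  Matrix.diagonal (fun i => epX i * xsX al be s i)

/-- The first part of the first form. -/
noncomputable def FX : Matrix (Fin 4) (Fin 4) ℝ := Matrix.diagonal ![-1, -1, 1, -1]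

/-- The first part of the second form. -/
noncomputable def GX (al be s : ℝ) : Matrix (Fin 4) (Fin 4) ℝ :=
  Matrix.diagonal ![be, -be, al, -s]

lemma extA_sub : (extA FX).submatrix eIdx.symm eIdx.symm = AX := by
  ext i j
  fin_cases i <;> fin_cases j <;>
    simp [extA, FX, AX, eIdx, epX, Matrix.diagonal, Matrix.fromBlocks]

lemma extB_sub (al be s : ℝ) :
    (extB (GX al be s) (fun b => if b then -al else -s)).submatrix eIdx.symm eIdx.symm =
      BX al be s := by
  ext i j
  fin_cases i <;> fin_cases j <;>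
    simp [extB, GX, BX, eIdx, epX, xsX, Matrix.diagonal, Matrix.fromBlocks]

lemma exists_genPt {al be s : ℝ} (hbe : 0 < be) (hal : be < al) (hs : al < s) :
    ∃ (Ω' : Type) (_ : Field Ω') (_ : Algebra ℝ Ω') (ξ : Fin 6 → Ω'), GenPt AX (BX al be s) ξ ∧
      AlgebraicIndependent ℝ (fun k : Fin 4 => ξ (eIdx (Sum.inl k))) := by
  set c : Bool → ℝ := fun b => if b then -al else -s with hc
  have hcf : c false = -s := rfl
  have hct : c true = -al := rfl
  have hne : c false ≠ c true := by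
    rw [hcf, hct]
    intro h
    linarith
  have hev : ∀ (a b : ℝ) (z : Fin 4 → ℝ), eval z (sol FX (GX al be s) a b) =
      (a - b)⁻¹ * (b * (-z 0 ^ 2 - z 1 ^ 2 + z 2 ^ 2 - z 3 ^ 2) -
        (be * z 0 ^ 2 - be * z 1 ^ 2 + al * z 2 ^ 2 - s * z 3 ^ 2)) := by
    intro a b z
    rw [eval_sol, bl_apply, bl_apply]
    congr 1
    simp only [Fin.sum_univ_four, FX, GX, Matrix.diagonal_apply]
    simp
    ring
  have h1 : eval (![1, 0, 0, 0] : Fin 4 → ℝ) (sol FX (GX al be s) (c false) (c true)) < 0 := by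
    rw [hev, hcf, hct]
    simp only [Matrix.cons_val_zero, Matrix.cons_val_one, Matrix.cons_val]
    have e1 : (-s - -al)⁻¹ < 0 := inv_lt_zero.2 (by linarith)
    refine mul_neg_of_neg_of_pos e1 ?_
    nlinarith
  have h2 : eval (![0, 0, 1, 0] : Fin 4 → ℝ) (sol FX (GX al be s) (c true) (c false)) < 0 := by
    rw [hev, hcf, hct]
    simp only [Matrix.cons_val_zero, Matrix.cons_val_one, Matrix.cons_val]
    have e1 : 0 < (-al - -s)⁻¹ := inv_pos.2 (by linarith)
    refine mul_neg_of_pos_of_neg e1 ?_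
    nlinarith
  have h3 : 0 < eval (![1, 0, 0, 0] : Fin 4 → ℝ) (sol FX (GX al be s) (c true) (c false)) := by
    rw [hev, hcf, hct]
    simp only [Matrix.cons_val_zero, Matrix.cons_val_one, Matrix.cons_val]
    have e1 : 0 < (-al - -s)⁻¹ := inv_pos.2 (by linarith)
    refine mul_pos e1 ?_
    nlinarith
  have h4 : eval (![1, 0, 0, 0] : Fin 4 → ℝ) (sol FX (GX al be s) (c false) (c true) *
      sol FX (GX al be s) (c true) (c false)) < 0 := by
    rw [map_mul]
    exact mul_neg_of_neg_of_pos h1 h3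
  let Φ := FractionRing (MvPolynomial (Fin 4) ℝ)
  let Ω' := AlgebraicClosure Φ
  let x : Fin 4 → Ω' := fun i => algebraMap Φ Ω' (algebraMap (MvPolynomial (Fin 4) ℝ) Φ (X i))
  have hx : AlgebraicIndependent ℝ x := by
    rw [algebraicIndependent_iff_injective_aeval]
    have h5 : (aeval x : MvPolynomial (Fin 4) ℝ →ₐ[ℝ] Ω') =
        (IsScalarTower.toAlgHom ℝ Φ Ω').comp
          (IsScalarTower.toAlgHom ℝ (MvPolynomial (Fin 4) ℝ) Φ) := by
      ext i
      simp [x]
    rw [h5]
    exact (algebraMap Φ Ω').injective.comp (IsFractionRing.injective (MvPolynomial (Fin 4) ℝ) Φ)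
  obtain ⟨ξ1, e1⟩ := IsAlgClosed.exists_pow_nat_eq (k := Ω')
    (aeval x (sol FX (GX al be s) (c false) (c true))) (n := 2) (by norm_num)
  obtain ⟨ξ2, e2⟩ := IsAlgClosed.exists_pow_nat_eq (k := Ω')
    (aeval x (sol FX (GX al be s) (c true) (c false))) (n := 2) (by norm_num)
  have hgen : GenPt (extA FX) (extB (GX al be s) c)
      (Sum.elim x (fun b => if b then ξ2 else ξ1)) := by
    intro p
    rw [idealX_ext _ _ c hne]
    exact mem_sqIdeal_iff two_ne_zero (NS.of_neg h1) (NS.of_neg h2) (NS.of_neg h4) x hx e1 e2 p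
  have hgen' := GenPt_reindex eIdx hgen
  rw [extA_sub, hc, extB_sub] at hgen'
  refine ⟨Ω', inferInstance, inferInstance, _, hgen', ?_⟩
  have h6 : (fun k : Fin 4 => ((Sum.elim x (fun b => if b then ξ2 else ξ1)) ∘ eIdx.symm)
      (eIdx (Sum.inl k))) = x := by
    funext k
    simp
  rw [h6]
  exact hx

end MP_d2f638_ag.Stab
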